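import Pool.Agent.Lib.OD.Blue
import Pool.Agent.Lib.OD.Mins

set_option autoImplicit false

namespace Pool.Agent.OD66

namespace CLKF

/-- all residues -/
def res : List ℕ := [0, 1, 2, 3, 4, 5, 6, 7, 8, 9, 10]

/-- row `x` of `m` -/
def row (m x : ℕ) : ℕ := Nat.mod (Nat.shiftRight m (11 * x)) 2048

/-- row `x` of the composite -/
def crow (m1 m2 x : ℕ) : ℕ :=
  res.foldr (fun p a => cond (m1.testBit (11 * x + p)) (Nat.lor (row m2 p) a) a) 0

/-- the rows at `0`, `1`, `-1` of the composite contain a member of `F` -/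
def rowc (F : List ℕ) (a : ℕ) : Bool := F.any fun k => Nat.beq (Nat.land k a) k

/-- arcs starting at `1`, `-1`, `0` -/
def prs : Bool → Bool → List (ℕ × ℕ)
  | false, false => [(1, 3), (1, 9), (10, 6), (10, 7), (0, 2), (0, 6), (0, 7), (0, 8), (0, 10)]
  | false, true => [(1, 0), (1, 7), (1, 8), (10, 1), (10, 5), (10, 9)]
  | true, false => [(1, 4), (1, 5), (10, 0), (10, 2), (10, 8)]
  | true, true => [(1, 2), (1, 6), (1, 10), (10, 3), (10, 4), (0, 1), (0, 3), (0, 4), (0, 5), (0, 9)]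

/-- the point of slope `k` on the arc `z` is a middle -/
def hit (m1 m2 : ℕ) (z : ℕ × ℕ) (k : ℕ) : Bool :=
  m1.testBit (11 * z.1 + (z.1 + k * (z.2 + 10 * z.1)) % 11) &&
    m2.testBit (11 * ((z.1 + k * (z.2 + 10 * z.1)) % 11) + z.2)

/-- two middles of different slopes -/
def two (m1 m2 : ℕ) (L : List (ℕ × ℕ)) : Bool :=
  L.any fun z => res.any fun k => hit m1 m2 z k &&
    L.any fun z' => res.any fun k' => !(Nat.beq k k') && hit m1 m2 z' k'

theorem chk_CL : ∀ e1 e2 : Bool, ((mins e1).all fun m1 => (mins e2).all fun m2 =>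
    rowc (tri (xor e1 e2)) (Nat.lor (crow m1 m2 0)
      (Nat.lor (Nat.shiftLeft (crow m1 m2 1) 11) (Nat.shiftLeft (crow m1 m2 10) 22)))) = true := by
  decide +kernel

theorem chk_M1 : ∀ e1 e2 d : Bool, ((mins e1).all fun m1 => (mins e2).all fun m2 =>
    two m1 m2 (prs d (xor e1 e2))) = true := by
  decide +kernel

theorem chk_K2 : ∀ e d : Bool, ∀ τ ∈ fam e,
    (∃ y ∈ τ.2.1, T1 d e 1 y) ∨ ∃ y ∈ τ.2.2, T1 d e (-1) y := by
  decide +kernel

theorem chk_prs : ∀ d e : Bool, ∀ z ∈ prs d e,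
    z.1 < 11 ∧ z.2 < 11 ∧ T1 d e (z.1 : Z) (z.2 : Z) := by
  decide +kernel

theorem res_lt : ∀ p ∈ res, p < 11 := by decide

theorem T1_ne : ∀ (d e : Bool) (x y : Z), T1 d e x y → y - x ≠ 0 := by
  decide +kernel

theorem canc : ∀ a b t : Z, t ≠ 0 → a * t = b * t → a = b := by
  decide +kernel

theorem row_bit {m x y : ℕ} (h : (row m x).testBit y = true) :
    y < 11 ∧ m.testBit (11 * x + y) = true := by
  have e : row m x = (m >>> (11 * x)) % 2 ^ 11 := rfl
  rw [e, Nat.testBit_mod_two_pow, Nat.testBit_shiftRight] at h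
  simpa using h

theorem crow_bit {m1 m2 x y : ℕ} (h : (crow m1 m2 x).testBit y = true) :
    y < 11 ∧ ∃ p < 11, m1.testBit (11 * x + p) = true ∧ m2.testBit (11 * p + y) = true := by
  have key : ∀ l : List ℕ, (l.foldr (fun p a => cond (m1.testBit (11 * x + p))
      (Nat.lor (row m2 p) a) a) 0).testBit y = true →
      y < 11 ∧ ∃ p ∈ l, m1.testBit (11 * x + p) = true ∧ m2.testBit (11 * p + y) = true := by
    intro l
    induction l with
    | nil => simp
    | cons p l ih =>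
      intro h
      rw [List.foldr_cons] at h
      cases hp : m1.testBit (11 * x + p) with
      | false =>
        rw [hp, cond_false] at h
        obtain ⟨a, q, hq, b⟩ := ih h
        exact ⟨a, q, List.mem_cons_of_mem _ hq, b⟩
      | true =>
        rw [hp, cond_true, Nat.lor_eq, Nat.testBit_or, Bool.or_eq_true] at h
        rcases h with h | h
        · exact ⟨(row_bit h).1, p, List.mem_cons_self, hp, (row_bit h).2⟩
        · obtain ⟨a, q, hq, b⟩ := ih h
          exact ⟨a, q, List.mem_cons_of_mem _ hq, b⟩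
  obtain ⟨a, p, hp, b⟩ := key res h
  exact ⟨a, p, res_lt p hp, b⟩

theorem rows {e1 e2 : Bool} {R1 R2 : Z → Z → Prop} (h1 : Ty e1 R1) (h2 : Ty e2 R2) :
    RowOK (xor e1 e2) fun x y => ∃ p, R1 x p ∧ R2 p y := by
  obtain ⟨m1, hm1, k1⟩ := ty_min h1
  obtain ⟨m2, hm2, k2⟩ := ty_min h2
  have h := List.all_eq_true.1 (List.all_eq_true.1 (chk_CL e1 e2) m1 hm1) m2 hm2
  obtain ⟨k, hk, h⟩ := List.any_eq_true.1 h
  have h' := Nat.eq_of_beq_eq_true h
  have hb : ∀ i, k.testBit i = true → (crow m1 m2 0).testBit i = true ∨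
      (11 ≤ i ∧ (crow m1 m2 1).testBit (i - 11) = true) ∨
      (22 ≤ i ∧ (crow m1 m2 10).testBit (i - 22) = true) := by
    intro i hi
    rw [← h', Nat.land_eq, Nat.testBit_and, Bool.and_eq_true] at hi
    have := hi.2
    simpa only [Nat.lor_eq, Nat.shiftLeft_eq', Nat.testBit_or, Nat.testBit_shiftLeft,
      Bool.or_eq_true, Bool.and_eq_true, decide_eq_true_eq, ge_iff_le] using this
  have fin : ∀ (x : ℕ) (y : Z), x < 11 → (crow m1 m2 x).testBit y.val = true →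
      ∃ p, R1 (x : Z) p ∧ R2 p y := by
    intro x y hx h
    obtain ⟨hy, p, hp, a, b⟩ := crow_bit h
    refine ⟨p, k1 _ _ (bt_of hx hp a), k2 _ _ ?_⟩
    have := bt_of hp hy b
    rwa [ZMod.natCast_zmod_val] at this
  have e0 : ((0 : ℕ) : Z) = 0 := Nat.cast_zero
  have e1' : ((1 : ℕ) : Z) = 1 := Nat.cast_one
  have e2' : ((10 : ℕ) : Z) = -1 := by decide
  refine rowOK_of hk (fun y hy => ?_) (fun y hy => ?_) fun y hy => ?_
  · have hv : y.val < 11 := ZMod.val_lt y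
    rcases hb _ hy with h | h | h
    · exact e0 ▸ fin 0 y (by omega) h
    · omega
    · omega
  · have hv : y.val < 11 := ZMod.val_lt y
    rcases hb _ hy with h | h | h
    · have := (crow_bit h).1
      omega
    · rw [Nat.add_sub_cancel_left] at h
      exact e1' ▸ fin 1 y (by omega) h.2
    · omega
  · rcases hb _ hy with h | h | h
    · have := (crow_bit h).1
      omega
    · have := (crow_bit h.2).1
      omega
    · rw [Nat.add_sub_cancel_left] at h
      exact e2' ▸ fin 10 y (by omega) h.2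

theorem hit_ok {m1 m2 : ℕ} {z : ℕ × ℕ} {k : ℕ} (h1 : z.1 < 11) (h2 : z.2 < 11)
    (h : hit m1 m2 z k = true) :
    bt m1 (z.1 : Z) ((z.1 : Z) + (k : Z) * ((z.2 : Z) - (z.1 : Z))) ∧
      bt m2 ((z.1 : Z) + (k : Z) * ((z.2 : Z) - (z.1 : Z))) (z.2 : Z) := by
  unfold hit at h
  rw [Bool.and_eq_true] at h
  have hl : (z.1 + k * (z.2 + 10 * z.1)) % 11 < 11 := Nat.mod_lt _ (by norm_num)
  have he : (((z.1 + k * (z.2 + 10 * z.1)) % 11 : ℕ) : Z) =
      (z.1 : Z) + (k : Z) * ((z.2 : Z) - (z.1 : Z)) := by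
    rw [ZMod.natCast_mod]
    push_cast
    have : (10 : Z) = -1 := by decide
    rw [this]
    ring
  rw [← he]
  exact ⟨bt_of h1 hl h.1, bt_of hl h2 h.2⟩

end CLKF

open CLKF

theorem blk_CL : St_CL := by
  intro e1 e2 R1 R2 h1 h2
  refine ⟨?_, rows h1 h2, ?_⟩
  · rintro c hc x y ⟨p, a, b⟩
    exact ⟨c * p, ty_sym h1 c hc _ _ a, ty_sym h2 c hc _ _ b⟩
  · have h := rows (ty_inv h2) (ty_inv h1)
    rw [Bool.xor_comm] at h
    obtain ⟨τ, hτ, h0, h1, h2⟩ := h
    refine ⟨τ, hτ, fun y hy => ?_, fun y hy => ?_, fun y hy => ?_⟩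
    · obtain ⟨p, a, b⟩ := h0 y hy
      exact ⟨p, b, a⟩
    · obtain ⟨p, a, b⟩ := h1 y hy
      exact ⟨p, b, a⟩
    · obtain ⟨p, a, b⟩ := h2 y hy
      exact ⟨p, b, a⟩

theorem blk_OP : St_OP := by
  refine ⟨?_, ?_⟩
  · decide +kernel
  · decide +kernel

theorem blk_KFIN : St_KFIN := by
  intro e M h d μ
  rcases h with h | h | h
  · obtain ⟨_, ⟨τ, hτ, _, ha, hb⟩, _⟩ := h
    rcases chk_K2 e d τ hτ with ⟨y, hy, h⟩ | ⟨y, hy, h⟩
    · exact ⟨1, y, h, ha y hy _⟩
    · exact ⟨-1, y, h, hb y hy _⟩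
  · obtain ⟨e1, e2, R1, R2, rfl, h1, h2, hM⟩ := h
    obtain ⟨m1, hm1, k1⟩ := ty_min h1
    obtain ⟨m2, hm2, k2⟩ := ty_min h2
    have h := List.all_eq_true.1 (List.all_eq_true.1 (chk_M1 e1 e2 d) m1 hm1) m2 hm2
    unfold two at h
    obtain ⟨z, hz, h⟩ := List.any_eq_true.1 h
    obtain ⟨k, hk, h⟩ := List.any_eq_true.1 h
    rw [Bool.and_eq_true] at h
    obtain ⟨hh, h⟩ := h
    obtain ⟨z', hz', h⟩ := List.any_eq_true.1 h
    obtain ⟨k', hk', h⟩ := List.any_eq_true.1 h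
    rw [Bool.and_eq_true] at h
    obtain ⟨hne, hh'⟩ := h
    have key : ∀ z ∈ prs d (xor e1 e2), ∀ k : ℕ, hit m1 m2 z k = true → (k : Z) ≠ μ →
        ∃ x y, T1 d (xor e1 e2) x y ∧ M x y (x + μ * (y - x)) := by
      intro z hz k hh hk
      obtain ⟨a, b, c⟩ := chk_prs d _ z hz
      obtain ⟨u, v⟩ := hit_ok a b hh
      refine ⟨_, _, c, hM _ _ _ _ (k1 _ _ u) (k2 _ _ v) fun hc => hk ?_⟩
      exact canc _ _ _ (T1_ne _ _ _ _ c) (add_left_cancel hc)
    by_cases hk1 : (k : Z) = μ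
    · refine key z' hz' k' hh' fun hc => ?_
      have : (k : Z).val = (k' : Z).val := by rw [hk1, hc]
      rw [ZMod.val_cast_of_lt (res_lt k hk), ZMod.val_cast_of_lt (res_lt k' hk')] at this
      subst this
      simp at hne
    · exact key z hz k hh hk1
  · exact h.2 d μ

end Pool.Agent.OD66
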