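import Pool.Agent.Lib.OD.Blue

set_option autoImplicit false

namespace Pool.Agent.OD66

open Equiv Pool.Agent.Lib.MP_bfaad3_co

theorem colf_arc_asym : ∀ a b : Col, arc a b = true → arc b a = false := by
  decide +kernel

theorem colf_ok_symm {W : Type} {o : W → W → Bool} (ho : Tour o) (c : W → Col) {x y : W}
    (hxy : x ≠ y) (h : ok o c x y) : ok o c y x := by
  unfold ok at h ⊢
  rw [ho x y hxy]
  cases hb : o x y
  · rw [hb] at h
    simpa using h
  · rw [hb] at h
    simpa using h

/-- the reverse of a dart is not on the face of the dart -/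
theorem colf_al_not {D W : Type} {al ph : Perm D} {be : D → W} (T : TMap al ph be) (d : D) :
    al d ≠ d ∧ al d ≠ ph d ∧ al d ≠ ph (ph d) := by
  refine ⟨fun h => T.nl d (by rw [h]), fun h => ?_, fun h => ?_⟩
  · have h1 : be (al (ph (ph d))) = be d := by rw [← T.hd, T.ph3]
    have h2 : be (ph (ph d)) = be d := by rw [T.hd, ← h, T.al2]
    exact T.nl (ph (ph d)) (h1.trans h2.symm)
  · have h1 : be (al (ph d)) = be (ph d) := by rw [← T.hd, ← h, T.hd]
    exact T.nl _ h1

/-- the face of a dart -/
def colf_F {D : Type} (ph : Perm D) (c : D) : Set D := {d | d = c ∨ d = ph c ∨ d = ph (ph c)}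

theorem colf_F_ph {D W : Type} {al ph : Perm D} {be : D → W} (T : TMap al ph be) (c d : D) :
    d ∈ colf_F ph c ↔ ph d ∈ colf_F ph c := by
  constructor
  · rintro (h | h | h)
    · exact Or.inr (Or.inl (by rw [h]))
    · exact Or.inr (Or.inr (by rw [h]))
    · exact Or.inl (by rw [h, T.ph3])
  · rintro (h | h | h)
    · exact Or.inr (Or.inr (by rw [← h, T.ph3]))
    · exact Or.inl (ph.injective h)
    · exact Or.inr (Or.inl (ph.injective h))

theorem colf_F_al {D W : Type} {al ph : Perm D} {be : D → W} (T : TMap al ph be) (c d : D)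
    (h : d ∈ colf_F ph c) : al d ∉ colf_F ph c := by
  obtain ⟨a1, a2, a3⟩ := colf_al_not T d
  rcases h with h | h | h
  · subst h
    rintro (k | k | k)
    · exact a1 k
    · exact a2 k
    · exact a3 k
  · subst h
    rw [T.ph3] at a3
    rintro (k | k | k)
    · exact a3 k
    · exact a1 k
    · exact a2 k
  · subst h
    rw [T.ph3] at a2 a3
    rintro (k | k | k)
    · exact a2 k
    · exact a3 k
    · exact a1 k

theorem colf_DH {D W : Type} {al ph : Perm D} {be : D → W} (T : TMap al ph be) (c : D) :
    DH al ph be ({d | conn ph al c d} \ colf_F ph c) [al c, al (ph (ph c)), al (ph c)] := by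
  have kp : ∀ d, conn ph al c d ↔ conn ph al c (ph d) := fun d =>
    ⟨fun h => (conn ph al).trans' h (perm_conn_a ph al d),
      fun h => (conn ph al).trans' h ((conn ph al).symm' (perm_conn_a ph al d))⟩
  have ka : ∀ d, conn ph al c d → conn ph al c (al d) := fun d h =>
    (conn ph al).trans' h (perm_conn_b ph al d)
  have k0 : conn ph al c c := (conn ph al).refl' c
  have kF : ∀ d, d ∈ colf_F ph c → conn ph al c d := by
    rintro d (h | h | h)
    · rw [h]
    · rw [h]; exact (kp _).1 k0
    · rw [h]; exact (kp _).1 ((kp _).1 k0)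
  have hx : be (al (ph (ph c))) = be c := by rw [← T.hd, T.ph3]
  refine ⟨by simp, fun d => ?_, fun d => ?_, ?_, ?_, fun B hB h1 h2 => ?_⟩
  · exact and_congr (kp d) (not_congr (colf_F_ph T c d))
  · have key : al d ∈ colf_F ph c ↔ d ∈ [al c, al (ph (ph c)), al (ph c)] := by
      simp only [List.mem_cons, List.not_mem_nil, or_false]
      constructor
      · rintro (h | h | h)
        · exact Or.inl (by rw [← h, T.al2])
        · exact Or.inr (Or.inr (by rw [← h, T.al2]))
        · exact Or.inr (Or.inl (by rw [← h, T.al2]))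
      · rintro (h | h | h)
        · exact Or.inl (by rw [h, T.al2])
        · exact Or.inr (Or.inr (by rw [h, T.al2]))
        · exact Or.inr (Or.inl (by rw [h, T.al2]))
    rw [← key]
    constructor
    · rintro ⟨⟨h1, _⟩, h3⟩
      by_contra h4
      exact h3 ⟨ka d h1, h4⟩
    · intro h
      have h1 := ka _ (kF _ h)
      have h2 := colf_F_al T c _ h
      rw [T.al2] at h1 h2
      exact ⟨⟨h1, h2⟩, fun h3 => h3.2 h⟩
  · simp only [List.map_cons, List.map_nil, T.al2, List.rotate_cons_succ, List.rotate_zero,
      List.cons_append, List.nil_append]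
    rw [hx, T.hd (ph c), T.hd c]
  · have n1 := T.nl c
    have n2 := T.nl (ph c)
    have n3 := T.nl (ph (ph c))
    rw [T.hd] at n2 n3
    rw [hx] at n3
    simp only [List.map_cons, List.map_nil, hx, List.nodup_cons, List.mem_cons, List.not_mem_nil,
      or_false, not_or, List.nodup_nil, and_true, not_false_eq_true]
    exact ⟨⟨n1, fun h => n2 h.symm⟩, n3⟩
  · refine Set.eq_empty_of_forall_notMem fun d hd => ?_
    have h3 : ∀ e, e ∈ B ↔ al e ∈ B := fun e =>
      ⟨h2 e, fun h => by have := h2 _ h; rwa [T.al2] at this⟩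
    have h4 : (Setoid.ker fun e => e ∈ B) c d :=
      perm_conn_le (s := Setoid.ker fun e => e ∈ B) (fun w => propext (h1 w))
        (fun w => propext (h3 w)) (hB hd).1
    have h5 : c ∈ B := (propext_iff.1 h4).2 hd
    exact (hB h5).2 (Or.inl rfl)

theorem blk_COL (h1 : St_SYS) (h2 : St_MAIN) : St_COL := by
  intro D W _ al ph be T o ho
  classical
  obtain ⟨Hole, hS, hH⟩ := h1 D W al ph be T o ho
  have one : ∀ c : D, ∃ f : W → Col, ∀ d, conn ph al c d → ok o f (be d) (be (al d)) := by
    intro c
    obtain ⟨n, Y, hn, hY⟩ := hH _ _ (colf_DH T c)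
    obtain ⟨f0, hf0⟩ := h2 W o ho Hole hS n _ Y hn
    obtain ⟨f, hf⟩ := hY f0 hf0
    refine ⟨f, fun d hd => ?_⟩
    by_cases hF : d ∈ colf_F ph c
    · have k := hf (al d) ⟨(conn ph al).trans' hd (perm_conn_b ph al d), colf_F_al T c d hF⟩
      rw [T.al2] at k
      exact colf_ok_symm ho f (T.nl d) k
    · exact hf d ⟨hd, hF⟩
  choose f hf using one
  let g : Quotient (conn ph al) → W → Col := fun q => f q.out
  have hg : ∀ d, ok o (g (Quotient.mk _ d)) (be d) (be (al d)) := fun d =>
    hf _ d (Quotient.mk_out (s := conn ph al) d)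
  let c : W → Col := fun v =>
    if h : ∃ d, be d = v then g (Quotient.mk _ h.choose) v else (0, 0, false)
  have hc : ∀ d, c (be d) = g (Quotient.mk _ d) (be d) := by
    intro d
    have h : ∃ e, be e = be d := ⟨d, rfl⟩
    have h3 : conn ph al h.choose d :=
      perm_sc_le (s := conn ph al) (perm_conn_ab ph al) (T.vx _ _ h.choose_spec)
    show (if h : ∃ e, be e = be d then g (Quotient.mk _ h.choose) (be d) else (0, 0, false)) = _
    rw [dif_pos h, Quotient.sound h3]
  refine ⟨c, fun d => ?_⟩
  have k := hg d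
  have e1 := hc d
  have e2 := hc (al d)
  rw [← Quotient.sound (perm_conn_b ph al d)] at e2
  unfold ok at k ⊢
  rw [e1, e2]
  exact k

theorem blk_FIN (h1 : St_STEL) (h2 : St_COL) : St_FIN := by
  intro V _ G hG A hA hanti
  classical
  obtain ⟨D, W, _, al, ph, be, ι, hι, T, hadj⟩ := h1 V G (pl_of_isPlanar hG)
  let _ : LinearOrder W := linearOrderOfSTO WellOrderingRel
  let P : W → W → Prop := fun a b => ∃ u v, A u v ∧ ι u = a ∧ ι v = b
  have hP : ∀ a b, P a b → ¬ P b a := by
    rintro a b ⟨u, v, huv, rfl, rfl⟩ ⟨u', v', h', e1, e2⟩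
    rw [hι e1, hι e2] at h'
    exact hanti _ _ huv h'
  let o : W → W → Bool := fun a b => if P a b then true else if P b a then false else decide (a < b)
  have ho : Tour o := by
    intro x y hxy
    show (if P y x then true else if P x y then false else decide (y < x)) =
      !(if P x y then true else if P y x then false else decide (x < y))
    by_cases a : P x y
    · rw [if_neg (hP _ _ a), if_pos a, if_pos a]; rfl
    · by_cases b : P y x
      · rw [if_pos b, if_neg a, if_pos b]; rfl
      · rw [if_neg b, if_neg a, if_neg a, if_neg b]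
        rcases lt_or_gt_of_ne hxy with h | h
        · rw [decide_eq_true h, decide_eq_false (not_lt_of_gt h)]; rfl
        · rw [decide_eq_true h, decide_eq_false (not_lt_of_gt h)]; rfl
  obtain ⟨c, hc⟩ := h2 D W al ph be T o ho
  have harc : ∀ u v, A u v → arc (c (ι u)) (c (ι v)) = true := by
    intro u v huv
    obtain ⟨d, e1, e2⟩ := hadj u v (hA u v huv)
    have k := hc d
    rw [e1, e2] at k
    have k2 : o (ι u) (ι v) = true := if_pos ⟨u, v, huv, rfl, rfl⟩
    unfold ok at k
    rwa [if_pos k2] at k
  have hcard : Fintype.card Col = 66 := by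
    simp only [Fintype.card_prod, ZMod.card, Fintype.card_bool]
  let e : Col ≃ Fin 66 := Fintype.equivFinOfCardEq hcard
  refine ⟨fun v => e (c (ι v)), fun u v huv h => ?_, fun u v x y huv hxy h => ?_⟩
  · have k := harc u v huv
    have k2 := colf_arc_asym _ _ k
    rw [e.injective h] at k k2
    rw [k] at k2
    exact Bool.noConfusion k2
  · have k := harc u v huv
    have k2 := colf_arc_asym _ _ (harc x y hxy)
    rw [e.injective h.1, e.injective h.2] at k
    rw [k] at k2
    exact Bool.noConfusion k2

end Pool.Agent.OD66
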