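import Pool.Agent.Lib.OD.B_BJR

set_option autoImplicit false

namespace Pool.Agent.OD66

namespace F11

/-- rows at `0`, `1`, `-1` of the short relations -/
def t1r : Bool → Bool → List Z × List Z × List Z
  | false, false => ([2, 6, 7, 8, 10], [3, 9], [6, 7])
  | false, true => ([], [0, 7, 8], [1, 5, 9])
  | true, false => ([], [4, 5], [0, 2, 8])
  | true, true => ([1, 3, 4, 5, 9], [2, 6, 10], [3, 4])

/-- the 76 minimal types -/
def allT : List (List Z × List Z × List Z) :=
  [t1r false false, t1r false true, t1r true false, t1r true true] ++ (fam false ++ fam true)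

def iv (x : Z) : Z := x * x * x * x * x * x * x * x * x

/-- the symmetric relation generated by three rows -/
def tau (m : List Z × List Z × List Z) (x y : Z) : Bool :=
  if x = 0 then decide (y ∈ m.1)
  else if isQ x = true then decide (iv x * y ∈ m.2.1) else decide (-(iv x * y) ∈ m.2.2)

/-- bit `i` of the entry `(a, b)` says that the type number `i` relates `a` to `b` -/
def tb : List (List ℕ) := [
  [3401614098496, 70835497243044678205448, 4393751544001, 70835497243044678205448,
    70835497243044678205448, 70835497243044678205448, 4393751544001, 4393751544001,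
    4393751544001, 70835497243044678205448, 4393751544001],
  [47223664687958963781634, 3959959842912, 37778927495696976183304, 1030791892849, 4329323102180,
    4226117795732, 75557724109927828422664, 66108663184946634948610, 56525435523466447028226,
    2147617865617, 33204139328279146397704],
  [4393751277140, 74339188501265541758978, 3957745123168, 74948526111390909333512,
    68398146798145161396226, 75253194916453593120776, 4362579410916, 3573273845172,
    1064596109169, 70683162836115289800706, 2727026342833],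
  [47223664687958963781634, 4329323102180, 56525435523466447028226, 3959959842912, 4226117795732,
    2147617865617, 37778927495696976183304, 75557724109927828422664, 33204139328279146397704,
    1030791892849, 66108663184946634948610],
  [47223664687958963781634, 1030791892849, 75557724109927828422664, 2147617865617, 3959959842912,
    4329323102180, 66108663184946634948610, 33204139328279146397704, 37778927495696976183304,
    4226117795732, 56525435523466447028226],
  [47223664687958963781634, 2147617865617, 66108663184946634948610, 4226117795732, 1030791892849,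
    3959959842912, 33204139328279146397704, 56525435523466447028226, 75557724109927828422664,
    4329323102180, 37778927495696976183304],
  [4393751277140, 68398146798145161396226, 1064596109169, 74339188501265541758978,
    75253194916453593120776, 70683162836115289800706, 3957745123168, 4362579410916,
    2727026342833, 74948526111390909333512, 3573273845172],
  [4393751277140, 75253194916453593120776, 2727026342833, 68398146798145161396226,
    70683162836115289800706, 74948526111390909333512, 1064596109169, 3957745123168,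
    3573273845172, 74339188501265541758978, 4362579410916],
  [4393751277140, 74948526111390909333512, 4362579410916, 70683162836115289800706,
    74339188501265541758978, 68398146798145161396226, 3573273845172, 2727026342833,
    3957745123168, 75253194916453593120776, 1064596109169],
  [47223664687958963781634, 4226117795732, 33204139328279146397704, 4329323102180, 2147617865617,
    1030791892849, 56525435523466447028226, 37778927495696976183304, 66108663184946634948610,
    3959959842912, 75557724109927828422664],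
  [4393751277140, 70683162836115289800706, 3573273845172, 75253194916453593120776,
    74948526111390909333512, 74339188501265541758978, 2727026342833, 1064596109169,
    4362579410916, 68398146798145161396226, 3957745123168]]

def T (a b : ℕ) : ℕ := (tb.getD a []).getD b 0

theorem tb_ok : ((List.range 76).all fun i => (List.range 11).all fun a =>
    (List.range 11).all fun b =>
      !(T a b).testBit i || tau (allT.getD i ([], [], [])) (a : Z) (b : Z)) = true := by
  decide +kernel

theorem tb_lt : ∀ a < 11, ∀ b < 11, T a b < 2 ^ 76 := by decide +kernel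

theorem t1r_ok : ∀ d e : Bool, (∀ y ∈ (t1r d e).1, T1 d e 0 y) ∧
    (∀ y ∈ (t1r d e).2.1, T1 d e 1 y) ∧ ∀ y ∈ (t1r d e).2.2, T1 d e (-1) y := by
  unfold T1 ar
  decide +kernel

theorem iv_ok : ∀ x y : Z, x ≠ 0 → x * (iv x * y) = y ∧ (isQ x = true ∨ isQ (-x) = true) := by
  decide +kernel

theorem tau_le {m : List Z × List Z × List Z} {R : Z → Z → Prop} (hs : Sym R)
    (h0 : ∀ y ∈ m.1, R 0 y) (h1 : ∀ y ∈ m.2.1, R 1 y) (h2 : ∀ y ∈ m.2.2, R (-1) y)
    {x y : Z} (h : tau m x y = true) : R x y := by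
  unfold tau at h
  by_cases hx : x = 0
  · rw [if_pos hx] at h
    rw [hx]
    exact h0 y (of_decide_eq_true h)
  · rw [if_neg hx] at h
    obtain ⟨e1, e2⟩ := iv_ok x y hx
    by_cases hq : isQ x = true
    · rw [if_pos hq] at h
      have := hs x hq _ _ (h1 _ (of_decide_eq_true h))
      rwa [mul_one, e1] at this
    · rw [if_neg hq] at h
      have := hs (-x) (e2.resolve_left hq) _ _ (h2 _ (of_decide_eq_true h))
      rwa [neg_mul_neg, neg_mul_neg, mul_one, e1] at this

theorem allT_len : allT.length = 76 := by decide +kernel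

theorem ty_min {e : Bool} {R : Z → Z → Prop} (h : Ty e R) :
    ∃ i < 76, ∀ a < 11, ∀ b < 11, (T a b).testBit i = true → R (a : ℕ) (b : ℕ) := by
  have hs := bjr_ty_sym h
  have key : ∃ m ∈ allT, (∀ y ∈ m.1, R 0 y) ∧ (∀ y ∈ m.2.1, R 1 y) ∧ ∀ y ∈ m.2.2, R (-1) y := by
    rcases h with ⟨_, d, hd⟩ | h
    · obtain ⟨p0, p1, p2⟩ := t1r_ok d e
      refine ⟨t1r d e, ?_, fun y hy => hd _ _ (p0 y hy), fun y hy => hd _ _ (p1 y hy),
        fun y hy => hd _ _ (p2 y hy)⟩
      refine List.mem_append_left _ ?_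
      cases d <;> cases e <;> simp
    · obtain ⟨m, hm, p⟩ := h.2.1
      refine ⟨m, List.mem_append_right _ ?_, p⟩
      cases e
      · exact List.mem_append_left _ hm
      · exact List.mem_append_right _ hm
  obtain ⟨m, hm, p0, p1, p2⟩ := key
  obtain ⟨i, hi, rfl⟩ := List.getElem_of_mem hm
  have hi' : i < 76 := allT_len ▸ hi
  refine ⟨i, hi', fun a ha b hb hT => tau_le hs p0 p1 p2 ?_⟩
  have := tb_ok
  simp only [List.all_eq_true, List.mem_range] at this
  have h2 := this i hi' a ha b hb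
  rw [hT, List.getD_eq_getElem _ _ hi] at h2
  simpa using h2

/-- concatenation of blocks of 76 bits -/
def cat : List ℕ → ℕ
  | [] => 0
  | v :: l => 2 ^ 76 * cat l + v

theorem cat_bit (l : List ℕ) (hl : ∀ v ∈ l, v < 2 ^ 76) (i j : ℕ) (hj : j < 76) :
    (cat l).testBit (76 * i + j) = (l.getD i 0).testBit j := by
  induction l generalizing i with
  | nil => simp [cat]
  | cons v l ih =>
    rw [cat, Nat.testBit_two_pow_mul_add _ (hl v (by simp))]
    cases i with
    | zero => simp [hj]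
    | succ i =>
      rw [if_neg (by omega), show 76 * (i + 1) + j - 76 = 76 * i + j by omega,
        ih (fun w hw => hl w (by simp [hw]))]
      simp

def mkA (a b : ℕ) : ℕ :=
  cat ((List.range 76).map fun i => cond ((T a b).testBit i) (2 ^ 76 - 1) 0)

def mkB (a b : ℕ) : ℕ := cat (List.replicate 76 (T a b))

theorem mkA_bit {a b i j : ℕ} (hi : i < 76) (hj : j < 76)
    (h : (mkA a b).testBit (76 * i + j) = true) : (T a b).testBit i = true := by
  rw [mkA, cat_bit _ _ i j hj, List.getD_eq_getElem _ _ (by simpa using hi)] at h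
  · simp only [List.getElem_map, List.getElem_range] at h
    by_contra hn
    rw [Bool.not_eq_true] at hn
    rw [hn] at h
    simp at h
  · intro v hv
    obtain ⟨k, _, rfl⟩ := List.mem_map.1 hv
    cases (T a b).testBit k <;> norm_num

theorem mkB_bit {a b i j : ℕ} (ha : a < 11) (hb : b < 11) (hi : i < 76) (hj : j < 76)
    (h : (mkB a b).testBit (76 * i + j) = true) : (T a b).testBit j = true := by
  rw [mkB, cat_bit _ _ i j hj, List.getD_eq_getElem _ _ (by simpa using hi)] at h
  · rwa [List.getElem_replicate] at h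
  · intro v hv
    rw [List.eq_of_mem_replicate hv]
    exact tb_lt a ha b hb

/-- evaluation at a literal -/
def pick (a : ℕ) (f : ℕ → ℕ) : ℕ :=
  cond (Nat.ble a 4)
    (cond (Nat.ble a 1) (cond (Nat.ble a 0) (f 0) (f 1))
      (cond (Nat.ble a 2) (f 2) (cond (Nat.ble a 3) (f 3) (f 4))))
    (cond (Nat.ble a 7) (cond (Nat.ble a 5) (f 5) (cond (Nat.ble a 6) (f 6) (f 7)))
      (cond (Nat.ble a 8) (f 8) (cond (Nat.ble a 9) (f 9) (f 10))))

theorem pick_eq {a : ℕ} (ha : a < 11) (f : ℕ → ℕ) : pick a f = f a := by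
  interval_cases a <;> rfl

/-- the label `x - c * t` -/
def sb (x c t : ℕ) : ℕ := (x + c * (11 - t)) % 11

theorem sb_lt (x c t : ℕ) : sb x c t < 11 := Nat.mod_lt _ (by norm_num)

theorem sb_cast (x c t : ℕ) (ht : t < 11) : ((sb x c t : ℕ) : Z) = (x : Z) - (c : Z) * (t : Z) := by
  have h11 : ((11 : ℕ) : Z) = 0 := ZMod.natCast_self 11
  rw [sb, ZMod.natCast_mod, Nat.cast_add, Nat.cast_mul, Nat.cast_sub ht.le, h11]
  ring

def orL (l : List ℕ) (f : ℕ → ℕ) : ℕ := l.foldr (fun c acc => f c ||| acc) 0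

theorem orL_bit {l : List ℕ} {f : ℕ → ℕ} {n : ℕ} (h : (orL l f).testBit n = true) :
    ∃ c ∈ l, (f c).testBit n = true := by
  induction l with
  | nil => simp [orL] at h
  | cons c l ih =>
    have h' : (f c ||| orL l f).testBit n = true := h
    rw [Nat.testBit_or, Bool.or_eq_true] at h'
    rcases h' with h' | h'
    · exact ⟨c, by simp, h'⟩
    · obtain ⟨d, hd, hb⟩ := ih h'
      exact ⟨d, by simp [hd], hb⟩

/-- lanes in which `w` is an admissible junction label -/
def om (t u x y w : ℕ) : ℕ :=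
  orL [1, 3, 4, 5, 9] fun c =>
    (pick (sb x c t) fun a => pick (sb w c t) fun b => mkA a b) &&&
      pick (sb y c u) fun a => pick (sb w c u) fun b => mkB a b

/-- lanes in which two of the values are set -/
def tw (f : ℕ → ℕ) : List ℕ → ℕ → ℕ → ℕ
  | [], _, b => b
  | w :: l, a, b => tw f l (a ||| f w) (b ||| (a &&& f w))

theorem tw_bit (f : ℕ → ℕ) (n : ℕ) (l : List ℕ) (hl : l.Nodup) (a b : ℕ)
    (h : (tw f l a b).testBit n = true) :
    b.testBit n = true ∨ (a.testBit n = true ∧ ∃ w ∈ l, (f w).testBit n = true) ∨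
      ∃ w ∈ l, ∃ w' ∈ l, w ≠ w' ∧ (f w).testBit n = true ∧ (f w').testBit n = true := by
  induction l generalizing a b with
  | nil => exact Or.inl h
  | cons v l ih =>
    rw [List.nodup_cons] at hl
    rcases ih hl.2 _ _ h with h1 | ⟨h1, w, hw, h2⟩ | ⟨w, hw, w', hw', h1⟩
    · rw [Nat.testBit_or, Nat.testBit_and, Bool.or_eq_true, Bool.and_eq_true] at h1
      rcases h1 with h1 | h1
      · exact Or.inl h1
      · exact Or.inr (Or.inl ⟨h1.1, v, by simp, h1.2⟩)
    · rw [Nat.testBit_or, Bool.or_eq_true] at h1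
      rcases h1 with h1 | h1
      · exact Or.inr (Or.inl ⟨h1, w, by simp [hw], h2⟩)
      · exact Or.inr (Or.inr ⟨v, by simp, w, by simp [hw], fun hvw => hl.1 (hvw ▸ hw), h1, h2⟩)
    · exact Or.inr (Or.inr ⟨w, by simp [hw], w', by simp [hw'], h1⟩)

def labs : List ℕ := [0, 1, 2, 3, 4, 5, 6, 7, 8, 9, 10]

def two (t u x y : ℕ) : ℕ := tw (om t u x y) labs 0 0

def two' (t u x y : ℕ) : ℕ := pick y fun y' => two t u x y'

/-- lanes in which a junction label other than `r` is admissible -/
def av (t u x y r : ℕ) : ℕ := orL labs fun w => cond (Nat.beq w r) 0 (om t u x y w)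

def fl (t u : ℕ) (m : List Z × List Z × List Z) : ℕ :=
  orL (m.2.1.map ZMod.val) (two' t u 1) ||| orL (m.2.2.map ZMod.val) (two' t u 10)

def gl (t u k : ℕ) (m : List Z × List Z × List Z) : ℕ :=
  orL (m.2.1.map ZMod.val) (fun y => av t u 1 y ((1 + k * (y + 10)) % 11)) |||
    orL (m.2.2.map ZMod.val) fun y => av t u 10 y ((10 + k * (y + 1)) % 11)

def ones : ℕ := 2 ^ 5776 - 1

def chk (t u : ℕ) : Bool :=
  ((fam false ++ fam true).all fun m => Nat.beq (fl t u m) ones) &&
    [t1r false false, t1r false true, t1r true false, t1r true true].all fun m =>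
      Nat.beq (fl t u m) ones || labs.all fun k => Nat.beq (gl t u k m) ones

def chkA (t : ℕ) : Bool := [1, 2, 3, 4, 5, 6, 7, 8, 9, 10].all fun u => chk t u

theorem c1 : chkA 1 = true := by decide +kernel
theorem c10 : chkA 10 = true := by decide +kernel

theorem chk_all {t u : ℕ} (h1 : t = 1 ∨ t = 10) (h3 : 0 < u) (h4 : u < 11) :
    chk t u = true := by
  have hA : chkA t = true := by
    rcases h1 with rfl | rfl
    exacts [c1, c10]
  refine List.all_eq_true.1 hA u ?_
  interval_cases u <;> simp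

theorem ones_bit {i j : ℕ} (hi : i < 76) (hj : j < 76) : ones.testBit (76 * i + j) = true := by
  rw [ones, Nat.testBit_two_pow_sub_one]
  simp only [decide_eq_true_eq]
  omega

theorem labs_lt : ∀ w ∈ labs, w < 11 := by decide

theorem labs_mem : ∀ w < 11, w ∈ labs := by decide

theorem cast_ne : ∀ w < 11, ∀ w' < 11, w ≠ w' → ((w : ℕ) : Z) ≠ ((w' : ℕ) : Z) := by decide

section main

variable {R1 R2 : Z → Z → Prop} {t u i j : ℕ}

/-- the junction label `w` is admissible between `x` and `y` -/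
def Om (R1 R2 : Z → Z → Prop) (t u x y w : Z) : Prop :=
  ∃ c, isQ c = true ∧ R1 (x - c * t) (w - c * t) ∧ R2 (w - c * u) (y - c * u)

theorem om_bit (ht : t < 11) (hu : u < 11) (hi : i < 76) (hj : j < 76)
    (h1 : ∀ a < 11, ∀ b < 11, (T a b).testBit i = true → R1 (a : ℕ) (b : ℕ))
    (h2 : ∀ a < 11, ∀ b < 11, (T a b).testBit j = true → R2 (b : ℕ) (a : ℕ)) {x y w : ℕ}
    (h : (om t u x y w).testBit (76 * i + j) = true) : Om R1 R2 t u x y w := by
  obtain ⟨c, hc, hb⟩ := orL_bit h
  rw [pick_eq (sb_lt _ _ _), pick_eq (sb_lt _ _ _), pick_eq (sb_lt _ _ _), pick_eq (sb_lt _ _ _),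
    Nat.testBit_and, Bool.and_eq_true] at hb
  have a1 := h1 _ (sb_lt _ _ _) _ (sb_lt _ _ _) (mkA_bit hi hj hb.1)
  have a2 := h2 _ (sb_lt _ _ _) _ (sb_lt _ _ _) (mkB_bit (sb_lt _ _ _) (sb_lt _ _ _) hi hj hb.2)
  rw [sb_cast _ _ _ ht, sb_cast _ _ _ ht] at a1
  rw [sb_cast _ _ _ hu, sb_cast _ _ _ hu] at a2
  refine ⟨(c : Z), ?_, a1, a2⟩
  simp only [List.mem_cons, List.not_mem_nil, or_false] at hc
  rcases hc with rfl | rfl | rfl | rfl | rfl <;> decide

theorem two_bit (ht : t < 11) (hu : u < 11) (hi : i < 76) (hj : j < 76)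
    (h1 : ∀ a < 11, ∀ b < 11, (T a b).testBit i = true → R1 (a : ℕ) (b : ℕ))
    (h2 : ∀ a < 11, ∀ b < 11, (T a b).testBit j = true → R2 (b : ℕ) (a : ℕ)) {x : ℕ} {y : Z}
    (h : (two' t u x y.val).testBit (76 * i + j) = true) (r : Z) :
    ∃ w, Om R1 R2 t u x y w ∧ w ≠ r := by
  rw [two', pick_eq (ZMod.val_lt y)] at h
  rcases tw_bit _ _ labs (by decide) 0 0 h with h | ⟨h, _⟩ | ⟨w, hw, w', hw', hne, a1, a2⟩
  · simp at h
  · simp at h
  · have b1 := om_bit ht hu hi hj h1 h2 a1
    have b2 := om_bit ht hu hi hj h1 h2 a2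
    rw [ZMod.natCast_zmod_val] at b1 b2
    by_cases hr : ((w : ℕ) : Z) = r
    · exact ⟨_, b2, fun h' => cast_ne w (labs_lt w hw) w' (labs_lt w' hw') hne (hr.trans h'.symm)⟩
    · exact ⟨_, b1, hr⟩

theorem av_bit (ht : t < 11) (hu : u < 11) (hi : i < 76) (hj : j < 76)
    (h1 : ∀ a < 11, ∀ b < 11, (T a b).testBit i = true → R1 (a : ℕ) (b : ℕ))
    (h2 : ∀ a < 11, ∀ b < 11, (T a b).testBit j = true → R2 (b : ℕ) (a : ℕ)) {x r : ℕ} {y : Z}
    (hr : r < 11) (h : (av t u x y.val r).testBit (76 * i + j) = true) :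
    ∃ w, Om R1 R2 t u x y w ∧ w ≠ (r : Z) := by
  obtain ⟨w, hw, hb⟩ := orL_bit h
  by_cases hwr : w = r
  · rw [hwr, Nat.beq_refl] at hb
    simp at hb
  · have hf : Nat.beq w r = false := by
      rw [← Bool.not_eq_true]
      exact fun hh => hwr (Nat.eq_of_beq_eq_true hh)
    rw [hf] at hb
    have b1 := om_bit ht hu hi hj h1 h2 hb
    rw [ZMod.natCast_zmod_val] at b1
    exact ⟨_, b1, cast_ne w (labs_lt w hw) r hr hwr⟩

theorem fl_bit (ht : t < 11) (hu : u < 11) (hi : i < 76) (hj : j < 76)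
    (h1 : ∀ a < 11, ∀ b < 11, (T a b).testBit i = true → R1 (a : ℕ) (b : ℕ))
    (h2 : ∀ a < 11, ∀ b < 11, (T a b).testBit j = true → R2 (b : ℕ) (a : ℕ))
    {m : List Z × List Z × List Z} (h : Nat.beq (fl t u m) ones = true) :
    (∃ y ∈ m.2.1, ∀ r, ∃ w, Om R1 R2 t u 1 y w ∧ w ≠ r) ∨
      ∃ y ∈ m.2.2, ∀ r, ∃ w, Om R1 R2 t u (-1) y w ∧ w ≠ r := by
  have hb := ones_bit hi hj
  rw [← Nat.eq_of_beq_eq_true h, fl, Nat.testBit_or, Bool.or_eq_true] at hb
  rcases hb with hb | hb
  · obtain ⟨c, hc, hb⟩ := orL_bit hb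
    obtain ⟨y, hy, rfl⟩ := List.mem_map.1 hc
    refine Or.inl ⟨y, hy, fun r => ?_⟩
    simpa using two_bit ht hu hi hj h1 h2 hb r
  · obtain ⟨c, hc, hb⟩ := orL_bit hb
    obtain ⟨y, hy, rfl⟩ := List.mem_map.1 hc
    refine Or.inr ⟨y, hy, fun r => ?_⟩
    have := two_bit ht hu hi hj h1 h2 hb r
    rwa [show ((10 : ℕ) : Z) = -1 by decide] at this

theorem gl_bit (ht : t < 11) (hu : u < 11) (hi : i < 76) (hj : j < 76)
    (h1 : ∀ a < 11, ∀ b < 11, (T a b).testBit i = true → R1 (a : ℕ) (b : ℕ))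
    (h2 : ∀ a < 11, ∀ b < 11, (T a b).testBit j = true → R2 (b : ℕ) (a : ℕ))
    {m : List Z × List Z × List Z} {k : Z} (h : Nat.beq (gl t u k.val m) ones = true) :
    (∃ y ∈ m.2.1, ∃ w, Om R1 R2 t u 1 y w ∧ w ≠ 1 + k * (y - 1)) ∨
      ∃ y ∈ m.2.2, ∃ w, Om R1 R2 t u (-1) y w ∧ w ≠ -1 + k * (y - -1) := by
  have hb := ones_bit hi hj
  have h10 : ((10 : ℕ) : Z) = -1 := by decide
  rw [← Nat.eq_of_beq_eq_true h, gl, Nat.testBit_or, Bool.or_eq_true] at hb
  rcases hb with hb | hb
  · obtain ⟨c, hc, hb⟩ := orL_bit hb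
    obtain ⟨y, hy, rfl⟩ := List.mem_map.1 hc
    have := av_bit ht hu hi hj h1 h2 (Nat.mod_lt _ (by norm_num)) hb
    rw [ZMod.natCast_mod, Nat.cast_add, Nat.cast_mul, Nat.cast_add, h10, ZMod.natCast_zmod_val,
      ZMod.natCast_zmod_val, Nat.cast_one, ← sub_eq_add_neg] at this
    exact Or.inl ⟨y, hy, this⟩
  · obtain ⟨c, hc, hb⟩ := orL_bit hb
    obtain ⟨y, hy, rfl⟩ := List.mem_map.1 hc
    have := av_bit ht hu hi hj h1 h2 (Nat.mod_lt _ (by norm_num)) hb
    rw [ZMod.natCast_mod, Nat.cast_add, Nat.cast_mul, Nat.cast_add, h10, ZMod.natCast_zmod_val,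
      ZMod.natCast_zmod_val, Nat.cast_one] at this
    refine Or.inr ⟨y, hy, ?_⟩
    rw [sub_neg_eq_add]
    exact this

end main

theorem rot : ∀ t : Z, t ≠ 0 → ∃ c, isQ c = true ∧ c ≠ 0 ∧
    ((c * t).val = 1 ∨ (c * t).val = 10) := by
  decide +kernel

theorem jn_of {R1 R2 : Z → Z → Prop} {c0 t u x y r : Z} {e : Bool} (h0 : isQ c0 = true)
    (hp : xor (isQ x) (isQ y) = e) (h : ∃ w, Om R1 R2 (c0 * t) (c0 * u) x y w ∧ w ≠ r) :
    jn e [(R1, t)] [(R2, u)] x y r := by
  obtain ⟨w, ⟨c, hc, a1, a2⟩, hw⟩ := h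
  rw [← mul_assoc] at a1 a2
  exact ⟨hp, c * c0, by rw [bjr_isQ_mul _ _ hc, h0], w, ⟨x, rfl, a1⟩, ⟨w, rfl, a2⟩, hw⟩

end F11

open F11 in
theorem blk_F11 : St_F11 := by
  rintro ⟨R1, t⟩ ⟨R2, u⟩ hz hy ht hu e
  obtain ⟨e1, ty1⟩ := hz (R1, t) (by simp)
  obtain ⟨e2, ty2⟩ := hy (R2, u) (by simp)
  obtain ⟨i, hi, h1⟩ := ty_min ty1
  obtain ⟨j, hj, h2⟩ := ty_min (bjr_ty_inv ty2)
  obtain ⟨c0, h0, hne, hv⟩ := rot t ht
  have hp : Fact (Nat.Prime 11) := ⟨by norm_num⟩
  have ht' := ZMod.val_lt (c0 * t)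
  have hu' := ZMod.val_lt (c0 * u)
  have hc := chk_all hv (ZMod.val_pos.2 (mul_ne_zero hne hu)) hu'
  rw [chk, Bool.and_eq_true, List.all_eq_true, List.all_eq_true] at hc
  obtain ⟨hc1, hc2⟩ := hc
  constructor
  · intro S hS
    obtain ⟨m, hm, _, p1, p2⟩ := hS.2.2
    obtain ⟨_, q1, q2⟩ := bjr_fam e m hm
    have hm' : m ∈ fam false ++ fam true := by
      cases e
      · exact List.mem_append_left _ hm
      · exact List.mem_append_right _ hm
    have := fl_bit (R1 := R1) (R2 := R2) ht' hu' hi hj h1 h2 (hc1 m hm')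
    simp only [ZMod.natCast_zmod_val] at this
    rcases this with ⟨y, hy, hw⟩ | ⟨y, hy, hw⟩
    · exact ⟨1, y, p1 y hy, fun r => jn_of h0 (q1 y hy) (hw r)⟩
    · exact ⟨-1, y, p2 y hy, fun r => jn_of h0 (q2 y hy) (hw r)⟩
  · intro d k
    obtain ⟨_, p1, p2⟩ := t1r_ok d e
    have hm := hc2 (t1r d e) (by cases d <;> cases e <;> simp)
    rw [Bool.or_eq_true, List.all_eq_true] at hm
    rcases hm with hm | hm
    · have := fl_bit (R1 := R1) (R2 := R2) ht' hu' hi hj h1 h2 hm
      simp only [ZMod.natCast_zmod_val] at this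
      rcases this with ⟨y, hy, hw⟩ | ⟨y, hy, hw⟩
      · exact ⟨1, y, p1 y hy, jn_of h0 (p1 y hy).2 (hw _)⟩
      · exact ⟨-1, y, p2 y hy, jn_of h0 (p2 y hy).2 (hw _)⟩
    · have := gl_bit (R1 := R1) (R2 := R2) ht' hu' hi hj h1 h2
        (hm k.val (labs_mem _ (ZMod.val_lt k)))
      simp only [ZMod.natCast_zmod_val] at this
      rcases this with ⟨y, hy, hw⟩ | ⟨y, hy, hw⟩
      · exact ⟨1, y, p1 y hy, jn_of h0 (p1 y hy).2 hw⟩
      · exact ⟨-1, y, p2 y hy, jn_of h0 (p2 y hy).2 hw⟩

end Pool.Agent.OD66
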