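import Pool.Agent.Lib.OD.J3E

set_option autoImplicit false

namespace Pool.Agent.OD66.F21

open J3

def a0 : Zd := .nd 20 .top .bot
def a1 : Zd := .nd 8 a0 .bot
def a2 : Zd := .nd 17 a1 .bot
def a3 : Zd := .nd 15 a2 .bot
def a4 : Zd := .nd 9 .top .bot
def a5 : Zd := .nd 6 a4 .bot
def a6 : Zd := .nd 16 a5 .bot
def a7 : Zd := .nd 5 a6 .bot
def a8 : Zd := .nd 10 .top .bot
def a9 : Zd := .nd 9 a8 .bot
def a10 : Zd := .nd 7 a9 .bot
def a11 : Zd := .nd 6 a10 .bot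
def a12 : Zd := .nd 8 a8 .bot
def a13 : Zd := .nd 18 a12 .bot
def a14 : Zd := .nd 6 a13 .bot
def a15 : Zd := .nd 9 a0 .bot
def a16 : Zd := .nd 18 a15 .bot
def a17 : Zd := .nd 17 a16 .bot
def a18 : Zd := .nd 6 a17 .bot
def a19 : Zd := .nd 5 a14 a18
def a20 : Zd := .nd 15 a11 a19
def a21 : Zd := .nd 4 a7 a20
def a22 : Zd := .nd 14 a3 a21
def a23 : Zd := .nd 17 a0 .bot
def a24 : Zd := .nd 6 a23 .bot
def a25 : Zd := .nd 21 .top .bot
def a26 : Zd := .nd 9 a25 .bot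
def a27 : Zd := .nd 19 a26 .bot
def a28 : Zd := .nd 17 a27 .bot
def a29 : Zd := .nd 6 a28 .bot
def a30 : Zd := .nd 16 a24 a29
def a31 : Zd := .nd 19 a25 .bot
def a32 : Zd := .nd 18 a31 .bot
def a33 : Zd := .nd 7 a32 .bot
def a34 : Zd := .nd 8 a15 .bot
def a35 : Zd := .nd 7 a34 .bot
def a36 : Zd := .nd 5 a35 .bot
def a37 : Zd := .nd 15 a33 a36
def a38 : Zd := .nd 19 .top .bot
def a39 : Zd := .nd 8 a38 .bot
def a40 : Zd := .nd 7 a39 .bot
def a41 : Zd := .nd 17 a40 .bot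
def a42 : Zd := .nd 6 a41 .bot
def a43 : Zd := .nd 7 a1 .bot
def a44 : Zd := .nd 17 a43 .bot
def a45 : Zd := .nd 6 a44 .bot
def a46 : Zd := .nd 15 a42 a45
def a47 : Zd := .nd 4 a37 a46
def a48 : Zd := .nd 14 a30 a47
def a49 : Zd := .nd 3 a22 a48
def a50 : Zd := .nd 20 a8 .bot
def a51 : Zd := .nd 8 a50 .bot
def a52 : Zd := .nd 18 a51 .bot
def a53 : Zd := .nd 5 a52 .bot
def a54 : Zd := .nd 19 a9 .bot
def a55 : Zd := .nd 8 a54 .bot
def a56 : Zd := .nd 15 a55 .bot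
def a57 : Zd := .nd 4 a53 a56
def a58 : Zd := .nd 18 a8 .bot
def a59 : Zd := .nd 7 a58 .bot
def a60 : Zd := .nd 16 a59 .bot
def a61 : Zd := .nd 5 a60 .bot
def a62 : Zd := .nd 8 a27 .bot
def a63 : Zd := .nd 16 a40 a62
def a64 : Zd := .nd 5 a63 .bot
def a65 : Zd := .nd 15 a64 .bot
def a66 : Zd := .nd 4 a61 a65
def a67 : Zd := .nd 14 a57 a66
def a68 : Zd := .nd 18 a62 .bot
def a69 : Zd := .nd 7 a52 .bot
def a70 : Zd := .nd 17 a69 .bot
def a71 : Zd := .nd 6 a68 a70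
def a72 : Zd := .nd 19 a4 .bot
def a73 : Zd := .nd 8 a72 .bot
def a74 : Zd := .nd 7 a73 .bot
def a75 : Zd := .nd 10 a25 .bot
def a76 : Zd := .nd 9 a75 .bot
def a77 : Zd := .nd 18 a76 .bot
def a78 : Zd := .nd 17 a77 .bot
def a79 : Zd := .nd 6 a74 a78
def a80 : Zd := .nd 16 a79 .bot
def a81 : Zd := .nd 5 a80 .bot
def a82 : Zd := .nd 15 a71 a81
def a83 : Zd := .nd 3 a67 a82
def a84 : Zd := .nd 13 a49 a83
def a85 : Zd := .nd 19 a15 .bot
def a86 : Zd := .nd 18 a85 .bot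
def a87 : Zd := .nd 19 a8 .bot
def a88 : Zd := .nd 18 a87 .bot
def a89 : Zd := .nd 17 a88 .bot
def a90 : Zd := .nd 15 a86 a89
def a91 : Zd := .nd 18 a39 .bot
def a92 : Zd := .nd 6 a91 .bot
def a93 : Zd := .nd 5 a92 .bot
def a94 : Zd := .nd 17 a34 .bot
def a95 : Zd := .nd 6 a94 a55
def a96 : Zd := .nd 9 a50 .bot
def a97 : Zd := .nd 8 a96 .bot
def a98 : Zd := .nd 7 a97 .bot
def a99 : Zd := .nd 17 a91 a98
def a100 : Zd := .nd 6 a99 .bot
def a101 : Zd := .nd 5 a95 a100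
def a102 : Zd := .nd 4 a93 a101
def a103 : Zd := .nd 14 a90 a102
def a104 : Zd := .nd 8 a87 .bot
def a105 : Zd := .nd 16 a104 .bot
def a106 : Zd := .nd 16 a86 .bot
def a107 : Zd := .nd 5 a105 a106
def a108 : Zd := .nd 15 a107 .bot
def a109 : Zd := .nd 20 a75 .bot
def a110 : Zd := .nd 8 a109 .bot
def a111 : Zd := .nd 16 a110 .bot
def a112 : Zd := .nd 17 a97 .bot
def a113 : Zd := .nd 6 a112 .bot
def a114 : Zd := .nd 5 a111 a113
def a115 : Zd := .nd 8 a9 .bot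
def a116 : Zd := .nd 7 a115 .bot
def a117 : Zd := .nd 6 a116 .bot
def a118 : Zd := .nd 17 a85 .bot
def a119 : Zd := .nd 19 a109 .bot
def a120 : Zd := .nd 6 a118 a119
def a121 : Zd := .nd 16 a120 .bot
def a122 : Zd := .nd 5 a117 a121
def a123 : Zd := .nd 19 a76 .bot
def a124 : Zd := .nd 8 a123 .bot
def a125 : Zd := .nd 16 a124 .bot
def a126 : Zd := .nd 15 a122 a125
def a127 : Zd := .nd 4 a114 a126
def a128 : Zd := .nd 14 a108 a127
def a129 : Zd := .nd 3 a103 a128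
def a130 : Zd := .nd 7 a13 .bot
def a131 : Zd := .nd 6 a130 .bot
def a132 : Zd := .nd 5 a131 .bot
def a133 : Zd := .nd 9 a109 .bot
def a134 : Zd := .nd 8 a133 .bot
def a135 : Zd := .nd 6 a134 .bot
def a136 : Zd := .nd 8 a76 .bot
def a137 : Zd := .nd 7 a136 .bot
def a138 : Zd := .nd 6 a137 .bot
def a139 : Zd := .nd 18 a55 .bot
def a140 : Zd := .nd 7 a139 .bot
def a141 : Zd := .nd 6 a140 .bot
def a142 : Zd := .nd 5 a138 a141
def a143 : Zd := .nd 4 a135 a142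
def a144 : Zd := .nd 14 a132 a143
def a145 : Zd := .nd 19 a75 .bot
def a146 : Zd := .nd 18 a145 .bot
def a147 : Zd := .nd 17 a146 .bot
def a148 : Zd := .nd 6 a147 .bot
def a149 : Zd := .nd 16 a148 .bot
def a150 : Zd := .nd 3 a144 a149
def a151 : Zd := .nd 13 a129 a150
def a152 : Zd := .nd 2 a84 a151
def a153 : Zd := .nd 5 a115 .bot
def a154 : Zd := .nd 16 a96 .bot
def a155 : Zd := .nd 5 a154 .bot
def a156 : Zd := .nd 15 a153 a155
def a157 : Zd := .nd 4 a3 a156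
def a158 : Zd := .nd 16 a145 .bot
def a159 : Zd := .nd 5 a158 a29
def a160 : Zd := .nd 7 a54 .bot
def a161 : Zd := .nd 5 a160 .bot
def a162 : Zd := .nd 15 a161 a112
def a163 : Zd := .nd 4 a159 a162
def a164 : Zd := .nd 14 a157 a163
def a165 : Zd := .nd 17 a110 .bot
def a166 : Zd := .nd 8 a119 .bot
def a167 : Zd := .nd 18 a27 .bot
def a168 : Zd := .nd 17 a167 .bot
def a169 : Zd := .nd 6 a168 .bot
def a170 : Zd := .nd 5 a166 a169
def a171 : Zd := .nd 15 a165 a170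
def a172 : Zd := .nd 8 a75 .bot
def a173 : Zd := .nd 6 a172 .bot
def a174 : Zd := .nd 16 a173 .bot
def a175 : Zd := .nd 6 a97 .bot
def a176 : Zd := .nd 5 a174 a175
def a177 : Zd := .nd 17 a172 .bot
def a178 : Zd := .nd 6 a177 .bot
def a179 : Zd := .nd 16 a178 .bot
def a180 : Zd := .nd 5 a179 .bot
def a181 : Zd := .nd 4 a176 a180
def a182 : Zd := .nd 14 a171 a181
def a183 : Zd := .nd 3 a164 a182
def a184 : Zd := .nd 18 a115 .bot
def a185 : Zd := .nd 6 a184 .bot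
def a186 : Zd := .nd 16 a185 .bot
def a187 : Zd := .nd 15 a137 .bot
def a188 : Zd := .nd 4 a186 a187
def a189 : Zd := .nd 7 a91 .bot
def a190 : Zd := .nd 17 a189 .bot
def a191 : Zd := .nd 6 a190 .bot
def a192 : Zd := .nd 5 a111 a191
def a193 : Zd := .nd 8 a31 .bot
def a194 : Zd := .nd 18 a75 .bot
def a195 : Zd := .nd 7 a194 .bot
def a196 : Zd := .nd 17 a193 a195
def a197 : Zd := .nd 18 a73 .bot
def a198 : Zd := .nd 7 a197 .bot
def a199 : Zd := .nd 16 a196 a198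
def a200 : Zd := .nd 7 a85 .bot
def a201 : Zd := .nd 6 a200 .bot
def a202 : Zd := .nd 7 a55 .bot
def a203 : Zd := .nd 16 a201 a202
def a204 : Zd := .nd 5 a199 a203
def a205 : Zd := .nd 7 a51 .bot
def a206 : Zd := .nd 18 a1 .bot
def a207 : Zd := .nd 7 a206 .bot
def a208 : Zd := .nd 17 a205 a207
def a209 : Zd := .nd 16 a208 .bot
def a210 : Zd := .nd 17 a198 .bot
def a211 : Zd := .nd 6 a210 .bot
def a212 : Zd := .nd 5 a209 a211
def a213 : Zd := .nd 15 a204 a212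
def a214 : Zd := .nd 4 a192 a213
def a215 : Zd := .nd 14 a188 a214
def a216 : Zd := .nd 8 .top .bot
def a217 : Zd := .nd 18 a216 .bot
def a218 : Zd := .nd 7 a217 .bot
def a219 : Zd := .nd 6 a218 .bot
def a220 : Zd := .nd 16 a184 a219
def a221 : Zd := .nd 5 a220 .bot
def a222 : Zd := .nd 20 a25 .bot
def a223 : Zd := .nd 8 a222 .bot
def a224 : Zd := .nd 6 a223 .bot
def a225 : Zd := .nd 16 a224 .bot
def a226 : Zd := .nd 5 a225 .bot
def a227 : Zd := .nd 15 a226 .bot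
def a228 : Zd := .nd 4 a221 a227
def a229 : Zd := .nd 9 a222 .bot
def a230 : Zd := .nd 8 a229 .bot
def a231 : Zd := .nd 18 a230 .bot
def a232 : Zd := .nd 7 a231 a68
def a233 : Zd := .nd 5 a232 .bot
def a234 : Zd := .nd 15 a135 a233
def a235 : Zd := .nd 19 a50 .bot
def a236 : Zd := .nd 18 a235 .bot
def a237 : Zd := .nd 7 a236 .bot
def a238 : Zd := .nd 6 a237 .bot
def a239 : Zd := .nd 16 a238 .bot
def a240 : Zd := .nd 15 a239 .bot
def a241 : Zd := .nd 4 a234 a240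
def a242 : Zd := .nd 14 a228 a241
def a243 : Zd := .nd 3 a215 a242
def a244 : Zd := .nd 13 a183 a243
def a245 : Zd := .nd 5 a11 a201
def a246 : Zd := .nd 15 a245 .bot
def a247 : Zd := .nd 17 a72 .bot
def a248 : Zd := .nd 6 a247 .bot
def a249 : Zd := .nd 16 a248 .bot
def a250 : Zd := .nd 5 a112 a249
def a251 : Zd := .nd 18 .top .bot
def a252 : Zd := .nd 7 a251 .bot
def a253 : Zd := .nd 17 a252 .bot
def a254 : Zd := .nd 6 a253 .bot
def a255 : Zd := .nd 17 a206 .bot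
def a256 : Zd := .nd 6 a255 .bot
def a257 : Zd := .nd 5 a254 a256
def a258 : Zd := .nd 8 a235 .bot
def a259 : Zd := .nd 18 a258 .bot
def a260 : Zd := .nd 17 a236 .bot
def a261 : Zd := .nd 6 a260 .bot
def a262 : Zd := .nd 5 a259 a261
def a263 : Zd := .nd 15 a257 a262
def a264 : Zd := .nd 4 a250 a263
def a265 : Zd := .nd 14 a246 a264
def a266 : Zd := .nd 19 a96 .bot
def a267 : Zd := .nd 8 a266 .bot
def a268 : Zd := .nd 17 a267 .bot
def a269 : Zd := .nd 6 a268 .bot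
def a270 : Zd := .nd 6 a202 .bot
def a271 : Zd := .nd 7 a146 .bot
def a272 : Zd := .nd 17 a271 .bot
def a273 : Zd := .nd 18 a54 .bot
def a274 : Zd := .nd 7 a273 .bot
def a275 : Zd := .nd 6 a274 .bot
def a276 : Zd := .nd 5 a272 a275
def a277 : Zd := .nd 15 a270 a276
def a278 : Zd := .nd 8 a8 a75
def a279 : Zd := .nd 18 a278 .bot
def a280 : Zd := .nd 7 a279 .bot
def a281 : Zd := .nd 6 a280 a147
def a282 : Zd := .nd 5 a281 .bot
def a283 : Zd := .nd 15 a282 .bot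
def a284 : Zd := .nd 4 a277 a283
def a285 : Zd := .nd 14 a269 a284
def a286 : Zd := .nd 3 a265 a285
def a287 : Zd := .nd 18 a9 .bot
def a288 : Zd := .nd 7 a287 .bot
def a289 : Zd := .nd 17 a288 .bot
def a290 : Zd := .nd 6 a289 .bot
def a291 : Zd := .nd 16 a290 .bot
def a292 : Zd := .nd 18 a97 .bot
def a293 : Zd := .nd 7 a292 .bot
def a294 : Zd := .nd 7 a123 .bot
def a295 : Zd := .nd 18 a223 .bot
def a296 : Zd := .nd 7 a295 .bot
def a297 : Zd := .nd 6 a296 .bot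
def a298 : Zd := .nd 16 a294 a297
def a299 : Zd := .nd 17 a130 a124
def a300 : Zd := .nd 6 a299 .bot
def a301 : Zd := .nd 16 a300 .bot
def a302 : Zd := .nd 5 a298 a301
def a303 : Zd := .nd 15 a293 a302
def a304 : Zd := .nd 18 a119 .bot
def a305 : Zd := .nd 16 a304 .bot
def a306 : Zd := .nd 18 a134 .bot
def a307 : Zd := .nd 6 a306 .bot
def a308 : Zd := .nd 16 a307 .bot
def a309 : Zd := .nd 15 a305 a308
def a310 : Zd := .nd 4 a303 a309
def a311 : Zd := .nd 14 a291 a310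
def a312 : Zd := .nd 16 a231 .bot
def a313 : Zd := .nd 5 a312 .bot
def a314 : Zd := .nd 17 a91 .bot
def a315 : Zd := .nd 6 a314 .bot
def a316 : Zd := .nd 16 a315 .bot
def a317 : Zd := .nd 5 a69 a316
def a318 : Zd := .nd 15 a313 a317
def a319 : Zd := .nd 18 a193 .bot
def a320 : Zd := .nd 17 a319 .bot
def a321 : Zd := .nd 6 a320 .bot
def a322 : Zd := .nd 19 a0 .bot
def a323 : Zd := .nd 8 a322 .bot
def a324 : Zd := .nd 18 a323 .bot
def a325 : Zd := .nd 7 a324 .bot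
def a326 : Zd := .nd 6 a325 .bot
def a327 : Zd := .nd 5 a321 a326
def a328 : Zd := .nd 18 a25 .bot
def a329 : Zd := .nd 7 a328 .bot
def a330 : Zd := .nd 17 a329 .bot
def a331 : Zd := .nd 6 a330 .bot
def a332 : Zd := .nd 16 a331 .bot
def a333 : Zd := .nd 5 a332 .bot
def a334 : Zd := .nd 15 a327 a333
def a335 : Zd := .nd 4 a318 a334
def a336 : Zd := .nd 18 a50 .bot
def a337 : Zd := .nd 7 a336 .bot
def a338 : Zd := .nd 17 a337 .bot
def a339 : Zd := .nd 6 a338 .bot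
def a340 : Zd := .nd 16 a339 .bot
def a341 : Zd := .nd 18 a124 .bot
def a342 : Zd := .nd 17 a341 .bot
def a343 : Zd := .nd 6 a342 .bot
def a344 : Zd := .nd 5 a343 .bot
def a345 : Zd := .nd 4 a340 a344
def a346 : Zd := .nd 14 a335 a345
def a347 : Zd := .nd 3 a311 a346
def a348 : Zd := .nd 13 a286 a347
def a349 : Zd := .nd 2 a244 a348
def a350 : Zd := .nd 12 a152 a349
def a351 : Zd := .nd 17 a193 .bot
def a352 : Zd := .nd 15 a2 a351
def a353 : Zd := .nd 15 a319 .bot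
def a354 : Zd := .nd 4 a352 a353
def a355 : Zd := .nd 17 a295 .bot
def a356 : Zd := .nd 14 a354 a355
def a357 : Zd := .nd 17 a96 .bot
def a358 : Zd := .nd 18 a222 .bot
def a359 : Zd := .nd 17 a358 .bot
def a360 : Zd := .nd 16 a357 a359
def a361 : Zd := .nd 4 a360 .bot
def a362 : Zd := .nd 6 a288 .bot
def a363 : Zd := .nd 7 a4 .bot
def a364 : Zd := .nd 7 a104 .bot
def a365 : Zd := .nd 17 a363 a364
def a366 : Zd := .nd 6 a365 a295
def a367 : Zd := .nd 7 a16 .bot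
def a368 : Zd := .nd 6 a367 .bot
def a369 : Zd := .nd 16 a368 .bot
def a370 : Zd := .nd 5 a366 a369
def a371 : Zd := .nd 15 a362 a370
def a372 : Zd := .nd 4 a371 .bot
def a373 : Zd := .nd 14 a361 a372
def a374 : Zd := .nd 3 a356 a373
def a375 : Zd := .nd 17 a137 .bot
def a376 : Zd := .nd 4 a375 .bot
def a377 : Zd := .nd 4 a124 .bot
def a378 : Zd := .nd 6 a294 .bot
def a379 : Zd := .nd 16 a378 .bot
def a380 : Zd := .nd 5 a138 a379
def a381 : Zd := .nd 14 a377 a380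
def a382 : Zd := .nd 3 a376 a381
def a383 : Zd := .nd 13 a374 a382
def a384 : Zd := .nd 18 a0 .bot
def a385 : Zd := .nd 7 a384 .bot
def a386 : Zd := .nd 17 a385 .bot
def a387 : Zd := .nd 5 a386 .bot
def a388 : Zd := .nd 17 a31 .bot
def a389 : Zd := .nd 16 a388 .bot
def a390 : Zd := .nd 19 a229 .bot
def a391 : Zd := .nd 8 a390 .bot
def a392 : Zd := .nd 16 a391 .bot
def a393 : Zd := .nd 5 a389 a392
def a394 : Zd := .nd 15 a387 a393
def a395 : Zd := .nd 15 a191 .bot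
def a396 : Zd := .nd 14 a394 a395
def a397 : Zd := .nd 7 a216 .bot
def a398 : Zd := .nd 17 a397 .bot
def a399 : Zd := .nd 6 a398 .bot
def a400 : Zd := .nd 5 a399 .bot
def a401 : Zd := .nd 19 a222 .bot
def a402 : Zd := .nd 8 a401 .bot
def a403 : Zd := .nd 5 a402 .bot
def a404 : Zd := .nd 15 a400 a403
def a405 : Zd := .nd 18 a38 .bot
def a406 : Zd := .nd 7 a405 .bot
def a407 : Zd := .nd 17 a406 .bot
def a408 : Zd := .nd 17 a364 .bot
def a409 : Zd := .nd 5 a407 a408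
def a410 : Zd := .nd 8 a145 .bot
def a411 : Zd := .nd 18 a410 .bot
def a412 : Zd := .nd 18 a34 .bot
def a413 : Zd := .nd 17 a412 .bot
def a414 : Zd := .nd 6 a413 .bot
def a415 : Zd := .nd 17 a390 .bot
def a416 : Zd := .nd 18 a390 .bot
def a417 : Zd := .nd 7 a416 .bot
def a418 : Zd := .nd 6 a415 a417
def a419 : Zd := .nd 16 a414 a418
def a420 : Zd := .nd 5 a411 a419
def a421 : Zd := .nd 15 a409 a420
def a422 : Zd := .nd 4 a404 a421
def a423 : Zd := .nd 6 a358 a359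
def a424 : Zd := .nd 7 a133 .bot
def a425 : Zd := .nd 17 a424 .bot
def a426 : Zd := .nd 5 a423 a425
def a427 : Zd := .nd 7 a12 .bot
def a428 : Zd := .nd 17 a427 a410
def a429 : Zd := .nd 6 a428 .bot
def a430 : Zd := .nd 16 a429 .bot
def a431 : Zd := .nd 17 a98 .bot
def a432 : Zd := .nd 5 a430 a431
def a433 : Zd := .nd 15 a426 a432
def a434 : Zd := .nd 6 a33 .bot
def a435 : Zd := .nd 17 a402 .bot
def a436 : Zd := .nd 6 a435 .bot
def a437 : Zd := .nd 17 a202 .bot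
def a438 : Zd := .nd 16 a436 a437
def a439 : Zd := .nd 5 a434 a438
def a440 : Zd := .nd 18 a322 .bot
def a441 : Zd := .nd 7 a440 .bot
def a442 : Zd := .nd 17 a441 .bot
def a443 : Zd := .nd 6 a442 .bot
def a444 : Zd := .nd 16 a443 .bot
def a445 : Zd := .nd 15 a439 a444
def a446 : Zd := .nd 4 a433 a445
def a447 : Zd := .nd 14 a422 a446
def a448 : Zd := .nd 3 a396 a447
def a449 : Zd := .nd 8 a75 a31
def a450 : Zd := .nd 18 a449 .bot
def a451 : Zd := .nd 7 a450 .bot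
def a452 : Zd := .nd 17 a451 .bot
def a453 : Zd := .nd 18 a401 .bot
def a454 : Zd := .nd 7 a453 .bot
def a455 : Zd := .nd 17 a454 .bot
def a456 : Zd := .nd 6 a452 a455
def a457 : Zd := .nd 16 a456 .bot
def a458 : Zd := .nd 16 a402 .bot
def a459 : Zd := .nd 19 a133 .bot
def a460 : Zd := .nd 7 a146 a459
def a461 : Zd := .nd 16 a460 .bot
def a462 : Zd := .nd 5 a458 a461
def a463 : Zd := .nd 16 a455 .bot
def a464 : Zd := .nd 15 a462 a463
def a465 : Zd := .nd 7 a319 .bot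
def a466 : Zd := .nd 17 a465 .bot
def a467 : Zd := .nd 8 a459 .bot
def a468 : Zd := .nd 6 a466 a467
def a469 : Zd := .nd 17 a166 .bot
def a470 : Zd := .nd 16 a469 .bot
def a471 : Zd := .nd 15 a468 a470
def a472 : Zd := .nd 4 a464 a471
def a473 : Zd := .nd 7 a358 .bot
def a474 : Zd := .nd 6 a473 .bot
def a475 : Zd := .nd 16 a474 .bot
def a476 : Zd := .nd 5 a475 .bot
def a477 : Zd := .nd 7 a411 .bot
def a478 : Zd := .nd 17 a477 .bot
def a479 : Zd := .nd 16 a478 .bot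
def a480 : Zd := .nd 15 a476 a479
def a481 : Zd := .nd 14 a472 a480
def a482 : Zd := .nd 3 a457 a481
def a483 : Zd := .nd 13 a448 a482
def a484 : Zd := .nd 2 a383 a483
def a485 : Zd := .nd 16 a323 .bot
def a486 : Zd := .nd 7 a184 .bot
def a487 : Zd := .nd 6 a486 .bot
def a488 : Zd := .nd 5 a136 a487
def a489 : Zd := .nd 15 a485 a488
def a490 : Zd := .nd 4 a489 .bot
def a491 : Zd := .nd 6 a109 a76
def a492 : Zd := .nd 7 a96 .bot
def a493 : Zd := .nd 6 a492 .bot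
def a494 : Zd := .nd 16 a491 a493
def a495 : Zd := .nd 7 a223 a402
def a496 : Zd := .nd 17 a495 .bot
def a497 : Zd := .nd 5 a494 a496
def a498 : Zd := .nd 17 a136 .bot
def a499 : Zd := .nd 16 a402 a498
def a500 : Zd := .nd 5 a499 .bot
def a501 : Zd := .nd 4 a497 a500
def a502 : Zd := .nd 14 a490 a501
def a503 : Zd := .nd 6 a252 .bot
def a504 : Zd := .nd 18 a104 .bot
def a505 : Zd := .nd 16 a504 .bot
def a506 : Zd := .nd 5 a503 a505
def a507 : Zd := .nd 15 a506 .bot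
def a508 : Zd := .nd 16 a18 .bot
def a509 : Zd := .nd 17 a324 .bot
def a510 : Zd := .nd 7 a230 .bot
def a511 : Zd := .nd 6 a510 .bot
def a512 : Zd := .nd 16 a509 a511
def a513 : Zd := .nd 15 a508 a512
def a514 : Zd := .nd 4 a507 a513
def a515 : Zd := .nd 16 a69 .bot
def a516 : Zd := .nd 6 a198 .bot
def a517 : Zd := .nd 5 a516 .bot
def a518 : Zd := .nd 15 a515 a517
def a519 : Zd := .nd 18 a123 .bot
def a520 : Zd := .nd 6 a519 .bot
def a521 : Zd := .nd 5 a305 a520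
def a522 : Zd := .nd 15 a521 .bot
def a523 : Zd := .nd 4 a518 a522
def a524 : Zd := .nd 14 a514 a523
def a525 : Zd := .nd 3 a502 a524
def a526 : Zd := .nd 16 a355 .bot
def a527 : Zd := .nd 17 a519 .bot
def a528 : Zd := .nd 18 a166 .bot
def a529 : Zd := .nd 17 a528 .bot
def a530 : Zd := .nd 16 a527 a529
def a531 : Zd := .nd 5 a526 a530
def a532 : Zd := .nd 15 a531 .bot
def a533 : Zd := .nd 7 a341 .bot
def a534 : Zd := .nd 5 a533 .bot
def a535 : Zd := .nd 15 a534 .bot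
def a536 : Zd := .nd 14 a532 a535
def a537 : Zd := .nd 13 a525 a536
def a538 : Zd := .nd 8 a85 .bot
def a539 : Zd := .nd 7 a538 .bot
def a540 : Zd := .nd 17 a539 .bot
def a541 : Zd := .nd 6 a509 .bot
def a542 : Zd := .nd 5 a540 a541
def a543 : Zd := .nd 17 a322 .bot
def a544 : Zd := .nd 6 a543 .bot
def a545 : Zd := .nd 16 a544 .bot
def a546 : Zd := .nd 7 a266 .bot
def a547 : Zd := .nd 17 a546 a271
def a548 : Zd := .nd 5 a545 a547
def a549 : Zd := .nd 7 a391 .bot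
def a550 : Zd := .nd 18 a266 .bot
def a551 : Zd := .nd 7 a550 .bot
def a552 : Zd := .nd 17 a551 .bot
def a553 : Zd := .nd 18 a538 .bot
def a554 : Zd := .nd 7 a553 .bot
def a555 : Zd := .nd 17 a554 .bot
def a556 : Zd := .nd 6 a552 a555
def a557 : Zd := .nd 16 a549 a556
def a558 : Zd := .nd 15 a548 a557
def a559 : Zd := .nd 4 a542 a558
def a560 : Zd := .nd 18 a109 .bot
def a561 : Zd := .nd 6 a560 .bot
def a562 : Zd := .nd 16 a362 a561
def a563 : Zd := .nd 7 a76 .bot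
def a564 : Zd := .nd 17 a563 .bot
def a565 : Zd := .nd 6 a564 .bot
def a566 : Zd := .nd 16 a565 .bot
def a567 : Zd := .nd 15 a562 a566
def a568 : Zd := .nd 6 a416 .bot
def a569 : Zd := .nd 16 a435 a568
def a570 : Zd := .nd 7 a412 .bot
def a571 : Zd := .nd 17 a570 .bot
def a572 : Zd := .nd 6 a571 .bot
def a573 : Zd := .nd 5 a572 a444
def a574 : Zd := .nd 15 a569 a573
def a575 : Zd := .nd 4 a567 a574
def a576 : Zd := .nd 14 a559 a575
def a577 : Zd := .nd 6 a324 .bot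
def a578 : Zd := .nd 5 a577 .bot
def a579 : Zd := .nd 6 a207 .bot
def a580 : Zd := .nd 5 a579 .bot
def a581 : Zd := .nd 15 a578 a580
def a582 : Zd := .nd 17 a62 .bot
def a583 : Zd := .nd 6 a582 .bot
def a584 : Zd := .nd 16 a319 a583
def a585 : Zd := .nd 5 a584 .bot
def a586 : Zd := .nd 7 a88 .bot
def a587 : Zd := .nd 17 a586 .bot
def a588 : Zd := .nd 16 a587 a527
def a589 : Zd := .nd 5 a588 .bot
def a590 : Zd := .nd 15 a585 a589
def a591 : Zd := .nd 4 a581 a590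
def a592 : Zd := .nd 6 a32 .bot
def a593 : Zd := .nd 16 a592 .bot
def a594 : Zd := .nd 5 a593 .bot
def a595 : Zd := .nd 15 a594 .bot
def a596 : Zd := .nd 18 a133 .bot
def a597 : Zd := .nd 7 a596 .bot
def a598 : Zd := .nd 17 a597 .bot
def a599 : Zd := .nd 17 a486 .bot
def a600 : Zd := .nd 6 a599 .bot
def a601 : Zd := .nd 5 a600 .bot
def a602 : Zd := .nd 15 a598 a601
def a603 : Zd := .nd 4 a595 a602
def a604 : Zd := .nd 14 a591 a603
def a605 : Zd := .nd 3 a576 a604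
def a606 : Zd := .nd 6 a355 .bot
def a607 : Zd := .nd 5 a606 .bot
def a608 : Zd := .nd 18 a110 .bot
def a609 : Zd := .nd 17 a608 .bot
def a610 : Zd := .nd 16 a609 .bot
def a611 : Zd := .nd 15 a610 .bot
def a612 : Zd := .nd 4 a607 a611
def a613 : Zd := .nd 18 a223 a410
def a614 : Zd := .nd 7 a613 .bot
def a615 : Zd := .nd 6 a614 .bot
def a616 : Zd := .nd 16 a615 .bot
def a617 : Zd := .nd 5 a616 .bot
def a618 : Zd := .nd 14 a612 a617
def a619 : Zd := .nd 5 a297 .bot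
def a620 : Zd := .nd 7 a467 .bot
def a621 : Zd := .nd 16 a620 .bot
def a622 : Zd := .nd 4 a619 a621
def a623 : Zd := .nd 7 a608 .bot
def a624 : Zd := .nd 6 a623 .bot
def a625 : Zd := .nd 16 a624 .bot
def a626 : Zd := .nd 5 a625 .bot
def a627 : Zd := .nd 14 a622 a626
def a628 : Zd := .nd 3 a618 a627
def a629 : Zd := .nd 13 a605 a628
def a630 : Zd := .nd 2 a537 a629
def a631 : Zd := .nd 12 a484 a630
def a632 : Zd := .nd 1 a350 a631
def a633 : Zd := .nd 6 a54 .bot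
def a634 : Zd := .nd 5 a633 .bot
def a635 : Zd := .nd 15 a634 .bot
def a636 : Zd := .nd 6 a76 .bot
def a637 : Zd := .nd 5 a636 .bot
def a638 : Zd := .nd 15 a637 .bot
def a639 : Zd := .nd 5 a561 .bot
def a640 : Zd := .nd 4 a638 a639
def a641 : Zd := .nd 14 a635 a640
def a642 : Zd := .nd 8 a4 .bot
def a643 : Zd := .nd 7 a642 .bot
def a644 : Zd := .nd 16 a384 a643
def a645 : Zd := .nd 17 a59 .bot
def a646 : Zd := .nd 16 a645 .bot
def a647 : Zd := .nd 5 a644 a646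
def a648 : Zd := .nd 16 a73 .bot
def a649 : Zd := .nd 17 a427 .bot
def a650 : Zd := .nd 6 a649 .bot
def a651 : Zd := .nd 5 a648 a650
def a652 : Zd := .nd 15 a647 a651
def a653 : Zd := .nd 18 a96 .bot
def a654 : Zd := .nd 5 a653 .bot
def a655 : Zd := .nd 16 a553 .bot
def a656 : Zd := .nd 15 a654 a655
def a657 : Zd := .nd 4 a652 a656
def a658 : Zd := .nd 7 a109 .bot
def a659 : Zd := .nd 17 a51 .bot
def a660 : Zd := .nd 6 a658 a659
def a661 : Zd := .nd 18 a136 .bot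
def a662 : Zd := .nd 7 a661 .bot
def a663 : Zd := .nd 16 a660 a662
def a664 : Zd := .nd 7 a560 .bot
def a665 : Zd := .nd 17 a664 .bot
def a666 : Zd := .nd 6 a665 a597
def a667 : Zd := .nd 5 a663 a666
def a668 : Zd := .nd 15 a168 a667
def a669 : Zd := .nd 14 a657 a668
def a670 : Zd := .nd 3 a641 a669
def a671 : Zd := .nd 16 a642 .bot
def a672 : Zd := .nd 17 a73 .bot
def a673 : Zd := .nd 5 a671 a672
def a674 : Zd := .nd 17 a4 .bot
def a675 : Zd := .nd 6 a674 .bot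
def a676 : Zd := .nd 16 a675 .bot
def a677 : Zd := .nd 5 a676 a139
def a678 : Zd := .nd 15 a673 a677
def a679 : Zd := .nd 6 a295 .bot
def a680 : Zd := .nd 6 a363 .bot
def a681 : Zd := .nd 16 a680 .bot
def a682 : Zd := .nd 5 a681 .bot
def a683 : Zd := .nd 15 a679 a682
def a684 : Zd := .nd 4 a678 a683
def a685 : Zd := .nd 17 a218 .bot
def a686 : Zd := .nd 6 a685 .bot
def a687 : Zd := .nd 16 a62 a686
def a688 : Zd := .nd 5 a687 .bot
def a689 : Zd := .nd 16 a123 .bot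
def a690 : Zd := .nd 5 a124 a689
def a691 : Zd := .nd 16 a386 .bot
def a692 : Zd := .nd 18 a391 .bot
def a693 : Zd := .nd 16 a692 .bot
def a694 : Zd := .nd 5 a691 a693
def a695 : Zd := .nd 15 a690 a694
def a696 : Zd := .nd 4 a688 a695
def a697 : Zd := .nd 14 a684 a696
def a698 : Zd := .nd 17 a336 a643
def a699 : Zd := .nd 16 a698 .bot
def a700 : Zd := .nd 5 a699 .bot
def a701 : Zd := .nd 7 a323 .bot
def a702 : Zd := .nd 17 a16 a701
def a703 : Zd := .nd 16 a702 .bot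
def a704 : Zd := .nd 17 a33 .bot
def a705 : Zd := .nd 16 a704 .bot
def a706 : Zd := .nd 15 a703 a705
def a707 : Zd := .nd 4 a700 a706
def a708 : Zd := .nd 16 a289 .bot
def a709 : Zd := .nd 15 a708 .bot
def a710 : Zd := .nd 17 a189 a207
def a711 : Zd := .nd 6 a710 a437
def a712 : Zd := .nd 7 a110 .bot
def a713 : Zd := .nd 17 a712 a554
def a714 : Zd := .nd 17 a35 .bot
def a715 : Zd := .nd 6 a714 .bot
def a716 : Zd := .nd 16 a713 a715
def a717 : Zd := .nd 5 a711 a716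
def a718 : Zd := .nd 17 a130 .bot
def a719 : Zd := .nd 16 a718 a599
def a720 : Zd := .nd 7 a267 .bot
def a721 : Zd := .nd 16 a720 .bot
def a722 : Zd := .nd 5 a719 a721
def a723 : Zd := .nd 15 a717 a722
def a724 : Zd := .nd 4 a709 a723
def a725 : Zd := .nd 14 a707 a724
def a726 : Zd := .nd 3 a697 a725
def a727 : Zd := .nd 13 a670 a726
def a728 : Zd := .nd 6 a406 .bot
def a729 : Zd := .nd 5 a728 .bot
def a730 : Zd := .nd 15 a561 a729
def a731 : Zd := .nd 6 a359 .bot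
def a732 : Zd := .nd 5 a561 a731
def a733 : Zd := .nd 15 a732 .bot
def a734 : Zd := .nd 14 a730 a733
def a735 : Zd := .nd 7 a0 .bot
def a736 : Zd := .nd 17 a735 a116
def a737 : Zd := .nd 6 a736 .bot
def a738 : Zd := .nd 17 a160 .bot
def a739 : Zd := .nd 16 a737 a738
def a740 : Zd := .nd 18 a109 a323
def a741 : Zd := .nd 16 a740 .bot
def a742 : Zd := .nd 7 a222 .bot
def a743 : Zd := .nd 6 a742 .bot
def a744 : Zd := .nd 16 a743 .bot
def a745 : Zd := .nd 5 a741 a744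
def a746 : Zd := .nd 18 a229 .bot
def a747 : Zd := .nd 17 a746 .bot
def a748 : Zd := .nd 16 a441 a747
def a749 : Zd := .nd 17 a86 .bot
def a750 : Zd := .nd 6 a749 .bot
def a751 : Zd := .nd 16 a749 a750
def a752 : Zd := .nd 5 a748 a751
def a753 : Zd := .nd 15 a745 a752
def a754 : Zd := .nd 4 a739 a753
def a755 : Zd := .nd 7 a538 a97
def a756 : Zd := .nd 17 a755 a454
def a757 : Zd := .nd 6 a756 .bot
def a758 : Zd := .nd 15 a757 .bot
def a759 : Zd := .nd 14 a754 a758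
def a760 : Zd := .nd 3 a734 a759
def a761 : Zd := .nd 6 a427 a492
def a762 : Zd := .nd 16 a761 .bot
def a763 : Zd := .nd 15 a762 .bot
def a764 : Zd := .nd 6 a10 a410
def a765 : Zd := .nd 16 a764 .bot
def a766 : Zd := .nd 17 a440 .bot
def a767 : Zd := .nd 6 a766 .bot
def a768 : Zd := .nd 17 a692 .bot
def a769 : Zd := .nd 16 a767 a768
def a770 : Zd := .nd 5 a765 a769
def a771 : Zd := .nd 15 a770 .bot
def a772 : Zd := .nd 4 a763 a771
def a773 : Zd := .nd 7 a26 .bot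
def a774 : Zd := .nd 6 a773 .bot
def a775 : Zd := .nd 16 a774 .bot
def a776 : Zd := .nd 5 a775 .bot
def a777 : Zd := .nd 15 a776 .bot
def a778 : Zd := .nd 14 a772 a777
def a779 : Zd := .nd 6 a386 .bot
def a780 : Zd := .nd 16 a779 .bot
def a781 : Zd := .nd 5 a225 a780
def a782 : Zd := .nd 16 a749 .bot
def a783 : Zd := .nd 15 a782 .bot
def a784 : Zd := .nd 4 a781 a783
def a785 : Zd := .nd 6 a467 .bot
def a786 : Zd := .nd 16 a731 a785
def a787 : Zd := .nd 5 a786 .bot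
def a788 : Zd := .nd 7 a62 .bot
def a789 : Zd := .nd 6 a788 .bot
def a790 : Zd := .nd 16 a789 .bot
def a791 : Zd := .nd 5 a790 .bot
def a792 : Zd := .nd 15 a787 a791
def a793 : Zd := .nd 14 a784 a792
def a794 : Zd := .nd 3 a778 a793
def a795 : Zd := .nd 13 a760 a794
def a796 : Zd := .nd 2 a727 a795
def a797 : Zd := .nd 17 a15 .bot
def a798 : Zd := .nd 6 a797 .bot
def a799 : Zd := .nd 5 a798 .bot
def a800 : Zd := .nd 7 a410 .bot
def a801 : Zd := .nd 17 a800 .bot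
def a802 : Zd := .nd 15 a799 a801
def a803 : Zd := .nd 16 a217 .bot
def a804 : Zd := .nd 17 a10 .bot
def a805 : Zd := .nd 5 a803 a804
def a806 : Zd := .nd 6 a405 .bot
def a807 : Zd := .nd 16 a806 .bot
def a808 : Zd := .nd 7 a77 .bot
def a809 : Zd := .nd 6 a808 .bot
def a810 : Zd := .nd 16 a55 a809
def a811 : Zd := .nd 5 a807 a810
def a812 : Zd := .nd 15 a805 a811
def a813 : Zd := .nd 4 a802 a812
def a814 : Zd := .nd 5 a485 .bot
def a815 : Zd := .nd 15 a814 .bot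
def a816 : Zd := .nd 17 a492 .bot
def a817 : Zd := .nd 6 a816 .bot
def a818 : Zd := .nd 6 a441 .bot
def a819 : Zd := .nd 16 a493 .bot
def a820 : Zd := .nd 5 a818 a819
def a821 : Zd := .nd 15 a817 a820
def a822 : Zd := .nd 4 a815 a821
def a823 : Zd := .nd 14 a813 a822
def a824 : Zd := .nd 6 a364 .bot
def a825 : Zd := .nd 5 a824 .bot
def a826 : Zd := .nd 15 a825 .bot
def a827 : Zd := .nd 17 a115 .bot
def a828 : Zd := .nd 6 a827 .bot
def a829 : Zd := .nd 16 a828 .bot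
def a830 : Zd := .nd 15 a829 .bot
def a831 : Zd := .nd 15 a261 .bot
def a832 : Zd := .nd 4 a830 a831
def a833 : Zd := .nd 14 a826 a832
def a834 : Zd := .nd 3 a823 a833
def a835 : Zd := .nd 6 a287 .bot
def a836 : Zd := .nd 16 a835 .bot
def a837 : Zd := .nd 6 a440 .bot
def a838 : Zd := .nd 16 a837 .bot
def a839 : Zd := .nd 5 a838 .bot
def a840 : Zd := .nd 15 a836 a839
def a841 : Zd := .nd 17 a104 .bot
def a842 : Zd := .nd 16 a841 .bot
def a843 : Zd := .nd 5 a842 .bot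
def a844 : Zd := .nd 17 a720 .bot
def a845 : Zd := .nd 15 a843 a844
def a846 : Zd := .nd 4 a840 a845
def a847 : Zd := .nd 18 a172 .bot
def a848 : Zd := .nd 6 a847 .bot
def a849 : Zd := .nd 7 a72 .bot
def a850 : Zd := .nd 17 a849 .bot
def a851 : Zd := .nd 18 a193 a51
def a852 : Zd := .nd 7 a851 .bot
def a853 : Zd := .nd 6 a850 a852
def a854 : Zd := .nd 7 a847 .bot
def a855 : Zd := .nd 16 a853 a854
def a856 : Zd := .nd 5 a848 a855
def a857 : Zd := .nd 6 a358 .bot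
def a858 : Zd := .nd 16 a857 .bot
def a859 : Zd := .nd 17 a701 .bot
def a860 : Zd := .nd 6 a859 .bot
def a861 : Zd := .nd 17 a68 .bot
def a862 : Zd := .nd 16 a860 a861
def a863 : Zd := .nd 5 a858 a862
def a864 : Zd := .nd 15 a856 a863
def a865 : Zd := .nd 6 a411 a564
def a866 : Zd := .nd 6 a70 .bot
def a867 : Zd := .nd 16 a865 a866
def a868 : Zd := .nd 5 a528 a867
def a869 : Zd := .nd 18 a467 .bot
def a870 : Zd := .nd 16 a869 .bot
def a871 : Zd := .nd 15 a868 a870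
def a872 : Zd := .nd 4 a864 a871
def a873 : Zd := .nd 14 a846 a872
def a874 : Zd := .nd 6 a189 .bot
def a875 : Zd := .nd 5 a874 .bot
def a876 : Zd := .nd 6 a259 .bot
def a877 : Zd := .nd 5 a876 .bot
def a878 : Zd := .nd 15 a875 a877
def a879 : Zd := .nd 4 a878 .bot
def a880 : Zd := .nd 16 a650 .bot
def a881 : Zd := .nd 6 a549 .bot
def a882 : Zd := .nd 5 a880 a881
def a883 : Zd := .nd 15 a882 .bot
def a884 : Zd := .nd 4 a883 .bot
def a885 : Zd := .nd 14 a879 a884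
def a886 : Zd := .nd 3 a873 a885
def a887 : Zd := .nd 13 a834 a886
def a888 : Zd := .nd 6 a55 a338
def a889 : Zd := .nd 16 a888 .bot
def a890 : Zd := .nd 6 a195 .bot
def a891 : Zd := .nd 5 a890 .bot
def a892 : Zd := .nd 4 a889 a891
def a893 : Zd := .nd 7 a390 .bot
def a894 : Zd := .nd 6 a893 .bot
def a895 : Zd := .nd 6 a658 .bot
def a896 : Zd := .nd 16 a895 a331
def a897 : Zd := .nd 5 a896 .bot
def a898 : Zd := .nd 15 a894 a897
def a899 : Zd := .nd 6 a52 .bot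
def a900 : Zd := .nd 16 a899 a191
def a901 : Zd := .nd 5 a900 .bot
def a902 : Zd := .nd 4 a898 a901
def a903 : Zd := .nd 14 a892 a902
def a904 : Zd := .nd 17 a195 a68
def a905 : Zd := .nd 6 a904 .bot
def a906 : Zd := .nd 16 a905 .bot
def a907 : Zd := .nd 16 a837 a431
def a908 : Zd := .nd 5 a907 .bot
def a909 : Zd := .nd 15 a908 .bot
def a910 : Zd := .nd 4 a906 a909
def a911 : Zd := .nd 6 a267 .bot
def a912 : Zd := .nd 16 a911 .bot
def a913 : Zd := .nd 5 a912 .bot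
def a914 : Zd := .nd 4 a913 .bot
def a915 : Zd := .nd 14 a910 a914
def a916 : Zd := .nd 3 a903 a915
def a917 : Zd := .nd 16 a413 .bot
def a918 : Zd := .nd 17 a194 .bot
def a919 : Zd := .nd 6 a918 .bot
def a920 : Zd := .nd 16 a919 .bot
def a921 : Zd := .nd 5 a917 a920
def a922 : Zd := .nd 17 a788 .bot
def a923 : Zd := .nd 6 a922 .bot
def a924 : Zd := .nd 7 a124 .bot
def a925 : Zd := .nd 17 a924 .bot
def a926 : Zd := .nd 5 a923 a925
def a927 : Zd := .nd 15 a921 a926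
def a928 : Zd := .nd 6 a337 .bot
def a929 : Zd := .nd 16 a928 .bot
def a930 : Zd := .nd 15 a929 .bot
def a931 : Zd := .nd 4 a927 a930
def a932 : Zd := .nd 7 a405 a136
def a933 : Zd := .nd 17 a932 .bot
def a934 : Zd := .nd 6 a933 .bot
def a935 : Zd := .nd 16 a934 .bot
def a936 : Zd := .nd 15 a935 .bot
def a937 : Zd := .nd 6 a551 .bot
def a938 : Zd := .nd 16 a937 .bot
def a939 : Zd := .nd 5 a938 .bot
def a940 : Zd := .nd 15 a624 a939
def a941 : Zd := .nd 4 a936 a940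
def a942 : Zd := .nd 14 a931 a941
def a943 : Zd := .nd 16 a175 .bot
def a944 : Zd := .nd 5 a943 .bot
def a945 : Zd := .nd 17 a549 .bot
def a946 : Zd := .nd 6 a945 .bot
def a947 : Zd := .nd 15 a944 a946
def a948 : Zd := .nd 6 a854 .bot
def a949 : Zd := .nd 5 a948 .bot
def a950 : Zd := .nd 17 a306 .bot
def a951 : Zd := .nd 16 a950 .bot
def a952 : Zd := .nd 5 a951 .bot
def a953 : Zd := .nd 15 a949 a952
def a954 : Zd := .nd 4 a947 a953
def a955 : Zd := .nd 16 a606 .bot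
def a956 : Zd := .nd 5 a955 .bot
def a957 : Zd := .nd 15 a624 a956
def a958 : Zd := .nd 4 a957 .bot
def a959 : Zd := .nd 14 a954 a958
def a960 : Zd := .nd 3 a942 a959
def a961 : Zd := .nd 13 a916 a960
def a962 : Zd := .nd 2 a887 a961
def a963 : Zd := .nd 12 a796 a962
def a964 : Zd := .nd 17 a223 a195
def a965 : Zd := .nd 16 a23 a964
def a966 : Zd := .nd 8 .top a9
def a967 : Zd := .nd 7 a966 .bot
def a968 : Zd := .nd 16 a967 a854
def a969 : Zd := .nd 5 a968 .bot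
def a970 : Zd := .nd 15 a965 a969
def a971 : Zd := .nd 17 a116 .bot
def a972 : Zd := .nd 5 a971 .bot
def a973 : Zd := .nd 4 a970 a972
def a974 : Zd := .nd 8 a25 .bot
def a975 : Zd := .nd 18 a974 .bot
def a976 : Zd := .nd 17 a975 .bot
def a977 : Zd := .nd 5 a976 .bot
def a978 : Zd := .nd 7 a401 .bot
def a979 : Zd := .nd 17 a123 .bot
def a980 : Zd := .nd 16 a978 a979
def a981 : Zd := .nd 15 a980 .bot
def a982 : Zd := .nd 4 a977 a981
def a983 : Zd := .nd 14 a973 a982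
def a984 : Zd := .nd 6 a323 .bot
def a985 : Zd := .nd 18 a0 a115
def a986 : Zd := .nd 6 a985 .bot
def a987 : Zd := .nd 16 a986 .bot
def a988 : Zd := .nd 5 a987 a487
def a989 : Zd := .nd 15 a984 a988
def a990 : Zd := .nd 6 a410 .bot
def a991 : Zd := .nd 18 a72 .bot
def a992 : Zd := .nd 17 a991 .bot
def a993 : Zd := .nd 6 a992 .bot
def a994 : Zd := .nd 16 a993 .bot
def a995 : Zd := .nd 15 a990 a994
def a996 : Zd := .nd 4 a989 a995
def a997 : Zd := .nd 16 a201 .bot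
def a998 : Zd := .nd 16 a416 .bot
def a999 : Zd := .nd 17 a358 a137
def a1000 : Zd := .nd 7 a167 .bot
def a1001 : Zd := .nd 17 a1000 .bot
def a1002 : Zd := .nd 6 a999 a1001
def a1003 : Zd := .nd 5 a998 a1002
def a1004 : Zd := .nd 7 a223 .bot
def a1005 : Zd := .nd 6 a1004 .bot
def a1006 : Zd := .nd 16 a1005 .bot
def a1007 : Zd := .nd 5 a1006 .bot
def a1008 : Zd := .nd 15 a1003 a1007
def a1009 : Zd := .nd 4 a997 a1008
def a1010 : Zd := .nd 14 a996 a1009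
def a1011 : Zd := .nd 3 a983 a1010
def a1012 : Zd := .nd 8 a26 .bot
def a1013 : Zd := .nd 7 a1012 .bot
def a1014 : Zd := .nd 17 a1013 .bot
def a1015 : Zd := .nd 6 a62 .bot
def a1016 : Zd := .nd 16 a1015 .bot
def a1017 : Zd := .nd 5 a1014 a1016
def a1018 : Zd := .nd 17 a411 .bot
def a1019 : Zd := .nd 15 a1018 .bot
def a1020 : Zd := .nd 4 a1017 a1019
def a1021 : Zd := .nd 7 a134 .bot
def a1022 : Zd := .nd 16 a1021 .bot
def a1023 : Zd := .nd 4 a1022 .bot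
def a1024 : Zd := .nd 14 a1020 a1023
def a1025 : Zd := .nd 18 a222 a223
def a1026 : Zd := .nd 17 a1025 .bot
def a1027 : Zd := .nd 16 a1026 .bot
def a1028 : Zd := .nd 5 a1027 .bot
def a1029 : Zd := .nd 15 a998 a1028
def a1030 : Zd := .nd 6 a124 .bot
def a1031 : Zd := .nd 16 a1030 .bot
def a1032 : Zd := .nd 4 a1029 a1031
def a1033 : Zd := .nd 7 a304 .bot
def a1034 : Zd := .nd 16 a1033 .bot
def a1035 : Zd := .nd 15 a1034 .bot
def a1036 : Zd := .nd 4 a1035 .bot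
def a1037 : Zd := .nd 14 a1032 a1036
def a1038 : Zd := .nd 3 a1024 a1037
def a1039 : Zd := .nd 13 a1011 a1038
def a1040 : Zd := .nd 17 a384 .bot
def a1041 : Zd := .nd 16 a1040 .bot
def a1042 : Zd := .nd 5 a1041 .bot
def a1043 : Zd := .nd 7 a519 .bot
def a1044 : Zd := .nd 15 a1042 a1043
def a1045 : Zd := .nd 17 a55 a664
def a1046 : Zd := .nd 17 a200 .bot
def a1047 : Zd := .nd 16 a1046 .bot
def a1048 : Zd := .nd 15 a1045 a1047
def a1049 : Zd := .nd 4 a1044 a1048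
def a1050 : Zd := .nd 7 a322 a166
def a1051 : Zd := .nd 17 a223 a1050
def a1052 : Zd := .nd 6 a1051 .bot
def a1053 : Zd := .nd 16 a1052 .bot
def a1054 : Zd := .nd 5 a1053 .bot
def a1055 : Zd := .nd 7 a145 .bot
def a1056 : Zd := .nd 17 a1055 .bot
def a1057 : Zd := .nd 6 a1056 .bot
def a1058 : Zd := .nd 16 a1057 .bot
def a1059 : Zd := .nd 15 a148 a1058
def a1060 : Zd := .nd 4 a1054 a1059
def a1061 : Zd := .nd 14 a1049 a1060
def a1062 : Zd := .nd 6 a73 .bot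
def a1063 : Zd := .nd 16 a1062 .bot
def a1064 : Zd := .nd 6 a85 .bot
def a1065 : Zd := .nd 16 a1064 .bot
def a1066 : Zd := .nd 5 a1063 a1065
def a1067 : Zd := .nd 7 a97 a550
def a1068 : Zd := .nd 17 a1067 .bot
def a1069 : Zd := .nd 15 a1066 a1068
def a1070 : Zd := .nd 17 a222 .bot
def a1071 : Zd := .nd 17 a109 .bot
def a1072 : Zd := .nd 6 a1070 a1071
def a1073 : Zd := .nd 17 a230 .bot
def a1074 : Zd := .nd 6 a1073 .bot
def a1075 : Zd := .nd 16 a1072 a1074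
def a1076 : Zd := .nd 5 a1075 .bot
def a1077 : Zd := .nd 6 a319 .bot
def a1078 : Zd := .nd 16 a147 a1077
def a1079 : Zd := .nd 5 a1078 .bot
def a1080 : Zd := .nd 15 a1076 a1079
def a1081 : Zd := .nd 4 a1069 a1080
def a1082 : Zd := .nd 6 a1071 .bot
def a1083 : Zd := .nd 16 a1082 .bot
def a1084 : Zd := .nd 5 a780 .bot
def a1085 : Zd := .nd 15 a1083 a1084
def a1086 : Zd := .nd 17 a32 a473
def a1087 : Zd := .nd 6 a1086 .bot
def a1088 : Zd := .nd 16 a1087 .bot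
def a1089 : Zd := .nd 5 a1088 a566
def a1090 : Zd := .nd 6 a738 .bot
def a1091 : Zd := .nd 16 a1090 .bot
def a1092 : Zd := .nd 5 a1091 .bot
def a1093 : Zd := .nd 15 a1089 a1092
def a1094 : Zd := .nd 4 a1085 a1093
def a1095 : Zd := .nd 14 a1081 a1094
def a1096 : Zd := .nd 3 a1061 a1095
def a1097 : Zd := .nd 16 a435 .bot
def a1098 : Zd := .nd 6 a375 .bot
def a1099 : Zd := .nd 15 a1097 a1098
def a1100 : Zd := .nd 7 a306 .bot
def a1101 : Zd := .nd 17 a306 a1100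
def a1102 : Zd := .nd 16 a894 .bot
def a1103 : Zd := .nd 15 a1101 a1102
def a1104 : Zd := .nd 4 a1099 a1103
def a1105 : Zd := .nd 16 a809 .bot
def a1106 : Zd := .nd 5 a1105 .bot
def a1107 : Zd := .nd 4 a1106 .bot
def a1108 : Zd := .nd 14 a1104 a1107
def a1109 : Zd := .nd 16 a597 .bot
def a1110 : Zd := .nd 15 a1109 .bot
def a1111 : Zd := .nd 16 a467 .bot
def a1112 : Zd := .nd 17 a294 .bot
def a1113 : Zd := .nd 16 a1112 .bot
def a1114 : Zd := .nd 5 a1111 a1113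
def a1115 : Zd := .nd 4 a1110 a1114
def a1116 : Zd := .nd 14 a1115 .bot
def a1117 : Zd := .nd 3 a1108 a1116
def a1118 : Zd := .nd 13 a1096 a1117
def a1119 : Zd := .nd 2 a1039 a1118
def a1120 : Zd := .nd 5 a1062 .bot
def a1121 : Zd := .nd 6 a1070 .bot
def a1122 : Zd := .nd 16 a1121 .bot
def a1123 : Zd := .nd 5 a1122 .bot
def a1124 : Zd := .nd 15 a1120 a1123
def a1125 : Zd := .nd 18 a1012 .bot
def a1126 : Zd := .nd 6 a1125 .bot
def a1127 : Zd := .nd 5 a1126 .bot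
def a1128 : Zd := .nd 4 a1124 a1127
def a1129 : Zd := .nd 17 a397 a1012
def a1130 : Zd := .nd 6 a1129 .bot
def a1131 : Zd := .nd 16 a1130 .bot
def a1132 : Zd := .nd 5 a1131 .bot
def a1133 : Zd := .nd 7 a1 a32
def a1134 : Zd := .nd 6 a1133 a701
def a1135 : Zd := .nd 16 a1134 a339
def a1136 : Zd := .nd 6 a539 .bot
def a1137 : Zd := .nd 16 a1136 .bot
def a1138 : Zd := .nd 5 a1135 a1137
def a1139 : Zd := .nd 15 a1132 a1138
def a1140 : Zd := .nd 7 a75 .bot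
def a1141 : Zd := .nd 17 a1140 .bot
def a1142 : Zd := .nd 6 a1141 .bot
def a1143 : Zd := .nd 17 a32 .bot
def a1144 : Zd := .nd 6 a1143 .bot
def a1145 : Zd := .nd 16 a1142 a1144
def a1146 : Zd := .nd 5 a1145 .bot
def a1147 : Zd := .nd 15 a1146 .bot
def a1148 : Zd := .nd 4 a1139 a1147
def a1149 : Zd := .nd 14 a1128 a1148
def a1150 : Zd := .nd 17 a328 .bot
def a1151 : Zd := .nd 6 a1150 .bot
def a1152 : Zd := .nd 16 a1151 a715
def a1153 : Zd := .nd 16 a848 .bot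
def a1154 : Zd := .nd 5 a1152 a1153
def a1155 : Zd := .nd 17 a653 .bot
def a1156 : Zd := .nd 17 a258 .bot
def a1157 : Zd := .nd 6 a1155 a1156
def a1158 : Zd := .nd 16 a1157 a568
def a1159 : Zd := .nd 5 a1158 .bot
def a1160 : Zd := .nd 15 a1154 a1159
def a1161 : Zd := .nd 18 a402 .bot
def a1162 : Zd := .nd 17 a1161 .bot
def a1163 : Zd := .nd 6 a971 a1162
def a1164 : Zd := .nd 17 a808 .bot
def a1165 : Zd := .nd 6 a1164 .bot
def a1166 : Zd := .nd 16 a1163 a1165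
def a1167 : Zd := .nd 17 a1043 .bot
def a1168 : Zd := .nd 7 a259 .bot
def a1169 : Zd := .nd 17 a1168 .bot
def a1170 : Zd := .nd 16 a1169 .bot
def a1171 : Zd := .nd 5 a1167 a1170
def a1172 : Zd := .nd 15 a1166 a1171
def a1173 : Zd := .nd 4 a1172 .bot
def a1174 : Zd := .nd 14 a1160 a1173
def a1175 : Zd := .nd 3 a1149 a1174
def a1176 : Zd := .nd 16 a320 .bot
def a1177 : Zd := .nd 15 a1176 a1127
def a1178 : Zd := .nd 17 a410 .bot
def a1179 : Zd := .nd 6 a1178 .bot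
def a1180 : Zd := .nd 16 a1179 .bot
def a1181 : Zd := .nd 5 a1180 .bot
def a1182 : Zd := .nd 4 a1177 a1181
def a1183 : Zd := .nd 16 a294 .bot
def a1184 : Zd := .nd 5 a948 a1183
def a1185 : Zd := .nd 15 a1184 .bot
def a1186 : Zd := .nd 4 a1185 .bot
def a1187 : Zd := .nd 14 a1182 a1186
def a1188 : Zd := .nd 19 a76 a229
def a1189 : Zd := .nd 8 a1188 .bot
def a1190 : Zd := .nd 7 a1189 a467
def a1191 : Zd := .nd 17 a1190 .bot
def a1192 : Zd := .nd 6 a1191 .bot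
def a1193 : Zd := .nd 5 a1192 .bot
def a1194 : Zd := .nd 15 a135 a1193
def a1195 : Zd := .nd 6 a597 .bot
def a1196 : Zd := .nd 16 a1195 .bot
def a1197 : Zd := .nd 5 a1196 .bot
def a1198 : Zd := .nd 4 a1194 a1197
def a1199 : Zd := .nd 18 a110 a166
def a1200 : Zd := .nd 7 a1199 .bot
def a1201 : Zd := .nd 17 a1200 .bot
def a1202 : Zd := .nd 6 a1201 .bot
def a1203 : Zd := .nd 16 a1202 .bot
def a1204 : Zd := .nd 5 a1203 .bot
def a1205 : Zd := .nd 14 a1198 a1204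
def a1206 : Zd := .nd 3 a1187 a1205
def a1207 : Zd := .nd 13 a1175 a1206
def a1208 : Zd := .nd 16 a160 a928
def a1209 : Zd := .nd 15 a1208 a945
def a1210 : Zd := .nd 18 a25 a27
def a1211 : Zd := .nd 7 a1210 .bot
def a1212 : Zd := .nd 17 a1211 .bot
def a1213 : Zd := .nd 6 a1212 .bot
def a1214 : Zd := .nd 16 a919 a1213
def a1215 : Zd := .nd 5 a1214 .bot
def a1216 : Zd := .nd 7 a87 .bot
def a1217 : Zd := .nd 17 a1216 .bot
def a1218 : Zd := .nd 6 a1217 .bot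
def a1219 : Zd := .nd 16 a1218 .bot
def a1220 : Zd := .nd 5 a1219 .bot
def a1221 : Zd := .nd 15 a1215 a1220
def a1222 : Zd := .nd 4 a1209 a1221
def a1223 : Zd := .nd 17 a10 a358
def a1224 : Zd := .nd 6 a1223 .bot
def a1225 : Zd := .nd 16 a1224 .bot
def a1226 : Zd := .nd 6 a425 .bot
def a1227 : Zd := .nd 5 a1225 a1226
def a1228 : Zd := .nd 15 a1227 .bot
def a1229 : Zd := .nd 4 a1228 .bot
def a1230 : Zd := .nd 14 a1222 a1229
def a1231 : Zd := .nd 16 a140 .bot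
def a1232 : Zd := .nd 7 a68 .bot
def a1233 : Zd := .nd 17 a1232 .bot
def a1234 : Zd := .nd 5 a1233 a1034
def a1235 : Zd := .nd 7 a1161 .bot
def a1236 : Zd := .nd 6 a1235 .bot
def a1237 : Zd := .nd 18 a267 .bot
def a1238 : Zd := .nd 7 a1237 .bot
def a1239 : Zd := .nd 17 a1238 .bot
def a1240 : Zd := .nd 5 a1236 a1239
def a1241 : Zd := .nd 15 a1234 a1240
def a1242 : Zd := .nd 4 a1231 a1241
def a1243 : Zd := .nd 17 a453 .bot
def a1244 : Zd := .nd 6 a1243 .bot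
def a1245 : Zd := .nd 16 a1244 .bot
def a1246 : Zd := .nd 5 a1245 .bot
def a1247 : Zd := .nd 17 a237 .bot
def a1248 : Zd := .nd 6 a1247 .bot
def a1249 : Zd := .nd 16 a1248 .bot
def a1250 : Zd := .nd 5 a149 a1249
def a1251 : Zd := .nd 18 a459 .bot
def a1252 : Zd := .nd 7 a1251 .bot
def a1253 : Zd := .nd 17 a1252 .bot
def a1254 : Zd := .nd 6 a1253 .bot
def a1255 : Zd := .nd 5 a1254 .bot
def a1256 : Zd := .nd 15 a1250 a1255
def a1257 : Zd := .nd 4 a1246 a1256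
def a1258 : Zd := .nd 14 a1242 a1257
def a1259 : Zd := .nd 3 a1230 a1258
def a1260 : Zd := .nd 18 a26 .bot
def a1261 : Zd := .nd 7 a1260 .bot
def a1262 : Zd := .nd 6 a1261 .bot
def a1263 : Zd := .nd 16 a1262 .bot
def a1264 : Zd := .nd 5 a1263 .bot
def a1265 : Zd := .nd 15 a1264 .bot
def a1266 : Zd := .nd 5 a1113 .bot
def a1267 : Zd := .nd 4 a1265 a1266
def a1268 : Zd := .nd 14 a1267 .bot
def a1269 : Zd := .nd 6 a1161 .bot
def a1270 : Zd := .nd 16 a1269 .bot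
def a1271 : Zd := .nd 17 a1021 .bot
def a1272 : Zd := .nd 6 a1271 .bot
def a1273 : Zd := .nd 5 a1272 .bot
def a1274 : Zd := .nd 15 a1270 a1273
def a1275 : Zd := .nd 17 a304 a800
def a1276 : Zd := .nd 6 a1275 .bot
def a1277 : Zd := .nd 16 a1276 .bot
def a1278 : Zd := .nd 5 a1277 .bot
def a1279 : Zd := .nd 15 a1278 .bot
def a1280 : Zd := .nd 4 a1274 a1279
def a1281 : Zd := .nd 14 a1280 .bot
def a1282 : Zd := .nd 3 a1268 a1281
def a1283 : Zd := .nd 13 a1259 a1282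
def a1284 : Zd := .nd 2 a1207 a1283
def a1285 : Zd := .nd 12 a1119 a1284
def a1286 : Zd := .nd 1 a963 a1285
def a1287 : Zd := .nd 11 a632 a1286
def a1288 : Zd := .nd 16 a543 a200
def a1289 : Zd := .nd 18 a4 .bot
def a1290 : Zd := .nd 17 a1289 .bot
def a1291 : Zd := .nd 5 a1290 .bot
def a1292 : Zd := .nd 4 a1288 a1291
def a1293 : Zd := .nd 14 a1292 .bot
def a1294 : Zd := .nd 17 a58 .bot
def a1295 : Zd := .nd 16 a1294 .bot
def a1296 : Zd := .nd 5 a1295 .bot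
def a1297 : Zd := .nd 6 a39 .bot
def a1298 : Zd := .nd 16 a1297 .bot
def a1299 : Zd := .nd 17 a323 .bot
def a1300 : Zd := .nd 16 a1299 .bot
def a1301 : Zd := .nd 5 a1298 a1300
def a1302 : Zd := .nd 15 a1296 a1301
def a1303 : Zd := .nd 6 a31 .bot
def a1304 : Zd := .nd 16 a1303 .bot
def a1305 : Zd := .nd 5 a1304 .bot
def a1306 : Zd := .nd 17 a119 .bot
def a1307 : Zd := .nd 16 a1306 .bot
def a1308 : Zd := .nd 5 a305 a1307
def a1309 : Zd := .nd 4 a1305 a1308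
def a1310 : Zd := .nd 14 a1302 a1309
def a1311 : Zd := .nd 3 a1293 a1310
def a1312 : Zd := .nd 6 a247 a538
def a1313 : Zd := .nd 16 a1312 .bot
def a1314 : Zd := .nd 16 a1290 a184
def a1315 : Zd := .nd 5 a1314 .bot
def a1316 : Zd := .nd 15 a1315 a1136
def a1317 : Zd := .nd 4 a1313 a1316
def a1318 : Zd := .nd 16 a40 .bot
def a1319 : Zd := .nd 5 a1318 .bot
def a1320 : Zd := .nd 17 a1125 a391
def a1321 : Zd := .nd 16 a453 a1320
def a1322 : Zd := .nd 5 a1321 .bot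
def a1323 : Zd := .nd 15 a1319 a1322
def a1324 : Zd := .nd 17 a223 a473
def a1325 : Zd := .nd 16 a1324 .bot
def a1326 : Zd := .nd 5 a1325 .bot
def a1327 : Zd := .nd 15 a1326 .bot
def a1328 : Zd := .nd 4 a1323 a1327
def a1329 : Zd := .nd 14 a1317 a1328
def a1330 : Zd := .nd 7 a974 .bot
def a1331 : Zd := .nd 16 a1330 .bot
def a1332 : Zd := .nd 5 a1331 a458
def a1333 : Zd := .nd 16 a1299 a267
def a1334 : Zd := .nd 5 a1333 .bot
def a1335 : Zd := .nd 15 a1332 a1334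
def a1336 : Zd := .nd 17 a43 a454
def a1337 : Zd := .nd 16 a1336 a413
def a1338 : Zd := .nd 16 a1161 .bot
def a1339 : Zd := .nd 5 a1338 .bot
def a1340 : Zd := .nd 15 a1337 a1339
def a1341 : Zd := .nd 4 a1335 a1340
def a1342 : Zd := .nd 6 a230 .bot
def a1343 : Zd := .nd 16 a487 .bot
def a1344 : Zd := .nd 5 a1342 a1343
def a1345 : Zd := .nd 5 a582 .bot
def a1346 : Zd := .nd 15 a1344 a1345
def a1347 : Zd := .nd 6 a850 .bot
def a1348 : Zd := .nd 16 a1347 a549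
def a1349 : Zd := .nd 17 a854 .bot
def a1350 : Zd := .nd 5 a1348 a1349
def a1351 : Zd := .nd 6 a950 .bot
def a1352 : Zd := .nd 15 a1350 a1351
def a1353 : Zd := .nd 4 a1346 a1352
def a1354 : Zd := .nd 14 a1341 a1353
def a1355 : Zd := .nd 3 a1329 a1354
def a1356 : Zd := .nd 13 a1311 a1355
def a1357 : Zd := .nd 15 a492 .bot
def a1358 : Zd := .nd 4 a1357 .bot
def a1359 : Zd := .nd 5 a358 .bot
def a1360 : Zd := .nd 6 a971 .bot
def a1361 : Zd := .nd 15 a1359 a1360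
def a1362 : Zd := .nd 7 a31 .bot
def a1363 : Zd := .nd 6 a1362 .bot
def a1364 : Zd := .nd 17 a560 .bot
def a1365 : Zd := .nd 16 a1363 a1364
def a1366 : Zd := .nd 15 a1365 .bot
def a1367 : Zd := .nd 4 a1361 a1366
def a1368 : Zd := .nd 14 a1358 a1367
def a1369 : Zd := .nd 7 a402 .bot
def a1370 : Zd := .nd 17 a1369 .bot
def a1371 : Zd := .nd 5 a319 .bot
def a1372 : Zd := .nd 7 a38 .bot
def a1373 : Zd := .nd 17 a1372 .bot
def a1374 : Zd := .nd 6 a1373 .bot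
def a1375 : Zd := .nd 7 a27 .bot
def a1376 : Zd := .nd 6 a1375 .bot
def a1377 : Zd := .nd 16 a1374 a1376
def a1378 : Zd := .nd 5 a1377 a508
def a1379 : Zd := .nd 15 a1371 a1378
def a1380 : Zd := .nd 4 a1370 a1379
def a1381 : Zd := .nd 16 a55 .bot
def a1382 : Zd := .nd 6 a978 .bot
def a1383 : Zd := .nd 16 a1382 a454
def a1384 : Zd := .nd 5 a1381 a1383
def a1385 : Zd := .nd 6 a747 .bot
def a1386 : Zd := .nd 15 a1384 a1385
def a1387 : Zd := .nd 6 a659 .bot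
def a1388 : Zd := .nd 16 a1387 .bot
def a1389 : Zd := .nd 7 a27 a119
def a1390 : Zd := .nd 17 a205 .bot
def a1391 : Zd := .nd 6 a1389 a1390
def a1392 : Zd := .nd 16 a1391 .bot
def a1393 : Zd := .nd 5 a1388 a1392
def a1394 : Zd := .nd 7 a653 .bot
def a1395 : Zd := .nd 17 a1394 a1021
def a1396 : Zd := .nd 16 a1395 .bot
def a1397 : Zd := .nd 16 a417 .bot
def a1398 : Zd := .nd 5 a1396 a1397
def a1399 : Zd := .nd 15 a1393 a1398
def a1400 : Zd := .nd 4 a1386 a1399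
def a1401 : Zd := .nd 14 a1380 a1400
def a1402 : Zd := .nd 3 a1368 a1401
def a1403 : Zd := .nd 17 a115 a73
def a1404 : Zd := .nd 6 a1403 .bot
def a1405 : Zd := .nd 16 a766 a1404
def a1406 : Zd := .nd 5 a1405 .bot
def a1407 : Zd := .nd 4 a1406 .bot
def a1408 : Zd := .nd 17 a643 .bot
def a1409 : Zd := .nd 6 a1408 .bot
def a1410 : Zd := .nd 7 a229 .bot
def a1411 : Zd := .nd 6 a1410 .bot
def a1412 : Zd := .nd 16 a1411 .bot
def a1413 : Zd := .nd 5 a1409 a1412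
def a1414 : Zd := .nd 16 a362 .bot
def a1415 : Zd := .nd 5 a1414 .bot
def a1416 : Zd := .nd 15 a1413 a1415
def a1417 : Zd := .nd 4 a1416 .bot
def a1418 : Zd := .nd 14 a1407 a1417
def a1419 : Zd := .nd 16 a168 .bot
def a1420 : Zd := .nd 7 a86 .bot
def a1421 : Zd := .nd 17 a1420 .bot
def a1422 : Zd := .nd 16 a1421 .bot
def a1423 : Zd := .nd 5 a1419 a1422
def a1424 : Zd := .nd 7 a15 a991
def a1425 : Zd := .nd 17 a1424 .bot
def a1426 : Zd := .nd 6 a1425 a738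
def a1427 : Zd := .nd 17 a296 .bot
def a1428 : Zd := .nd 6 a1427 .bot
def a1429 : Zd := .nd 16 a1426 a1428
def a1430 : Zd := .nd 15 a1429 .bot
def a1431 : Zd := .nd 4 a1423 a1430
def a1432 : Zd := .nd 17 a134 .bot
def a1433 : Zd := .nd 6 a746 a1432
def a1434 : Zd := .nd 16 a1433 a342
def a1435 : Zd := .nd 15 a1434 .bot
def a1436 : Zd := .nd 16 a320 a341
def a1437 : Zd := .nd 6 a168 a665
def a1438 : Zd := .nd 16 a1437 .bot
def a1439 : Zd := .nd 5 a1436 a1438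
def a1440 : Zd := .nd 6 a431 .bot
def a1441 : Zd := .nd 5 a1440 .bot
def a1442 : Zd := .nd 15 a1439 a1441
def a1443 : Zd := .nd 4 a1435 a1442
def a1444 : Zd := .nd 14 a1431 a1443
def a1445 : Zd := .nd 3 a1418 a1444
def a1446 : Zd := .nd 13 a1402 a1445
def a1447 : Zd := .nd 2 a1356 a1446
def a1448 : Zd := .nd 5 a807 .bot
def a1449 : Zd := .nd 4 a1448 .bot
def a1450 : Zd := .nd 18 a642 .bot
def a1451 : Zd := .nd 5 a1450 a201
def a1452 : Zd := .nd 5 a492 .bot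
def a1453 : Zd := .nd 15 a1451 a1452
def a1454 : Zd := .nd 15 a993 a290
def a1455 : Zd := .nd 4 a1453 a1454
def a1456 : Zd := .nd 14 a1449 a1455
def a1457 : Zd := .nd 16 a324 .bot
def a1458 : Zd := .nd 16 a587 .bot
def a1459 : Zd := .nd 15 a1457 a1458
def a1460 : Zd := .nd 6 a746 .bot
def a1461 : Zd := .nd 5 a1460 .bot
def a1462 : Zd := .nd 15 a1251 .bot
def a1463 : Zd := .nd 4 a1461 a1462
def a1464 : Zd := .nd 14 a1459 a1463
def a1465 : Zd := .nd 3 a1456 a1464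
def a1466 : Zd := .nd 7 a1450 .bot
def a1467 : Zd := .nd 17 a1466 .bot
def a1468 : Zd := .nd 5 a1467 a375
def a1469 : Zd := .nd 4 a1468 .bot
def a1470 : Zd := .nd 6 a398 a160
def a1471 : Zd := .nd 16 a1470 .bot
def a1472 : Zd := .nd 5 a1471 .bot
def a1473 : Zd := .nd 7 a193 .bot
def a1474 : Zd := .nd 6 a1473 .bot
def a1475 : Zd := .nd 16 a1474 .bot
def a1476 : Zd := .nd 17 a1473 .bot
def a1477 : Zd := .nd 16 a1476 .bot
def a1478 : Zd := .nd 5 a1475 a1477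
def a1479 : Zd := .nd 15 a1472 a1478
def a1480 : Zd := .nd 4 a1479 .bot
def a1481 : Zd := .nd 14 a1469 a1480
def a1482 : Zd := .nd 16 a1409 .bot
def a1483 : Zd := .nd 6 a466 .bot
def a1484 : Zd := .nd 5 a1482 a1483
def a1485 : Zd := .nd 4 a1484 .bot
def a1486 : Zd := .nd 6 a437 .bot
def a1487 : Zd := .nd 6 a1238 .bot
def a1488 : Zd := .nd 15 a1486 a1487
def a1489 : Zd := .nd 6 a408 .bot
def a1490 : Zd := .nd 16 a1489 .bot
def a1491 : Zd := .nd 5 a1490 .bot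
def a1492 : Zd := .nd 4 a1488 a1491
def a1493 : Zd := .nd 14 a1485 a1492
def a1494 : Zd := .nd 3 a1481 a1493
def a1495 : Zd := .nd 13 a1465 a1494
def a1496 : Zd := .nd 6 a88 .bot
def a1497 : Zd := .nd 16 a1496 .bot
def a1498 : Zd := .nd 5 a1347 a1497
def a1499 : Zd := .nd 15 a1498 .bot
def a1500 : Zd := .nd 17 a145 .bot
def a1501 : Zd := .nd 16 a1500 .bot
def a1502 : Zd := .nd 15 a1501 .bot
def a1503 : Zd := .nd 4 a1499 a1502
def a1504 : Zd := .nd 6 a991 .bot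
def a1505 : Zd := .nd 5 a1504 a553
def a1506 : Zd := .nd 5 a894 .bot
def a1507 : Zd := .nd 15 a1505 a1506
def a1508 : Zd := .nd 8 a31 a76
def a1509 : Zd := .nd 18 a1508 .bot
def a1510 : Zd := .nd 17 a1509 .bot
def a1511 : Zd := .nd 6 a1510 a437
def a1512 : Zd := .nd 16 a1511 .bot
def a1513 : Zd := .nd 4 a1507 a1512
def a1514 : Zd := .nd 14 a1503 a1513
def a1515 : Zd := .nd 6 a167 .bot
def a1516 : Zd := .nd 16 a1178 .bot
def a1517 : Zd := .nd 5 a1515 a1516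
def a1518 : Zd := .nd 7 a746 .bot
def a1519 : Zd := .nd 6 a1518 .bot
def a1520 : Zd := .nd 16 a876 a1519
def a1521 : Zd := .nd 19 a50 a229
def a1522 : Zd := .nd 18 a1521 .bot
def a1523 : Zd := .nd 17 a1522 a720
def a1524 : Zd := .nd 6 a1523 a1018
def a1525 : Zd := .nd 16 a1524 .bot
def a1526 : Zd := .nd 5 a1520 a1525
def a1527 : Zd := .nd 15 a1517 a1526
def a1528 : Zd := .nd 8 a322 a96
def a1529 : Zd := .nd 18 a1528 .bot
def a1530 : Zd := .nd 6 a1529 a306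
def a1531 : Zd := .nd 16 a1530 .bot
def a1532 : Zd := .nd 17 a1394 a1033
def a1533 : Zd := .nd 6 a1162 .bot
def a1534 : Zd := .nd 16 a1237 a1533
def a1535 : Zd := .nd 5 a1532 a1534
def a1536 : Zd := .nd 15 a1531 a1535
def a1537 : Zd := .nd 17 a274 .bot
def a1538 : Zd := .nd 16 a1537 .bot
def a1539 : Zd := .nd 5 a1538 .bot
def a1540 : Zd := .nd 15 a1034 a1539
def a1541 : Zd := .nd 4 a1536 a1540
def a1542 : Zd := .nd 14 a1527 a1541
def a1543 : Zd := .nd 3 a1514 a1542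
def a1544 : Zd := .nd 16 a138 .bot
def a1545 : Zd := .nd 6 a424 .bot
def a1546 : Zd := .nd 16 a1545 a487
def a1547 : Zd := .nd 5 a1546 .bot
def a1548 : Zd := .nd 15 a1544 a1547
def a1549 : Zd := .nd 6 a74 a1369
def a1550 : Zd := .nd 16 a1549 .bot
def a1551 : Zd := .nd 5 a1550 a1538
def a1552 : Zd := .nd 5 a431 .bot
def a1553 : Zd := .nd 15 a1551 a1552
def a1554 : Zd := .nd 6 a1369 .bot
def a1555 : Zd := .nd 16 a1554 .bot
def a1556 : Zd := .nd 5 a1555 .bot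
def a1557 : Zd := .nd 15 a333 a1556
def a1558 : Zd := .nd 4 a1553 a1557
def a1559 : Zd := .nd 14 a1548 a1558
def a1560 : Zd := .nd 7 a258 .bot
def a1561 : Zd := .nd 6 a1560 .bot
def a1562 : Zd := .nd 16 a1561 .bot
def a1563 : Zd := .nd 6 a540 .bot
def a1564 : Zd := .nd 16 a443 a1563
def a1565 : Zd := .nd 15 a1562 a1564
def a1566 : Zd := .nd 16 a818 .bot
def a1567 : Zd := .nd 17 a1235 .bot
def a1568 : Zd := .nd 16 a1567 .bot
def a1569 : Zd := .nd 5 a1566 a1568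
def a1570 : Zd := .nd 15 a1569 .bot
def a1571 : Zd := .nd 4 a1565 a1570
def a1572 : Zd := .nd 16 a1236 .bot
def a1573 : Zd := .nd 5 a1572 .bot
def a1574 : Zd := .nd 6 a801 .bot
def a1575 : Zd := .nd 16 a1574 .bot
def a1576 : Zd := .nd 5 a1575 .bot
def a1577 : Zd := .nd 4 a1573 a1576
def a1578 : Zd := .nd 14 a1571 a1577
def a1579 : Zd := .nd 3 a1559 a1578
def a1580 : Zd := .nd 13 a1543 a1579
def a1581 : Zd := .nd 2 a1495 a1580
def a1582 : Zd := .nd 12 a1447 a1581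
def a1583 : Zd := .nd 17 a735 .bot
def a1584 : Zd := .nd 16 a1583 a633
def a1585 : Zd := .nd 15 a1584 a704
def a1586 : Zd := .nd 6 a401 .bot
def a1587 : Zd := .nd 16 a1586 .bot
def a1588 : Zd := .nd 5 a1587 .bot
def a1589 : Zd := .nd 15 a1587 a1588
def a1590 : Zd := .nd 4 a1585 a1589
def a1591 : Zd := .nd 17 a1410 .bot
def a1592 : Zd := .nd 15 a1591 .bot
def a1593 : Zd := .nd 16 a1070 .bot
def a1594 : Zd := .nd 5 a1593 .bot
def a1595 : Zd := .nd 15 a1594 .bot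
def a1596 : Zd := .nd 4 a1592 a1595
def a1597 : Zd := .nd 14 a1590 a1596
def a1598 : Zd := .nd 7 a15 .bot
def a1599 : Zd := .nd 17 a1598 .bot
def a1600 : Zd := .nd 7 a991 .bot
def a1601 : Zd := .nd 17 a1600 a746
def a1602 : Zd := .nd 6 a1599 a1601
def a1603 : Zd := .nd 18 a229 a402
def a1604 : Zd := .nd 17 a1603 .bot
def a1605 : Zd := .nd 16 a89 a1604
def a1606 : Zd := .nd 5 a11 a1605
def a1607 : Zd := .nd 15 a1602 a1606
def a1608 : Zd := .nd 16 a255 .bot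
def a1609 : Zd := .nd 17 a653 a1518
def a1610 : Zd := .nd 5 a1608 a1609
def a1611 : Zd := .nd 16 a636 a78
def a1612 : Zd := .nd 5 a1611 .bot
def a1613 : Zd := .nd 15 a1610 a1612
def a1614 : Zd := .nd 4 a1607 a1613
def a1615 : Zd := .nd 16 a119 a1515
def a1616 : Zd := .nd 15 a1615 .bot
def a1617 : Zd := .nd 17 a510 .bot
def a1618 : Zd := .nd 5 a355 a1617
def a1619 : Zd := .nd 7 a746 a1161
def a1620 : Zd := .nd 17 a1619 .bot
def a1621 : Zd := .nd 5 a1620 .bot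
def a1622 : Zd := .nd 15 a1618 a1621
def a1623 : Zd := .nd 4 a1616 a1622
def a1624 : Zd := .nd 14 a1614 a1623
def a1625 : Zd := .nd 3 a1597 a1624
def a1626 : Zd := .nd 17 a328 a295
def a1627 : Zd := .nd 16 a1626 .bot
def a1628 : Zd := .nd 5 a1627 .bot
def a1629 : Zd := .nd 6 a893 a704
def a1630 : Zd := .nd 16 a1629 .bot
def a1631 : Zd := .nd 15 a1628 a1630
def a1632 : Zd := .nd 5 a1477 .bot
def a1633 : Zd := .nd 15 a1632 .bot
def a1634 : Zd := .nd 14 a1631 a1633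
def a1635 : Zd := .nd 15 a1338 .bot
def a1636 : Zd := .nd 17 a230 a33
def a1637 : Zd := .nd 16 a1636 .bot
def a1638 : Zd := .nd 5 a1637 .bot
def a1639 : Zd := .nd 16 a922 .bot
def a1640 : Zd := .nd 5 a1639 .bot
def a1641 : Zd := .nd 15 a1638 a1640
def a1642 : Zd := .nd 4 a1635 a1641
def a1643 : Zd := .nd 17 a417 .bot
def a1644 : Zd := .nd 16 a1643 .bot
def a1645 : Zd := .nd 5 a789 a1644
def a1646 : Zd := .nd 5 a922 .bot
def a1647 : Zd := .nd 15 a1646 .bot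
def a1648 : Zd := .nd 4 a1645 a1647
def a1649 : Zd := .nd 14 a1642 a1648
def a1650 : Zd := .nd 3 a1634 a1649
def a1651 : Zd := .nd 13 a1625 a1650
def a1652 : Zd := .nd 16 a112 .bot
def a1653 : Zd := .nd 5 a146 a1652
def a1654 : Zd := .nd 18 a87 a390
def a1655 : Zd := .nd 17 a1654 .bot
def a1656 : Zd := .nd 16 a1655 .bot
def a1657 : Zd := .nd 5 a1656 .bot
def a1658 : Zd := .nd 15 a1653 a1657
def a1659 : Zd := .nd 16 a415 .bot
def a1660 : Zd := .nd 15 a1659 .bot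
def a1661 : Zd := .nd 17 a473 .bot
def a1662 : Zd := .nd 6 a1661 .bot
def a1663 : Zd := .nd 16 a583 a1662
def a1664 : Zd := .nd 6 a1014 a1112
def a1665 : Zd := .nd 5 a1664 .bot
def a1666 : Zd := .nd 15 a1663 a1665
def a1667 : Zd := .nd 4 a1660 a1666
def a1668 : Zd := .nd 14 a1658 a1667
def a1669 : Zd := .nd 6 a146 .bot
def a1670 : Zd := .nd 6 a200 a258
def a1671 : Zd := .nd 6 a86 .bot
def a1672 : Zd := .nd 16 a1670 a1671
def a1673 : Zd := .nd 5 a1669 a1672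
def a1674 : Zd := .nd 17 a87 .bot
def a1675 : Zd := .nd 6 a1674 .bot
def a1676 : Zd := .nd 16 a1675 a1476
def a1677 : Zd := .nd 17 a596 .bot
def a1678 : Zd := .nd 6 a415 .bot
def a1679 : Zd := .nd 16 a1677 a1678
def a1680 : Zd := .nd 5 a1676 a1679
def a1681 : Zd := .nd 15 a1673 a1680
def a1682 : Zd := .nd 6 a195 a540
def a1683 : Zd := .nd 16 a1473 a1682
def a1684 : Zd := .nd 17 a197 a410
def a1685 : Zd := .nd 6 a1684 .bot
def a1686 : Zd := .nd 16 a1685 .bot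
def a1687 : Zd := .nd 5 a1683 a1686
def a1688 : Zd := .nd 17 a1261 .bot
def a1689 : Zd := .nd 6 a1688 .bot
def a1690 : Zd := .nd 16 a1689 .bot
def a1691 : Zd := .nd 5 a1690 .bot
def a1692 : Zd := .nd 15 a1687 a1691
def a1693 : Zd := .nd 4 a1681 a1692
def a1694 : Zd := .nd 6 a453 .bot
def a1695 : Zd := .nd 16 a1694 a731
def a1696 : Zd := .nd 5 a1695 .bot
def a1697 : Zd := .nd 17 a304 .bot
def a1698 : Zd := .nd 7 a119 .bot
def a1699 : Zd := .nd 17 a1698 .bot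
def a1700 : Zd := .nd 16 a1699 .bot
def a1701 : Zd := .nd 5 a1697 a1700
def a1702 : Zd := .nd 15 a1696 a1701
def a1703 : Zd := .nd 6 a979 .bot
def a1704 : Zd := .nd 16 a1703 .bot
def a1705 : Zd := .nd 6 a1370 .bot
def a1706 : Zd := .nd 16 a598 .bot
def a1707 : Zd := .nd 5 a1705 a1706
def a1708 : Zd := .nd 15 a1704 a1707
def a1709 : Zd := .nd 4 a1702 a1708
def a1710 : Zd := .nd 14 a1693 a1709
def a1711 : Zd := .nd 3 a1668 a1710
def a1712 : Zd := .nd 5 a1077 a768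
def a1713 : Zd := .nd 15 a920 a1712
def a1714 : Zd := .nd 16 a473 .bot
def a1715 : Zd := .nd 6 a320 a1178
def a1716 : Zd := .nd 16 a1715 .bot
def a1717 : Zd := .nd 5 a1714 a1716
def a1718 : Zd := .nd 15 a1717 .bot
def a1719 : Zd := .nd 4 a1713 a1718
def a1720 : Zd := .nd 6 a455 .bot
def a1721 : Zd := .nd 16 a1720 .bot
def a1722 : Zd := .nd 14 a1719 a1721
def a1723 : Zd := .nd 17 a223 a746
def a1724 : Zd := .nd 6 a1723 .bot
def a1725 : Zd := .nd 16 a1724 .bot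
def a1726 : Zd := .nd 17 a459 .bot
def a1727 : Zd := .nd 16 a1726 a945
def a1728 : Zd := .nd 5 a1245 a1727
def a1729 : Zd := .nd 15 a1725 a1728
def a1730 : Zd := .nd 6 a391 .bot
def a1731 : Zd := .nd 16 a1730 .bot
def a1732 : Zd := .nd 6 a1617 .bot
def a1733 : Zd := .nd 16 a1732 .bot
def a1734 : Zd := .nd 5 a1102 a1733
def a1735 : Zd := .nd 15 a1731 a1734
def a1736 : Zd := .nd 4 a1729 a1735
def a1737 : Zd := .nd 17 a1100 .bot
def a1738 : Zd := .nd 16 a1167 a1737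
def a1739 : Zd := .nd 15 a1738 .bot
def a1740 : Zd := .nd 14 a1736 a1739
def a1741 : Zd := .nd 3 a1722 a1740
def a1742 : Zd := .nd 13 a1711 a1741
def a1743 : Zd := .nd 2 a1651 a1742
def a1744 : Zd := .nd 16 a971 .bot
def a1745 : Zd := .nd 5 a1744 .bot
def a1746 : Zd := .nd 15 a1296 a1745
def a1747 : Zd := .nd 17 a319 a1369
def a1748 : Zd := .nd 8 a26 a119
def a1749 : Zd := .nd 7 a1748 .bot
def a1750 : Zd := .nd 6 a1749 .bot
def a1751 : Zd := .nd 16 a1750 .bot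
def a1752 : Zd := .nd 5 a1751 .bot
def a1753 : Zd := .nd 15 a1747 a1752
def a1754 : Zd := .nd 17 a223 .bot
def a1755 : Zd := .nd 7 a410 a295
def a1756 : Zd := .nd 17 a1755 .bot
def a1757 : Zd := .nd 6 a1754 a1756
def a1758 : Zd := .nd 16 a1757 .bot
def a1759 : Zd := .nd 15 a1758 .bot
def a1760 : Zd := .nd 4 a1753 a1759
def a1761 : Zd := .nd 14 a1746 a1760
def a1762 : Zd := .nd 16 a314 a147
def a1763 : Zd := .nd 15 a1762 .bot
def a1764 : Zd := .nd 16 a976 .bot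
def a1765 : Zd := .nd 16 a42 a1662
def a1766 : Zd := .nd 5 a1764 a1765
def a1767 : Zd := .nd 15 a1766 .bot
def a1768 : Zd := .nd 4 a1763 a1767
def a1769 : Zd := .nd 14 a1768 .bot
def a1770 : Zd := .nd 3 a1761 a1769
def a1771 : Zd := .nd 15 a790 .bot
def a1772 : Zd := .nd 15 a1233 .bot
def a1773 : Zd := .nd 4 a1772 .bot
def a1774 : Zd := .nd 14 a1771 a1773
def a1775 : Zd := .nd 6 a329 .bot
def a1776 : Zd := .nd 16 a1775 .bot
def a1777 : Zd := .nd 5 a1776 .bot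
def a1778 : Zd := .nd 15 a1777 a1271
def a1779 : Zd := .nd 6 a1369 a466
def a1780 : Zd := .nd 16 a1779 .bot
def a1781 : Zd := .nd 5 a1780 .bot
def a1782 : Zd := .nd 4 a1778 a1781
def a1783 : Zd := .nd 14 a1782 .bot
def a1784 : Zd := .nd 3 a1774 a1783
def a1785 : Zd := .nd 13 a1770 a1784
def a1786 : Zd := .nd 16 a351 a355
def a1787 : Zd := .nd 18 a8 a401
def a1788 : Zd := .nd 7 a1787 a991
def a1789 : Zd := .nd 17 a1788 .bot
def a1790 : Zd := .nd 20 a8 a75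
def a1791 : Zd := .nd 19 a1790 .bot
def a1792 : Zd := .nd 7 a1791 .bot
def a1793 : Zd := .nd 17 a1792 .bot
def a1794 : Zd := .nd 6 a1789 a1793
def a1795 : Zd := .nd 17 a553 .bot
def a1796 : Zd := .nd 16 a1794 a1795
def a1797 : Zd := .nd 5 a1786 a1796
def a1798 : Zd := .nd 6 a704 .bot
def a1799 : Zd := .nd 16 a1798 .bot
def a1800 : Zd := .nd 15 a1797 a1799
def a1801 : Zd := .nd 5 a919 .bot
def a1802 : Zd := .nd 5 a789 .bot
def a1803 : Zd := .nd 15 a1801 a1802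
def a1804 : Zd := .nd 4 a1803 .bot
def a1805 : Zd := .nd 14 a1800 a1804
def a1806 : Zd := .nd 6 a386 a237
def a1807 : Zd := .nd 16 a1806 a1235
def a1808 : Zd := .nd 17 a1560 .bot
def a1809 : Zd := .nd 16 a1808 .bot
def a1810 : Zd := .nd 15 a1807 a1809
def a1811 : Zd := .nd 7 a231 .bot
def a1812 : Zd := .nd 16 a190 a1811
def a1813 : Zd := .nd 17 a207 .bot
def a1814 : Zd := .nd 6 a1813 .bot
def a1815 : Zd := .nd 16 a1814 .bot
def a1816 : Zd := .nd 5 a1812 a1815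
def a1817 : Zd := .nd 15 a1816 .bot
def a1818 : Zd := .nd 4 a1810 a1817
def a1819 : Zd := .nd 14 a1818 .bot
def a1820 : Zd := .nd 3 a1805 a1819
def a1821 : Zd := .nd 15 a476 .bot
def a1822 : Zd := .nd 5 a379 a1799
def a1823 : Zd := .nd 15 a1822 .bot
def a1824 : Zd := .nd 16 a1427 .bot
def a1825 : Zd := .nd 5 a1824 .bot
def a1826 : Zd := .nd 15 a1825 .bot
def a1827 : Zd := .nd 4 a1823 a1826
def a1828 : Zd := .nd 14 a1821 a1827
def a1829 : Zd := .nd 5 a477 .bot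
def a1830 : Zd := .nd 5 a1706 a1568
def a1831 : Zd := .nd 15 a1829 a1830
def a1832 : Zd := .nd 7 a528 .bot
def a1833 : Zd := .nd 6 a1832 .bot
def a1834 : Zd := .nd 16 a1236 a1833
def a1835 : Zd := .nd 15 a1834 .bot
def a1836 : Zd := .nd 4 a1831 a1835
def a1837 : Zd := .nd 16 a1165 .bot
def a1838 : Zd := .nd 6 a1811 .bot
def a1839 : Zd := .nd 17 a1832 .bot
def a1840 : Zd := .nd 16 a1838 a1839
def a1841 : Zd := .nd 5 a1840 .bot
def a1842 : Zd := .nd 15 a1837 a1841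
def a1843 : Zd := .nd 4 a1842 .bot
def a1844 : Zd := .nd 14 a1836 a1843
def a1845 : Zd := .nd 3 a1828 a1844
def a1846 : Zd := .nd 13 a1820 a1845
def a1847 : Zd := .nd 2 a1785 a1846
def a1848 : Zd := .nd 12 a1743 a1847
def a1849 : Zd := .nd 1 a1582 a1848
def a1850 : Zd := .nd 5 a672 .bot
def a1851 : Zd := .nd 16 a918 .bot
def a1852 : Zd := .nd 15 a1851 .bot
def a1853 : Zd := .nd 4 a1850 a1852
def a1854 : Zd := .nd 14 a1853 .bot
def a1855 : Zd := .nd 16 a256 .bot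
def a1856 : Zd := .nd 15 a1855 .bot
def a1857 : Zd := .nd 6 a800 .bot
def a1858 : Zd := .nd 5 a1798 a463
def a1859 : Zd := .nd 15 a1857 a1858
def a1860 : Zd := .nd 4 a1859 .bot
def a1861 : Zd := .nd 14 a1856 a1860
def a1862 : Zd := .nd 3 a1854 a1861
def a1863 : Zd := .nd 6 a205 .bot
def a1864 : Zd := .nd 16 a1863 .bot
def a1865 : Zd := .nd 18 a145 a172
def a1866 : Zd := .nd 17 a1865 .bot
def a1867 : Zd := .nd 6 a553 a1866
def a1868 : Zd := .nd 16 a1867 .bot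
def a1869 : Zd := .nd 5 a1864 a1868
def a1870 : Zd := .nd 16 a498 a375
def a1871 : Zd := .nd 6 a1239 .bot
def a1872 : Zd := .nd 5 a1870 a1871
def a1873 : Zd := .nd 15 a1869 a1872
def a1874 : Zd := .nd 16 a493 a600
def a1875 : Zd := .nd 18 a235 a96
def a1876 : Zd := .nd 7 a1875 .bot
def a1877 : Zd := .nd 17 a1876 .bot
def a1878 : Zd := .nd 6 a1877 .bot
def a1879 : Zd := .nd 16 a1878 .bot
def a1880 : Zd := .nd 15 a1874 a1879
def a1881 : Zd := .nd 6 a498 .bot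
def a1882 : Zd := .nd 16 a1881 .bot
def a1883 : Zd := .nd 15 a1882 .bot
def a1884 : Zd := .nd 4 a1880 a1883
def a1885 : Zd := .nd 14 a1873 a1884
def a1886 : Zd := .nd 9 a8 a109
def a1887 : Zd := .nd 8 a1886 .bot
def a1888 : Zd := .nd 18 a1887 .bot
def a1889 : Zd := .nd 7 a1888 .bot
def a1890 : Zd := .nd 6 a1889 .bot
def a1891 : Zd := .nd 16 a117 a1890
def a1892 : Zd := .nd 5 a1891 .bot
def a1893 : Zd := .nd 15 a1892 .bot
def a1894 : Zd := .nd 15 a1721 .bot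
def a1895 : Zd := .nd 14 a1893 a1894
def a1896 : Zd := .nd 3 a1885 a1895
def a1897 : Zd := .nd 13 a1862 a1896
def a1898 : Zd := .nd 5 a86 .bot
def a1899 : Zd := .nd 5 a389 .bot
def a1900 : Zd := .nd 15 a1898 a1899
def a1901 : Zd := .nd 5 a168 .bot
def a1902 : Zd := .nd 15 a1901 .bot
def a1903 : Zd := .nd 4 a1900 a1902
def a1904 : Zd := .nd 17 a273 .bot
def a1905 : Zd := .nd 6 a1904 .bot
def a1906 : Zd := .nd 5 a1905 .bot
def a1907 : Zd := .nd 16 a541 .bot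
def a1908 : Zd := .nd 5 a1262 a1907
def a1909 : Zd := .nd 15 a1908 .bot
def a1910 : Zd := .nd 4 a1906 a1909
def a1911 : Zd := .nd 14 a1903 a1910
def a1912 : Zd := .nd 17 a416 a1394
def a1913 : Zd := .nd 16 a1912 .bot
def a1914 : Zd := .nd 5 a391 a1913
def a1915 : Zd := .nd 5 a487 .bot
def a1916 : Zd := .nd 15 a1914 a1915
def a1917 : Zd := .nd 17 a140 .bot
def a1918 : Zd := .nd 5 a1917 a1170
def a1919 : Zd := .nd 15 a951 a1918
def a1920 : Zd := .nd 4 a1916 a1919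
def a1921 : Zd := .nd 15 a1490 .bot
def a1922 : Zd := .nd 17 a893 .bot
def a1923 : Zd := .nd 6 a1922 .bot
def a1924 : Zd := .nd 5 a1923 .bot
def a1925 : Zd := .nd 15 a1924 .bot
def a1926 : Zd := .nd 4 a1921 a1925
def a1927 : Zd := .nd 14 a1920 a1926
def a1928 : Zd := .nd 3 a1911 a1927
def a1929 : Zd := .nd 5 a994 .bot
def a1930 : Zd := .nd 4 a1929 .bot
def a1931 : Zd := .nd 6 a1394 .bot
def a1932 : Zd := .nd 16 a1931 .bot
def a1933 : Zd := .nd 6 a587 .bot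
def a1934 : Zd := .nd 17 a661 .bot
def a1935 : Zd := .nd 6 a1934 .bot
def a1936 : Zd := .nd 16 a1933 a1935
def a1937 : Zd := .nd 5 a1936 .bot
def a1938 : Zd := .nd 15 a1932 a1937
def a1939 : Zd := .nd 17 a847 .bot
def a1940 : Zd := .nd 6 a1939 .bot
def a1941 : Zd := .nd 16 a1940 .bot
def a1942 : Zd := .nd 5 a1941 .bot
def a1943 : Zd := .nd 15 a1942 .bot
def a1944 : Zd := .nd 4 a1938 a1943
def a1945 : Zd := .nd 14 a1930 a1944
def a1946 : Zd := .nd 15 a1837 .bot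
def a1947 : Zd := .nd 4 a1946 .bot
def a1948 : Zd := .nd 16 a1519 .bot
def a1949 : Zd := .nd 5 a1948 .bot
def a1950 : Zd := .nd 15 a1949 .bot
def a1951 : Zd := .nd 14 a1947 a1950
def a1952 : Zd := .nd 3 a1945 a1951
def a1953 : Zd := .nd 13 a1928 a1952
def a1954 : Zd := .nd 2 a1897 a1953
def a1955 : Zd := .nd 16 a41 a714
def a1956 : Zd := .nd 5 a1955 .bot
def a1957 : Zd := .nd 15 a161 a1956
def a1958 : Zd := .nd 5 a599 .bot
def a1959 : Zd := .nd 4 a1957 a1958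
def a1960 : Zd := .nd 7 a235 .bot
def a1961 : Zd := .nd 6 a1013 a1960
def a1962 : Zd := .nd 16 a1961 .bot
def a1963 : Zd := .nd 18 a73 a172
def a1964 : Zd := .nd 17 a1963 .bot
def a1965 : Zd := .nd 16 a1964 .bot
def a1966 : Zd := .nd 5 a1962 a1965
def a1967 : Zd := .nd 16 a979 a1244
def a1968 : Zd := .nd 17 a1237 .bot
def a1969 : Zd := .nd 6 a272 a1968
def a1970 : Zd := .nd 16 a738 a1969
def a1971 : Zd := .nd 5 a1967 a1970
def a1972 : Zd := .nd 15 a1966 a1971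
def a1973 : Zd := .nd 7 a115 a52
def a1974 : Zd := .nd 17 a1973 .bot
def a1975 : Zd := .nd 16 a1974 .bot
def a1976 : Zd := .nd 6 a620 .bot
def a1977 : Zd := .nd 16 a1976 .bot
def a1978 : Zd := .nd 5 a1935 a1977
def a1979 : Zd := .nd 15 a1975 a1978
def a1980 : Zd := .nd 4 a1972 a1979
def a1981 : Zd := .nd 14 a1959 a1980
def a1982 : Zd := .nd 16 a165 .bot
def a1983 : Zd := .nd 5 a1005 a1982
def a1984 : Zd := .nd 15 a1983 .bot
def a1985 : Zd := .nd 4 a1984 .bot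
def a1986 : Zd := .nd 17 a1251 .bot
def a1987 : Zd := .nd 16 a1814 a1986
def a1988 : Zd := .nd 5 a662 a1987
def a1989 : Zd := .nd 6 a98 a1168
def a1990 : Zd := .nd 16 a1989 a1483
def a1991 : Zd := .nd 5 a1990 .bot
def a1992 : Zd := .nd 15 a1988 a1991
def a1993 : Zd := .nd 6 a1169 .bot
def a1994 : Zd := .nd 16 a1993 .bot
def a1995 : Zd := .nd 4 a1992 a1994
def a1996 : Zd := .nd 14 a1985 a1995
def a1997 : Zd := .nd 3 a1981 a1996
def a1998 : Zd := .nd 13 a1997 .bot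
def a1999 : Zd := .nd 16 a314 .bot
def a2000 : Zd := .nd 16 a767 .bot
def a2001 : Zd := .nd 5 a1999 a2000
def a2002 : Zd := .nd 16 a89 .bot
def a2003 : Zd := .nd 5 a2002 .bot
def a2004 : Zd := .nd 15 a2001 a2003
def a2005 : Zd := .nd 4 a2004 .bot
def a2006 : Zd := .nd 7 a167 a550
def a2007 : Zd := .nd 6 a2006 .bot
def a2008 : Zd := .nd 16 a2007 .bot
def a2009 : Zd := .nd 6 a1237 .bot
def a2010 : Zd := .nd 16 a2009 .bot
def a2011 : Zd := .nd 5 a2010 .bot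
def a2012 : Zd := .nd 15 a2008 a2011
def a2013 : Zd := .nd 4 a2012 .bot
def a2014 : Zd := .nd 14 a2005 a2013
def a2015 : Zd := .nd 7 a869 .bot
def a2016 : Zd := .nd 15 a1566 a2015
def a2017 : Zd := .nd 17 a259 .bot
def a2018 : Zd := .nd 16 a2017 .bot
def a2019 : Zd := .nd 15 a2018 .bot
def a2020 : Zd := .nd 4 a2016 a2019
def a2021 : Zd := .nd 5 a1720 .bot
def a2022 : Zd := .nd 4 a2021 .bot
def a2023 : Zd := .nd 14 a2020 a2022
def a2024 : Zd := .nd 3 a2014 a2023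
def a2025 : Zd := .nd 13 a2024 .bot
def a2026 : Zd := .nd 2 a1998 a2025
def a2027 : Zd := .nd 12 a1954 a2026
def a2028 : Zd := .nd 17 a54 .bot
def a2029 : Zd := .nd 6 a1237 a435
def a2030 : Zd := .nd 16 a89 a2029
def a2031 : Zd := .nd 5 a2030 .bot
def a2032 : Zd := .nd 15 a2028 a2031
def a2033 : Zd := .nd 18 a1 a115
def a2034 : Zd := .nd 17 a2033 .bot
def a2035 : Zd := .nd 17 a292 .bot
def a2036 : Zd := .nd 16 a2034 a2035
def a2037 : Zd := .nd 15 a2036 .bot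
def a2038 : Zd := .nd 4 a2032 a2037
def a2039 : Zd := .nd 16 a658 a1754
def a2040 : Zd := .nd 5 a2039 .bot
def a2041 : Zd := .nd 15 a2040 .bot
def a2042 : Zd := .nd 16 a1661 .bot
def a2043 : Zd := .nd 15 a2042 .bot
def a2044 : Zd := .nd 4 a2041 a2043
def a2045 : Zd := .nd 14 a2038 a2044
def a2046 : Zd := .nd 7 a55 a267
def a2047 : Zd := .nd 6 a2046 .bot
def a2048 : Zd := .nd 16 a918 a2047
def a2049 : Zd := .nd 15 a2048 a1164
def a2050 : Zd := .nd 17 a13 .bot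
def a2051 : Zd := .nd 6 a2050 .bot
def a2052 : Zd := .nd 17 a416 a692
def a2053 : Zd := .nd 16 a2051 a2052
def a2054 : Zd := .nd 17 a364 a416
def a2055 : Zd := .nd 6 a2054 .bot
def a2056 : Zd := .nd 16 a2055 .bot
def a2057 : Zd := .nd 5 a2053 a2056
def a2058 : Zd := .nd 17 a2015 .bot
def a2059 : Zd := .nd 15 a2057 a2058
def a2060 : Zd := .nd 4 a2049 a2059
def a2061 : Zd := .nd 17 a1004 .bot
def a2062 : Zd := .nd 16 a2061 a1112
def a2063 : Zd := .nd 6 a1427 a768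
def a2064 : Zd := .nd 16 a2063 .bot
def a2065 : Zd := .nd 5 a2062 a2064
def a2066 : Zd := .nd 17 a662 .bot
def a2067 : Zd := .nd 6 a2066 .bot
def a2068 : Zd := .nd 5 a2067 .bot
def a2069 : Zd := .nd 15 a2065 a2068
def a2070 : Zd := .nd 14 a2060 a2069
def a2071 : Zd := .nd 3 a2045 a2070
def a2072 : Zd := .nd 5 a467 .bot
def a2073 : Zd := .nd 15 a2072 .bot
def a2074 : Zd := .nd 6 a1518 a1162
def a2075 : Zd := .nd 16 a2074 a1833
def a2076 : Zd := .nd 6 a662 a342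
def a2077 : Zd := .nd 7 a692 .bot
def a2078 : Zd := .nd 6 a2077 .bot
def a2079 : Zd := .nd 16 a2078 .bot
def a2080 : Zd := .nd 5 a2076 a2079
def a2081 : Zd := .nd 15 a2075 a2080
def a2082 : Zd := .nd 4 a2073 a2081
def a2083 : Zd := .nd 14 a2082 .bot
def a2084 : Zd := .nd 16 a568 .bot
def a2085 : Zd := .nd 7 a194 a167
def a2086 : Zd := .nd 17 a2085 .bot
def a2087 : Zd := .nd 6 a2086 .bot
def a2088 : Zd := .nd 7 a467 a528
def a2089 : Zd := .nd 17 a2088 .bot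
def a2090 : Zd := .nd 6 a2089 .bot
def a2091 : Zd := .nd 16 a2087 a2090
def a2092 : Zd := .nd 5 a2084 a2091
def a2093 : Zd := .nd 7 a166 .bot
def a2094 : Zd := .nd 17 a2093 .bot
def a2095 : Zd := .nd 6 a2094 .bot
def a2096 : Zd := .nd 16 a2095 .bot
def a2097 : Zd := .nd 15 a2092 a2096
def a2098 : Zd := .nd 6 a924 .bot
def a2099 : Zd := .nd 16 a2098 .bot
def a2100 : Zd := .nd 5 a2099 .bot
def a2101 : Zd := .nd 4 a2100 .bot
def a2102 : Zd := .nd 14 a2097 a2101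
def a2103 : Zd := .nd 3 a2083 a2102
def a2104 : Zd := .nd 13 a2071 a2103
def a2105 : Zd := .nd 16 a1960 .bot
def a2106 : Zd := .nd 15 a2105 .bot
def a2107 : Zd := .nd 15 a1644 .bot
def a2108 : Zd := .nd 4 a2106 a2107
def a2109 : Zd := .nd 6 a1699 .bot
def a2110 : Zd := .nd 16 a2109 .bot
def a2111 : Zd := .nd 15 a2110 .bot
def a2112 : Zd := .nd 14 a2108 a2111
def a2113 : Zd := .nd 16 a202 .bot
def a2114 : Zd := .nd 5 a2113 a552
def a2115 : Zd := .nd 6 a465 .bot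
def a2116 : Zd := .nd 16 a1561 a2115
def a2117 : Zd := .nd 5 a2116 a1700
def a2118 : Zd := .nd 15 a2114 a2117
def a2119 : Zd := .nd 18 a410 a402
def a2120 : Zd := .nd 7 a2119 .bot
def a2121 : Zd := .nd 6 a408 a2120
def a2122 : Zd := .nd 6 a454 .bot
def a2123 : Zd := .nd 16 a2121 a2122
def a2124 : Zd := .nd 5 a2123 .bot
def a2125 : Zd := .nd 15 a2124 .bot
def a2126 : Zd := .nd 4 a2118 a2125
def a2127 : Zd := .nd 14 a2126 .bot
def a2128 : Zd := .nd 3 a2112 a2127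
def a2129 : Zd := .nd 16 a1001 .bot
def a2130 : Zd := .nd 5 a2129 .bot
def a2131 : Zd := .nd 4 a2130 .bot
def a2132 : Zd := .nd 14 a2131 .bot
def a2133 : Zd := .nd 16 a1857 .bot
def a2134 : Zd := .nd 6 a1839 .bot
def a2135 : Zd := .nd 5 a2133 a2134
def a2136 : Zd := .nd 16 a2122 .bot
def a2137 : Zd := .nd 5 a2136 .bot
def a2138 : Zd := .nd 15 a2137 .bot
def a2139 : Zd := .nd 4 a2135 a2138
def a2140 : Zd := .nd 14 a2139 .bot
def a2141 : Zd := .nd 3 a2132 a2140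
def a2142 : Zd := .nd 13 a2128 a2141
def a2143 : Zd := .nd 2 a2104 a2142
def a2144 : Zd := .nd 6 a1917 .bot
def a2145 : Zd := .nd 5 a2144 .bot
def a2146 : Zd := .nd 17 a358 a1518
def a2147 : Zd := .nd 6 a2146 .bot
def a2148 : Zd := .nd 16 a2147 .bot
def a2149 : Zd := .nd 6 a1233 .bot
def a2150 : Zd := .nd 5 a2149 .bot
def a2151 : Zd := .nd 15 a2148 a2150
def a2152 : Zd := .nd 15 a149 .bot
def a2153 : Zd := .nd 4 a2151 a2152
def a2154 : Zd := .nd 14 a2145 a2153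
def a2155 : Zd := .nd 6 a1033 .bot
def a2156 : Zd := .nd 16 a2155 .bot
def a2157 : Zd := .nd 15 a2156 .bot
def a2158 : Zd := .nd 15 a2134 .bot
def a2159 : Zd := .nd 4 a2158 .bot
def a2160 : Zd := .nd 14 a2157 a2159
def a2161 : Zd := .nd 3 a2154 a2160
def a2162 : Zd := .nd 13 a2161 .bot
def a2163 : Zd := .nd 2 a2162 .bot
def a2164 : Zd := .nd 12 a2143 a2163
def a2165 : Zd := .nd 1 a2027 a2164
def a2166 : Zd := .nd 11 a1849 a2165
def a2167 : Zd := .nd 0 a1287 a2166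

def zA : Zd := a2167

end Pool.Agent.OD66.F21
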