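import Pool.Agent.Lib.OD.J3E

set_option autoImplicit false

namespace Pool.Agent.OD66.F21

open J3

def b0 : Zd := .nd 53 .top .bot
def b1 : Zd := .nd 52 b0 .bot
def b2 : Zd := .nd 51 b1 .bot
def b3 : Zd := .nd 47 b2 .bot
def b4 : Zd := .nd 45 b3 .bot
def b5 : Zd := .nd 44 b4 .bot
def b6 : Zd := .nd 43 b5 .bot
def b7 : Zd := .nd 42 b6 .bot
def b8 : Zd := .nd 38 b7 .bot
def b9 : Zd := .nd 36 b8 .bot
def b10 : Zd := .nd 35 b9 .bot
def b11 : Zd := .nd 33 b10 .bot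
def b12 : Zd := .nd 31 b11 .bot
def b13 : Zd := .nd 30 b12 .bot
def b14 : Zd := .nd 28 b13 .bot
def b15 : Zd := .nd 26 b14 .bot
def b16 : Zd := .nd 22 b15 .bot
def b17 : Zd := .nd 21 b16 .bot
def b18 : Zd := .nd 20 b17 .bot
def b19 : Zd := .nd 19 b18 .bot
def b20 : Zd := .nd 17 b19 .bot
def b21 : Zd := .nd 14 b20 .bot
def b22 : Zd := .nd 8 b21 .bot
def b23 : Zd := .nd 50 b1 .bot
def b24 : Zd := .nd 49 b23 .bot
def b25 : Zd := .nd 43 b24 .bot
def b26 : Zd := .nd 42 b25 .bot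
def b27 : Zd := .nd 41 b26 .bot
def b28 : Zd := .nd 39 b27 .bot
def b29 : Zd := .nd 36 b28 .bot
def b30 : Zd := .nd 32 b29 .bot
def b31 : Zd := .nd 29 b30 .bot
def b32 : Zd := .nd 28 b31 .bot
def b33 : Zd := .nd 27 b32 .bot
def b34 : Zd := .nd 26 b33 .bot
def b35 : Zd := .nd 24 b34 .bot
def b36 : Zd := .nd 22 b35 .bot
def b37 : Zd := .nd 20 b36 .bot
def b38 : Zd := .nd 19 b37 .bot
def b39 : Zd := .nd 18 b38 .bot
def b40 : Zd := .nd 14 b39 .bot
def b41 : Zd := .nd 12 b40 .bot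
def b42 : Zd := .nd 7 b22 b41
def b43 : Zd := .nd 54 .top .bot
def b44 : Zd := .nd 53 b43 .bot
def b45 : Zd := .nd 52 b44 .bot
def b46 : Zd := .nd 51 b45 .bot
def b47 : Zd := .nd 50 b46 .bot
def b48 : Zd := .nd 47 b47 .bot
def b49 : Zd := .nd 46 b48 .bot
def b50 : Zd := .nd 43 b49 .bot
def b51 : Zd := .nd 42 b50 .bot
def b52 : Zd := .nd 41 b51 .bot
def b53 : Zd := .nd 40 b52 .bot
def b54 : Zd := .nd 39 b53 .bot
def b55 : Zd := .nd 35 b54 .bot
def b56 : Zd := .nd 34 b55 .bot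
def b57 : Zd := .nd 32 b56 .bot
def b58 : Zd := .nd 30 b57 .bot
def b59 : Zd := .nd 29 b58 .bot
def b60 : Zd := .nd 28 b59 .bot
def b61 : Zd := .nd 27 b60 .bot
def b62 : Zd := .nd 26 b61 .bot
def b63 : Zd := .nd 25 b62 .bot
def b64 : Zd := .nd 24 b63 .bot
def b65 : Zd := .nd 21 b64 .bot
def b66 : Zd := .nd 20 b65 .bot
def b67 : Zd := .nd 16 b66 .bot
def b68 : Zd := .nd 13 b67 .bot
def b69 : Zd := .nd 11 b68 .bot
def b70 : Zd := .nd 8 b69 .bot
def b71 : Zd := .nd 7 b70 .bot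
def b72 : Zd := .nd 6 b42 b71
def b73 : Zd := .nd 5 b72 .bot
def b74 : Zd := .nd 51 b43 .bot
def b75 : Zd := .nd 49 b74 .bot
def b76 : Zd := .nd 48 b75 .bot
def b77 : Zd := .nd 47 b76 .bot
def b78 : Zd := .nd 43 b77 .bot
def b79 : Zd := .nd 42 b78 .bot
def b80 : Zd := .nd 39 b79 .bot
def b81 : Zd := .nd 38 b80 .bot
def b82 : Zd := .nd 36 b81 .bot
def b83 : Zd := .nd 34 b82 .bot
def b84 : Zd := .nd 32 b83 .bot
def b85 : Zd := .nd 29 b84 .bot
def b86 : Zd := .nd 26 b85 .bot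
def b87 : Zd := .nd 22 b86 .bot
def b88 : Zd := .nd 21 b87 .bot
def b89 : Zd := .nd 17 b88 .bot
def b90 : Zd := .nd 16 b89 .bot
def b91 : Zd := .nd 14 b90 .bot
def b92 : Zd := .nd 13 b91 .bot
def b93 : Zd := .nd 12 b92 .bot
def b94 : Zd := .nd 46 b77 .bot
def b95 : Zd := .nd 45 b94 .bot
def b96 : Zd := .nd 43 b95 .bot
def b97 : Zd := .nd 40 b96 .bot
def b98 : Zd := .nd 39 b97 .bot
def b99 : Zd := .nd 38 b98 .bot
def b100 : Zd := .nd 34 b99 .bot
def b101 : Zd := .nd 33 b100 .bot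
def b102 : Zd := .nd 31 b101 .bot
def b103 : Zd := .nd 30 b102 .bot
def b104 : Zd := .nd 29 b103 .bot
def b105 : Zd := .nd 26 b104 .bot
def b106 : Zd := .nd 24 b105 .bot
def b107 : Zd := .nd 23 b106 .bot
def b108 : Zd := .nd 22 b107 .bot
def b109 : Zd := .nd 21 b108 .bot
def b110 : Zd := .nd 20 b109 .bot
def b111 : Zd := .nd 17 b110 .bot
def b112 : Zd := .nd 16 b111 .bot
def b113 : Zd := .nd 15 b112 .bot
def b114 : Zd := .nd 50 b2 .bot
def b115 : Zd := .nd 47 b114 .bot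
def b116 : Zd := .nd 44 b115 .bot
def b117 : Zd := .nd 42 b116 .bot
def b118 : Zd := .nd 39 b117 .bot
def b119 : Zd := .nd 38 b118 .bot
def b120 : Zd := .nd 37 b119 .bot
def b121 : Zd := .nd 34 b120 .bot
def b122 : Zd := .nd 33 b121 .bot
def b123 : Zd := .nd 31 b122 .bot
def b124 : Zd := .nd 30 b123 .bot
def b125 : Zd := .nd 27 b124 .bot
def b126 : Zd := .nd 26 b125 .bot
def b127 : Zd := .nd 25 b126 .bot
def b128 : Zd := .nd 23 b127 .bot
def b129 : Zd := .nd 21 b128 .bot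
def b130 : Zd := .nd 17 b129 .bot
def b131 : Zd := .nd 16 b130 .bot
def b132 : Zd := .nd 15 b131 .bot
def b133 : Zd := .nd 14 b113 b132
def b134 : Zd := .nd 13 b133 .bot
def b135 : Zd := .nd 8 b134 .bot
def b136 : Zd := .nd 7 b93 b135
def b137 : Zd := .nd 52 .top .bot
def b138 : Zd := .nd 48 b137 .bot
def b139 : Zd := .nd 46 b138 .bot
def b140 : Zd := .nd 44 b139 .bot
def b141 : Zd := .nd 42 b140 .bot
def b142 : Zd := .nd 34 b141 .bot
def b143 : Zd := .nd 32 b142 .bot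
def b144 : Zd := .nd 27 b143 .bot
def b145 : Zd := .nd 24 b144 .bot
def b146 : Zd := .nd 23 b145 .bot
def b147 : Zd := .nd 22 b146 .bot
def b148 : Zd := .nd 21 b147 .bot
def b149 : Zd := .nd 20 b148 .bot
def b150 : Zd := .nd 18 b149 .bot
def b151 : Zd := .nd 15 b150 .bot
def b152 : Zd := .nd 46 b23 .bot
def b153 : Zd := .nd 45 b152 .bot
def b154 : Zd := .nd 42 b153 .bot
def b155 : Zd := .nd 39 b154 .bot
def b156 : Zd := .nd 38 b155 .bot
def b157 : Zd := .nd 34 b156 .bot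
def b158 : Zd := .nd 32 b157 .bot
def b159 : Zd := .nd 29 b158 .bot
def b160 : Zd := .nd 25 b159 .bot
def b161 : Zd := .nd 23 b160 .bot
def b162 : Zd := .nd 22 b161 .bot
def b163 : Zd := .nd 20 b162 .bot
def b164 : Zd := .nd 18 b163 .bot
def b165 : Zd := .nd 15 b164 .bot
def b166 : Zd := .nd 14 b165 .bot
def b167 : Zd := .nd 12 b166 .bot
def b168 : Zd := .nd 51 b0 .bot
def b169 : Zd := .nd 50 b168 .bot
def b170 : Zd := .nd 49 b169 .bot
def b171 : Zd := .nd 47 b170 .bot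
def b172 : Zd := .nd 45 b171 .bot
def b173 : Zd := .nd 44 b172 .bot
def b174 : Zd := .nd 43 b173 .bot
def b175 : Zd := .nd 42 b174 .bot
def b176 : Zd := .nd 36 b175 .bot
def b177 : Zd := .nd 35 b176 .bot
def b178 : Zd := .nd 34 b177 .bot
def b179 : Zd := .nd 32 b178 .bot
def b180 : Zd := .nd 31 b179 .bot
def b181 : Zd := .nd 30 b180 .bot
def b182 : Zd := .nd 26 b181 .bot
def b183 : Zd := .nd 23 b182 .bot
def b184 : Zd := .nd 21 b183 .bot
def b185 : Zd := .nd 20 b184 .bot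
def b186 : Zd := .nd 18 b185 .bot
def b187 : Zd := .nd 13 b186 .bot
def b188 : Zd := .nd 12 b187 .bot
def b189 : Zd := .nd 11 b188 .bot
def b190 : Zd := .nd 9 b167 b189
def b191 : Zd := .nd 7 b151 b190
def b192 : Zd := .nd 5 b136 b191
def b193 : Zd := .nd 4 b73 b192
def b194 : Zd := .nd 50 b45 .bot
def b195 : Zd := .nd 49 b194 .bot
def b196 : Zd := .nd 48 b195 .bot
def b197 : Zd := .nd 47 b196 .bot
def b198 : Zd := .nd 46 b197 .bot
def b199 : Zd := .nd 44 b198 .bot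
def b200 : Zd := .nd 43 b199 .bot
def b201 : Zd := .nd 39 b200 .bot
def b202 : Zd := .nd 38 b201 .bot
def b203 : Zd := .nd 37 b202 .bot
def b204 : Zd := .nd 35 b203 .bot
def b205 : Zd := .nd 30 b204 .bot
def b206 : Zd := .nd 29 b205 .bot
def b207 : Zd := .nd 28 b206 .bot
def b208 : Zd := .nd 26 b207 .bot
def b209 : Zd := .nd 23 b208 .bot
def b210 : Zd := .nd 21 b209 .bot
def b211 : Zd := .nd 50 b2 b46
def b212 : Zd := .nd 49 b211 .bot
def b213 : Zd := .nd 48 b212 .bot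
def b214 : Zd := .nd 47 b213 .bot
def b215 : Zd := .nd 45 b214 .bot
def b216 : Zd := .nd 44 b215 .bot
def b217 : Zd := .nd 43 b216 .bot
def b218 : Zd := .nd 39 b217 .bot
def b219 : Zd := .nd 38 b218 .bot
def b220 : Zd := .nd 37 b219 .bot
def b221 : Zd := .nd 35 b220 .bot
def b222 : Zd := .nd 30 b221 .bot
def b223 : Zd := .nd 29 b222 .bot
def b224 : Zd := .nd 28 b223 .bot
def b225 : Zd := .nd 26 b224 .bot
def b226 : Zd := .nd 23 b225 .bot
def b227 : Zd := .nd 21 b226 .bot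
def b228 : Zd := .nd 18 b227 .bot
def b229 : Zd := .nd 14 b210 b228
def b230 : Zd := .nd 13 b229 .bot
def b231 : Zd := .nd 48 b114 .bot
def b232 : Zd := .nd 47 b231 .bot
def b233 : Zd := .nd 46 b232 .bot
def b234 : Zd := .nd 45 b233 .bot
def b235 : Zd := .nd 44 b234 .bot
def b236 : Zd := .nd 43 b235 .bot
def b237 : Zd := .nd 39 b236 .bot
def b238 : Zd := .nd 38 b237 .bot
def b239 : Zd := .nd 37 b238 .bot
def b240 : Zd := .nd 35 b239 .bot
def b241 : Zd := .nd 30 b240 .bot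
def b242 : Zd := .nd 29 b241 .bot
def b243 : Zd := .nd 28 b242 .bot
def b244 : Zd := .nd 26 b243 .bot
def b245 : Zd := .nd 23 b244 .bot
def b246 : Zd := .nd 21 b245 .bot
def b247 : Zd := .nd 18 b246 .bot
def b248 : Zd := .nd 14 b247 .bot
def b249 : Zd := .nd 13 b248 .bot
def b250 : Zd := .nd 12 b230 b249
def b251 : Zd := .nd 49 b44 .bot
def b252 : Zd := .nd 47 b251 .bot
def b253 : Zd := .nd 44 b252 .bot
def b254 : Zd := .nd 42 b253 .bot
def b255 : Zd := .nd 41 b254 .bot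
def b256 : Zd := .nd 39 b255 .bot
def b257 : Zd := .nd 36 b256 .bot
def b258 : Zd := .nd 35 b257 .bot
def b259 : Zd := .nd 33 b258 .bot
def b260 : Zd := .nd 32 b259 .bot
def b261 : Zd := .nd 31 b260 .bot
def b262 : Zd := .nd 25 b261 .bot
def b263 : Zd := .nd 21 b262 .bot
def b264 : Zd := .nd 18 b263 .bot
def b265 : Zd := .nd 16 b264 .bot
def b266 : Zd := .nd 15 b265 .bot
def b267 : Zd := .nd 14 b266 .bot
def b268 : Zd := .nd 12 b267 .bot
def b269 : Zd := .nd 11 b268 .bot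
def b270 : Zd := .nd 9 b269 .bot
def b271 : Zd := .nd 7 b250 b270
def b272 : Zd := .nd 52 b43 .bot
def b273 : Zd := .nd 50 b272 .bot
def b274 : Zd := .nd 48 b273 .bot
def b275 : Zd := .nd 46 b274 .bot
def b276 : Zd := .nd 45 b275 .bot
def b277 : Zd := .nd 44 b276 .bot
def b278 : Zd := .nd 43 b277 .bot
def b279 : Zd := .nd 41 b278 .bot
def b280 : Zd := .nd 37 b279 .bot
def b281 : Zd := .nd 34 b280 .bot
def b282 : Zd := .nd 33 b281 .bot
def b283 : Zd := .nd 32 b282 .bot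
def b284 : Zd := .nd 30 b283 .bot
def b285 : Zd := .nd 25 b284 .bot
def b286 : Zd := .nd 23 b285 .bot
def b287 : Zd := .nd 22 b286 .bot
def b288 : Zd := .nd 21 b287 .bot
def b289 : Zd := .nd 19 b288 .bot
def b290 : Zd := .nd 15 b289 .bot
def b291 : Zd := .nd 14 b290 .bot
def b292 : Zd := .nd 12 b291 .bot
def b293 : Zd := .nd 11 b292 .bot
def b294 : Zd := .nd 48 b47 .bot
def b295 : Zd := .nd 46 b294 .bot
def b296 : Zd := .nd 43 b295 .bot
def b297 : Zd := .nd 41 b296 .bot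
def b298 : Zd := .nd 40 b297 .bot
def b299 : Zd := .nd 38 b298 .bot
def b300 : Zd := .nd 37 b299 .bot
def b301 : Zd := .nd 36 b300 .bot
def b302 : Zd := .nd 31 b301 .bot
def b303 : Zd := .nd 30 b302 .bot
def b304 : Zd := .nd 29 b303 .bot
def b305 : Zd := .nd 27 b304 .bot
def b306 : Zd := .nd 26 b305 .bot
def b307 : Zd := .nd 24 b306 .bot
def b308 : Zd := .nd 22 b307 .bot
def b309 : Zd := .nd 21 b308 .bot
def b310 : Zd := .nd 20 b309 .bot
def b311 : Zd := .nd 18 b310 .bot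
def b312 : Zd := .nd 15 b311 .bot
def b313 : Zd := .nd 41 b77 .bot
def b314 : Zd := .nd 40 b313 .bot
def b315 : Zd := .nd 38 b314 .bot
def b316 : Zd := .nd 37 b315 .bot
def b317 : Zd := .nd 36 b316 .bot
def b318 : Zd := .nd 33 b317 .bot
def b319 : Zd := .nd 32 b318 .bot
def b320 : Zd := .nd 30 b319 .bot
def b321 : Zd := .nd 29 b320 .bot
def b322 : Zd := .nd 27 b321 .bot
def b323 : Zd := .nd 25 b322 .bot
def b324 : Zd := .nd 24 b323 .bot
def b325 : Zd := .nd 23 b324 .bot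
def b326 : Zd := .nd 21 b325 .bot
def b327 : Zd := .nd 17 b326 .bot
def b328 : Zd := .nd 16 b327 .bot
def b329 : Zd := .nd 14 b328 .bot
def b330 : Zd := .nd 12 b329 .bot
def b331 : Zd := .nd 9 b312 b330
def b332 : Zd := .nd 48 b194 .bot
def b333 : Zd := .nd 47 b332 .bot
def b334 : Zd := .nd 46 b333 .bot
def b335 : Zd := .nd 43 b334 .bot
def b336 : Zd := .nd 41 b335 .bot
def b337 : Zd := .nd 39 b336 .bot
def b338 : Zd := .nd 37 b337 .bot
def b339 : Zd := .nd 36 b338 .bot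
def b340 : Zd := .nd 35 b339 .bot
def b341 : Zd := .nd 34 b340 .bot
def b342 : Zd := .nd 33 b341 .bot
def b343 : Zd := .nd 31 b342 .bot
def b344 : Zd := .nd 30 b343 .bot
def b345 : Zd := .nd 29 b344 .bot
def b346 : Zd := .nd 28 b345 .bot
def b347 : Zd := .nd 24 b346 .bot
def b348 : Zd := .nd 23 b347 .bot
def b349 : Zd := .nd 20 b348 .bot
def b350 : Zd := .nd 19 b349 .bot
def b351 : Zd := .nd 18 b350 .bot
def b352 : Zd := .nd 17 b351 .bot
def b353 : Zd := .nd 15 b352 .bot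
def b354 : Zd := .nd 12 b353 .bot
def b355 : Zd := .nd 9 b354 .bot
def b356 : Zd := .nd 8 b331 b355
def b357 : Zd := .nd 7 b356 .bot
def b358 : Zd := .nd 6 b293 b357
def b359 : Zd := .nd 5 b271 b358
def b360 : Zd := .nd 48 b45 .bot
def b361 : Zd := .nd 45 b360 .bot
def b362 : Zd := .nd 43 b361 .bot
def b363 : Zd := .nd 41 b362 .bot
def b364 : Zd := .nd 38 b363 .bot
def b365 : Zd := .nd 36 b364 .bot
def b366 : Zd := .nd 34 b365 .bot
def b367 : Zd := .nd 33 b366 .bot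
def b368 : Zd := .nd 31 b367 .bot
def b369 : Zd := .nd 30 b368 .bot
def b370 : Zd := .nd 25 b369 .bot
def b371 : Zd := .nd 24 b370 .bot
def b372 : Zd := .nd 23 b371 .bot
def b373 : Zd := .nd 22 b372 .bot
def b374 : Zd := .nd 20 b373 .bot
def b375 : Zd := .nd 19 b374 .bot
def b376 : Zd := .nd 18 b375 .bot
def b377 : Zd := .nd 13 b376 .bot
def b378 : Zd := .nd 12 b377 .bot
def b379 : Zd := .nd 9 b378 .bot
def b380 : Zd := .nd 51 b44 .bot
def b381 : Zd := .nd 50 b380 .bot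
def b382 : Zd := .nd 48 b381 .bot
def b383 : Zd := .nd 47 b382 .bot
def b384 : Zd := .nd 43 b383 .bot
def b385 : Zd := .nd 42 b384 .bot
def b386 : Zd := .nd 41 b385 .bot
def b387 : Zd := .nd 39 b386 .bot
def b388 : Zd := .nd 38 b387 .bot
def b389 : Zd := .nd 37 b388 .bot
def b390 : Zd := .nd 35 b389 .bot
def b391 : Zd := .nd 32 b390 .bot
def b392 : Zd := .nd 31 b391 .bot
def b393 : Zd := .nd 30 b392 .bot
def b394 : Zd := .nd 27 b393 .bot
def b395 : Zd := .nd 26 b394 .bot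
def b396 : Zd := .nd 25 b395 .bot
def b397 : Zd := .nd 24 b396 .bot
def b398 : Zd := .nd 21 b397 .bot
def b399 : Zd := .nd 18 b398 .bot
def b400 : Zd := .nd 17 b399 .bot
def b401 : Zd := .nd 16 b400 .bot
def b402 : Zd := .nd 15 b401 .bot
def b403 : Zd := .nd 13 b402 .bot
def b404 : Zd := .nd 9 b403 .bot
def b405 : Zd := .nd 7 b379 b404
def b406 : Zd := .nd 6 b405 .bot
def b407 : Zd := .nd 5 b406 .bot
def b408 : Zd := .nd 4 b359 b407
def b409 : Zd := .nd 3 b193 b408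
def b410 : Zd := .nd 51 .top .bot
def b411 : Zd := .nd 49 b410 .bot
def b412 : Zd := .nd 45 b411 .bot
def b413 : Zd := .nd 43 b412 .bot
def b414 : Zd := .nd 40 b413 .bot
def b415 : Zd := .nd 38 b414 .bot
def b416 : Zd := .nd 36 b415 .bot
def b417 : Zd := .nd 32 b416 .bot
def b418 : Zd := .nd 31 b417 .bot
def b419 : Zd := .nd 30 b418 .bot
def b420 : Zd := .nd 27 b419 .bot
def b421 : Zd := .nd 26 b420 .bot
def b422 : Zd := .nd 25 b421 .bot
def b423 : Zd := .nd 23 b422 .bot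
def b424 : Zd := .nd 21 b423 .bot
def b425 : Zd := .nd 19 b424 .bot
def b426 : Zd := .nd 12 b425 .bot
def b427 : Zd := .nd 11 b426 .bot
def b428 : Zd := .nd 6 b427 .bot
def b429 : Zd := .nd 50 b74 .bot
def b430 : Zd := .nd 47 b429 .bot
def b431 : Zd := .nd 45 b430 .bot
def b432 : Zd := .nd 44 b431 .bot
def b433 : Zd := .nd 43 b432 .bot
def b434 : Zd := .nd 42 b433 .bot
def b435 : Zd := .nd 41 b434 .bot
def b436 : Zd := .nd 37 b435 .bot
def b437 : Zd := .nd 36 b436 .bot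
def b438 : Zd := .nd 35 b437 .bot
def b439 : Zd := .nd 34 b438 .bot
def b440 : Zd := .nd 32 b439 .bot
def b441 : Zd := .nd 31 b440 .bot
def b442 : Zd := .nd 30 b441 .bot
def b443 : Zd := .nd 28 b442 .bot
def b444 : Zd := .nd 25 b443 .bot
def b445 : Zd := .nd 20 b444 .bot
def b446 : Zd := .nd 18 b445 .bot
def b447 : Zd := .nd 16 b446 .bot
def b448 : Zd := .nd 15 b447 .bot
def b449 : Zd := .nd 12 b448 .bot
def b450 : Zd := .nd 46 b252 .bot
def b451 : Zd := .nd 42 b450 .bot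
def b452 : Zd := .nd 39 b451 .bot
def b453 : Zd := .nd 33 b452 .bot
def b454 : Zd := .nd 31 b453 .bot
def b455 : Zd := .nd 30 b454 .bot
def b456 : Zd := .nd 28 b455 .bot
def b457 : Zd := .nd 20 b456 .bot
def b458 : Zd := .nd 15 b457 .bot
def b459 : Zd := .nd 14 b458 .bot
def b460 : Zd := .nd 13 b459 .bot
def b461 : Zd := .nd 12 b460 .bot
def b462 : Zd := .nd 11 b449 b461
def b463 : Zd := .nd 8 b462 .bot
def b464 : Zd := .nd 49 b43 .bot
def b465 : Zd := .nd 47 b464 .bot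
def b466 : Zd := .nd 46 b465 .bot
def b467 : Zd := .nd 44 b466 .bot
def b468 : Zd := .nd 42 b467 .bot
def b469 : Zd := .nd 41 b468 .bot
def b470 : Zd := .nd 39 b469 .bot
def b471 : Zd := .nd 38 b470 .bot
def b472 : Zd := .nd 37 b471 .bot
def b473 : Zd := .nd 33 b472 .bot
def b474 : Zd := .nd 32 b473 .bot
def b475 : Zd := .nd 31 b474 .bot
def b476 : Zd := .nd 30 b475 .bot
def b477 : Zd := .nd 28 b476 .bot
def b478 : Zd := .nd 25 b477 .bot
def b479 : Zd := .nd 21 b478 .bot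
def b480 : Zd := .nd 20 b479 .bot
def b481 : Zd := .nd 18 b480 .bot
def b482 : Zd := .nd 17 b481 .bot
def b483 : Zd := .nd 16 b482 .bot
def b484 : Zd := .nd 15 b483 .bot
def b485 : Zd := .nd 14 b484 .bot
def b486 : Zd := .nd 13 b485 .bot
def b487 : Zd := .nd 9 b486 .bot
def b488 : Zd := .nd 47 b272 .bot
def b489 : Zd := .nd 46 b488 .bot
def b490 : Zd := .nd 45 b489 .bot
def b491 : Zd := .nd 42 b490 .bot
def b492 : Zd := .nd 38 b491 .bot
def b493 : Zd := .nd 37 b492 .bot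
def b494 : Zd := .nd 32 b493 .bot
def b495 : Zd := .nd 31 b494 .bot
def b496 : Zd := .nd 28 b495 .bot
def b497 : Zd := .nd 25 b496 .bot
def b498 : Zd := .nd 20 b497 .bot
def b499 : Zd := .nd 17 b498 .bot
def b500 : Zd := .nd 15 b499 .bot
def b501 : Zd := .nd 13 b500 .bot
def b502 : Zd := .nd 12 b501 .bot
def b503 : Zd := .nd 9 b502 .bot
def b504 : Zd := .nd 8 b487 b503
def b505 : Zd := .nd 7 b463 b504
def b506 : Zd := .nd 5 b428 b505
def b507 : Zd := .nd 51 b137 .bot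
def b508 : Zd := .nd 50 b507 .bot
def b509 : Zd := .nd 48 b508 .bot
def b510 : Zd := .nd 47 b509 .bot
def b511 : Zd := .nd 46 b510 .bot
def b512 : Zd := .nd 45 b511 .bot
def b513 : Zd := .nd 44 b512 .bot
def b514 : Zd := .nd 43 b513 .bot
def b515 : Zd := .nd 42 b514 .bot
def b516 : Zd := .nd 41 b515 .bot
def b517 : Zd := .nd 39 b516 .bot
def b518 : Zd := .nd 36 b517 .bot
def b519 : Zd := .nd 34 b518 .bot
def b520 : Zd := .nd 32 b519 .bot
def b521 : Zd := .nd 29 b520 .bot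
def b522 : Zd := .nd 28 b521 .bot
def b523 : Zd := .nd 27 b522 .bot
def b524 : Zd := .nd 25 b523 .bot
def b525 : Zd := .nd 21 b524 .bot
def b526 : Zd := .nd 20 b525 .bot
def b527 : Zd := .nd 16 b526 .bot
def b528 : Zd := .nd 13 b527 .bot
def b529 : Zd := .nd 11 b528 .bot
def b530 : Zd := .nd 7 b529 .bot
def b531 : Zd := .nd 48 b507 .bot
def b532 : Zd := .nd 47 b531 .bot
def b533 : Zd := .nd 46 b532 .bot
def b534 : Zd := .nd 45 b533 .bot
def b535 : Zd := .nd 44 b534 .bot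
def b536 : Zd := .nd 43 b535 .bot
def b537 : Zd := .nd 39 b536 .bot
def b538 : Zd := .nd 36 b537 .bot
def b539 : Zd := .nd 34 b538 .bot
def b540 : Zd := .nd 33 b539 .bot
def b541 : Zd := .nd 32 b540 .bot
def b542 : Zd := .nd 28 b541 .bot
def b543 : Zd := .nd 27 b542 .bot
def b544 : Zd := .nd 26 b543 .bot
def b545 : Zd := .nd 24 b544 .bot
def b546 : Zd := .nd 21 b545 .bot
def b547 : Zd := .nd 20 b546 .bot
def b548 : Zd := .nd 17 b547 .bot
def b549 : Zd := .nd 12 b548 .bot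
def b550 : Zd := .nd 7 b549 .bot
def b551 : Zd := .nd 46 b430 .bot
def b552 : Zd := .nd 45 b551 .bot
def b553 : Zd := .nd 44 b552 .bot
def b554 : Zd := .nd 38 b553 .bot
def b555 : Zd := .nd 37 b554 .bot
def b556 : Zd := .nd 35 b555 .bot
def b557 : Zd := .nd 31 b556 .bot
def b558 : Zd := .nd 28 b557 .bot
def b559 : Zd := .nd 27 b558 .bot
def b560 : Zd := .nd 23 b559 .bot
def b561 : Zd := .nd 21 b560 .bot
def b562 : Zd := .nd 19 b561 .bot
def b563 : Zd := .nd 17 b562 .bot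
def b564 : Zd := .nd 16 b563 .bot
def b565 : Zd := .nd 12 b564 .bot
def b566 : Zd := .nd 11 b565 .bot
def b567 : Zd := .nd 6 b550 b566
def b568 : Zd := .nd 5 b530 b567
def b569 : Zd := .nd 47 b138 .bot
def b570 : Zd := .nd 45 b569 .bot
def b571 : Zd := .nd 44 b570 .bot
def b572 : Zd := .nd 43 b571 .bot
def b573 : Zd := .nd 42 b572 .bot
def b574 : Zd := .nd 41 b573 .bot
def b575 : Zd := .nd 39 b574 .bot
def b576 : Zd := .nd 36 b575 .bot
def b577 : Zd := .nd 34 b576 .bot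
def b578 : Zd := .nd 33 b577 .bot
def b579 : Zd := .nd 32 b578 .bot
def b580 : Zd := .nd 28 b579 .bot
def b581 : Zd := .nd 27 b580 .bot
def b582 : Zd := .nd 26 b581 .bot
def b583 : Zd := .nd 24 b582 .bot
def b584 : Zd := .nd 19 b583 .bot
def b585 : Zd := .nd 13 b584 .bot
def b586 : Zd := .nd 12 b585 .bot
def b587 : Zd := .nd 11 b586 .bot
def b588 : Zd := .nd 7 b587 .bot
def b589 : Zd := .nd 49 b272 .bot
def b590 : Zd := .nd 48 b589 .bot
def b591 : Zd := .nd 45 b590 .bot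
def b592 : Zd := .nd 43 b591 .bot
def b593 : Zd := .nd 42 b592 .bot
def b594 : Zd := .nd 41 b593 .bot
def b595 : Zd := .nd 38 b594 .bot
def b596 : Zd := .nd 34 b595 .bot
def b597 : Zd := .nd 29 b596 .bot
def b598 : Zd := .nd 28 b597 .bot
def b599 : Zd := .nd 27 b598 .bot
def b600 : Zd := .nd 25 b599 .bot
def b601 : Zd := .nd 21 b600 .bot
def b602 : Zd := .nd 20 b601 .bot
def b603 : Zd := .nd 19 b602 .bot
def b604 : Zd := .nd 18 b603 .bot
def b605 : Zd := .nd 17 b604 .bot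
def b606 : Zd := .nd 15 b605 .bot
def b607 : Zd := .nd 13 b606 .bot
def b608 : Zd := .nd 12 b607 .bot
def b609 : Zd := .nd 11 b608 .bot
def b610 : Zd := .nd 6 b588 b609
def b611 : Zd := .nd 4 b568 b610
def b612 : Zd := .nd 3 b506 b611
def b613 : Zd := .nd 2 b409 b612
def b614 : Zd := .nd 49 b508 .bot
def b615 : Zd := .nd 48 b614 .bot
def b616 : Zd := .nd 47 b615 .bot
def b617 : Zd := .nd 44 b616 .bot
def b618 : Zd := .nd 42 b617 .bot
def b619 : Zd := .nd 39 b618 .bot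
def b620 : Zd := .nd 35 b619 .bot
def b621 : Zd := .nd 33 b620 .bot
def b622 : Zd := .nd 32 b621 .bot
def b623 : Zd := .nd 31 b622 .bot
def b624 : Zd := .nd 30 b623 .bot
def b625 : Zd := .nd 26 b624 .bot
def b626 : Zd := .nd 25 b625 .bot
def b627 : Zd := .nd 22 b626 .bot
def b628 : Zd := .nd 21 b627 .bot
def b629 : Zd := .nd 20 b628 .bot
def b630 : Zd := .nd 18 b629 .bot
def b631 : Zd := .nd 15 b630 .bot
def b632 : Zd := .nd 11 b631 .bot
def b633 : Zd := .nd 8 b632 .bot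
def b634 : Zd := .nd 50 b137 .bot
def b635 : Zd := .nd 49 b634 .bot
def b636 : Zd := .nd 48 b635 .bot
def b637 : Zd := .nd 47 b636 .bot
def b638 : Zd := .nd 44 b637 .bot
def b639 : Zd := .nd 43 b638 .bot
def b640 : Zd := .nd 40 b639 .bot
def b641 : Zd := .nd 38 b640 .bot
def b642 : Zd := .nd 36 b641 .bot
def b643 : Zd := .nd 35 b642 .bot
def b644 : Zd := .nd 32 b643 .bot
def b645 : Zd := .nd 31 b644 .bot
def b646 : Zd := .nd 28 b645 .bot
def b647 : Zd := .nd 27 b646 .bot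
def b648 : Zd := .nd 26 b647 .bot
def b649 : Zd := .nd 25 b648 .bot
def b650 : Zd := .nd 24 b649 .bot
def b651 : Zd := .nd 20 b650 .bot
def b652 : Zd := .nd 19 b651 .bot
def b653 : Zd := .nd 17 b652 .bot
def b654 : Zd := .nd 13 b653 .bot
def b655 : Zd := .nd 11 b654 .bot
def b656 : Zd := .nd 50 b43 .bot
def b657 : Zd := .nd 49 b656 .bot
def b658 : Zd := .nd 47 b657 .bot
def b659 : Zd := .nd 46 b658 .bot
def b660 : Zd := .nd 45 b659 .bot
def b661 : Zd := .nd 43 b660 .bot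
def b662 : Zd := .nd 39 b661 .bot
def b663 : Zd := .nd 38 b662 .bot
def b664 : Zd := .nd 37 b663 .bot
def b665 : Zd := .nd 36 b664 .bot
def b666 : Zd := .nd 34 b665 .bot
def b667 : Zd := .nd 32 b666 .bot
def b668 : Zd := .nd 29 b667 .bot
def b669 : Zd := .nd 27 b668 .bot
def b670 : Zd := .nd 24 b669 .bot
def b671 : Zd := .nd 23 b670 .bot
def b672 : Zd := .nd 22 b671 .bot
def b673 : Zd := .nd 20 b672 .bot
def b674 : Zd := .nd 17 b673 .bot
def b675 : Zd := .nd 16 b674 .bot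
def b676 : Zd := .nd 15 b675 .bot
def b677 : Zd := .nd 12 b676 .bot
def b678 : Zd := .nd 11 b677 .bot
def b679 : Zd := .nd 51 b272 .bot
def b680 : Zd := .nd 50 b679 .bot
def b681 : Zd := .nd 49 b680 .bot
def b682 : Zd := .nd 45 b681 .bot
def b683 : Zd := .nd 43 b682 .bot
def b684 : Zd := .nd 42 b683 .bot
def b685 : Zd := .nd 39 b684 .bot
def b686 : Zd := .nd 36 b685 .bot
def b687 : Zd := .nd 35 b686 .bot
def b688 : Zd := .nd 34 b687 .bot
def b689 : Zd := .nd 33 b688 .bot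
def b690 : Zd := .nd 31 b689 .bot
def b691 : Zd := .nd 30 b690 .bot
def b692 : Zd := .nd 28 b691 .bot
def b693 : Zd := .nd 26 b692 .bot
def b694 : Zd := .nd 22 b693 .bot
def b695 : Zd := .nd 21 b694 .bot
def b696 : Zd := .nd 20 b695 .bot
def b697 : Zd := .nd 18 b696 .bot
def b698 : Zd := .nd 16 b697 .bot
def b699 : Zd := .nd 15 b698 .bot
def b700 : Zd := .nd 12 b699 .bot
def b701 : Zd := .nd 11 b700 .bot
def b702 : Zd := .nd 46 b589 .bot
def b703 : Zd := .nd 45 b702 .bot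
def b704 : Zd := .nd 43 b703 .bot
def b705 : Zd := .nd 38 b704 .bot
def b706 : Zd := .nd 36 b705 .bot
def b707 : Zd := .nd 35 b706 .bot
def b708 : Zd := .nd 34 b707 .bot
def b709 : Zd := .nd 32 b708 .bot
def b710 : Zd := .nd 29 b709 .bot
def b711 : Zd := .nd 28 b710 .bot
def b712 : Zd := .nd 24 b711 .bot
def b713 : Zd := .nd 23 b712 .bot
def b714 : Zd := .nd 18 b713 .bot
def b715 : Zd := .nd 17 b714 .bot
def b716 : Zd := .nd 15 b715 .bot
def b717 : Zd := .nd 12 b716 .bot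
def b718 : Zd := .nd 49 b429 .bot
def b719 : Zd := .nd 48 b718 .bot
def b720 : Zd := .nd 47 b719 .bot
def b721 : Zd := .nd 46 b720 .bot
def b722 : Zd := .nd 41 b721 .bot
def b723 : Zd := .nd 39 b722 .bot
def b724 : Zd := .nd 37 b723 .bot
def b725 : Zd := .nd 36 b724 .bot
def b726 : Zd := .nd 32 b725 .bot
def b727 : Zd := .nd 29 b726 .bot
def b728 : Zd := .nd 26 b727 .bot
def b729 : Zd := .nd 22 b728 .bot
def b730 : Zd := .nd 21 b729 .bot
def b731 : Zd := .nd 17 b730 .bot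
def b732 : Zd := .nd 16 b731 .bot
def b733 : Zd := .nd 15 b732 .bot
def b734 : Zd := .nd 11 b717 b733
def b735 : Zd := .nd 9 b701 b734
def b736 : Zd := .nd 8 b678 b735
def b737 : Zd := .nd 6 b655 b736
def b738 : Zd := .nd 5 b633 b737
def b739 : Zd := .nd 47 b194 .bot
def b740 : Zd := .nd 44 b739 .bot
def b741 : Zd := .nd 41 b740 .bot
def b742 : Zd := .nd 39 b741 .bot
def b743 : Zd := .nd 37 b742 .bot
def b744 : Zd := .nd 36 b743 .bot
def b745 : Zd := .nd 35 b744 .bot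
def b746 : Zd := .nd 30 b745 .bot
def b747 : Zd := .nd 28 b746 .bot
def b748 : Zd := .nd 26 b747 .bot
def b749 : Zd := .nd 25 b748 .bot
def b750 : Zd := .nd 22 b749 .bot
def b751 : Zd := .nd 20 b750 .bot
def b752 : Zd := .nd 18 b751 .bot
def b753 : Zd := .nd 17 b752 .bot
def b754 : Zd := .nd 15 b753 .bot
def b755 : Zd := .nd 14 b754 .bot
def b756 : Zd := .nd 8 b755 .bot
def b757 : Zd := .nd 4 b738 b756
def b758 : Zd := .nd 48 b657 .bot
def b759 : Zd := .nd 43 b758 .bot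
def b760 : Zd := .nd 38 b759 .bot
def b761 : Zd := .nd 36 b760 .bot
def b762 : Zd := .nd 32 b761 .bot
def b763 : Zd := .nd 29 b762 .bot
def b764 : Zd := .nd 25 b763 .bot
def b765 : Zd := .nd 24 b764 .bot
def b766 : Zd := .nd 20 b765 .bot
def b767 : Zd := .nd 17 b766 .bot
def b768 : Zd := .nd 16 b767 .bot
def b769 : Zd := .nd 15 b768 .bot
def b770 : Zd := .nd 14 b769 .bot
def b771 : Zd := .nd 11 b770 .bot
def b772 : Zd := .nd 8 b771 .bot
def b773 : Zd := .nd 7 b772 .bot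
def b774 : Zd := .nd 6 b773 .bot
def b775 : Zd := .nd 44 b334 .bot
def b776 : Zd := .nd 43 b775 .bot
def b777 : Zd := .nd 42 b776 .bot
def b778 : Zd := .nd 40 b777 .bot
def b779 : Zd := .nd 39 b778 .bot
def b780 : Zd := .nd 36 b779 .bot
def b781 : Zd := .nd 31 b780 .bot
def b782 : Zd := .nd 30 b781 .bot
def b783 : Zd := .nd 29 b782 .bot
def b784 : Zd := .nd 25 b783 .bot
def b785 : Zd := .nd 22 b784 .bot
def b786 : Zd := .nd 21 b785 .bot
def b787 : Zd := .nd 20 b786 .bot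
def b788 : Zd := .nd 18 b787 .bot
def b789 : Zd := .nd 17 b788 .bot
def b790 : Zd := .nd 16 b789 .bot
def b791 : Zd := .nd 13 b790 .bot
def b792 : Zd := .nd 11 b791 .bot
def b793 : Zd := .nd 7 b792 .bot
def b794 : Zd := .nd 48 b1 .bot
def b795 : Zd := .nd 47 b794 .bot
def b796 : Zd := .nd 44 b795 .bot
def b797 : Zd := .nd 43 b796 .bot
def b798 : Zd := .nd 39 b797 .bot
def b799 : Zd := .nd 37 b798 .bot
def b800 : Zd := .nd 30 b799 .bot
def b801 : Zd := .nd 29 b800 .bot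
def b802 : Zd := .nd 25 b801 .bot
def b803 : Zd := .nd 24 b802 .bot
def b804 : Zd := .nd 22 b803 .bot
def b805 : Zd := .nd 20 b804 .bot
def b806 : Zd := .nd 19 b805 .bot
def b807 : Zd := .nd 18 b806 .bot
def b808 : Zd := .nd 16 b807 .bot
def b809 : Zd := .nd 15 b808 .bot
def b810 : Zd := .nd 14 b809 .bot
def b811 : Zd := .nd 11 b810 .bot
def b812 : Zd := .nd 7 b811 .bot
def b813 : Zd := .nd 6 b793 b812
def b814 : Zd := .nd 46 b76 .bot
def b815 : Zd := .nd 45 b814 .bot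
def b816 : Zd := .nd 44 b815 .bot
def b817 : Zd := .nd 43 b816 .bot
def b818 : Zd := .nd 42 b817 .bot
def b819 : Zd := .nd 40 b818 .bot
def b820 : Zd := .nd 39 b819 .bot
def b821 : Zd := .nd 38 b820 .bot
def b822 : Zd := .nd 36 b821 .bot
def b823 : Zd := .nd 35 b822 .bot
def b824 : Zd := .nd 29 b823 .bot
def b825 : Zd := .nd 28 b824 .bot
def b826 : Zd := .nd 26 b825 .bot
def b827 : Zd := .nd 25 b826 .bot
def b828 : Zd := .nd 21 b827 .bot
def b829 : Zd := .nd 19 b828 .bot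
def b830 : Zd := .nd 17 b829 .bot
def b831 : Zd := .nd 16 b830 .bot
def b832 : Zd := .nd 15 b831 .bot
def b833 : Zd := .nd 13 b832 .bot
def b834 : Zd := .nd 12 b833 .bot
def b835 : Zd := .nd 48 b680 .bot
def b836 : Zd := .nd 47 b835 .bot
def b837 : Zd := .nd 44 b836 .bot
def b838 : Zd := .nd 42 b837 .bot
def b839 : Zd := .nd 41 b838 .bot
def b840 : Zd := .nd 39 b839 .bot
def b841 : Zd := .nd 37 b840 .bot
def b842 : Zd := .nd 36 b841 .bot
def b843 : Zd := .nd 35 b842 .bot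
def b844 : Zd := .nd 34 b843 .bot
def b845 : Zd := .nd 32 b844 .bot
def b846 : Zd := .nd 30 b845 .bot
def b847 : Zd := .nd 29 b846 .bot
def b848 : Zd := .nd 28 b847 .bot
def b849 : Zd := .nd 25 b848 .bot
def b850 : Zd := .nd 20 b849 .bot
def b851 : Zd := .nd 18 b850 .bot
def b852 : Zd := .nd 17 b851 .bot
def b853 : Zd := .nd 16 b852 .bot
def b854 : Zd := .nd 15 b853 .bot
def b855 : Zd := .nd 14 b854 .bot
def b856 : Zd := .nd 44 b721 .bot
def b857 : Zd := .nd 43 b856 .bot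
def b858 : Zd := .nd 39 b857 .bot
def b859 : Zd := .nd 37 b858 .bot
def b860 : Zd := .nd 36 b859 .bot
def b861 : Zd := .nd 31 b860 .bot
def b862 : Zd := .nd 27 b861 .bot
def b863 : Zd := .nd 26 b862 .bot
def b864 : Zd := .nd 24 b863 .bot
def b865 : Zd := .nd 21 b864 .bot
def b866 : Zd := .nd 20 b865 .bot
def b867 : Zd := .nd 19 b866 .bot
def b868 : Zd := .nd 17 b867 .bot
def b869 : Zd := .nd 15 b868 .bot
def b870 : Zd := .nd 14 b869 .bot
def b871 : Zd := .nd 13 b870 .bot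
def b872 : Zd := .nd 12 b855 b871
def b873 : Zd := .nd 8 b872 .bot
def b874 : Zd := .nd 6 b834 b873
def b875 : Zd := .nd 5 b813 b874
def b876 : Zd := .nd 4 b774 b875
def b877 : Zd := .nd 3 b757 b876
def b878 : Zd := .nd 42 b361 .bot
def b879 : Zd := .nd 41 b878 .bot
def b880 : Zd := .nd 40 b879 .bot
def b881 : Zd := .nd 37 b880 .bot
def b882 : Zd := .nd 36 b881 .bot
def b883 : Zd := .nd 34 b882 .bot
def b884 : Zd := .nd 33 b883 .bot
def b885 : Zd := .nd 32 b884 .bot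
def b886 : Zd := .nd 31 b885 .bot
def b887 : Zd := .nd 30 b886 .bot
def b888 : Zd := .nd 27 b887 .bot
def b889 : Zd := .nd 26 b888 .bot
def b890 : Zd := .nd 25 b889 .bot
def b891 : Zd := .nd 24 b890 .bot
def b892 : Zd := .nd 22 b891 .bot
def b893 : Zd := .nd 20 b892 .bot
def b894 : Zd := .nd 19 b893 .bot
def b895 : Zd := .nd 18 b894 .bot
def b896 : Zd := .nd 13 b895 .bot
def b897 : Zd := .nd 12 b896 .bot
def b898 : Zd := .nd 42 b759 .bot
def b899 : Zd := .nd 36 b898 .bot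
def b900 : Zd := .nd 35 b899 .bot
def b901 : Zd := .nd 33 b900 .bot
def b902 : Zd := .nd 31 b901 .bot
def b903 : Zd := .nd 30 b902 .bot
def b904 : Zd := .nd 28 b903 .bot
def b905 : Zd := .nd 26 b904 .bot
def b906 : Zd := .nd 25 b905 .bot
def b907 : Zd := .nd 24 b906 .bot
def b908 : Zd := .nd 22 b907 .bot
def b909 : Zd := .nd 21 b908 .bot
def b910 : Zd := .nd 20 b909 .bot
def b911 : Zd := .nd 18 b910 .bot
def b912 : Zd := .nd 16 b911 .bot
def b913 : Zd := .nd 49 b2 .bot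
def b914 : Zd := .nd 47 b913 .bot
def b915 : Zd := .nd 46 b914 .bot
def b916 : Zd := .nd 43 b915 .bot
def b917 : Zd := .nd 42 b916 .bot
def b918 : Zd := .nd 40 b917 .bot
def b919 : Zd := .nd 38 b918 .bot
def b920 : Zd := .nd 33 b919 .bot
def b921 : Zd := .nd 31 b920 .bot
def b922 : Zd := .nd 30 b921 .bot
def b923 : Zd := .nd 26 b922 .bot
def b924 : Zd := .nd 25 b923 .bot
def b925 : Zd := .nd 22 b924 .bot
def b926 : Zd := .nd 21 b925 .bot
def b927 : Zd := .nd 17 b926 .bot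
def b928 : Zd := .nd 15 b927 .bot
def b929 : Zd := .nd 13 b928 .bot
def b930 : Zd := .nd 11 b912 b929
def b931 : Zd := .nd 9 b897 b930
def b932 : Zd := .nd 46 b251 .bot
def b933 : Zd := .nd 41 b932 .bot
def b934 : Zd := .nd 37 b933 .bot
def b935 : Zd := .nd 36 b934 .bot
def b936 : Zd := .nd 35 b935 .bot
def b937 : Zd := .nd 28 b936 .bot
def b938 : Zd := .nd 26 b937 .bot
def b939 : Zd := .nd 25 b938 .bot
def b940 : Zd := .nd 22 b939 .bot
def b941 : Zd := .nd 19 b940 .bot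
def b942 : Zd := .nd 18 b941 .bot
def b943 : Zd := .nd 17 b942 .bot
def b944 : Zd := .nd 15 b943 .bot
def b945 : Zd := .nd 7 b931 b944
def b946 : Zd := .nd 46 b758 .bot
def b947 : Zd := .nd 41 b946 .bot
def b948 : Zd := .nd 40 b947 .bot
def b949 : Zd := .nd 38 b948 .bot
def b950 : Zd := .nd 36 b949 .bot
def b951 : Zd := .nd 33 b950 .bot
def b952 : Zd := .nd 31 b951 .bot
def b953 : Zd := .nd 30 b952 .bot
def b954 : Zd := .nd 28 b953 .bot
def b955 : Zd := .nd 27 b954 .bot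
def b956 : Zd := .nd 25 b955 .bot
def b957 : Zd := .nd 24 b956 .bot
def b958 : Zd := .nd 21 b957 .bot
def b959 : Zd := .nd 20 b958 .bot
def b960 : Zd := .nd 5 b945 b959
def b961 : Zd := .nd 50 b44 .bot
def b962 : Zd := .nd 48 b961 .bot
def b963 : Zd := .nd 47 b962 .bot
def b964 : Zd := .nd 45 b963 .bot
def b965 : Zd := .nd 43 b964 .bot
def b966 : Zd := .nd 41 b965 .bot
def b967 : Zd := .nd 34 b966 .bot
def b968 : Zd := .nd 33 b967 .bot
def b969 : Zd := .nd 32 b968 .bot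
def b970 : Zd := .nd 28 b969 .bot
def b971 : Zd := .nd 26 b970 .bot
def b972 : Zd := .nd 24 b971 .bot
def b973 : Zd := .nd 23 b972 .bot
def b974 : Zd := .nd 22 b973 .bot
def b975 : Zd := .nd 19 b974 .bot
def b976 : Zd := .nd 16 b975 .bot
def b977 : Zd := .nd 14 b976 .bot
def b978 : Zd := .nd 13 b977 .bot
def b979 : Zd := .nd 12 b978 .bot
def b980 : Zd := .nd 11 b979 .bot
def b981 : Zd := .nd 7 b980 .bot
def b982 : Zd := .nd 6 b981 .bot
def b983 : Zd := .nd 50 b410 .bot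
def b984 : Zd := .nd 49 b983 .bot
def b985 : Zd := .nd 48 b984 .bot
def b986 : Zd := .nd 47 b985 .bot
def b987 : Zd := .nd 45 b986 .bot
def b988 : Zd := .nd 44 b987 .bot
def b989 : Zd := .nd 41 b988 .bot
def b990 : Zd := .nd 40 b989 .bot
def b991 : Zd := .nd 38 b990 .bot
def b992 : Zd := .nd 37 b991 .bot
def b993 : Zd := .nd 35 b992 .bot
def b994 : Zd := .nd 34 b993 .bot
def b995 : Zd := .nd 32 b994 .bot
def b996 : Zd := .nd 28 b995 .bot
def b997 : Zd := .nd 23 b996 .bot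
def b998 : Zd := .nd 21 b997 .bot
def b999 : Zd := .nd 19 b998 .bot
def b1000 : Zd := .nd 17 b999 .bot
def b1001 : Zd := .nd 16 b1000 .bot
def b1002 : Zd := .nd 15 b1001 .bot
def b1003 : Zd := .nd 14 b1002 .bot
def b1004 : Zd := .nd 12 b1003 .bot
def b1005 : Zd := .nd 11 b1004 .bot
def b1006 : Zd := .nd 49 b961 .bot
def b1007 : Zd := .nd 48 b1006 .bot
def b1008 : Zd := .nd 46 b1007 .bot
def b1009 : Zd := .nd 44 b1008 .bot
def b1010 : Zd := .nd 43 b1009 .bot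
def b1011 : Zd := .nd 41 b1010 .bot
def b1012 : Zd := .nd 39 b1011 .bot
def b1013 : Zd := .nd 38 b1012 .bot
def b1014 : Zd := .nd 37 b1013 .bot
def b1015 : Zd := .nd 35 b1014 .bot
def b1016 : Zd := .nd 32 b1015 .bot
def b1017 : Zd := .nd 31 b1016 .bot
def b1018 : Zd := .nd 26 b1017 .bot
def b1019 : Zd := .nd 25 b1018 .bot
def b1020 : Zd := .nd 24 b1019 .bot
def b1021 : Zd := .nd 21 b1020 .bot
def b1022 : Zd := .nd 20 b1021 .bot
def b1023 : Zd := .nd 17 b1022 .bot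
def b1024 : Zd := .nd 13 b1023 .bot
def b1025 : Zd := .nd 11 b1024 .bot
def b1026 : Zd := .nd 9 b1025 .bot
def b1027 : Zd := .nd 8 b1026 .bot
def b1028 : Zd := .nd 49 b380 .bot
def b1029 : Zd := .nd 48 b1028 .bot
def b1030 : Zd := .nd 46 b1029 .bot
def b1031 : Zd := .nd 44 b1030 .bot
def b1032 : Zd := .nd 43 b1031 .bot
def b1033 : Zd := .nd 38 b1032 .bot
def b1034 : Zd := .nd 37 b1033 .bot
def b1035 : Zd := .nd 36 b1034 .bot
def b1036 : Zd := .nd 35 b1035 .bot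
def b1037 : Zd := .nd 32 b1036 .bot
def b1038 : Zd := .nd 31 b1037 .bot
def b1039 : Zd := .nd 29 b1038 .bot
def b1040 : Zd := .nd 26 b1039 .bot
def b1041 : Zd := .nd 24 b1040 .bot
def b1042 : Zd := .nd 21 b1041 .bot
def b1043 : Zd := .nd 20 b1042 .bot
def b1044 : Zd := .nd 19 b1043 .bot
def b1045 : Zd := .nd 17 b1044 .bot
def b1046 : Zd := .nd 16 b1045 .bot
def b1047 : Zd := .nd 13 b1046 .bot
def b1048 : Zd := .nd 9 b1047 .bot
def b1049 : Zd := .nd 48 b656 .bot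
def b1050 : Zd := .nd 46 b1049 .bot
def b1051 : Zd := .nd 43 b1050 .bot
def b1052 : Zd := .nd 41 b1051 .bot
def b1053 : Zd := .nd 39 b1052 .bot
def b1054 : Zd := .nd 35 b1053 .bot
def b1055 : Zd := .nd 32 b1054 .bot
def b1056 : Zd := .nd 31 b1055 .bot
def b1057 : Zd := .nd 30 b1056 .bot
def b1058 : Zd := .nd 29 b1057 .bot
def b1059 : Zd := .nd 28 b1058 .bot
def b1060 : Zd := .nd 26 b1059 .bot
def b1061 : Zd := .nd 25 b1060 .bot
def b1062 : Zd := .nd 24 b1061 .bot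
def b1063 : Zd := .nd 20 b1062 .bot
def b1064 : Zd := .nd 18 b1063 .bot
def b1065 : Zd := .nd 16 b1064 .bot
def b1066 : Zd := .nd 13 b1065 .bot
def b1067 : Zd := .nd 9 b1066 .bot
def b1068 : Zd := .nd 8 b1048 b1067
def b1069 : Zd := .nd 7 b1027 b1068
def b1070 : Zd := .nd 6 b1005 b1069
def b1071 : Zd := .nd 5 b982 b1070
def b1072 : Zd := .nd 4 b960 b1071
def b1073 : Zd := .nd 43 b739 .bot
def b1074 : Zd := .nd 41 b1073 .bot
def b1075 : Zd := .nd 40 b1074 .bot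
def b1076 : Zd := .nd 39 b1075 .bot
def b1077 : Zd := .nd 37 b1076 .bot
def b1078 : Zd := .nd 36 b1077 .bot
def b1079 : Zd := .nd 35 b1078 .bot
def b1080 : Zd := .nd 47 b273 .bot
def b1081 : Zd := .nd 43 b1080 .bot
def b1082 : Zd := .nd 42 b1081 .bot
def b1083 : Zd := .nd 41 b1082 .bot
def b1084 : Zd := .nd 38 b1083 .bot
def b1085 : Zd := .nd 37 b1084 .bot
def b1086 : Zd := .nd 36 b1085 .bot
def b1087 : Zd := .nd 34 b1079 b1086
def b1088 : Zd := .nd 42 b1073 .bot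
def b1089 : Zd := .nd 40 b1088 .bot
def b1090 : Zd := .nd 39 b1089 .bot
def b1091 : Zd := .nd 38 b1090 .bot
def b1092 : Zd := .nd 37 b1091 .bot
def b1093 : Zd := .nd 36 b1092 .bot
def b1094 : Zd := .nd 34 b1093 .bot
def b1095 : Zd := .nd 33 b1087 b1094
def b1096 : Zd := .nd 31 b1095 .bot
def b1097 : Zd := .nd 30 b1096 .bot
def b1098 : Zd := .nd 29 b1097 .bot
def b1099 : Zd := .nd 25 b1098 .bot
def b1100 : Zd := .nd 23 b1099 .bot
def b1101 : Zd := .nd 22 b1100 .bot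
def b1102 : Zd := .nd 21 b1101 .bot
def b1103 : Zd := .nd 20 b1102 .bot
def b1104 : Zd := .nd 42 b1080 .bot
def b1105 : Zd := .nd 41 b1104 .bot
def b1106 : Zd := .nd 39 b1105 .bot
def b1107 : Zd := .nd 38 b1106 .bot
def b1108 : Zd := .nd 37 b1107 .bot
def b1109 : Zd := .nd 34 b1108 .bot
def b1110 : Zd := .nd 33 b1109 .bot
def b1111 : Zd := .nd 31 b1110 .bot
def b1112 : Zd := .nd 30 b1111 .bot
def b1113 : Zd := .nd 29 b1112 .bot
def b1114 : Zd := .nd 23 b1113 .bot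
def b1115 : Zd := .nd 22 b1114 .bot
def b1116 : Zd := .nd 21 b1115 .bot
def b1117 : Zd := .nd 20 b1116 .bot
def b1118 : Zd := .nd 16 b1103 b1117
def b1119 : Zd := .nd 14 b1118 .bot
def b1120 : Zd := .nd 13 b1119 .bot
def b1121 : Zd := .nd 11 b1120 .bot
def b1122 : Zd := .nd 35 b1090 .bot
def b1123 : Zd := .nd 34 b1122 .bot
def b1124 : Zd := .nd 31 b1123 .bot
def b1125 : Zd := .nd 29 b1124 .bot
def b1126 : Zd := .nd 25 b1125 .bot
def b1127 : Zd := .nd 22 b1126 .bot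
def b1128 : Zd := .nd 21 b1127 .bot
def b1129 : Zd := .nd 19 b1128 .bot
def b1130 : Zd := .nd 17 b1129 .bot
def b1131 : Zd := .nd 13 b1130 .bot
def b1132 : Zd := .nd 38 b1076 .bot
def b1133 : Zd := .nd 36 b1132 .bot
def b1134 : Zd := .nd 39 b1083 .bot
def b1135 : Zd := .nd 38 b1134 .bot
def b1136 : Zd := .nd 36 b1135 .bot
def b1137 : Zd := .nd 35 b1133 b1136
def b1138 : Zd := .nd 34 b1137 .bot
def b1139 : Zd := .nd 42 b194 .bot
def b1140 : Zd := .nd 40 b1139 .bot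
def b1141 : Zd := .nd 39 b1140 .bot
def b1142 : Zd := .nd 36 b1141 .bot
def b1143 : Zd := .nd 35 b1142 .bot
def b1144 : Zd := .nd 34 b1143 .bot
def b1145 : Zd := .nd 33 b1138 b1144
def b1146 : Zd := .nd 31 b1145 .bot
def b1147 : Zd := .nd 30 b1146 .bot
def b1148 : Zd := .nd 29 b1147 .bot
def b1149 : Zd := .nd 25 b1148 .bot
def b1150 : Zd := .nd 22 b1149 .bot
def b1151 : Zd := .nd 21 b1150 .bot
def b1152 : Zd := .nd 107 .top .bot
def b1153 : Zd := .nd 105 b1152 .bot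
def b1154 : Zd := .nd 103 b1153 .bot
def b1155 : Zd := .nd 101 b1154 .bot
def b1156 : Zd := .nd 95 b1155 .bot
def b1157 : Zd := .nd 91 b1156 .bot
def b1158 : Zd := .nd 90 b1157 .bot
def b1159 : Zd := .nd 88 b1158 .bot
def b1160 : Zd := .nd 86 b1159 .bot
def b1161 : Zd := .nd 85 b1160 .bot
def b1162 : Zd := .nd 84 b1161 .bot
def b1163 : Zd := .nd 82 b1162 .bot
def b1164 : Zd := .nd 81 b1163 .bot
def b1165 : Zd := .nd 80 b1164 .bot
def b1166 : Zd := .nd 79 b1165 .bot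
def b1167 : Zd := .nd 77 b1166 .bot
def b1168 : Zd := .nd 72 b1167 .bot
def b1169 : Zd := .nd 70 b1168 .bot
def b1170 : Zd := .nd 68 b1169 .bot
def b1171 : Zd := .nd 66 b1170 .bot
def b1172 : Zd := .nd 63 b1171 .bot
def b1173 : Zd := .nd 62 b1172 .bot
def b1174 : Zd := .nd 61 b1173 .bot
def b1175 : Zd := .nd 60 b1174 .bot
def b1176 : Zd := .nd 59 b1175 .bot
def b1177 : Zd := .nd 58 b1176 .bot
def b1178 : Zd := .nd 55 b1177 .bot
def b1179 : Zd := .nd 54 b1178 .bot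
def b1180 : Zd := .nd 53 b1179 .bot
def b1181 : Zd := .nd 47 b1180 .bot
def b1182 : Zd := .nd 43 b1181 .bot
def b1183 : Zd := .nd 40 b1182 .bot
def b1184 : Zd := .nd 39 b1183 .bot
def b1185 : Zd := .nd 38 b1184 .bot
def b1186 : Zd := .nd 31 b1185 .bot
def b1187 : Zd := .nd 30 b1186 .bot
def b1188 : Zd := .nd 25 b1187 .bot
def b1189 : Zd := .nd 22 b1188 .bot
def b1190 : Zd := .nd 21 b1189 .bot
def b1191 : Zd := .nd 20 b1151 b1190
def b1192 : Zd := .nd 16 b1191 .bot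
def b1193 : Zd := .nd 13 b1192 .bot
def b1194 : Zd := .nd 12 b1131 b1193
def b1195 : Zd := .nd 11 b1194 .bot
def b1196 : Zd := .nd 9 b1121 b1195
def b1197 : Zd := .nd 44 b636 .bot
def b1198 : Zd := .nd 43 b1197 .bot
def b1199 : Zd := .nd 41 b1198 .bot
def b1200 : Zd := .nd 39 b1199 .bot
def b1201 : Zd := .nd 36 b1200 .bot
def b1202 : Zd := .nd 32 b1201 .bot
def b1203 : Zd := .nd 29 b1202 .bot
def b1204 : Zd := .nd 27 b1203 .bot
def b1205 : Zd := .nd 22 b1204 .bot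
def b1206 : Zd := .nd 19 b1205 .bot
def b1207 : Zd := .nd 18 b1206 .bot
def b1208 : Zd := .nd 14 b1207 .bot
def b1209 : Zd := .nd 8 b1196 b1208
def b1210 : Zd := .nd 48 b464 .bot
def b1211 : Zd := .nd 46 b1210 .bot
def b1212 : Zd := .nd 43 b1211 .bot
def b1213 : Zd := .nd 40 b1212 .bot
def b1214 : Zd := .nd 36 b1213 .bot
def b1215 : Zd := .nd 35 b1214 .bot
def b1216 : Zd := .nd 31 b1215 .bot
def b1217 : Zd := .nd 30 b1216 .bot
def b1218 : Zd := .nd 27 b1217 .bot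
def b1219 : Zd := .nd 24 b1218 .bot
def b1220 : Zd := .nd 19 b1219 .bot
def b1221 : Zd := .nd 18 b1220 .bot
def b1222 : Zd := .nd 48 b251 .bot
def b1223 : Zd := .nd 47 b1222 .bot
def b1224 : Zd := .nd 46 b1223 .bot
def b1225 : Zd := .nd 43 b1224 .bot
def b1226 : Zd := .nd 39 b1225 .bot
def b1227 : Zd := .nd 38 b1226 .bot
def b1228 : Zd := .nd 37 b1227 .bot
def b1229 : Zd := .nd 35 b1228 .bot
def b1230 : Zd := .nd 31 b1229 .bot
def b1231 : Zd := .nd 30 b1230 .bot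
def b1232 : Zd := .nd 28 b1231 .bot
def b1233 : Zd := .nd 26 b1232 .bot
def b1234 : Zd := .nd 25 b1233 .bot
def b1235 : Zd := .nd 24 b1234 .bot
def b1236 : Zd := .nd 21 b1235 .bot
def b1237 : Zd := .nd 18 b1236 .bot
def b1238 : Zd := .nd 13 b1237 .bot
def b1239 : Zd := .nd 11 b1221 b1238
def b1240 : Zd := .nd 50 b0 .bot
def b1241 : Zd := .nd 45 b1240 .bot
def b1242 : Zd := .nd 44 b1241 .bot
def b1243 : Zd := .nd 43 b1242 .bot
def b1244 : Zd := .nd 42 b1243 .bot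
def b1245 : Zd := .nd 41 b1244 .bot
def b1246 : Zd := .nd 39 b1245 .bot
def b1247 : Zd := .nd 36 b1246 .bot
def b1248 : Zd := .nd 34 b1247 .bot
def b1249 : Zd := .nd 33 b1248 .bot
def b1250 : Zd := .nd 32 b1249 .bot
def b1251 : Zd := .nd 28 b1250 .bot
def b1252 : Zd := .nd 26 b1251 .bot
def b1253 : Zd := .nd 20 b1252 .bot
def b1254 : Zd := .nd 17 b1253 .bot
def b1255 : Zd := .nd 16 b1254 .bot
def b1256 : Zd := .nd 13 b1255 .bot
def b1257 : Zd := .nd 12 b1256 .bot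
def b1258 : Zd := .nd 11 b1257 .bot
def b1259 : Zd := .nd 47 b961 .bot
def b1260 : Zd := .nd 43 b1259 .bot
def b1261 : Zd := .nd 40 b1260 .bot
def b1262 : Zd := .nd 39 b1261 .bot
def b1263 : Zd := .nd 38 b1262 .bot
def b1264 : Zd := .nd 37 b1263 .bot
def b1265 : Zd := .nd 35 b1264 .bot
def b1266 : Zd := .nd 34 b1265 .bot
def b1267 : Zd := .nd 31 b1266 .bot
def b1268 : Zd := .nd 30 b1267 .bot
def b1269 : Zd := .nd 29 b1268 .bot
def b1270 : Zd := .nd 25 b1269 .bot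
def b1271 : Zd := .nd 23 b1270 .bot
def b1272 : Zd := .nd 22 b1271 .bot
def b1273 : Zd := .nd 21 b1272 .bot
def b1274 : Zd := .nd 20 b1273 .bot
def b1275 : Zd := .nd 16 b1274 .bot
def b1276 : Zd := .nd 14 b1275 .bot
def b1277 : Zd := .nd 13 b1276 .bot
def b1278 : Zd := .nd 11 b1277 .bot
def b1279 : Zd := .nd 9 b1278 .bot
def b1280 : Zd := .nd 8 b1258 b1279
def b1281 : Zd := .nd 7 b1239 b1280
def b1282 : Zd := .nd 6 b1209 b1281
def b1283 : Zd := .nd 5 b1282 .bot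
def b1284 : Zd := .nd 46 b795 .bot
def b1285 : Zd := .nd 44 b1284 .bot
def b1286 : Zd := .nd 43 b1285 .bot
def b1287 : Zd := .nd 40 b1286 .bot
def b1288 : Zd := .nd 39 b1287 .bot
def b1289 : Zd := .nd 37 b1288 .bot
def b1290 : Zd := .nd 36 b1289 .bot
def b1291 : Zd := .nd 34 b1290 .bot
def b1292 : Zd := .nd 31 b1291 .bot
def b1293 : Zd := .nd 29 b1292 .bot
def b1294 : Zd := .nd 27 b1293 .bot
def b1295 : Zd := .nd 26 b1294 .bot
def b1296 : Zd := .nd 25 b1295 .bot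
def b1297 : Zd := .nd 22 b1296 .bot
def b1298 : Zd := .nd 20 b1297 .bot
def b1299 : Zd := .nd 19 b1298 .bot
def b1300 : Zd := .nd 17 b1299 .bot
def b1301 : Zd := .nd 16 b1300 .bot
def b1302 : Zd := .nd 14 b1301 .bot
def b1303 : Zd := .nd 13 b1302 .bot
def b1304 : Zd := .nd 11 b1303 .bot
def b1305 : Zd := .nd 49 b1 .bot
def b1306 : Zd := .nd 47 b1305 .bot
def b1307 : Zd := .nd 46 b1306 .bot
def b1308 : Zd := .nd 44 b1307 .bot
def b1309 : Zd := .nd 43 b1308 .bot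
def b1310 : Zd := .nd 42 b1309 .bot
def b1311 : Zd := .nd 40 b1310 .bot
def b1312 : Zd := .nd 36 b1311 .bot
def b1313 : Zd := .nd 33 b1312 .bot
def b1314 : Zd := .nd 31 b1313 .bot
def b1315 : Zd := .nd 30 b1314 .bot
def b1316 : Zd := .nd 27 b1315 .bot
def b1317 : Zd := .nd 24 b1316 .bot
def b1318 : Zd := .nd 22 b1317 .bot
def b1319 : Zd := .nd 21 b1318 .bot
def b1320 : Zd := .nd 20 b1319 .bot
def b1321 : Zd := .nd 18 b1320 .bot
def b1322 : Zd := .nd 17 b1321 .bot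
def b1323 : Zd := .nd 16 b1322 .bot
def b1324 : Zd := .nd 11 b1323 .bot
def b1325 : Zd := .nd 9 b1324 .bot
def b1326 : Zd := .nd 8 b1304 b1325
def b1327 : Zd := .nd 38 b1075 .bot
def b1328 : Zd := .nd 37 b1327 .bot
def b1329 : Zd := .nd 36 b1328 .bot
def b1330 : Zd := .nd 35 b1329 .bot
def b1331 : Zd := .nd 34 b1330 .bot
def b1332 : Zd := .nd 33 b1331 .bot
def b1333 : Zd := .nd 31 b1332 .bot
def b1334 : Zd := .nd 30 b1333 .bot
def b1335 : Zd := .nd 29 b1334 .bot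
def b1336 : Zd := .nd 25 b1335 .bot
def b1337 : Zd := .nd 23 b1336 .bot
def b1338 : Zd := .nd 22 b1337 .bot
def b1339 : Zd := .nd 21 b1338 .bot
def b1340 : Zd := .nd 20 b1339 .bot
def b1341 : Zd := .nd 16 b1340 .bot
def b1342 : Zd := .nd 14 b1341 .bot
def b1343 : Zd := .nd 13 b1342 .bot
def b1344 : Zd := .nd 11 b1343 .bot
def b1345 : Zd := .nd 9 b1344 .bot
def b1346 : Zd := .nd 8 b1345 .bot
def b1347 : Zd := .nd 7 b1326 b1346
def b1348 : Zd := .nd 49 b46 .bot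
def b1349 : Zd := .nd 45 b1348 .bot
def b1350 : Zd := .nd 44 b1349 .bot
def b1351 : Zd := .nd 42 b1350 .bot
def b1352 : Zd := .nd 41 b1351 .bot
def b1353 : Zd := .nd 37 b1352 .bot
def b1354 : Zd := .nd 34 b1353 .bot
def b1355 : Zd := .nd 33 b1354 .bot
def b1356 : Zd := .nd 32 b1355 .bot
def b1357 : Zd := .nd 31 b1356 .bot
def b1358 : Zd := .nd 30 b1357 .bot
def b1359 : Zd := .nd 28 b1358 .bot
def b1360 : Zd := .nd 27 b1359 .bot
def b1361 : Zd := .nd 26 b1360 .bot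
def b1362 : Zd := .nd 25 b1361 .bot
def b1363 : Zd := .nd 24 b1362 .bot
def b1364 : Zd := .nd 22 b1363 .bot
def b1365 : Zd := .nd 20 b1364 .bot
def b1366 : Zd := .nd 18 b1365 .bot
def b1367 : Zd := .nd 17 b1366 .bot
def b1368 : Zd := .nd 16 b1367 .bot
def b1369 : Zd := .nd 13 b1368 .bot
def b1370 : Zd := .nd 12 b1369 .bot
def b1371 : Zd := .nd 11 b1370 .bot
def b1372 : Zd := .nd 48 b1348 .bot
def b1373 : Zd := .nd 47 b1372 .bot
def b1374 : Zd := .nd 44 b1373 .bot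
def b1375 : Zd := .nd 43 b1374 .bot
def b1376 : Zd := .nd 39 b1375 .bot
def b1377 : Zd := .nd 38 b1376 .bot
def b1378 : Zd := .nd 37 b1377 .bot
def b1379 : Zd := .nd 35 b1378 .bot
def b1380 : Zd := .nd 32 b1379 .bot
def b1381 : Zd := .nd 31 b1380 .bot
def b1382 : Zd := .nd 30 b1381 .bot
def b1383 : Zd := .nd 29 b1382 .bot
def b1384 : Zd := .nd 26 b1383 .bot
def b1385 : Zd := .nd 25 b1384 .bot
def b1386 : Zd := .nd 20 b1385 .bot
def b1387 : Zd := .nd 15 b1386 .bot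
def b1388 : Zd := .nd 14 b1387 .bot
def b1389 : Zd := .nd 13 b1388 .bot
def b1390 : Zd := .nd 11 b1389 .bot
def b1391 : Zd := .nd 9 b1371 b1390
def b1392 : Zd := .nd 44 b835 .bot
def b1393 : Zd := .nd 41 b1392 .bot
def b1394 : Zd := .nd 38 b1393 .bot
def b1395 : Zd := .nd 37 b1394 .bot
def b1396 : Zd := .nd 32 b1395 .bot
def b1397 : Zd := .nd 31 b1396 .bot
def b1398 : Zd := .nd 29 b1397 .bot
def b1399 : Zd := .nd 27 b1398 .bot
def b1400 : Zd := .nd 25 b1399 .bot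
def b1401 : Zd := .nd 24 b1400 .bot
def b1402 : Zd := .nd 21 b1401 .bot
def b1403 : Zd := .nd 19 b1402 .bot
def b1404 : Zd := .nd 18 b1403 .bot
def b1405 : Zd := .nd 17 b1404 .bot
def b1406 : Zd := .nd 15 b1405 .bot
def b1407 : Zd := .nd 13 b1406 .bot
def b1408 : Zd := .nd 8 b1407 .bot
def b1409 : Zd := .nd 7 b1391 b1408
def b1410 : Zd := .nd 6 b1347 b1409
def b1411 : Zd := .nd 48 b170 .bot
def b1412 : Zd := .nd 47 b1411 .bot
def b1413 : Zd := .nd 44 b1412 .bot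
def b1414 : Zd := .nd 43 b1413 .bot
def b1415 : Zd := .nd 42 b1414 .bot
def b1416 : Zd := .nd 41 b1415 .bot
def b1417 : Zd := .nd 40 b1416 .bot
def b1418 : Zd := .nd 39 b1417 .bot
def b1419 : Zd := .nd 37 b1418 .bot
def b1420 : Zd := .nd 36 b1419 .bot
def b1421 : Zd := .nd 32 b1420 .bot
def b1422 : Zd := .nd 31 b1421 .bot
def b1423 : Zd := .nd 28 b1422 .bot
def b1424 : Zd := .nd 21 b1423 .bot
def b1425 : Zd := .nd 20 b1424 .bot
def b1426 : Zd := .nd 19 b1425 .bot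
def b1427 : Zd := .nd 15 b1426 .bot
def b1428 : Zd := .nd 14 b1427 .bot
def b1429 : Zd := .nd 11 b1428 .bot
def b1430 : Zd := .nd 7 b1429 .bot
def b1431 : Zd := .nd 5 b1410 b1430
def b1432 : Zd := .nd 4 b1283 b1431
def b1433 : Zd := .nd 3 b1072 b1432
def b1434 : Zd := .nd 2 b877 b1433
def b1435 : Zd := .nd 1 b613 b1434
def b1436 : Zd := .nd 45 b197 .bot
def b1437 : Zd := .nd 43 b1436 .bot
def b1438 : Zd := .nd 42 b1437 .bot
def b1439 : Zd := .nd 41 b1438 .bot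
def b1440 : Zd := .nd 38 b1439 .bot
def b1441 : Zd := .nd 35 b1440 .bot
def b1442 : Zd := .nd 34 b1441 .bot
def b1443 : Zd := .nd 31 b1442 .bot
def b1444 : Zd := .nd 29 b1443 .bot
def b1445 : Zd := .nd 27 b1444 .bot
def b1446 : Zd := .nd 26 b1445 .bot
def b1447 : Zd := .nd 23 b1446 .bot
def b1448 : Zd := .nd 22 b1447 .bot
def b1449 : Zd := .nd 20 b1448 .bot
def b1450 : Zd := .nd 19 b1449 .bot
def b1451 : Zd := .nd 18 b1450 .bot
def b1452 : Zd := .nd 14 b1451 .bot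
def b1453 : Zd := .nd 12 b1452 .bot
def b1454 : Zd := .nd 11 b1453 .bot
def b1455 : Zd := .nd 8 b1454 .bot
def b1456 : Zd := .nd 46 b508 .bot
def b1457 : Zd := .nd 43 b1456 .bot
def b1458 : Zd := .nd 41 b1457 .bot
def b1459 : Zd := .nd 37 b1458 .bot
def b1460 : Zd := .nd 34 b1459 .bot
def b1461 : Zd := .nd 32 b1460 .bot
def b1462 : Zd := .nd 30 b1461 .bot
def b1463 : Zd := .nd 29 b1462 .bot
def b1464 : Zd := .nd 28 b1463 .bot
def b1465 : Zd := .nd 26 b1464 .bot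
def b1466 : Zd := .nd 25 b1465 .bot
def b1467 : Zd := .nd 24 b1466 .bot
def b1468 : Zd := .nd 23 b1467 .bot
def b1469 : Zd := .nd 21 b1468 .bot
def b1470 : Zd := .nd 19 b1469 .bot
def b1471 : Zd := .nd 18 b1470 .bot
def b1472 : Zd := .nd 17 b1471 .bot
def b1473 : Zd := .nd 15 b1472 .bot
def b1474 : Zd := .nd 12 b1473 .bot
def b1475 : Zd := .nd 8 b1474 .bot
def b1476 : Zd := .nd 5 b1455 b1475
def b1477 : Zd := .nd 49 b47 .bot
def b1478 : Zd := .nd 48 b1477 .bot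
def b1479 : Zd := .nd 43 b1478 .bot
def b1480 : Zd := .nd 42 b1479 .bot
def b1481 : Zd := .nd 39 b1480 .bot
def b1482 : Zd := .nd 38 b1481 .bot
def b1483 : Zd := .nd 37 b1482 .bot
def b1484 : Zd := .nd 36 b1483 .bot
def b1485 : Zd := .nd 31 b1484 .bot
def b1486 : Zd := .nd 30 b1485 .bot
def b1487 : Zd := .nd 28 b1486 .bot
def b1488 : Zd := .nd 26 b1487 .bot
def b1489 : Zd := .nd 25 b1488 .bot
def b1490 : Zd := .nd 24 b1489 .bot
def b1491 : Zd := .nd 23 b1490 .bot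
def b1492 : Zd := .nd 22 b1491 .bot
def b1493 : Zd := .nd 21 b1492 .bot
def b1494 : Zd := .nd 15 b1493 .bot
def b1495 : Zd := .nd 13 b1494 .bot
def b1496 : Zd := .nd 12 b1495 .bot
def b1497 : Zd := .nd 44 b3 .bot
def b1498 : Zd := .nd 43 b1497 .bot
def b1499 : Zd := .nd 42 b1498 .bot
def b1500 : Zd := .nd 39 b1499 .bot
def b1501 : Zd := .nd 38 b1500 .bot
def b1502 : Zd := .nd 37 b1501 .bot
def b1503 : Zd := .nd 35 b1502 .bot
def b1504 : Zd := .nd 34 b1503 .bot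
def b1505 : Zd := .nd 33 b1504 .bot
def b1506 : Zd := .nd 30 b1505 .bot
def b1507 : Zd := .nd 28 b1506 .bot
def b1508 : Zd := .nd 27 b1507 .bot
def b1509 : Zd := .nd 26 b1508 .bot
def b1510 : Zd := .nd 22 b1509 .bot
def b1511 : Zd := .nd 21 b1510 .bot
def b1512 : Zd := .nd 19 b1511 .bot
def b1513 : Zd := .nd 15 b1512 .bot
def b1514 : Zd := .nd 14 b1513 .bot
def b1515 : Zd := .nd 12 b1514 .bot
def b1516 : Zd := .nd 11 b1515 .bot
def b1517 : Zd := .nd 9 b1496 b1516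
def b1518 : Zd := .nd 7 b1517 .bot
def b1519 : Zd := .nd 47 b1007 .bot
def b1520 : Zd := .nd 46 b1519 .bot
def b1521 : Zd := .nd 45 b1520 .bot
def b1522 : Zd := .nd 42 b1521 .bot
def b1523 : Zd := .nd 41 b1522 .bot
def b1524 : Zd := .nd 40 b1523 .bot
def b1525 : Zd := .nd 39 b1524 .bot
def b1526 : Zd := .nd 38 b1525 .bot
def b1527 : Zd := .nd 37 b1526 .bot
def b1528 : Zd := .nd 34 b1527 .bot
def b1529 : Zd := .nd 32 b1528 .bot
def b1530 : Zd := .nd 28 b1529 .bot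
def b1531 : Zd := .nd 27 b1530 .bot
def b1532 : Zd := .nd 24 b1531 .bot
def b1533 : Zd := .nd 22 b1532 .bot
def b1534 : Zd := .nd 21 b1533 .bot
def b1535 : Zd := .nd 20 b1534 .bot
def b1536 : Zd := .nd 19 b1535 .bot
def b1537 : Zd := .nd 16 b1536 .bot
def b1538 : Zd := .nd 15 b1537 .bot
def b1539 : Zd := .nd 14 b1538 .bot
def b1540 : Zd := .nd 12 b1539 .bot
def b1541 : Zd := .nd 9 b1540 .bot
def b1542 : Zd := .nd 46 b74 .bot
def b1543 : Zd := .nd 45 b1542 .bot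
def b1544 : Zd := .nd 44 b1543 .bot
def b1545 : Zd := .nd 41 b1544 .bot
def b1546 : Zd := .nd 40 b1545 .bot
def b1547 : Zd := .nd 37 b1546 .bot
def b1548 : Zd := .nd 31 b1547 .bot
def b1549 : Zd := .nd 27 b1548 .bot
def b1550 : Zd := .nd 25 b1549 .bot
def b1551 : Zd := .nd 24 b1550 .bot
def b1552 : Zd := .nd 23 b1551 .bot
def b1553 : Zd := .nd 21 b1552 .bot
def b1554 : Zd := .nd 18 b1553 .bot
def b1555 : Zd := .nd 11 b1554 .bot
def b1556 : Zd := .nd 8 b1541 b1555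
def b1557 : Zd := .nd 48 b44 .bot
def b1558 : Zd := .nd 47 b1557 .bot
def b1559 : Zd := .nd 45 b1558 .bot
def b1560 : Zd := .nd 42 b1559 .bot
def b1561 : Zd := .nd 39 b1560 .bot
def b1562 : Zd := .nd 36 b1561 .bot
def b1563 : Zd := .nd 35 b1562 .bot
def b1564 : Zd := .nd 34 b1563 .bot
def b1565 : Zd := .nd 31 b1564 .bot
def b1566 : Zd := .nd 28 b1565 .bot
def b1567 : Zd := .nd 24 b1566 .bot
def b1568 : Zd := .nd 23 b1567 .bot
def b1569 : Zd := .nd 22 b1568 .bot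
def b1570 : Zd := .nd 20 b1569 .bot
def b1571 : Zd := .nd 17 b1570 .bot
def b1572 : Zd := .nd 15 b1571 .bot
def b1573 : Zd := .nd 12 b1572 .bot
def b1574 : Zd := .nd 11 b1573 .bot
def b1575 : Zd := .nd 8 b1574 .bot
def b1576 : Zd := .nd 7 b1556 b1575
def b1577 : Zd := .nd 6 b1518 b1576
def b1578 : Zd := .nd 42 b1212 .bot
def b1579 : Zd := .nd 39 b1578 .bot
def b1580 : Zd := .nd 38 b1579 .bot
def b1581 : Zd := .nd 34 b1580 .bot
def b1582 : Zd := .nd 32 b1581 .bot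
def b1583 : Zd := .nd 30 b1582 .bot
def b1584 : Zd := .nd 27 b1583 .bot
def b1585 : Zd := .nd 26 b1584 .bot
def b1586 : Zd := .nd 23 b1585 .bot
def b1587 : Zd := .nd 22 b1586 .bot
def b1588 : Zd := .nd 20 b1587 .bot
def b1589 : Zd := .nd 18 b1588 .bot
def b1590 : Zd := .nd 17 b1589 .bot
def b1591 : Zd := .nd 15 b1590 .bot
def b1592 : Zd := .nd 13 b1591 .bot
def b1593 : Zd := .nd 12 b1592 .bot
def b1594 : Zd := .nd 11 b1593 .bot
def b1595 : Zd := .nd 45 b49 .bot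
def b1596 : Zd := .nd 43 b1595 .bot
def b1597 : Zd := .nd 41 b1596 .bot
def b1598 : Zd := .nd 40 b1597 .bot
def b1599 : Zd := .nd 39 b1598 .bot
def b1600 : Zd := .nd 32 b1599 .bot
def b1601 : Zd := .nd 31 b1600 .bot
def b1602 : Zd := .nd 30 b1601 .bot
def b1603 : Zd := .nd 29 b1602 .bot
def b1604 : Zd := .nd 28 b1603 .bot
def b1605 : Zd := .nd 27 b1604 .bot
def b1606 : Zd := .nd 25 b1605 .bot
def b1607 : Zd := .nd 24 b1606 .bot
def b1608 : Zd := .nd 21 b1607 .bot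
def b1609 : Zd := .nd 20 b1608 .bot
def b1610 : Zd := .nd 19 b1609 .bot
def b1611 : Zd := .nd 18 b1610 .bot
def b1612 : Zd := .nd 17 b1611 .bot
def b1613 : Zd := .nd 14 b1612 .bot
def b1614 : Zd := .nd 12 b1613 .bot
def b1615 : Zd := .nd 43 b1477 .bot
def b1616 : Zd := .nd 41 b1615 .bot
def b1617 : Zd := .nd 39 b1616 .bot
def b1618 : Zd := .nd 36 b1617 .bot
def b1619 : Zd := .nd 35 b1618 .bot
def b1620 : Zd := .nd 34 b1619 .bot
def b1621 : Zd := .nd 32 b1620 .bot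
def b1622 : Zd := .nd 30 b1621 .bot
def b1623 : Zd := .nd 29 b1622 .bot
def b1624 : Zd := .nd 28 b1623 .bot
def b1625 : Zd := .nd 24 b1624 .bot
def b1626 : Zd := .nd 21 b1625 .bot
def b1627 : Zd := .nd 20 b1626 .bot
def b1628 : Zd := .nd 19 b1627 .bot
def b1629 : Zd := .nd 18 b1628 .bot
def b1630 : Zd := .nd 17 b1629 .bot
def b1631 : Zd := .nd 16 b1630 .bot
def b1632 : Zd := .nd 15 b1631 .bot
def b1633 : Zd := .nd 13 b1632 .bot
def b1634 : Zd := .nd 9 b1614 b1633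
def b1635 : Zd := .nd 8 b1634 .bot
def b1636 : Zd := .nd 7 b1594 b1635
def b1637 : Zd := .nd 43 b657 .bot
def b1638 : Zd := .nd 42 b1637 .bot
def b1639 : Zd := .nd 41 b1638 .bot
def b1640 : Zd := .nd 39 b1639 .bot
def b1641 : Zd := .nd 34 b1640 .bot
def b1642 : Zd := .nd 32 b1641 .bot
def b1643 : Zd := .nd 28 b1642 .bot
def b1644 : Zd := .nd 23 b1643 .bot
def b1645 : Zd := .nd 22 b1644 .bot
def b1646 : Zd := .nd 20 b1645 .bot
def b1647 : Zd := .nd 18 b1646 .bot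
def b1648 : Zd := .nd 17 b1647 .bot
def b1649 : Zd := .nd 15 b1648 .bot
def b1650 : Zd := .nd 47 b718 .bot
def b1651 : Zd := .nd 45 b1650 .bot
def b1652 : Zd := .nd 43 b1651 .bot
def b1653 : Zd := .nd 41 b1652 .bot
def b1654 : Zd := .nd 38 b1653 .bot
def b1655 : Zd := .nd 37 b1654 .bot
def b1656 : Zd := .nd 35 b1655 .bot
def b1657 : Zd := .nd 34 b1656 .bot
def b1658 : Zd := .nd 31 b1657 .bot
def b1659 : Zd := .nd 30 b1658 .bot
def b1660 : Zd := .nd 25 b1659 .bot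
def b1661 : Zd := .nd 23 b1660 .bot
def b1662 : Zd := .nd 22 b1661 .bot
def b1663 : Zd := .nd 21 b1662 .bot
def b1664 : Zd := .nd 18 b1663 .bot
def b1665 : Zd := .nd 17 b1664 .bot
def b1666 : Zd := .nd 15 b1665 .bot
def b1667 : Zd := .nd 14 b1666 .bot
def b1668 : Zd := .nd 13 b1649 b1667
def b1669 : Zd := .nd 12 b1668 .bot
def b1670 : Zd := .nd 11 b1669 .bot
def b1671 : Zd := .nd 46 b679 .bot
def b1672 : Zd := .nd 45 b1671 .bot
def b1673 : Zd := .nd 43 b1672 .bot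
def b1674 : Zd := .nd 42 b1673 .bot
def b1675 : Zd := .nd 38 b1674 .bot
def b1676 : Zd := .nd 36 b1675 .bot
def b1677 : Zd := .nd 34 b1676 .bot
def b1678 : Zd := .nd 32 b1677 .bot
def b1679 : Zd := .nd 28 b1678 .bot
def b1680 : Zd := .nd 24 b1679 .bot
def b1681 : Zd := .nd 20 b1680 .bot
def b1682 : Zd := .nd 19 b1681 .bot
def b1683 : Zd := .nd 18 b1682 .bot
def b1684 : Zd := .nd 17 b1683 .bot
def b1685 : Zd := .nd 15 b1684 .bot
def b1686 : Zd := .nd 13 b1685 .bot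
def b1687 : Zd := .nd 12 b1686 .bot
def b1688 : Zd := .nd 11 b1687 .bot
def b1689 : Zd := .nd 7 b1670 b1688
def b1690 : Zd := .nd 6 b1636 b1689
def b1691 : Zd := .nd 5 b1577 b1690
def b1692 : Zd := .nd 4 b1476 b1691
def b1693 : Zd := .nd 46 b196 .bot
def b1694 : Zd := .nd 43 b1693 .bot
def b1695 : Zd := .nd 41 b1694 .bot
def b1696 : Zd := .nd 40 b1695 .bot
def b1697 : Zd := .nd 39 b1696 .bot
def b1698 : Zd := .nd 38 b1697 .bot
def b1699 : Zd := .nd 37 b1698 .bot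
def b1700 : Zd := .nd 35 b1699 .bot
def b1701 : Zd := .nd 32 b1700 .bot
def b1702 : Zd := .nd 31 b1701 .bot
def b1703 : Zd := .nd 30 b1702 .bot
def b1704 : Zd := .nd 29 b1703 .bot
def b1705 : Zd := .nd 28 b1704 .bot
def b1706 : Zd := .nd 27 b1705 .bot
def b1707 : Zd := .nd 26 b1706 .bot
def b1708 : Zd := .nd 24 b1707 .bot
def b1709 : Zd := .nd 21 b1708 .bot
def b1710 : Zd := .nd 19 b1709 .bot
def b1711 : Zd := .nd 18 b1710 .bot
def b1712 : Zd := .nd 16 b1711 .bot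
def b1713 : Zd := .nd 15 b1712 .bot
def b1714 : Zd := .nd 14 b1713 .bot
def b1715 : Zd := .nd 12 b1714 .bot
def b1716 : Zd := .nd 9 b1715 .bot
def b1717 : Zd := .nd 8 b1716 .bot
def b1718 : Zd := .nd 49 b45 .bot
def b1719 : Zd := .nd 48 b1718 .bot
def b1720 : Zd := .nd 47 b1719 .bot
def b1721 : Zd := .nd 45 b1720 .bot
def b1722 : Zd := .nd 43 b1721 .bot
def b1723 : Zd := .nd 42 b1722 .bot
def b1724 : Zd := .nd 41 b1723 .bot
def b1725 : Zd := .nd 40 b1724 .bot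
def b1726 : Zd := .nd 34 b1725 .bot
def b1727 : Zd := .nd 33 b1726 .bot
def b1728 : Zd := .nd 31 b1727 .bot
def b1729 : Zd := .nd 26 b1728 .bot
def b1730 : Zd := .nd 25 b1729 .bot
def b1731 : Zd := .nd 24 b1730 .bot
def b1732 : Zd := .nd 23 b1731 .bot
def b1733 : Zd := .nd 22 b1732 .bot
def b1734 : Zd := .nd 20 b1733 .bot
def b1735 : Zd := .nd 18 b1734 .bot
def b1736 : Zd := .nd 17 b1735 .bot
def b1737 : Zd := .nd 16 b1736 .bot
def b1738 : Zd := .nd 12 b1737 .bot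
def b1739 : Zd := .nd 46 b680 .bot
def b1740 : Zd := .nd 43 b1739 .bot
def b1741 : Zd := .nd 40 b1740 .bot
def b1742 : Zd := .nd 39 b1741 .bot
def b1743 : Zd := .nd 36 b1742 .bot
def b1744 : Zd := .nd 34 b1743 .bot
def b1745 : Zd := .nd 32 b1744 .bot
def b1746 : Zd := .nd 31 b1745 .bot
def b1747 : Zd := .nd 30 b1746 .bot
def b1748 : Zd := .nd 27 b1747 .bot
def b1749 : Zd := .nd 26 b1748 .bot
def b1750 : Zd := .nd 23 b1749 .bot
def b1751 : Zd := .nd 21 b1750 .bot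
def b1752 : Zd := .nd 18 b1751 .bot
def b1753 : Zd := .nd 17 b1752 .bot
def b1754 : Zd := .nd 15 b1753 .bot
def b1755 : Zd := .nd 12 b1754 .bot
def b1756 : Zd := .nd 8 b1755 .bot
def b1757 : Zd := .nd 7 b1738 b1756
def b1758 : Zd := .nd 6 b1717 b1757
def b1759 : Zd := .nd 47 b0 .bot
def b1760 : Zd := .nd 46 b1759 .bot
def b1761 : Zd := .nd 45 b1760 .bot
def b1762 : Zd := .nd 44 b1761 .bot
def b1763 : Zd := .nd 43 b1762 .bot
def b1764 : Zd := .nd 36 b1763 .bot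
def b1765 : Zd := .nd 34 b1764 .bot
def b1766 : Zd := .nd 33 b1765 .bot
def b1767 : Zd := .nd 32 b1766 .bot
def b1768 : Zd := .nd 27 b1767 .bot
def b1769 : Zd := .nd 26 b1768 .bot
def b1770 : Zd := .nd 24 b1769 .bot
def b1771 : Zd := .nd 20 b1770 .bot
def b1772 : Zd := .nd 18 b1771 .bot
def b1773 : Zd := .nd 13 b1772 .bot
def b1774 : Zd := .nd 12 b1773 .bot
def b1775 : Zd := .nd 11 b1774 .bot
def b1776 : Zd := .nd 8 b1775 .bot
def b1777 : Zd := .nd 45 b44 .bot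
def b1778 : Zd := .nd 43 b1777 .bot
def b1779 : Zd := .nd 41 b1778 .bot
def b1780 : Zd := .nd 38 b1779 .bot
def b1781 : Zd := .nd 36 b1780 .bot
def b1782 : Zd := .nd 35 b1781 .bot
def b1783 : Zd := .nd 34 b1782 .bot
def b1784 : Zd := .nd 33 b1783 .bot
def b1785 : Zd := .nd 31 b1784 .bot
def b1786 : Zd := .nd 28 b1785 .bot
def b1787 : Zd := .nd 26 b1786 .bot
def b1788 : Zd := .nd 25 b1787 .bot
def b1789 : Zd := .nd 20 b1788 .bot
def b1790 : Zd := .nd 18 b1789 .bot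
def b1791 : Zd := .nd 17 b1790 .bot
def b1792 : Zd := .nd 16 b1791 .bot
def b1793 : Zd := .nd 14 b1792 .bot
def b1794 : Zd := .nd 12 b1793 .bot
def b1795 : Zd := .nd 11 b1794 .bot
def b1796 : Zd := .nd 7 b1795 .bot
def b1797 : Zd := .nd 6 b1776 b1796
def b1798 : Zd := .nd 5 b1758 b1797
def b1799 : Zd := .nd 46 b590 .bot
def b1800 : Zd := .nd 45 b1799 .bot
def b1801 : Zd := .nd 42 b1800 .bot
def b1802 : Zd := .nd 41 b1801 .bot
def b1803 : Zd := .nd 40 b1802 .bot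
def b1804 : Zd := .nd 36 b1803 .bot
def b1805 : Zd := .nd 34 b1804 .bot
def b1806 : Zd := .nd 33 b1805 .bot
def b1807 : Zd := .nd 30 b1806 .bot
def b1808 : Zd := .nd 29 b1807 .bot
def b1809 : Zd := .nd 27 b1808 .bot
def b1810 : Zd := .nd 26 b1809 .bot
def b1811 : Zd := .nd 25 b1810 .bot
def b1812 : Zd := .nd 24 b1811 .bot
def b1813 : Zd := .nd 23 b1812 .bot
def b1814 : Zd := .nd 20 b1813 .bot
def b1815 : Zd := .nd 18 b1814 .bot
def b1816 : Zd := .nd 17 b1815 .bot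
def b1817 : Zd := .nd 16 b1816 .bot
def b1818 : Zd := .nd 13 b1817 .bot
def b1819 : Zd := .nd 12 b1818 .bot
def b1820 : Zd := .nd 49 b168 .bot
def b1821 : Zd := .nd 42 b1820 .bot
def b1822 : Zd := .nd 41 b1821 .bot
def b1823 : Zd := .nd 36 b1822 .bot
def b1824 : Zd := .nd 34 b1823 .bot
def b1825 : Zd := .nd 33 b1824 .bot
def b1826 : Zd := .nd 32 b1825 .bot
def b1827 : Zd := .nd 30 b1826 .bot
def b1828 : Zd := .nd 26 b1827 .bot
def b1829 : Zd := .nd 25 b1828 .bot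
def b1830 : Zd := .nd 23 b1829 .bot
def b1831 : Zd := .nd 22 b1830 .bot
def b1832 : Zd := .nd 21 b1831 .bot
def b1833 : Zd := .nd 20 b1832 .bot
def b1834 : Zd := .nd 18 b1833 .bot
def b1835 : Zd := .nd 17 b1834 .bot
def b1836 : Zd := .nd 16 b1835 .bot
def b1837 : Zd := .nd 14 b1836 .bot
def b1838 : Zd := .nd 13 b1837 .bot
def b1839 : Zd := .nd 12 b1838 .bot
def b1840 : Zd := .nd 7 b1819 b1839
def b1841 : Zd := .nd 49 b273 .bot
def b1842 : Zd := .nd 48 b1841 .bot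
def b1843 : Zd := .nd 47 b1842 .bot
def b1844 : Zd := .nd 46 b1843 .bot
def b1845 : Zd := .nd 43 b1844 .bot
def b1846 : Zd := .nd 42 b1845 .bot
def b1847 : Zd := .nd 40 b1846 .bot
def b1848 : Zd := .nd 37 b1847 .bot
def b1849 : Zd := .nd 33 b1848 .bot
def b1850 : Zd := .nd 32 b1849 .bot
def b1851 : Zd := .nd 29 b1850 .bot
def b1852 : Zd := .nd 28 b1851 .bot
def b1853 : Zd := .nd 27 b1852 .bot
def b1854 : Zd := .nd 26 b1853 .bot
def b1855 : Zd := .nd 25 b1854 .bot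
def b1856 : Zd := .nd 23 b1855 .bot
def b1857 : Zd := .nd 19 b1856 .bot
def b1858 : Zd := .nd 15 b1857 .bot
def b1859 : Zd := .nd 14 b1858 .bot
def b1860 : Zd := .nd 13 b1859 .bot
def b1861 : Zd := .nd 11 b1860 .bot
def b1862 : Zd := .nd 46 b169 .bot
def b1863 : Zd := .nd 45 b1862 .bot
def b1864 : Zd := .nd 42 b1863 .bot
def b1865 : Zd := .nd 39 b1864 .bot
def b1866 : Zd := .nd 37 b1865 .bot
def b1867 : Zd := .nd 35 b1866 .bot
def b1868 : Zd := .nd 34 b1867 .bot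
def b1869 : Zd := .nd 29 b1868 .bot
def b1870 : Zd := .nd 25 b1869 .bot
def b1871 : Zd := .nd 24 b1870 .bot
def b1872 : Zd := .nd 21 b1871 .bot
def b1873 : Zd := .nd 18 b1872 .bot
def b1874 : Zd := .nd 15 b1873 .bot
def b1875 : Zd := .nd 14 b1874 .bot
def b1876 : Zd := .nd 12 b1875 .bot
def b1877 : Zd := .nd 6 b1861 b1876
def b1878 : Zd := .nd 5 b1840 b1877
def b1879 : Zd := .nd 4 b1798 b1878
def b1880 : Zd := .nd 3 b1692 b1879
def b1881 : Zd := .nd 41 b6 .bot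
def b1882 : Zd := .nd 36 b1881 .bot
def b1883 : Zd := .nd 35 b1882 .bot
def b1884 : Zd := .nd 34 b1883 .bot
def b1885 : Zd := .nd 31 b1884 .bot
def b1886 : Zd := .nd 29 b1885 .bot
def b1887 : Zd := .nd 28 b1886 .bot
def b1888 : Zd := .nd 27 b1887 .bot
def b1889 : Zd := .nd 26 b1888 .bot
def b1890 : Zd := .nd 23 b1889 .bot
def b1891 : Zd := .nd 22 b1890 .bot
def b1892 : Zd := .nd 20 b1891 .bot
def b1893 : Zd := .nd 19 b1892 .bot
def b1894 : Zd := .nd 17 b1893 .bot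
def b1895 : Zd := .nd 16 b1894 .bot
def b1896 : Zd := .nd 12 b1895 .bot
def b1897 : Zd := .nd 11 b1896 .bot
def b1898 : Zd := .nd 8 b1897 .bot
def b1899 : Zd := .nd 43 b4 .bot
def b1900 : Zd := .nd 42 b1899 .bot
def b1901 : Zd := .nd 41 b1900 .bot
def b1902 : Zd := .nd 39 b1901 .bot
def b1903 : Zd := .nd 38 b1902 .bot
def b1904 : Zd := .nd 36 b1903 .bot
def b1905 : Zd := .nd 35 b1904 .bot
def b1906 : Zd := .nd 34 b1905 .bot
def b1907 : Zd := .nd 32 b1906 .bot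
def b1908 : Zd := .nd 31 b1907 .bot
def b1909 : Zd := .nd 28 b1908 .bot
def b1910 : Zd := .nd 23 b1909 .bot
def b1911 : Zd := .nd 22 b1910 .bot
def b1912 : Zd := .nd 19 b1911 .bot
def b1913 : Zd := .nd 17 b1912 .bot
def b1914 : Zd := .nd 16 b1913 .bot
def b1915 : Zd := .nd 12 b1914 .bot
def b1916 : Zd := .nd 11 b1915 .bot
def b1917 : Zd := .nd 45 b1007 .bot
def b1918 : Zd := .nd 44 b1917 .bot
def b1919 : Zd := .nd 42 b1918 .bot
def b1920 : Zd := .nd 40 b1919 .bot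
def b1921 : Zd := .nd 38 b1920 .bot
def b1922 : Zd := .nd 37 b1921 .bot
def b1923 : Zd := .nd 36 b1922 .bot
def b1924 : Zd := .nd 35 b1923 .bot
def b1925 : Zd := .nd 34 b1924 .bot
def b1926 : Zd := .nd 33 b1925 .bot
def b1927 : Zd := .nd 31 b1926 .bot
def b1928 : Zd := .nd 29 b1927 .bot
def b1929 : Zd := .nd 27 b1928 .bot
def b1930 : Zd := .nd 24 b1929 .bot
def b1931 : Zd := .nd 23 b1930 .bot
def b1932 : Zd := .nd 22 b1931 .bot
def b1933 : Zd := .nd 20 b1932 .bot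
def b1934 : Zd := .nd 18 b1933 .bot
def b1935 : Zd := .nd 16 b1934 .bot
def b1936 : Zd := .nd 14 b1935 .bot
def b1937 : Zd := .nd 13 b1936 .bot
def b1938 : Zd := .nd 12 b1937 .bot
def b1939 : Zd := .nd 46 b75 .bot
def b1940 : Zd := .nd 45 b1939 .bot
def b1941 : Zd := .nd 43 b1940 .bot
def b1942 : Zd := .nd 42 b1941 .bot
def b1943 : Zd := .nd 40 b1942 .bot
def b1944 : Zd := .nd 38 b1943 .bot
def b1945 : Zd := .nd 37 b1944 .bot
def b1946 : Zd := .nd 36 b1945 .bot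
def b1947 : Zd := .nd 35 b1946 .bot
def b1948 : Zd := .nd 34 b1947 .bot
def b1949 : Zd := .nd 32 b1948 .bot
def b1950 : Zd := .nd 31 b1949 .bot
def b1951 : Zd := .nd 29 b1950 .bot
def b1952 : Zd := .nd 24 b1951 .bot
def b1953 : Zd := .nd 23 b1952 .bot
def b1954 : Zd := .nd 20 b1953 .bot
def b1955 : Zd := .nd 19 b1954 .bot
def b1956 : Zd := .nd 18 b1955 .bot
def b1957 : Zd := .nd 17 b1956 .bot
def b1958 : Zd := .nd 12 b1957 .bot
def b1959 : Zd := .nd 11 b1938 b1958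
def b1960 : Zd := .nd 9 b1959 .bot
def b1961 : Zd := .nd 8 b1916 b1960
def b1962 : Zd := .nd 6 b1898 b1961
def b1963 : Zd := .nd 45 b739 .bot
def b1964 : Zd := .nd 44 b1963 .bot
def b1965 : Zd := .nd 43 b1964 .bot
def b1966 : Zd := .nd 38 b1965 .bot
def b1967 : Zd := .nd 37 b1966 .bot
def b1968 : Zd := .nd 35 b1967 .bot
def b1969 : Zd := .nd 31 b1968 .bot
def b1970 : Zd := .nd 27 b1969 .bot
def b1971 : Zd := .nd 24 b1970 .bot
def b1972 : Zd := .nd 22 b1971 .bot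
def b1973 : Zd := .nd 19 b1972 .bot
def b1974 : Zd := .nd 18 b1973 .bot
def b1975 : Zd := .nd 16 b1974 .bot
def b1976 : Zd := .nd 15 b1975 .bot
def b1977 : Zd := .nd 12 b1976 .bot
def b1978 : Zd := .nd 11 b1977 .bot
def b1979 : Zd := .nd 8 b1978 .bot
def b1980 : Zd := .nd 5 b1962 b1979
def b1981 : Zd := .nd 45 b43 .bot
def b1982 : Zd := .nd 43 b1981 .bot
def b1983 : Zd := .nd 38 b1982 .bot
def b1984 : Zd := .nd 37 b1983 .bot
def b1985 : Zd := .nd 36 b1984 .bot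
def b1986 : Zd := .nd 34 b1985 .bot
def b1987 : Zd := .nd 31 b1986 .bot
def b1988 : Zd := .nd 29 b1987 .bot
def b1989 : Zd := .nd 24 b1988 .bot
def b1990 : Zd := .nd 20 b1989 .bot
def b1991 : Zd := .nd 19 b1990 .bot
def b1992 : Zd := .nd 18 b1991 .bot
def b1993 : Zd := .nd 12 b1992 .bot
def b1994 : Zd := .nd 11 b1993 .bot
def b1995 : Zd := .nd 49 b137 .bot
def b1996 : Zd := .nd 48 b1995 .bot
def b1997 : Zd := .nd 47 b1996 .bot
def b1998 : Zd := .nd 45 b1997 .bot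
def b1999 : Zd := .nd 44 b1998 .bot
def b2000 : Zd := .nd 43 b1999 .bot
def b2001 : Zd := .nd 42 b2000 .bot
def b2002 : Zd := .nd 36 b2001 .bot
def b2003 : Zd := .nd 34 b2002 .bot
def b2004 : Zd := .nd 32 b2003 .bot
def b2005 : Zd := .nd 31 b2004 .bot
def b2006 : Zd := .nd 29 b2005 .bot
def b2007 : Zd := .nd 23 b2006 .bot
def b2008 : Zd := .nd 22 b2007 .bot
def b2009 : Zd := .nd 19 b2008 .bot
def b2010 : Zd := .nd 16 b2009 .bot
def b2011 : Zd := .nd 14 b2010 .bot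
def b2012 : Zd := .nd 13 b2011 .bot
def b2013 : Zd := .nd 12 b2012 .bot
def b2014 : Zd := .nd 9 b1994 b2013
def b2015 : Zd := .nd 6 b2014 .bot
def b2016 : Zd := .nd 43 b490 .bot
def b2017 : Zd := .nd 41 b2016 .bot
def b2018 : Zd := .nd 36 b2017 .bot
def b2019 : Zd := .nd 34 b2018 .bot
def b2020 : Zd := .nd 29 b2019 .bot
def b2021 : Zd := .nd 28 b2020 .bot
def b2022 : Zd := .nd 26 b2021 .bot
def b2023 : Zd := .nd 25 b2022 .bot
def b2024 : Zd := .nd 23 b2023 .bot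
def b2025 : Zd := .nd 19 b2024 .bot
def b2026 : Zd := .nd 15 b2025 .bot
def b2027 : Zd := .nd 13 b2026 .bot
def b2028 : Zd := .nd 12 b2027 .bot
def b2029 : Zd := .nd 7 b2028 .bot
def b2030 : Zd := .nd 104 .top .bot
def b2031 : Zd := .nd 103 b2030 .bot
def b2032 : Zd := .nd 102 b2031 .bot
def b2033 : Zd := .nd 100 b2032 .bot
def b2034 : Zd := .nd 98 b2033 .bot
def b2035 : Zd := .nd 96 b2034 .bot
def b2036 : Zd := .nd 91 b2035 .bot
def b2037 : Zd := .nd 89 b2036 .bot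
def b2038 : Zd := .nd 88 b2037 .bot
def b2039 : Zd := .nd 86 b2038 .bot
def b2040 : Zd := .nd 82 b2039 .bot
def b2041 : Zd := .nd 81 b2040 .bot
def b2042 : Zd := .nd 80 b2041 .bot
def b2043 : Zd := .nd 76 b2042 .bot
def b2044 : Zd := .nd 75 b2043 .bot
def b2045 : Zd := .nd 74 b2044 .bot
def b2046 : Zd := .nd 73 b2045 .bot
def b2047 : Zd := .nd 71 b2046 .bot
def b2048 : Zd := .nd 70 b2047 .bot
def b2049 : Zd := .nd 69 b2048 .bot
def b2050 : Zd := .nd 67 b2049 .bot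
def b2051 : Zd := .nd 66 b2050 .bot
def b2052 : Zd := .nd 65 b2051 .bot
def b2053 : Zd := .nd 64 b2052 .bot
def b2054 : Zd := .nd 63 b2053 .bot
def b2055 : Zd := .nd 58 b2054 .bot
def b2056 : Zd := .nd 55 b2055 .bot
def b2057 : Zd := .nd 50 b2056 .bot
def b2058 : Zd := .nd 47 b2057 .bot
def b2059 : Zd := .nd 46 b2058 .bot
def b2060 : Zd := .nd 45 b2059 .bot
def b2061 : Zd := .nd 44 b2060 .bot
def b2062 : Zd := .nd 39 b2061 .bot
def b2063 : Zd := .nd 37 b2062 .bot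
def b2064 : Zd := .nd 35 b2063 .bot
def b2065 : Zd := .nd 34 b2064 .bot
def b2066 : Zd := .nd 33 b2065 .bot
def b2067 : Zd := .nd 28 b2066 .bot
def b2068 : Zd := .nd 24 b2067 .bot
def b2069 : Zd := .nd 22 b2068 .bot
def b2070 : Zd := .nd 21 b2069 .bot
def b2071 : Zd := .nd 19 b2070 .bot
def b2072 : Zd := .nd 14 b2071 .bot
def b2073 : Zd := .nd 12 b2072 .bot
def b2074 : Zd := .nd 11 b2073 .bot
def b2075 : Zd := .nd 6 b2029 b2074
def b2076 : Zd := .nd 5 b2015 b2075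
def b2077 : Zd := .nd 4 b1980 b2076
def b2078 : Zd := .nd 48 b24 .bot
def b2079 : Zd := .nd 46 b2078 .bot
def b2080 : Zd := .nd 45 b2079 .bot
def b2081 : Zd := .nd 42 b2080 .bot
def b2082 : Zd := .nd 41 b2081 .bot
def b2083 : Zd := .nd 40 b2082 .bot
def b2084 : Zd := .nd 36 b2083 .bot
def b2085 : Zd := .nd 34 b2084 .bot
def b2086 : Zd := .nd 33 b2085 .bot
def b2087 : Zd := .nd 32 b2086 .bot
def b2088 : Zd := .nd 31 b2087 .bot
def b2089 : Zd := .nd 30 b2088 .bot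
def b2090 : Zd := .nd 27 b2089 .bot
def b2091 : Zd := .nd 25 b2090 .bot
def b2092 : Zd := .nd 24 b2091 .bot
def b2093 : Zd := .nd 23 b2092 .bot
def b2094 : Zd := .nd 21 b2093 .bot
def b2095 : Zd := .nd 18 b2094 .bot
def b2096 : Zd := .nd 12 b2095 .bot
def b2097 : Zd := .nd 9 b2096 .bot
def b2098 : Zd := .nd 8 b2097 .bot
def b2099 : Zd := .nd 6 b2098 .bot
def b2100 : Zd := .nd 46 b171 .bot
def b2101 : Zd := .nd 45 b2100 .bot
def b2102 : Zd := .nd 43 b2101 .bot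
def b2103 : Zd := .nd 42 b2102 .bot
def b2104 : Zd := .nd 41 b2103 .bot
def b2105 : Zd := .nd 38 b2104 .bot
def b2106 : Zd := .nd 35 b2105 .bot
def b2107 : Zd := .nd 34 b2106 .bot
def b2108 : Zd := .nd 32 b2107 .bot
def b2109 : Zd := .nd 31 b2108 .bot
def b2110 : Zd := .nd 29 b2109 .bot
def b2111 : Zd := .nd 27 b2110 .bot
def b2112 : Zd := .nd 26 b2111 .bot
def b2113 : Zd := .nd 23 b2112 .bot
def b2114 : Zd := .nd 20 b2113 .bot
def b2115 : Zd := .nd 19 b2114 .bot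
def b2116 : Zd := .nd 18 b2115 .bot
def b2117 : Zd := .nd 14 b2116 .bot
def b2118 : Zd := .nd 12 b2117 .bot
def b2119 : Zd := .nd 46 b509 .bot
def b2120 : Zd := .nd 45 b2119 .bot
def b2121 : Zd := .nd 43 b2120 .bot
def b2122 : Zd := .nd 41 b2121 .bot
def b2123 : Zd := .nd 35 b2122 .bot
def b2124 : Zd := .nd 32 b2123 .bot
def b2125 : Zd := .nd 30 b2124 .bot
def b2126 : Zd := .nd 29 b2125 .bot
def b2127 : Zd := .nd 28 b2126 .bot
def b2128 : Zd := .nd 25 b2127 .bot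
def b2129 : Zd := .nd 23 b2128 .bot
def b2130 : Zd := .nd 21 b2129 .bot
def b2131 : Zd := .nd 19 b2130 .bot
def b2132 : Zd := .nd 15 b2131 .bot
def b2133 : Zd := .nd 13 b2132 .bot
def b2134 : Zd := .nd 12 b2133 .bot
def b2135 : Zd := .nd 11 b2118 b2134
def b2136 : Zd := .nd 7 b2135 .bot
def b2137 : Zd := .nd 47 b74 .bot
def b2138 : Zd := .nd 46 b2137 .bot
def b2139 : Zd := .nd 45 b2138 .bot
def b2140 : Zd := .nd 40 b2139 .bot
def b2141 : Zd := .nd 37 b2140 .bot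
def b2142 : Zd := .nd 35 b2141 .bot
def b2143 : Zd := .nd 34 b2142 .bot
def b2144 : Zd := .nd 33 b2143 .bot
def b2145 : Zd := .nd 31 b2144 .bot
def b2146 : Zd := .nd 28 b2145 .bot
def b2147 : Zd := .nd 27 b2146 .bot
def b2148 : Zd := .nd 23 b2147 .bot
def b2149 : Zd := .nd 22 b2148 .bot
def b2150 : Zd := .nd 21 b2149 .bot
def b2151 : Zd := .nd 16 b2150 .bot
def b2152 : Zd := .nd 13 b2151 .bot
def b2153 : Zd := .nd 7 b2152 .bot
def b2154 : Zd := .nd 6 b2136 b2153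
def b2155 : Zd := .nd 5 b2099 b2154
def b2156 : Zd := .nd 49 b1240 .bot
def b2157 : Zd := .nd 48 b2156 .bot
def b2158 : Zd := .nd 44 b2157 .bot
def b2159 : Zd := .nd 43 b2158 .bot
def b2160 : Zd := .nd 38 b2159 .bot
def b2161 : Zd := .nd 36 b2160 .bot
def b2162 : Zd := .nd 34 b2161 .bot
def b2163 : Zd := .nd 33 b2162 .bot
def b2164 : Zd := .nd 29 b2163 .bot
def b2165 : Zd := .nd 26 b2164 .bot
def b2166 : Zd := .nd 25 b2165 .bot
def b2167 : Zd := .nd 24 b2166 .bot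
def b2168 : Zd := .nd 23 b2167 .bot
def b2169 : Zd := .nd 20 b2168 .bot
def b2170 : Zd := .nd 18 b2169 .bot
def b2171 : Zd := .nd 14 b2170 .bot
def b2172 : Zd := .nd 12 b2171 .bot
def b2173 : Zd := .nd 11 b2172 .bot
def b2174 : Zd := .nd 6 b2173 .bot
def b2175 : Zd := .nd 4 b2155 b2174
def b2176 : Zd := .nd 3 b2077 b2175
def b2177 : Zd := .nd 2 b1880 b2176
def b2178 : Zd := .nd 46 b1995 .bot
def b2179 : Zd := .nd 45 b2178 .bot
def b2180 : Zd := .nd 44 b2179 .bot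
def b2181 : Zd := .nd 43 b2180 .bot
def b2182 : Zd := .nd 41 b2181 .bot
def b2183 : Zd := .nd 39 b2182 .bot
def b2184 : Zd := .nd 38 b2183 .bot
def b2185 : Zd := .nd 34 b2184 .bot
def b2186 : Zd := .nd 32 b2185 .bot
def b2187 : Zd := .nd 31 b2186 .bot
def b2188 : Zd := .nd 28 b2187 .bot
def b2189 : Zd := .nd 25 b2188 .bot
def b2190 : Zd := .nd 23 b2189 .bot
def b2191 : Zd := .nd 22 b2190 .bot
def b2192 : Zd := .nd 21 b2191 .bot
def b2193 : Zd := .nd 20 b2192 .bot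
def b2194 : Zd := .nd 19 b2193 .bot
def b2195 : Zd := .nd 18 b2194 .bot
def b2196 : Zd := .nd 13 b2195 .bot
def b2197 : Zd := .nd 11 b2196 .bot
def b2198 : Zd := .nd 7 b2197 .bot
def b2199 : Zd := .nd 43 b197 .bot
def b2200 : Zd := .nd 41 b2199 .bot
def b2201 : Zd := .nd 39 b2200 .bot
def b2202 : Zd := .nd 37 b2201 .bot
def b2203 : Zd := .nd 36 b2202 .bot
def b2204 : Zd := .nd 32 b2203 .bot
def b2205 : Zd := .nd 31 b2204 .bot
def b2206 : Zd := .nd 30 b2205 .bot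
def b2207 : Zd := .nd 28 b2206 .bot
def b2208 : Zd := .nd 26 b2207 .bot
def b2209 : Zd := .nd 25 b2208 .bot
def b2210 : Zd := .nd 20 b2209 .bot
def b2211 : Zd := .nd 16 b2210 .bot
def b2212 : Zd := .nd 15 b2211 .bot
def b2213 : Zd := .nd 14 b2212 .bot
def b2214 : Zd := .nd 8 b2213 .bot
def b2215 : Zd := .nd 44 b1411 .bot
def b2216 : Zd := .nd 42 b2215 .bot
def b2217 : Zd := .nd 40 b2216 .bot
def b2218 : Zd := .nd 38 b2217 .bot
def b2219 : Zd := .nd 36 b2218 .bot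
def b2220 : Zd := .nd 35 b2219 .bot
def b2221 : Zd := .nd 32 b2220 .bot
def b2222 : Zd := .nd 31 b2221 .bot
def b2223 : Zd := .nd 30 b2222 .bot
def b2224 : Zd := .nd 29 b2223 .bot
def b2225 : Zd := .nd 27 b2224 .bot
def b2226 : Zd := .nd 25 b2225 .bot
def b2227 : Zd := .nd 22 b2226 .bot
def b2228 : Zd := .nd 21 b2227 .bot
def b2229 : Zd := .nd 20 b2228 .bot
def b2230 : Zd := .nd 18 b2229 .bot
def b2231 : Zd := .nd 15 b2230 .bot
def b2232 : Zd := .nd 11 b2231 .bot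
def b2233 : Zd := .nd 42 b334 .bot
def b2234 : Zd := .nd 41 b2233 .bot
def b2235 : Zd := .nd 39 b2234 .bot
def b2236 : Zd := .nd 38 b2235 .bot
def b2237 : Zd := .nd 35 b2236 .bot
def b2238 : Zd := .nd 32 b2237 .bot
def b2239 : Zd := .nd 28 b2238 .bot
def b2240 : Zd := .nd 27 b2239 .bot
def b2241 : Zd := .nd 26 b2240 .bot
def b2242 : Zd := .nd 25 b2241 .bot
def b2243 : Zd := .nd 22 b2242 .bot
def b2244 : Zd := .nd 21 b2243 .bot
def b2245 : Zd := .nd 18 b2244 .bot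
def b2246 : Zd := .nd 17 b2245 .bot
def b2247 : Zd := .nd 16 b2246 .bot
def b2248 : Zd := .nd 15 b2247 .bot
def b2249 : Zd := .nd 11 b2248 .bot
def b2250 : Zd := .nd 46 b1557 .bot
def b2251 : Zd := .nd 43 b2250 .bot
def b2252 : Zd := .nd 42 b2251 .bot
def b2253 : Zd := .nd 39 b2252 .bot
def b2254 : Zd := .nd 35 b2253 .bot
def b2255 : Zd := .nd 31 b2254 .bot
def b2256 : Zd := .nd 30 b2255 .bot
def b2257 : Zd := .nd 29 b2256 .bot
def b2258 : Zd := .nd 22 b2257 .bot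
def b2259 : Zd := .nd 21 b2258 .bot
def b2260 : Zd := .nd 20 b2259 .bot
def b2261 : Zd := .nd 18 b2260 .bot
def b2262 : Zd := .nd 17 b2261 .bot
def b2263 : Zd := .nd 16 b2262 .bot
def b2264 : Zd := .nd 15 b2263 .bot
def b2265 : Zd := .nd 13 b2264 .bot
def b2266 : Zd := .nd 11 b2265 .bot
def b2267 : Zd := .nd 9 b2249 b2266
def b2268 : Zd := .nd 8 b2232 b2267
def b2269 : Zd := .nd 7 b2214 b2268
def b2270 : Zd := .nd 6 b2198 b2269
def b2271 : Zd := .nd 46 b657 .bot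
def b2272 : Zd := .nd 43 b2271 .bot
def b2273 : Zd := .nd 42 b2272 .bot
def b2274 : Zd := .nd 41 b2273 .bot
def b2275 : Zd := .nd 40 b2274 .bot
def b2276 : Zd := .nd 39 b2275 .bot
def b2277 : Zd := .nd 38 b2276 .bot
def b2278 : Zd := .nd 37 b2277 .bot
def b2279 : Zd := .nd 36 b2278 .bot
def b2280 : Zd := .nd 35 b2279 .bot
def b2281 : Zd := .nd 32 b2280 .bot
def b2282 : Zd := .nd 31 b2281 .bot
def b2283 : Zd := .nd 29 b2282 .bot
def b2284 : Zd := .nd 28 b2283 .bot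
def b2285 : Zd := .nd 26 b2284 .bot
def b2286 : Zd := .nd 25 b2285 .bot
def b2287 : Zd := .nd 20 b2286 .bot
def b2288 : Zd := .nd 17 b2287 .bot
def b2289 : Zd := .nd 16 b2288 .bot
def b2290 : Zd := .nd 14 b2289 .bot
def b2291 : Zd := .nd 13 b2290 .bot
def b2292 : Zd := .nd 11 b2291 .bot
def b2293 : Zd := .nd 8 b2292 .bot
def b2294 : Zd := .nd 49 b114 .bot
def b2295 : Zd := .nd 48 b2294 .bot
def b2296 : Zd := .nd 47 b2295 .bot
def b2297 : Zd := .nd 45 b2296 .bot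
def b2298 : Zd := .nd 43 b2297 .bot
def b2299 : Zd := .nd 40 b2298 .bot
def b2300 : Zd := .nd 39 b2299 .bot
def b2301 : Zd := .nd 38 b2300 .bot
def b2302 : Zd := .nd 37 b2301 .bot
def b2303 : Zd := .nd 36 b2302 .bot
def b2304 : Zd := .nd 35 b2303 .bot
def b2305 : Zd := .nd 33 b2304 .bot
def b2306 : Zd := .nd 32 b2305 .bot
def b2307 : Zd := .nd 31 b2306 .bot
def b2308 : Zd := .nd 30 b2307 .bot
def b2309 : Zd := .nd 26 b2308 .bot
def b2310 : Zd := .nd 23 b2309 .bot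
def b2311 : Zd := .nd 20 b2310 .bot
def b2312 : Zd := .nd 19 b2311 .bot
def b2313 : Zd := .nd 16 b2312 .bot
def b2314 : Zd := .nd 15 b2313 .bot
def b2315 : Zd := .nd 14 b2314 .bot
def b2316 : Zd := .nd 13 b2315 .bot
def b2317 : Zd := .nd 12 b2316 .bot
def b2318 : Zd := .nd 11 b2317 .bot
def b2319 : Zd := .nd 44 b984 .bot
def b2320 : Zd := .nd 43 b2319 .bot
def b2321 : Zd := .nd 42 b2320 .bot
def b2322 : Zd := .nd 40 b2321 .bot
def b2323 : Zd := .nd 38 b2322 .bot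
def b2324 : Zd := .nd 37 b2323 .bot
def b2325 : Zd := .nd 36 b2324 .bot
def b2326 : Zd := .nd 35 b2325 .bot
def b2327 : Zd := .nd 33 b2326 .bot
def b2328 : Zd := .nd 32 b2327 .bot
def b2329 : Zd := .nd 31 b2328 .bot
def b2330 : Zd := .nd 28 b2329 .bot
def b2331 : Zd := .nd 27 b2330 .bot
def b2332 : Zd := .nd 26 b2331 .bot
def b2333 : Zd := .nd 25 b2332 .bot
def b2334 : Zd := .nd 24 b2333 .bot
def b2335 : Zd := .nd 20 b2334 .bot
def b2336 : Zd := .nd 17 b2335 .bot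
def b2337 : Zd := .nd 13 b2336 .bot
def b2338 : Zd := .nd 11 b2337 .bot
def b2339 : Zd := .nd 9 b2318 b2338
def b2340 : Zd := .nd 7 b2293 b2339
def b2341 : Zd := .nd 48 b913 .bot
def b2342 : Zd := .nd 47 b2341 .bot
def b2343 : Zd := .nd 46 b2342 .bot
def b2344 : Zd := .nd 41 b2343 .bot
def b2345 : Zd := .nd 40 b2344 .bot
def b2346 : Zd := .nd 38 b2345 .bot
def b2347 : Zd := .nd 36 b2346 .bot
def b2348 : Zd := .nd 35 b2347 .bot
def b2349 : Zd := .nd 32 b2348 .bot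
def b2350 : Zd := .nd 30 b2349 .bot
def b2351 : Zd := .nd 29 b2350 .bot
def b2352 : Zd := .nd 28 b2351 .bot
def b2353 : Zd := .nd 26 b2352 .bot
def b2354 : Zd := .nd 25 b2353 .bot
def b2355 : Zd := .nd 24 b2354 .bot
def b2356 : Zd := .nd 21 b2355 .bot
def b2357 : Zd := .nd 20 b2356 .bot
def b2358 : Zd := .nd 19 b2357 .bot
def b2359 : Zd := .nd 17 b2358 .bot
def b2360 : Zd := .nd 15 b2359 .bot
def b2361 : Zd := .nd 8 b2360 .bot
def b2362 : Zd := .nd 7 b2361 .bot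
def b2363 : Zd := .nd 6 b2340 b2362
def b2364 : Zd := .nd 5 b2270 b2363
def b2365 : Zd := .nd 47 b1477 .bot
def b2366 : Zd := .nd 43 b2365 .bot
def b2367 : Zd := .nd 42 b2366 .bot
def b2368 : Zd := .nd 40 b2367 .bot
def b2369 : Zd := .nd 39 b2368 .bot
def b2370 : Zd := .nd 38 b2369 .bot
def b2371 : Zd := .nd 36 b2370 .bot
def b2372 : Zd := .nd 31 b2371 .bot
def b2373 : Zd := .nd 30 b2372 .bot
def b2374 : Zd := .nd 28 b2373 .bot
def b2375 : Zd := .nd 27 b2374 .bot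
def b2376 : Zd := .nd 25 b2375 .bot
def b2377 : Zd := .nd 24 b2376 .bot
def b2378 : Zd := .nd 23 b2377 .bot
def b2379 : Zd := .nd 21 b2378 .bot
def b2380 : Zd := .nd 20 b2379 .bot
def b2381 : Zd := .nd 19 b2380 .bot
def b2382 : Zd := .nd 18 b2381 .bot
def b2383 : Zd := .nd 14 b2382 .bot
def b2384 : Zd := .nd 12 b2383 .bot
def b2385 : Zd := .nd 46 b614 .bot
def b2386 : Zd := .nd 44 b2385 .bot
def b2387 : Zd := .nd 43 b2386 .bot
def b2388 : Zd := .nd 41 b2387 .bot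
def b2389 : Zd := .nd 40 b2388 .bot
def b2390 : Zd := .nd 38 b2389 .bot
def b2391 : Zd := .nd 37 b2390 .bot
def b2392 : Zd := .nd 33 b2391 .bot
def b2393 : Zd := .nd 31 b2392 .bot
def b2394 : Zd := .nd 24 b2393 .bot
def b2395 : Zd := .nd 22 b2394 .bot
def b2396 : Zd := .nd 21 b2395 .bot
def b2397 : Zd := .nd 19 b2396 .bot
def b2398 : Zd := .nd 18 b2397 .bot
def b2399 : Zd := .nd 16 b2398 .bot
def b2400 : Zd := .nd 14 b2399 .bot
def b2401 : Zd := .nd 13 b2400 .bot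
def b2402 : Zd := .nd 9 b2384 b2401
def b2403 : Zd := .nd 8 b2402 .bot
def b2404 : Zd := .nd 6 b2403 .bot
def b2405 : Zd := .nd 46 b194 .bot
def b2406 : Zd := .nd 43 b2405 .bot
def b2407 : Zd := .nd 42 b2406 .bot
def b2408 : Zd := .nd 41 b2407 .bot
def b2409 : Zd := .nd 36 b2408 .bot
def b2410 : Zd := .nd 33 b2409 .bot
def b2411 : Zd := .nd 31 b2410 .bot
def b2412 : Zd := .nd 30 b2411 .bot
def b2413 : Zd := .nd 26 b2412 .bot
def b2414 : Zd := .nd 24 b2413 .bot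
def b2415 : Zd := .nd 20 b2414 .bot
def b2416 : Zd := .nd 18 b2415 .bot
def b2417 : Zd := .nd 17 b2416 .bot
def b2418 : Zd := .nd 16 b2417 .bot
def b2419 : Zd := .nd 14 b2418 .bot
def b2420 : Zd := .nd 9 b2419 .bot
def b2421 : Zd := .nd 7 b2420 .bot
def b2422 : Zd := .nd 6 b2421 .bot
def b2423 : Zd := .nd 5 b2404 b2422
def b2424 : Zd := .nd 4 b2364 b2423
def b2425 : Zd := .nd 46 b1841 .bot
def b2426 : Zd := .nd 44 b2425 .bot
def b2427 : Zd := .nd 43 b2426 .bot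
def b2428 : Zd := .nd 41 b2427 .bot
def b2429 : Zd := .nd 40 b2428 .bot
def b2430 : Zd := .nd 39 b2429 .bot
def b2431 : Zd := .nd 38 b2430 .bot
def b2432 : Zd := .nd 37 b2431 .bot
def b2433 : Zd := .nd 32 b2432 .bot
def b2434 : Zd := .nd 29 b2433 .bot
def b2435 : Zd := .nd 27 b2434 .bot
def b2436 : Zd := .nd 26 b2435 .bot
def b2437 : Zd := .nd 25 b2436 .bot
def b2438 : Zd := .nd 22 b2437 .bot
def b2439 : Zd := .nd 21 b2438 .bot
def b2440 : Zd := .nd 18 b2439 .bot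
def b2441 : Zd := .nd 17 b2440 .bot
def b2442 : Zd := .nd 16 b2441 .bot
def b2443 : Zd := .nd 9 b2442 .bot
def b2444 : Zd := .nd 46 b1477 .bot
def b2445 : Zd := .nd 43 b2444 .bot
def b2446 : Zd := .nd 42 b2445 .bot
def b2447 : Zd := .nd 40 b2446 .bot
def b2448 : Zd := .nd 39 b2447 .bot
def b2449 : Zd := .nd 38 b2448 .bot
def b2450 : Zd := .nd 35 b2449 .bot
def b2451 : Zd := .nd 32 b2450 .bot
def b2452 : Zd := .nd 31 b2451 .bot
def b2453 : Zd := .nd 30 b2452 .bot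
def b2454 : Zd := .nd 29 b2453 .bot
def b2455 : Zd := .nd 28 b2454 .bot
def b2456 : Zd := .nd 27 b2455 .bot
def b2457 : Zd := .nd 24 b2456 .bot
def b2458 : Zd := .nd 21 b2457 .bot
def b2459 : Zd := .nd 19 b2458 .bot
def b2460 : Zd := .nd 18 b2459 .bot
def b2461 : Zd := .nd 17 b2460 .bot
def b2462 : Zd := .nd 16 b2461 .bot
def b2463 : Zd := .nd 15 b2462 .bot
def b2464 : Zd := .nd 13 b2463 .bot
def b2465 : Zd := .nd 45 b75 .bot
def b2466 : Zd := .nd 44 b2465 .bot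
def b2467 : Zd := .nd 43 b2466 .bot
def b2468 : Zd := .nd 40 b2467 .bot
def b2469 : Zd := .nd 36 b2468 .bot
def b2470 : Zd := .nd 35 b2469 .bot
def b2471 : Zd := .nd 34 b2470 .bot
def b2472 : Zd := .nd 29 b2471 .bot
def b2473 : Zd := .nd 24 b2472 .bot
def b2474 : Zd := .nd 23 b2473 .bot
def b2475 : Zd := .nd 22 b2474 .bot
def b2476 : Zd := .nd 19 b2475 .bot
def b2477 : Zd := .nd 18 b2476 .bot
def b2478 : Zd := .nd 17 b2477 .bot
def b2479 : Zd := .nd 47 b1029 .bot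
def b2480 : Zd := .nd 44 b2479 .bot
def b2481 : Zd := .nd 42 b2480 .bot
def b2482 : Zd := .nd 41 b2481 .bot
def b2483 : Zd := .nd 39 b2482 .bot
def b2484 : Zd := .nd 36 b2483 .bot
def b2485 : Zd := .nd 35 b2484 .bot
def b2486 : Zd := .nd 32 b2485 .bot
def b2487 : Zd := .nd 31 b2486 .bot
def b2488 : Zd := .nd 30 b2487 .bot
def b2489 : Zd := .nd 25 b2488 .bot
def b2490 : Zd := .nd 21 b2489 .bot
def b2491 : Zd := .nd 18 b2490 .bot
def b2492 : Zd := .nd 16 b2491 .bot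
def b2493 : Zd := .nd 15 b2492 .bot
def b2494 : Zd := .nd 12 b2478 b2493
def b2495 : Zd := .nd 46 b1305 .bot
def b2496 : Zd := .nd 45 b2495 .bot
def b2497 : Zd := .nd 44 b2496 .bot
def b2498 : Zd := .nd 43 b2497 .bot
def b2499 : Zd := .nd 41 b2498 .bot
def b2500 : Zd := .nd 38 b2499 .bot
def b2501 : Zd := .nd 34 b2500 .bot
def b2502 : Zd := .nd 31 b2501 .bot
def b2503 : Zd := .nd 28 b2502 .bot
def b2504 : Zd := .nd 26 b2503 .bot
def b2505 : Zd := .nd 23 b2504 .bot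
def b2506 : Zd := .nd 22 b2505 .bot
def b2507 : Zd := .nd 20 b2506 .bot
def b2508 : Zd := .nd 19 b2507 .bot
def b2509 : Zd := .nd 18 b2508 .bot
def b2510 : Zd := .nd 45 b45 .bot
def b2511 : Zd := .nd 43 b2510 .bot
def b2512 : Zd := .nd 40 b2511 .bot
def b2513 : Zd := .nd 39 b2512 .bot
def b2514 : Zd := .nd 34 b2513 .bot
def b2515 : Zd := .nd 33 b2514 .bot
def b2516 : Zd := .nd 30 b2515 .bot
def b2517 : Zd := .nd 29 b2516 .bot
def b2518 : Zd := .nd 26 b2517 .bot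
def b2519 : Zd := .nd 25 b2518 .bot
def b2520 : Zd := .nd 24 b2519 .bot
def b2521 : Zd := .nd 23 b2520 .bot
def b2522 : Zd := .nd 22 b2521 .bot
def b2523 : Zd := .nd 18 b2522 .bot
def b2524 : Zd := .nd 17 b2523 .bot
def b2525 : Zd := .nd 14 b2509 b2524
def b2526 : Zd := .nd 13 b2525 .bot
def b2527 : Zd := .nd 43 b509 .bot
def b2528 : Zd := .nd 40 b2527 .bot
def b2529 : Zd := .nd 36 b2528 .bot
def b2530 : Zd := .nd 29 b2529 .bot
def b2531 : Zd := .nd 27 b2530 .bot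
def b2532 : Zd := .nd 26 b2531 .bot
def b2533 : Zd := .nd 24 b2532 .bot
def b2534 : Zd := .nd 22 b2533 .bot
def b2535 : Zd := .nd 21 b2534 .bot
def b2536 : Zd := .nd 19 b2535 .bot
def b2537 : Zd := .nd 18 b2536 .bot
def b2538 : Zd := .nd 15 b2537 .bot
def b2539 : Zd := .nd 48 b681 .bot
def b2540 : Zd := .nd 46 b2539 .bot
def b2541 : Zd := .nd 43 b2540 .bot
def b2542 : Zd := .nd 40 b2541 .bot
def b2543 : Zd := .nd 38 b2542 .bot
def b2544 : Zd := .nd 37 b2543 .bot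
def b2545 : Zd := .nd 32 b2544 .bot
def b2546 : Zd := .nd 31 b2545 .bot
def b2547 : Zd := .nd 29 b2546 .bot
def b2548 : Zd := .nd 27 b2547 .bot
def b2549 : Zd := .nd 21 b2548 .bot
def b2550 : Zd := .nd 19 b2549 .bot
def b2551 : Zd := .nd 18 b2550 .bot
def b2552 : Zd := .nd 17 b2551 .bot
def b2553 : Zd := .nd 14 b2538 b2552
def b2554 : Zd := .nd 13 b2553 .bot
def b2555 : Zd := .nd 12 b2526 b2554
def b2556 : Zd := .nd 11 b2494 b2555
def b2557 : Zd := .nd 9 b2464 b2556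
def b2558 : Zd := .nd 8 b2443 b2557
def b2559 : Zd := .nd 46 b718 .bot
def b2560 : Zd := .nd 44 b2559 .bot
def b2561 : Zd := .nd 42 b2560 .bot
def b2562 : Zd := .nd 41 b2561 .bot
def b2563 : Zd := .nd 39 b2562 .bot
def b2564 : Zd := .nd 36 b2563 .bot
def b2565 : Zd := .nd 32 b2564 .bot
def b2566 : Zd := .nd 31 b2565 .bot
def b2567 : Zd := .nd 30 b2566 .bot
def b2568 : Zd := .nd 29 b2567 .bot
def b2569 : Zd := .nd 28 b2568 .bot
def b2570 : Zd := .nd 27 b2569 .bot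
def b2571 : Zd := .nd 25 b2570 .bot
def b2572 : Zd := .nd 24 b2571 .bot
def b2573 : Zd := .nd 20 b2572 .bot
def b2574 : Zd := .nd 19 b2573 .bot
def b2575 : Zd := .nd 18 b2574 .bot
def b2576 : Zd := .nd 14 b2575 .bot
def b2577 : Zd := .nd 11 b2576 .bot
def b2578 : Zd := .nd 9 b2577 .bot
def b2579 : Zd := .nd 49 b507 .bot
def b2580 : Zd := .nd 48 b2579 .bot
def b2581 : Zd := .nd 47 b2580 .bot
def b2582 : Zd := .nd 44 b2581 .bot
def b2583 : Zd := .nd 42 b2582 .bot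
def b2584 : Zd := .nd 41 b2583 .bot
def b2585 : Zd := .nd 40 b2584 .bot
def b2586 : Zd := .nd 38 b2585 .bot
def b2587 : Zd := .nd 36 b2586 .bot
def b2588 : Zd := .nd 30 b2587 .bot
def b2589 : Zd := .nd 29 b2588 .bot
def b2590 : Zd := .nd 27 b2589 .bot
def b2591 : Zd := .nd 25 b2590 .bot
def b2592 : Zd := .nd 24 b2591 .bot
def b2593 : Zd := .nd 21 b2592 .bot
def b2594 : Zd := .nd 20 b2593 .bot
def b2595 : Zd := .nd 19 b2594 .bot
def b2596 : Zd := .nd 15 b2595 .bot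
def b2597 : Zd := .nd 11 b2596 .bot
def b2598 : Zd := .nd 8 b2578 b2597
def b2599 : Zd := .nd 6 b2558 b2598
def b2600 : Zd := .nd 41 b1841 .bot
def b2601 : Zd := .nd 40 b2600 .bot
def b2602 : Zd := .nd 36 b2601 .bot
def b2603 : Zd := .nd 33 b2602 .bot
def b2604 : Zd := .nd 32 b2603 .bot
def b2605 : Zd := .nd 31 b2604 .bot
def b2606 : Zd := .nd 29 b2605 .bot
def b2607 : Zd := .nd 27 b2606 .bot
def b2608 : Zd := .nd 26 b2607 .bot
def b2609 : Zd := .nd 24 b2608 .bot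
def b2610 : Zd := .nd 22 b2609 .bot
def b2611 : Zd := .nd 19 b2610 .bot
def b2612 : Zd := .nd 17 b2611 .bot
def b2613 : Zd := .nd 16 b2612 .bot
def b2614 : Zd := .nd 15 b2613 .bot
def b2615 : Zd := .nd 48 b0 .bot
def b2616 : Zd := .nd 46 b2615 .bot
def b2617 : Zd := .nd 45 b2616 .bot
def b2618 : Zd := .nd 44 b2617 .bot
def b2619 : Zd := .nd 43 b2618 .bot
def b2620 : Zd := .nd 41 b2619 .bot
def b2621 : Zd := .nd 40 b2620 .bot
def b2622 : Zd := .nd 38 b2621 .bot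
def b2623 : Zd := .nd 36 b2622 .bot
def b2624 : Zd := .nd 35 b2623 .bot
def b2625 : Zd := .nd 34 b2624 .bot
def b2626 : Zd := .nd 33 b2625 .bot
def b2627 : Zd := .nd 31 b2626 .bot
def b2628 : Zd := .nd 29 b2627 .bot
def b2629 : Zd := .nd 25 b2628 .bot
def b2630 : Zd := .nd 24 b2629 .bot
def b2631 : Zd := .nd 23 b2630 .bot
def b2632 : Zd := .nd 21 b2631 .bot
def b2633 : Zd := .nd 17 b2632 .bot
def b2634 : Zd := .nd 14 b2633 .bot
def b2635 : Zd := .nd 12 b2634 .bot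
def b2636 : Zd := .nd 11 b2635 .bot
def b2637 : Zd := .nd 8 b2614 b2636
def b2638 : Zd := .nd 6 b2637 .bot
def b2639 : Zd := .nd 5 b2599 b2638
def b2640 : Zd := .nd 43 b2582 .bot
def b2641 : Zd := .nd 42 b2640 .bot
def b2642 : Zd := .nd 40 b2641 .bot
def b2643 : Zd := .nd 38 b2642 .bot
def b2644 : Zd := .nd 32 b2643 .bot
def b2645 : Zd := .nd 30 b2644 .bot
def b2646 : Zd := .nd 29 b2645 .bot
def b2647 : Zd := .nd 20 b2646 .bot
def b2648 : Zd := .nd 17 b2647 .bot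
def b2649 : Zd := .nd 16 b2648 .bot
def b2650 : Zd := .nd 15 b2649 .bot
def b2651 : Zd := .nd 13 b2650 .bot
def b2652 : Zd := .nd 44 b720 .bot
def b2653 : Zd := .nd 43 b2652 .bot
def b2654 : Zd := .nd 38 b2653 .bot
def b2655 : Zd := .nd 37 b2654 .bot
def b2656 : Zd := .nd 33 b2655 .bot
def b2657 : Zd := .nd 32 b2656 .bot
def b2658 : Zd := .nd 29 b2657 .bot
def b2659 : Zd := .nd 27 b2658 .bot
def b2660 : Zd := .nd 25 b2659 .bot
def b2661 : Zd := .nd 20 b2660 .bot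
def b2662 : Zd := .nd 17 b2661 .bot
def b2663 : Zd := .nd 15 b2662 .bot
def b2664 : Zd := .nd 14 b2663 .bot
def b2665 : Zd := .nd 13 b2664 .bot
def b2666 : Zd := .nd 11 b2651 b2665
def b2667 : Zd := .nd 42 b1740 .bot
def b2668 : Zd := .nd 41 b2667 .bot
def b2669 : Zd := .nd 40 b2668 .bot
def b2670 : Zd := .nd 39 b2669 .bot
def b2671 : Zd := .nd 38 b2670 .bot
def b2672 : Zd := .nd 35 b2671 .bot
def b2673 : Zd := .nd 32 b2672 .bot
def b2674 : Zd := .nd 31 b2673 .bot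
def b2675 : Zd := .nd 30 b2674 .bot
def b2676 : Zd := .nd 29 b2675 .bot
def b2677 : Zd := .nd 28 b2676 .bot
def b2678 : Zd := .nd 27 b2677 .bot
def b2679 : Zd := .nd 26 b2678 .bot
def b2680 : Zd := .nd 24 b2679 .bot
def b2681 : Zd := .nd 21 b2680 .bot
def b2682 : Zd := .nd 18 b2681 .bot
def b2683 : Zd := .nd 17 b2682 .bot
def b2684 : Zd := .nd 13 b2683 .bot
def b2685 : Zd := .nd 47 b46 .bot
def b2686 : Zd := .nd 46 b2685 .bot
def b2687 : Zd := .nd 44 b2686 .bot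
def b2688 : Zd := .nd 42 b2687 .bot
def b2689 : Zd := .nd 41 b2688 .bot
def b2690 : Zd := .nd 39 b2689 .bot
def b2691 : Zd := .nd 37 b2690 .bot
def b2692 : Zd := .nd 33 b2691 .bot
def b2693 : Zd := .nd 30 b2692 .bot
def b2694 : Zd := .nd 29 b2693 .bot
def b2695 : Zd := .nd 27 b2694 .bot
def b2696 : Zd := .nd 25 b2695 .bot
def b2697 : Zd := .nd 24 b2696 .bot
def b2698 : Zd := .nd 21 b2697 .bot
def b2699 : Zd := .nd 18 b2698 .bot
def b2700 : Zd := .nd 16 b2699 .bot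
def b2701 : Zd := .nd 15 b2700 .bot
def b2702 : Zd := .nd 11 b2701 .bot
def b2703 : Zd := .nd 9 b2684 b2702
def b2704 : Zd := .nd 8 b2666 b2703
def b2705 : Zd := .nd 47 b168 .bot
def b2706 : Zd := .nd 45 b2705 .bot
def b2707 : Zd := .nd 43 b2706 .bot
def b2708 : Zd := .nd 39 b2707 .bot
def b2709 : Zd := .nd 36 b2708 .bot
def b2710 : Zd := .nd 35 b2709 .bot
def b2711 : Zd := .nd 34 b2710 .bot
def b2712 : Zd := .nd 31 b2711 .bot
def b2713 : Zd := .nd 29 b2712 .bot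
def b2714 : Zd := .nd 28 b2713 .bot
def b2715 : Zd := .nd 23 b2714 .bot
def b2716 : Zd := .nd 22 b2715 .bot
def b2717 : Zd := .nd 20 b2716 .bot
def b2718 : Zd := .nd 17 b2717 .bot
def b2719 : Zd := .nd 16 b2718 .bot
def b2720 : Zd := .nd 15 b2719 .bot
def b2721 : Zd := .nd 40 b7 .bot
def b2722 : Zd := .nd 39 b2721 .bot
def b2723 : Zd := .nd 37 b2722 .bot
def b2724 : Zd := .nd 36 b2723 .bot
def b2725 : Zd := .nd 35 b2724 .bot
def b2726 : Zd := .nd 32 b2725 .bot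
def b2727 : Zd := .nd 25 b2726 .bot
def b2728 : Zd := .nd 24 b2727 .bot
def b2729 : Zd := .nd 19 b2728 .bot
def b2730 : Zd := .nd 18 b2729 .bot
def b2731 : Zd := .nd 17 b2730 .bot
def b2732 : Zd := .nd 16 b2731 .bot
def b2733 : Zd := .nd 15 b2732 .bot
def b2734 : Zd := .nd 14 b2733 .bot
def b2735 : Zd := .nd 13 b2734 .bot
def b2736 : Zd := .nd 12 b2720 b2735
def b2737 : Zd := .nd 8 b2736 .bot
def b2738 : Zd := .nd 7 b2737 .bot
def b2739 : Zd := .nd 6 b2704 b2738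
def b2740 : Zd := .nd 106 b1152 .bot
def b2741 : Zd := .nd 105 b2740 .bot
def b2742 : Zd := .nd 104 b2741 .bot
def b2743 : Zd := .nd 103 b2742 .bot
def b2744 : Zd := .nd 99 b2743 .bot
def b2745 : Zd := .nd 97 b2744 .bot
def b2746 : Zd := .nd 96 b2745 .bot
def b2747 : Zd := .nd 95 b2746 .bot
def b2748 : Zd := .nd 94 b2747 .bot
def b2749 : Zd := .nd 93 b2748 .bot
def b2750 : Zd := .nd 91 b2749 .bot
def b2751 : Zd := .nd 90 b2750 .bot
def b2752 : Zd := .nd 89 b2751 .bot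
def b2753 : Zd := .nd 86 b2752 .bot
def b2754 : Zd := .nd 83 b2753 .bot
def b2755 : Zd := .nd 82 b2754 .bot
def b2756 : Zd := .nd 81 b2755 .bot
def b2757 : Zd := .nd 80 b2756 .bot
def b2758 : Zd := .nd 73 b2757 .bot
def b2759 : Zd := .nd 72 b2758 .bot
def b2760 : Zd := .nd 71 b2759 .bot
def b2761 : Zd := .nd 70 b2760 .bot
def b2762 : Zd := .nd 67 b2761 .bot
def b2763 : Zd := .nd 63 b2762 .bot
def b2764 : Zd := .nd 59 b2763 .bot
def b2765 : Zd := .nd 58 b2764 .bot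
def b2766 : Zd := .nd 57 b2765 .bot
def b2767 : Zd := .nd 55 b2766 .bot
def b2768 : Zd := .nd 53 b2767 .bot
def b2769 : Zd := .nd 52 b2768 .bot
def b2770 : Zd := .nd 51 b2769 .bot
def b2771 : Zd := .nd 50 b2770 .bot
def b2772 : Zd := .nd 49 b2771 .bot
def b2773 : Zd := .nd 44 b2772 .bot
def b2774 : Zd := .nd 42 b2773 .bot
def b2775 : Zd := .nd 41 b2774 .bot
def b2776 : Zd := .nd 35 b2775 .bot
def b2777 : Zd := .nd 31 b2776 .bot
def b2778 : Zd := .nd 30 b2777 .bot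
def b2779 : Zd := .nd 29 b2778 .bot
def b2780 : Zd := .nd 28 b2779 .bot
def b2781 : Zd := .nd 26 b2780 .bot
def b2782 : Zd := .nd 25 b2781 .bot
def b2783 : Zd := .nd 22 b2782 .bot
def b2784 : Zd := .nd 21 b2783 .bot
def b2785 : Zd := .nd 20 b2784 .bot
def b2786 : Zd := .nd 19 b2785 .bot
def b2787 : Zd := .nd 18 b2786 .bot
def b2788 : Zd := .nd 15 b2787 .bot
def b2789 : Zd := .nd 8 b2788 .bot
def b2790 : Zd := .nd 5 b2739 b2789
def b2791 : Zd := .nd 4 b2639 b2790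
def b2792 : Zd := .nd 3 b2424 b2791
def b2793 : Zd := .nd 46 b2 .bot
def b2794 : Zd := .nd 45 b2793 .bot
def b2795 : Zd := .nd 44 b2794 .bot
def b2796 : Zd := .nd 43 b2795 .bot
def b2797 : Zd := .nd 42 b2796 .bot
def b2798 : Zd := .nd 41 b2797 .bot
def b2799 : Zd := .nd 39 b2798 .bot
def b2800 : Zd := .nd 37 b2799 .bot
def b2801 : Zd := .nd 36 b2800 .bot
def b2802 : Zd := .nd 33 b2801 .bot
def b2803 : Zd := .nd 32 b2802 .bot
def b2804 : Zd := .nd 30 b2803 .bot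
def b2805 : Zd := .nd 26 b2804 .bot
def b2806 : Zd := .nd 25 b2805 .bot
def b2807 : Zd := .nd 21 b2806 .bot
def b2808 : Zd := .nd 18 b2807 .bot
def b2809 : Zd := .nd 17 b2808 .bot
def b2810 : Zd := .nd 14 b2809 .bot
def b2811 : Zd := .nd 13 b2810 .bot
def b2812 : Zd := .nd 12 b2811 .bot
def b2813 : Zd := .nd 11 b2812 .bot
def b2814 : Zd := .nd 40 b78 .bot
def b2815 : Zd := .nd 39 b2814 .bot
def b2816 : Zd := .nd 37 b2815 .bot
def b2817 : Zd := .nd 31 b2816 .bot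
def b2818 : Zd := .nd 26 b2817 .bot
def b2819 : Zd := .nd 22 b2818 .bot
def b2820 : Zd := .nd 21 b2819 .bot
def b2821 : Zd := .nd 19 b2820 .bot
def b2822 : Zd := .nd 17 b2821 .bot
def b2823 : Zd := .nd 15 b2822 .bot
def b2824 : Zd := .nd 9 b2813 b2823
def b2825 : Zd := .nd 44 b2793 .bot
def b2826 : Zd := .nd 42 b2825 .bot
def b2827 : Zd := .nd 40 b2826 .bot
def b2828 : Zd := .nd 39 b2827 .bot
def b2829 : Zd := .nd 38 b2828 .bot
def b2830 : Zd := .nd 36 b2829 .bot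
def b2831 : Zd := .nd 32 b2830 .bot
def b2832 : Zd := .nd 31 b2831 .bot
def b2833 : Zd := .nd 30 b2832 .bot
def b2834 : Zd := .nd 29 b2833 .bot
def b2835 : Zd := .nd 24 b2834 .bot
def b2836 : Zd := .nd 22 b2835 .bot
def b2837 : Zd := .nd 21 b2836 .bot
def b2838 : Zd := .nd 20 b2837 .bot
def b2839 : Zd := .nd 18 b2838 .bot
def b2840 : Zd := .nd 17 b2839 .bot
def b2841 : Zd := .nd 8 b2840 .bot
def b2842 : Zd := .nd 48 b1240 .bot
def b2843 : Zd := .nd 47 b2842 .bot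
def b2844 : Zd := .nd 46 b2843 .bot
def b2845 : Zd := .nd 42 b2844 .bot
def b2846 : Zd := .nd 41 b2845 .bot
def b2847 : Zd := .nd 39 b2846 .bot
def b2848 : Zd := .nd 35 b2847 .bot
def b2849 : Zd := .nd 32 b2848 .bot
def b2850 : Zd := .nd 28 b2849 .bot
def b2851 : Zd := .nd 27 b2850 .bot
def b2852 : Zd := .nd 24 b2851 .bot
def b2853 : Zd := .nd 21 b2852 .bot
def b2854 : Zd := .nd 19 b2853 .bot
def b2855 : Zd := .nd 18 b2854 .bot
def b2856 : Zd := .nd 17 b2855 .bot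
def b2857 : Zd := .nd 16 b2856 .bot
def b2858 : Zd := .nd 15 b2857 .bot
def b2859 : Zd := .nd 14 b2858 .bot
def b2860 : Zd := .nd 11 b2859 .bot
def b2861 : Zd := .nd 48 b23 .bot
def b2862 : Zd := .nd 47 b2861 .bot
def b2863 : Zd := .nd 44 b2862 .bot
def b2864 : Zd := .nd 41 b2863 .bot
def b2865 : Zd := .nd 39 b2864 .bot
def b2866 : Zd := .nd 33 b2865 .bot
def b2867 : Zd := .nd 30 b2866 .bot
def b2868 : Zd := .nd 28 b2867 .bot
def b2869 : Zd := .nd 27 b2868 .bot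
def b2870 : Zd := .nd 26 b2869 .bot
def b2871 : Zd := .nd 25 b2870 .bot
def b2872 : Zd := .nd 22 b2871 .bot
def b2873 : Zd := .nd 21 b2872 .bot
def b2874 : Zd := .nd 16 b2873 .bot
def b2875 : Zd := .nd 15 b2874 .bot
def b2876 : Zd := .nd 14 b2875 .bot
def b2877 : Zd := .nd 13 b2876 .bot
def b2878 : Zd := .nd 11 b2877 .bot
def b2879 : Zd := .nd 9 b2860 b2878
def b2880 : Zd := .nd 7 b2841 b2879
def b2881 : Zd := .nd 6 b2824 b2880
def b2882 : Zd := .nd 49 b0 .bot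
def b2883 : Zd := .nd 48 b2882 .bot
def b2884 : Zd := .nd 46 b2883 .bot
def b2885 : Zd := .nd 44 b2884 .bot
def b2886 : Zd := .nd 43 b2885 .bot
def b2887 : Zd := .nd 42 b2886 .bot
def b2888 : Zd := .nd 41 b2887 .bot
def b2889 : Zd := .nd 38 b2888 .bot
def b2890 : Zd := .nd 35 b2889 .bot
def b2891 : Zd := .nd 31 b2890 .bot
def b2892 : Zd := .nd 28 b2891 .bot
def b2893 : Zd := .nd 26 b2892 .bot
def b2894 : Zd := .nd 25 b2893 .bot
def b2895 : Zd := .nd 24 b2894 .bot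
def b2896 : Zd := .nd 22 b2895 .bot
def b2897 : Zd := .nd 21 b2896 .bot
def b2898 : Zd := .nd 17 b2897 .bot
def b2899 : Zd := .nd 16 b2898 .bot
def b2900 : Zd := .nd 15 b2899 .bot
def b2901 : Zd := .nd 14 b2900 .bot
def b2902 : Zd := .nd 13 b2901 .bot
def b2903 : Zd := .nd 8 b2902 .bot
def b2904 : Zd := .nd 7 b2903 .bot
def b2905 : Zd := .nd 42 b1225 .bot
def b2906 : Zd := .nd 41 b2905 .bot
def b2907 : Zd := .nd 40 b2906 .bot
def b2908 : Zd := .nd 39 b2907 .bot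
def b2909 : Zd := .nd 35 b2908 .bot
def b2910 : Zd := .nd 32 b2909 .bot
def b2911 : Zd := .nd 31 b2910 .bot
def b2912 : Zd := .nd 30 b2911 .bot
def b2913 : Zd := .nd 24 b2912 .bot
def b2914 : Zd := .nd 21 b2913 .bot
def b2915 : Zd := .nd 20 b2914 .bot
def b2916 : Zd := .nd 19 b2915 .bot
def b2917 : Zd := .nd 18 b2916 .bot
def b2918 : Zd := .nd 17 b2917 .bot
def b2919 : Zd := .nd 16 b2918 .bot
def b2920 : Zd := .nd 15 b2919 .bot
def b2921 : Zd := .nd 14 b2920 .bot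
def b2922 : Zd := .nd 13 b2921 .bot
def b2923 : Zd := .nd 11 b2922 .bot
def b2924 : Zd := .nd 46 b43 .bot
def b2925 : Zd := .nd 44 b2924 .bot
def b2926 : Zd := .nd 43 b2925 .bot
def b2927 : Zd := .nd 42 b2926 .bot
def b2928 : Zd := .nd 41 b2927 .bot
def b2929 : Zd := .nd 39 b2928 .bot
def b2930 : Zd := .nd 38 b2929 .bot
def b2931 : Zd := .nd 37 b2930 .bot
def b2932 : Zd := .nd 36 b2931 .bot
def b2933 : Zd := .nd 35 b2932 .bot
def b2934 : Zd := .nd 33 b2933 .bot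
def b2935 : Zd := .nd 31 b2934 .bot
def b2936 : Zd := .nd 27 b2935 .bot
def b2937 : Zd := .nd 26 b2936 .bot
def b2938 : Zd := .nd 25 b2937 .bot
def b2939 : Zd := .nd 21 b2938 .bot
def b2940 : Zd := .nd 20 b2939 .bot
def b2941 : Zd := .nd 15 b2940 .bot
def b2942 : Zd := .nd 14 b2941 .bot
def b2943 : Zd := .nd 13 b2942 .bot
def b2944 : Zd := .nd 47 b1841 .bot
def b2945 : Zd := .nd 43 b2944 .bot
def b2946 : Zd := .nd 42 b2945 .bot
def b2947 : Zd := .nd 41 b2946 .bot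
def b2948 : Zd := .nd 40 b2947 .bot
def b2949 : Zd := .nd 39 b2948 .bot
def b2950 : Zd := .nd 38 b2949 .bot
def b2951 : Zd := .nd 37 b2950 .bot
def b2952 : Zd := .nd 36 b2951 .bot
def b2953 : Zd := .nd 35 b2952 .bot
def b2954 : Zd := .nd 32 b2953 .bot
def b2955 : Zd := .nd 30 b2954 .bot
def b2956 : Zd := .nd 28 b2955 .bot
def b2957 : Zd := .nd 27 b2956 .bot
def b2958 : Zd := .nd 26 b2957 .bot
def b2959 : Zd := .nd 25 b2958 .bot
def b2960 : Zd := .nd 21 b2959 .bot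
def b2961 : Zd := .nd 20 b2960 .bot
def b2962 : Zd := .nd 19 b2961 .bot
def b2963 : Zd := .nd 18 b2962 .bot
def b2964 : Zd := .nd 17 b2963 .bot
def b2965 : Zd := .nd 15 b2964 .bot
def b2966 : Zd := .nd 13 b2965 .bot
def b2967 : Zd := .nd 11 b2943 b2966
def b2968 : Zd := .nd 9 b2967 .bot
def b2969 : Zd := .nd 7 b2923 b2968
def b2970 : Zd := .nd 6 b2904 b2969
def b2971 : Zd := .nd 5 b2881 b2970
def b2972 : Zd := .nd 43 b1939 .bot
def b2973 : Zd := .nd 42 b2972 .bot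
def b2974 : Zd := .nd 41 b2973 .bot
def b2975 : Zd := .nd 39 b2974 .bot
def b2976 : Zd := .nd 38 b2975 .bot
def b2977 : Zd := .nd 37 b2976 .bot
def b2978 : Zd := .nd 36 b2977 .bot
def b2979 : Zd := .nd 35 b2978 .bot
def b2980 : Zd := .nd 31 b2979 .bot
def b2981 : Zd := .nd 28 b2980 .bot
def b2982 : Zd := .nd 26 b2981 .bot
def b2983 : Zd := .nd 25 b2982 .bot
def b2984 : Zd := .nd 21 b2983 .bot
def b2985 : Zd := .nd 16 b2984 .bot
def b2986 : Zd := .nd 15 b2985 .bot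
def b2987 : Zd := .nd 14 b2986 .bot
def b2988 : Zd := .nd 44 b2296 .bot
def b2989 : Zd := .nd 43 b2988 .bot
def b2990 : Zd := .nd 41 b2989 .bot
def b2991 : Zd := .nd 40 b2990 .bot
def b2992 : Zd := .nd 39 b2991 .bot
def b2993 : Zd := .nd 36 b2992 .bot
def b2994 : Zd := .nd 33 b2993 .bot
def b2995 : Zd := .nd 32 b2994 .bot
def b2996 : Zd := .nd 31 b2995 .bot
def b2997 : Zd := .nd 30 b2996 .bot
def b2998 : Zd := .nd 29 b2997 .bot
def b2999 : Zd := .nd 28 b2998 .bot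
def b3000 : Zd := .nd 24 b2999 .bot
def b3001 : Zd := .nd 20 b3000 .bot
def b3002 : Zd := .nd 19 b3001 .bot
def b3003 : Zd := .nd 15 b3002 .bot
def b3004 : Zd := .nd 14 b3003 .bot
def b3005 : Zd := .nd 11 b3004 .bot
def b3006 : Zd := .nd 7 b2987 b3005
def b3007 : Zd := .nd 45 b1050 .bot
def b3008 : Zd := .nd 44 b3007 .bot
def b3009 : Zd := .nd 43 b3008 .bot
def b3010 : Zd := .nd 40 b3009 .bot
def b3011 : Zd := .nd 39 b3010 .bot
def b3012 : Zd := .nd 37 b3011 .bot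
def b3013 : Zd := .nd 34 b3012 .bot
def b3014 : Zd := .nd 33 b3013 .bot
def b3015 : Zd := .nd 32 b3014 .bot
def b3016 : Zd := .nd 31 b3015 .bot
def b3017 : Zd := .nd 28 b3016 .bot
def b3018 : Zd := .nd 26 b3017 .bot
def b3019 : Zd := .nd 24 b3018 .bot
def b3020 : Zd := .nd 23 b3019 .bot
def b3021 : Zd := .nd 20 b3020 .bot
def b3022 : Zd := .nd 19 b3021 .bot
def b3023 : Zd := .nd 18 b3022 .bot
def b3024 : Zd := .nd 16 b3023 .bot
def b3025 : Zd := .nd 13 b3024 .bot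
def b3026 : Zd := .nd 9 b3025 .bot
def b3027 : Zd := .nd 8 b3026 .bot
def b3028 : Zd := .nd 47 b360 .bot
def b3029 : Zd := .nd 44 b3028 .bot
def b3030 : Zd := .nd 43 b3029 .bot
def b3031 : Zd := .nd 39 b3030 .bot
def b3032 : Zd := .nd 38 b3031 .bot
def b3033 : Zd := .nd 37 b3032 .bot
def b3034 : Zd := .nd 30 b3033 .bot
def b3035 : Zd := .nd 29 b3034 .bot
def b3036 : Zd := .nd 27 b3035 .bot
def b3037 : Zd := .nd 25 b3036 .bot
def b3038 : Zd := .nd 24 b3037 .bot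
def b3039 : Zd := .nd 22 b3038 .bot
def b3040 : Zd := .nd 20 b3039 .bot
def b3041 : Zd := .nd 19 b3040 .bot
def b3042 : Zd := .nd 18 b3041 .bot
def b3043 : Zd := .nd 17 b3042 .bot
def b3044 : Zd := .nd 15 b3043 .bot
def b3045 : Zd := .nd 14 b3044 .bot
def b3046 : Zd := .nd 11 b3045 .bot
def b3047 : Zd := .nd 8 b3046 .bot
def b3048 : Zd := .nd 7 b3027 b3047
def b3049 : Zd := .nd 6 b3006 b3048
def b3050 : Zd := .nd 4 b2971 b3049
def b3051 : Zd := .nd 41 b1073 b1088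
def b3052 : Zd := .nd 40 b3051 .bot
def b3053 : Zd := .nd 39 b3052 .bot
def b3054 : Zd := .nd 38 b3053 .bot
def b3055 : Zd := .nd 37 b3054 .bot
def b3056 : Zd := .nd 36 b3055 .bot
def b3057 : Zd := .nd 35 b3056 .bot
def b3058 : Zd := .nd 33 b3057 .bot
def b3059 : Zd := .nd 31 b3058 .bot
def b3060 : Zd := .nd 30 b3059 .bot
def b3061 : Zd := .nd 29 b3060 .bot
def b3062 : Zd := .nd 25 b3061 .bot
def b3063 : Zd := .nd 23 b3062 .bot
def b3064 : Zd := .nd 22 b3063 .bot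
def b3065 : Zd := .nd 21 b3064 .bot
def b3066 : Zd := .nd 20 b3065 .bot
def b3067 : Zd := .nd 16 b3066 .bot
def b3068 : Zd := .nd 14 b3067 .bot
def b3069 : Zd := .nd 13 b3068 .bot
def b3070 : Zd := .nd 11 b3069 .bot
def b3071 : Zd := .nd 9 b3070 .bot
def b3072 : Zd := .nd 8 b3071 .bot
def b3073 : Zd := .nd 47 b1820 .bot
def b3074 : Zd := .nd 45 b3073 .bot
def b3075 : Zd := .nd 44 b3074 .bot
def b3076 : Zd := .nd 41 b3075 .bot
def b3077 : Zd := .nd 38 b3076 .bot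
def b3078 : Zd := .nd 36 b3077 .bot
def b3079 : Zd := .nd 35 b3078 .bot
def b3080 : Zd := .nd 34 b3079 .bot
def b3081 : Zd := .nd 31 b3080 .bot
def b3082 : Zd := .nd 28 b3081 .bot
def b3083 : Zd := .nd 27 b3082 .bot
def b3084 : Zd := .nd 26 b3083 .bot
def b3085 : Zd := .nd 25 b3084 .bot
def b3086 : Zd := .nd 23 b3085 .bot
def b3087 : Zd := .nd 19 b3086 .bot
def b3088 : Zd := .nd 18 b3087 .bot
def b3089 : Zd := .nd 16 b3088 .bot
def b3090 : Zd := .nd 15 b3089 .bot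
def b3091 : Zd := .nd 12 b3090 .bot
def b3092 : Zd := .nd 7 b3091 .bot
def b3093 : Zd := .nd 6 b3072 b3092
def b3094 : Zd := .nd 44 b1842 .bot
def b3095 : Zd := .nd 43 b3094 .bot
def b3096 : Zd := .nd 39 b3095 .bot
def b3097 : Zd := .nd 37 b3096 .bot
def b3098 : Zd := .nd 36 b3097 .bot
def b3099 : Zd := .nd 33 b3098 .bot
def b3100 : Zd := .nd 32 b3099 .bot
def b3101 : Zd := .nd 27 b3100 .bot
def b3102 : Zd := .nd 26 b3101 .bot
def b3103 : Zd := .nd 24 b3102 .bot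
def b3104 : Zd := .nd 21 b3103 .bot
def b3105 : Zd := .nd 19 b3104 .bot
def b3106 : Zd := .nd 18 b3105 .bot
def b3107 : Zd := .nd 17 b3106 .bot
def b3108 : Zd := .nd 16 b3107 .bot
def b3109 : Zd := .nd 14 b3108 .bot
def b3110 : Zd := .nd 9 b3109 .bot
def b3111 : Zd := .nd 6 b3110 .bot
def b3112 : Zd := .nd 5 b3093 b3111
def b3113 : Zd := .nd 43 b946 .bot
def b3114 : Zd := .nd 42 b3113 .bot
def b3115 : Zd := .nd 40 b3114 .bot
def b3116 : Zd := .nd 37 b3115 .bot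
def b3117 : Zd := .nd 36 b3116 .bot
def b3118 : Zd := .nd 31 b3117 .bot
def b3119 : Zd := .nd 30 b3118 .bot
def b3120 : Zd := .nd 27 b3119 .bot
def b3121 : Zd := .nd 25 b3120 .bot
def b3122 : Zd := .nd 24 b3121 .bot
def b3123 : Zd := .nd 21 b3122 .bot
def b3124 : Zd := .nd 20 b3123 .bot
def b3125 : Zd := .nd 18 b3124 .bot
def b3126 : Zd := .nd 16 b3125 .bot
def b3127 : Zd := .nd 13 b3126 .bot
def b3128 : Zd := .nd 11 b3127 .bot
def b3129 : Zd := .nd 7 b3128 .bot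
def b3130 : Zd := .nd 42 b661 .bot
def b3131 : Zd := .nd 40 b3130 .bot
def b3132 : Zd := .nd 38 b3131 .bot
def b3133 : Zd := .nd 37 b3132 .bot
def b3134 : Zd := .nd 34 b3133 .bot
def b3135 : Zd := .nd 31 b3134 .bot
def b3136 : Zd := .nd 30 b3135 .bot
def b3137 : Zd := .nd 29 b3136 .bot
def b3138 : Zd := .nd 25 b3137 .bot
def b3139 : Zd := .nd 23 b3138 .bot
def b3140 : Zd := .nd 22 b3139 .bot
def b3141 : Zd := .nd 21 b3140 .bot
def b3142 : Zd := .nd 18 b3141 .bot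
def b3143 : Zd := .nd 17 b3142 .bot
def b3144 : Zd := .nd 48 b411 .bot
def b3145 : Zd := .nd 47 b3144 .bot
def b3146 : Zd := .nd 46 b3145 .bot
def b3147 : Zd := .nd 45 b3146 .bot
def b3148 : Zd := .nd 43 b3147 .bot
def b3149 : Zd := .nd 42 b3148 .bot
def b3150 : Zd := .nd 39 b3149 .bot
def b3151 : Zd := .nd 37 b3150 .bot
def b3152 : Zd := .nd 36 b3151 .bot
def b3153 : Zd := .nd 35 b3152 .bot
def b3154 : Zd := .nd 34 b3153 .bot
def b3155 : Zd := .nd 31 b3154 .bot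
def b3156 : Zd := .nd 29 b3155 .bot
def b3157 : Zd := .nd 28 b3156 .bot
def b3158 : Zd := .nd 25 b3157 .bot
def b3159 : Zd := .nd 24 b3158 .bot
def b3160 : Zd := .nd 23 b3159 .bot
def b3161 : Zd := .nd 21 b3160 .bot
def b3162 : Zd := .nd 20 b3161 .bot
def b3163 : Zd := .nd 48 b2 .bot
def b3164 : Zd := .nd 47 b3163 .bot
def b3165 : Zd := .nd 45 b3164 .bot
def b3166 : Zd := .nd 42 b3165 .bot
def b3167 : Zd := .nd 38 b3166 .bot
def b3168 : Zd := .nd 36 b3167 .bot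
def b3169 : Zd := .nd 35 b3168 .bot
def b3170 : Zd := .nd 34 b3169 .bot
def b3171 : Zd := .nd 33 b3170 .bot
def b3172 : Zd := .nd 32 b3171 .bot
def b3173 : Zd := .nd 31 b3172 .bot
def b3174 : Zd := .nd 30 b3173 .bot
def b3175 : Zd := .nd 28 b3174 .bot
def b3176 : Zd := .nd 24 b3175 .bot
def b3177 : Zd := .nd 23 b3176 .bot
def b3178 : Zd := .nd 48 .top .bot
def b3179 : Zd := .nd 47 b3178 .bot
def b3180 : Zd := .nd 45 b3179 .bot
def b3181 : Zd := .nd 39 b3180 .bot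
def b3182 : Zd := .nd 36 b3181 .bot
def b3183 : Zd := .nd 35 b3182 .bot
def b3184 : Zd := .nd 34 b3183 .bot
def b3185 : Zd := .nd 33 b3184 .bot
def b3186 : Zd := .nd 28 b3185 .bot
def b3187 : Zd := .nd 26 b3186 .bot
def b3188 : Zd := .nd 25 b3187 .bot
def b3189 : Zd := .nd 24 b3188 .bot
def b3190 : Zd := .nd 23 b3189 .bot
def b3191 : Zd := .nd 22 b3190 .bot
def b3192 : Zd := .nd 21 b3191 .bot
def b3193 : Zd := .nd 20 b3177 b3192
def b3194 : Zd := .nd 19 b3193 .bot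
def b3195 : Zd := .nd 18 b3162 b3194
def b3196 : Zd := .nd 46 b3163 .bot
def b3197 : Zd := .nd 45 b3196 .bot
def b3198 : Zd := .nd 43 b3197 .bot
def b3199 : Zd := .nd 42 b3198 .bot
def b3200 : Zd := .nd 38 b3199 .bot
def b3201 : Zd := .nd 36 b3200 .bot
def b3202 : Zd := .nd 35 b3201 .bot
def b3203 : Zd := .nd 34 b3202 .bot
def b3204 : Zd := .nd 32 b3203 .bot
def b3205 : Zd := .nd 30 b3204 .bot
def b3206 : Zd := .nd 29 b3205 .bot
def b3207 : Zd := .nd 28 b3206 .bot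
def b3208 : Zd := .nd 24 b3207 .bot
def b3209 : Zd := .nd 23 b3208 .bot
def b3210 : Zd := .nd 18 b3209 .bot
def b3211 : Zd := .nd 17 b3195 b3210
def b3212 : Zd := .nd 16 b3143 b3211
def b3213 : Zd := .nd 47 b380 .bot
def b3214 : Zd := .nd 46 b3213 .bot
def b3215 : Zd := .nd 44 b3214 .bot
def b3216 : Zd := .nd 41 b3215 .bot
def b3217 : Zd := .nd 40 b3216 .bot
def b3218 : Zd := .nd 38 b3217 .bot
def b3219 : Zd := .nd 36 b3218 .bot
def b3220 : Zd := .nd 34 b3219 .bot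
def b3221 : Zd := .nd 33 b3220 .bot
def b3222 : Zd := .nd 32 b3221 .bot
def b3223 : Zd := .nd 28 b3222 .bot
def b3224 : Zd := .nd 27 b3223 .bot
def b3225 : Zd := .nd 26 b3224 .bot
def b3226 : Zd := .nd 24 b3225 .bot
def b3227 : Zd := .nd 19 b3226 .bot
def b3228 : Zd := .nd 18 b3227 .bot
def b3229 : Zd := .nd 16 b3228 .bot
def b3230 : Zd := .nd 48 b168 .bot
def b3231 : Zd := .nd 47 b3230 .bot
def b3232 : Zd := .nd 46 b3231 .bot
def b3233 : Zd := .nd 45 b3232 .bot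
def b3234 : Zd := .nd 43 b3233 .bot
def b3235 : Zd := .nd 42 b3234 .bot
def b3236 : Zd := .nd 39 b3235 .bot
def b3237 : Zd := .nd 38 b3236 .bot
def b3238 : Zd := .nd 36 b3237 .bot
def b3239 : Zd := .nd 34 b3238 .bot
def b3240 : Zd := .nd 33 b3239 .bot
def b3241 : Zd := .nd 32 b3240 .bot
def b3242 : Zd := .nd 28 b3241 .bot
def b3243 : Zd := .nd 26 b3242 .bot
def b3244 : Zd := .nd 24 b3243 .bot
def b3245 : Zd := .nd 21 b3244 .bot
def b3246 : Zd := .nd 20 b3245 .bot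
def b3247 : Zd := .nd 18 b3246 .bot
def b3248 : Zd := .nd 42 b946 .bot
def b3249 : Zd := .nd 40 b3248 .bot
def b3250 : Zd := .nd 37 b3249 .bot
def b3251 : Zd := .nd 35 b3250 .bot
def b3252 : Zd := .nd 34 b3251 .bot
def b3253 : Zd := .nd 33 b3252 .bot
def b3254 : Zd := .nd 32 b3253 .bot
def b3255 : Zd := .nd 30 b3254 .bot
def b3256 : Zd := .nd 29 b3255 .bot
def b3257 : Zd := .nd 28 b3256 .bot
def b3258 : Zd := .nd 26 b3257 .bot
def b3259 : Zd := .nd 25 b3258 .bot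
def b3260 : Zd := .nd 24 b3259 .bot
def b3261 : Zd := .nd 23 b3260 .bot
def b3262 : Zd := .nd 21 b3261 .bot
def b3263 : Zd := .nd 19 b3262 .bot
def b3264 : Zd := .nd 18 b3263 .bot
def b3265 : Zd := .nd 16 b3247 b3264
def b3266 : Zd := .nd 15 b3229 b3265
def b3267 : Zd := .nd 14 b3212 b3266
def b3268 : Zd := .nd 44 b233 .bot
def b3269 : Zd := .nd 43 b3268 .bot
def b3270 : Zd := .nd 41 b3269 .bot
def b3271 : Zd := .nd 36 b3270 .bot
def b3272 : Zd := .nd 32 b3271 .bot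
def b3273 : Zd := .nd 28 b3272 .bot
def b3274 : Zd := .nd 26 b3273 .bot
def b3275 : Zd := .nd 25 b3274 .bot
def b3276 : Zd := .nd 23 b3275 .bot
def b3277 : Zd := .nd 22 b3276 .bot
def b3278 : Zd := .nd 21 b3277 .bot
def b3279 : Zd := .nd 20 b3278 .bot
def b3280 : Zd := .nd 19 b3279 .bot
def b3281 : Zd := .nd 18 b3280 .bot
def b3282 : Zd := .nd 45 b465 .bot
def b3283 : Zd := .nd 42 b3282 .bot
def b3284 : Zd := .nd 41 b3283 .bot
def b3285 : Zd := .nd 40 b3284 .bot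
def b3286 : Zd := .nd 34 b3285 .bot
def b3287 : Zd := .nd 31 b3286 .bot
def b3288 : Zd := .nd 28 b3287 .bot
def b3289 : Zd := .nd 26 b3288 .bot
def b3290 : Zd := .nd 25 b3289 .bot
def b3291 : Zd := .nd 23 b3290 .bot
def b3292 : Zd := .nd 22 b3291 .bot
def b3293 : Zd := .nd 20 b3292 .bot
def b3294 : Zd := .nd 39 b1900 .bot
def b3295 : Zd := .nd 38 b3294 .bot
def b3296 : Zd := .nd 36 b3295 .bot
def b3297 : Zd := .nd 35 b3296 .bot
def b3298 : Zd := .nd 34 b3297 .bot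
def b3299 : Zd := .nd 31 b3298 .bot
def b3300 : Zd := .nd 29 b3299 .bot
def b3301 : Zd := .nd 28 b3300 .bot
def b3302 : Zd := .nd 23 b3301 .bot
def b3303 : Zd := .nd 22 b3302 .bot
def b3304 : Zd := .nd 21 b3303 .bot
def b3305 : Zd := .nd 20 b3304 .bot
def b3306 : Zd := .nd 18 b3293 b3305
def b3307 : Zd := .nd 17 b3306 .bot
def b3308 : Zd := .nd 38 b2273 .bot
def b3309 : Zd := .nd 32 b3308 .bot
def b3310 : Zd := .nd 28 b3309 .bot
def b3311 : Zd := .nd 26 b3310 .bot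
def b3312 : Zd := .nd 23 b3311 .bot
def b3313 : Zd := .nd 22 b3312 .bot
def b3314 : Zd := .nd 20 b3313 .bot
def b3315 : Zd := .nd 19 b3314 .bot
def b3316 : Zd := .nd 47 b43 .bot
def b3317 : Zd := .nd 46 b3316 .bot
def b3318 : Zd := .nd 45 b3317 .bot
def b3319 : Zd := .nd 43 b3318 .bot
def b3320 : Zd := .nd 42 b3319 .bot
def b3321 : Zd := .nd 41 b3320 .bot
def b3322 : Zd := .nd 40 b3321 .bot
def b3323 : Zd := .nd 38 b3322 .bot
def b3324 : Zd := .nd 34 b3323 .bot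
def b3325 : Zd := .nd 32 b3324 .bot
def b3326 : Zd := .nd 26 b3325 .bot
def b3327 : Zd := .nd 23 b3326 .bot
def b3328 : Zd := .nd 48 b1820 .bot
def b3329 : Zd := .nd 45 b3328 .bot
def b3330 : Zd := .nd 43 b3329 .bot
def b3331 : Zd := .nd 42 b3330 .bot
def b3332 : Zd := .nd 39 b3331 .bot
def b3333 : Zd := .nd 38 b3332 .bot
def b3334 : Zd := .nd 37 b3333 .bot
def b3335 : Zd := .nd 36 b3334 .bot
def b3336 : Zd := .nd 34 b3335 .bot
def b3337 : Zd := .nd 31 b3336 .bot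
def b3338 : Zd := .nd 29 b3337 .bot
def b3339 : Zd := .nd 28 b3338 .bot
def b3340 : Zd := .nd 26 b3339 .bot
def b3341 : Zd := .nd 24 b3340 .bot
def b3342 : Zd := .nd 23 b3341 .bot
def b3343 : Zd := .nd 22 b3327 b3342
def b3344 : Zd := .nd 20 b3343 .bot
def b3345 : Zd := .nd 19 b3344 .bot
def b3346 : Zd := .nd 18 b3345 .bot
def b3347 : Zd := .nd 17 b3315 b3346
def b3348 : Zd := .nd 16 b3307 b3347
def b3349 : Zd := .nd 15 b3281 b3348
def b3350 : Zd := .nd 47 b656 .bot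
def b3351 : Zd := .nd 45 b3350 .bot
def b3352 : Zd := .nd 44 b3351 .bot
def b3353 : Zd := .nd 43 b3352 .bot
def b3354 : Zd := .nd 39 b3353 .bot
def b3355 : Zd := .nd 38 b3354 .bot
def b3356 : Zd := .nd 37 b3355 .bot
def b3357 : Zd := .nd 32 b3356 .bot
def b3358 : Zd := .nd 31 b3357 .bot
def b3359 : Zd := .nd 28 b3358 .bot
def b3360 : Zd := .nd 24 b3359 .bot
def b3361 : Zd := .nd 23 b3360 .bot
def b3362 : Zd := .nd 22 b3361 .bot
def b3363 : Zd := .nd 19 b3362 .bot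
def b3364 : Zd := .nd 18 b3363 .bot
def b3365 : Zd := .nd 17 b3364 .bot
def b3366 : Zd := .nd 48 b983 .bot
def b3367 : Zd := .nd 47 b3366 .bot
def b3368 : Zd := .nd 46 b3367 .bot
def b3369 : Zd := .nd 45 b3368 .bot
def b3370 : Zd := .nd 42 b3369 .bot
def b3371 : Zd := .nd 40 b3370 .bot
def b3372 : Zd := .nd 36 b3371 .bot
def b3373 : Zd := .nd 34 b3372 .bot
def b3374 : Zd := .nd 33 b3373 .bot
def b3375 : Zd := .nd 32 b3374 .bot
def b3376 : Zd := .nd 28 b3375 .bot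
def b3377 : Zd := .nd 25 b3376 .bot
def b3378 : Zd := .nd 24 b3377 .bot
def b3379 : Zd := .nd 23 b3378 .bot
def b3380 : Zd := .nd 21 b3379 .bot
def b3381 : Zd := .nd 20 b3380 .bot
def b3382 : Zd := .nd 17 b3381 .bot
def b3383 : Zd := .nd 16 b3365 b3382
def b3384 : Zd := .nd 14 b3349 b3383
def b3385 : Zd := .nd 13 b3267 b3384
def b3386 : Zd := .nd 46 b681 .bot
def b3387 : Zd := .nd 44 b3386 .bot
def b3388 : Zd := .nd 43 b3387 .bot
def b3389 : Zd := .nd 41 b3388 .bot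
def b3390 : Zd := .nd 40 b3389 .bot
def b3391 : Zd := .nd 39 b3390 .bot
def b3392 : Zd := .nd 38 b3391 .bot
def b3393 : Zd := .nd 37 b3392 .bot
def b3394 : Zd := .nd 33 b3393 .bot
def b3395 : Zd := .nd 31 b3394 .bot
def b3396 : Zd := .nd 30 b3395 .bot
def b3397 : Zd := .nd 27 b3396 .bot
def b3398 : Zd := .nd 26 b3397 .bot
def b3399 : Zd := .nd 24 b3398 .bot
def b3400 : Zd := .nd 22 b3399 .bot
def b3401 : Zd := .nd 20 b3400 .bot
def b3402 : Zd := .nd 18 b3401 .bot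
def b3403 : Zd := .nd 41 b1029 .bot
def b3404 : Zd := .nd 40 b3403 .bot
def b3405 : Zd := .nd 36 b3404 .bot
def b3406 : Zd := .nd 35 b3405 .bot
def b3407 : Zd := .nd 33 b3406 .bot
def b3408 : Zd := .nd 31 b3407 .bot
def b3409 : Zd := .nd 30 b3408 .bot
def b3410 : Zd := .nd 28 b3409 .bot
def b3411 : Zd := .nd 27 b3410 .bot
def b3412 : Zd := .nd 25 b3411 .bot
def b3413 : Zd := .nd 22 b3412 .bot
def b3414 : Zd := .nd 20 b3413 .bot
def b3415 : Zd := .nd 19 b3414 .bot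
def b3416 : Zd := .nd 48 b43 .bot
def b3417 : Zd := .nd 44 b3416 .bot
def b3418 : Zd := .nd 39 b3417 .bot
def b3419 : Zd := .nd 38 b3418 .bot
def b3420 : Zd := .nd 37 b3419 .bot
def b3421 : Zd := .nd 35 b3420 .bot
def b3422 : Zd := .nd 32 b3421 .bot
def b3423 : Zd := .nd 31 b3422 .bot
def b3424 : Zd := .nd 30 b3423 .bot
def b3425 : Zd := .nd 29 b3424 .bot
def b3426 : Zd := .nd 27 b3425 .bot
def b3427 : Zd := .nd 25 b3426 .bot
def b3428 : Zd := .nd 22 b3427 .bot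
def b3429 : Zd := .nd 20 b3428 .bot
def b3430 : Zd := .nd 19 b3429 .bot
def b3431 : Zd := .nd 18 b3415 b3430
def b3432 : Zd := .nd 17 b3402 b3431
def b3433 : Zd := .nd 46 b1028 .bot
def b3434 : Zd := .nd 40 b3433 .bot
def b3435 : Zd := .nd 38 b3434 .bot
def b3436 : Zd := .nd 37 b3435 .bot
def b3437 : Zd := .nd 36 b3436 .bot
def b3438 : Zd := .nd 33 b3437 .bot
def b3439 : Zd := .nd 32 b3438 .bot
def b3440 : Zd := .nd 28 b3439 .bot
def b3441 : Zd := .nd 27 b3440 .bot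
def b3442 : Zd := .nd 24 b3441 .bot
def b3443 : Zd := .nd 19 b3442 .bot
def b3444 : Zd := .nd 18 b3443 .bot
def b3445 : Zd := .nd 16 b3432 b3444
def b3446 : Zd := .nd 38 b3248 .bot
def b3447 : Zd := .nd 35 b3446 .bot
def b3448 : Zd := .nd 33 b3447 .bot
def b3449 : Zd := .nd 30 b3448 .bot
def b3450 : Zd := .nd 29 b3449 .bot
def b3451 : Zd := .nd 28 b3450 .bot
def b3452 : Zd := .nd 27 b3451 .bot
def b3453 : Zd := .nd 25 b3452 .bot
def b3454 : Zd := .nd 23 b3453 .bot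
def b3455 : Zd := .nd 22 b3454 .bot
def b3456 : Zd := .nd 21 b3455 .bot
def b3457 : Zd := .nd 20 b3456 .bot
def b3458 : Zd := .nd 19 b3457 .bot
def b3459 : Zd := .nd 18 b3458 .bot
def b3460 : Zd := .nd 17 b3459 .bot
def b3461 : Zd := .nd 15 b3445 b3460
def b3462 : Zd := .nd 44 b3163 .bot
def b3463 : Zd := .nd 41 b3462 .bot
def b3464 : Zd := .nd 39 b3463 .bot
def b3465 : Zd := .nd 36 b3464 .bot
def b3466 : Zd := .nd 35 b3465 .bot
def b3467 : Zd := .nd 33 b3466 .bot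
def b3468 : Zd := .nd 31 b3467 .bot
def b3469 : Zd := .nd 30 b3468 .bot
def b3470 : Zd := .nd 29 b3469 .bot
def b3471 : Zd := .nd 25 b3470 .bot
def b3472 : Zd := .nd 22 b3471 .bot
def b3473 : Zd := .nd 21 b3472 .bot
def b3474 : Zd := .nd 20 b3473 .bot
def b3475 : Zd := .nd 19 b3474 .bot
def b3476 : Zd := .nd 44 b2 .bot
def b3477 : Zd := .nd 41 b3476 .bot
def b3478 : Zd := .nd 40 b3477 .bot
def b3479 : Zd := .nd 39 b3478 .bot
def b3480 : Zd := .nd 37 b3479 .bot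
def b3481 : Zd := .nd 32 b3480 .bot
def b3482 : Zd := .nd 29 b3481 .bot
def b3483 : Zd := .nd 28 b3482 .bot
def b3484 : Zd := .nd 27 b3483 .bot
def b3485 : Zd := .nd 25 b3484 .bot
def b3486 : Zd := .nd 46 b3230 .bot
def b3487 : Zd := .nd 36 b3486 .bot
def b3488 : Zd := .nd 33 b3487 .bot
def b3489 : Zd := .nd 32 b3488 .bot
def b3490 : Zd := .nd 30 b3489 .bot
def b3491 : Zd := .nd 29 b3490 .bot
def b3492 : Zd := .nd 28 b3491 .bot
def b3493 : Zd := .nd 27 b3492 .bot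
def b3494 : Zd := .nd 25 b3493 .bot
def b3495 : Zd := .nd 24 b3485 b3494
def b3496 : Zd := .nd 44 b913 .bot
def b3497 : Zd := .nd 41 b3496 .bot
def b3498 : Zd := .nd 37 b3497 .bot
def b3499 : Zd := .nd 35 b3498 .bot
def b3500 : Zd := .nd 31 b3499 .bot
def b3501 : Zd := .nd 30 b3500 .bot
def b3502 : Zd := .nd 29 b3501 .bot
def b3503 : Zd := .nd 28 b3502 .bot
def b3504 : Zd := .nd 27 b3503 .bot
def b3505 : Zd := .nd 25 b3504 .bot
def b3506 : Zd := .nd 22 b3495 b3505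
def b3507 : Zd := .nd 20 b3506 .bot
def b3508 : Zd := .nd 46 b1372 .bot
def b3509 : Zd := .nd 44 b3508 .bot
def b3510 : Zd := .nd 38 b3509 .bot
def b3511 : Zd := .nd 37 b3510 .bot
def b3512 : Zd := .nd 36 b3511 .bot
def b3513 : Zd := .nd 35 b3512 .bot
def b3514 : Zd := .nd 33 b3513 .bot
def b3515 : Zd := .nd 31 b3514 .bot
def b3516 : Zd := .nd 30 b3515 .bot
def b3517 : Zd := .nd 29 b3516 .bot
def b3518 : Zd := .nd 28 b3517 .bot
def b3519 : Zd := .nd 27 b3518 .bot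
def b3520 : Zd := .nd 25 b3519 .bot
def b3521 : Zd := .nd 21 b3520 .bot
def b3522 : Zd := .nd 20 b3521 .bot
def b3523 : Zd := .nd 19 b3507 b3522
def b3524 : Zd := .nd 18 b3523 .bot
def b3525 : Zd := .nd 16 b3475 b3524
def b3526 : Zd := .nd 44 b1028 .bot
def b3527 : Zd := .nd 41 b3526 .bot
def b3528 : Zd := .nd 40 b3527 .bot
def b3529 : Zd := .nd 39 b3528 .bot
def b3530 : Zd := .nd 35 b3529 .bot
def b3531 : Zd := .nd 33 b3530 .bot
def b3532 : Zd := .nd 31 b3531 .bot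
def b3533 : Zd := .nd 29 b3532 .bot
def b3534 : Zd := .nd 28 b3533 .bot
def b3535 : Zd := .nd 27 b3534 .bot
def b3536 : Zd := .nd 25 b3535 .bot
def b3537 : Zd := .nd 22 b3536 .bot
def b3538 : Zd := .nd 21 b3537 .bot
def b3539 : Zd := .nd 20 b3538 .bot
def b3540 : Zd := .nd 19 b3539 .bot
def b3541 : Zd := .nd 18 b3540 .bot
def b3542 : Zd := .nd 16 b3541 .bot
def b3543 : Zd := .nd 15 b3525 b3542
def b3544 : Zd := .nd 14 b3461 b3543
def b3545 : Zd := .nd 44 b814 .bot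
def b3546 : Zd := .nd 43 b3545 .bot
def b3547 : Zd := .nd 41 b3546 .bot
def b3548 : Zd := .nd 39 b3547 .bot
def b3549 : Zd := .nd 38 b3548 .bot
def b3550 : Zd := .nd 37 b3549 .bot
def b3551 : Zd := .nd 28 b3550 .bot
def b3552 : Zd := .nd 27 b3551 .bot
def b3553 : Zd := .nd 26 b3552 .bot
def b3554 : Zd := .nd 25 b3553 .bot
def b3555 : Zd := .nd 24 b3554 .bot
def b3556 : Zd := .nd 22 b3555 .bot
def b3557 : Zd := .nd 21 b3556 .bot
def b3558 : Zd := .nd 18 b3557 .bot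
def b3559 : Zd := .nd 46 b635 .bot
def b3560 : Zd := .nd 44 b3559 .bot
def b3561 : Zd := .nd 43 b3560 .bot
def b3562 : Zd := .nd 40 b3561 .bot
def b3563 : Zd := .nd 39 b3562 .bot
def b3564 : Zd := .nd 38 b3563 .bot
def b3565 : Zd := .nd 37 b3564 .bot
def b3566 : Zd := .nd 36 b3565 .bot
def b3567 : Zd := .nd 35 b3566 .bot
def b3568 : Zd := .nd 33 b3567 .bot
def b3569 : Zd := .nd 32 b3568 .bot
def b3570 : Zd := .nd 30 b3569 .bot
def b3571 : Zd := .nd 27 b3570 .bot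
def b3572 : Zd := .nd 26 b3571 .bot
def b3573 : Zd := .nd 22 b3572 .bot
def b3574 : Zd := .nd 20 b3573 .bot
def b3575 : Zd := .nd 17 b3558 b3574
def b3576 : Zd := .nd 16 b3575 .bot
def b3577 : Zd := .nd 15 b3576 .bot
def b3578 : Zd := .nd 46 b47 .bot
def b3579 : Zd := .nd 43 b3578 .bot
def b3580 : Zd := .nd 41 b3579 .bot
def b3581 : Zd := .nd 40 b3580 .bot
def b3582 : Zd := .nd 39 b3581 .bot
def b3583 : Zd := .nd 38 b3582 .bot
def b3584 : Zd := .nd 31 b3583 .bot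
def b3585 : Zd := .nd 30 b3584 .bot
def b3586 : Zd := .nd 29 b3585 .bot
def b3587 : Zd := .nd 25 b3586 .bot
def b3588 : Zd := .nd 22 b3587 .bot
def b3589 : Zd := .nd 18 b3588 .bot
def b3590 : Zd := .nd 17 b3589 .bot
def b3591 : Zd := .nd 46 b46 .bot
def b3592 : Zd := .nd 41 b3591 .bot
def b3593 : Zd := .nd 39 b3592 .bot
def b3594 : Zd := .nd 37 b3593 .bot
def b3595 : Zd := .nd 36 b3594 .bot
def b3596 : Zd := .nd 33 b3595 .bot
def b3597 : Zd := .nd 31 b3596 .bot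
def b3598 : Zd := .nd 30 b3597 .bot
def b3599 : Zd := .nd 28 b3598 .bot
def b3600 : Zd := .nd 25 b3599 .bot
def b3601 : Zd := .nd 24 b3600 .bot
def b3602 : Zd := .nd 20 b3601 .bot
def b3603 : Zd := .nd 18 b3602 .bot
def b3604 : Zd := .nd 16 b3590 b3603
def b3605 : Zd := .nd 15 b3604 .bot
def b3606 : Zd := .nd 14 b3577 b3605
def b3607 : Zd := .nd 13 b3544 b3606
def b3608 : Zd := .nd 12 b3385 b3607
def b3609 : Zd := .nd 45 b195 .bot
def b3610 : Zd := .nd 44 b3609 .bot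
def b3611 : Zd := .nd 41 b3610 .bot
def b3612 : Zd := .nd 40 b3611 .bot
def b3613 : Zd := .nd 39 b3612 .bot
def b3614 : Zd := .nd 38 b3613 .bot
def b3615 : Zd := .nd 34 b3614 .bot
def b3616 : Zd := .nd 33 b3615 .bot
def b3617 : Zd := .nd 31 b3616 .bot
def b3618 : Zd := .nd 30 b3617 .bot
def b3619 : Zd := .nd 29 b3618 .bot
def b3620 : Zd := .nd 27 b3619 .bot
def b3621 : Zd := .nd 26 b3620 .bot
def b3622 : Zd := .nd 25 b3621 .bot
def b3623 : Zd := .nd 23 b3622 .bot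
def b3624 : Zd := .nd 20 b3623 .bot
def b3625 : Zd := .nd 19 b3624 .bot
def b3626 : Zd := .nd 18 b3625 .bot
def b3627 : Zd := .nd 16 b3626 .bot
def b3628 : Zd := .nd 44 b1844 .bot
def b3629 : Zd := .nd 42 b3628 .bot
def b3630 : Zd := .nd 39 b3629 .bot
def b3631 : Zd := .nd 35 b3630 .bot
def b3632 : Zd := .nd 34 b3631 .bot
def b3633 : Zd := .nd 33 b3632 .bot
def b3634 : Zd := .nd 31 b3633 .bot
def b3635 : Zd := .nd 30 b3634 .bot
def b3636 : Zd := .nd 29 b3635 .bot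
def b3637 : Zd := .nd 26 b3636 .bot
def b3638 : Zd := .nd 24 b3637 .bot
def b3639 : Zd := .nd 22 b3638 .bot
def b3640 : Zd := .nd 21 b3639 .bot
def b3641 : Zd := .nd 19 b3640 .bot
def b3642 : Zd := .nd 42 b2178 .bot
def b3643 : Zd := .nd 41 b3642 .bot
def b3644 : Zd := .nd 40 b3643 .bot
def b3645 : Zd := .nd 34 b3644 .bot
def b3646 : Zd := .nd 32 b3645 .bot
def b3647 : Zd := .nd 30 b3646 .bot
def b3648 : Zd := .nd 29 b3647 .bot
def b3649 : Zd := .nd 26 b3648 .bot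
def b3650 : Zd := .nd 25 b3649 .bot
def b3651 : Zd := .nd 23 b3650 .bot
def b3652 : Zd := .nd 22 b3651 .bot
def b3653 : Zd := .nd 21 b3652 .bot
def b3654 : Zd := .nd 37 b3321 .bot
def b3655 : Zd := .nd 34 b3654 .bot
def b3656 : Zd := .nd 32 b3655 .bot
def b3657 : Zd := .nd 30 b3656 .bot
def b3658 : Zd := .nd 24 b3657 .bot
def b3659 : Zd := .nd 23 b3658 .bot
def b3660 : Zd := .nd 22 b3659 .bot
def b3661 : Zd := .nd 20 b3653 b3660
def b3662 : Zd := .nd 18 b3641 b3661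
def b3663 : Zd := .nd 47 b589 .bot
def b3664 : Zd := .nd 46 b3663 .bot
def b3665 : Zd := .nd 45 b3664 .bot
def b3666 : Zd := .nd 44 b3665 .bot
def b3667 : Zd := .nd 42 b3666 .bot
def b3668 : Zd := .nd 38 b3667 .bot
def b3669 : Zd := .nd 37 b3668 .bot
def b3670 : Zd := .nd 34 b3669 .bot
def b3671 : Zd := .nd 30 b3670 .bot
def b3672 : Zd := .nd 29 b3671 .bot
def b3673 : Zd := .nd 26 b3672 .bot
def b3674 : Zd := .nd 25 b3673 .bot
def b3675 : Zd := .nd 23 b3674 .bot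
def b3676 : Zd := .nd 22 b3675 .bot
def b3677 : Zd := .nd 21 b3676 .bot
def b3678 : Zd := .nd 18 b3677 .bot
def b3679 : Zd := .nd 17 b3662 b3678
def b3680 : Zd := .nd 47 b137 .bot
def b3681 : Zd := .nd 46 b3680 .bot
def b3682 : Zd := .nd 45 b3681 .bot
def b3683 : Zd := .nd 43 b3682 .bot
def b3684 : Zd := .nd 41 b3683 .bot
def b3685 : Zd := .nd 40 b3684 .bot
def b3686 : Zd := .nd 39 b3685 .bot
def b3687 : Zd := .nd 32 b3686 .bot
def b3688 : Zd := .nd 30 b3687 .bot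
def b3689 : Zd := .nd 26 b3688 .bot
def b3690 : Zd := .nd 25 b3689 .bot
def b3691 : Zd := .nd 23 b3690 .bot
def b3692 : Zd := .nd 19 b3691 .bot
def b3693 : Zd := .nd 45 b1843 .bot
def b3694 : Zd := .nd 42 b3693 .bot
def b3695 : Zd := .nd 40 b3694 .bot
def b3696 : Zd := .nd 37 b3695 .bot
def b3697 : Zd := .nd 36 b3696 .bot
def b3698 : Zd := .nd 35 b3697 .bot
def b3699 : Zd := .nd 34 b3698 .bot
def b3700 : Zd := .nd 31 b3699 .bot
def b3701 : Zd := .nd 30 b3700 .bot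
def b3702 : Zd := .nd 29 b3701 .bot
def b3703 : Zd := .nd 25 b3702 .bot
def b3704 : Zd := .nd 23 b3703 .bot
def b3705 : Zd := .nd 22 b3704 .bot
def b3706 : Zd := .nd 21 b3705 .bot
def b3707 : Zd := .nd 19 b3706 .bot
def b3708 : Zd := .nd 18 b3692 b3707
def b3709 : Zd := .nd 17 b3708 .bot
def b3710 : Zd := .nd 16 b3679 b3709
def b3711 : Zd := .nd 15 b3627 b3710
def b3712 : Zd := .nd 45 b294 .bot
def b3713 : Zd := .nd 40 b3712 .bot
def b3714 : Zd := .nd 38 b3713 .bot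
def b3715 : Zd := .nd 36 b3714 .bot
def b3716 : Zd := .nd 35 b3715 .bot
def b3717 : Zd := .nd 34 b3716 .bot
def b3718 : Zd := .nd 33 b3717 .bot
def b3719 : Zd := .nd 32 b3718 .bot
def b3720 : Zd := .nd 30 b3719 .bot
def b3721 : Zd := .nd 29 b3720 .bot
def b3722 : Zd := .nd 26 b3721 .bot
def b3723 : Zd := .nd 24 b3722 .bot
def b3724 : Zd := .nd 23 b3723 .bot
def b3725 : Zd := .nd 22 b3724 .bot
def b3726 : Zd := .nd 21 b3725 .bot
def b3727 : Zd := .nd 19 b3726 .bot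
def b3728 : Zd := .nd 16 b3727 .bot
def b3729 : Zd := .nd 14 b3711 b3728
def b3730 : Zd := .nd 46 b381 .bot
def b3731 : Zd := .nd 45 b3730 .bot
def b3732 : Zd := .nd 44 b3731 .bot
def b3733 : Zd := .nd 40 b3732 .bot
def b3734 : Zd := .nd 39 b3733 .bot
def b3735 : Zd := .nd 37 b3734 .bot
def b3736 : Zd := .nd 36 b3735 .bot
def b3737 : Zd := .nd 32 b3736 .bot
def b3738 : Zd := .nd 31 b3737 .bot
def b3739 : Zd := .nd 28 b3738 .bot
def b3740 : Zd := .nd 27 b3739 .bot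
def b3741 : Zd := .nd 26 b3740 .bot
def b3742 : Zd := .nd 25 b3741 .bot
def b3743 : Zd := .nd 23 b3742 .bot
def b3744 : Zd := .nd 22 b3743 .bot
def b3745 : Zd := .nd 20 b3744 .bot
def b3746 : Zd := .nd 19 b3745 .bot
def b3747 : Zd := .nd 18 b3746 .bot
def b3748 : Zd := .nd 16 b3747 .bot
def b3749 : Zd := .nd 46 b1080 .bot
def b3750 : Zd := .nd 45 b3749 .bot
def b3751 : Zd := .nd 43 b3750 .bot
def b3752 : Zd := .nd 42 b3751 .bot
def b3753 : Zd := .nd 41 b3752 .bot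
def b3754 : Zd := .nd 39 b3753 .bot
def b3755 : Zd := .nd 37 b3754 .bot
def b3756 : Zd := .nd 34 b3755 .bot
def b3757 : Zd := .nd 28 b3756 .bot
def b3758 : Zd := .nd 26 b3757 .bot
def b3759 : Zd := .nd 25 b3758 .bot
def b3760 : Zd := .nd 24 b3759 .bot
def b3761 : Zd := .nd 23 b3760 .bot
def b3762 : Zd := .nd 22 b3761 .bot
def b3763 : Zd := .nd 50 .top .bot
def b3764 : Zd := .nd 47 b3763 .bot
def b3765 : Zd := .nd 46 b3764 .bot
def b3766 : Zd := .nd 42 b3765 .bot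
def b3767 : Zd := .nd 41 b3766 .bot
def b3768 : Zd := .nd 40 b3767 .bot
def b3769 : Zd := .nd 39 b3768 .bot
def b3770 : Zd := .nd 38 b3769 .bot
def b3771 : Zd := .nd 37 b3770 .bot
def b3772 : Zd := .nd 34 b3771 .bot
def b3773 : Zd := .nd 32 b3772 .bot
def b3774 : Zd := .nd 31 b3773 .bot
def b3775 : Zd := .nd 29 b3774 .bot
def b3776 : Zd := .nd 26 b3775 .bot
def b3777 : Zd := .nd 25 b3776 .bot
def b3778 : Zd := .nd 23 b3777 .bot
def b3779 : Zd := .nd 21 b3778 .bot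
def b3780 : Zd := .nd 20 b3779 .bot
def b3781 : Zd := .nd 17 b3762 b3780
def b3782 : Zd := .nd 16 b3781 .bot
def b3783 : Zd := .nd 15 b3748 b3782
def b3784 : Zd := .nd 45 b3680 .bot
def b3785 : Zd := .nd 44 b3784 .bot
def b3786 : Zd := .nd 42 b3785 .bot
def b3787 : Zd := .nd 41 b3786 .bot
def b3788 : Zd := .nd 39 b3787 .bot
def b3789 : Zd := .nd 34 b3788 .bot
def b3790 : Zd := .nd 32 b3789 .bot
def b3791 : Zd := .nd 28 b3790 .bot
def b3792 : Zd := .nd 26 b3791 .bot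
def b3793 : Zd := .nd 24 b3792 .bot
def b3794 : Zd := .nd 20 b3793 .bot
def b3795 : Zd := .nd 19 b3794 .bot
def b3796 : Zd := .nd 17 b3795 .bot
def b3797 : Zd := .nd 16 b3796 .bot
def b3798 : Zd := .nd 14 b3783 b3797
def b3799 : Zd := .nd 13 b3729 b3798
def b3800 : Zd := .nd 44 b2271 .bot
def b3801 : Zd := .nd 43 b3800 .bot
def b3802 : Zd := .nd 41 b3801 .bot
def b3803 : Zd := .nd 40 b3802 .bot
def b3804 : Zd := .nd 39 b3803 .bot
def b3805 : Zd := .nd 37 b3804 .bot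
def b3806 : Zd := .nd 27 b3805 .bot
def b3807 : Zd := .nd 26 b3806 .bot
def b3808 : Zd := .nd 25 b3807 .bot
def b3809 : Zd := .nd 24 b3808 .bot
def b3810 : Zd := .nd 22 b3809 .bot
def b3811 : Zd := .nd 21 b3810 .bot
def b3812 : Zd := .nd 20 b3811 .bot
def b3813 : Zd := .nd 17 b3812 .bot
def b3814 : Zd := .nd 43 b3476 .bot
def b3815 : Zd := .nd 40 b3814 .bot
def b3816 : Zd := .nd 38 b3815 .bot
def b3817 : Zd := .nd 37 b3816 .bot
def b3818 : Zd := .nd 35 b3817 .bot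
def b3819 : Zd := .nd 33 b3818 .bot
def b3820 : Zd := .nd 32 b3819 .bot
def b3821 : Zd := .nd 30 b3820 .bot
def b3822 : Zd := .nd 28 b3821 .bot
def b3823 : Zd := .nd 27 b3822 .bot
def b3824 : Zd := .nd 26 b3823 .bot
def b3825 : Zd := .nd 24 b3824 .bot
def b3826 : Zd := .nd 22 b3825 .bot
def b3827 : Zd := .nd 21 b3826 .bot
def b3828 : Zd := .nd 19 b3827 .bot
def b3829 : Zd := .nd 38 b3196 .bot
def b3830 : Zd := .nd 37 b3829 .bot
def b3831 : Zd := .nd 36 b3830 .bot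
def b3832 : Zd := .nd 32 b3831 .bot
def b3833 : Zd := .nd 30 b3832 .bot
def b3834 : Zd := .nd 29 b3833 .bot
def b3835 : Zd := .nd 28 b3834 .bot
def b3836 : Zd := .nd 27 b3835 .bot
def b3837 : Zd := .nd 25 b3836 .bot
def b3838 : Zd := .nd 24 b3837 .bot
def b3839 : Zd := .nd 20 b3838 .bot
def b3840 : Zd := .nd 19 b3839 .bot
def b3841 : Zd := .nd 18 b3840 .bot
def b3842 : Zd := .nd 17 b3828 b3841
def b3843 : Zd := .nd 16 b3813 b3842
def b3844 : Zd := .nd 44 b1223 .bot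
def b3845 : Zd := .nd 42 b3844 .bot
def b3846 : Zd := .nd 39 b3845 .bot
def b3847 : Zd := .nd 37 b3846 .bot
def b3848 : Zd := .nd 36 b3847 .bot
def b3849 : Zd := .nd 35 b3848 .bot
def b3850 : Zd := .nd 31 b3849 .bot
def b3851 : Zd := .nd 30 b3850 .bot
def b3852 : Zd := .nd 29 b3851 .bot
def b3853 : Zd := .nd 28 b3852 .bot
def b3854 : Zd := .nd 26 b3853 .bot
def b3855 : Zd := .nd 24 b3854 .bot
def b3856 : Zd := .nd 23 b3855 .bot
def b3857 : Zd := .nd 21 b3856 .bot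
def b3858 : Zd := .nd 18 b3857 .bot
def b3859 : Zd := .nd 38 b1211 .bot
def b3860 : Zd := .nd 36 b3859 .bot
def b3861 : Zd := .nd 35 b3860 .bot
def b3862 : Zd := .nd 33 b3861 .bot
def b3863 : Zd := .nd 31 b3862 .bot
def b3864 : Zd := .nd 30 b3863 .bot
def b3865 : Zd := .nd 29 b3864 .bot
def b3866 : Zd := .nd 28 b3865 .bot
def b3867 : Zd := .nd 27 b3866 .bot
def b3868 : Zd := .nd 25 b3867 .bot
def b3869 : Zd := .nd 21 b3868 .bot
def b3870 : Zd := .nd 20 b3869 .bot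
def b3871 : Zd := .nd 19 b3870 .bot
def b3872 : Zd := .nd 18 b3871 .bot
def b3873 : Zd := .nd 17 b3858 b3872
def b3874 : Zd := .nd 16 b3873 .bot
def b3875 : Zd := .nd 15 b3843 b3874
def b3876 : Zd := .nd 109 .top .bot
def b3877 : Zd := .nd 108 b3876 .bot
def b3878 : Zd := .nd 107 b3877 .bot
def b3879 : Zd := .nd 106 b3878 .bot
def b3880 : Zd := .nd 105 b3879 .bot
def b3881 : Zd := .nd 104 b3880 .bot
def b3882 : Zd := .nd 101 b3881 .bot
def b3883 : Zd := .nd 100 b3882 .bot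
def b3884 : Zd := .nd 98 b3883 .bot
def b3885 : Zd := .nd 97 b3884 .bot
def b3886 : Zd := .nd 94 b3885 .bot
def b3887 : Zd := .nd 93 b3886 .bot
def b3888 : Zd := .nd 92 b3887 .bot
def b3889 : Zd := .nd 89 b3888 .bot
def b3890 : Zd := .nd 88 b3889 .bot
def b3891 : Zd := .nd 87 b3890 .bot
def b3892 : Zd := .nd 84 b3891 .bot
def b3893 : Zd := .nd 83 b3892 .bot
def b3894 : Zd := .nd 82 b3893 .bot
def b3895 : Zd := .nd 81 b3894 .bot
def b3896 : Zd := .nd 79 b3895 .bot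
def b3897 : Zd := .nd 77 b3896 .bot
def b3898 : Zd := .nd 76 b3897 .bot
def b3899 : Zd := .nd 75 b3898 .bot
def b3900 : Zd := .nd 74 b3899 .bot
def b3901 : Zd := .nd 73 b3900 .bot
def b3902 : Zd := .nd 72 b3901 .bot
def b3903 : Zd := .nd 71 b3902 .bot
def b3904 : Zd := .nd 69 b3903 .bot
def b3905 : Zd := .nd 67 b3904 .bot
def b3906 : Zd := .nd 66 b3905 .bot
def b3907 : Zd := .nd 65 b3906 .bot
def b3908 : Zd := .nd 64 b3907 .bot
def b3909 : Zd := .nd 63 b3908 .bot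
def b3910 : Zd := .nd 61 b3909 .bot
def b3911 : Zd := .nd 60 b3910 .bot
def b3912 : Zd := .nd 58 b3911 .bot
def b3913 : Zd := .nd 56 b3912 .bot
def b3914 : Zd := .nd 53 b3913 .bot
def b3915 : Zd := .nd 52 b3914 .bot
def b3916 : Zd := .nd 50 b3915 .bot
def b3917 : Zd := .nd 49 b3916 .bot
def b3918 : Zd := .nd 48 b3917 .bot
def b3919 : Zd := .nd 44 b3918 .bot
def b3920 : Zd := .nd 42 b3919 .bot
def b3921 : Zd := .nd 41 b3920 .bot
def b3922 : Zd := .nd 39 b3921 .bot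
def b3923 : Zd := .nd 38 b3922 .bot
def b3924 : Zd := .nd 37 b3923 .bot
def b3925 : Zd := .nd 44 b2078 .bot
def b3926 : Zd := .nd 43 b3925 .bot
def b3927 : Zd := .nd 42 b3926 .bot
def b3928 : Zd := .nd 41 b3927 .bot
def b3929 : Zd := .nd 40 b3928 .bot
def b3930 : Zd := .nd 39 b3929 .bot
def b3931 : Zd := .nd 38 b3930 .bot
def b3932 : Zd := .nd 37 b3931 .bot
def b3933 : Zd := .nd 35 b3932 .bot
def b3934 : Zd := .nd 34 b3924 b3933
def b3935 : Zd := .nd 33 b3934 .bot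
def b3936 : Zd := .nd 31 b3935 .bot
def b3937 : Zd := .nd 30 b3936 .bot
def b3938 : Zd := .nd 29 b3937 .bot
def b3939 : Zd := .nd 27 b3938 .bot
def b3940 : Zd := .nd 24 b3939 .bot
def b3941 : Zd := .nd 21 b3940 .bot
def b3942 : Zd := .nd 108 .top .bot
def b3943 : Zd := .nd 106 b3942 .bot
def b3944 : Zd := .nd 104 b3943 .bot
def b3945 : Zd := .nd 103 b3944 .bot
def b3946 : Zd := .nd 102 b3945 .bot
def b3947 : Zd := .nd 100 b3946 .bot
def b3948 : Zd := .nd 96 b3947 .bot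
def b3949 : Zd := .nd 95 b3948 .bot
def b3950 : Zd := .nd 94 b3949 .bot
def b3951 : Zd := .nd 93 b3950 .bot
def b3952 : Zd := .nd 88 b3951 .bot
def b3953 : Zd := .nd 86 b3952 .bot
def b3954 : Zd := .nd 83 b3953 .bot
def b3955 : Zd := .nd 81 b3954 .bot
def b3956 : Zd := .nd 79 b3955 .bot
def b3957 : Zd := .nd 78 b3956 .bot
def b3958 : Zd := .nd 75 b3957 .bot
def b3959 : Zd := .nd 74 b3958 .bot
def b3960 : Zd := .nd 73 b3959 .bot
def b3961 : Zd := .nd 71 b3960 .bot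
def b3962 : Zd := .nd 69 b3961 .bot
def b3963 : Zd := .nd 68 b3962 .bot
def b3964 : Zd := .nd 67 b3963 .bot
def b3965 : Zd := .nd 63 b3964 .bot
def b3966 : Zd := .nd 62 b3965 .bot
def b3967 : Zd := .nd 60 b3966 .bot
def b3968 : Zd := .nd 58 b3967 .bot
def b3969 : Zd := .nd 55 b3968 .bot
def b3970 : Zd := .nd 53 b3969 .bot
def b3971 : Zd := .nd 52 b3970 .bot
def b3972 : Zd := .nd 49 b3971 .bot
def b3973 : Zd := .nd 48 b3972 .bot
def b3974 : Zd := .nd 44 b3973 .bot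
def b3975 : Zd := .nd 41 b3974 .bot
def b3976 : Zd := .nd 40 b3975 .bot
def b3977 : Zd := .nd 38 b3976 .bot
def b3978 : Zd := .nd 36 b3977 .bot
def b3979 : Zd := .nd 33 b3978 .bot
def b3980 : Zd := .nd 31 b3979 .bot
def b3981 : Zd := .nd 30 b3980 .bot
def b3982 : Zd := .nd 29 b3981 .bot
def b3983 : Zd := .nd 27 b3982 .bot
def b3984 : Zd := .nd 21 b3983 .bot
def b3985 : Zd := .nd 17 b3941 b3984
def b3986 : Zd := .nd 16 b3985 .bot
def b3987 : Zd := .nd 39 b2825 .bot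
def b3988 : Zd := .nd 38 b3987 .bot
def b3989 : Zd := .nd 37 b3988 .bot
def b3990 : Zd := .nd 36 b3989 .bot
def b3991 : Zd := .nd 33 b3990 .bot
def b3992 : Zd := .nd 32 b3991 .bot
def b3993 : Zd := .nd 31 b3992 .bot
def b3994 : Zd := .nd 30 b3993 .bot
def b3995 : Zd := .nd 29 b3994 .bot
def b3996 : Zd := .nd 28 b3995 .bot
def b3997 : Zd := .nd 25 b3996 .bot
def b3998 : Zd := .nd 24 b3997 .bot
def b3999 : Zd := .nd 21 b3998 .bot
def b4000 : Zd := .nd 20 b3999 .bot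
def b4001 : Zd := .nd 19 b4000 .bot
def b4002 : Zd := .nd 18 b4001 .bot
def b4003 : Zd := .nd 15 b3986 b4002
def b4004 : Zd := .nd 14 b3875 b4003
def b4005 : Zd := .nd 44 b615 .bot
def b4006 : Zd := .nd 43 b4005 .bot
def b4007 : Zd := .nd 40 b4006 .bot
def b4008 : Zd := .nd 38 b4007 .bot
def b4009 : Zd := .nd 37 b4008 .bot
def b4010 : Zd := .nd 36 b4009 .bot
def b4011 : Zd := .nd 33 b4010 .bot
def b4012 : Zd := .nd 32 b4011 .bot
def b4013 : Zd := .nd 31 b4012 .bot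
def b4014 : Zd := .nd 28 b4013 .bot
def b4015 : Zd := .nd 27 b4014 .bot
def b4016 : Zd := .nd 26 b4015 .bot
def b4017 : Zd := .nd 24 b4016 .bot
def b4018 : Zd := .nd 20 b4017 .bot
def b4019 : Zd := .nd 17 b4018 .bot
def b4020 : Zd := .nd 46 b2295 .bot
def b4021 : Zd := .nd 44 b4020 .bot
def b4022 : Zd := .nd 43 b4021 .bot
def b4023 : Zd := .nd 39 b4022 .bot
def b4024 : Zd := .nd 38 b4023 .bot
def b4025 : Zd := .nd 37 b4024 .bot
def b4026 : Zd := .nd 35 b4025 .bot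
def b4027 : Zd := .nd 32 b4026 .bot
def b4028 : Zd := .nd 30 b4027 .bot
def b4029 : Zd := .nd 28 b4028 .bot
def b4030 : Zd := .nd 27 b4029 .bot
def b4031 : Zd := .nd 26 b4030 .bot
def b4032 : Zd := .nd 25 b4031 .bot
def b4033 : Zd := .nd 21 b4032 .bot
def b4034 : Zd := .nd 20 b4033 .bot
def b4035 : Zd := .nd 18 b4034 .bot
def b4036 : Zd := .nd 17 b4035 .bot
def b4037 : Zd := .nd 16 b4019 b4036
def b4038 : Zd := .nd 15 b4037 .bot
def b4039 : Zd := .nd 14 b4038 .bot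
def b4040 : Zd := .nd 13 b4004 b4039
def b4041 : Zd := .nd 12 b3799 b4040
def b4042 : Zd := .nd 11 b3608 b4041
def b4043 : Zd := .nd 5 b3129 b4042
def b4044 : Zd := .nd 4 b3112 b4043
def b4045 : Zd := .nd 3 b3050 b4044
def b4046 : Zd := .nd 2 b2792 b4045
def b4047 : Zd := .nd 1 b2177 b4046
def b4048 : Zd := .nd 0 b1435 b4047

def zB : Zd := b4048

end Pool.Agent.OD66.F21
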