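import Pool.Agent.Lib.OD.F21E
import Pool.Agent.Lib.OD.F21A
import Pool.Agent.Lib.OD.F21B

set_option autoImplicit false

namespace Pool.Agent.OD66.F21

open J3

theorem ckA0 : chk zA zB 10 (wd zA) (sl zA) 0 false = true := by
  decide +kernel

theorem ckA1 : chk zA zB 10 (wd zA) (sl zA) 1 false = true := by
  decide +kernel

theorem ckA2 : chk zA zB 10 (wd zA) (sl zA) 2 false = true := by
  decide +kernel

theorem ckA3 : chk zA zB 10 (wd zA) (sl zA) 3 false = true := by
  decide +kernel

theorem ckA4 : chk zA zB 10 (wd zA) (sl zA) 4 false = true := by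
  decide +kernel

theorem ckA5 : chk zA zB 10 (wd zA) (sl zA) 5 false = true := by
  decide +kernel

theorem ckA6 : chk zA zB 10 (wd zA) (sl zA) 6 false = true := by
  decide +kernel

theorem ckA7 : chk zA zB 10 (wd zA) (sl zA) 7 false = true := by
  decide +kernel

theorem ckA8 : chk zA zB 10 (wd zA) (sl zA) 8 false = true := by
  decide +kernel

theorem ckA9 : chk zA zB 10 (wd zA) (sl zA) 9 false = true := by
  decide +kernel

theorem ckA10 : chk zA zB 10 (wd zA) (sl zA) 10 false = true := by
  decide +kernel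

theorem ckA : ∀ t, t < 11 → chk zA zB 10 (wd zA) (sl zA) t false = true := by
  intro t ht
  interval_cases t
  exacts [ckA0, ckA1, ckA2, ckA3, ckA4, ckA5, ckA6, ckA7, ckA8, ckA9, ckA10]

theorem ckD1 : chkF 10 (wd zA) (sl zA) 1 false = true := by
  decide +kernel

theorem ckD2 : chkF 10 (wd zA) (sl zA) 2 false = true := by
  decide +kernel

theorem ckD3 : chkF 10 (wd zA) (sl zA) 3 false = true := by
  decide +kernel

theorem ckD4 : chkF 10 (wd zA) (sl zA) 4 false = true := by
  decide +kernel

theorem ckD5 : chkF 10 (wd zA) (sl zA) 5 false = true := by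
  decide +kernel

theorem ckD6 : chkF 10 (wd zA) (sl zA) 6 false = true := by
  decide +kernel

theorem ckD7 : chkF 10 (wd zA) (sl zA) 7 false = true := by
  decide +kernel

theorem ckD8 : chkF 10 (wd zA) (sl zA) 8 false = true := by
  decide +kernel

theorem ckD9 : chkF 10 (wd zA) (sl zA) 9 false = true := by
  decide +kernel

theorem ckD10 : chkF 10 (wd zA) (sl zA) 10 false = true := by
  decide +kernel

theorem ckD : ∀ t, t < 11 → t ≠ 0 → chkF 10 (wd zA) (sl zA) t false = true := by
  intro t ht h0
  have : 1 ≤ t := by omega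
  interval_cases t
  exacts [ckD1, ckD2, ckD3, ckD4, ckD5, ckD6, ckD7, ckD8, ckD9, ckD10]

end Pool.Agent.OD66.F21
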