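import Pool.Agent.Lib.OD.F21E
import Pool.Agent.Lib.OD.F21A
import Pool.Agent.Lib.OD.F21B

set_option autoImplicit false

namespace Pool.Agent.OD66.F21

open J3

theorem ckB0 : chk zA zB 8 (wd zB) (sl zB) 0 true = true := by
  decide +kernel

theorem ckB1 : chk zA zB 8 (wd zB) (sl zB) 1 true = true := by
  decide +kernel

theorem ckB2 : chk zA zB 8 (wd zB) (sl zB) 2 true = true := by
  decide +kernel

theorem ckB3 : chk zA zB 8 (wd zB) (sl zB) 3 true = true := by
  decide +kernel

theorem ckB4 : chk zA zB 8 (wd zB) (sl zB) 4 true = true := by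
  decide +kernel

theorem ckB5 : chk zA zB 8 (wd zB) (sl zB) 5 true = true := by
  decide +kernel

theorem ckB6 : chk zA zB 8 (wd zB) (sl zB) 6 true = true := by
  decide +kernel

theorem ckB7 : chk zA zB 8 (wd zB) (sl zB) 7 true = true := by
  decide +kernel

theorem ckB8 : chk zA zB 8 (wd zB) (sl zB) 8 true = true := by
  decide +kernel

theorem ckB9 : chk zA zB 8 (wd zB) (sl zB) 9 true = true := by
  decide +kernel

theorem ckB10 : chk zA zB 8 (wd zB) (sl zB) 10 true = true := by
  decide +kernel

theorem ckB : ∀ t, t < 11 → chk zA zB 8 (wd zB) (sl zB) t true = true := by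
  intro t ht
  interval_cases t
  exacts [ckB0, ckB1, ckB2, ckB3, ckB4, ckB5, ckB6, ckB7, ckB8, ckB9, ckB10]

end Pool.Agent.OD66.F21
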