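import Pool.Agent.Lib.OD.F21E
import Pool.Agent.Lib.OD.F21A
import Pool.Agent.Lib.OD.F21B

set_option autoImplicit false

namespace Pool.Agent.OD66.F21

open J3

theorem ckE1 : chkF 8 (wd zB) (sl zB) 1 true = true := by
  decide +kernel

theorem ckE2 : chkF 8 (wd zB) (sl zB) 2 true = true := by
  decide +kernel

theorem ckE3 : chkF 8 (wd zB) (sl zB) 3 true = true := by
  decide +kernel

theorem ckE4 : chkF 8 (wd zB) (sl zB) 4 true = true := by
  decide +kernel

theorem ckE5 : chkF 8 (wd zB) (sl zB) 5 true = true := by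
  decide +kernel

theorem ckE6 : chkF 8 (wd zB) (sl zB) 6 true = true := by
  decide +kernel

theorem ckE7 : chkF 8 (wd zB) (sl zB) 7 true = true := by
  decide +kernel

theorem ckE8 : chkF 8 (wd zB) (sl zB) 8 true = true := by
  decide +kernel

theorem ckE9 : chkF 8 (wd zB) (sl zB) 9 true = true := by
  decide +kernel

theorem ckE10 : chkF 8 (wd zB) (sl zB) 10 true = true := by
  decide +kernel

theorem ckE : ∀ t, t < 11 → t ≠ 0 → chkF 8 (wd zB) (sl zB) t true = true := by
  intro t ht h0
  have : 1 ≤ t := by omega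
  interval_cases t
  exacts [ckE1, ckE2, ckE3, ckE4, ckE5, ckE6, ckE7, ckE8, ckE9, ckE10]

end Pool.Agent.OD66.F21
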