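import Pool.Agent.Lib.OD.F21E
import Pool.Agent.Lib.OD.F21A
import Pool.Agent.Lib.OD.F21B

set_option autoImplicit false

namespace Pool.Agent.OD66.F21

open J3

theorem ckC1_0 : ([0, 2, 3, 4, 5].all fun u => chk zA zB 7 5776 (ini 1) u true) = true := by
  decide +kernel

theorem ckC1_1 : ([6, 7, 8, 9, 10].all fun u => chk zA zB 7 5776 (ini 1) u true) = true := by
  decide +kernel

theorem ckC10_0 : ([0, 1, 2, 3, 4].all fun u => chk zA zB 7 5776 (ini 10) u true) = true := by
  decide +kernel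

theorem ckC10_1 : ([5, 6, 7, 8, 9].all fun u => chk zA zB 7 5776 (ini 10) u true) = true := by
  decide +kernel

theorem ckC_of {t : ℕ} {l1 l2 : List ℕ}
    (h1 : (l1.all fun u => chk zA zB 7 5776 (ini t) u true) = true)
    (h2 : (l2.all fun u => chk zA zB 7 5776 (ini t) u true) = true)
    (h : ∀ u, u < 11 → u ≠ t → u ∈ l1 ∨ u ∈ l2) :
    ∀ u, u < 11 → u ≠ t → chk zA zB 7 5776 (ini t) u true = true := fun u hu hne =>
  (h u hu hne).elim (List.all_eq_true.1 h1 u) (List.all_eq_true.1 h2 u)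

theorem ckC : ∀ t, t = 1 ∨ t = 10 → ∀ u, u < 11 → u ≠ t →
    chk zA zB 7 5776 (ini t) u true = true := by
  rintro t (rfl | rfl)
  · exact ckC_of ckC1_0 ckC1_1 (by decide)
  · exact ckC_of ckC10_0 ckC10_1 (by decide)

end Pool.Agent.OD66.F21
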