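import Pool.Agent.Lib.OD.Blue
import Pool.Agent.Lib.OD.F21C1
import Pool.Agent.Lib.OD.F21C2
import Pool.Agent.Lib.OD.F21C3
import Pool.Agent.Lib.OD.F21C4

set_option autoImplicit false

namespace Pool.Agent.OD66

theorem blk_F21z : St_F21 := fun z2 z1 y1 L hT hz h0 hne hu e =>
  F21.m2_of F21.ckA F21.ckB F21.ckC F21.ckD F21.ckE z2 z1 y1 L hT hz h0 hne hu e

end Pool.Agent.OD66
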