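import Pool.Agent.Lib.OD.F22Eng

set_option autoImplicit false

namespace Pool.Agent.OD66.F22

theorem k_s10 : eng S10 [0, 1, 2, 3, 4, 5, 6, 7, 8, 9] AL 76 10 76 X10 = true := by decide +kernel

theorem k_x10 : exAll S10 [0, 1, 2, 3, 4, 5, 6, 7, 8, 9] AL 76 10 X10 = true := by decide +kernel

end Pool.Agent.OD66.F22
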