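import Pool.Agent.Lib.OD.F22Eng

set_option autoImplicit false

namespace Pool.Agent.OD66.F22

theorem k_n0 : eng Ns r11 (CLKF.mins false) 258 11 40 XN0 = true := by decide +kernel

theorem k_xn0 : exAll Ns r11 (CLKF.mins false) 258 11 XN0 = true := by decide +kernel

theorem k_n1 : eng Ns r11 (CLKF.mins true) 258 11 36 XN1 = true := by decide +kernel

theorem k_xn1 : exAll Ns r11 (CLKF.mins true) 258 11 XN1 = true := by decide +kernel

end Pool.Agent.OD66.F22
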