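import Pool.Agent.Lib.OD.F22Eng

set_option autoImplicit false

namespace Pool.Agent.OD66.F22

theorem k_tb1 : (allL (Bs.take 43) fun b => tbAll b.1 AL b.2) = true := by decide +kernel

theorem k_tb2 : (allL (Bs.drop 43) fun b => tbAll b.1 AL b.2) = true := by decide +kernel

end Pool.Agent.OD66.F22
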