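import Pool.Agent.Lib.OD.F22Eng

set_option autoImplicit false

namespace Pool.Agent.OD66.F22

theorem k_nn1 : nnC (Ns.take 129) = true := by decide +kernel

theorem k_nn2 : nnC (Ns.drop 129) = true := by decide +kernel

end Pool.Agent.OD66.F22
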