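import Pool.Agent.Lib.OD.F22Sem
import Pool.Agent.Lib.OD.F22K1
import Pool.Agent.Lib.OD.F22K2
import Pool.Agent.Lib.OD.F22K3
import Pool.Agent.Lib.OD.F22K4
import Pool.Agent.Lib.OD.F22K5

set_option autoImplicit false

namespace Pool.Agent.OD66.F22

open Pool.Agent.OCP CLKF

theorem al_mem {e : Bool} {m : ℕ} (h : m ∈ mins e) : m ∈ AL := by
  cases e
  · exact List.mem_append_left _ h
  · exact List.mem_append_right _ h

theorem unrot {R : Z → Z → Prop} (hR : Sym R) {c : Z} (hc : isQ c = true) {x y : Z}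
    (h : R (c * x) (c * y)) : R x y := by
  obtain ⟨c', hc', h1⟩ := q_inv c hc
  have := hR c' hc' _ _ h
  rwa [← mul_assoc, ← mul_assoc, h1, one_mul, one_mul] at this

theorem eng_use {m0 m : ℕ} {c t : Z} (hc : isQ c = true) {A R : Z → Z → Prop}
    (h : Iv (stp (bt m0) (bt m) (c * t))) (hA : ∀ x y, bt m0 (c * x) (c * y) → A x y)
    (hR : Sym R) (hm : ∀ x y, bt m x y → R x y) : Iv (stp A R t) := by
  obtain ⟨c', hc', h1⟩ := q_inv c hc
  refine (h.rot hc).mono fun x y ⟨w, h2, h3⟩ => ⟨c' * w, hA _ _ ?_, unrot hR hc (hm _ _ ?_)⟩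
  · have e : c * (c' * w) = w := by linear_combination w * h1
    rwa [e]
  · have e : c * (c' * w - t) = w - c * t := by linear_combination w * h1
    rw [e, mul_sub]
    exact h3

theorem cs_ok : ∀ c ∈ Cs, ∀ x : Z, fld c x.val ≠ 1 ∧ fld c x.val ≠ 6 := by decide +kernel

theorem bs_ok : ∀ b ∈ Bs, ∀ x : Z, fld b.1 x.val ≠ 1 ∧ fld b.1 x.val ≠ 6 := by decide +kernel

theorem lg_stp {e : Bool} {A R : Z → Z → Prop} (hR : Ty e R) (t x : Z) {a : ℕ} (h1 : a ≠ 1)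
    (h6 : a ≠ 6) (h10 : a ≤ 10) (h : Lg a (A x)) : Lg a (stp A R t x) := by
  obtain ⟨m, hm, hmR⟩ := ty_min hR
  refine ((hall_sound k_hall (al_mem hm) h1 h6 h10 (h.add t)).add (-t)).mono ?_
  rintro y ⟨w, h2, h3⟩
  refine ⟨w + t, h2, ?_⟩
  rw [add_sub_cancel_right, sub_eq_add_neg]
  exact hmR _ _ h3

theorem iv_step {e : Bool} {A R : Z → Z → Prop} (hA : Iv A) (hR : Ty e R) (t : Z) :
    Iv (stp A R t) := by
  rcases hA with ⟨m0, hm0, c, hc, h⟩ | ⟨hT, b, hb, k, hk, hB⟩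
  · obtain ⟨m, hm, hmR⟩ := ty_min hR
    refine eng_use hc ?_ h (ty_sym hR) hmR
    have ht : (c * t).val ∈ r11 := mem_r11.2 (ZMod.val_lt _)
    cases e
    · exact eng_sound ns_len rfl rfl k_n0 k_xn0 hm0 ht hm
    · exact eng_sound ns_len rfl rfl k_n1 k_xn1 hm0 ht hm
  · refine Or.inr ⟨fun c hc k hk => ?_, b, hb, k, hk, fun x => ⟨(hB x).1, ?_⟩⟩
    · obtain ⟨x, h1, h2⟩ := hT c hc k hk
      exact ⟨x, h1, lg_stp hR t _ (cs_ok c hc x).1 (cs_ok c hc x).2 h1 h2⟩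
    · exact lg_stp hR t _ (bs_ok b hb x).1 (bs_ok b hb x).2 (hB x).1 (hB x).2

theorem s1_ok : ∀ z ∈ AL.zip S1, ∀ x y : Z, bt z.2 x y → bt z.1 (x - 1) (y - 1) := by
  decide +kernel

theorem s10_ok : ∀ z ∈ AL.zip S10, ∀ x y : Z, bt z.2 x y → bt z.1 (x - 10) (y - 10) := by
  decide +kernel

theorem zip_mem {l l' : List ℕ} (h : l.length = l'.length) {a : ℕ} (ha : a ∈ l) :
    ∃ b ∈ l', (a, b) ∈ l.zip l' := by
  obtain ⟨i, hi, rfl⟩ := List.getElem_of_mem ha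
  refine ⟨l'[i]'(h ▸ hi), List.getElem_mem _, ?_⟩
  rw [← List.getElem_zip (h := by rw [List.length_zip, ← h, min_self]; exact hi)]
  exact List.getElem_mem _

theorem seed_lab : ∀ t1 t2 : Z, t1 ≠ 0 → t2 ≠ t1 → ∃ c, isQ c = true ∧
    ((c * t1 = 1 ∧ (c * t2).val ∈ [0, 2, 3, 4, 5, 6, 7, 8, 9, 10]) ∨
      (c * t1 = 10 ∧ (c * t2).val ∈ [0, 1, 2, 3, 4, 5, 6, 7, 8, 9])) := by
  decide +kernel

theorem iv_seed {e1 e2 : Bool} {R1 R2 : Z → Z → Prop} (h1 : Ty e1 R1) (h2 : Ty e2 R2) {t1 t2 : Z}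
    (ht1 : t1 ≠ 0) (ht2 : t2 ≠ t1) : Iv (stp (fun x w => R1 (x - t1) (w - t1)) R2 t2) := by
  obtain ⟨m1, hm1, hR1⟩ := ty_min h1
  obtain ⟨m2, hm2, hR2⟩ := ty_min h2
  obtain ⟨c, hc, ⟨e, ht⟩ | ⟨e, ht⟩⟩ := seed_lab t1 t2 ht1 ht2
  · obtain ⟨s, hs, hz⟩ := zip_mem (l := AL) (l' := S1) rfl (al_mem hm1)
    refine eng_use hc (eng_sound rfl rfl rfl k_s1 k_x1 hs ht (al_mem hm2))
      (fun x y h => unrot (ty_sym h1) hc ?_) (ty_sym h2) hR2
    rw [mul_sub, mul_sub, e]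
    exact hR1 _ _ (s1_ok _ hz _ _ h)
  · obtain ⟨s, hs, hz⟩ := zip_mem (l := AL) (l' := S10) rfl (al_mem hm1)
    refine eng_use hc (eng_sound rfl rfl rfl k_s10 k_x10 hs ht (al_mem hm2))
      (fun x y h => unrot (ty_sym h1) hc ?_) (ty_sym h2) hR2
    rw [mul_sub, mul_sub, e]
    exact hR1 _ _ (s10_ok _ hz _ _ h)

theorem iv_chain (z2 z1 : (Z → Z → Prop) × Z) (L : List ((Z → Z → Prop) × Z))
    (hL : AllTy (L ++ [z2, z1])) (h1 : z1.2 ≠ 0) (h2 : z2.2 ≠ z1.2) : Iv (ch (L ++ [z2, z1])) := by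
  induction L with
  | nil =>
    obtain ⟨e1, a1⟩ := hL z1 (by simp)
    obtain ⟨e2, a2⟩ := hL z2 (by simp)
    exact (iv_seed a1 a2 h1 h2).mono fun x y ⟨w, h3, h4⟩ => ⟨w, ⟨x, rfl, h3⟩, h4⟩
  | cons z L ih =>
    obtain ⟨e, a⟩ := hL z List.mem_cons_self
    exact iv_step (ih fun w hw => hL w (List.mem_cons_of_mem _ hw)) a z.2

/-- every typed relation contains a pair with two middle labels -/
def PC (A B : Z → Z → Prop) : Prop := ∀ e S, Ty e S → ∃ x y, S x y ∧ Two (A x) (B y)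

theorem PC.symm {A B : Z → Z → Prop} (h : PC A B) : PC B A := by
  intro e S hS
  obtain ⟨x, y, h1, w, w', h2, a, b, c, d⟩ := h e _ (ty_inv hS)
  exact ⟨y, x, h1, w, w', h2, b, a, d, c⟩

theorem PC.unrot {A B : Z → Z → Prop} {c : Z} (hc : isQ c = true)
    (h : PC (fun x y => A (c * x) (c * y)) fun x y => B (c * x) (c * y)) : PC A B := by
  intro e S hS
  obtain ⟨x, y, h1, w, w', h2, h3⟩ := h e S hS
  obtain ⟨c', _, h4⟩ := q_inv c hc
  exact ⟨c * x, c * y, ty_sym hS c hc _ _ h1, c * w, c * w',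
    fun h5 => h2 (by linear_combination c' * h5 - (w - w') * h4), h3⟩

theorem tbAll_sound {b : ℕ} {ms : List ℕ} {ce : ℕ} (h : tbAll b ms ce = true) {s : ℕ}
    (hs : s ∈ ms) : ∃ ce', tbOne b s ce' = true := by
  induction ms generalizing ce with
  | nil => cases hs
  | cons a l ih =>
    have e : tbAll b (a :: l) ce =
        Bool.rec false (tbAll b l (Nat.shiftRight ce 11)) (tbOne b a (Nat.mod ce 2048)) := rfl
    rw [e] at h
    cases h1 : tbOne b a (Nat.mod ce 2048) with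
    | false => rw [h1] at h; cases h
    | true =>
      rw [h1] at h
      rcases List.mem_cons.1 hs with rfl | hs
      · exact ⟨_, h1⟩
      · exact ih h hs

theorem cs_len : Cs.length = 116 := by decide +kernel

theorem pc_tb {A B : Z → Z → Prop} (hA : Term A) (hB : BigP B) : PC A B := by
  obtain ⟨b, hb, k, hk, hB⟩ := hB
  refine PC.unrot hk fun e S hS => ?_
  obtain ⟨s, hs, hsS⟩ := ty_min hS
  have h0 : tbAll b.1 AL b.2 = true := by
    rw [← List.take_append_drop 43 Bs, List.mem_append] at hb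
    rcases hb with hb | hb
    · exact (allL_iff _ _).1 k_tb1 b hb
    · exact (allL_iff _ _).1 k_tb2 b hb
  obtain ⟨ce, h⟩ := tbAll_sound h0 (al_mem hs)
  unfold tbOne at h
  simp only [frc_eq] at h
  rw [Bool.and_eq_true, Bool.and_eq_true, Nat.blt_eq, decide_eq_true_eq, gd_eq] at h
  obtain ⟨⟨h1, h2⟩, h3⟩ := h
  obtain ⟨x, h4, h5⟩ := hA.rot hk _ (getD_mem (cs_len ▸ h1)) _ (q_cast _ h2).1
  have h6 := (allB_iff _ _).1 h3 x.val (ZMod.val_lt x)
  have h7 : Nat.ble 11 (fld (Cs.getD (Nat.div ce 16) 0) x.val) = false := by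
    rw [← Bool.not_eq_true, Nat.ble_eq]
    omega
  rw [h7] at h6
  obtain ⟨y, hy, h8⟩ := (anyB_iff _ _).1 h6
  rw [← (q_cast _ h2).2, m11_val, tb_eq] at h8
  cases h9 : (Nat.shiftRight s (Nat.mul 11 (((Nat.mod ce 16 : ℕ) : Z) * x).val)).testBit y with
  | false => rw [h9] at h8; cases h8
  | true =>
    rw [h9] at h8
    have h10 : 13 ≤ fld (Cs.getD (Nat.div ce 16) 0) x.val + fld b.1 y := Nat.le_of_ble_eq_true h8
    refine ⟨_, (y : Z), hsS _ _ ?_, two_of_lg h5 ((hB (y : Z)).2.mul hk) (by rwa [val_cast hy])⟩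
    have h11 : (s >>> (11 * (((Nat.mod ce 16 : ℕ) : Z) * x).val)).testBit y = true := h9
    rw [Nat.testBit_shiftRight] at h11
    show s.testBit (11 * _ + (y : Z).val) = true
    rw [val_cast hy]
    exact h11

theorem kl_ok : ∀ s ∈ AL, ∃ κ ∈ KL, ∀ y : Z, (κ.testBit y.val = true → bt s 1 y) ∧
    (κ.testBit (11 + y.val) = true → bt s 10 y) := by
  decide +kernel

theorem qs_idx : ∀ c : Z, isQ c = true → ∃ i < 5, Qs.getD i 0 = c.val := by decide

theorem nn_two {m m' i j : ℕ} {c x0 y : Z} (hi : i < 5) (ei : Qs.getD i 0 = c.val)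
    (hj : j < Ns.length) (ej : Ns.getD j 0 = m')
    (h : (orL Qs fun k => twoL (gd [] (T2 fun x w =>
      catL 258 (mp (fun k => g2 (slices Ns) (m11 k x) (m11 k w)) Qs)) (m11 k x0.val))
        (Nat.shiftRight m (Nat.mul 11 (m11 k y.val))) 0 0).testBit (258 * i + j) = true) :
    ∃ k : Z, isQ k = true ∧ Two (fun w => bt m' (c * (k * x0)) (c * w)) (bt m (k * y)) := by
  obtain ⟨k, hk, h1⟩ := orL_bit h
  refine ⟨(k : Z), (q_cast k hk).1, ?_⟩
  rw [← (q_cast k hk).2, m11_val, m11_val] at h1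
  unfold T2 at h1
  rw [gd_r11 _ _ (ZMod.val_lt _)] at h1
  have key : ∀ w < 11, ((Nat.shiftRight m (Nat.mul 11 ((k : Z) * y).val)).testBit w = true ∧
      ((mp (fun w => catL 258 (mp (fun k' => g2 (slices Ns) (m11 k' ((k : Z) * x0).val)
        (m11 k' w)) Qs)) r11).getD w 0).testBit (258 * i + j) = true) →
      bt m' (c * ((k : Z) * x0)) (c * (w : Z)) ∧ bt m ((k : Z) * y) (w : Z) := by
    rintro w hw ⟨a, b⟩
    rw [← gd_eq, gd_r11 _ _ hw, catL_bit _ _ (ns_len ▸ hj), getD_mp _ 0 _ hi, ei, ← val_cast hw,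
      m11_val, m11_val] at b
    unfold slices at b
    rw [g2_T2 _ (ZMod.val_lt _) (ZMod.val_lt _), slices_bit _ hj, ej] at b
    refine ⟨b, ?_⟩
    have a' : (m >>> (11 * ((k : Z) * y).val)).testBit w = true := a
    rw [Nat.testBit_shiftRight] at a'
    show m.testBit (11 * _ + (w : Z).val) = true
    rw [val_cast hw]
    exact a'
  rcases twoL_bit h1 with h2 | ⟨h2, _⟩ | ⟨w', hw', w, hw, a, b⟩
  · simp at h2
  · simp at h2
  · have hw1 : w' < 11 := hw'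
    have hw2 : w < 11 := hw.trans hw1
    refine ⟨(w : Z), (w' : Z), fun e => ?_, (key w hw2 a).1, (key w hw2 a).2, (key w' hw1 b).1,
      (key w' hw1 b).2⟩
    have := congrArg ZMod.val e
    rw [val_cast hw2, val_cast hw1] at this
    omega

theorem nn_sound {l : List ℕ} (h : nnC l = true) {m m' : ℕ} (hm : m ∈ l) (hm' : m' ∈ Ns) {c : Z}
    (hc : isQ c = true) : PC (fun x w => bt m' (c * x) (c * w)) (bt m) := by
  intro e S hS
  obtain ⟨s, hs, hsS⟩ := ty_min hS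
  obtain ⟨κ, hκ, hk⟩ := kl_ok s (al_mem hs)
  obtain ⟨i, hi, ei⟩ := qs_idx c hc
  obtain ⟨j, hj, ej⟩ := mem_getD hm'
  unfold nnC at h
  simp only [frll_eq, frl_eq, frc_eq] at h
  have hl : 258 * i + j < 1290 := by rw [ns_len] at hj; omega
  have h1 := subs_bit ((allL_iff _ _).1 ((allL_iff _ _).1 h m hm) κ hκ) (ones_bit hl)
  have h2 : ∀ a b i : ℕ, (Nat.lor a b).testBit i = true →
      a.testBit i = true ∨ b.testBit i = true := by
    intro a b i hh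
    have : (a ||| b).testBit i = true := hh
    rwa [Nat.testBit_or, Bool.or_eq_true] at this
  rcases h2 _ _ _ h1 with h3 | h3
  · obtain ⟨y, hy, a, b⟩ := osel_bit h3
    have hy' : y < 11 := hy
    rw [← gd_eq, gd_r11 _ _ hy', ← val_cast hy'] at b
    rw [Nat.one_mul, ← val_cast hy'] at a
    obtain ⟨k, hk', t⟩ := nn_two (x0 := 1) hi ei hj ej b
    exact ⟨k * 1, k * (y : Z), ty_sym hS k hk' _ _ (hsS _ _ ((hk _).1 a)), t⟩
  · obtain ⟨y, hy, a, b⟩ := osel_bit h3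
    have hy' : y < 11 := hy
    rw [← gd_eq, gd_r11 _ _ hy', ← val_cast hy'] at b
    have a' : (κ >>> 11).testBit (1 * y) = true := a
    rw [Nat.testBit_shiftRight, Nat.one_mul, ← val_cast hy'] at a'
    obtain ⟨k, hk', t⟩ := nn_two (x0 := 10) hi ei hj ej b
    exact ⟨k * 10, k * (y : Z), ty_sym hS k hk' _ _ (hsS _ _ ((hk _).2 a')), t⟩

theorem PC.mono {A B A' B' : Z → Z → Prop} (h : PC A B) (hA : ∀ x y, A x y → A' x y)
    (hB : ∀ x y, B x y → B' x y) : PC A' B' := by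
  intro e S hS
  obtain ⟨x, y, h1, w, w', h2, a, b, c, d⟩ := h e S hS
  exact ⟨x, y, h1, w, w', h2, hA _ _ a, hB _ _ b, hA _ _ c, hB _ _ d⟩

theorem NN.big {A : Z → Z → Prop} (h : NN A) : BigP A := by
  obtain ⟨m, hm, c, hc, h⟩ := h
  exact ((bigN_sound k_big hm).rot hc).mono h

theorem pc_nn {A B : Z → Z → Prop} (hA : NN A) (hB : NN B) : PC A B := by
  obtain ⟨m, hm, c, hc, h⟩ := hB
  obtain ⟨c', hc', h1⟩ := q_inv c hc
  refine PC.unrot hc' ?_
  obtain ⟨m', hm', k, hk, h'⟩ := hA.rot hc'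
  have h2 : PC (fun x w => bt m' (k * x) (k * w)) (bt m) := by
    rw [← List.take_append_drop 129 Ns, List.mem_append] at hm
    rcases hm with hm | hm
    · exact nn_sound k_nn1 hm hm' hk
    · exact nn_sound k_nn2 hm hm' hk
  refine h2.mono h' fun x y hxy => h _ _ ?_
  have e : ∀ u : Z, c * (c' * u) = u := fun u => by linear_combination u * h1
  rwa [e, e]

theorem pc_iv {A B : Z → Z → Prop} (hA : Iv A) (hB : Iv B) : PC A B := by
  rcases hA with hA | hA <;> rcases hB with hB | hB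
  · exact pc_nn hA hB
  · exact (pc_tb hB.1 hA.big).symm
  · exact pc_tb hA.1 hB.big
  · exact pc_tb hA.1 hB.2

theorem scale_one (L : List ((Z → Z → Prop) × Z)) : scale 1 L = L := by
  simp [scale]

theorem m2_of_pc {L1 L2 : List ((Z → Z → Prop) × Z)} (h : PC (ch L1) (ch (bjrInv L2))) (e : Bool) :
    M2 e (jn e L1 L2) := by
  have key : ∀ x y, xor (isQ x) (isQ y) = e → Two (ch L1 x) (ch (bjrInv L2) y) →
      ∀ r, jn e L1 L2 x y r := by
    rintro x y hp ⟨w, w', hne, a, b, c, d⟩ r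
    refine ⟨hp, 1, by decide, ?_⟩
    rw [← scale_one (bjrInv L2)] at b d
    rw [← scale_one L1] at a c
    by_cases hw : w = r
    · exact ⟨w', c, bjr_ch_inv 1 L2 _ _ d, fun h => hne (hw.trans h.symm)⟩
    · exact ⟨w, a, bjr_ch_inv 1 L2 _ _ b, hw⟩
  refine ⟨fun S hS => ?_, fun d μ => ?_⟩
  · obtain ⟨x, y, h1, h2⟩ := h e _ (bjr_ty_par (Or.inr (ty2_inv hS)))
    exact ⟨x, y, h1.2, key x y h1.1 h2⟩
  · obtain ⟨x, y, h1, h2⟩ := h e _ (ty_inv (bjr_T1_ty d e))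
    exact ⟨x, y, h1, key x y h1.2 h2 _⟩

end Pool.Agent.OD66.F22

namespace Pool.Agent.OD66

theorem blk_F22 : St_F22 := by
  intro z2 z1 y1 y2 L K hL hK h1 h2 h3 h4 e
  refine F22.m2_of_pc (F22.pc_iv (F22.iv_chain z2 z1 L hL h1 h2) ?_) e
  have e1 : bjrInv (y1 :: y2 :: K) =
      bjrInv K ++ [(fun x y => y2.1 y x, y2.2), (fun x y => y1.1 y x, y1.2)] := by
    simp [bjrInv]
  have hI : AllTy (bjrInv (y1 :: y2 :: K)) := by
    intro w hw
    obtain ⟨z, hz, rfl⟩ := bjr_mem_inv hw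
    obtain ⟨e', he⟩ := hK z hz
    exact ⟨e', CLKF.ty_inv he⟩
  rw [e1] at hI ⊢
  exact F22.iv_chain _ _ _ hI h3 h4

end Pool.Agent.OD66
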