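import Pool.Agent.Lib.OD.Blue

set_option autoImplicit false

namespace Pool.Agent.OD66

theorem kcmp_inv : ∀ c : Z, isQ c = true → ∃ c' : Z, c * c' = 1 := by decide

theorem kcmp_mulQ : ∀ c x : Z, isQ c = true → isQ (c * x) = isQ x := by decide

theorem kcmp_symflex {M : Ter} (h : SymT M) : Sym (flex M) := by
  intro c hc x y hxy r
  obtain ⟨c', hc'⟩ := kcmp_inv c hc
  have h1 := h c hc x y (c' * r) (hxy _)
  rwa [← mul_assoc, hc', one_mul] at h1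

theorem kcmp_row_mono {e : Bool} {R R' : Z → Z → Prop} (hm : ∀ x y, R x y → R' x y)
    (h : RowOK e R) : RowOK e R' := by
  obtain ⟨m, hA, h0, h1, h2⟩ := h
  exact ⟨m, hA, fun y hy => hm _ _ (h0 y hy), fun y hy => hm _ _ (h1 y hy),
    fun y hy => hm _ _ (h2 y hy)⟩

theorem kcmp_ty2_mono {e : Bool} {R R' : Z → Z → Prop} (hs : Sym R')
    (hm : ∀ x y, R x y → R' x y) (h : Ty2 e R) : Ty2 e R' :=
  ⟨hs, kcmp_row_mono hm h.2.1, kcmp_row_mono (fun x y hxy => hm y x hxy) h.2.2⟩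

theorem kcmp_symT1 (d e : Bool) : Sym (T1 d e) := by
  intro c hc x y h
  obtain ⟨h1, h2⟩ := h
  refine ⟨?_, ?_⟩
  · unfold ar at h1 ⊢
    rw [← mul_sub, ← mul_sub, kcmp_mulQ c _ hc, kcmp_mulQ c _ hc]
    exact h1
  · rw [kcmp_mulQ c _ hc, kcmp_mulQ c _ hc]
    exact h2

theorem kcmp_tyT1 (d e : Bool) : Ty e (T1 d e) :=
  Or.inl ⟨kcmp_symT1 d e, d, fun _ _ h => h⟩

theorem kcmp_T1inv {d e : Bool} {x y : Z} (h : T1 (!d) e y x) : T1 d e x y := by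
  obtain ⟨h1, h2⟩ := h
  refine ⟨?_, ?_⟩
  · unfold ar at h1 ⊢
    cases d
    · simpa using h1
    · simpa using h1
  · rw [Bool.xor_comm]
    exact h2

theorem kcmp_symT {M N : Ter} (hM : SymT M) (hN : SymT N) : SymT (cmp M N) := by
  intro c hc x y r h
  obtain ⟨p, h1, h2⟩ := h
  exact ⟨c * p, hM c hc _ _ _ h1, hN c hc _ _ _ h2⟩

theorem kcmp_xor3 : ∀ a b c : Bool, xor (xor a b) (xor b c) = xor a c := by decide

theorem kcmp_parT {M N : Ter} {e1 e2 : Bool} (hM : ParT e1 M) (hN : ParT e2 N) :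
    ParT (xor e1 e2) (cmp M N) := by
  intro x y r h
  obtain ⟨p, h1, h2⟩ := h
  rw [← hM _ _ _ h1, ← hN _ _ _ h2, kcmp_xor3]

theorem kcmp_M0_mono {e : Bool} {M M' : Ter} (hm : ∀ x y r, M x y r → M' x y r)
    (h : M0 e M) : M0 e M' := by
  obtain ⟨R, hR, h1⟩ := h
  exact ⟨R, hR, fun x y r a b => hm _ _ _ (h1 x y r a b)⟩

theorem kcmp_M1_mono {e : Bool} {M M' : Ter} (hm : ∀ x y r, M x y r → M' x y r)
    (h : M1 e M) : M1 e M' := by
  obtain ⟨e1, e2, R1, R2, he, h1, h2, h3⟩ := h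
  exact ⟨e1, e2, R1, R2, he, h1, h2, fun x w y r a b c => hm _ _ _ (h3 x w y r a b c)⟩

theorem kcmp_M2_mono {e : Bool} {M M' : Ter} (hm : ∀ x y r, M x y r → M' x y r)
    (h : M2 e M) : M2 e M' := by
  obtain ⟨h1, h2⟩ := h
  refine ⟨fun S hS => ?_, fun d μ => ?_⟩
  · obtain ⟨x, y, a, b⟩ := h1 S hS
    exact ⟨x, y, a, fun r => hm _ _ _ (b r)⟩
  · obtain ⟨x, y, a, b⟩ := h2 d μ
    exact ⟨x, y, a, hm _ _ _ b⟩

/-- a relation meeting the inverse of every typed relation flexibly is resolved -/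
theorem kcmp_M2_of {e : Bool} {M : Ter}
    (h : ∀ S, Ty e S → ∃ x y, S y x ∧ flex M x y) : M2 e M := by
  refine ⟨fun S hS => h S (Or.inr hS), fun d μ => ?_⟩
  obtain ⟨x, y, a, b⟩ := h (T1 (!d) e) (kcmp_tyT1 _ _)
  exact ⟨x, y, kcmp_T1inv a, b _⟩

section

variable {W : Type} {o : W → W → Bool}

/-- an unmarked entry is degenerate or typed -/
theorem kcmp_split {v a u : W} {M : Ter} (h : EntU o v a u M) :
    (a = u ∧ K0 M) ∨ Ty (xor (o v a) (o v u)) (flex M) := by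
  obtain ⟨hs, _, h | h | h⟩ := h
  · exact Or.inl h
  · exact Or.inr (Or.inl ⟨kcmp_symflex hs, o a u, fun x y hxy r => h.2 x y r hxy⟩)
  · exact Or.inr (Or.inr h)

theorem kcmp_U_mono {v a u : W} {M M' : Ter} (hs : SymT M')
    (hp : ParT (xor (o v a) (o v u)) M') (hm : ∀ x y r, M x y r → M' x y r)
    (h : EntU o v a u M) : EntU o v a u M' := by
  obtain ⟨_, _, h | h | h⟩ := h
  · exact ⟨hs, hp, Or.inl ⟨h.1, fun x r => hm _ _ _ (h.2 x r)⟩⟩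
  · exact ⟨hs, hp, Or.inr (Or.inl ⟨h.1, fun x y r a => hm _ _ _ (h.2 x y r a)⟩)⟩
  · exact ⟨hs, hp, Or.inr (Or.inr
      (kcmp_ty2_mono (kcmp_symflex hs) (fun x y a r => hm _ _ _ (a r)) h))⟩

theorem kcmp_M_mono {w v a u : W} {M M' : Ter} (hs : SymT M')
    (hp : ParT (xor (o v a) (o v u)) M') (hm : ∀ x y r, M x y r → M' x y r)
    (h : EntM o w v a u M) : EntM o w v a u M' := by
  obtain ⟨_, _, h | h | h⟩ := h
  · exact ⟨hs, hp, Or.inl ⟨h.1, kcmp_M0_mono hm h.2⟩⟩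
  · exact ⟨hs, hp, Or.inr (Or.inl (kcmp_M1_mono hm h))⟩
  · exact ⟨hs, hp, Or.inr (Or.inr (kcmp_M2_mono hm h))⟩

end

theorem kcmp_x2 : ∀ a b : Bool, xor (xor a b) a = b := by decide

theorem kcmp_x3 : ∀ a b : Bool, xor b (xor a b) = a := by decide

theorem blk_KCMP (h1 : St_CL) : St_KCMP := by
  intro W o w v a p u M N
  have he : xor (xor (o v a) (o v p)) (xor (o v p) (o v u)) = xor (o v a) (o v u) :=
    kcmp_xor3 _ _ _
  refine ⟨fun hM hN => ?_, fun hM hN => ?_, fun hM hN => ?_⟩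
  · have hs : SymT (cmp M N) := kcmp_symT hM.1 hN.1
    have hp : ParT (xor (o v a) (o v u)) (cmp M N) := he ▸ kcmp_parT hM.2.1 hN.2.1
    rcases kcmp_split hM with ⟨hap, hK⟩ | hTM
    · subst hap
      exact kcmp_U_mono hs hp (fun x y r h => ⟨x, hK x r, h⟩) hN
    rcases kcmp_split hN with ⟨hpu, hK⟩ | hTN
    · subst hpu
      exact kcmp_U_mono hs hp (fun x y r h => ⟨y, h, hK y r⟩) hM
    have hc := h1 _ _ _ _ hTM hTN
    rw [he] at hc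
    refine ⟨hs, hp, Or.inr (Or.inr (kcmp_ty2_mono (kcmp_symflex hs) ?_ hc))⟩
    rintro x y ⟨q, a1, a2⟩ r
    exact ⟨q, a1 r, a2 r⟩
  · have hs : SymT (cmp M N) := kcmp_symT hM.1 hN.1
    have hp : ParT (xor (o v a) (o v u)) (cmp M N) := he ▸ kcmp_parT hM.2.1 hN.2.1
    rcases kcmp_split hM with ⟨hap, hK⟩ | hTM
    · subst hap
      exact kcmp_M_mono hs hp (fun x y r h => ⟨x, hK x r, h⟩) hN
    refine ⟨hs, hp, Or.inr ?_⟩
    rw [← he]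
    obtain ⟨_, _, h | h | h⟩ := hN
    · obtain ⟨_, R, hR, h3⟩ := h
      exact Or.inl ⟨_, _, flex M, R, rfl, hTM, hR,
        fun x q y r a1 a2 a3 => ⟨q, a1 r, h3 q y r a2 a3⟩⟩
    · obtain ⟨e1, e2, R1, R2, hx, hR1, hR2, h3⟩ := h
      refine Or.inl ⟨_, e2, _, R2, ?_, Or.inr (h1 _ _ _ _ hTM hR1), hR2, ?_⟩
      · rw [← hx, Bool.xor_assoc]
      · rintro x q y r ⟨q', a1, a1'⟩ a2 a3
        exact ⟨q', a1 r, h3 q' q y r a1' a2 a3⟩
    · refine Or.inr (kcmp_M2_of fun S hS => ?_)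
      have hc := h1 _ _ _ _ hS hTM
      rw [kcmp_x2] at hc
      obtain ⟨q, y, ⟨x, a1, a2⟩, a3⟩ := h.1 _ hc
      exact ⟨x, y, a1, fun r => ⟨q, a2 r, a3 r⟩⟩
  · have hs : SymT (cmp M N) := kcmp_symT hM.1 hN.1
    have hp : ParT (xor (o v a) (o v u)) (cmp M N) := he ▸ kcmp_parT hM.2.1 hN.2.1
    rcases kcmp_split hN with ⟨hpu, hK⟩ | hTN
    · subst hpu
      exact kcmp_M_mono hs hp (fun x y r h => ⟨y, h, hK y r⟩) hM
    refine ⟨hs, hp, ?_⟩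
    rw [← he]
    obtain ⟨_, _, h | h | h⟩ := hM
    · obtain ⟨haw, R, hR, h3⟩ := h
      refine Or.inl ⟨haw, _, Or.inr (h1 _ _ _ _ hR hTN), ?_⟩
      rintro x y r ⟨q, a1, a2⟩ a3
      exact ⟨q, h3 x q r a1 a3, a2 r⟩
    · obtain ⟨e1, e2, R1, R2, hx, hR1, hR2, h3⟩ := h
      refine Or.inr (Or.inl ⟨e1, _, R1, _, ?_, hR1, Or.inr (h1 _ _ _ _ hR2 hTN), ?_⟩)
      · rw [← hx, Bool.xor_assoc]
      · rintro x q y r a1 ⟨q', a2, a2'⟩ a3
        exact ⟨q', h3 x q q' r a1 a2 a3, a2' r⟩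
    · refine Or.inr (Or.inr (kcmp_M2_of fun S hS => ?_))
      have hc := h1 _ _ _ _ hTN hS
      rw [kcmp_x3] at hc
      obtain ⟨x, q, ⟨y, a1, a2⟩, a3⟩ := h.1 _ hc
      exact ⟨x, y, a2, fun r => ⟨q, a3 r, a1 r⟩⟩

end Pool.Agent.OD66
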