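import Pool.Agent.Lib.OD.B_BJR
import Pool.Agent.Lib.OD.B_KCMP

set_option autoImplicit false

namespace Pool.Agent.OD66

/-- the conclusion of `St_CE` -/
def gceP (L1 L2 : List ((Z → Z → Prop) × Z)) : Prop := ∀ e, M2 e (jn e L1 L2)

/-- the first label is nonzero and differs from the second one -/
def gceG (L : List ((Z → Z → Prop) × Z)) : Prop :=
  (∃ z1, L = [z1] ∧ z1.2 ≠ 0) ∨ ∃ L0 z2 z1, L = L0 ++ [z2, z1] ∧ z1.2 ≠ 0 ∧ z2.2 ≠ z1.2

theorem gce_M2_inv {e : Bool} {M : Ter} (h : M2 e M) : M2 e fun x y r => M y x r := by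
  refine ⟨fun S hS => ?_, fun d μ => ?_⟩
  · obtain ⟨x, y, a, b⟩ := h.1 _ (bjr_ty2_inv hS)
    exact ⟨y, x, a, b⟩
  · obtain ⟨x, y, a, b⟩ := h.2 (!d) (1 - μ)
    refine ⟨y, x, bjr_T1_inv a, ?_⟩
    have e1 : y + μ * (x - y) = x + (1 - μ) * (y - x) := by ring
    show M x y (y + μ * (x - y))
    rw [e1]
    exact b

theorem gce_rev {L1 L2 : List ((Z → Z → Prop) × Z)} (h : gceP (bjrInv L2) (bjrInv L1)) :
    gceP L1 L2 := by
  intro e
  refine kcmp_M2_mono ?_ (gce_M2_inv (h e))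
  rintro x y r ⟨hp, c, hc, w, k1, k2, hw⟩
  exact ⟨by rw [Bool.xor_comm]; exact hp, c, hc, w, bjr_ch_inv c L1 _ _ k2,
    bjr_ch_inv c L2 _ _ k1, hw⟩

theorem gce_inv_inv (L : List ((Z → Z → Prop) × Z)) : bjrInv (bjrInv L) = L := by
  unfold bjrInv
  rw [List.map_reverse, List.reverse_reverse, List.map_map]
  exact List.map_id' L

theorem gce_inv_ty {L : List ((Z → Z → Prop) × Z)} (hL : AllTy L) : AllTy (bjrInv L) := by
  intro w hw
  obtain ⟨z, hz, rfl⟩ := bjr_mem_inv hw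
  obtain ⟨e', he'⟩ := hL z hz
  exact ⟨e', bjr_ty_inv he'⟩

theorem gce_inv_nz {L : List ((Z → Z → Prop) × Z)} (h : ∃ z ∈ L, z.2 ≠ 0) :
    ∃ z ∈ bjrInv L, z.2 ≠ 0 := by
  obtain ⟨z, hz, h0⟩ := h
  refine ⟨(fun x y => z.1 y x, z.2), ?_, h0⟩
  unfold bjrInv
  rw [List.mem_reverse, List.mem_map]
  exact ⟨z, hz, rfl⟩

theorem gce_ch_snoc (c : Z) (L : List ((Z → Z → Prop) × Z)) (z : (Z → Z → Prop) × Z) (x y : Z) :
    ch (scale c (L ++ [z])) x y ↔ ∃ p, z.1 (x - c * z.2) (p - c * z.2) ∧ ch (scale c L) p y := by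
  have e1 : scale c (L ++ [z]) = scale c L ++ [(z.1, c * z.2)] := by simp [scale]
  rw [e1, bjr_ch_append]
  constructor
  · rintro ⟨p, ⟨q, h1, h2⟩, h3⟩
    have h1' : x = q := h1
    subst h1'
    exact ⟨p, h2, h3⟩
  · rintro ⟨p, h2, h3⟩
    exact ⟨p, ⟨x, rfl, h2⟩, h3⟩

theorem gce_x : ∀ a b : Bool, xor b (xor a b) = a := by decide

theorem gce_peel (h1 : St_CL) {L L2 : List ((Z → Z → Prop) × Z)} {z : (Z → Z → Prop) × Z}
    {e1 : Bool} (hz : Ty e1 z.1) (h0 : z.2 = 0) (h : gceP L L2) : gceP (L ++ [z]) L2 := by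
  intro e
  refine kcmp_M2_of fun S hS => ?_
  have hc := h1 _ _ _ _ hS (bjr_ty_par hz)
  obtain ⟨q, y, ⟨x, a1, a2, a3⟩, a4⟩ := (h (xor e e1)).1 _ hc
  refine ⟨x, y, a1, fun r => ?_⟩
  obtain ⟨hp, c, hc', w, k1, k2, hw⟩ := a4 r
  refine ⟨(bjr_xor3 _ _ _ _ _ a2 hp).trans (gce_x e e1), c, hc', w, ?_, k2, hw⟩
  refine (gce_ch_snoc c L z x w).2 ⟨q, ?_, k1⟩
  rw [h0, mul_zero, sub_zero, sub_zero]
  exact a3

theorem gce_merge {L L2 : List ((Z → Z → Prop) × Z)} {z2 z1 : (Z → Z → Prop) × Z}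
    (h0 : z2.2 = z1.2)
    (h : gceP (L ++ [(fun x y => ∃ p, z1.1 x p ∧ z2.1 p y, z1.2)]) L2) :
    gceP ((L ++ [z2]) ++ [z1]) L2 := by
  intro e
  refine kcmp_M2_mono ?_ (h e)
  rintro x y r ⟨hp, c, hc, w, k1, k2, hw⟩
  refine ⟨hp, c, hc, w, ?_, k2, hw⟩
  obtain ⟨q, ⟨p, a1, a2⟩, a3⟩ := (gce_ch_snoc c L _ x w).1 k1
  have e1 : p + c * z1.2 - c * z1.2 = p := by ring
  refine (gce_ch_snoc c _ z1 x w).2 ⟨p + c * z1.2, ?_, (gce_ch_snoc c L z2 _ w).2 ⟨q, ?_, a3⟩⟩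
  · rw [e1]
    exact a1
  · rw [h0, e1]
    exact a2

theorem gce_red (h1 : St_CL) (L2 : List ((Z → Z → Prop) × Z))
    (hG : ∀ L, AllTy L → gceG L → gceP L L2) :
    ∀ n, ∀ L : List ((Z → Z → Prop) × Z), L.length ≤ n → AllTy L → (∃ z ∈ L, z.2 ≠ 0) →
      gceP L L2 := by
  intro n
  induction n with
  | zero =>
    rintro L hn _ ⟨z, hz, _⟩
    have := List.length_pos_of_mem hz
    omega
  | succ n ih =>
    intro L hn hL hnz
    rcases List.eq_nil_or_concat' L with rfl | ⟨L0, z1, rfl⟩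
    · obtain ⟨z, hz, _⟩ := hnz
      exact absurd hz List.not_mem_nil
    have hL0 : AllTy L0 := fun w hw => hL w (List.mem_append_left _ hw)
    obtain ⟨e1, he1⟩ := hL z1 (List.mem_append_right _ (List.mem_singleton_self _))
    have hn0 : L0.length ≤ n := by
      rw [List.length_append, List.length_singleton] at hn
      omega
    by_cases h0 : z1.2 = 0
    · refine gce_peel h1 he1 h0 (ih L0 hn0 hL0 ?_)
      obtain ⟨z, hz, hz0⟩ := hnz
      rcases List.mem_append.1 hz with h | h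
      · exact ⟨z, h, hz0⟩
      · rw [List.mem_singleton.1 h] at hz0
        exact absurd h0 hz0
    rcases List.eq_nil_or_concat' L0 with rfl | ⟨K, z2, rfl⟩
    · exact hG _ hL (Or.inl ⟨z1, rfl, h0⟩)
    by_cases h2 : z2.2 = z1.2
    · obtain ⟨e2, he2⟩ := hL0 z2 (List.mem_append_right _ (List.mem_singleton_self _))
      refine gce_merge h2 (ih _ ?_ ?_ ?_)
      · rw [List.length_append, List.length_singleton] at hn0 ⊢
        exact hn0
      · intro w hw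
        rcases List.mem_append.1 hw with h | h
        · exact hL0 w (List.mem_append_left _ h)
        · rw [List.mem_singleton.1 h]
          exact ⟨_, Or.inr (h1 _ _ _ _ he1 he2)⟩
      · exact ⟨_, List.mem_append_right _ (List.mem_singleton_self _), h0⟩
    · exact hG _ hL (Or.inr ⟨K, z2, z1, by simp, h0, h2⟩)

theorem gce_base (h2 : St_F11) (h3 : St_F21) (h4 : St_F22)
    (A B : List ((Z → Z → Prop) × Z)) (hA : AllTy A) (hB : AllTy B) (gA : gceG A)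
    (gB : gceG B) : gceP B (bjrInv A) := by
  have iA := gce_inv_ty hA
  have iB := gce_inv_ty hB
  rcases gA with ⟨y1, rfl, hy⟩ | ⟨K, y2, y1, rfl, hy, hy2⟩
  · rcases gB with ⟨z1, rfl, hz⟩ | ⟨L, z2, z1, rfl, hz, hz2⟩
    · exact h2 z1 (fun x y => y1.1 y x, y1.2) hB iA hz hy
    · exact h3 z2 z1 (fun x y => y1.1 y x, y1.2) L hB iA hz hz2 hy
  · rcases gB with ⟨z1, rfl, hz⟩ | ⟨L, z2, z1, rfl, hz, hz2⟩
    · refine gce_rev ?_
      rw [gce_inv_inv]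
      exact h3 y2 y1 (fun x y => z1.1 y x, z1.2) K hA iB hy hy2 hz
    · have e1 : bjrInv (K ++ [y2, y1]) =
          (fun x y => y1.1 y x, y1.2) :: (fun x y => y2.1 y x, y2.2) :: bjrInv K := by
        simp [bjrInv]
      rw [e1] at iA ⊢
      exact h4 z2 z1 _ _ L _ hB iA hz hz2 hy hy2

theorem blk_CE (h1 : St_CL) (h2 : St_F11) (h3 : St_F21) (h4 : St_F22) : St_CE := by
  intro L1 L2 hL1 hL2 n1 n2
  refine gce_red h1 L2 (fun A hA gA => gce_rev ?_) _ L1 le_rfl hL1 n1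
  exact gce_red h1 _ (fun B hB gB => gce_base h2 h3 h4 A B hA hB gA gB) _ _ le_rfl
    (gce_inv_ty hL2) (gce_inv_nz n2)

end Pool.Agent.OD66
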