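import Pool.Agent.Lib.OD.B_GCE

set_option autoImplicit false

namespace Pool.Agent.OD66

/-- the part of parity `e` of the union of the rotated chains -/
def gcuS (e : Bool) (L : List ((Z → Z → Prop) × Z)) (x y : Z) : Prop :=
  xor (isQ x) (isQ y) = e ∧ sch L x y

/-- the last label is nonzero and differs from the one before -/
def gcuH (L : List ((Z → Z → Prop) × Z)) : Prop :=
  ∃ z z' K, L = z :: z' :: K ∧ z.2 ≠ 0 ∧ z'.2 ≠ z.2

theorem gcu_fam : ∀ (e : Bool) (a a' : Z), ∃ m ∈ fam e, m.1 = [] ∧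
    (∀ y ∈ m.2.1, isQ y = !e ∧ y ≠ a) ∧ ∀ y ∈ m.2.2, isQ y = e ∧ y ≠ a' := by
  decide +kernel

theorem gcu_miss {R : Z → Z → Prop} {x : Z} (h : Big R x) (b : Bool) :
    ∃ a, ∀ y, isQ y = b ∧ y ≠ a → R x y := by
  by_cases hc : ∃ a, isQ a = b ∧ ¬ R x a
  · obtain ⟨a, h1, h2⟩ := hc
    exact ⟨a, fun y hy => (h y a hy.2 (hy.1.trans h1.symm)).resolve_right h2⟩
  · exact ⟨0, fun y hy => by_contra fun hn => hc ⟨y, hy.1, hn⟩⟩

theorem gcu_big {R : Z → Z → Prop} (h : Big R 1 ∧ Big R (-1)) (e : Bool) : RowOK e R := by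
  obtain ⟨a, ha⟩ := gcu_miss h.1 (!e)
  obtain ⟨a', ha'⟩ := gcu_miss h.2 e
  obtain ⟨m, h0, h1, h2, h3⟩ := gcu_fam e a a'
  exact ⟨m, h0, by simp [h1], fun y hy => ha y (h2 y hy), fun y hy => ha' y (h3 y hy)⟩

theorem gcu_sym {L : List ((Z → Z → Prop) × Z)} (hL : AllTy L) (e : Bool) : Sym (gcuS e L) :=
  bjr_par_sym (bjr_sch_sym L hL)

theorem gcu_mk {L : List ((Z → Z → Prop) × Z)} (hL : AllTy L) {e : Bool} (h1 : RowOK e (sch L))
    (h2 : RowOK e (sch (bjrInv L))) : Ty2 e (gcuS e L) := by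
  refine bjr_ty2_mk (gcu_sym hL e) h1 h2 (fun x y hp hxy => ⟨hp, hxy⟩) ?_
  rintro x y hp ⟨c, hc, h⟩
  exact ⟨by rw [Bool.xor_comm]; exact hp, c, hc, bjr_ch_inv c L x y h⟩

theorem gcu_rev {L : List ((Z → Z → Prop) × Z)} (hL : AllTy L) {e : Bool}
    (h : Ty2 e (gcuS e (bjrInv L))) : Ty2 e (gcuS e L) := by
  refine bjr_ty2_mono (bjr_ty2_inv h) (gcu_sym hL e) ?_
  rintro x y hp ⟨-, c, hc, h⟩
  exact ⟨hp, c, hc, bjr_ch_inv c L _ _ h⟩

theorem gcu_row (h4 : St_J2) (h5 : St_J3) {L : List ((Z → Z → Prop) × Z)} (hL : AllTy L)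
    (g1 : gcuH L) (g2 : gcuH (bjrInv L)) (e : Bool) : RowOK e (sch L) := by
  obtain ⟨z, z', K, e1, k1, k2⟩ := g2
  have e2 : L = bjrInv K ++ [(fun x y => z'.1 y x, z'.2), (fun x y => z.1 y x, z.2)] := by
    rw [← gce_inv_inv L, e1]
    simp [bjrInv]
  obtain ⟨w, w', K', e3, k3, -⟩ := g1
  generalize bjrInv K = M at e2
  subst e2
  rcases M with _ | ⟨v, M⟩
  · obtain ⟨a, ha⟩ := hL (fun x y => z.1 y x, z.2) (by simp)
    obtain ⟨b, hb⟩ := hL (fun x y => z'.1 y x, z'.2) (by simp)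
    obtain rfl := (List.cons.inj e3).1
    exact h4 a b _ _ _ _ ha hb k1 k3 k2 e
  · obtain rfl := (List.cons.inj e3).1
    exact gcu_big (h5 _ _ _ M hL k1 k2 k3) e

theorem gcu_one (h2 : St_OP) (h3 : St_J1) {z : (Z → Z → Prop) × Z} (hL : AllTy [z])
    (h0 : z.2 ≠ 0) (e : Bool) :
    Ty e (gcuS e [z]) ∧ ((∃ e', Ty2 e' z.1) → Ty2 e (gcuS e [z])) := by
  have main : (∃ e', Ty2 e' z.1) → Ty2 e (gcuS e [z]) := by
    rintro ⟨e', he⟩
    exact gcu_mk hL (h3 e' z.1 z.2 he h0 e) (h3 e' _ z.2 (bjr_ty2_inv he) h0 e)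
  refine ⟨?_, main⟩
  obtain ⟨e', ⟨-, d, hd⟩ | he⟩ := hL z (by simp)
  · refine Or.inl ⟨gcu_sym hL e, d, fun x y hxy => ⟨hxy.2, ?_⟩⟩
    obtain ⟨c, hc, h⟩ := h2.1 d e' e z.2 h0 x y hxy
    exact ⟨c, hc, x, rfl, hd _ _ h⟩
  · exact Or.inr (main ⟨e', he⟩)

theorem gcu_red (h1 : St_CL) {n : ℕ}
    (ih : ∀ L : List ((Z → Z → Prop) × Z), L.length ≤ n → AllTy L → (∃ z ∈ L, z.2 ≠ 0) → ∀ e,
      Ty e (gcuS e L) ∧ (2 ≤ L.length → Ty2 e (gcuS e L)))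
    {L : List ((Z → Z → Prop) × Z)} (hn : L.length ≤ n + 1) (h2 : 2 ≤ L.length) (hL : AllTy L)
    (hz : ∃ z ∈ L, z.2 ≠ 0)
    (one : ∀ z : (Z → Z → Prop) × Z, z.2 ≠ 0 → (∃ e', Ty2 e' z.1) → ∀ e, Ty2 e (gcuS e [z])) :
    gcuH L ∨ ∀ e, Ty2 e (gcuS e L) := by
  match L, hn, h2, hL, hz with
  | z :: z' :: K, hn, _, hL, hz =>
    obtain ⟨a, ha⟩ := hL z (by simp)
    obtain ⟨b, hb⟩ := hL z' (by simp)
    have hK : AllTy (z' :: K) := fun w hw => hL w (List.mem_cons_of_mem _ hw)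
    by_cases h0 : z.2 = 0
    · refine Or.inr fun e => ?_
      have nz : ∃ w ∈ z' :: K, w.2 ≠ 0 := by
        obtain ⟨w, hw, hw0⟩ := hz
        rcases List.mem_cons.1 hw with rfl | hw
        exacts [absurd h0 hw0, ⟨w, hw, hw0⟩]
      have k := h1 _ _ _ _ (ih _ (by simpa using hn) hK nz (xor e a)).1 (bjr_ty_par ha)
      rw [show xor (xor e a) a = e by cases e <;> cases a <;> rfl] at k
      refine bjr_ty2_mono k (gcu_sym hL e) ?_
      rintro x y hp ⟨p, ⟨-, c, hc, k1⟩, -, k2⟩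
      refine ⟨hp, c, hc, p, k1, ?_⟩
      show z.1 (p - c * z.2) (y - c * z.2)
      rwa [h0, mul_zero, sub_zero, sub_zero]
    by_cases h3 : z'.2 = z.2
    · refine Or.inr fun e => ?_
      have k := h1 _ _ _ _ hb ha
      have k2 : Ty2 e (gcuS e ((fun x y => ∃ p, z'.1 x p ∧ z.1 p y, z.2) :: K)) := by
        rcases K with _ | ⟨v, K⟩
        · exact one (fun x y => ∃ p, z'.1 x p ∧ z.1 p y, z.2) h0 ⟨_, k⟩ e
        · refine (ih ((fun x y => ∃ p, z'.1 x p ∧ z.1 p y, z.2) :: v :: K) (by simpa using hn)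
            (fun w hw => ?_) ⟨_, List.mem_cons_self, h0⟩ e).2 (by simp)
          rcases List.mem_cons.1 hw with rfl | hw
          exacts [⟨_, Or.inr k⟩, hK w (List.mem_cons_of_mem _ hw)]
      refine bjr_ty2_mono k2 (gcu_sym hL e) ?_
      rintro x y hp ⟨-, c, hc, q, k3, p, k4, k5⟩
      refine ⟨hp, c, hc, p + c * z.2, ⟨q, k3, ?_⟩, ?_⟩
      · show z'.1 (q - c * z'.2) (p + c * z.2 - c * z'.2)
        rwa [h3, add_sub_cancel_right]
      · show z.1 (p + c * z.2 - c * z.2) (y - c * z.2)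
        rwa [add_sub_cancel_right]
    · exact Or.inl ⟨z, z', K, rfl, h0, h3⟩

theorem gcu_main (h1 : St_CL) (h2 : St_OP) (h3 : St_J1) (h4 : St_J2) (h5 : St_J3) (n : ℕ) :
    ∀ L : List ((Z → Z → Prop) × Z), L.length ≤ n → AllTy L → (∃ z ∈ L, z.2 ≠ 0) → ∀ e,
      Ty e (gcuS e L) ∧ (2 ≤ L.length → Ty2 e (gcuS e L)) := by
  have one : ∀ z : (Z → Z → Prop) × Z, z.2 ≠ 0 → (∃ e', Ty2 e' z.1) → ∀ e,
      Ty2 e (gcuS e [z]) := fun z h0 ⟨e', he⟩ e =>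
    (gcu_one h2 h3 (fun w hw => ⟨e', Or.inr (List.mem_singleton.1 hw ▸ he)⟩) h0 e).2 ⟨e', he⟩
  induction n with
  | zero =>
    rintro L hn _ ⟨z, hz, _⟩
    have := List.length_pos_of_mem hz
    omega
  | succ n ih =>
    intro L hn hL hz e
    have main : 2 ≤ L.length → Ty2 e (gcuS e L) := by
      intro hl
      have hI := gce_inv_ty hL
      rcases gcu_red h1 ih hn hl hL hz one with g1 | g1
      · rcases gcu_red h1 ih (L := bjrInv L) (by simpa [bjrInv] using hn)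
          (by simpa [bjrInv] using hl) hI (gce_inv_nz hz) one with g2 | g2
        · exact gcu_mk hL (gcu_row h4 h5 hL g1 g2 e)
            (gcu_row h4 h5 hI g2 (by rwa [gce_inv_inv]) e)
        · exact gcu_rev hL (g2 e)
      · exact g1 e
    refine ⟨?_, main⟩
    match L, hL, hz, main with
    | [z], hL, ⟨w, hw, h0⟩, _ => exact (gcu_one h2 h3 hL (List.mem_singleton.1 hw ▸ h0) e).1
    | _ :: _ :: _, _, _, main => exact Or.inr (main (by simp))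

theorem blk_CU (h1 : St_CL) (h2 : St_OP) (h3 : St_J1) (h4 : St_J2) (h5 : St_J3) : St_CU := by
  intro L hL hz hc e
  have k : Ty2 e (gcuS e L) := by
    match L, hL, hz, hc with
    | [z], hL, ⟨w, hw, h0⟩, hc =>
      exact (gcu_one h2 h3 hL (List.mem_singleton.1 hw ▸ h0) e).2
        (hc.resolve_left (by simp) z (by simp))
    | _ :: _ :: _, hL, hz, _ => exact (gcu_main h1 h2 h3 h4 h5 _ _ le_rfl hL hz e).2 (by simp)
  exact bjr_row_par k.2.1 fun _ _ _ h => h.2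

end Pool.Agent.OD66
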