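import Pool.Agent.Lib.OD.Tab10

set_option autoImplicit false

namespace Pool.Agent.OD66

/-- the squares -/
def j12qs : List Z := [1, 3, 4, 5, 9]

/-- all labels -/
def j12zs : List Z := [0, 1, 2, 3, 4, 5, 6, 7, 8, 9, 10]

theorem j12qs_isQ : ∀ c ∈ j12qs, isQ c = true := by decide

/-- lanes in which the rows `S` are admissible -/
def j12cov (u : ℕ) (S : Z → Z → ℕ) (e : Bool) : ℕ :=
  j12or (fun m : List Z × List Z × List Z =>
    j12and (j12and (j12and u (S 0) m.1) (S 1) m.2.1) (S (-1)) m.2.2) (fam e)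

theorem j12cov_sound (u : ℕ) (S : Z → Z → ℕ) (e : Bool) (k : ℕ) (R : Z → Z → Prop)
    (hS : ∀ x y, (S x y).testBit k = true → R x y) (h : (j12cov u S e).testBit k = true) :
    RowOK e R := by
  obtain ⟨m, hm, h1⟩ := j12or_bit _ k _ h
  obtain ⟨h2, h3⟩ := j12and_bit _ _ k _ h1
  obtain ⟨h4, h5⟩ := j12and_bit _ _ k _ h2
  obtain ⟨_, h6⟩ := j12and_bit _ _ k _ h4
  exact ⟨m, hm, fun y hy => hS _ _ (h6 y hy), fun y hy => hS _ _ (h5 y hy),
    fun y hy => hS _ _ (h3 y hy)⟩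

/-- one step -/
def j12S1 (t x y : Z) : ℕ := j12or (fun c => j12t (x - c * t) (y - c * t)) j12qs

theorem j12_chkJ1 : ∀ t : Z, t ≠ 0 → ∀ e : Bool,
    j12cov (2 ^ 76 - 16) (j12S1 t) e = 2 ^ 76 - 16 := by
  decide +kernel

theorem j12_mask : ∀ i, i < 76 → 4 ≤ i → (2 ^ 76 - 16 : ℕ).testBit i = true := by
  decide +kernel

theorem blk_J1 : St_J1 := by
  intro e1 R1 t1 h ht e
  obtain ⟨i, h4, h76, hi⟩ := j12_row_min h.1 h.2.1
  refine j12cov_sound (2 ^ 76 - 16) (j12S1 t1) e i _ ?_ ?_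
  · intro x y hxy
    obtain ⟨c, hc, h1⟩ := j12or_bit _ i _ hxy
    exact ⟨c, j12qs_isQ c hc, x, rfl, hi _ _ h1⟩
  · rw [j12_chkJ1 t1 ht e]
    exact j12_mask i h76 h4

/-- lane `76 i + j` holds the bit `i` -/
def j12spr (a : ℕ) : ℕ := j12cat 76 (fun n => if a.testBit n = true then 2 ^ 76 - 1 else 0) 76

/-- lane `76 i + j` holds the bit `j` -/
def j12rep (a : ℕ) : ℕ := j12cat 76 (fun _ => a) 76

theorem j12spr_bit (a i j : ℕ) (hj : j < 76) (h : (j12spr a).testBit (76 * i + j) = true) :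
    a.testBit i = true := by
  have := j12cat_bit 76 _ (fun n => by split_ifs <;> norm_num) i j hj 76 h
  by_contra hc
  rw [if_neg hc] at this
  simp at this

theorem j12rep_bit (a i j : ℕ) (ha : a < 2 ^ 76) (hj : j < 76)
    (h : (j12rep a).testBit (76 * i + j) = true) : a.testBit j = true :=
  j12cat_bit 76 _ (fun _ => ha) i j hj 76 h

/-- table of first steps -/
def j12tabA : List (List ℕ) := j12ta.map (List.map j12spr)

/-- table of second steps -/
def j12tabB : List (List ℕ) := j12ta.map (List.map j12rep)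

/-- first steps -/
def j12A (x y : Z) : ℕ := j12nth (j12spr 0) (j12nth [] j12tabA x.val) y.val

/-- second steps -/
def j12B (x y : Z) : ℕ := j12nth (j12rep 0) (j12nth [] j12tabB x.val) y.val

theorem j12A_eq (x y : Z) : j12A x y = j12spr (j12t x y) := by
  unfold j12A j12tabA j12t
  have := j12nth_map (List.map j12spr) [] j12ta x.val
  rw [List.map_nil] at this
  rw [this, j12nth_map]

theorem j12B_eq (x y : Z) : j12B x y = j12rep (j12t x y) := by
  unfold j12B j12tabB j12t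
  have := j12nth_map (List.map j12rep) [] j12ta x.val
  rw [List.map_nil] at this
  rw [this, j12nth_map]

/-- two steps -/
def j12S2 (t1 t2 x y : Z) : ℕ :=
  j12or (fun c => j12or (fun p =>
    j12A (x - c * t1) (p - c * t1) &&& j12B (p - c * t2) (y - c * t2)) j12zs) j12qs

theorem j12_chkJ2a : ∀ t : Z, t ≠ 0 → t ≠ 1 → ∀ e : Bool,
    j12cov (2 ^ 5776 - 1) (j12S2 1 t) e = 2 ^ 5776 - 1 := by
  decide +kernel

theorem j12_chkJ2b : ∀ t : Z, t ≠ 0 → t ≠ -1 → ∀ e : Bool,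
    j12cov (2 ^ 5776 - 1) (j12S2 (-1) t) e = 2 ^ 5776 - 1 := by
  decide +kernel

theorem j12_J2_core {e1 e2 : Bool} {R1 R2 : Z → Z → Prop} (h1 : Ty e1 R1) (h2 : Ty e2 R2)
    (t1 t2 : Z) (e : Bool) (h : j12cov (2 ^ 5776 - 1) (j12S2 t1 t2) e = 2 ^ 5776 - 1) :
    RowOK e (sch [(R2, t2), (R1, t1)]) := by
  obtain ⟨i, hi, hR1⟩ := j12_ty_min h1
  obtain ⟨j, hj, hR2⟩ := j12_ty_min h2
  refine j12cov_sound (2 ^ 5776 - 1) (j12S2 t1 t2) e (76 * i + j) _ ?_ ?_
  · intro x y hxy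
    obtain ⟨c, hc, h3⟩ := j12or_bit _ _ _ hxy
    obtain ⟨p, _, h4⟩ := j12or_bit _ _ _ h3
    rw [Nat.testBit_and, Bool.and_eq_true, j12A_eq, j12B_eq] at h4
    exact ⟨c, j12qs_isQ c hc, p, ⟨x, rfl, hR1 _ _ (j12spr_bit _ i j hj h4.1)⟩,
      hR2 _ _ (j12rep_bit _ i j (j12_lt _ _) hj h4.2)⟩
  · rw [h, Nat.testBit_two_pow_sub_one]
    exact decide_eq_true (by omega)

theorem j12_rot : ∀ t : Z, t ≠ 0 → ∃ c, isQ c = true ∧ (c * t = 1 ∨ c * t = -1) := by
  decide +kernel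

theorem j12_qmul : ∀ c c' : Z, isQ c = true → isQ c' = true → isQ (c' * c) = true := by
  decide +kernel

theorem j12_canc : ∀ c : Z, isQ c = true → ∀ a b : Z, c * a = c * b → a = b := by
  decide +kernel

theorem blk_J2 : St_J2 := by
  intro e1 e2 R1 R2 t1 t2 h1 h2 ht1 ht2 h21 e
  obtain ⟨c, hc, hct⟩ := j12_rot t1 ht1
  have a1 : c * t2 ≠ 0 := fun h => ht2 (j12_canc c hc _ _ (by rw [h, mul_zero]))
  have a2 : c * t2 ≠ c * t1 := fun h => h21 (j12_canc c hc _ _ h)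
  have key : RowOK e (sch [(R2, c * t2), (R1, c * t1)]) := by
    rcases hct with h | h
    · rw [h] at a2 ⊢
      exact j12_J2_core h1 h2 _ _ e (j12_chkJ2a _ a1 a2 e)
    · rw [h] at a2 ⊢
      exact j12_J2_core h1 h2 _ _ e (j12_chkJ2b _ a1 a2 e)
  have mono : ∀ x y, sch [(R2, c * t2), (R1, c * t1)] x y → sch [(R2, t2), (R1, t1)] x y := by
    rintro x y ⟨c', hc', h⟩
    refine ⟨c' * c, j12_qmul c c' hc hc', ?_⟩
    simpa only [scale, List.map_cons, List.map_nil, mul_assoc] using h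
  obtain ⟨m, hm, r0, r1, r2⟩ := key
  exact ⟨m, hm, fun y hy => mono _ _ (r0 y hy), fun y hy => mono _ _ (r1 y hy),
    fun y hy => mono _ _ (r2 y hy)⟩

end Pool.Agent.OD66
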