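import Pool.Agent.Lib.OD.J3E

set_option autoImplicit false

namespace Pool.Agent.OD66.J3

def a0 : Zd := .nd 21 .top .bot
def a1 : Zd := .nd 20 a0 .bot
def a2 : Zd := .nd 18 a1 .bot
def a3 : Zd := .nd 14 a0 a2
def a4 : Zd := .nd 3 a3 .bot
def a5 : Zd := .nd 19 .top .bot
def a6 : Zd := .nd 8 a5 .bot
def a7 : Zd := .nd 7 a6 .bot
def a8 : Zd := .nd 16 a7 .bot
def a9 : Zd := .nd 20 .top .bot
def a10 : Zd := .nd 18 a9 .bot
def a11 : Zd := .nd 10 .top .bot
def a12 : Zd := .nd 18 a11 .bot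
def a13 : Zd := .nd 7 a12 .bot
def a14 : Zd := .nd 17 a10 a13
def a15 : Zd := .nd 6 a14 .bot
def a16 : Zd := .nd 10 a0 .bot
def a17 : Zd := .nd 20 a16 .bot
def a18 : Zd := .nd 7 a17 .bot
def a19 : Zd := .nd 16 a18 .bot
def a20 : Zd := .nd 15 a15 a19
def a21 : Zd := .nd 4 a8 a20
def a22 : Zd := .nd 13 a4 a21
def a23 : Zd := .nd 8 a11 .bot
def a24 : Zd := .nd 18 a23 .bot
def a25 : Zd := .nd 5 a24 .bot
def a26 : Zd := .nd 19 a1 .bot
def a27 : Zd := .nd 17 a16 .bot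
def a28 : Zd := .nd 6 a27 .bot
def a29 : Zd := .nd 16 a28 .bot
def a30 : Zd := .nd 4 a26 a29
def a31 : Zd := .nd 3 a25 a30
def a32 : Zd := .nd 9 .top .bot
def a33 : Zd := .nd 17 a32 .bot
def a34 : Zd := .nd 6 a33 .bot
def a35 : Zd := .nd 5 a34 .bot
def a36 : Zd := .nd 19 a16 .bot
def a37 : Zd := .nd 8 a36 .bot
def a38 : Zd := .nd 15 a35 a37
def a39 : Zd := .nd 14 a38 .bot
def a40 : Zd := .nd 18 .top .bot
def a41 : Zd := .nd 7 a40 .bot
def a42 : Zd := .nd 17 a41 .bot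
def a43 : Zd := .nd 6 a42 .bot
def a44 : Zd := .nd 8 a17 .bot
def a45 : Zd := .nd 17 a44 .bot
def a46 : Zd := .nd 15 a43 a45
def a47 : Zd := .nd 8 a16 .bot
def a48 : Zd := .nd 18 a47 .bot
def a49 : Zd := .nd 17 a48 .bot
def a50 : Zd := .nd 16 a49 .bot
def a51 : Zd := .nd 4 a46 a50
def a52 : Zd := .nd 3 a39 a51
def a53 : Zd := .nd 13 a31 a52
def a54 : Zd := .nd 2 a22 a53
def a55 : Zd := .nd 5 a23 .bot
def a56 : Zd := .nd 15 a55 .bot
def a57 : Zd := .nd 4 a56 .bot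
def a58 : Zd := .nd 9 a11 .bot
def a59 : Zd := .nd 8 a58 .bot
def a60 : Zd := .nd 7 a23 .bot
def a61 : Zd := .nd 5 a59 a60
def a62 : Zd := .nd 17 a23 a59
def a63 : Zd := .nd 6 a62 .bot
def a64 : Zd := .nd 4 a61 a63
def a65 : Zd := .nd 17 a12 .bot
def a66 : Zd := .nd 16 a65 .bot
def a67 : Zd := .nd 5 a66 .bot
def a68 : Zd := .nd 9 a1 .bot
def a69 : Zd := .nd 8 a68 .bot
def a70 : Zd := .nd 18 a17 a69
def a71 : Zd := .nd 7 a70 .bot
def a72 : Zd := .nd 6 a71 .bot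
def a73 : Zd := .nd 14 a67 a72
def a74 : Zd := .nd 3 a64 a73
def a75 : Zd := .nd 13 a57 a74
def a76 : Zd := .nd 19 a11 .bot
def a77 : Zd := .nd 5 a76 .bot
def a78 : Zd := .nd 14 a77 .bot
def a79 : Zd := .nd 3 a78 .bot
def a80 : Zd := .nd 19 a9 .bot
def a81 : Zd := .nd 8 a80 .bot
def a82 : Zd := .nd 15 a81 .bot
def a83 : Zd := .nd 19 a68 .bot
def a84 : Zd := .nd 6 a83 .bot
def a85 : Zd := .nd 16 a84 .bot
def a86 : Zd := .nd 14 a82 a85
def a87 : Zd := .nd 17 a7 .bot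
def a88 : Zd := .nd 8 .top .bot
def a89 : Zd := .nd 18 a88 .bot
def a90 : Zd := .nd 7 a89 .bot
def a91 : Zd := .nd 17 a90 .bot
def a92 : Zd := .nd 6 a91 .bot
def a93 : Zd := .nd 15 a87 a92
def a94 : Zd := .nd 4 a93 .bot
def a95 : Zd := .nd 19 a32 .bot
def a96 : Zd := .nd 18 a95 .bot
def a97 : Zd := .nd 17 a96 .bot
def a98 : Zd := .nd 6 a60 .bot
def a99 : Zd := .nd 5 a98 .bot
def a100 : Zd := .nd 15 a97 a99
def a101 : Zd := .nd 4 a100 .bot
def a102 : Zd := .nd 14 a94 a101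
def a103 : Zd := .nd 3 a86 a102
def a104 : Zd := .nd 13 a79 a103
def a105 : Zd := .nd 2 a75 a104
def a106 : Zd := .nd 12 a54 a105
def a107 : Zd := .nd 15 a47 .bot
def a108 : Zd := .nd 14 a107 .bot
def a109 : Zd := .nd 8 a0 .bot
def a110 : Zd := .nd 7 a109 .bot
def a111 : Zd := .nd 17 a110 .bot
def a112 : Zd := .nd 17 a11 .bot
def a113 : Zd := .nd 6 a112 .bot
def a114 : Zd := .nd 16 a113 .bot
def a115 : Zd := .nd 5 a114 .bot
def a116 : Zd := .nd 4 a111 a115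
def a117 : Zd := .nd 8 a1 .bot
def a118 : Zd := .nd 6 a117 .bot
def a119 : Zd := .nd 15 a118 .bot
def a120 : Zd := .nd 4 a119 .bot
def a121 : Zd := .nd 14 a116 a120
def a122 : Zd := .nd 13 a108 a121
def a123 : Zd := .nd 16 a88 .bot
def a124 : Zd := .nd 5 a123 .bot
def a125 : Zd := .nd 15 a124 .bot
def a126 : Zd := .nd 18 a5 .bot
def a127 : Zd := .nd 7 a126 .bot
def a128 : Zd := .nd 7 a10 .bot
def a129 : Zd := .nd 6 a128 .bot
def a130 : Zd := .nd 5 a127 a129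
def a131 : Zd := .nd 15 a130 .bot
def a132 : Zd := .nd 4 a125 a131
def a133 : Zd := .nd 7 a11 .bot
def a134 : Zd := .nd 6 a133 .bot
def a135 : Zd := .nd 15 a134 .bot
def a136 : Zd := .nd 19 a0 .bot
def a137 : Zd := .nd 17 a136 .bot
def a138 : Zd := .nd 18 a0 .bot
def a139 : Zd := .nd 17 a138 .bot
def a140 : Zd := .nd 16 a139 .bot
def a141 : Zd := .nd 18 a80 .bot
def a142 : Zd := .nd 17 a141 .bot
def a143 : Zd := .nd 5 a140 a142
def a144 : Zd := .nd 15 a137 a143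
def a145 : Zd := .nd 4 a135 a144
def a146 : Zd := .nd 18 a136 .bot
def a147 : Zd := .nd 16 a146 .bot
def a148 : Zd := .nd 8 a9 .bot
def a149 : Zd := .nd 18 a148 .bot
def a150 : Zd := .nd 17 a149 .bot
def a151 : Zd := .nd 6 a111 a150
def a152 : Zd := .nd 5 a151 .bot
def a153 : Zd := .nd 15 a147 a152
def a154 : Zd := .nd 14 a145 a153
def a155 : Zd := .nd 3 a132 a154
def a156 : Zd := .nd 17 a10 .bot
def a157 : Zd := .nd 5 a156 .bot
def a158 : Zd := .nd 15 a157 .bot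
def a159 : Zd := .nd 20 a11 .bot
def a160 : Zd := .nd 19 a159 .bot
def a161 : Zd := .nd 18 a160 .bot
def a162 : Zd := .nd 6 a161 .bot
def a163 : Zd := .nd 5 a162 .bot
def a164 : Zd := .nd 4 a158 a163
def a165 : Zd := .nd 9 a0 .bot
def a166 : Zd := .nd 18 a165 .bot
def a167 : Zd := .nd 17 a166 .bot
def a168 : Zd := .nd 16 a167 .bot
def a169 : Zd := .nd 18 a69 .bot
def a170 : Zd := .nd 7 a169 .bot
def a171 : Zd := .nd 16 a170 .bot
def a172 : Zd := .nd 5 a168 a171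
def a173 : Zd := .nd 14 a164 a172
def a174 : Zd := .nd 13 a155 a173
def a175 : Zd := .nd 2 a122 a174
def a176 : Zd := .nd 6 a89 .bot
def a177 : Zd := .nd 16 a176 .bot
def a178 : Zd := .nd 16 a149 .bot
def a179 : Zd := .nd 4 a177 a178
def a180 : Zd := .nd 4 a135 .bot
def a181 : Zd := .nd 17 a6 .bot
def a182 : Zd := .nd 16 a181 .bot
def a183 : Zd := .nd 15 a182 .bot
def a184 : Zd := .nd 8 a95 .bot
def a185 : Zd := .nd 7 a184 .bot
def a186 : Zd := .nd 16 a185 .bot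
def a187 : Zd := .nd 9 a9 .bot
def a188 : Zd := .nd 8 a0 a187
def a189 : Zd := .nd 17 a188 .bot
def a190 : Zd := .nd 6 a189 .bot
def a191 : Zd := .nd 16 a190 .bot
def a192 : Zd := .nd 6 a44 .bot
def a193 : Zd := .nd 9 a159 .bot
def a194 : Zd := .nd 19 a193 .bot
def a195 : Zd := .nd 8 a194 .bot
def a196 : Zd := .nd 18 a195 .bot
def a197 : Zd := .nd 16 a192 a196
def a198 : Zd := .nd 5 a191 a197
def a199 : Zd := .nd 15 a186 a198
def a200 : Zd := .nd 4 a183 a199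
def a201 : Zd := .nd 14 a180 a200
def a202 : Zd := .nd 3 a179 a201
def a203 : Zd := .nd 16 a24 .bot
def a204 : Zd := .nd 8 a165 .bot
def a205 : Zd := .nd 6 a204 .bot
def a206 : Zd := .nd 16 a205 .bot
def a207 : Zd := .nd 5 a203 a206
def a208 : Zd := .nd 8 a32 .bot
def a209 : Zd := .nd 7 a208 .bot
def a210 : Zd := .nd 6 a209 .bot
def a211 : Zd := .nd 5 a210 .bot
def a212 : Zd := .nd 14 a207 a211
def a213 : Zd := .nd 8 a187 .bot
def a214 : Zd := .nd 7 a213 .bot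
def a215 : Zd := .nd 5 a214 .bot
def a216 : Zd := .nd 6 a23 .bot
def a217 : Zd := .nd 16 a216 .bot
def a218 : Zd := .nd 5 a217 .bot
def a219 : Zd := .nd 15 a218 .bot
def a220 : Zd := .nd 4 a215 a219
def a221 : Zd := .nd 19 a58 .bot
def a222 : Zd := .nd 7 a221 .bot
def a223 : Zd := .nd 18 a81 .bot
def a224 : Zd := .nd 7 a223 .bot
def a225 : Zd := .nd 17 a222 a224
def a226 : Zd := .nd 15 a225 .bot
def a227 : Zd := .nd 18 a68 .bot
def a228 : Zd := .nd 7 a227 .bot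
def a229 : Zd := .nd 19 a17 .bot
def a230 : Zd := .nd 18 a165 a229
def a231 : Zd := .nd 17 a230 .bot
def a232 : Zd := .nd 16 a231 .bot
def a233 : Zd := .nd 5 a228 a232
def a234 : Zd := .nd 9 a16 .bot
def a235 : Zd := .nd 7 a234 .bot
def a236 : Zd := .nd 6 a235 .bot
def a237 : Zd := .nd 5 a236 .bot
def a238 : Zd := .nd 15 a233 a237
def a239 : Zd := .nd 4 a226 a238
def a240 : Zd := .nd 14 a220 a239
def a241 : Zd := .nd 3 a212 a240
def a242 : Zd := .nd 13 a202 a241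
def a243 : Zd := .nd 6 a7 .bot
def a244 : Zd := .nd 7 a26 .bot
def a245 : Zd := .nd 5 a244 .bot
def a246 : Zd := .nd 15 a243 a245
def a247 : Zd := .nd 17 a213 .bot
def a248 : Zd := .nd 18 a187 .bot
def a249 : Zd := .nd 17 a248 .bot
def a250 : Zd := .nd 6 a110 .bot
def a251 : Zd := .nd 16 a250 .bot
def a252 : Zd := .nd 5 a251 .bot
def a253 : Zd := .nd 15 a249 a252
def a254 : Zd := .nd 4 a247 a253
def a255 : Zd := .nd 14 a246 a254
def a256 : Zd := .nd 17 a235 .bot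
def a257 : Zd := .nd 17 a2 .bot
def a258 : Zd := .nd 16 a257 .bot
def a259 : Zd := .nd 4 a256 a258
def a260 : Zd := .nd 17 a223 .bot
def a261 : Zd := .nd 16 a260 .bot
def a262 : Zd := .nd 14 a259 a261
def a263 : Zd := .nd 3 a255 a262
def a264 : Zd := .nd 6 a90 .bot
def a265 : Zd := .nd 15 a264 .bot
def a266 : Zd := .nd 17 a127 .bot
def a267 : Zd := .nd 6 a266 .bot
def a268 : Zd := .nd 18 a208 .bot
def a269 : Zd := .nd 17 a268 .bot
def a270 : Zd := .nd 16 a269 .bot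
def a271 : Zd := .nd 6 a269 .bot
def a272 : Zd := .nd 16 a271 .bot
def a273 : Zd := .nd 5 a270 a272
def a274 : Zd := .nd 15 a267 a273
def a275 : Zd := .nd 4 a265 a274
def a276 : Zd := .nd 7 a10 a138
def a277 : Zd := .nd 6 a276 .bot
def a278 : Zd := .nd 16 a90 a277
def a279 : Zd := .nd 5 a278 .bot
def a280 : Zd := .nd 15 a279 .bot
def a281 : Zd := .nd 4 a280 .bot
def a282 : Zd := .nd 14 a275 a281
def a283 : Zd := .nd 8 a229 .bot
def a284 : Zd := .nd 16 a283 .bot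
def a285 : Zd := .nd 5 a284 .bot
def a286 : Zd := .nd 18 a26 .bot
def a287 : Zd := .nd 7 a286 .bot
def a288 : Zd := .nd 17 a287 .bot
def a289 : Zd := .nd 8 a76 .bot
def a290 : Zd := .nd 7 a289 .bot
def a291 : Zd := .nd 6 a290 .bot
def a292 : Zd := .nd 5 a291 .bot
def a293 : Zd := .nd 15 a288 a292
def a294 : Zd := .nd 17 a18 .bot
def a295 : Zd := .nd 17 a286 .bot
def a296 : Zd := .nd 6 a294 a295
def a297 : Zd := .nd 16 a296 .bot
def a298 : Zd := .nd 17 a228 .bot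
def a299 : Zd := .nd 6 a298 .bot
def a300 : Zd := .nd 16 a299 .bot
def a301 : Zd := .nd 15 a297 a300
def a302 : Zd := .nd 4 a293 a301
def a303 : Zd := .nd 14 a285 a302
def a304 : Zd := .nd 3 a282 a303
def a305 : Zd := .nd 13 a263 a304
def a306 : Zd := .nd 2 a242 a305
def a307 : Zd := .nd 12 a175 a306
def a308 : Zd := .nd 1 a106 a307
def a309 : Zd := .nd 7 a88 .bot
def a310 : Zd := .nd 16 a309 .bot
def a311 : Zd := .nd 7 a0 .bot
def a312 : Zd := .nd 17 a311 .bot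
def a313 : Zd := .nd 16 a312 .bot
def a314 : Zd := .nd 15 a310 a313
def a315 : Zd := .nd 4 a59 a314
def a316 : Zd := .nd 6 a234 .bot
def a317 : Zd := .nd 15 a139 a316
def a318 : Zd := .nd 18 a32 .bot
def a319 : Zd := .nd 17 a318 .bot
def a320 : Zd := .nd 15 a319 .bot
def a321 : Zd := .nd 14 a317 a320
def a322 : Zd := .nd 3 a315 a321
def a323 : Zd := .nd 17 a40 .bot
def a324 : Zd := .nd 6 a323 .bot
def a325 : Zd := .nd 5 a23 a324
def a326 : Zd := .nd 6 a208 .bot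
def a327 : Zd := .nd 16 a128 a326
def a328 : Zd := .nd 18 a58 .bot
def a329 : Zd := .nd 7 a159 a328
def a330 : Zd := .nd 7 a32 .bot
def a331 : Zd := .nd 6 a330 .bot
def a332 : Zd := .nd 16 a329 a331
def a333 : Zd := .nd 7 a96 .bot
def a334 : Zd := .nd 19 a234 .bot
def a335 : Zd := .nd 7 a334 .bot
def a336 : Zd := .nd 6 a333 a335
def a337 : Zd := .nd 5 a332 a336
def a338 : Zd := .nd 15 a327 a337
def a339 : Zd := .nd 4 a325 a338
def a340 : Zd := .nd 7 a58 a96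
def a341 : Zd := .nd 6 a340 .bot
def a342 : Zd := .nd 4 a341 .bot
def a343 : Zd := .nd 17 a309 .bot
def a344 : Zd := .nd 6 a343 .bot
def a345 : Zd := .nd 18 a16 .bot
def a346 : Zd := .nd 7 a24 .bot
def a347 : Zd := .nd 17 a345 a346
def a348 : Zd := .nd 6 a13 a347
def a349 : Zd := .nd 5 a344 a348
def a350 : Zd := .nd 7 a117 .bot
def a351 : Zd := .nd 17 a209 .bot
def a352 : Zd := .nd 6 a351 .bot
def a353 : Zd := .nd 16 a350 a352
def a354 : Zd := .nd 5 a353 .bot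
def a355 : Zd := .nd 4 a349 a354
def a356 : Zd := .nd 14 a342 a355
def a357 : Zd := .nd 3 a339 a356
def a358 : Zd := .nd 13 a322 a357
def a359 : Zd := .nd 5 a12 .bot
def a360 : Zd := .nd 4 a359 .bot
def a361 : Zd := .nd 17 a2 a194
def a362 : Zd := .nd 15 a361 .bot
def a363 : Zd := .nd 14 a360 a362
def a364 : Zd := .nd 17 a26 .bot
def a365 : Zd := .nd 6 a364 .bot
def a366 : Zd := .nd 7 a136 .bot
def a367 : Zd := .nd 6 a366 .bot
def a368 : Zd := .nd 5 a134 a367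
def a369 : Zd := .nd 8 a16 a95
def a370 : Zd := .nd 18 a369 .bot
def a371 : Zd := .nd 18 a1 a213
def a372 : Zd := .nd 7 a371 .bot
def a373 : Zd := .nd 17 a59 a372
def a374 : Zd := .nd 6 a373 .bot
def a375 : Zd := .nd 16 a370 a374
def a376 : Zd := .nd 5 a139 a375
def a377 : Zd := .nd 7 a1 .bot
def a378 : Zd := .nd 17 a377 .bot
def a379 : Zd := .nd 6 a378 .bot
def a380 : Zd := .nd 16 a379 .bot
def a381 : Zd := .nd 15 a376 a380
def a382 : Zd := .nd 4 a368 a381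
def a383 : Zd := .nd 14 a365 a382
def a384 : Zd := .nd 3 a363 a383
def a385 : Zd := .nd 7 a165 .bot
def a386 : Zd := .nd 6 a138 .bot
def a387 : Zd := .nd 16 a385 a386
def a388 : Zd := .nd 5 a387 a286
def a389 : Zd := .nd 7 a95 .bot
def a390 : Zd := .nd 16 a96 .bot
def a391 : Zd := .nd 5 a389 a390
def a392 : Zd := .nd 7 a59 .bot
def a393 : Zd := .nd 5 a392 a170
def a394 : Zd := .nd 15 a391 a393
def a395 : Zd := .nd 4 a388 a394
def a396 : Zd := .nd 17 a128 .bot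
def a397 : Zd := .nd 6 a58 a396
def a398 : Zd := .nd 16 a397 a291
def a399 : Zd := .nd 17 a60 .bot
def a400 : Zd := .nd 18 a193 .bot
def a401 : Zd := .nd 7 a400 .bot
def a402 : Zd := .nd 17 a401 .bot
def a403 : Zd := .nd 6 a399 a402
def a404 : Zd := .nd 16 a316 a403
def a405 : Zd := .nd 5 a398 a404
def a406 : Zd := .nd 18 a289 .bot
def a407 : Zd := .nd 7 a406 .bot
def a408 : Zd := .nd 16 a407 .bot
def a409 : Zd := .nd 15 a408 .bot
def a410 : Zd := .nd 4 a405 a409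
def a411 : Zd := .nd 3 a395 a410
def a412 : Zd := .nd 13 a384 a411
def a413 : Zd := .nd 2 a358 a412
def a414 : Zd := .nd 6 a11 .bot
def a415 : Zd := .nd 5 a414 a60
def a416 : Zd := .nd 4 a415 .bot
def a417 : Zd := .nd 7 a76 .bot
def a418 : Zd := .nd 15 a47 a417
def a419 : Zd := .nd 7 a328 .bot
def a420 : Zd := .nd 6 a247 a419
def a421 : Zd := .nd 4 a418 a420
def a422 : Zd := .nd 14 a416 a421
def a423 : Zd := .nd 5 a96 .bot
def a424 : Zd := .nd 15 a423 .bot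
def a425 : Zd := .nd 17 a204 .bot
def a426 : Zd := .nd 6 a425 .bot
def a427 : Zd := .nd 5 a69 a426
def a428 : Zd := .nd 7 a141 .bot
def a429 : Zd := .nd 6 a428 .bot
def a430 : Zd := .nd 7 a138 .bot
def a431 : Zd := .nd 17 a430 .bot
def a432 : Zd := .nd 16 a431 .bot
def a433 : Zd := .nd 5 a429 a432
def a434 : Zd := .nd 4 a427 a433
def a435 : Zd := .nd 14 a424 a434
def a436 : Zd := .nd 3 a422 a435
def a437 : Zd := .nd 7 a12 a208
def a438 : Zd := .nd 6 a437 .bot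
def a439 : Zd := .nd 15 a310 a438
def a440 : Zd := .nd 6 a47 a290
def a441 : Zd := .nd 15 a8 a440
def a442 : Zd := .nd 4 a439 a441
def a443 : Zd := .nd 17 a109 .bot
def a444 : Zd := .nd 7 a204 .bot
def a445 : Zd := .nd 6 a443 a444
def a446 : Zd := .nd 7 .top .bot
def a447 : Zd := .nd 6 a446 a23
def a448 : Zd := .nd 9 .top a11
def a449 : Zd := .nd 8 a448 a58
def a450 : Zd := .nd 9 a11 a16
def a451 : Zd := .nd 8 a450 .bot
def a452 : Zd := .nd 18 a9 a451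
def a453 : Zd := .nd 7 a449 a452
def a454 : Zd := .nd 7 a59 a194
def a455 : Zd := .nd 6 a453 a454
def a456 : Zd := .nd 16 a447 a455
def a457 : Zd := .nd 8 a193 .bot
def a458 : Zd := .nd 7 a289 a457
def a459 : Zd := .nd 6 a392 a458
def a460 : Zd := .nd 16 a166 a459
def a461 : Zd := .nd 5 a456 a460
def a462 : Zd := .nd 15 a445 a461
def a463 : Zd := .nd 7 a318 .bot
def a464 : Zd := .nd 5 a463 .bot
def a465 : Zd := .nd 17 a463 .bot
def a466 : Zd := .nd 8 a58 a187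
def a467 : Zd := .nd 7 a466 .bot
def a468 : Zd := .nd 6 a467 a269
def a469 : Zd := .nd 16 a465 a468
def a470 : Zd := .nd 17 a457 .bot
def a471 : Zd := .nd 8 a159 .bot
def a472 : Zd := .nd 18 a471 .bot
def a473 : Zd := .nd 7 a472 .bot
def a474 : Zd := .nd 6 a470 a473
def a475 : Zd := .nd 5 a469 a474
def a476 : Zd := .nd 15 a464 a475
def a477 : Zd := .nd 4 a462 a476
def a478 : Zd := .nd 14 a442 a477
def a479 : Zd := .nd 5 a65 .bot
def a480 : Zd := .nd 17 a58 .bot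
def a481 : Zd := .nd 17 a208 .bot
def a482 : Zd := .nd 16 a480 a481
def a483 : Zd := .nd 17 a309 a161
def a484 : Zd := .nd 6 a483 .bot
def a485 : Zd := .nd 5 a482 a484
def a486 : Zd := .nd 15 a479 a485
def a487 : Zd := .nd 7 a81 .bot
def a488 : Zd := .nd 6 a487 .bot
def a489 : Zd := .nd 5 a243 .bot
def a490 : Zd := .nd 15 a488 a489
def a491 : Zd := .nd 4 a486 a490
def a492 : Zd := .nd 18 a6 .bot
def a493 : Zd := .nd 17 a492 .bot
def a494 : Zd := .nd 6 a59 a493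
def a495 : Zd := .nd 5 a494 .bot
def a496 : Zd := .nd 6 a471 .bot
def a497 : Zd := .nd 7 a59 a213
def a498 : Zd := .nd 17 a95 a497
def a499 : Zd := .nd 6 a498 .bot
def a500 : Zd := .nd 16 a496 a499
def a501 : Zd := .nd 5 a500 .bot
def a502 : Zd := .nd 15 a495 a501
def a503 : Zd := .nd 7 a492 .bot
def a504 : Zd := .nd 6 a503 .bot
def a505 : Zd := .nd 16 a192 .bot
def a506 : Zd := .nd 5 a504 a505
def a507 : Zd := .nd 4 a502 a506
def a508 : Zd := .nd 14 a491 a507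
def a509 : Zd := .nd 3 a478 a508
def a510 : Zd := .nd 13 a436 a509
def a511 : Zd := .nd 17 .top .bot
def a512 : Zd := .nd 16 a511 .bot
def a513 : Zd := .nd 5 a512 .bot
def a514 : Zd := .nd 16 a414 .bot
def a515 : Zd := .nd 5 a514 .bot
def a516 : Zd := .nd 15 a513 a515
def a517 : Zd := .nd 19 a165 .bot
def a518 : Zd := .nd 6 a312 a517
def a519 : Zd := .nd 17 a7 a517
def a520 : Zd := .nd 7 a2 .bot
def a521 : Zd := .nd 17 a417 .bot
def a522 : Zd := .nd 6 a520 a521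
def a523 : Zd := .nd 16 a519 a522
def a524 : Zd := .nd 5 a518 a523
def a525 : Zd := .nd 4 a516 a524
def a526 : Zd := .nd 7 a5 .bot
def a527 : Zd := .nd 6 a526 .bot
def a528 : Zd := .nd 7 a58 a59
def a529 : Zd := .nd 17 a528 .bot
def a530 : Zd := .nd 5 a527 a529
def a531 : Zd := .nd 15 a247 a530
def a532 : Zd := .nd 5 a346 .bot
def a533 : Zd := .nd 4 a531 a532
def a534 : Zd := .nd 14 a525 a533
def a535 : Zd := .nd 7 a187 .bot
def a536 : Zd := .nd 18 a159 .bot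
def a537 : Zd := .nd 7 a536 .bot
def a538 : Zd := .nd 6 a535 a537
def a539 : Zd := .nd 16 a10 a527
def a540 : Zd := .nd 5 a539 .bot
def a541 : Zd := .nd 15 a538 a540
def a542 : Zd := .nd 7 a0 a109
def a543 : Zd := .nd 17 a542 .bot
def a544 : Zd := .nd 6 a543 .bot
def a545 : Zd := .nd 16 a544 .bot
def a546 : Zd := .nd 6 a193 .bot
def a547 : Zd := .nd 7 a80 .bot
def a548 : Zd := .nd 6 a547 .bot
def a549 : Zd := .nd 16 a546 a548
def a550 : Zd := .nd 6 a97 a286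
def a551 : Zd := .nd 18 a83 .bot
def a552 : Zd := .nd 16 a550 a551
def a553 : Zd := .nd 5 a549 a552
def a554 : Zd := .nd 15 a545 a553
def a555 : Zd := .nd 4 a541 a554
def a556 : Zd := .nd 17 a406 .bot
def a557 : Zd := .nd 7 a193 .bot
def a558 : Zd := .nd 5 a557 .bot
def a559 : Zd := .nd 15 a556 a558
def a560 : Zd := .nd 8 a136 .bot
def a561 : Zd := .nd 18 a560 .bot
def a562 : Zd := .nd 7 a12 a561
def a563 : Zd := .nd 17 a562 .bot
def a564 : Zd := .nd 16 a563 .bot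
def a565 : Zd := .nd 6 a286 .bot
def a566 : Zd := .nd 16 a229 a565
def a567 : Zd := .nd 5 a566 .bot
def a568 : Zd := .nd 15 a564 a567
def a569 : Zd := .nd 4 a559 a568
def a570 : Zd := .nd 14 a555 a569
def a571 : Zd := .nd 3 a534 a570
def a572 : Zd := .nd 5 a309 .bot
def a573 : Zd := .nd 9 a1 a16
def a574 : Zd := .nd 8 a573 .bot
def a575 : Zd := .nd 7 a574 .bot
def a576 : Zd := .nd 5 a60 a575
def a577 : Zd := .nd 15 a572 a576
def a578 : Zd := .nd 6 a385 a7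
def a579 : Zd := .nd 8 a221 .bot
def a580 : Zd := .nd 18 a213 .bot
def a581 : Zd := .nd 17 a580 .bot
def a582 : Zd := .nd 6 a579 a581
def a583 : Zd := .nd 5 a578 a582
def a584 : Zd := .nd 7 a471 .bot
def a585 : Zd := .nd 6 a584 .bot
def a586 : Zd := .nd 6 a561 .bot
def a587 : Zd := .nd 5 a585 a586
def a588 : Zd := .nd 15 a583 a587
def a589 : Zd := .nd 4 a577 a588
def a590 : Zd := .nd 8 a95 a58
def a591 : Zd := .nd 7 a590 .bot
def a592 : Zd := .nd 6 a591 .bot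
def a593 : Zd := .nd 16 a326 a592
def a594 : Zd := .nd 5 a139 a593
def a595 : Zd := .nd 6 a392 a150
def a596 : Zd := .nd 18 a109 .bot
def a597 : Zd := .nd 6 a596 .bot
def a598 : Zd := .nd 7 a6 a596
def a599 : Zd := .nd 17 a598 .bot
def a600 : Zd := .nd 17 a392 .bot
def a601 : Zd := .nd 6 a599 a600
def a602 : Zd := .nd 16 a597 a601
def a603 : Zd := .nd 5 a595 a602
def a604 : Zd := .nd 15 a594 a603
def a605 : Zd := .nd 7 a58 .bot
def a606 : Zd := .nd 17 a605 .bot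
def a607 : Zd := .nd 6 a606 .bot
def a608 : Zd := .nd 16 a607 a236
def a609 : Zd := .nd 18 a451 .bot
def a610 : Zd := .nd 17 a609 .bot
def a611 : Zd := .nd 9 a17 .bot
def a612 : Zd := .nd 8 a611 .bot
def a613 : Zd := .nd 18 a517 a612
def a614 : Zd := .nd 7 a613 .bot
def a615 : Zd := .nd 18 a194 .bot
def a616 : Zd := .nd 7 a615 .bot
def a617 : Zd := .nd 17 a616 .bot
def a618 : Zd := .nd 6 a614 a617
def a619 : Zd := .nd 16 a610 a618
def a620 : Zd := .nd 15 a608 a619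
def a621 : Zd := .nd 4 a604 a620
def a622 : Zd := .nd 14 a589 a621
def a623 : Zd := .nd 5 a139 .bot
def a624 : Zd := .nd 8 a517 .bot
def a625 : Zd := .nd 6 a624 .bot
def a626 : Zd := .nd 5 a625 .bot
def a627 : Zd := .nd 15 a623 a626
def a628 : Zd := .nd 6 a457 .bot
def a629 : Zd := .nd 16 a628 .bot
def a630 : Zd := .nd 6 a481 .bot
def a631 : Zd := .nd 16 a630 .bot
def a632 : Zd := .nd 18 a624 .bot
def a633 : Zd := .nd 7 a632 .bot
def a634 : Zd := .nd 17 a633 .bot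
def a635 : Zd := .nd 5 a631 a634
def a636 : Zd := .nd 15 a629 a635
def a637 : Zd := .nd 4 a627 a636
def a638 : Zd := .nd 17 a24 .bot
def a639 : Zd := .nd 16 a638 a392
def a640 : Zd := .nd 5 a639 .bot
def a641 : Zd := .nd 18 a59 .bot
def a642 : Zd := .nd 6 a641 a584
def a643 : Zd := .nd 19 a0 a16
def a644 : Zd := .nd 8 a643 .bot
def a645 : Zd := .nd 7 a644 .bot
def a646 : Zd := .nd 8 a221 a611
def a647 : Zd := .nd 7 a646 .bot
def a648 : Zd := .nd 6 a645 a647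
def a649 : Zd := .nd 16 a642 a648
def a650 : Zd := .nd 17 a222 .bot
def a651 : Zd := .nd 6 a650 .bot
def a652 : Zd := .nd 5 a649 a651
def a653 : Zd := .nd 15 a640 a652
def a654 : Zd := .nd 17 a641 .bot
def a655 : Zd := .nd 16 a654 .bot
def a656 : Zd := .nd 5 a633 a655
def a657 : Zd := .nd 8 a234 .bot
def a658 : Zd := .nd 17 a657 .bot
def a659 : Zd := .nd 6 a658 .bot
def a660 : Zd := .nd 16 a659 .bot
def a661 : Zd := .nd 15 a656 a660
def a662 : Zd := .nd 4 a653 a661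
def a663 : Zd := .nd 14 a637 a662
def a664 : Zd := .nd 3 a622 a663
def a665 : Zd := .nd 13 a571 a664
def a666 : Zd := .nd 2 a510 a665
def a667 : Zd := .nd 12 a413 a666
def a668 : Zd := .nd 19 a187 .bot
def a669 : Zd := .nd 16 a668 .bot
def a670 : Zd := .nd 4 a364 a287
def a671 : Zd := .nd 14 a669 a670
def a672 : Zd := .nd 18 a234 .bot
def a673 : Zd := .nd 17 a672 .bot
def a674 : Zd := .nd 5 a27 a673
def a675 : Zd := .nd 17 a159 a23
def a676 : Zd := .nd 6 a675 .bot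
def a677 : Zd := .nd 7 a16 .bot
def a678 : Zd := .nd 6 a677 .bot
def a679 : Zd := .nd 5 a676 a678
def a680 : Zd := .nd 17 a187 .bot
def a681 : Zd := .nd 6 a680 .bot
def a682 : Zd := .nd 6 a605 .bot
def a683 : Zd := .nd 5 a681 a682
def a684 : Zd := .nd 6 a59 .bot
def a685 : Zd := .nd 5 a684 .bot
def a686 : Zd := .nd 15 a683 a685
def a687 : Zd := .nd 4 a679 a686
def a688 : Zd := .nd 14 a674 a687
def a689 : Zd := .nd 3 a671 a688
def a690 : Zd := .nd 6 a40 .bot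
def a691 : Zd := .nd 16 a690 .bot
def a692 : Zd := .nd 5 a691 a457
def a693 : Zd := .nd 4 a692 a45
def a694 : Zd := .nd 6 a309 .bot
def a695 : Zd := .nd 5 a694 .bot
def a696 : Zd := .nd 15 a695 .bot
def a697 : Zd := .nd 17 a557 .bot
def a698 : Zd := .nd 5 a596 a697
def a699 : Zd := .nd 15 a698 .bot
def a700 : Zd := .nd 4 a696 a699
def a701 : Zd := .nd 14 a693 a700
def a702 : Zd := .nd 6 a517 .bot
def a703 : Zd := .nd 16 a223 a702
def a704 : Zd := .nd 7 a148 .bot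
def a705 : Zd := .nd 6 a704 .bot
def a706 : Zd := .nd 8 a668 .bot
def a707 : Zd := .nd 17 a706 .bot
def a708 : Zd := .nd 6 a707 .bot
def a709 : Zd := .nd 5 a705 a708
def a710 : Zd := .nd 15 a641 a709
def a711 : Zd := .nd 4 a703 a710
def a712 : Zd := .nd 7 a248 .bot
def a713 : Zd := .nd 17 a712 .bot
def a714 : Zd := .nd 16 a713 .bot
def a715 : Zd := .nd 6 a657 .bot
def a716 : Zd := .nd 5 a714 a715
def a717 : Zd := .nd 4 a716 .bot
def a718 : Zd := .nd 14 a711 a717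
def a719 : Zd := .nd 3 a701 a718
def a720 : Zd := .nd 13 a689 a719
def a721 : Zd := .nd 5 a59 .bot
def a722 : Zd := .nd 18 a76 .bot
def a723 : Zd := .nd 7 a722 .bot
def a724 : Zd := .nd 17 a723 .bot
def a725 : Zd := .nd 7 a517 .bot
def a726 : Zd := .nd 16 a725 .bot
def a727 : Zd := .nd 5 a724 a726
def a728 : Zd := .nd 4 a721 a727
def a729 : Zd := .nd 17 a126 .bot
def a730 : Zd := .nd 16 a729 .bot
def a731 : Zd := .nd 15 a730 .bot
def a732 : Zd := .nd 17 a1 .bot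
def a733 : Zd := .nd 5 a732 a390
def a734 : Zd := .nd 7 a611 .bot
def a735 : Zd := .nd 5 a734 .bot
def a736 : Zd := .nd 15 a733 a735
def a737 : Zd := .nd 4 a731 a736
def a738 : Zd := .nd 17 a81 .bot
def a739 : Zd := .nd 16 a738 .bot
def a740 : Zd := .nd 5 a739 .bot
def a741 : Zd := .nd 17 a389 .bot
def a742 : Zd := .nd 16 a741 .bot
def a743 : Zd := .nd 5 a742 .bot
def a744 : Zd := .nd 17 a193 .bot
def a745 : Zd := .nd 6 a744 .bot
def a746 : Zd := .nd 16 a745 .bot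
def a747 : Zd := .nd 5 a746 .bot
def a748 : Zd := .nd 15 a743 a747
def a749 : Zd := .nd 4 a740 a748
def a750 : Zd := .nd 14 a737 a749
def a751 : Zd := .nd 3 a728 a750
def a752 : Zd := .nd 6 a392 .bot
def a753 : Zd := .nd 5 a752 .bot
def a754 : Zd := .nd 16 a364 a49
def a755 : Zd := .nd 15 a754 .bot
def a756 : Zd := .nd 14 a753 a755
def a757 : Zd := .nd 17 a345 .bot
def a758 : Zd := .nd 16 a757 .bot
def a759 : Zd := .nd 7 a83 .bot
def a760 : Zd := .nd 16 a142 a295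
def a761 : Zd := .nd 5 a759 a760
def a762 : Zd := .nd 15 a758 a761
def a763 : Zd := .nd 17 a487 .bot
def a764 : Zd := .nd 6 a763 .bot
def a765 : Zd := .nd 18 a657 .bot
def a766 : Zd := .nd 6 a765 .bot
def a767 : Zd := .nd 16 a766 .bot
def a768 : Zd := .nd 5 a764 a767
def a769 : Zd := .nd 4 a762 a768
def a770 : Zd := .nd 18 a334 .bot
def a771 : Zd := .nd 17 a770 .bot
def a772 : Zd := .nd 16 a771 .bot
def a773 : Zd := .nd 8 a26 .bot
def a774 : Zd := .nd 18 a560 a773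
def a775 : Zd := .nd 17 a774 .bot
def a776 : Zd := .nd 16 a775 .bot
def a777 : Zd := .nd 5 a776 .bot
def a778 : Zd := .nd 15 a777 .bot
def a779 : Zd := .nd 4 a772 a778
def a780 : Zd := .nd 14 a769 a779
def a781 : Zd := .nd 3 a756 a780
def a782 : Zd := .nd 13 a751 a781
def a783 : Zd := .nd 2 a720 a782
def a784 : Zd := .nd 6 a343 a396
def a785 : Zd := .nd 5 a784 .bot
def a786 : Zd := .nd 10 .top a0
def a787 : Zd := .nd 7 a786 .bot
def a788 : Zd := .nd 6 a787 .bot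
def a789 : Zd := .nd 5 a788 .bot
def a790 : Zd := .nd 16 a326 a346
def a791 : Zd := .nd 5 a790 a628
def a792 : Zd := .nd 4 a789 a791
def a793 : Zd := .nd 14 a785 a792
def a794 : Zd := .nd 6 a26 .bot
def a795 : Zd := .nd 5 a794 .bot
def a796 : Zd := .nd 4 a721 a795
def a797 : Zd := .nd 7 a11 a59
def a798 : Zd := .nd 6 a797 .bot
def a799 : Zd := .nd 5 a798 .bot
def a800 : Zd := .nd 16 a473 .bot
def a801 : Zd := .nd 15 a799 a800
def a802 : Zd := .nd 16 a97 .bot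
def a803 : Zd := .nd 20 a0 a11
def a804 : Zd := .nd 9 a803 .bot
def a805 : Zd := .nd 7 a804 .bot
def a806 : Zd := .nd 6 a805 .bot
def a807 : Zd := .nd 16 a806 a632
def a808 : Zd := .nd 5 a807 .bot
def a809 : Zd := .nd 15 a802 a808
def a810 : Zd := .nd 4 a801 a809
def a811 : Zd := .nd 14 a796 a810
def a812 : Zd := .nd 3 a793 a811
def a813 : Zd := .nd 6 a289 .bot
def a814 : Zd := .nd 16 a417 a813
def a815 : Zd := .nd 7 a560 .bot
def a816 : Zd := .nd 6 a815 .bot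
def a817 : Zd := .nd 5 a59 a816
def a818 : Zd := .nd 15 a814 a817
def a819 : Zd := .nd 16 a37 .bot
def a820 : Zd := .nd 6 a335 .bot
def a821 : Zd := .nd 5 a819 a820
def a822 : Zd := .nd 4 a818 a821
def a823 : Zd := .nd 7 a9 .bot
def a824 : Zd := .nd 6 a823 .bot
def a825 : Zd := .nd 17 a560 a535
def a826 : Zd := .nd 16 a824 a825
def a827 : Zd := .nd 5 a826 .bot
def a828 : Zd := .nd 6 a209 a392
def a829 : Zd := .nd 7 a59 a204
def a830 : Zd := .nd 18 a204 .bot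
def a831 : Zd := .nd 17 a557 a830
def a832 : Zd := .nd 6 a829 a831
def a833 : Zd := .nd 16 a828 a832
def a834 : Zd := .nd 18 a517 a657
def a835 : Zd := .nd 17 a834 .bot
def a836 : Zd := .nd 5 a833 a835
def a837 : Zd := .nd 15 a827 a836
def a838 : Zd := .nd 6 a7 a650
def a839 : Zd := .nd 6 a606 a765
def a840 : Zd := .nd 16 a838 a839
def a841 : Zd := .nd 6 a419 .bot
def a842 : Zd := .nd 7 a268 .bot
def a843 : Zd := .nd 17 a842 .bot
def a844 : Zd := .nd 6 a351 a843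
def a845 : Zd := .nd 16 a841 a844
def a846 : Zd := .nd 7 a706 .bot
def a847 : Zd := .nd 7 a195 .bot
def a848 : Zd := .nd 6 a846 a847
def a849 : Zd := .nd 5 a845 a848
def a850 : Zd := .nd 15 a840 a849
def a851 : Zd := .nd 4 a837 a850
def a852 : Zd := .nd 14 a822 a851
def a853 : Zd := .nd 7 a88 a81
def a854 : Zd := .nd 17 a853 .bot
def a855 : Zd := .nd 6 a854 a734
def a856 : Zd := .nd 7 a159 .bot
def a857 : Zd := .nd 18 a668 .bot
def a858 : Zd := .nd 7 a857 .bot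
def a859 : Zd := .nd 6 a856 a858
def a860 : Zd := .nd 16 a859 a473
def a861 : Zd := .nd 5 a855 a860
def a862 : Zd := .nd 7 a773 .bot
def a863 : Zd := .nd 5 a862 .bot
def a864 : Zd := .nd 15 a863 .bot
def a865 : Zd := .nd 4 a861 a864
def a866 : Zd := .nd 18 a11 a95
def a867 : Zd := .nd 7 a866 .bot
def a868 : Zd := .nd 17 a309 a867
def a869 : Zd := .nd 6 a868 .bot
def a870 : Zd := .nd 5 a869 .bot
def a871 : Zd := .nd 19 a165 a234
def a872 : Zd := .nd 18 a871 .bot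
def a873 : Zd := .nd 7 a328 a872
def a874 : Zd := .nd 6 a873 .bot
def a875 : Zd := .nd 6 a402 .bot
def a876 : Zd := .nd 5 a874 a875
def a877 : Zd := .nd 15 a870 a876
def a878 : Zd := .nd 7 a579 .bot
def a879 : Zd := .nd 5 a878 .bot
def a880 : Zd := .nd 17 a830 .bot
def a881 : Zd := .nd 16 a880 .bot
def a882 : Zd := .nd 5 a881 .bot
def a883 : Zd := .nd 15 a879 a882
def a884 : Zd := .nd 4 a877 a883
def a885 : Zd := .nd 14 a865 a884
def a886 : Zd := .nd 3 a852 a885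
def a887 : Zd := .nd 13 a812 a886
def a888 : Zd := .nd 16 a59 .bot
def a889 : Zd := .nd 15 a888 a211
def a890 : Zd := .nd 7 a580 .bot
def a891 : Zd := .nd 5 a890 .bot
def a892 : Zd := .nd 4 a889 a891
def a893 : Zd := .nd 17 a668 .bot
def a894 : Zd := .nd 16 a481 a893
def a895 : Zd := .nd 17 a856 .bot
def a896 : Zd := .nd 16 a895 .bot
def a897 : Zd := .nd 5 a894 a896
def a898 : Zd := .nd 15 a182 a897
def a899 : Zd := .nd 6 a605 a364
def a900 : Zd := .nd 16 a899 .bot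
def a901 : Zd := .nd 6 a195 a335
def a902 : Zd := .nd 16 a364 a901
def a903 : Zd := .nd 17 a773 .bot
def a904 : Zd := .nd 16 a903 .bot
def a905 : Zd := .nd 5 a902 a904
def a906 : Zd := .nd 15 a900 a905
def a907 : Zd := .nd 4 a898 a906
def a908 : Zd := .nd 14 a892 a907
def a909 : Zd := .nd 5 a657 .bot
def a910 : Zd := .nd 17 a526 .bot
def a911 : Zd := .nd 6 a910 .bot
def a912 : Zd := .nd 5 a911 .bot
def a913 : Zd := .nd 15 a909 a912
def a914 : Zd := .nd 17 a221 .bot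
def a915 : Zd := .nd 18 a611 .bot
def a916 : Zd := .nd 16 a915 .bot
def a917 : Zd := .nd 5 a914 a916
def a918 : Zd := .nd 16 a295 .bot
def a919 : Zd := .nd 5 a380 a918
def a920 : Zd := .nd 15 a917 a919
def a921 : Zd := .nd 4 a913 a920
def a922 : Zd := .nd 5 a91 .bot
def a923 : Zd := .nd 18 a88 a59
def a924 : Zd := .nd 7 a923 .bot
def a925 : Zd := .nd 17 a924 .bot
def a926 : Zd := .nd 17 a59 .bot
def a927 : Zd := .nd 17 a185 .bot
def a928 : Zd := .nd 6 a926 a927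
def a929 : Zd := .nd 16 a925 a928
def a930 : Zd := .nd 17 a547 .bot
def a931 : Zd := .nd 6 a930 .bot
def a932 : Zd := .nd 16 a931 .bot
def a933 : Zd := .nd 5 a929 a932
def a934 : Zd := .nd 15 a922 a933
def a935 : Zd := .nd 7 a668 .bot
def a936 : Zd := .nd 17 a935 .bot
def a937 : Zd := .nd 6 a936 .bot
def a938 : Zd := .nd 16 a551 a937
def a939 : Zd := .nd 5 a938 a918
def a940 : Zd := .nd 17 a765 .bot
def a941 : Zd := .nd 16 a940 .bot
def a942 : Zd := .nd 15 a939 a941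
def a943 : Zd := .nd 4 a934 a942
def a944 : Zd := .nd 14 a921 a943
def a945 : Zd := .nd 3 a908 a944
def a946 : Zd := .nd 18 a32 a58
def a947 : Zd := .nd 7 a946 .bot
def a948 : Zd := .nd 6 a947 .bot
def a949 : Zd := .nd 18 a517 .bot
def a950 : Zd := .nd 7 a949 .bot
def a951 : Zd := .nd 5 a948 a950
def a952 : Zd := .nd 17 a551 .bot
def a953 : Zd := .nd 7 a672 .bot
def a954 : Zd := .nd 6 a953 .bot
def a955 : Zd := .nd 16 a952 a954
def a956 : Zd := .nd 4 a951 a955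
def a957 : Zd := .nd 16 a682 a616
def a958 : Zd := .nd 5 a957 .bot
def a959 : Zd := .nd 17 a36 .bot
def a960 : Zd := .nd 6 a959 .bot
def a961 : Zd := .nd 16 a960 .bot
def a962 : Zd := .nd 5 a659 .bot
def a963 : Zd := .nd 15 a961 a962
def a964 : Zd := .nd 4 a958 a963
def a965 : Zd := .nd 14 a956 a964
def a966 : Zd := .nd 17 a704 .bot
def a967 : Zd := .nd 16 a966 .bot
def a968 : Zd := .nd 18 a457 .bot
def a969 : Zd := .nd 6 a968 .bot
def a970 : Zd := .nd 5 a967 a969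
def a971 : Zd := .nd 17 a195 .bot
def a972 : Zd := .nd 5 a971 .bot
def a973 : Zd := .nd 15 a970 a972
def a974 : Zd := .nd 18 a706 .bot
def a975 : Zd := .nd 17 a974 .bot
def a976 : Zd := .nd 5 a975 .bot
def a977 : Zd := .nd 15 a976 .bot
def a978 : Zd := .nd 4 a973 a977
def a979 : Zd := .nd 6 a949 .bot
def a980 : Zd := .nd 16 a979 a954
def a981 : Zd := .nd 5 a980 .bot
def a982 : Zd := .nd 15 a981 .bot
def a983 : Zd := .nd 19 a611 .bot
def a984 : Zd := .nd 8 a983 .bot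
def a985 : Zd := .nd 7 a984 .bot
def a986 : Zd := .nd 5 a985 .bot
def a987 : Zd := .nd 4 a982 a986
def a988 : Zd := .nd 14 a978 a987
def a989 : Zd := .nd 3 a965 a988
def a990 : Zd := .nd 13 a945 a989
def a991 : Zd := .nd 2 a887 a990
def a992 : Zd := .nd 12 a783 a991
def a993 : Zd := .nd 1 a667 a992
def a994 : Zd := .nd 11 a308 a993
def a995 : Zd := .nd 6 a127 a68
def a996 : Zd := .nd 15 a995 .bot
def a997 : Zd := .nd 3 a65 a996
def a998 : Zd := .nd 6 a126 .bot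
def a999 : Zd := .nd 5 a998 .bot
def a1000 : Zd := .nd 15 a209 a999
def a1001 : Zd := .nd 16 a1 .bot
def a1002 : Zd := .nd 17 a9 .bot
def a1003 : Zd := .nd 16 a1002 a59
def a1004 : Zd := .nd 17 a126 a815
def a1005 : Zd := .nd 16 a1004 .bot
def a1006 : Zd := .nd 5 a1003 a1005
def a1007 : Zd := .nd 15 a1001 a1006
def a1008 : Zd := .nd 17 a318 a96
def a1009 : Zd := .nd 16 a527 .bot
def a1010 : Zd := .nd 5 a605 a1009
def a1011 : Zd := .nd 15 a1008 a1010
def a1012 : Zd := .nd 16 a328 .bot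
def a1013 : Zd := .nd 5 a535 a1012
def a1014 : Zd := .nd 15 a1013 .bot
def a1015 : Zd := .nd 4 a1011 a1014
def a1016 : Zd := .nd 14 a1007 a1015
def a1017 : Zd := .nd 3 a1000 a1016
def a1018 : Zd := .nd 13 a997 a1017
def a1019 : Zd := .nd 5 a138 .bot
def a1020 : Zd := .nd 5 a149 a227
def a1021 : Zd := .nd 15 a1019 a1020
def a1022 : Zd := .nd 4 a721 a1021
def a1023 : Zd := .nd 19 .top a11
def a1024 : Zd := .nd 7 a1023 .bot
def a1025 : Zd := .nd 17 a1024 .bot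
def a1026 : Zd := .nd 16 a732 .bot
def a1027 : Zd := .nd 5 a247 a1026
def a1028 : Zd := .nd 15 a471 a1027
def a1029 : Zd := .nd 4 a1025 a1028
def a1030 : Zd := .nd 16 a95 .bot
def a1031 : Zd := .nd 5 a1030 .bot
def a1032 : Zd := .nd 5 a520 a580
def a1033 : Zd := .nd 17 a366 .bot
def a1034 : Zd := .nd 6 a214 a1033
def a1035 : Zd := .nd 16 a378 .bot
def a1036 : Zd := .nd 5 a1034 a1035
def a1037 : Zd := .nd 15 a1032 a1036
def a1038 : Zd := .nd 4 a1031 a1037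
def a1039 : Zd := .nd 14 a1029 a1038
def a1040 : Zd := .nd 3 a1022 a1039
def a1041 : Zd := .nd 6 a109 .bot
def a1042 : Zd := .nd 5 a1041 .bot
def a1043 : Zd := .nd 6 a95 .bot
def a1044 : Zd := .nd 16 a1043 .bot
def a1045 : Zd := .nd 16 a286 .bot
def a1046 : Zd := .nd 15 a1044 a1045
def a1047 : Zd := .nd 14 a1042 a1046
def a1048 : Zd := .nd 16 a396 .bot
def a1049 : Zd := .nd 16 a2 .bot
def a1050 : Zd := .nd 5 a1049 .bot
def a1051 : Zd := .nd 4 a1048 a1050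
def a1052 : Zd := .nd 17 a146 .bot
def a1053 : Zd := .nd 16 a911 .bot
def a1054 : Zd := .nd 5 a1052 a1053
def a1055 : Zd := .nd 8 a160 .bot
def a1056 : Zd := .nd 18 a26 a1055
def a1057 : Zd := .nd 7 a193 a1056
def a1058 : Zd := .nd 16 a1057 .bot
def a1059 : Zd := .nd 7 a457 .bot
def a1060 : Zd := .nd 5 a1059 .bot
def a1061 : Zd := .nd 15 a1058 a1060
def a1062 : Zd := .nd 4 a1054 a1061
def a1063 : Zd := .nd 14 a1051 a1062
def a1064 : Zd := .nd 3 a1047 a1063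
def a1065 : Zd := .nd 13 a1040 a1064
def a1066 : Zd := .nd 2 a1018 a1065
def a1067 : Zd := .nd 16 a526 .bot
def a1068 : Zd := .nd 6 a58 .bot
def a1069 : Zd := .nd 15 a1068 .bot
def a1070 : Zd := .nd 4 a1067 a1069
def a1071 : Zd := .nd 5 a216 .bot
def a1072 : Zd := .nd 6 a221 .bot
def a1073 : Zd := .nd 16 a1072 .bot
def a1074 : Zd := .nd 4 a1071 a1073
def a1075 : Zd := .nd 3 a1070 a1074
def a1076 : Zd := .nd 6 a65 .bot
def a1077 : Zd := .nd 5 a10 a1076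
def a1078 : Zd := .nd 4 a1077 .bot
def a1079 : Zd := .nd 8 a11 a1
def a1080 : Zd := .nd 16 a1079 .bot
def a1081 : Zd := .nd 6 a343 a87
def a1082 : Zd := .nd 16 a1068 a1081
def a1083 : Zd := .nd 5 a704 a1082
def a1084 : Zd := .nd 15 a1080 a1083
def a1085 : Zd := .nd 8 a32 a159
def a1086 : Zd := .nd 18 a1085 .bot
def a1087 : Zd := .nd 6 a1086 .bot
def a1088 : Zd := .nd 16 a223 a260
def a1089 : Zd := .nd 15 a1087 a1088
def a1090 : Zd := .nd 4 a1084 a1089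
def a1091 : Zd := .nd 14 a1078 a1090
def a1092 : Zd := .nd 16 a343 a425
def a1093 : Zd := .nd 18 a184 .bot
def a1094 : Zd := .nd 6 a857 a1093
def a1095 : Zd := .nd 5 a1094 .bot
def a1096 : Zd := .nd 4 a1092 a1095
def a1097 : Zd := .nd 19 a32 a187
def a1098 : Zd := .nd 8 a1097 a517
def a1099 : Zd := .nd 7 a58 a1098
def a1100 : Zd := .nd 6 a1099 .bot
def a1101 : Zd := .nd 6 a214 .bot
def a1102 : Zd := .nd 5 a1100 a1101
def a1103 : Zd := .nd 17 a536 a878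
def a1104 : Zd := .nd 16 a1103 .bot
def a1105 : Zd := .nd 5 a1104 .bot
def a1106 : Zd := .nd 4 a1102 a1105
def a1107 : Zd := .nd 14 a1096 a1106
def a1108 : Zd := .nd 3 a1091 a1107
def a1109 : Zd := .nd 13 a1075 a1108
def a1110 : Zd := .nd 6 a159 .bot
def a1111 : Zd := .nd 16 a910 .bot
def a1112 : Zd := .nd 5 a1110 a1111
def a1113 : Zd := .nd 15 a13 a1112
def a1114 : Zd := .nd 6 a41 a221
def a1115 : Zd := .nd 5 a1114 a1033
def a1116 : Zd := .nd 5 a268 a249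
def a1117 : Zd := .nd 5 a430 .bot
def a1118 : Zd := .nd 15 a1116 a1117
def a1119 : Zd := .nd 4 a1115 a1118
def a1120 : Zd := .nd 14 a1113 a1119
def a1121 : Zd := .nd 6 a1002 .bot
def a1122 : Zd := .nd 5 a1121 .bot
def a1123 : Zd := .nd 7 a657 .bot
def a1124 : Zd := .nd 15 a1122 a1123
def a1125 : Zd := .nd 16 a12 .bot
def a1126 : Zd := .nd 6 a345 .bot
def a1127 : Zd := .nd 16 a1126 .bot
def a1128 : Zd := .nd 5 a1125 a1127
def a1129 : Zd := .nd 17 a80 .bot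
def a1130 : Zd := .nd 6 a1129 .bot
def a1131 : Zd := .nd 16 a1130 .bot
def a1132 : Zd := .nd 5 a857 a1131
def a1133 : Zd := .nd 15 a1128 a1132
def a1134 : Zd := .nd 4 a1124 a1133
def a1135 : Zd := .nd 6 a16 .bot
def a1136 : Zd := .nd 6 a480 .bot
def a1137 : Zd := .nd 16 a1135 a1136
def a1138 : Zd := .nd 5 a1137 .bot
def a1139 : Zd := .nd 15 a266 a1138
def a1140 : Zd := .nd 17 a95 a149
def a1141 : Zd := .nd 6 a1140 .bot
def a1142 : Zd := .nd 16 a1141 .bot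
def a1143 : Zd := .nd 19 a1 a193
def a1144 : Zd := .nd 18 a1143 .bot
def a1145 : Zd := .nd 6 a856 a1144
def a1146 : Zd := .nd 16 a1145 a1093
def a1147 : Zd := .nd 9 a1 a17
def a1148 : Zd := .nd 19 a1 a1147
def a1149 : Zd := .nd 18 a1148 .bot
def a1150 : Zd := .nd 17 a1149 .bot
def a1151 : Zd := .nd 18 a229 .bot
def a1152 : Zd := .nd 17 a169 .bot
def a1153 : Zd := .nd 6 a1151 a1152
def a1154 : Zd := .nd 16 a1150 a1153
def a1155 : Zd := .nd 5 a1146 a1154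
def a1156 : Zd := .nd 15 a1142 a1155
def a1157 : Zd := .nd 4 a1139 a1156
def a1158 : Zd := .nd 14 a1134 a1157
def a1159 : Zd := .nd 3 a1120 a1158
def a1160 : Zd := .nd 16 a227 .bot
def a1161 : Zd := .nd 16 a166 .bot
def a1162 : Zd := .nd 5 a1161 .bot
def a1163 : Zd := .nd 15 a1160 a1162
def a1164 : Zd := .nd 17 a560 .bot
def a1165 : Zd := .nd 6 a517 a1164
def a1166 : Zd := .nd 6 a319 .bot
def a1167 : Zd := .nd 16 a1166 a600
def a1168 : Zd := .nd 15 a1165 a1167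
def a1169 : Zd := .nd 16 a134 a185
def a1170 : Zd := .nd 7 a146 .bot
def a1171 : Zd := .nd 17 a1170 .bot
def a1172 : Zd := .nd 5 a1169 a1171
def a1173 : Zd := .nd 17 a7 a624
def a1174 : Zd := .nd 7 a641 .bot
def a1175 : Zd := .nd 6 a1173 a1174
def a1176 : Zd := .nd 5 a1175 .bot
def a1177 : Zd := .nd 15 a1172 a1176
def a1178 : Zd := .nd 4 a1168 a1177
def a1179 : Zd := .nd 14 a1163 a1178
def a1180 : Zd := .nd 6 a443 .bot
def a1181 : Zd := .nd 17 a117 .bot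
def a1182 : Zd := .nd 6 a1181 .bot
def a1183 : Zd := .nd 16 a1180 a1182
def a1184 : Zd := .nd 5 a630 a1183
def a1185 : Zd := .nd 15 a1052 a1184
def a1186 : Zd := .nd 17 a561 .bot
def a1187 : Zd := .nd 17 a517 .bot
def a1188 : Zd := .nd 6 a1187 a632
def a1189 : Zd := .nd 5 a1188 .bot
def a1190 : Zd := .nd 15 a1186 a1189
def a1191 : Zd := .nd 4 a1185 a1190
def a1192 : Zd := .nd 17 a471 .bot
def a1193 : Zd := .nd 16 a1192 .bot
def a1194 : Zd := .nd 16 a496 .bot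
def a1195 : Zd := .nd 6 a741 .bot
def a1196 : Zd := .nd 7 a234 a96
def a1197 : Zd := .nd 17 a1196 .bot
def a1198 : Zd := .nd 6 a1197 .bot
def a1199 : Zd := .nd 16 a1195 a1198
def a1200 : Zd := .nd 5 a1194 a1199
def a1201 : Zd := .nd 15 a1193 a1200
def a1202 : Zd := .nd 18 a773 .bot
def a1203 : Zd := .nd 17 a286 a1202
def a1204 : Zd := .nd 6 a1203 .bot
def a1205 : Zd := .nd 7 a194 .bot
def a1206 : Zd := .nd 17 a1205 .bot
def a1207 : Zd := .nd 18 a983 .bot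
def a1208 : Zd := .nd 17 a1207 .bot
def a1209 : Zd := .nd 6 a1208 .bot
def a1210 : Zd := .nd 5 a1206 a1209
def a1211 : Zd := .nd 15 a1204 a1210
def a1212 : Zd := .nd 4 a1201 a1211
def a1213 : Zd := .nd 14 a1191 a1212
def a1214 : Zd := .nd 3 a1179 a1213
def a1215 : Zd := .nd 13 a1159 a1214
def a1216 : Zd := .nd 2 a1109 a1215
def a1217 : Zd := .nd 12 a1066 a1216
def a1218 : Zd := .nd 15 a123 .bot
def a1219 : Zd := .nd 17 a148 .bot
def a1220 : Zd := .nd 16 a1219 .bot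
def a1221 : Zd := .nd 15 a1220 a286
def a1222 : Zd := .nd 14 a1218 a1221
def a1223 : Zd := .nd 6 a5 .bot
def a1224 : Zd := .nd 16 a1223 a12
def a1225 : Zd := .nd 5 a1224 a26
def a1226 : Zd := .nd 6 a12 .bot
def a1227 : Zd := .nd 16 a712 .bot
def a1228 : Zd := .nd 5 a517 a1227
def a1229 : Zd := .nd 15 a1226 a1228
def a1230 : Zd := .nd 4 a1225 a1229
def a1231 : Zd := .nd 6 a160 .bot
def a1232 : Zd := .nd 16 a1231 .bot
def a1233 : Zd := .nd 16 a1129 a949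
def a1234 : Zd := .nd 15 a1233 .bot
def a1235 : Zd := .nd 4 a1232 a1234
def a1236 : Zd := .nd 14 a1230 a1235
def a1237 : Zd := .nd 3 a1222 a1236
def a1238 : Zd := .nd 17 a165 a605
def a1239 : Zd := .nd 5 a1238 .bot
def a1240 : Zd := .nd 17 a311 a596
def a1241 : Zd := .nd 16 a1240 .bot
def a1242 : Zd := .nd 16 a244 .bot
def a1243 : Zd := .nd 5 a1242 .bot
def a1244 : Zd := .nd 15 a1241 a1243
def a1245 : Zd := .nd 4 a1239 a1244
def a1246 : Zd := .nd 14 a313 a1245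
def a1247 : Zd := .nd 8 a5 a80
def a1248 : Zd := .nd 6 a1247 a117
def a1249 : Zd := .nd 17 a187 a517
def a1250 : Zd := .nd 6 a1249 .bot
def a1251 : Zd := .nd 16 a1248 a1250
def a1252 : Zd := .nd 18 a9 a136
def a1253 : Zd := .nd 6 a1252 .bot
def a1254 : Zd := .nd 16 a1253 .bot
def a1255 : Zd := .nd 19 a786 .bot
def a1256 : Zd := .nd 18 a1255 .bot
def a1257 : Zd := .nd 7 a1256 .bot
def a1258 : Zd := .nd 17 a26 a1257
def a1259 : Zd := .nd 16 a1258 .bot
def a1260 : Zd := .nd 5 a1254 a1259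
def a1261 : Zd := .nd 15 a1251 a1260
def a1262 : Zd := .nd 4 a1181 a1261
def a1263 : Zd := .nd 5 a146 .bot
def a1264 : Zd := .nd 7 a328 a146
def a1265 : Zd := .nd 17 a1264 .bot
def a1266 : Zd := .nd 15 a1263 a1265
def a1267 : Zd := .nd 8 a334 .bot
def a1268 : Zd := .nd 6 a1267 a169
def a1269 : Zd := .nd 16 a87 a1268
def a1270 : Zd := .nd 5 a147 a1269
def a1271 : Zd := .nd 17 a535 .bot
def a1272 : Zd := .nd 6 a1271 .bot
def a1273 : Zd := .nd 16 a1272 .bot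
def a1274 : Zd := .nd 15 a1270 a1273
def a1275 : Zd := .nd 4 a1266 a1274
def a1276 : Zd := .nd 14 a1262 a1275
def a1277 : Zd := .nd 3 a1246 a1276
def a1278 : Zd := .nd 13 a1237 a1277
def a1279 : Zd := .nd 16 a136 a146
def a1280 : Zd := .nd 5 a330 a1279
def a1281 : Zd := .nd 15 a1280 a623
def a1282 : Zd := .nd 6 a181 .bot
def a1283 : Zd := .nd 17 a328 .bot
def a1284 : Zd := .nd 16 a1282 a1283
def a1285 : Zd := .nd 17 a149 a1170
def a1286 : Zd := .nd 17 a44 a770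
def a1287 : Zd := .nd 16 a1285 a1286
def a1288 : Zd := .nd 15 a1284 a1287
def a1289 : Zd := .nd 14 a1281 a1288
def a1290 : Zd := .nd 17 a722 .bot
def a1291 : Zd := .nd 16 a1129 a1290
def a1292 : Zd := .nd 15 a141 a1291
def a1293 : Zd := .nd 18 a23 a117
def a1294 : Zd := .nd 17 a136 a1293
def a1295 : Zd := .nd 20 .top a0
def a1296 : Zd := .nd 19 a1295 a1
def a1297 : Zd := .nd 18 a1296 a26
def a1298 : Zd := .nd 7 a9 a1297
def a1299 : Zd := .nd 8 a11 a26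
def a1300 : Zd := .nd 18 a1299 .bot
def a1301 : Zd := .nd 17 a1298 a1300
def a1302 : Zd := .nd 6 a323 a1301
def a1303 : Zd := .nd 19 a1 a16
def a1304 : Zd := .nd 18 a1303 a668
def a1305 : Zd := .nd 17 a1304 .bot
def a1306 : Zd := .nd 6 a146 a1305
def a1307 : Zd := .nd 16 a1302 a1306
def a1308 : Zd := .nd 5 a1294 a1307
def a1309 : Zd := .nd 17 a136 a547
def a1310 : Zd := .nd 6 a1309 a1052
def a1311 : Zd := .nd 16 a295 a45
def a1312 : Zd := .nd 5 a1310 a1311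
def a1313 : Zd := .nd 15 a1308 a1312
def a1314 : Zd := .nd 4 a1292 a1313
def a1315 : Zd := .nd 18 a148 a136
def a1316 : Zd := .nd 7 a5 a1315
def a1317 : Zd := .nd 6 a1316 .bot
def a1318 : Zd := .nd 5 a1317 .bot
def a1319 : Zd := .nd 18 a0 a26
def a1320 : Zd := .nd 17 a1319 .bot
def a1321 : Zd := .nd 16 a1320 .bot
def a1322 : Zd := .nd 7 a12 a345
def a1323 : Zd := .nd 17 a1322 .bot
def a1324 : Zd := .nd 16 a1323 .bot
def a1325 : Zd := .nd 5 a1321 a1324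
def a1326 : Zd := .nd 15 a1318 a1325
def a1327 : Zd := .nd 18 a5 a136
def a1328 : Zd := .nd 18 a26 a668
def a1329 : Zd := .nd 7 a1327 a1328
def a1330 : Zd := .nd 17 a1329 a227
def a1331 : Zd := .nd 17 a949 a228
def a1332 : Zd := .nd 6 a431 a1331
def a1333 : Zd := .nd 16 a1330 a1332
def a1334 : Zd := .nd 16 a350 a260
def a1335 : Zd := .nd 16 a763 .bot
def a1336 : Zd := .nd 5 a1334 a1335
def a1337 : Zd := .nd 15 a1333 a1336
def a1338 : Zd := .nd 4 a1326 a1337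
def a1339 : Zd := .nd 14 a1314 a1338
def a1340 : Zd := .nd 3 a1289 a1339
def a1341 : Zd := .nd 17 a76 .bot
def a1342 : Zd := .nd 6 a311 a1341
def a1343 : Zd := .nd 7 a248 a561
def a1344 : Zd := .nd 16 a1342 a1343
def a1345 : Zd := .nd 17 a23 .bot
def a1346 : Zd := .nd 6 a1345 .bot
def a1347 : Zd := .nd 17 a213 a229
def a1348 : Zd := .nd 6 a1129 a1347
def a1349 : Zd := .nd 18 a1055 .bot
def a1350 : Zd := .nd 17 a1349 .bot
def a1351 : Zd := .nd 16 a1348 a1350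
def a1352 : Zd := .nd 5 a1346 a1351
def a1353 : Zd := .nd 15 a1344 a1352
def a1354 : Zd := .nd 18 a234 a657
def a1355 : Zd := .nd 17 a1354 .bot
def a1356 : Zd := .nd 18 a117 .bot
def a1357 : Zd := .nd 17 a1356 .bot
def a1358 : Zd := .nd 6 a444 .bot
def a1359 : Zd := .nd 17 a632 .bot
def a1360 : Zd := .nd 16 a1358 a1359
def a1361 : Zd := .nd 15 a1357 a1360
def a1362 : Zd := .nd 4 a1355 a1361
def a1363 : Zd := .nd 14 a1353 a1362
def a1364 : Zd := .nd 17 a430 a366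
def a1365 : Zd := .nd 6 a1364 .bot
def a1366 : Zd := .nd 16 a1365 .bot
def a1367 : Zd := .nd 5 a744 a1366
def a1368 : Zd := .nd 15 a178 a1367
def a1369 : Zd := .nd 17 a159 .bot
def a1370 : Zd := .nd 6 a1002 a1369
def a1371 : Zd := .nd 16 a1370 .bot
def a1372 : Zd := .nd 19 a1 a159
def a1373 : Zd := .nd 18 a1372 .bot
def a1374 : Zd := .nd 17 a1373 a949
def a1375 : Zd := .nd 17 a520 .bot
def a1376 : Zd := .nd 6 a1356 a1375
def a1377 : Zd := .nd 16 a1374 a1376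
def a1378 : Zd := .nd 5 a1371 a1377
def a1379 : Zd := .nd 16 a129 .bot
def a1380 : Zd := .nd 7 a161 .bot
def a1381 : Zd := .nd 17 a1380 a1151
def a1382 : Zd := .nd 6 a895 a1381
def a1383 : Zd := .nd 17 a1202 .bot
def a1384 : Zd := .nd 16 a1382 a1383
def a1385 : Zd := .nd 5 a1379 a1384
def a1386 : Zd := .nd 15 a1378 a1385
def a1387 : Zd := .nd 4 a1368 a1386
def a1388 : Zd := .nd 17 a611 .bot
def a1389 : Zd := .nd 5 a1388 .bot
def a1390 : Zd := .nd 16 a936 .bot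
def a1391 : Zd := .nd 15 a1389 a1390
def a1392 : Zd := .nd 6 a377 .bot
def a1393 : Zd := .nd 7 a184 a44
def a1394 : Zd := .nd 17 a1393 .bot
def a1395 : Zd := .nd 6 a741 a1394
def a1396 : Zd := .nd 16 a1392 a1395
def a1397 : Zd := .nd 7 a160 a949
def a1398 : Zd := .nd 17 a1397 .bot
def a1399 : Zd := .nd 6 a1186 a1398
def a1400 : Zd := .nd 16 a1399 .bot
def a1401 : Zd := .nd 5 a1396 a1400
def a1402 : Zd := .nd 17 a815 .bot
def a1403 : Zd := .nd 6 a1402 .bot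
def a1404 : Zd := .nd 16 a1403 .bot
def a1405 : Zd := .nd 5 a714 a1404
def a1406 : Zd := .nd 15 a1401 a1405
def a1407 : Zd := .nd 4 a1391 a1406
def a1408 : Zd := .nd 14 a1387 a1407
def a1409 : Zd := .nd 3 a1363 a1408
def a1410 : Zd := .nd 13 a1340 a1409
def a1411 : Zd := .nd 2 a1278 a1410
def a1412 : Zd := .nd 5 a414 .bot
def a1413 : Zd := .nd 17 a823 .bot
def a1414 : Zd := .nd 6 a1413 .bot
def a1415 : Zd := .nd 15 a1412 a1414
def a1416 : Zd := .nd 4 a1415 .bot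
def a1417 : Zd := .nd 16 a26 .bot
def a1418 : Zd := .nd 15 a346 a1417
def a1419 : Zd := .nd 6 a165 .bot
def a1420 : Zd := .nd 16 a1419 .bot
def a1421 : Zd := .nd 17 a537 .bot
def a1422 : Zd := .nd 16 a83 a1421
def a1423 : Zd := .nd 15 a1420 a1422
def a1424 : Zd := .nd 4 a1418 a1423
def a1425 : Zd := .nd 14 a1416 a1424
def a1426 : Zd := .nd 6 a36 .bot
def a1427 : Zd := .nd 16 a139 a1426
def a1428 : Zd := .nd 5 a527 a1427
def a1429 : Zd := .nd 16 a65 a222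
def a1430 : Zd := .nd 16 a184 .bot
def a1431 : Zd := .nd 5 a1430 a1045
def a1432 : Zd := .nd 15 a1429 a1431
def a1433 : Zd := .nd 4 a1428 a1432
def a1434 : Zd := .nd 16 a1369 .bot
def a1435 : Zd := .nd 5 a1434 .bot
def a1436 : Zd := .nd 15 a1435 .bot
def a1437 : Zd := .nd 17 a430 a1151
def a1438 : Zd := .nd 6 a87 a1437
def a1439 : Zd := .nd 18 a17 .bot
def a1440 : Zd := .nd 6 a1439 .bot
def a1441 : Zd := .nd 16 a1438 a1440
def a1442 : Zd := .nd 6 a45 .bot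
def a1443 : Zd := .nd 16 a1442 .bot
def a1444 : Zd := .nd 15 a1441 a1443
def a1445 : Zd := .nd 4 a1436 a1444
def a1446 : Zd := .nd 14 a1433 a1445
def a1447 : Zd := .nd 3 a1425 a1446
def a1448 : Zd := .nd 6 a148 .bot
def a1449 : Zd := .nd 6 a23 a59
def a1450 : Zd := .nd 17 a773 a935
def a1451 : Zd := .nd 5 a1449 a1450
def a1452 : Zd := .nd 15 a1448 a1451
def a1453 : Zd := .nd 16 a268 .bot
def a1454 : Zd := .nd 5 a1453 .bot
def a1455 : Zd := .nd 5 a682 .bot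
def a1456 : Zd := .nd 15 a1454 a1455
def a1457 : Zd := .nd 4 a1452 a1456
def a1458 : Zd := .nd 8 a165 a36
def a1459 : Zd := .nd 17 a1458 .bot
def a1460 : Zd := .nd 17 a1380 .bot
def a1461 : Zd := .nd 16 a1459 a1460
def a1462 : Zd := .nd 16 a169 .bot
def a1463 : Zd := .nd 5 a206 a1462
def a1464 : Zd := .nd 4 a1461 a1463
def a1465 : Zd := .nd 14 a1457 a1464
def a1466 : Zd := .nd 6 a729 .bot
def a1467 : Zd := .nd 16 a1466 .bot
def a1468 : Zd := .nd 7 a328 a580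
def a1469 : Zd := .nd 6 a1413 a959
def a1470 : Zd := .nd 16 a1469 .bot
def a1471 : Zd := .nd 5 a1468 a1470
def a1472 : Zd := .nd 15 a1467 a1471
def a1473 : Zd := .nd 16 a248 a222
def a1474 : Zd := .nd 5 a1473 .bot
def a1475 : Zd := .nd 19 a32 a58
def a1476 : Zd := .nd 8 a1475 .bot
def a1477 : Zd := .nd 18 a1476 .bot
def a1478 : Zd := .nd 16 a1477 .bot
def a1479 : Zd := .nd 17 a503 a858
def a1480 : Zd := .nd 16 a1479 .bot
def a1481 : Zd := .nd 5 a1478 a1480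
def a1482 : Zd := .nd 15 a1474 a1481
def a1483 : Zd := .nd 4 a1472 a1482
def a1484 : Zd := .nd 17 a26 a517
def a1485 : Zd := .nd 6 a1484 .bot
def a1486 : Zd := .nd 16 a1485 .bot
def a1487 : Zd := .nd 5 a1486 .bot
def a1488 : Zd := .nd 17 a224 .bot
def a1489 : Zd := .nd 16 a1488 .bot
def a1490 : Zd := .nd 5 a1489 .bot
def a1491 : Zd := .nd 15 a1487 a1490
def a1492 : Zd := .nd 14 a1483 a1491
def a1493 : Zd := .nd 3 a1465 a1492
def a1494 : Zd := .nd 13 a1447 a1493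
def a1495 : Zd := .nd 6 a385 .bot
def a1496 : Zd := .nd 15 a513 a1495
def a1497 : Zd := .nd 17 a187 a2
def a1498 : Zd := .nd 6 a1497 .bot
def a1499 : Zd := .nd 5 a65 a1498
def a1500 : Zd := .nd 18 a159 a517
def a1501 : Zd := .nd 17 a1500 .bot
def a1502 : Zd := .nd 16 a1501 .bot
def a1503 : Zd := .nd 5 a333 a1502
def a1504 : Zd := .nd 15 a1499 a1503
def a1505 : Zd := .nd 4 a1496 a1504
def a1506 : Zd := .nd 17 a88 .bot
def a1507 : Zd := .nd 16 a1506 .bot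
def a1508 : Zd := .nd 5 a1507 .bot
def a1509 : Zd := .nd 16 a732 a428
def a1510 : Zd := .nd 16 a493 .bot
def a1511 : Zd := .nd 5 a1509 a1510
def a1512 : Zd := .nd 15 a1508 a1511
def a1513 : Zd := .nd 6 a377 a1052
def a1514 : Zd := .nd 7 a345 .bot
def a1515 : Zd := .nd 6 a1514 .bot
def a1516 : Zd := .nd 16 a1513 a1515
def a1517 : Zd := .nd 5 a344 a1516
def a1518 : Zd := .nd 18 a44 .bot
def a1519 : Zd := .nd 16 a1518 .bot
def a1520 : Zd := .nd 7 a36 .bot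
def a1521 : Zd := .nd 17 a1520 .bot
def a1522 : Zd := .nd 6 a244 a1521
def a1523 : Zd := .nd 17 a244 .bot
def a1524 : Zd := .nd 16 a1522 a1523
def a1525 : Zd := .nd 5 a1519 a1524
def a1526 : Zd := .nd 15 a1517 a1525
def a1527 : Zd := .nd 4 a1512 a1526
def a1528 : Zd := .nd 14 a1505 a1527
def a1529 : Zd := .nd 7 a141 a286
def a1530 : Zd := .nd 17 a1529 a950
def a1531 : Zd := .nd 5 a140 a1530
def a1532 : Zd := .nd 9 .top a9
def a1533 : Zd := .nd 19 a1532 .bot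
def a1534 : Zd := .nd 18 a1533 .bot
def a1535 : Zd := .nd 8 a26 a229
def a1536 : Zd := .nd 17 a286 a1535
def a1537 : Zd := .nd 6 a1534 a1536
def a1538 : Zd := .nd 6 a1055 .bot
def a1539 : Zd := .nd 16 a1537 a1538
def a1540 : Zd := .nd 5 a548 a1539
def a1541 : Zd := .nd 16 a142 .bot
def a1542 : Zd := .nd 17 a334 .bot
def a1543 : Zd := .nd 6 a1187 a1542
def a1544 : Zd := .nd 16 a1543 .bot
def a1545 : Zd := .nd 5 a1541 a1544
def a1546 : Zd := .nd 15 a1540 a1545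
def a1547 : Zd := .nd 4 a1531 a1546
def a1548 : Zd := .nd 16 a1426 .bot
def a1549 : Zd := .nd 16 a1388 .bot
def a1550 : Zd := .nd 5 a1548 a1549
def a1551 : Zd := .nd 15 a1048 a1550
def a1552 : Zd := .nd 7 a141 a857
def a1553 : Zd := .nd 17 a1552 .bot
def a1554 : Zd := .nd 17 a26 a949
def a1555 : Zd := .nd 6 a1554 a1357
def a1556 : Zd := .nd 16 a1555 .bot
def a1557 : Zd := .nd 5 a1553 a1556
def a1558 : Zd := .nd 18 a221 .bot
def a1559 : Zd := .nd 17 a1558 .bot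
def a1560 : Zd := .nd 6 a260 a1559
def a1561 : Zd := .nd 16 a1560 .bot
def a1562 : Zd := .nd 15 a1557 a1561
def a1563 : Zd := .nd 4 a1551 a1562
def a1564 : Zd := .nd 14 a1547 a1563
def a1565 : Zd := .nd 3 a1528 a1564
def a1566 : Zd := .nd 17 a76 a492
def a1567 : Zd := .nd 16 a1566 a83
def a1568 : Zd := .nd 16 a1187 .bot
def a1569 : Zd := .nd 15 a1567 a1568
def a1570 : Zd := .nd 15 a1541 .bot
def a1571 : Zd := .nd 4 a1569 a1570
def a1572 : Zd := .nd 16 a1181 .bot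
def a1573 : Zd := .nd 5 a205 a1572
def a1574 : Zd := .nd 15 a1573 a1542
def a1575 : Zd := .nd 16 a1052 .bot
def a1576 : Zd := .nd 16 a1186 .bot
def a1577 : Zd := .nd 5 a1575 a1576
def a1578 : Zd := .nd 15 a1577 .bot
def a1579 : Zd := .nd 4 a1574 a1578
def a1580 : Zd := .nd 14 a1571 a1579
def a1581 : Zd := .nd 6 a24 a345
def a1582 : Zd := .nd 16 a1581 .bot
def a1583 : Zd := .nd 6 a377 a257
def a1584 : Zd := .nd 17 a857 .bot
def a1585 : Zd := .nd 6 a557 a1584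
def a1586 : Zd := .nd 16 a1583 a1585
def a1587 : Zd := .nd 5 a1582 a1586
def a1588 : Zd := .nd 6 a222 .bot
def a1589 : Zd := .nd 16 a914 a1588
def a1590 : Zd := .nd 5 a1589 .bot
def a1591 : Zd := .nd 15 a1587 a1590
def a1592 : Zd := .nd 6 a13 a723
def a1593 : Zd := .nd 16 a1592 .bot
def a1594 : Zd := .nd 17 a1558 a615
def a1595 : Zd := .nd 6 a1594 .bot
def a1596 : Zd := .nd 16 a473 a1595
def a1597 : Zd := .nd 5 a1593 a1596
def a1598 : Zd := .nd 7 a44 .bot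
def a1599 : Zd := .nd 6 a1598 .bot
def a1600 : Zd := .nd 16 a1599 .bot
def a1601 : Zd := .nd 5 a1600 .bot
def a1602 : Zd := .nd 15 a1597 a1601
def a1603 : Zd := .nd 4 a1591 a1602
def a1604 : Zd := .nd 17 a1267 .bot
def a1605 : Zd := .nd 5 a1604 .bot
def a1606 : Zd := .nd 4 a1605 .bot
def a1607 : Zd := .nd 14 a1603 a1606
def a1608 : Zd := .nd 3 a1580 a1607
def a1609 : Zd := .nd 13 a1565 a1608
def a1610 : Zd := .nd 2 a1494 a1609
def a1611 : Zd := .nd 12 a1411 a1610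
def a1612 : Zd := .nd 1 a1217 a1611
def a1613 : Zd := .nd 5 a248 .bot
def a1614 : Zd := .nd 15 a1613 .bot
def a1615 : Zd := .nd 17 a596 .bot
def a1616 : Zd := .nd 6 a1615 .bot
def a1617 : Zd := .nd 5 a98 a1616
def a1618 : Zd := .nd 17 a89 .bot
def a1619 : Zd := .nd 5 a1618 .bot
def a1620 : Zd := .nd 7 a1439 .bot
def a1621 : Zd := .nd 17 a1620 .bot
def a1622 : Zd := .nd 6 a1621 .bot
def a1623 : Zd := .nd 4 a1619 a1622
def a1624 : Zd := .nd 14 a1617 a1623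
def a1625 : Zd := .nd 3 a1614 a1624
def a1626 : Zd := .nd 7 a148 a187
def a1627 : Zd := .nd 6 a1626 .bot
def a1628 : Zd := .nd 16 a1627 .bot
def a1629 : Zd := .nd 15 a1628 .bot
def a1630 : Zd := .nd 16 a323 .bot
def a1631 : Zd := .nd 15 a1630 a757
def a1632 : Zd := .nd 18 a37 .bot
def a1633 : Zd := .nd 7 a1632 .bot
def a1634 : Zd := .nd 4 a1631 a1633
def a1635 : Zd := .nd 7 a37 .bot
def a1636 : Zd := .nd 6 a1635 .bot
def a1637 : Zd := .nd 15 a1588 a1636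
def a1638 : Zd := .nd 4 a1637 .bot
def a1639 : Zd := .nd 14 a1634 a1638
def a1640 : Zd := .nd 3 a1629 a1639
def a1641 : Zd := .nd 13 a1625 a1640
def a1642 : Zd := .nd 16 a9 .bot
def a1643 : Zd := .nd 15 a1642 .bot
def a1644 : Zd := .nd 17 a2 a17
def a1645 : Zd := .nd 15 a1644 .bot
def a1646 : Zd := .nd 4 a1643 a1645
def a1647 : Zd := .nd 16 a68 .bot
def a1648 : Zd := .nd 5 a1647 .bot
def a1649 : Zd := .nd 7 a47 .bot
def a1650 : Zd := .nd 16 a1649 .bot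
def a1651 : Zd := .nd 5 a1650 a1242
def a1652 : Zd := .nd 4 a1648 a1651
def a1653 : Zd := .nd 14 a1646 a1652
def a1654 : Zd := .nd 5 a27 .bot
def a1655 : Zd := .nd 16 a377 .bot
def a1656 : Zd := .nd 5 a1655 a1160
def a1657 : Zd := .nd 15 a1654 a1656
def a1658 : Zd := .nd 16 a346 .bot
def a1659 : Zd := .nd 18 a148 a23
def a1660 : Zd := .nd 7 a1659 .bot
def a1661 : Zd := .nd 17 a1660 .bot
def a1662 : Zd := .nd 6 a1661 .bot
def a1663 : Zd := .nd 5 a1658 a1662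
def a1664 : Zd := .nd 15 a258 a1663
def a1665 : Zd := .nd 16 a580 .bot
def a1666 : Zd := .nd 17 a612 .bot
def a1667 : Zd := .nd 5 a1666 .bot
def a1668 : Zd := .nd 15 a1665 a1667
def a1669 : Zd := .nd 4 a1664 a1668
def a1670 : Zd := .nd 14 a1657 a1669
def a1671 : Zd := .nd 3 a1653 a1670
def a1672 : Zd := .nd 16 a159 .bot
def a1673 : Zd := .nd 15 a1672 .bot
def a1674 : Zd := .nd 17 a187 a68
def a1675 : Zd := .nd 16 a1674 .bot
def a1676 : Zd := .nd 15 a1675 .bot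
def a1677 : Zd := .nd 4 a1673 a1676
def a1678 : Zd := .nd 6 a248 .bot
def a1679 : Zd := .nd 16 a210 .bot
def a1680 : Zd := .nd 5 a1678 a1679
def a1681 : Zd := .nd 5 a1194 .bot
def a1682 : Zd := .nd 15 a1680 a1681
def a1683 : Zd := .nd 6 a983 .bot
def a1684 : Zd := .nd 15 a1683 .bot
def a1685 : Zd := .nd 4 a1682 a1684
def a1686 : Zd := .nd 14 a1677 a1685
def a1687 : Zd := .nd 6 a9 a1002
def a1688 : Zd := .nd 16 a1687 .bot
def a1689 : Zd := .nd 8 a11 a5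
def a1690 : Zd := .nd 18 a1689 .bot
def a1691 : Zd := .nd 7 a1690 .bot
def a1692 : Zd := .nd 6 a1649 .bot
def a1693 : Zd := .nd 16 a1691 a1692
def a1694 : Zd := .nd 5 a1688 a1693
def a1695 : Zd := .nd 18 a36 .bot
def a1696 : Zd := .nd 7 a1695 .bot
def a1697 : Zd := .nd 17 a1696 .bot
def a1698 : Zd := .nd 6 a1542 a1697
def a1699 : Zd := .nd 15 a1694 a1698
def a1700 : Zd := .nd 18 a117 a195
def a1701 : Zd := .nd 6 a1700 .bot
def a1702 : Zd := .nd 16 a1356 a1701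
def a1703 : Zd := .nd 7 a48 .bot
def a1704 : Zd := .nd 6 a1703 .bot
def a1705 : Zd := .nd 5 a1704 .bot
def a1706 : Zd := .nd 15 a1702 a1705
def a1707 : Zd := .nd 4 a1699 a1706
def a1708 : Zd := .nd 16 a1538 .bot
def a1709 : Zd := .nd 5 a272 .bot
def a1710 : Zd := .nd 15 a1708 a1709
def a1711 : Zd := .nd 4 a1710 .bot
def a1712 : Zd := .nd 14 a1707 a1711
def a1713 : Zd := .nd 3 a1686 a1712
def a1714 : Zd := .nd 13 a1671 a1713
def a1715 : Zd := .nd 2 a1641 a1714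
def a1716 : Zd := .nd 17 a949 .bot
def a1717 : Zd := .nd 6 a290 a1716
def a1718 : Zd := .nd 17 a385 a392
def a1719 : Zd := .nd 6 a257 .bot
def a1720 : Zd := .nd 16 a1718 a1719
def a1721 : Zd := .nd 6 a399 a195
def a1722 : Zd := .nd 16 a1721 .bot
def a1723 : Zd := .nd 5 a880 a1722
def a1724 : Zd := .nd 4 a1720 a1723
def a1725 : Zd := .nd 14 a1717 a1724
def a1726 : Zd := .nd 7 a229 .bot
def a1727 : Zd := .nd 6 a1726 a1697
def a1728 : Zd := .nd 5 a1186 a1727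
def a1729 : Zd := .nd 17 a37 .bot
def a1730 : Zd := .nd 6 a1345 a1729
def a1731 : Zd := .nd 16 a580 a1730
def a1732 : Zd := .nd 17 a68 .bot
def a1733 : Zd := .nd 6 a1732 .bot
def a1734 : Zd := .nd 7 a1055 .bot
def a1735 : Zd := .nd 6 a1734 .bot
def a1736 : Zd := .nd 16 a1733 a1735
def a1737 : Zd := .nd 5 a1731 a1736
def a1738 : Zd := .nd 17 a385 .bot
def a1739 : Zd := .nd 6 a1738 .bot
def a1740 : Zd := .nd 16 a1739 .bot
def a1741 : Zd := .nd 17 a335 .bot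
def a1742 : Zd := .nd 6 a1741 .bot
def a1743 : Zd := .nd 15 a1740 a1742
def a1744 : Zd := .nd 4 a1737 a1743
def a1745 : Zd := .nd 14 a1728 a1744
def a1746 : Zd := .nd 3 a1725 a1745
def a1747 : Zd := .nd 16 a148 .bot
def a1748 : Zd := .nd 15 a1747 a167
def a1749 : Zd := .nd 17 a579 .bot
def a1750 : Zd := .nd 17 a346 .bot
def a1751 : Zd := .nd 5 a1749 a1750
def a1752 : Zd := .nd 4 a1748 a1751
def a1753 : Zd := .nd 6 a311 .bot
def a1754 : Zd := .nd 16 a1753 .bot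
def a1755 : Zd := .nd 5 a1754 .bot
def a1756 : Zd := .nd 6 a924 .bot
def a1757 : Zd := .nd 17 a90 a235
def a1758 : Zd := .nd 6 a1757 .bot
def a1759 : Zd := .nd 16 a1358 a1758
def a1760 : Zd := .nd 5 a1756 a1759
def a1761 : Zd := .nd 15 a1755 a1760
def a1762 : Zd := .nd 17 a221 a222
def a1763 : Zd := .nd 6 a1762 .bot
def a1764 : Zd := .nd 5 a1763 .bot
def a1765 : Zd := .nd 15 a1764 a954
def a1766 : Zd := .nd 4 a1761 a1765
def a1767 : Zd := .nd 14 a1752 a1766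
def a1768 : Zd := .nd 16 a1101 .bot
def a1769 : Zd := .nd 5 a256 a1768
def a1770 : Zd := .nd 15 a1194 a1769
def a1771 : Zd := .nd 17 a283 .bot
def a1772 : Zd := .nd 6 a1635 a1771
def a1773 : Zd := .nd 5 a1772 .bot
def a1774 : Zd := .nd 4 a1770 a1773
def a1775 : Zd := .nd 5 a1515 .bot
def a1776 : Zd := .nd 17 a59 a195
def a1777 : Zd := .nd 6 a1776 .bot
def a1778 : Zd := .nd 5 a1777 a1442
def a1779 : Zd := .nd 15 a1775 a1778
def a1780 : Zd := .nd 4 a1779 .bot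
def a1781 : Zd := .nd 14 a1774 a1780
def a1782 : Zd := .nd 3 a1767 a1781
def a1783 : Zd := .nd 13 a1746 a1782
def a1784 : Zd := .nd 18 a283 .bot
def a1785 : Zd := .nd 5 a1716 a1784
def a1786 : Zd := .nd 4 a551 a1785
def a1787 : Zd := .nd 17 a1632 .bot
def a1788 : Zd := .nd 16 a1187 a1787
def a1789 : Zd := .nd 7 a517 a26
def a1790 : Zd := .nd 17 a1789 .bot
def a1791 : Zd := .nd 16 a1790 .bot
def a1792 : Zd := .nd 5 a97 a1791
def a1793 : Zd := .nd 6 a244 .bot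
def a1794 : Zd := .nd 16 a1793 .bot
def a1795 : Zd := .nd 5 a1697 a1794
def a1796 : Zd := .nd 15 a1792 a1795
def a1797 : Zd := .nd 4 a1788 a1796
def a1798 : Zd := .nd 14 a1786 a1797
def a1799 : Zd := .nd 7 a80 a26
def a1800 : Zd := .nd 6 a1799 .bot
def a1801 : Zd := .nd 16 a1800 .bot
def a1802 : Zd := .nd 6 a1033 .bot
def a1803 : Zd := .nd 16 a1802 .bot
def a1804 : Zd := .nd 15 a1801 a1803
def a1805 : Zd := .nd 4 a1045 a1804
def a1806 : Zd := .nd 5 a914 .bot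
def a1807 : Zd := .nd 6 a950 .bot
def a1808 : Zd := .nd 17 a1151 .bot
def a1809 : Zd := .nd 5 a1807 a1808
def a1810 : Zd := .nd 15 a1806 a1809
def a1811 : Zd := .nd 4 a1810 .bot
def a1812 : Zd := .nd 14 a1805 a1811
def a1813 : Zd := .nd 3 a1798 a1812
def a1814 : Zd := .nd 17 a1734 .bot
def a1815 : Zd := .nd 15 a726 a1814
def a1816 : Zd := .nd 15 a565 .bot
def a1817 : Zd := .nd 4 a1815 a1816
def a1818 : Zd := .nd 17 a223 a1734
def a1819 : Zd := .nd 6 a1818 .bot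
def a1820 : Zd := .nd 5 a1819 .bot
def a1821 : Zd := .nd 6 a878 .bot
def a1822 : Zd := .nd 6 a1202 .bot
def a1823 : Zd := .nd 16 a1822 .bot
def a1824 : Zd := .nd 5 a1821 a1823
def a1825 : Zd := .nd 4 a1820 a1824
def a1826 : Zd := .nd 14 a1817 a1825
def a1827 : Zd := .nd 7 a80 a81
def a1828 : Zd := .nd 6 a1827 .bot
def a1829 : Zd := .nd 16 a1828 .bot
def a1830 : Zd := .nd 5 a1052 a1829
def a1831 : Zd := .nd 15 a1830 a1489
def a1832 : Zd := .nd 4 a1831 .bot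
def a1833 : Zd := .nd 14 a1832 .bot
def a1834 : Zd := .nd 3 a1826 a1833
def a1835 : Zd := .nd 13 a1813 a1834
def a1836 : Zd := .nd 2 a1783 a1835
def a1837 : Zd := .nd 12 a1715 a1836
def a1838 : Zd := .nd 16 a137 .bot
def a1839 : Zd := .nd 15 a1838 .bot
def a1840 : Zd := .nd 16 a34 .bot
def a1841 : Zd := .nd 5 a1840 a1439
def a1842 : Zd := .nd 15 a1841 .bot
def a1843 : Zd := .nd 4 a1842 .bot
def a1844 : Zd := .nd 14 a1839 a1843
def a1845 : Zd := .nd 6 a1052 .bot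
def a1846 : Zd := .nd 17 a584 .bot
def a1847 : Zd := .nd 6 a1846 .bot
def a1848 : Zd := .nd 15 a1845 a1847
def a1849 : Zd := .nd 8 a160 a26
def a1850 : Zd := .nd 18 a1849 .bot
def a1851 : Zd := .nd 6 a1850 .bot
def a1852 : Zd := .nd 6 a286 a1186
def a1853 : Zd := .nd 16 a1852 .bot
def a1854 : Zd := .nd 6 a1633 .bot
def a1855 : Zd := .nd 16 a1854 .bot
def a1856 : Zd := .nd 15 a1853 a1855
def a1857 : Zd := .nd 4 a1851 a1856
def a1858 : Zd := .nd 14 a1848 a1857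
def a1859 : Zd := .nd 3 a1844 a1858
def a1860 : Zd := .nd 17 a0 .bot
def a1861 : Zd := .nd 16 a1860 .bot
def a1862 : Zd := .nd 9 a11 a159
def a1863 : Zd := .nd 7 a1862 .bot
def a1864 : Zd := .nd 6 a1863 .bot
def a1865 : Zd := .nd 16 a1864 .bot
def a1866 : Zd := .nd 5 a1861 a1865
def a1867 : Zd := .nd 15 a1866 a1242
def a1868 : Zd := .nd 4 a1186 a1867
def a1869 : Zd := .nd 5 a607 .bot
def a1870 : Zd := .nd 15 a1869 .bot
def a1871 : Zd := .nd 14 a1868 a1870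
def a1872 : Zd := .nd 5 a1672 a66
def a1873 : Zd := .nd 6 a1 a584
def a1874 : Zd := .nd 16 a1873 a1615
def a1875 : Zd := .nd 5 a1874 .bot
def a1876 : Zd := .nd 15 a1872 a1875
def a1877 : Zd := .nd 16 a584 a1356
def a1878 : Zd := .nd 17 a48 a1703
def a1879 : Zd := .nd 5 a1877 a1878
def a1880 : Zd := .nd 7 a561 .bot
def a1881 : Zd := .nd 6 a1880 a1383
def a1882 : Zd := .nd 18 a773 a283
def a1883 : Zd := .nd 6 a1882 .bot
def a1884 : Zd := .nd 16 a1881 a1883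
def a1885 : Zd := .nd 15 a1879 a1884
def a1886 : Zd := .nd 4 a1876 a1885
def a1887 : Zd := .nd 6 a520 .bot
def a1888 : Zd := .nd 5 a1887 .bot
def a1889 : Zd := .nd 6 a1174 .bot
def a1890 : Zd := .nd 5 a1889 .bot
def a1891 : Zd := .nd 15 a1888 a1890
def a1892 : Zd := .nd 16 a1636 .bot
def a1893 : Zd := .nd 7 a765 .bot
def a1894 : Zd := .nd 6 a1893 .bot
def a1895 : Zd := .nd 5 a1894 .bot
def a1896 : Zd := .nd 15 a1892 a1895
def a1897 : Zd := .nd 4 a1891 a1896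
def a1898 : Zd := .nd 14 a1886 a1897
def a1899 : Zd := .nd 3 a1871 a1898
def a1900 : Zd := .nd 13 a1859 a1899
def a1901 : Zd := .nd 15 a669 .bot
def a1902 : Zd := .nd 6 a842 .bot
def a1903 : Zd := .nd 5 a1902 .bot
def a1904 : Zd := .nd 7 a159 a96
def a1905 : Zd := .nd 17 a1904 .bot
def a1906 : Zd := .nd 16 a1905 .bot
def a1907 : Zd := .nd 16 a759 .bot
def a1908 : Zd := .nd 15 a1906 a1907
def a1909 : Zd := .nd 4 a1903 a1908
def a1910 : Zd := .nd 14 a1901 a1909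
def a1911 : Zd := .nd 6 a333 .bot
def a1912 : Zd := .nd 17 a17 .bot
def a1913 : Zd := .nd 6 a1912 a1749
def a1914 : Zd := .nd 5 a1913 a1893
def a1915 : Zd := .nd 15 a1911 a1914
def a1916 : Zd := .nd 19 .top a0
def a1917 : Zd := .nd 18 a1916 .bot
def a1918 : Zd := .nd 7 a1917 a166
def a1919 : Zd := .nd 17 a1918 .bot
def a1920 : Zd := .nd 16 a1413 a1919
def a1921 : Zd := .nd 7 a146 a286
def a1922 : Zd := .nd 17 a1921 .bot
def a1923 : Zd := .nd 6 a668 a1922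
def a1924 : Zd := .nd 16 a1923 a1460
def a1925 : Zd := .nd 5 a1920 a1924
def a1926 : Zd := .nd 17 a83 .bot
def a1927 : Zd := .nd 16 a1926 .bot
def a1928 : Zd := .nd 7 a561 a1518
def a1929 : Zd := .nd 17 a1928 .bot
def a1930 : Zd := .nd 6 a288 .bot
def a1931 : Zd := .nd 16 a1929 a1930
def a1932 : Zd := .nd 5 a1927 a1931
def a1933 : Zd := .nd 15 a1925 a1932
def a1934 : Zd := .nd 4 a1915 a1933
def a1935 : Zd := .nd 6 a431 .bot
def a1936 : Zd := .nd 5 a1935 a802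
def a1937 : Zd := .nd 7 a968 .bot
def a1938 : Zd := .nd 17 a1937 .bot
def a1939 : Zd := .nd 5 a168 a1938
def a1940 : Zd := .nd 15 a1936 a1939
def a1941 : Zd := .nd 17 a1518 .bot
def a1942 : Zd := .nd 6 a893 a1941
def a1943 : Zd := .nd 18 a984 .bot
def a1944 : Zd := .nd 16 a1942 a1943
def a1945 : Zd := .nd 5 a967 a1944
def a1946 : Zd := .nd 6 a1716 .bot
def a1947 : Zd := .nd 16 a170 a1946
def a1948 : Zd := .nd 6 a1814 a940
def a1949 : Zd := .nd 16 a1948 .bot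
def a1950 : Zd := .nd 5 a1947 a1949
def a1951 : Zd := .nd 15 a1945 a1950
def a1952 : Zd := .nd 4 a1940 a1951
def a1953 : Zd := .nd 14 a1934 a1952
def a1954 : Zd := .nd 3 a1910 a1953
def a1955 : Zd := .nd 16 a210 a628
def a1956 : Zd := .nd 5 a1955 .bot
def a1957 : Zd := .nd 18 a187 a193
def a1958 : Zd := .nd 6 a330 a1957
def a1959 : Zd := .nd 16 a1958 .bot
def a1960 : Zd := .nd 5 a1959 .bot
def a1961 : Zd := .nd 16 a1521 .bot
def a1962 : Zd := .nd 6 a952 .bot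
def a1963 : Zd := .nd 16 a707 a1962
def a1964 : Zd := .nd 5 a1961 a1963
def a1965 : Zd := .nd 15 a1960 a1964
def a1966 : Zd := .nd 4 a1956 a1965
def a1967 : Zd := .nd 5 a752 a932
def a1968 : Zd := .nd 15 a1967 .bot
def a1969 : Zd := .nd 6 a724 .bot
def a1970 : Zd := .nd 17 a624 .bot
def a1971 : Zd := .nd 6 a1970 .bot
def a1972 : Zd := .nd 16 a1971 .bot
def a1973 : Zd := .nd 5 a1969 a1972
def a1974 : Zd := .nd 15 a1973 .bot
def a1975 : Zd := .nd 4 a1968 a1974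
def a1976 : Zd := .nd 14 a1966 a1975
def a1977 : Zd := .nd 8 a187 a68
def a1978 : Zd := .nd 17 a2 a222
def a1979 : Zd := .nd 16 a1977 a1978
def a1980 : Zd := .nd 17 a536 .bot
def a1981 : Zd := .nd 17 a400 .bot
def a1982 : Zd := .nd 16 a1980 a1981
def a1983 : Zd := .nd 5 a1979 a1982
def a1984 : Zd := .nd 5 a295 .bot
def a1985 : Zd := .nd 15 a1983 a1984
def a1986 : Zd := .nd 6 a1059 .bot
def a1987 : Zd := .nd 16 a1986 .bot
def a1988 : Zd := .nd 17 a862 .bot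
def a1989 : Zd := .nd 6 a1988 .bot
def a1990 : Zd := .nd 16 a1989 .bot
def a1991 : Zd := .nd 15 a1987 a1990
def a1992 : Zd := .nd 4 a1985 a1991
def a1993 : Zd := .nd 6 a732 .bot
def a1994 : Zd := .nd 16 a1993 .bot
def a1995 : Zd := .nd 5 a1994 .bot
def a1996 : Zd := .nd 15 a1995 .bot
def a1997 : Zd := .nd 6 a1750 .bot
def a1998 : Zd := .nd 16 a1997 .bot
def a1999 : Zd := .nd 15 a1998 .bot
def a2000 : Zd := .nd 4 a1996 a1999
def a2001 : Zd := .nd 14 a1992 a2000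
def a2002 : Zd := .nd 3 a1976 a2001
def a2003 : Zd := .nd 13 a1954 a2002
def a2004 : Zd := .nd 2 a1900 a2003
def a2005 : Zd := .nd 17 a184 .bot
def a2006 : Zd := .nd 16 a2005 .bot
def a2007 : Zd := .nd 5 a503 a2006
def a2008 : Zd := .nd 15 a2007 a629
def a2009 : Zd := .nd 7 a37 a223
def a2010 : Zd := .nd 6 a2009 .bot
def a2011 : Zd := .nd 6 a1186 .bot
def a2012 : Zd := .nd 5 a2010 a2011
def a2013 : Zd := .nd 6 a235 a1716
def a2014 : Zd := .nd 17 a1059 .bot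
def a2015 : Zd := .nd 6 a2014 .bot
def a2016 : Zd := .nd 5 a1946 a2015
def a2017 : Zd := .nd 15 a2013 a2016
def a2018 : Zd := .nd 4 a2012 a2017
def a2019 : Zd := .nd 14 a2008 a2018
def a2020 : Zd := .nd 6 a223 .bot
def a2021 : Zd := .nd 16 a1130 a2020
def a2022 : Zd := .nd 5 a744 a2021
def a2023 : Zd := .nd 15 a2022 .bot
def a2024 : Zd := .nd 7 a949 a1151
def a2025 : Zd := .nd 16 a248 a2024
def a2026 : Zd := .nd 17 a1635 .bot
def a2027 : Zd := .nd 6 a2026 .bot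
def a2028 : Zd := .nd 5 a2025 a2027
def a2029 : Zd := .nd 17 a1703 a487
def a2030 : Zd := .nd 6 a2029 .bot
def a2031 : Zd := .nd 16 a2030 .bot
def a2032 : Zd := .nd 15 a2028 a2031
def a2033 : Zd := .nd 4 a2023 a2032
def a2034 : Zd := .nd 6 a417 .bot
def a2035 : Zd := .nd 5 a2034 .bot
def a2036 : Zd := .nd 17 a1059 a878
def a2037 : Zd := .nd 17 a1893 .bot
def a2038 : Zd := .nd 5 a2036 a2037
def a2039 : Zd := .nd 15 a2035 a2038
def a2040 : Zd := .nd 6 a97 .bot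
def a2041 : Zd := .nd 16 a2040 .bot
def a2042 : Zd := .nd 7 a1518 .bot
def a2043 : Zd := .nd 16 a2042 .bot
def a2044 : Zd := .nd 5 a2041 a2043
def a2045 : Zd := .nd 16 a634 .bot
def a2046 : Zd := .nd 15 a2044 a2045
def a2047 : Zd := .nd 4 a2039 a2046
def a2048 : Zd := .nd 14 a2033 a2047
def a2049 : Zd := .nd 3 a2019 a2048
def a2050 : Zd := .nd 7 a283 .bot
def a2051 : Zd := .nd 5 a654 a2050
def a2052 : Zd := .nd 15 a1417 a2051
def a2053 : Zd := .nd 4 a2052 .bot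
def a2054 : Zd := .nd 16 a352 .bot
def a2055 : Zd := .nd 5 a2054 .bot
def a2056 : Zd := .nd 17 a1174 .bot
def a2057 : Zd := .nd 6 a2056 .bot
def a2058 : Zd := .nd 18 a612 .bot
def a2059 : Zd := .nd 6 a2058 .bot
def a2060 : Zd := .nd 5 a2057 a2059
def a2061 : Zd := .nd 15 a2055 a2060
def a2062 : Zd := .nd 14 a2053 a2061
def a2063 : Zd := .nd 16 a1383 .bot
def a2064 : Zd := .nd 5 a1186 a2063
def a2065 : Zd := .nd 17 a473 .bot
def a2066 : Zd := .nd 6 a2065 .bot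
def a2067 : Zd := .nd 16 a2066 .bot
def a2068 : Zd := .nd 15 a2064 a2067
def a2069 : Zd := .nd 4 a2015 a2068
def a2070 : Zd := .nd 7 a1784 .bot
def a2071 : Zd := .nd 17 a2070 .bot
def a2072 : Zd := .nd 6 a2071 .bot
def a2073 : Zd := .nd 5 a1998 a2072
def a2074 : Zd := .nd 18 a657 a624
def a2075 : Zd := .nd 7 a2074 .bot
def a2076 : Zd := .nd 6 a2075 .bot
def a2077 : Zd := .nd 16 a2076 .bot
def a2078 : Zd := .nd 5 a2077 .bot
def a2079 : Zd := .nd 15 a2073 a2078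
def a2080 : Zd := .nd 14 a2069 a2079
def a2081 : Zd := .nd 3 a2062 a2080
def a2082 : Zd := .nd 13 a2049 a2081
def a2083 : Zd := .nd 16 a650 a1460
def a2084 : Zd := .nd 17 a196 .bot
def a2085 : Zd := .nd 17 a1784 .bot
def a2086 : Zd := .nd 6 a2085 .bot
def a2087 : Zd := .nd 16 a2084 a2086
def a2088 : Zd := .nd 15 a2083 a2087
def a2089 : Zd := .nd 5 a1171 .bot
def a2090 : Zd := .nd 17 a286 a194
def a2091 : Zd := .nd 16 a2090 .bot
def a2092 : Zd := .nd 6 a194 .bot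
def a2093 : Zd := .nd 16 a2092 .bot
def a2094 : Zd := .nd 5 a2091 a2093
def a2095 : Zd := .nd 6 a759 .bot
def a2096 : Zd := .nd 16 a2095 .bot
def a2097 : Zd := .nd 7 a1151 .bot
def a2098 : Zd := .nd 17 a2097 .bot
def a2099 : Zd := .nd 16 a2098 .bot
def a2100 : Zd := .nd 5 a2096 a2099
def a2101 : Zd := .nd 15 a2094 a2100
def a2102 : Zd := .nd 4 a2089 a2101
def a2103 : Zd := .nd 16 a724 .bot
def a2104 : Zd := .nd 5 a2103 .bot
def a2105 : Zd := .nd 18 a579 .bot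
def a2106 : Zd := .nd 7 a2105 .bot
def a2107 : Zd := .nd 16 a2106 .bot
def a2108 : Zd := .nd 5 a2107 .bot
def a2109 : Zd := .nd 15 a2104 a2108
def a2110 : Zd := .nd 4 a2109 .bot
def a2111 : Zd := .nd 14 a2102 a2110
def a2112 : Zd := .nd 3 a2088 a2111
def a2113 : Zd := .nd 17 a160 .bot
def a2114 : Zd := .nd 16 a2113 .bot
def a2115 : Zd := .nd 15 a2114 .bot
def a2116 : Zd := .nd 4 a2115 .bot
def a2117 : Zd := .nd 7 a983 .bot
def a2118 : Zd := .nd 17 a2117 .bot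
def a2119 : Zd := .nd 6 a2118 .bot
def a2120 : Zd := .nd 5 a2119 .bot
def a2121 : Zd := .nd 14 a2116 a2120
def a2122 : Zd := .nd 3 a2121 .bot
def a2123 : Zd := .nd 13 a2112 a2122
def a2124 : Zd := .nd 2 a2082 a2123
def a2125 : Zd := .nd 12 a2004 a2124
def a2126 : Zd := .nd 1 a1837 a2125
def a2127 : Zd := .nd 11 a1612 a2126
def a2128 : Zd := .nd 0 a994 a2127
def b0 : Zd := .nd 52 .top .bot
def b1 : Zd := .nd 48 b0 .bot
def b2 : Zd := .nd 46 b1 .bot
def b3 : Zd := .nd 44 b2 .bot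
def b4 : Zd := .nd 42 b3 .bot
def b5 : Zd := .nd 34 b4 .bot
def b6 : Zd := .nd 32 b5 .bot
def b7 : Zd := .nd 27 b6 .bot
def b8 : Zd := .nd 24 b7 .bot
def b9 : Zd := .nd 23 b8 .bot
def b10 : Zd := .nd 22 b9 .bot
def b11 : Zd := .nd 21 b10 .bot
def b12 : Zd := .nd 20 b11 .bot
def b13 : Zd := .nd 18 b12 .bot
def b14 : Zd := .nd 15 b13 .bot
def b15 : Zd := .nd 53 .top .bot
def b16 : Zd := .nd 52 b15 .bot
def b17 : Zd := .nd 50 b16 .bot
def b18 : Zd := .nd 46 b17 .bot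
def b19 : Zd := .nd 45 b18 .bot
def b20 : Zd := .nd 42 b19 .bot
def b21 : Zd := .nd 39 b20 .bot
def b22 : Zd := .nd 38 b21 .bot
def b23 : Zd := .nd 34 b22 .bot
def b24 : Zd := .nd 32 b23 .bot
def b25 : Zd := .nd 29 b24 .bot
def b26 : Zd := .nd 25 b25 .bot
def b27 : Zd := .nd 23 b26 .bot
def b28 : Zd := .nd 22 b27 .bot
def b29 : Zd := .nd 20 b28 .bot
def b30 : Zd := .nd 18 b29 .bot
def b31 : Zd := .nd 15 b30 .bot
def b32 : Zd := .nd 14 b31 .bot
def b33 : Zd := .nd 12 b32 .bot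
def b34 : Zd := .nd 51 .top .bot
def b35 : Zd := .nd 50 b34 .bot
def b36 : Zd := .nd 49 b35 .bot
def b37 : Zd := .nd 45 b36 .bot
def b38 : Zd := .nd 42 b37 .bot
def b39 : Zd := .nd 37 b38 .bot
def b40 : Zd := .nd 36 b39 .bot
def b41 : Zd := .nd 33 b40 .bot
def b42 : Zd := .nd 30 b41 .bot
def b43 : Zd := .nd 27 b42 .bot
def b44 : Zd := .nd 26 b43 .bot
def b45 : Zd := .nd 25 b44 .bot
def b46 : Zd := .nd 19 b45 .bot
def b47 : Zd := .nd 16 b46 .bot
def b48 : Zd := .nd 14 b47 .bot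
def b49 : Zd := .nd 13 b48 .bot
def b50 : Zd := .nd 12 b49 .bot
def b51 : Zd := .nd 9 b33 b50
def b52 : Zd := .nd 7 b14 b51
def b53 : Zd := .nd 54 .top .bot
def b54 : Zd := .nd 51 b53 .bot
def b55 : Zd := .nd 48 b54 .bot
def b56 : Zd := .nd 46 b55 .bot
def b57 : Zd := .nd 44 b56 .bot
def b58 : Zd := .nd 43 b57 .bot
def b59 : Zd := .nd 37 b58 .bot
def b60 : Zd := .nd 32 b59 .bot
def b61 : Zd := .nd 31 b60 .bot
def b62 : Zd := .nd 29 b61 .bot
def b63 : Zd := .nd 26 b62 .bot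
def b64 : Zd := .nd 25 b63 .bot
def b65 : Zd := .nd 20 b64 .bot
def b66 : Zd := .nd 19 b65 .bot
def b67 : Zd := .nd 17 b66 .bot
def b68 : Zd := .nd 48 b17 .bot
def b69 : Zd := .nd 47 b68 .bot
def b70 : Zd := .nd 46 b69 .bot
def b71 : Zd := .nd 44 b70 .bot
def b72 : Zd := .nd 39 b71 .bot
def b73 : Zd := .nd 38 b72 .bot
def b74 : Zd := .nd 34 b73 .bot
def b75 : Zd := .nd 31 b74 .bot
def b76 : Zd := .nd 24 b75 .bot
def b77 : Zd := .nd 23 b76 .bot
def b78 : Zd := .nd 22 b77 .bot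
def b79 : Zd := .nd 18 b78 .bot
def b80 : Zd := .nd 16 b79 .bot
def b81 : Zd := .nd 14 b80 .bot
def b82 : Zd := .nd 11 b81 .bot
def b83 : Zd := .nd 5 b67 b82
def b84 : Zd := .nd 49 b16 .bot
def b85 : Zd := .nd 47 b84 .bot
def b86 : Zd := .nd 41 b85 .bot
def b87 : Zd := .nd 38 b86 .bot
def b88 : Zd := .nd 36 b87 .bot
def b89 : Zd := .nd 35 b88 .bot
def b90 : Zd := .nd 34 b89 .bot
def b91 : Zd := .nd 28 b90 .bot
def b92 : Zd := .nd 26 b91 .bot
def b93 : Zd := .nd 23 b92 .bot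
def b94 : Zd := .nd 22 b93 .bot
def b95 : Zd := .nd 20 b94 .bot
def b96 : Zd := .nd 18 b95 .bot
def b97 : Zd := .nd 17 b96 .bot
def b98 : Zd := .nd 6 b97 .bot
def b99 : Zd := .nd 4 b83 b98
def b100 : Zd := .nd 3 b52 b99
def b101 : Zd := .nd 49 b34 .bot
def b102 : Zd := .nd 45 b101 .bot
def b103 : Zd := .nd 43 b102 .bot
def b104 : Zd := .nd 40 b103 .bot
def b105 : Zd := .nd 38 b104 .bot
def b106 : Zd := .nd 36 b105 .bot
def b107 : Zd := .nd 32 b106 .bot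
def b108 : Zd := .nd 31 b107 .bot
def b109 : Zd := .nd 30 b108 .bot
def b110 : Zd := .nd 27 b109 .bot
def b111 : Zd := .nd 26 b110 .bot
def b112 : Zd := .nd 25 b111 .bot
def b113 : Zd := .nd 23 b112 .bot
def b114 : Zd := .nd 21 b113 .bot
def b115 : Zd := .nd 19 b114 .bot
def b116 : Zd := .nd 12 b115 .bot
def b117 : Zd := .nd 11 b116 .bot
def b118 : Zd := .nd 51 b15 .bot
def b119 : Zd := .nd 50 b118 .bot
def b120 : Zd := .nd 48 b119 .bot
def b121 : Zd := .nd 45 b120 .bot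
def b122 : Zd := .nd 44 b121 .bot
def b123 : Zd := .nd 41 b122 .bot
def b124 : Zd := .nd 39 b123 .bot
def b125 : Zd := .nd 38 b124 .bot
def b126 : Zd := .nd 37 b125 .bot
def b127 : Zd := .nd 35 b126 .bot
def b128 : Zd := .nd 34 b127 .bot
def b129 : Zd := .nd 31 b128 .bot
def b130 : Zd := .nd 30 b129 .bot
def b131 : Zd := .nd 29 b130 .bot
def b132 : Zd := .nd 27 b131 .bot
def b133 : Zd := .nd 21 b132 .bot
def b134 : Zd := .nd 20 b133 .bot
def b135 : Zd := .nd 17 b134 .bot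
def b136 : Zd := .nd 16 b135 .bot
def b137 : Zd := .nd 14 b136 .bot
def b138 : Zd := .nd 12 b137 .bot
def b139 : Zd := .nd 8 b138 .bot
def b140 : Zd := .nd 6 b117 b139
def b141 : Zd := .nd 47 b1 .bot
def b142 : Zd := .nd 46 b141 .bot
def b143 : Zd := .nd 44 b142 .bot
def b144 : Zd := .nd 41 b143 .bot
def b145 : Zd := .nd 40 b144 .bot
def b146 : Zd := .nd 38 b145 .bot
def b147 : Zd := .nd 31 b146 .bot
def b148 : Zd := .nd 30 b147 .bot
def b149 : Zd := .nd 27 b148 .bot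
def b150 : Zd := .nd 25 b149 .bot
def b151 : Zd := .nd 24 b150 .bot
def b152 : Zd := .nd 23 b151 .bot
def b153 : Zd := .nd 20 b152 .bot
def b154 : Zd := .nd 18 b153 .bot
def b155 : Zd := .nd 17 b154 .bot
def b156 : Zd := .nd 16 b155 .bot
def b157 : Zd := .nd 15 b156 .bot
def b158 : Zd := .nd 14 b157 .bot
def b159 : Zd := .nd 7 b158 .bot
def b160 : Zd := .nd 53 b53 .bot
def b161 : Zd := .nd 49 b160 .bot
def b162 : Zd := .nd 47 b161 .bot
def b163 : Zd := .nd 46 b162 .bot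
def b164 : Zd := .nd 42 b163 .bot
def b165 : Zd := .nd 39 b164 .bot
def b166 : Zd := .nd 33 b165 .bot
def b167 : Zd := .nd 31 b166 .bot
def b168 : Zd := .nd 30 b167 .bot
def b169 : Zd := .nd 28 b168 .bot
def b170 : Zd := .nd 20 b169 .bot
def b171 : Zd := .nd 15 b170 .bot
def b172 : Zd := .nd 14 b171 .bot
def b173 : Zd := .nd 13 b172 .bot
def b174 : Zd := .nd 12 b173 .bot
def b175 : Zd := .nd 8 b174 .bot
def b176 : Zd := .nd 52 b53 .bot
def b177 : Zd := .nd 47 b176 .bot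
def b178 : Zd := .nd 46 b177 .bot
def b179 : Zd := .nd 45 b178 .bot
def b180 : Zd := .nd 42 b179 .bot
def b181 : Zd := .nd 38 b180 .bot
def b182 : Zd := .nd 37 b181 .bot
def b183 : Zd := .nd 32 b182 .bot
def b184 : Zd := .nd 31 b183 .bot
def b185 : Zd := .nd 28 b184 .bot
def b186 : Zd := .nd 25 b185 .bot
def b187 : Zd := .nd 20 b186 .bot
def b188 : Zd := .nd 17 b187 .bot
def b189 : Zd := .nd 15 b188 .bot
def b190 : Zd := .nd 13 b189 .bot
def b191 : Zd := .nd 12 b190 .bot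
def b192 : Zd := .nd 9 b191 .bot
def b193 : Zd := .nd 7 b175 b192
def b194 : Zd := .nd 6 b159 b193
def b195 : Zd := .nd 5 b140 b194
def b196 : Zd := .nd 41 b142 .bot
def b197 : Zd := .nd 40 b196 .bot
def b198 : Zd := .nd 39 b197 .bot
def b199 : Zd := .nd 38 b198 .bot
def b200 : Zd := .nd 33 b199 .bot
def b201 : Zd := .nd 29 b200 .bot
def b202 : Zd := .nd 28 b201 .bot
def b203 : Zd := .nd 27 b202 .bot
def b204 : Zd := .nd 25 b203 .bot
def b205 : Zd := .nd 19 b204 .bot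
def b206 : Zd := .nd 17 b205 .bot
def b207 : Zd := .nd 16 b206 .bot
def b208 : Zd := .nd 51 b0 .bot
def b209 : Zd := .nd 48 b208 .bot
def b210 : Zd := .nd 47 b209 .bot
def b211 : Zd := .nd 46 b210 .bot
def b212 : Zd := .nd 45 b211 .bot
def b213 : Zd := .nd 44 b212 .bot
def b214 : Zd := .nd 43 b213 .bot
def b215 : Zd := .nd 39 b214 .bot
def b216 : Zd := .nd 36 b215 .bot
def b217 : Zd := .nd 34 b216 .bot
def b218 : Zd := .nd 33 b217 .bot
def b219 : Zd := .nd 32 b218 .bot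
def b220 : Zd := .nd 28 b219 .bot
def b221 : Zd := .nd 27 b220 .bot
def b222 : Zd := .nd 26 b221 .bot
def b223 : Zd := .nd 24 b222 .bot
def b224 : Zd := .nd 21 b223 .bot
def b225 : Zd := .nd 20 b224 .bot
def b226 : Zd := .nd 17 b225 .bot
def b227 : Zd := .nd 14 b207 b226
def b228 : Zd := .nd 12 b227 .bot
def b229 : Zd := .nd 7 b228 .bot
def b230 : Zd := .nd 50 b54 .bot
def b231 : Zd := .nd 47 b230 .bot
def b232 : Zd := .nd 46 b231 .bot
def b233 : Zd := .nd 45 b232 .bot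
def b234 : Zd := .nd 44 b233 .bot
def b235 : Zd := .nd 38 b234 .bot
def b236 : Zd := .nd 37 b235 .bot
def b237 : Zd := .nd 35 b236 .bot
def b238 : Zd := .nd 31 b237 .bot
def b239 : Zd := .nd 28 b238 .bot
def b240 : Zd := .nd 27 b239 .bot
def b241 : Zd := .nd 23 b240 .bot
def b242 : Zd := .nd 21 b241 .bot
def b243 : Zd := .nd 19 b242 .bot
def b244 : Zd := .nd 17 b243 .bot
def b245 : Zd := .nd 16 b244 .bot
def b246 : Zd := .nd 12 b245 .bot
def b247 : Zd := .nd 11 b246 .bot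
def b248 : Zd := .nd 6 b229 b247
def b249 : Zd := .nd 49 b208 .bot
def b250 : Zd := .nd 47 b249 .bot
def b251 : Zd := .nd 41 b250 .bot
def b252 : Zd := .nd 40 b251 .bot
def b253 : Zd := .nd 37 b252 .bot
def b254 : Zd := .nd 36 b253 .bot
def b255 : Zd := .nd 35 b254 .bot
def b256 : Zd := .nd 34 b255 .bot
def b257 : Zd := .nd 33 b256 .bot
def b258 : Zd := .nd 30 b257 .bot
def b259 : Zd := .nd 29 b258 .bot
def b260 : Zd := .nd 27 b259 .bot
def b261 : Zd := .nd 24 b260 .bot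
def b262 : Zd := .nd 20 b261 .bot
def b263 : Zd := .nd 19 b262 .bot
def b264 : Zd := .nd 18 b263 .bot
def b265 : Zd := .nd 14 b264 .bot
def b266 : Zd := .nd 11 b265 .bot
def b267 : Zd := .nd 8 b266 .bot
def b268 : Zd := .nd 47 b55 .bot
def b269 : Zd := .nd 46 b268 .bot
def b270 : Zd := .nd 43 b269 .bot
def b271 : Zd := .nd 42 b270 .bot
def b272 : Zd := .nd 37 b271 .bot
def b273 : Zd := .nd 35 b272 .bot
def b274 : Zd := .nd 33 b273 .bot
def b275 : Zd := .nd 32 b274 .bot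
def b276 : Zd := .nd 31 b275 .bot
def b277 : Zd := .nd 20 b276 .bot
def b278 : Zd := .nd 19 b277 .bot
def b279 : Zd := .nd 18 b278 .bot
def b280 : Zd := .nd 13 b279 .bot
def b281 : Zd := .nd 8 b280 .bot
def b282 : Zd := .nd 5 b267 b281
def b283 : Zd := .nd 4 b248 b282
def b284 : Zd := .nd 3 b195 b283
def b285 : Zd := .nd 2 b100 b284
def b286 : Zd := .nd 50 b0 .bot
def b287 : Zd := .nd 49 b286 .bot
def b288 : Zd := .nd 48 b287 .bot
def b289 : Zd := .nd 47 b288 .bot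
def b290 : Zd := .nd 44 b289 .bot
def b291 : Zd := .nd 43 b290 .bot
def b292 : Zd := .nd 40 b291 .bot
def b293 : Zd := .nd 38 b292 .bot
def b294 : Zd := .nd 36 b293 .bot
def b295 : Zd := .nd 35 b294 .bot
def b296 : Zd := .nd 32 b295 .bot
def b297 : Zd := .nd 31 b296 .bot
def b298 : Zd := .nd 28 b297 .bot
def b299 : Zd := .nd 27 b298 .bot
def b300 : Zd := .nd 26 b299 .bot
def b301 : Zd := .nd 25 b300 .bot
def b302 : Zd := .nd 24 b301 .bot
def b303 : Zd := .nd 20 b302 .bot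
def b304 : Zd := .nd 19 b303 .bot
def b305 : Zd := .nd 17 b304 .bot
def b306 : Zd := .nd 13 b305 .bot
def b307 : Zd := .nd 11 b306 .bot
def b308 : Zd := .nd 51 b16 .bot
def b309 : Zd := .nd 50 b308 .bot
def b310 : Zd := .nd 49 b309 .bot
def b311 : Zd := .nd 45 b310 .bot
def b312 : Zd := .nd 44 b311 .bot
def b313 : Zd := .nd 42 b312 .bot
def b314 : Zd := .nd 35 b313 .bot
def b315 : Zd := .nd 34 b314 .bot
def b316 : Zd := .nd 31 b315 .bot
def b317 : Zd := .nd 30 b316 .bot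
def b318 : Zd := .nd 28 b317 .bot
def b319 : Zd := .nd 26 b318 .bot
def b320 : Zd := .nd 24 b319 .bot
def b321 : Zd := .nd 23 b320 .bot
def b322 : Zd := .nd 20 b321 .bot
def b323 : Zd := .nd 18 b322 .bot
def b324 : Zd := .nd 50 b53 .bot
def b325 : Zd := .nd 49 b324 .bot
def b326 : Zd := .nd 47 b325 .bot
def b327 : Zd := .nd 46 b326 .bot
def b328 : Zd := .nd 45 b327 .bot
def b329 : Zd := .nd 43 b328 .bot
def b330 : Zd := .nd 39 b329 .bot
def b331 : Zd := .nd 38 b330 .bot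
def b332 : Zd := .nd 37 b331 .bot
def b333 : Zd := .nd 36 b332 .bot
def b334 : Zd := .nd 34 b333 .bot
def b335 : Zd := .nd 32 b334 .bot
def b336 : Zd := .nd 29 b335 .bot
def b337 : Zd := .nd 27 b336 .bot
def b338 : Zd := .nd 24 b337 .bot
def b339 : Zd := .nd 23 b338 .bot
def b340 : Zd := .nd 22 b339 .bot
def b341 : Zd := .nd 20 b340 .bot
def b342 : Zd := .nd 17 b341 .bot
def b343 : Zd := .nd 16 b342 .bot
def b344 : Zd := .nd 15 b343 .bot
def b345 : Zd := .nd 13 b323 b344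
def b346 : Zd := .nd 12 b345 .bot
def b347 : Zd := .nd 49 b54 .bot
def b348 : Zd := .nd 48 b347 .bot
def b349 : Zd := .nd 47 b348 .bot
def b350 : Zd := .nd 43 b349 .bot
def b351 : Zd := .nd 40 b350 .bot
def b352 : Zd := .nd 39 b351 .bot
def b353 : Zd := .nd 37 b352 .bot
def b354 : Zd := .nd 34 b353 .bot
def b355 : Zd := .nd 32 b354 .bot
def b356 : Zd := .nd 30 b355 .bot
def b357 : Zd := .nd 29 b356 .bot
def b358 : Zd := .nd 23 b357 .bot
def b359 : Zd := .nd 22 b358 .bot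
def b360 : Zd := .nd 21 b359 .bot
def b361 : Zd := .nd 20 b360 .bot
def b362 : Zd := .nd 16 b361 .bot
def b363 : Zd := .nd 15 b362 .bot
def b364 : Zd := .nd 11 b346 b363
def b365 : Zd := .nd 49 b176 .bot
def b366 : Zd := .nd 46 b365 .bot
def b367 : Zd := .nd 45 b366 .bot
def b368 : Zd := .nd 43 b367 .bot
def b369 : Zd := .nd 38 b368 .bot
def b370 : Zd := .nd 36 b369 .bot
def b371 : Zd := .nd 35 b370 .bot
def b372 : Zd := .nd 34 b371 .bot
def b373 : Zd := .nd 32 b372 .bot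
def b374 : Zd := .nd 29 b373 .bot
def b375 : Zd := .nd 28 b374 .bot
def b376 : Zd := .nd 24 b375 .bot
def b377 : Zd := .nd 23 b376 .bot
def b378 : Zd := .nd 18 b377 .bot
def b379 : Zd := .nd 17 b378 .bot
def b380 : Zd := .nd 15 b379 .bot
def b381 : Zd := .nd 12 b380 .bot
def b382 : Zd := .nd 43 b327 .bot
def b383 : Zd := .nd 42 b382 .bot
def b384 : Zd := .nd 41 b383 .bot
def b385 : Zd := .nd 37 b384 .bot
def b386 : Zd := .nd 34 b385 .bot
def b387 : Zd := .nd 32 b386 .bot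
def b388 : Zd := .nd 30 b387 .bot
def b389 : Zd := .nd 29 b388 .bot
def b390 : Zd := .nd 27 b389 .bot
def b391 : Zd := .nd 24 b390 .bot
def b392 : Zd := .nd 23 b391 .bot
def b393 : Zd := .nd 20 b392 .bot
def b394 : Zd := .nd 15 b393 .bot
def b395 : Zd := .nd 13 b394 .bot
def b396 : Zd := .nd 11 b381 b395
def b397 : Zd := .nd 8 b364 b396
def b398 : Zd := .nd 6 b307 b397
def b399 : Zd := .nd 4 b398 .bot
def b400 : Zd := .nd 43 b54 .bot
def b401 : Zd := .nd 42 b400 .bot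
def b402 : Zd := .nd 40 b401 .bot
def b403 : Zd := .nd 38 b402 .bot
def b404 : Zd := .nd 37 b403 .bot
def b405 : Zd := .nd 32 b404 .bot
def b406 : Zd := .nd 31 b405 .bot
def b407 : Zd := .nd 29 b406 .bot
def b408 : Zd := .nd 28 b407 .bot
def b409 : Zd := .nd 21 b408 .bot
def b410 : Zd := .nd 19 b409 .bot
def b411 : Zd := .nd 14 b410 .bot
def b412 : Zd := .nd 13 b411 .bot
def b413 : Zd := .nd 12 b412 .bot
def b414 : Zd := .nd 10 b413 .bot
def b415 : Zd := .nd 49 b0 .bot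
def b416 : Zd := .nd 47 b415 .bot
def b417 : Zd := .nd 45 b416 .bot
def b418 : Zd := .nd 42 b417 .bot
def b419 : Zd := .nd 41 b418 .bot
def b420 : Zd := .nd 40 b419 .bot
def b421 : Zd := .nd 38 b420 .bot
def b422 : Zd := .nd 36 b421 .bot
def b423 : Zd := .nd 35 b422 .bot
def b424 : Zd := .nd 33 b423 .bot
def b425 : Zd := .nd 30 b424 .bot
def b426 : Zd := .nd 24 b425 .bot
def b427 : Zd := .nd 23 b426 .bot
def b428 : Zd := .nd 22 b427 .bot
def b429 : Zd := .nd 19 b428 .bot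
def b430 : Zd := .nd 17 b429 .bot
def b431 : Zd := .nd 16 b430 .bot
def b432 : Zd := .nd 15 b431 .bot
def b433 : Zd := .nd 11 b432 .bot
def b434 : Zd := .nd 47 b309 .bot
def b435 : Zd := .nd 46 b434 .bot
def b436 : Zd := .nd 41 b435 .bot
def b437 : Zd := .nd 39 b436 .bot
def b438 : Zd := .nd 38 b437 .bot
def b439 : Zd := .nd 35 b438 .bot
def b440 : Zd := .nd 34 b439 .bot
def b441 : Zd := .nd 33 b440 .bot
def b442 : Zd := .nd 31 b441 .bot
def b443 : Zd := .nd 29 b442 .bot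
def b444 : Zd := .nd 22 b443 .bot
def b445 : Zd := .nd 19 b444 .bot
def b446 : Zd := .nd 18 b445 .bot
def b447 : Zd := .nd 16 b446 .bot
def b448 : Zd := .nd 15 b447 .bot
def b449 : Zd := .nd 43 b268 .bot
def b450 : Zd := .nd 42 b449 .bot
def b451 : Zd := .nd 39 b450 .bot
def b452 : Zd := .nd 38 b451 .bot
def b453 : Zd := .nd 37 b452 .bot
def b454 : Zd := .nd 32 b453 .bot
def b455 : Zd := .nd 31 b454 .bot
def b456 : Zd := .nd 29 b455 .bot
def b457 : Zd := .nd 26 b456 .bot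
def b458 : Zd := .nd 22 b457 .bot
def b459 : Zd := .nd 21 b458 .bot
def b460 : Zd := .nd 20 b459 .bot
def b461 : Zd := .nd 17 b460 .bot
def b462 : Zd := .nd 14 b461 .bot
def b463 : Zd := .nd 13 b448 b462
def b464 : Zd := .nd 45 b161 .bot
def b465 : Zd := .nd 43 b464 .bot
def b466 : Zd := .nd 38 b465 .bot
def b467 : Zd := .nd 37 b466 .bot
def b468 : Zd := .nd 33 b467 .bot
def b469 : Zd := .nd 32 b468 .bot
def b470 : Zd := .nd 29 b469 .bot
def b471 : Zd := .nd 27 b470 .bot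
def b472 : Zd := .nd 24 b471 .bot
def b473 : Zd := .nd 22 b472 .bot
def b474 : Zd := .nd 20 b473 .bot
def b475 : Zd := .nd 17 b474 .bot
def b476 : Zd := .nd 15 b475 .bot
def b477 : Zd := .nd 14 b476 .bot
def b478 : Zd := .nd 12 b463 b477
def b479 : Zd := .nd 51 b160 .bot
def b480 : Zd := .nd 50 b479 .bot
def b481 : Zd := .nd 48 b480 .bot
def b482 : Zd := .nd 43 b481 .bot
def b483 : Zd := .nd 42 b482 .bot
def b484 : Zd := .nd 41 b483 .bot
def b485 : Zd := .nd 40 b484 .bot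
def b486 : Zd := .nd 36 b485 .bot
def b487 : Zd := .nd 32 b486 .bot
def b488 : Zd := .nd 30 b487 .bot
def b489 : Zd := .nd 27 b488 .bot
def b490 : Zd := .nd 26 b489 .bot
def b491 : Zd := .nd 23 b490 .bot
def b492 : Zd := .nd 21 b491 .bot
def b493 : Zd := .nd 12 b492 .bot
def b494 : Zd := .nd 11 b493 .bot
def b495 : Zd := .nd 8 b478 b494
def b496 : Zd := .nd 7 b433 b495
def b497 : Zd := .nd 5 b414 b496
def b498 : Zd := .nd 45 b208 .bot
def b499 : Zd := .nd 41 b498 .bot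
def b500 : Zd := .nd 38 b499 .bot
def b501 : Zd := .nd 37 b500 .bot
def b502 : Zd := .nd 33 b501 .bot
def b503 : Zd := .nd 30 b502 .bot
def b504 : Zd := .nd 29 b503 .bot
def b505 : Zd := .nd 28 b504 .bot
def b506 : Zd := .nd 26 b505 .bot
def b507 : Zd := .nd 24 b506 .bot
def b508 : Zd := .nd 23 b507 .bot
def b509 : Zd := .nd 22 b508 .bot
def b510 : Zd := .nd 20 b509 .bot
def b511 : Zd := .nd 14 b510 .bot
def b512 : Zd := .nd 13 b511 .bot
def b513 : Zd := .nd 11 b512 .bot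
def b514 : Zd := .nd 47 b54 .bot
def b515 : Zd := .nd 46 b514 .bot
def b516 : Zd := .nd 45 b515 .bot
def b517 : Zd := .nd 43 b516 .bot
def b518 : Zd := .nd 40 b517 .bot
def b519 : Zd := .nd 39 b518 .bot
def b520 : Zd := .nd 37 b519 .bot
def b521 : Zd := .nd 33 b520 .bot
def b522 : Zd := .nd 32 b521 .bot
def b523 : Zd := .nd 31 b522 .bot
def b524 : Zd := .nd 29 b523 .bot
def b525 : Zd := .nd 28 b524 .bot
def b526 : Zd := .nd 25 b525 .bot
def b527 : Zd := .nd 21 b526 .bot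
def b528 : Zd := .nd 20 b527 .bot
def b529 : Zd := .nd 19 b528 .bot
def b530 : Zd := .nd 14 b529 .bot
def b531 : Zd := .nd 13 b530 .bot
def b532 : Zd := .nd 10 b531 .bot
def b533 : Zd := .nd 8 b513 b532
def b534 : Zd := .nd 5 b533 .bot
def b535 : Zd := .nd 4 b497 b534
def b536 : Zd := .nd 3 b399 b535
def b537 : Zd := .nd 46 b161 .bot
def b538 : Zd := .nd 41 b537 .bot
def b539 : Zd := .nd 37 b538 .bot
def b540 : Zd := .nd 36 b539 .bot
def b541 : Zd := .nd 35 b540 .bot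
def b542 : Zd := .nd 28 b541 .bot
def b543 : Zd := .nd 26 b542 .bot
def b544 : Zd := .nd 25 b543 .bot
def b545 : Zd := .nd 22 b544 .bot
def b546 : Zd := .nd 19 b545 .bot
def b547 : Zd := .nd 18 b546 .bot
def b548 : Zd := .nd 17 b547 .bot
def b549 : Zd := .nd 15 b548 .bot
def b550 : Zd := .nd 49 b230 .bot
def b551 : Zd := .nd 48 b550 .bot
def b552 : Zd := .nd 47 b551 .bot
def b553 : Zd := .nd 46 b552 .bot
def b554 : Zd := .nd 43 b553 .bot
def b555 : Zd := .nd 42 b554 .bot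
def b556 : Zd := .nd 41 b555 .bot
def b557 : Zd := .nd 40 b556 .bot
def b558 : Zd := .nd 39 b557 .bot
def b559 : Zd := .nd 37 b558 .bot
def b560 : Zd := .nd 34 b559 .bot
def b561 : Zd := .nd 30 b560 .bot
def b562 : Zd := .nd 27 b561 .bot
def b563 : Zd := .nd 25 b562 .bot
def b564 : Zd := .nd 23 b563 .bot
def b565 : Zd := .nd 21 b564 .bot
def b566 : Zd := .nd 20 b565 .bot
def b567 : Zd := .nd 19 b566 .bot
def b568 : Zd := .nd 16 b567 .bot
def b569 : Zd := .nd 13 b568 .bot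
def b570 : Zd := .nd 5 b549 b569
def b571 : Zd := .nd 50 b176 .bot
def b572 : Zd := .nd 48 b571 .bot
def b573 : Zd := .nd 46 b572 .bot
def b574 : Zd := .nd 45 b573 .bot
def b575 : Zd := .nd 44 b574 .bot
def b576 : Zd := .nd 43 b575 .bot
def b577 : Zd := .nd 41 b576 .bot
def b578 : Zd := .nd 33 b577 .bot
def b579 : Zd := .nd 32 b578 .bot
def b580 : Zd := .nd 29 b579 .bot
def b581 : Zd := .nd 28 b580 .bot
def b582 : Zd := .nd 27 b581 .bot
def b583 : Zd := .nd 23 b582 .bot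
def b584 : Zd := .nd 20 b583 .bot
def b585 : Zd := .nd 17 b584 .bot
def b586 : Zd := .nd 13 b585 .bot
def b587 : Zd := .nd 12 b586 .bot
def b588 : Zd := .nd 11 b587 .bot
def b589 : Zd := .nd 7 b588 .bot
def b590 : Zd := .nd 45 b119 .bot
def b591 : Zd := .nd 44 b590 .bot
def b592 : Zd := .nd 41 b591 .bot
def b593 : Zd := .nd 40 b592 .bot
def b594 : Zd := .nd 39 b593 .bot
def b595 : Zd := .nd 38 b594 .bot
def b596 : Zd := .nd 37 b595 .bot
def b597 : Zd := .nd 35 b596 .bot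
def b598 : Zd := .nd 34 b597 .bot
def b599 : Zd := .nd 29 b598 .bot
def b600 : Zd := .nd 27 b599 .bot
def b601 : Zd := .nd 20 b600 .bot
def b602 : Zd := .nd 19 b601 .bot
def b603 : Zd := .nd 18 b602 .bot
def b604 : Zd := .nd 17 b603 .bot
def b605 : Zd := .nd 16 b604 .bot
def b606 : Zd := .nd 14 b605 .bot
def b607 : Zd := .nd 12 b606 .bot
def b608 : Zd := .nd 6 b589 b607
def b609 : Zd := .nd 51 b176 .bot
def b610 : Zd := .nd 50 b609 .bot
def b611 : Zd := .nd 47 b610 .bot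
def b612 : Zd := .nd 43 b611 .bot
def b613 : Zd := .nd 38 b612 .bot
def b614 : Zd := .nd 32 b613 .bot
def b615 : Zd := .nd 31 b614 .bot
def b616 : Zd := .nd 29 b615 .bot
def b617 : Zd := .nd 23 b616 .bot
def b618 : Zd := .nd 20 b617 .bot
def b619 : Zd := .nd 17 b618 .bot
def b620 : Zd := .nd 13 b619 .bot
def b621 : Zd := .nd 11 b620 .bot
def b622 : Zd := .nd 7 b621 .bot
def b623 : Zd := .nd 6 b622 .bot
def b624 : Zd := .nd 5 b608 b623
def b625 : Zd := .nd 4 b570 b624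
def b626 : Zd := .nd 52 b160 .bot
def b627 : Zd := .nd 50 b626 .bot
def b628 : Zd := .nd 47 b627 .bot
def b629 : Zd := .nd 43 b628 .bot
def b630 : Zd := .nd 42 b629 .bot
def b631 : Zd := .nd 40 b630 .bot
def b632 : Zd := .nd 39 b631 .bot
def b633 : Zd := .nd 35 b632 .bot
def b634 : Zd := .nd 34 b633 .bot
def b635 : Zd := .nd 31 b634 .bot
def b636 : Zd := .nd 29 b635 .bot
def b637 : Zd := .nd 25 b636 .bot
def b638 : Zd := .nd 22 b637 .bot
def b639 : Zd := .nd 21 b638 .bot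
def b640 : Zd := .nd 19 b639 .bot
def b641 : Zd := .nd 17 b640 .bot
def b642 : Zd := .nd 13 b641 .bot
def b643 : Zd := .nd 42 b627 .bot
def b644 : Zd := .nd 40 b643 .bot
def b645 : Zd := .nd 39 b644 .bot
def b646 : Zd := .nd 36 b645 .bot
def b647 : Zd := .nd 35 b646 .bot
def b648 : Zd := .nd 34 b647 .bot
def b649 : Zd := .nd 31 b648 .bot
def b650 : Zd := .nd 30 b649 .bot
def b651 : Zd := .nd 29 b650 .bot
def b652 : Zd := .nd 25 b651 .bot
def b653 : Zd := .nd 22 b652 .bot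
def b654 : Zd := .nd 21 b653 .bot
def b655 : Zd := .nd 47 b160 .bot
def b656 : Zd := .nd 43 b655 .bot
def b657 : Zd := .nd 40 b656 .bot
def b658 : Zd := .nd 39 b657 .bot
def b659 : Zd := .nd 38 b658 .bot
def b660 : Zd := .nd 31 b659 .bot
def b661 : Zd := .nd 30 b660 .bot
def b662 : Zd := .nd 25 b661 .bot
def b663 : Zd := .nd 22 b662 .bot
def b664 : Zd := .nd 21 b663 .bot
def b665 : Zd := .nd 20 b654 b664
def b666 : Zd := .nd 16 b665 .bot
def b667 : Zd := .nd 13 b666 .bot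
def b668 : Zd := .nd 12 b642 b667
def b669 : Zd := .nd 11 b668 .bot
def b670 : Zd := .nd 44 b516 .bot
def b671 : Zd := .nd 43 b670 .bot
def b672 : Zd := .nd 42 b671 .bot
def b673 : Zd := .nd 41 b672 .bot
def b674 : Zd := .nd 39 b673 .bot
def b675 : Zd := .nd 36 b674 .bot
def b676 : Zd := .nd 34 b675 .bot
def b677 : Zd := .nd 33 b676 .bot
def b678 : Zd := .nd 32 b677 .bot
def b679 : Zd := .nd 29 b678 .bot
def b680 : Zd := .nd 26 b679 .bot
def b681 : Zd := .nd 25 b680 .bot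
def b682 : Zd := .nd 21 b681 .bot
def b683 : Zd := .nd 20 b682 .bot
def b684 : Zd := .nd 18 b683 .bot
def b685 : Zd := .nd 16 b684 .bot
def b686 : Zd := .nd 15 b685 .bot
def b687 : Zd := .nd 13 b686 .bot
def b688 : Zd := .nd 44 b288 .bot
def b689 : Zd := .nd 43 b688 .bot
def b690 : Zd := .nd 41 b689 .bot
def b691 : Zd := .nd 39 b690 .bot
def b692 : Zd := .nd 36 b691 .bot
def b693 : Zd := .nd 32 b692 .bot
def b694 : Zd := .nd 29 b693 .bot
def b695 : Zd := .nd 27 b694 .bot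
def b696 : Zd := .nd 22 b695 .bot
def b697 : Zd := .nd 19 b696 .bot
def b698 : Zd := .nd 18 b697 .bot
def b699 : Zd := .nd 14 b698 .bot
def b700 : Zd := .nd 11 b687 b699
def b701 : Zd := .nd 8 b669 b700
def b702 : Zd := .nd 49 b53 .bot
def b703 : Zd := .nd 48 b702 .bot
def b704 : Zd := .nd 46 b703 .bot
def b705 : Zd := .nd 43 b704 .bot
def b706 : Zd := .nd 40 b705 .bot
def b707 : Zd := .nd 36 b706 .bot
def b708 : Zd := .nd 35 b707 .bot
def b709 : Zd := .nd 31 b708 .bot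
def b710 : Zd := .nd 30 b709 .bot
def b711 : Zd := .nd 27 b710 .bot
def b712 : Zd := .nd 24 b711 .bot
def b713 : Zd := .nd 19 b712 .bot
def b714 : Zd := .nd 18 b713 .bot
def b715 : Zd := .nd 48 b161 .bot
def b716 : Zd := .nd 47 b715 .bot
def b717 : Zd := .nd 46 b716 .bot
def b718 : Zd := .nd 43 b717 .bot
def b719 : Zd := .nd 39 b718 .bot
def b720 : Zd := .nd 38 b719 .bot
def b721 : Zd := .nd 37 b720 .bot
def b722 : Zd := .nd 35 b721 .bot
def b723 : Zd := .nd 31 b722 .bot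
def b724 : Zd := .nd 30 b723 .bot
def b725 : Zd := .nd 28 b724 .bot
def b726 : Zd := .nd 26 b725 .bot
def b727 : Zd := .nd 25 b726 .bot
def b728 : Zd := .nd 24 b727 .bot
def b729 : Zd := .nd 21 b728 .bot
def b730 : Zd := .nd 18 b729 .bot
def b731 : Zd := .nd 13 b730 .bot
def b732 : Zd := .nd 11 b714 b731
def b733 : Zd := .nd 50 b15 .bot
def b734 : Zd := .nd 45 b733 .bot
def b735 : Zd := .nd 44 b734 .bot
def b736 : Zd := .nd 43 b735 .bot
def b737 : Zd := .nd 42 b736 .bot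
def b738 : Zd := .nd 41 b737 .bot
def b739 : Zd := .nd 39 b738 .bot
def b740 : Zd := .nd 36 b739 .bot
def b741 : Zd := .nd 34 b740 .bot
def b742 : Zd := .nd 33 b741 .bot
def b743 : Zd := .nd 32 b742 .bot
def b744 : Zd := .nd 28 b743 .bot
def b745 : Zd := .nd 26 b744 .bot
def b746 : Zd := .nd 20 b745 .bot
def b747 : Zd := .nd 17 b746 .bot
def b748 : Zd := .nd 16 b747 .bot
def b749 : Zd := .nd 13 b748 .bot
def b750 : Zd := .nd 12 b749 .bot
def b751 : Zd := .nd 11 b750 .bot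
def b752 : Zd := .nd 50 b160 .bot
def b753 : Zd := .nd 47 b752 .bot
def b754 : Zd := .nd 43 b753 .bot
def b755 : Zd := .nd 40 b754 .bot
def b756 : Zd := .nd 39 b755 .bot
def b757 : Zd := .nd 38 b756 .bot
def b758 : Zd := .nd 37 b757 .bot
def b759 : Zd := .nd 35 b758 .bot
def b760 : Zd := .nd 34 b759 .bot
def b761 : Zd := .nd 31 b760 .bot
def b762 : Zd := .nd 30 b761 .bot
def b763 : Zd := .nd 29 b762 .bot
def b764 : Zd := .nd 25 b763 .bot
def b765 : Zd := .nd 23 b764 .bot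
def b766 : Zd := .nd 22 b765 .bot
def b767 : Zd := .nd 21 b766 .bot
def b768 : Zd := .nd 20 b767 .bot
def b769 : Zd := .nd 16 b768 .bot
def b770 : Zd := .nd 14 b769 .bot
def b771 : Zd := .nd 13 b770 .bot
def b772 : Zd := .nd 11 b771 .bot
def b773 : Zd := .nd 9 b772 .bot
def b774 : Zd := .nd 8 b751 b773
def b775 : Zd := .nd 7 b732 b774
def b776 : Zd := .nd 6 b701 b775
def b777 : Zd := .nd 5 b776 .bot
def b778 : Zd := .nd 48 b610 .bot
def b779 : Zd := .nd 44 b778 .bot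
def b780 : Zd := .nd 41 b779 .bot
def b781 : Zd := .nd 38 b780 .bot
def b782 : Zd := .nd 37 b781 .bot
def b783 : Zd := .nd 32 b782 .bot
def b784 : Zd := .nd 31 b783 .bot
def b785 : Zd := .nd 29 b784 .bot
def b786 : Zd := .nd 27 b785 .bot
def b787 : Zd := .nd 25 b786 .bot
def b788 : Zd := .nd 24 b787 .bot
def b789 : Zd := .nd 21 b788 .bot
def b790 : Zd := .nd 19 b789 .bot
def b791 : Zd := .nd 18 b790 .bot
def b792 : Zd := .nd 17 b791 .bot
def b793 : Zd := .nd 15 b792 .bot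
def b794 : Zd := .nd 13 b793 .bot
def b795 : Zd := .nd 8 b794 .bot
def b796 : Zd := .nd 5 b795 .bot
def b797 : Zd := .nd 4 b777 b796
def b798 : Zd := .nd 3 b625 b797
def b799 : Zd := .nd 2 b536 b798
def b800 : Zd := .nd 1 b285 b799
def b801 : Zd := .nd 48 b36 .bot
def b802 : Zd := .nd 45 b801 .bot
def b803 : Zd := .nd 44 b802 .bot
def b804 : Zd := .nd 41 b803 .bot
def b805 : Zd := .nd 35 b804 .bot
def b806 : Zd := .nd 33 b805 .bot
def b807 : Zd := .nd 31 b806 .bot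
def b808 : Zd := .nd 30 b807 .bot
def b809 : Zd := .nd 29 b808 .bot
def b810 : Zd := .nd 27 b809 .bot
def b811 : Zd := .nd 23 b810 .bot
def b812 : Zd := .nd 20 b811 .bot
def b813 : Zd := .nd 19 b812 .bot
def b814 : Zd := .nd 16 b813 .bot
def b815 : Zd := .nd 14 b814 .bot
def b816 : Zd := .nd 13 b815 .bot
def b817 : Zd := .nd 46 b54 .bot
def b818 : Zd := .nd 45 b817 .bot
def b819 : Zd := .nd 44 b818 .bot
def b820 : Zd := .nd 41 b819 .bot
def b821 : Zd := .nd 40 b820 .bot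
def b822 : Zd := .nd 37 b821 .bot
def b823 : Zd := .nd 31 b822 .bot
def b824 : Zd := .nd 27 b823 .bot
def b825 : Zd := .nd 25 b824 .bot
def b826 : Zd := .nd 24 b825 .bot
def b827 : Zd := .nd 23 b826 .bot
def b828 : Zd := .nd 21 b827 .bot
def b829 : Zd := .nd 18 b828 .bot
def b830 : Zd := .nd 11 b829 .bot
def b831 : Zd := .nd 48 b160 .bot
def b832 : Zd := .nd 47 b831 .bot
def b833 : Zd := .nd 45 b832 .bot
def b834 : Zd := .nd 42 b833 .bot
def b835 : Zd := .nd 39 b834 .bot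
def b836 : Zd := .nd 36 b835 .bot
def b837 : Zd := .nd 35 b836 .bot
def b838 : Zd := .nd 34 b837 .bot
def b839 : Zd := .nd 31 b838 .bot
def b840 : Zd := .nd 28 b839 .bot
def b841 : Zd := .nd 24 b840 .bot
def b842 : Zd := .nd 23 b841 .bot
def b843 : Zd := .nd 22 b842 .bot
def b844 : Zd := .nd 20 b843 .bot
def b845 : Zd := .nd 17 b844 .bot
def b846 : Zd := .nd 15 b845 .bot
def b847 : Zd := .nd 12 b846 .bot
def b848 : Zd := .nd 11 b847 .bot
def b849 : Zd := .nd 8 b848 .bot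
def b850 : Zd := .nd 7 b830 b849
def b851 : Zd := .nd 6 b816 b850
def b852 : Zd := .nd 43 b325 .bot
def b853 : Zd := .nd 42 b852 .bot
def b854 : Zd := .nd 41 b853 .bot
def b855 : Zd := .nd 39 b854 .bot
def b856 : Zd := .nd 34 b855 .bot
def b857 : Zd := .nd 32 b856 .bot
def b858 : Zd := .nd 28 b857 .bot
def b859 : Zd := .nd 23 b858 .bot
def b860 : Zd := .nd 22 b859 .bot
def b861 : Zd := .nd 20 b860 .bot
def b862 : Zd := .nd 18 b861 .bot
def b863 : Zd := .nd 17 b862 .bot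
def b864 : Zd := .nd 15 b863 .bot
def b865 : Zd := .nd 13 b864 .bot
def b866 : Zd := .nd 41 b3 .bot
def b867 : Zd := .nd 40 b866 .bot
def b868 : Zd := .nd 39 b867 .bot
def b869 : Zd := .nd 37 b868 .bot
def b870 : Zd := .nd 30 b869 .bot
def b871 : Zd := .nd 28 b870 .bot
def b872 : Zd := .nd 27 b871 .bot
def b873 : Zd := .nd 26 b872 .bot
def b874 : Zd := .nd 22 b873 .bot
def b875 : Zd := .nd 19 b874 .bot
def b876 : Zd := .nd 18 b875 .bot
def b877 : Zd := .nd 14 b876 .bot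
def b878 : Zd := .nd 12 b865 b877
def b879 : Zd := .nd 11 b878 .bot
def b880 : Zd := .nd 7 b879 .bot
def b881 : Zd := .nd 5 b851 b880
def b882 : Zd := .nd 46 b610 .bot
def b883 : Zd := .nd 43 b882 .bot
def b884 : Zd := .nd 40 b883 .bot
def b885 : Zd := .nd 39 b884 .bot
def b886 : Zd := .nd 36 b885 .bot
def b887 : Zd := .nd 34 b886 .bot
def b888 : Zd := .nd 32 b887 .bot
def b889 : Zd := .nd 31 b888 .bot
def b890 : Zd := .nd 30 b889 .bot
def b891 : Zd := .nd 27 b890 .bot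
def b892 : Zd := .nd 26 b891 .bot
def b893 : Zd := .nd 23 b892 .bot
def b894 : Zd := .nd 21 b893 .bot
def b895 : Zd := .nd 18 b894 .bot
def b896 : Zd := .nd 17 b895 .bot
def b897 : Zd := .nd 15 b896 .bot
def b898 : Zd := .nd 12 b897 .bot
def b899 : Zd := .nd 8 b898 .bot
def b900 : Zd := .nd 47 b15 .bot
def b901 : Zd := .nd 46 b900 .bot
def b902 : Zd := .nd 45 b901 .bot
def b903 : Zd := .nd 44 b902 .bot
def b904 : Zd := .nd 43 b903 .bot
def b905 : Zd := .nd 36 b904 .bot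
def b906 : Zd := .nd 34 b905 .bot
def b907 : Zd := .nd 33 b906 .bot
def b908 : Zd := .nd 32 b907 .bot
def b909 : Zd := .nd 27 b908 .bot
def b910 : Zd := .nd 26 b909 .bot
def b911 : Zd := .nd 24 b910 .bot
def b912 : Zd := .nd 20 b911 .bot
def b913 : Zd := .nd 18 b912 .bot
def b914 : Zd := .nd 13 b913 .bot
def b915 : Zd := .nd 12 b914 .bot
def b916 : Zd := .nd 11 b915 .bot
def b917 : Zd := .nd 8 b916 .bot
def b918 : Zd := .nd 50 b208 .bot
def b919 : Zd := .nd 49 b918 .bot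
def b920 : Zd := .nd 48 b919 .bot
def b921 : Zd := .nd 44 b920 .bot
def b922 : Zd := .nd 42 b921 .bot
def b923 : Zd := .nd 40 b922 .bot
def b924 : Zd := .nd 36 b923 .bot
def b925 : Zd := .nd 30 b924 .bot
def b926 : Zd := .nd 26 b925 .bot
def b927 : Zd := .nd 25 b926 .bot
def b928 : Zd := .nd 24 b927 .bot
def b929 : Zd := .nd 22 b928 .bot
def b930 : Zd := .nd 19 b929 .bot
def b931 : Zd := .nd 18 b930 .bot
def b932 : Zd := .nd 16 b931 .bot
def b933 : Zd := .nd 14 b932 .bot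
def b934 : Zd := .nd 8 b933 .bot
def b935 : Zd := .nd 6 b917 b934
def b936 : Zd := .nd 5 b899 b935
def b937 : Zd := .nd 48 b479 .bot
def b938 : Zd := .nd 46 b937 .bot
def b939 : Zd := .nd 43 b938 .bot
def b940 : Zd := .nd 42 b939 .bot
def b941 : Zd := .nd 39 b940 .bot
def b942 : Zd := .nd 37 b941 .bot
def b943 : Zd := .nd 35 b942 .bot
def b944 : Zd := .nd 32 b943 .bot
def b945 : Zd := .nd 31 b944 .bot
def b946 : Zd := .nd 30 b945 .bot
def b947 : Zd := .nd 28 b946 .bot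
def b948 : Zd := .nd 26 b947 .bot
def b949 : Zd := .nd 21 b948 .bot
def b950 : Zd := .nd 19 b949 .bot
def b951 : Zd := .nd 18 b950 .bot
def b952 : Zd := .nd 17 b951 .bot
def b953 : Zd := .nd 13 b952 .bot
def b954 : Zd := .nd 10 b953 .bot
def b955 : Zd := .nd 6 b954 .bot
def b956 : Zd := .nd 49 b571 .bot
def b957 : Zd := .nd 48 b956 .bot
def b958 : Zd := .nd 47 b957 .bot
def b959 : Zd := .nd 46 b958 .bot
def b960 : Zd := .nd 43 b959 .bot
def b961 : Zd := .nd 42 b960 .bot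
def b962 : Zd := .nd 40 b961 .bot
def b963 : Zd := .nd 37 b962 .bot
def b964 : Zd := .nd 33 b963 .bot
def b965 : Zd := .nd 32 b964 .bot
def b966 : Zd := .nd 29 b965 .bot
def b967 : Zd := .nd 28 b966 .bot
def b968 : Zd := .nd 27 b967 .bot
def b969 : Zd := .nd 26 b968 .bot
def b970 : Zd := .nd 25 b969 .bot
def b971 : Zd := .nd 23 b970 .bot
def b972 : Zd := .nd 19 b971 .bot
def b973 : Zd := .nd 15 b972 .bot
def b974 : Zd := .nd 14 b973 .bot
def b975 : Zd := .nd 13 b974 .bot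
def b976 : Zd := .nd 11 b975 .bot
def b977 : Zd := .nd 46 b119 .bot
def b978 : Zd := .nd 45 b977 .bot
def b979 : Zd := .nd 42 b978 .bot
def b980 : Zd := .nd 39 b979 .bot
def b981 : Zd := .nd 37 b980 .bot
def b982 : Zd := .nd 35 b981 .bot
def b983 : Zd := .nd 34 b982 .bot
def b984 : Zd := .nd 29 b983 .bot
def b985 : Zd := .nd 25 b984 .bot
def b986 : Zd := .nd 24 b985 .bot
def b987 : Zd := .nd 21 b986 .bot
def b988 : Zd := .nd 18 b987 .bot
def b989 : Zd := .nd 15 b988 .bot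
def b990 : Zd := .nd 14 b989 .bot
def b991 : Zd := .nd 12 b990 .bot
def b992 : Zd := .nd 6 b976 b991
def b993 : Zd := .nd 5 b955 b992
def b994 : Zd := .nd 4 b936 b993
def b995 : Zd := .nd 3 b881 b994
def b996 : Zd := .nd 44 b141 .bot
def b997 : Zd := .nd 41 b996 .bot
def b998 : Zd := .nd 40 b997 .bot
def b999 : Zd := .nd 37 b998 .bot
def b1000 : Zd := .nd 31 b999 .bot
def b1001 : Zd := .nd 30 b1000 .bot
def b1002 : Zd := .nd 29 b1001 .bot
def b1003 : Zd := .nd 28 b1002 .bot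
def b1004 : Zd := .nd 27 b1003 .bot
def b1005 : Zd := .nd 25 b1004 .bot
def b1006 : Zd := .nd 24 b1005 .bot
def b1007 : Zd := .nd 20 b1006 .bot
def b1008 : Zd := .nd 18 b1007 .bot
def b1009 : Zd := .nd 17 b1008 .bot
def b1010 : Zd := .nd 16 b1009 .bot
def b1011 : Zd := .nd 14 b1010 .bot
def b1012 : Zd := .nd 7 b1011 .bot
def b1013 : Zd := .nd 6 b1012 .bot
def b1014 : Zd := .nd 44 b550 .bot
def b1015 : Zd := .nd 43 b1014 .bot
def b1016 : Zd := .nd 40 b1015 .bot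
def b1017 : Zd := .nd 39 b1016 .bot
def b1018 : Zd := .nd 36 b1017 .bot
def b1019 : Zd := .nd 32 b1018 .bot
def b1020 : Zd := .nd 29 b1019 .bot
def b1021 : Zd := .nd 28 b1020 .bot
def b1022 : Zd := .nd 26 b1021 .bot
def b1023 : Zd := .nd 24 b1022 .bot
def b1024 : Zd := .nd 23 b1023 .bot
def b1025 : Zd := .nd 21 b1024 .bot
def b1026 : Zd := .nd 19 b1025 .bot
def b1027 : Zd := .nd 17 b1026 .bot
def b1028 : Zd := .nd 12 b1027 .bot
def b1029 : Zd := .nd 11 b1028 .bot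
def b1030 : Zd := .nd 10 b1029 .bot
def b1031 : Zd := .nd 5 b1013 b1030
def b1032 : Zd := .nd 45 b53 .bot
def b1033 : Zd := .nd 43 b1032 .bot
def b1034 : Zd := .nd 38 b1033 .bot
def b1035 : Zd := .nd 37 b1034 .bot
def b1036 : Zd := .nd 36 b1035 .bot
def b1037 : Zd := .nd 34 b1036 .bot
def b1038 : Zd := .nd 31 b1037 .bot
def b1039 : Zd := .nd 29 b1038 .bot
def b1040 : Zd := .nd 24 b1039 .bot
def b1041 : Zd := .nd 20 b1040 .bot
def b1042 : Zd := .nd 19 b1041 .bot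
def b1043 : Zd := .nd 18 b1042 .bot
def b1044 : Zd := .nd 12 b1043 .bot
def b1045 : Zd := .nd 11 b1044 .bot
def b1046 : Zd := .nd 48 b415 .bot
def b1047 : Zd := .nd 47 b1046 .bot
def b1048 : Zd := .nd 45 b1047 .bot
def b1049 : Zd := .nd 44 b1048 .bot
def b1050 : Zd := .nd 43 b1049 .bot
def b1051 : Zd := .nd 42 b1050 .bot
def b1052 : Zd := .nd 36 b1051 .bot
def b1053 : Zd := .nd 34 b1052 .bot
def b1054 : Zd := .nd 32 b1053 .bot
def b1055 : Zd := .nd 31 b1054 .bot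
def b1056 : Zd := .nd 29 b1055 .bot
def b1057 : Zd := .nd 23 b1056 .bot
def b1058 : Zd := .nd 22 b1057 .bot
def b1059 : Zd := .nd 19 b1058 .bot
def b1060 : Zd := .nd 16 b1059 .bot
def b1061 : Zd := .nd 14 b1060 .bot
def b1062 : Zd := .nd 13 b1061 .bot
def b1063 : Zd := .nd 12 b1062 .bot
def b1064 : Zd := .nd 9 b1045 b1063
def b1065 : Zd := .nd 6 b1064 .bot
def b1066 : Zd := .nd 43 b179 .bot
def b1067 : Zd := .nd 41 b1066 .bot
def b1068 : Zd := .nd 36 b1067 .bot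
def b1069 : Zd := .nd 34 b1068 .bot
def b1070 : Zd := .nd 29 b1069 .bot
def b1071 : Zd := .nd 28 b1070 .bot
def b1072 : Zd := .nd 26 b1071 .bot
def b1073 : Zd := .nd 25 b1072 .bot
def b1074 : Zd := .nd 23 b1073 .bot
def b1075 : Zd := .nd 19 b1074 .bot
def b1076 : Zd := .nd 15 b1075 .bot
def b1077 : Zd := .nd 13 b1076 .bot
def b1078 : Zd := .nd 12 b1077 .bot
def b1079 : Zd := .nd 7 b1078 .bot
def b1080 : Zd := .nd 49 b610 .bot
def b1081 : Zd := .nd 48 b1080 .bot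
def b1082 : Zd := .nd 47 b1081 .bot
def b1083 : Zd := .nd 43 b1082 .bot
def b1084 : Zd := .nd 41 b1083 .bot
def b1085 : Zd := .nd 40 b1084 .bot
def b1086 : Zd := .nd 37 b1085 .bot
def b1087 : Zd := .nd 35 b1086 .bot
def b1088 : Zd := .nd 34 b1087 .bot
def b1089 : Zd := .nd 32 b1088 .bot
def b1090 : Zd := .nd 31 b1089 .bot
def b1091 : Zd := .nd 30 b1090 .bot
def b1092 : Zd := .nd 27 b1091 .bot
def b1093 : Zd := .nd 26 b1092 .bot
def b1094 : Zd := .nd 23 b1093 .bot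
def b1095 : Zd := .nd 21 b1094 .bot
def b1096 : Zd := .nd 19 b1095 .bot
def b1097 : Zd := .nd 18 b1096 .bot
def b1098 : Zd := .nd 17 b1097 .bot
def b1099 : Zd := .nd 16 b1098 .bot
def b1100 : Zd := .nd 14 b1099 .bot
def b1101 : Zd := .nd 10 b1100 .bot
def b1102 : Zd := .nd 48 b365 .bot
def b1103 : Zd := .nd 44 b1102 .bot
def b1104 : Zd := .nd 43 b1103 .bot
def b1105 : Zd := .nd 40 b1104 .bot
def b1106 : Zd := .nd 36 b1105 .bot
def b1107 : Zd := .nd 34 b1106 .bot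
def b1108 : Zd := .nd 33 b1107 .bot
def b1109 : Zd := .nd 32 b1108 .bot
def b1110 : Zd := .nd 29 b1109 .bot
def b1111 : Zd := .nd 27 b1110 .bot
def b1112 : Zd := .nd 26 b1111 .bot
def b1113 : Zd := .nd 22 b1112 .bot
def b1114 : Zd := .nd 21 b1113 .bot
def b1115 : Zd := .nd 20 b1114 .bot
def b1116 : Zd := .nd 18 b1115 .bot
def b1117 : Zd := .nd 14 b1116 .bot
def b1118 : Zd := .nd 11 b1117 .bot
def b1119 : Zd := .nd 50 .top .bot
def b1120 : Zd := .nd 47 b1119 .bot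
def b1121 : Zd := .nd 46 b1120 .bot
def b1122 : Zd := .nd 45 b1121 .bot
def b1123 : Zd := .nd 44 b1122 .bot
def b1124 : Zd := .nd 39 b1123 .bot
def b1125 : Zd := .nd 37 b1124 .bot
def b1126 : Zd := .nd 35 b1125 .bot
def b1127 : Zd := .nd 34 b1126 .bot
def b1128 : Zd := .nd 33 b1127 .bot
def b1129 : Zd := .nd 28 b1128 .bot
def b1130 : Zd := .nd 24 b1129 .bot
def b1131 : Zd := .nd 22 b1130 .bot
def b1132 : Zd := .nd 21 b1131 .bot
def b1133 : Zd := .nd 19 b1132 .bot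
def b1134 : Zd := .nd 14 b1133 .bot
def b1135 : Zd := .nd 12 b1134 .bot
def b1136 : Zd := .nd 11 b1135 .bot
def b1137 : Zd := .nd 9 b1118 b1136
def b1138 : Zd := .nd 7 b1101 b1137
def b1139 : Zd := .nd 6 b1079 b1138
def b1140 : Zd := .nd 5 b1065 b1139
def b1141 : Zd := .nd 4 b1031 b1140
def b1142 : Zd := .nd 47 b733 .bot
def b1143 : Zd := .nd 46 b1142 .bot
def b1144 : Zd := .nd 41 b1143 .bot
def b1145 : Zd := .nd 38 b1144 .bot
def b1146 : Zd := .nd 37 b1145 .bot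
def b1147 : Zd := .nd 35 b1146 .bot
def b1148 : Zd := .nd 31 b1147 .bot
def b1149 : Zd := .nd 30 b1148 .bot
def b1150 : Zd := .nd 25 b1149 .bot
def b1151 : Zd := .nd 24 b1150 .bot
def b1152 : Zd := .nd 19 b1151 .bot
def b1153 : Zd := .nd 15 b1152 .bot
def b1154 : Zd := .nd 13 b1153 .bot
def b1155 : Zd := .nd 12 b1154 .bot
def b1156 : Zd := .nd 48 b15 .bot
def b1157 : Zd := .nd 44 b1156 .bot
def b1158 : Zd := .nd 43 b1157 .bot
def b1159 : Zd := .nd 42 b1158 .bot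
def b1160 : Zd := .nd 38 b1159 .bot
def b1161 : Zd := .nd 37 b1160 .bot
def b1162 : Zd := .nd 35 b1161 .bot
def b1163 : Zd := .nd 32 b1162 .bot
def b1164 : Zd := .nd 31 b1163 .bot
def b1165 : Zd := .nd 30 b1164 .bot
def b1166 : Zd := .nd 26 b1165 .bot
def b1167 : Zd := .nd 22 b1166 .bot
def b1168 : Zd := .nd 21 b1167 .bot
def b1169 : Zd := .nd 18 b1168 .bot
def b1170 : Zd := .nd 17 b1169 .bot
def b1171 : Zd := .nd 14 b1170 .bot
def b1172 : Zd := .nd 12 b1171 .bot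
def b1173 : Zd := .nd 8 b1172 .bot
def b1174 : Zd := .nd 40 b516 .bot
def b1175 : Zd := .nd 37 b1174 .bot
def b1176 : Zd := .nd 35 b1175 .bot
def b1177 : Zd := .nd 34 b1176 .bot
def b1178 : Zd := .nd 33 b1177 .bot
def b1179 : Zd := .nd 31 b1178 .bot
def b1180 : Zd := .nd 28 b1179 .bot
def b1181 : Zd := .nd 27 b1180 .bot
def b1182 : Zd := .nd 23 b1181 .bot
def b1183 : Zd := .nd 22 b1182 .bot
def b1184 : Zd := .nd 21 b1183 .bot
def b1185 : Zd := .nd 16 b1184 .bot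
def b1186 : Zd := .nd 13 b1185 .bot
def b1187 : Zd := .nd 7 b1186 .bot
def b1188 : Zd := .nd 6 b1173 b1187
def b1189 : Zd := .nd 5 b1155 b1188
def b1190 : Zd := .nd 49 b733 .bot
def b1191 : Zd := .nd 48 b1190 .bot
def b1192 : Zd := .nd 44 b1191 .bot
def b1193 : Zd := .nd 43 b1192 .bot
def b1194 : Zd := .nd 38 b1193 .bot
def b1195 : Zd := .nd 36 b1194 .bot
def b1196 : Zd := .nd 34 b1195 .bot
def b1197 : Zd := .nd 33 b1196 .bot
def b1198 : Zd := .nd 29 b1197 .bot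
def b1199 : Zd := .nd 26 b1198 .bot
def b1200 : Zd := .nd 25 b1199 .bot
def b1201 : Zd := .nd 24 b1200 .bot
def b1202 : Zd := .nd 23 b1201 .bot
def b1203 : Zd := .nd 20 b1202 .bot
def b1204 : Zd := .nd 18 b1203 .bot
def b1205 : Zd := .nd 14 b1204 .bot
def b1206 : Zd := .nd 12 b1205 .bot
def b1207 : Zd := .nd 11 b1206 .bot
def b1208 : Zd := .nd 6 b1207 .bot
def b1209 : Zd := .nd 4 b1189 b1208
def b1210 : Zd := .nd 3 b1141 b1209
def b1211 : Zd := .nd 2 b995 b1210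
def b1212 : Zd := .nd 49 b118 .bot
def b1213 : Zd := .nd 45 b1212 .bot
def b1214 : Zd := .nd 40 b1213 .bot
def b1215 : Zd := .nd 37 b1214 .bot
def b1216 : Zd := .nd 35 b1215 .bot
def b1217 : Zd := .nd 34 b1216 .bot
def b1218 : Zd := .nd 30 b1217 .bot
def b1219 : Zd := .nd 29 b1218 .bot
def b1220 : Zd := .nd 26 b1219 .bot
def b1221 : Zd := .nd 22 b1220 .bot
def b1222 : Zd := .nd 20 b1221 .bot
def b1223 : Zd := .nd 19 b1222 .bot
def b1224 : Zd := .nd 15 b1223 .bot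
def b1225 : Zd := .nd 14 b1224 .bot
def b1226 : Zd := .nd 6 b1225 .bot
def b1227 : Zd := .nd 46 b627 .bot
def b1228 : Zd := .nd 43 b1227 .bot
def b1229 : Zd := .nd 42 b1228 .bot
def b1230 : Zd := .nd 41 b1229 .bot
def b1231 : Zd := .nd 36 b1230 .bot
def b1232 : Zd := .nd 33 b1231 .bot
def b1233 : Zd := .nd 31 b1232 .bot
def b1234 : Zd := .nd 30 b1233 .bot
def b1235 : Zd := .nd 26 b1234 .bot
def b1236 : Zd := .nd 24 b1235 .bot
def b1237 : Zd := .nd 20 b1236 .bot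
def b1238 : Zd := .nd 18 b1237 .bot
def b1239 : Zd := .nd 17 b1238 .bot
def b1240 : Zd := .nd 16 b1239 .bot
def b1241 : Zd := .nd 14 b1240 .bot
def b1242 : Zd := .nd 9 b1241 .bot
def b1243 : Zd := .nd 7 b1242 .bot
def b1244 : Zd := .nd 45 b703 .bot
def b1245 : Zd := .nd 44 b1244 .bot
def b1246 : Zd := .nd 43 b1245 .bot
def b1247 : Zd := .nd 42 b1246 .bot
def b1248 : Zd := .nd 40 b1247 .bot
def b1249 : Zd := .nd 37 b1248 .bot
def b1250 : Zd := .nd 36 b1249 .bot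
def b1251 : Zd := .nd 32 b1250 .bot
def b1252 : Zd := .nd 31 b1251 .bot
def b1253 : Zd := .nd 29 b1252 .bot
def b1254 : Zd := .nd 26 b1253 .bot
def b1255 : Zd := .nd 22 b1254 .bot
def b1256 : Zd := .nd 21 b1255 .bot
def b1257 : Zd := .nd 20 b1256 .bot
def b1258 : Zd := .nd 17 b1257 .bot
def b1259 : Zd := .nd 14 b1258 .bot
def b1260 : Zd := .nd 11 b1259 .bot
def b1261 : Zd := .nd 8 b1260 .bot
def b1262 : Zd := .nd 6 b1243 b1261
def b1263 : Zd := .nd 4 b1226 b1262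
def b1264 : Zd := .nd 45 b347 .bot
def b1265 : Zd := .nd 44 b1264 .bot
def b1266 : Zd := .nd 43 b1265 .bot
def b1267 : Zd := .nd 40 b1266 .bot
def b1268 : Zd := .nd 36 b1267 .bot
def b1269 : Zd := .nd 35 b1268 .bot
def b1270 : Zd := .nd 34 b1269 .bot
def b1271 : Zd := .nd 29 b1270 .bot
def b1272 : Zd := .nd 24 b1271 .bot
def b1273 : Zd := .nd 23 b1272 .bot
def b1274 : Zd := .nd 22 b1273 .bot
def b1275 : Zd := .nd 19 b1274 .bot
def b1276 : Zd := .nd 18 b1275 .bot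
def b1277 : Zd := .nd 17 b1276 .bot
def b1278 : Zd := .nd 12 b1277 .bot
def b1279 : Zd := .nd 11 b1278 .bot
def b1280 : Zd := .nd 48 b249 .bot
def b1281 : Zd := .nd 47 b1280 .bot
def b1282 : Zd := .nd 44 b1281 .bot
def b1283 : Zd := .nd 42 b1282 .bot
def b1284 : Zd := .nd 41 b1283 .bot
def b1285 : Zd := .nd 40 b1284 .bot
def b1286 : Zd := .nd 38 b1285 .bot
def b1287 : Zd := .nd 36 b1286 .bot
def b1288 : Zd := .nd 30 b1287 .bot
def b1289 : Zd := .nd 29 b1288 .bot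
def b1290 : Zd := .nd 27 b1289 .bot
def b1291 : Zd := .nd 25 b1290 .bot
def b1292 : Zd := .nd 24 b1291 .bot
def b1293 : Zd := .nd 21 b1292 .bot
def b1294 : Zd := .nd 20 b1293 .bot
def b1295 : Zd := .nd 19 b1294 .bot
def b1296 : Zd := .nd 15 b1295 .bot
def b1297 : Zd := .nd 11 b1296 .bot
def b1298 : Zd := .nd 6 b1279 b1297
def b1299 : Zd := .nd 5 b1298 .bot
def b1300 : Zd := .nd 51 b626 .bot
def b1301 : Zd := .nd 48 b1300 .bot
def b1302 : Zd := .nd 43 b1301 .bot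
def b1303 : Zd := .nd 42 b1302 .bot
def b1304 : Zd := .nd 40 b1303 .bot
def b1305 : Zd := .nd 39 b1304 .bot
def b1306 : Zd := .nd 34 b1305 .bot
def b1307 : Zd := .nd 32 b1306 .bot
def b1308 : Zd := .nd 30 b1307 .bot
def b1309 : Zd := .nd 28 b1308 .bot
def b1310 : Zd := .nd 27 b1309 .bot
def b1311 : Zd := .nd 24 b1310 .bot
def b1312 : Zd := .nd 21 b1311 .bot
def b1313 : Zd := .nd 18 b1312 .bot
def b1314 : Zd := .nd 13 b1313 .bot
def b1315 : Zd := .nd 47 b1300 .bot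
def b1316 : Zd := .nd 46 b1315 .bot
def b1317 : Zd := .nd 44 b1316 .bot
def b1318 : Zd := .nd 42 b1317 .bot
def b1319 : Zd := .nd 41 b1318 .bot
def b1320 : Zd := .nd 39 b1319 .bot
def b1321 : Zd := .nd 37 b1320 .bot
def b1322 : Zd := .nd 33 b1321 .bot
def b1323 : Zd := .nd 30 b1322 .bot
def b1324 : Zd := .nd 29 b1323 .bot
def b1325 : Zd := .nd 27 b1324 .bot
def b1326 : Zd := .nd 25 b1325 .bot
def b1327 : Zd := .nd 24 b1326 .bot
def b1328 : Zd := .nd 21 b1327 .bot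
def b1329 : Zd := .nd 18 b1328 .bot
def b1330 : Zd := .nd 16 b1329 .bot
def b1331 : Zd := .nd 15 b1330 .bot
def b1332 : Zd := .nd 12 b1314 b1331
def b1333 : Zd := .nd 11 b1332 .bot
def b1334 : Zd := .nd 47 b118 .bot
def b1335 : Zd := .nd 45 b1334 .bot
def b1336 : Zd := .nd 43 b1335 .bot
def b1337 : Zd := .nd 39 b1336 .bot
def b1338 : Zd := .nd 36 b1337 .bot
def b1339 : Zd := .nd 35 b1338 .bot
def b1340 : Zd := .nd 34 b1339 .bot
def b1341 : Zd := .nd 31 b1340 .bot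
def b1342 : Zd := .nd 29 b1341 .bot
def b1343 : Zd := .nd 28 b1342 .bot
def b1344 : Zd := .nd 23 b1343 .bot
def b1345 : Zd := .nd 22 b1344 .bot
def b1346 : Zd := .nd 20 b1345 .bot
def b1347 : Zd := .nd 17 b1346 .bot
def b1348 : Zd := .nd 16 b1347 .bot
def b1349 : Zd := .nd 15 b1348 .bot
def b1350 : Zd := .nd 12 b1349 .bot
def b1351 : Zd := .nd 8 b1350 .bot
def b1352 : Zd := .nd 7 b1351 .bot
def b1353 : Zd := .nd 6 b1333 b1352
def b1354 : Zd := .nd 5 b1353 .bot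
def b1355 : Zd := .nd 4 b1299 b1354
def b1356 : Zd := .nd 3 b1263 b1355
def b1357 : Zd := .nd 31 b353 .bot
def b1358 : Zd := .nd 26 b1357 .bot
def b1359 : Zd := .nd 22 b1358 .bot
def b1360 : Zd := .nd 21 b1359 .bot
def b1361 : Zd := .nd 19 b1360 .bot
def b1362 : Zd := .nd 17 b1361 .bot
def b1363 : Zd := .nd 15 b1362 .bot
def b1364 : Zd := .nd 46 b308 .bot
def b1365 : Zd := .nd 44 b1364 .bot
def b1366 : Zd := .nd 42 b1365 .bot
def b1367 : Zd := .nd 40 b1366 .bot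
def b1368 : Zd := .nd 39 b1367 .bot
def b1369 : Zd := .nd 38 b1368 .bot
def b1370 : Zd := .nd 36 b1369 .bot
def b1371 : Zd := .nd 32 b1370 .bot
def b1372 : Zd := .nd 31 b1371 .bot
def b1373 : Zd := .nd 30 b1372 .bot
def b1374 : Zd := .nd 29 b1373 .bot
def b1375 : Zd := .nd 24 b1374 .bot
def b1376 : Zd := .nd 22 b1375 .bot
def b1377 : Zd := .nd 21 b1376 .bot
def b1378 : Zd := .nd 20 b1377 .bot
def b1379 : Zd := .nd 18 b1378 .bot
def b1380 : Zd := .nd 17 b1379 .bot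
def b1381 : Zd := .nd 8 b1380 .bot
def b1382 : Zd := .nd 7 b1381 .bot
def b1383 : Zd := .nd 6 b1363 b1382
def b1384 : Zd := .nd 37 b554 .bot
def b1385 : Zd := .nd 34 b1384 .bot
def b1386 : Zd := .nd 32 b1385 .bot
def b1387 : Zd := .nd 29 b1386 .bot
def b1388 : Zd := .nd 27 b1387 .bot
def b1389 : Zd := .nd 25 b1388 .bot
def b1390 : Zd := .nd 22 b1389 .bot
def b1391 : Zd := .nd 21 b1390 .bot
def b1392 : Zd := .nd 20 b1391 .bot
def b1393 : Zd := .nd 19 b1392 .bot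
def b1394 : Zd := .nd 17 b1393 .bot
def b1395 : Zd := .nd 15 b1394 .bot
def b1396 : Zd := .nd 14 b1395 .bot
def b1397 : Zd := .nd 8 b1396 .bot
def b1398 : Zd := .nd 5 b1383 b1397
def b1399 : Zd := .nd 46 b347 .bot
def b1400 : Zd := .nd 43 b1399 .bot
def b1401 : Zd := .nd 42 b1400 .bot
def b1402 : Zd := .nd 41 b1401 .bot
def b1403 : Zd := .nd 39 b1402 .bot
def b1404 : Zd := .nd 38 b1403 .bot
def b1405 : Zd := .nd 37 b1404 .bot
def b1406 : Zd := .nd 36 b1405 .bot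
def b1407 : Zd := .nd 35 b1406 .bot
def b1408 : Zd := .nd 31 b1407 .bot
def b1409 : Zd := .nd 28 b1408 .bot
def b1410 : Zd := .nd 26 b1409 .bot
def b1411 : Zd := .nd 25 b1410 .bot
def b1412 : Zd := .nd 21 b1411 .bot
def b1413 : Zd := .nd 16 b1412 .bot
def b1414 : Zd := .nd 15 b1413 .bot
def b1415 : Zd := .nd 14 b1414 .bot
def b1416 : Zd := .nd 47 b609 .bot
def b1417 : Zd := .nd 46 b1416 .bot
def b1418 : Zd := .nd 43 b1417 .bot
def b1419 : Zd := .nd 39 b1418 .bot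
def b1420 : Zd := .nd 38 b1419 .bot
def b1421 : Zd := .nd 34 b1420 .bot
def b1422 : Zd := .nd 31 b1421 .bot
def b1423 : Zd := .nd 24 b1422 .bot
def b1424 : Zd := .nd 23 b1423 .bot
def b1425 : Zd := .nd 22 b1424 .bot
def b1426 : Zd := .nd 21 b1425 .bot
def b1427 : Zd := .nd 18 b1426 .bot
def b1428 : Zd := .nd 15 b1427 .bot
def b1429 : Zd := .nd 13 b1428 .bot
def b1430 : Zd := .nd 11 b1429 .bot
def b1431 : Zd := .nd 8 b1430 .bot
def b1432 : Zd := .nd 7 b1415 b1431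
def b1433 : Zd := .nd 48 b626 .bot
def b1434 : Zd := .nd 47 b1433 .bot
def b1435 : Zd := .nd 44 b1434 .bot
def b1436 : Zd := .nd 43 b1435 .bot
def b1437 : Zd := .nd 39 b1436 .bot
def b1438 : Zd := .nd 38 b1437 .bot
def b1439 : Zd := .nd 37 b1438 .bot
def b1440 : Zd := .nd 30 b1439 .bot
def b1441 : Zd := .nd 29 b1440 .bot
def b1442 : Zd := .nd 27 b1441 .bot
def b1443 : Zd := .nd 25 b1442 .bot
def b1444 : Zd := .nd 24 b1443 .bot
def b1445 : Zd := .nd 22 b1444 .bot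
def b1446 : Zd := .nd 20 b1445 .bot
def b1447 : Zd := .nd 19 b1446 .bot
def b1448 : Zd := .nd 18 b1447 .bot
def b1449 : Zd := .nd 17 b1448 .bot
def b1450 : Zd := .nd 15 b1449 .bot
def b1451 : Zd := .nd 14 b1450 .bot
def b1452 : Zd := .nd 11 b1451 .bot
def b1453 : Zd := .nd 8 b1452 .bot
def b1454 : Zd := .nd 6 b1432 b1453
def b1455 : Zd := .nd 4 b1398 b1454
def b1456 : Zd := .nd 44 b68 .bot
def b1457 : Zd := .nd 43 b1456 .bot
def b1458 : Zd := .nd 36 b1457 .bot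
def b1459 : Zd := .nd 32 b1458 .bot
def b1460 : Zd := .nd 30 b1459 .bot
def b1461 : Zd := .nd 28 b1460 .bot
def b1462 : Zd := .nd 27 b1461 .bot
def b1463 : Zd := .nd 26 b1462 .bot
def b1464 : Zd := .nd 21 b1463 .bot
def b1465 : Zd := .nd 18 b1464 .bot
def b1466 : Zd := .nd 15 b1465 .bot
def b1467 : Zd := .nd 14 b1466 .bot
def b1468 : Zd := .nd 12 b1467 .bot
def b1469 : Zd := .nd 7 b1468 .bot
def b1470 : Zd := .nd 6 b1469 .bot
def b1471 : Zd := .nd 48 b325 .bot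
def b1472 : Zd := .nd 46 b1471 .bot
def b1473 : Zd := .nd 43 b1472 .bot
def b1474 : Zd := .nd 42 b1473 .bot
def b1475 : Zd := .nd 40 b1474 .bot
def b1476 : Zd := .nd 37 b1475 .bot
def b1477 : Zd := .nd 36 b1476 .bot
def b1478 : Zd := .nd 31 b1477 .bot
def b1479 : Zd := .nd 30 b1478 .bot
def b1480 : Zd := .nd 27 b1479 .bot
def b1481 : Zd := .nd 25 b1480 .bot
def b1482 : Zd := .nd 24 b1481 .bot
def b1483 : Zd := .nd 21 b1482 .bot
def b1484 : Zd := .nd 20 b1483 .bot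
def b1485 : Zd := .nd 18 b1484 .bot
def b1486 : Zd := .nd 16 b1485 .bot
def b1487 : Zd := .nd 13 b1486 .bot
def b1488 : Zd := .nd 11 b1487 .bot
def b1489 : Zd := .nd 7 b1488 .bot
def b1490 : Zd := .nd 46 b286 .bot
def b1491 : Zd := .nd 45 b1490 .bot
def b1492 : Zd := .nd 42 b1491 .bot
def b1493 : Zd := .nd 40 b1492 .bot
def b1494 : Zd := .nd 39 b1493 .bot
def b1495 : Zd := .nd 38 b1494 .bot
def b1496 : Zd := .nd 37 b1495 .bot
def b1497 : Zd := .nd 35 b1496 .bot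
def b1498 : Zd := .nd 34 b1497 .bot
def b1499 : Zd := .nd 30 b1498 .bot
def b1500 : Zd := .nd 25 b1499 .bot
def b1501 : Zd := .nd 24 b1500 .bot
def b1502 : Zd := .nd 22 b1501 .bot
def b1503 : Zd := .nd 20 b1502 .bot
def b1504 : Zd := .nd 19 b1503 .bot
def b1505 : Zd := .nd 18 b1504 .bot
def b1506 : Zd := .nd 17 b1505 .bot
def b1507 : Zd := .nd 15 b1506 .bot
def b1508 : Zd := .nd 12 b1507 .bot
def b1509 : Zd := .nd 11 b1508 .bot
def b1510 : Zd := .nd 7 b1509 .bot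
def b1511 : Zd := .nd 48 b118 .bot
def b1512 : Zd := .nd 47 b1511 .bot
def b1513 : Zd := .nd 46 b1512 .bot
def b1514 : Zd := .nd 45 b1513 .bot
def b1515 : Zd := .nd 43 b1514 .bot
def b1516 : Zd := .nd 42 b1515 .bot
def b1517 : Zd := .nd 39 b1516 .bot
def b1518 : Zd := .nd 38 b1517 .bot
def b1519 : Zd := .nd 36 b1518 .bot
def b1520 : Zd := .nd 34 b1519 .bot
def b1521 : Zd := .nd 33 b1520 .bot
def b1522 : Zd := .nd 32 b1521 .bot
def b1523 : Zd := .nd 28 b1522 .bot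
def b1524 : Zd := .nd 26 b1523 .bot
def b1525 : Zd := .nd 24 b1524 .bot
def b1526 : Zd := .nd 21 b1525 .bot
def b1527 : Zd := .nd 20 b1526 .bot
def b1528 : Zd := .nd 18 b1527 .bot
def b1529 : Zd := .nd 16 b1528 .bot
def b1530 : Zd := .nd 46 b325 .bot
def b1531 : Zd := .nd 43 b1530 .bot
def b1532 : Zd := .nd 42 b1531 .bot
def b1533 : Zd := .nd 38 b1532 .bot
def b1534 : Zd := .nd 32 b1533 .bot
def b1535 : Zd := .nd 28 b1534 .bot
def b1536 : Zd := .nd 26 b1535 .bot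
def b1537 : Zd := .nd 23 b1536 .bot
def b1538 : Zd := .nd 22 b1537 .bot
def b1539 : Zd := .nd 20 b1538 .bot
def b1540 : Zd := .nd 19 b1539 .bot
def b1541 : Zd := .nd 47 b53 .bot
def b1542 : Zd := .nd 46 b1541 .bot
def b1543 : Zd := .nd 45 b1542 .bot
def b1544 : Zd := .nd 43 b1543 .bot
def b1545 : Zd := .nd 42 b1544 .bot
def b1546 : Zd := .nd 41 b1545 .bot
def b1547 : Zd := .nd 40 b1546 .bot
def b1548 : Zd := .nd 38 b1547 .bot
def b1549 : Zd := .nd 34 b1548 .bot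
def b1550 : Zd := .nd 32 b1549 .bot
def b1551 : Zd := .nd 26 b1550 .bot
def b1552 : Zd := .nd 23 b1551 .bot
def b1553 : Zd := .nd 22 b1552 .bot
def b1554 : Zd := .nd 20 b1553 .bot
def b1555 : Zd := .nd 19 b1554 .bot
def b1556 : Zd := .nd 18 b1555 .bot
def b1557 : Zd := .nd 17 b1540 b1556
def b1558 : Zd := .nd 49 b17 .bot
def b1559 : Zd := .nd 46 b1558 .bot
def b1560 : Zd := .nd 45 b1559 .bot
def b1561 : Zd := .nd 42 b1560 .bot
def b1562 : Zd := .nd 40 b1561 .bot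
def b1563 : Zd := .nd 39 b1562 .bot
def b1564 : Zd := .nd 38 b1563 .bot
def b1565 : Zd := .nd 34 b1564 .bot
def b1566 : Zd := .nd 31 b1565 .bot
def b1567 : Zd := .nd 27 b1566 .bot
def b1568 : Zd := .nd 26 b1567 .bot
def b1569 : Zd := .nd 25 b1568 .bot
def b1570 : Zd := .nd 24 b1569 .bot
def b1571 : Zd := .nd 20 b1570 .bot
def b1572 : Zd := .nd 17 b1571 .bot
def b1573 : Zd := .nd 49 b752 .bot
def b1574 : Zd := .nd 48 b1573 .bot
def b1575 : Zd := .nd 47 b1574 .bot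
def b1576 : Zd := .nd 46 b1575 .bot
def b1577 : Zd := .nd 42 b1576 .bot
def b1578 : Zd := .nd 41 b1577 .bot
def b1579 : Zd := .nd 39 b1578 .bot
def b1580 : Zd := .nd 37 b1579 .bot
def b1581 : Zd := .nd 35 b1580 .bot
def b1582 : Zd := .nd 33 b1581 .bot
def b1583 : Zd := .nd 31 b1582 .bot
def b1584 : Zd := .nd 29 b1583 .bot
def b1585 : Zd := .nd 28 b1584 .bot
def b1586 : Zd := .nd 26 b1585 .bot
def b1587 : Zd := .nd 25 b1586 .bot
def b1588 : Zd := .nd 24 b1587 .bot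
def b1589 : Zd := .nd 23 b1588 .bot
def b1590 : Zd := .nd 21 b1589 .bot
def b1591 : Zd := .nd 20 b1590 .bot
def b1592 : Zd := .nd 18 b1591 .bot
def b1593 : Zd := .nd 17 b1592 .bot
def b1594 : Zd := .nd 48 b35 .bot
def b1595 : Zd := .nd 47 b1594 .bot
def b1596 : Zd := .nd 46 b1595 .bot
def b1597 : Zd := .nd 45 b1596 .bot
def b1598 : Zd := .nd 42 b1597 .bot
def b1599 : Zd := .nd 40 b1598 .bot
def b1600 : Zd := .nd 36 b1599 .bot
def b1601 : Zd := .nd 34 b1600 .bot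
def b1602 : Zd := .nd 33 b1601 .bot
def b1603 : Zd := .nd 32 b1602 .bot
def b1604 : Zd := .nd 28 b1603 .bot
def b1605 : Zd := .nd 25 b1604 .bot
def b1606 : Zd := .nd 24 b1605 .bot
def b1607 : Zd := .nd 23 b1606 .bot
def b1608 : Zd := .nd 21 b1607 .bot
def b1609 : Zd := .nd 20 b1608 .bot
def b1610 : Zd := .nd 17 b1609 .bot
def b1611 : Zd := .nd 16 b1593 b1610
def b1612 : Zd := .nd 15 b1572 b1611
def b1613 : Zd := .nd 14 b1557 b1612
def b1614 : Zd := .nd 13 b1529 b1613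
def b1615 : Zd := .nd 44 b417 .bot
def b1616 : Zd := .nd 42 b1615 .bot
def b1617 : Zd := .nd 38 b1616 .bot
def b1618 : Zd := .nd 37 b1617 .bot
def b1619 : Zd := .nd 36 b1618 .bot
def b1620 : Zd := .nd 35 b1619 .bot
def b1621 : Zd := .nd 30 b1620 .bot
def b1622 : Zd := .nd 29 b1621 .bot
def b1623 : Zd := .nd 24 b1622 .bot
def b1624 : Zd := .nd 23 b1623 .bot
def b1625 : Zd := .nd 22 b1624 .bot
def b1626 : Zd := .nd 19 b1625 .bot
def b1627 : Zd := .nd 17 b1626 .bot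
def b1628 : Zd := .nd 49 b479 .bot
def b1629 : Zd := .nd 46 b1628 .bot
def b1630 : Zd := .nd 40 b1629 .bot
def b1631 : Zd := .nd 38 b1630 .bot
def b1632 : Zd := .nd 37 b1631 .bot
def b1633 : Zd := .nd 36 b1632 .bot
def b1634 : Zd := .nd 33 b1633 .bot
def b1635 : Zd := .nd 32 b1634 .bot
def b1636 : Zd := .nd 28 b1635 .bot
def b1637 : Zd := .nd 27 b1636 .bot
def b1638 : Zd := .nd 24 b1637 .bot
def b1639 : Zd := .nd 19 b1638 .bot
def b1640 : Zd := .nd 46 b309 .bot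
def b1641 : Zd := .nd 45 b1640 .bot
def b1642 : Zd := .nd 42 b1641 .bot
def b1643 : Zd := .nd 40 b1642 .bot
def b1644 : Zd := .nd 39 b1643 .bot
def b1645 : Zd := .nd 38 b1644 .bot
def b1646 : Zd := .nd 36 b1645 .bot
def b1647 : Zd := .nd 35 b1646 .bot
def b1648 : Zd := .nd 34 b1647 .bot
def b1649 : Zd := .nd 31 b1648 .bot
def b1650 : Zd := .nd 29 b1649 .bot
def b1651 : Zd := .nd 27 b1650 .bot
def b1652 : Zd := .nd 24 b1651 .bot
def b1653 : Zd := .nd 23 b1652 .bot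
def b1654 : Zd := .nd 18 b1639 b1653
def b1655 : Zd := .nd 16 b1627 b1654
def b1656 : Zd := .nd 15 b1655 .bot
def b1657 : Zd := .nd 14 b1656 .bot
def b1658 : Zd := .nd 50 b1300 .bot
def b1659 : Zd := .nd 46 b1658 .bot
def b1660 : Zd := .nd 43 b1659 .bot
def b1661 : Zd := .nd 41 b1660 .bot
def b1662 : Zd := .nd 40 b1661 .bot
def b1663 : Zd := .nd 39 b1662 .bot
def b1664 : Zd := .nd 38 b1663 .bot
def b1665 : Zd := .nd 31 b1664 .bot
def b1666 : Zd := .nd 30 b1665 .bot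
def b1667 : Zd := .nd 29 b1666 .bot
def b1668 : Zd := .nd 25 b1667 .bot
def b1669 : Zd := .nd 22 b1668 .bot
def b1670 : Zd := .nd 18 b1669 .bot
def b1671 : Zd := .nd 17 b1670 .bot
def b1672 : Zd := .nd 46 b1300 .bot
def b1673 : Zd := .nd 41 b1672 .bot
def b1674 : Zd := .nd 39 b1673 .bot
def b1675 : Zd := .nd 37 b1674 .bot
def b1676 : Zd := .nd 36 b1675 .bot
def b1677 : Zd := .nd 33 b1676 .bot
def b1678 : Zd := .nd 31 b1677 .bot
def b1679 : Zd := .nd 30 b1678 .bot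
def b1680 : Zd := .nd 28 b1679 .bot
def b1681 : Zd := .nd 25 b1680 .bot
def b1682 : Zd := .nd 24 b1681 .bot
def b1683 : Zd := .nd 20 b1682 .bot
def b1684 : Zd := .nd 18 b1683 .bot
def b1685 : Zd := .nd 16 b1671 b1684
def b1686 : Zd := .nd 15 b1685 .bot
def b1687 : Zd := .nd 13 b1657 b1686
def b1688 : Zd := .nd 12 b1614 b1687
def b1689 : Zd := .nd 45 b918 .bot
def b1690 : Zd := .nd 42 b1689 .bot
def b1691 : Zd := .nd 41 b1690 .bot
def b1692 : Zd := .nd 40 b1691 .bot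
def b1693 : Zd := .nd 39 b1692 .bot
def b1694 : Zd := .nd 38 b1693 .bot
def b1695 : Zd := .nd 36 b1694 .bot
def b1696 : Zd := .nd 33 b1695 .bot
def b1697 : Zd := .nd 29 b1696 .bot
def b1698 : Zd := .nd 27 b1697 .bot
def b1699 : Zd := .nd 26 b1698 .bot
def b1700 : Zd := .nd 24 b1699 .bot
def b1701 : Zd := .nd 23 b1700 .bot
def b1702 : Zd := .nd 20 b1701 .bot
def b1703 : Zd := .nd 37 b1546 .bot
def b1704 : Zd := .nd 34 b1703 .bot
def b1705 : Zd := .nd 32 b1704 .bot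
def b1706 : Zd := .nd 30 b1705 .bot
def b1707 : Zd := .nd 24 b1706 .bot
def b1708 : Zd := .nd 23 b1707 .bot
def b1709 : Zd := .nd 22 b1708 .bot
def b1710 : Zd := .nd 46 b120 .bot
def b1711 : Zd := .nd 45 b1710 .bot
def b1712 : Zd := .nd 44 b1711 .bot
def b1713 : Zd := .nd 41 b1712 .bot
def b1714 : Zd := .nd 36 b1713 .bot
def b1715 : Zd := .nd 35 b1714 .bot
def b1716 : Zd := .nd 33 b1715 .bot
def b1717 : Zd := .nd 31 b1716 .bot
def b1718 : Zd := .nd 30 b1717 .bot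
def b1719 : Zd := .nd 29 b1718 .bot
def b1720 : Zd := .nd 27 b1719 .bot
def b1721 : Zd := .nd 23 b1720 .bot
def b1722 : Zd := .nd 20 b1721 .bot
def b1723 : Zd := .nd 17 b1709 b1722
def b1724 : Zd := .nd 47 b0 .bot
def b1725 : Zd := .nd 46 b1724 .bot
def b1726 : Zd := .nd 45 b1725 .bot
def b1727 : Zd := .nd 43 b1726 .bot
def b1728 : Zd := .nd 41 b1727 .bot
def b1729 : Zd := .nd 40 b1728 .bot
def b1730 : Zd := .nd 39 b1729 .bot
def b1731 : Zd := .nd 32 b1730 .bot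
def b1732 : Zd := .nd 30 b1731 .bot
def b1733 : Zd := .nd 26 b1732 .bot
def b1734 : Zd := .nd 25 b1733 .bot
def b1735 : Zd := .nd 23 b1734 .bot
def b1736 : Zd := .nd 19 b1735 .bot
def b1737 : Zd := .nd 18 b1736 .bot
def b1738 : Zd := .nd 17 b1737 .bot
def b1739 : Zd := .nd 16 b1723 b1738
def b1740 : Zd := .nd 15 b1702 b1739
def b1741 : Zd := .nd 38 b868 .bot
def b1742 : Zd := .nd 33 b1741 .bot
def b1743 : Zd := .nd 31 b1742 .bot
def b1744 : Zd := .nd 30 b1743 .bot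
def b1745 : Zd := .nd 27 b1744 .bot
def b1746 : Zd := .nd 25 b1745 .bot
def b1747 : Zd := .nd 24 b1746 .bot
def b1748 : Zd := .nd 20 b1747 .bot
def b1749 : Zd := .nd 17 b1748 .bot
def b1750 : Zd := .nd 15 b1749 .bot
def b1751 : Zd := .nd 14 b1740 b1750
def b1752 : Zd := .nd 46 b310 .bot
def b1753 : Zd := .nd 42 b1752 .bot
def b1754 : Zd := .nd 40 b1753 .bot
def b1755 : Zd := .nd 38 b1754 .bot
def b1756 : Zd := .nd 35 b1755 .bot
def b1757 : Zd := .nd 31 b1756 .bot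
def b1758 : Zd := .nd 27 b1757 .bot
def b1759 : Zd := .nd 25 b1758 .bot
def b1760 : Zd := .nd 24 b1759 .bot
def b1761 : Zd := .nd 23 b1760 .bot
def b1762 : Zd := .nd 20 b1761 .bot
def b1763 : Zd := .nd 42 b1121 .bot
def b1764 : Zd := .nd 41 b1763 .bot
def b1765 : Zd := .nd 40 b1764 .bot
def b1766 : Zd := .nd 39 b1765 .bot
def b1767 : Zd := .nd 38 b1766 .bot
def b1768 : Zd := .nd 37 b1767 .bot
def b1769 : Zd := .nd 34 b1768 .bot
def b1770 : Zd := .nd 32 b1769 .bot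
def b1771 : Zd := .nd 31 b1770 .bot
def b1772 : Zd := .nd 29 b1771 .bot
def b1773 : Zd := .nd 26 b1772 .bot
def b1774 : Zd := .nd 25 b1773 .bot
def b1775 : Zd := .nd 23 b1774 .bot
def b1776 : Zd := .nd 21 b1775 .bot
def b1777 : Zd := .nd 20 b1776 .bot
def b1778 : Zd := .nd 17 b1762 b1777
def b1779 : Zd := .nd 16 b1778 .bot
def b1780 : Zd := .nd 45 b1724 .bot
def b1781 : Zd := .nd 44 b1780 .bot
def b1782 : Zd := .nd 42 b1781 .bot
def b1783 : Zd := .nd 41 b1782 .bot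
def b1784 : Zd := .nd 39 b1783 .bot
def b1785 : Zd := .nd 34 b1784 .bot
def b1786 : Zd := .nd 32 b1785 .bot
def b1787 : Zd := .nd 28 b1786 .bot
def b1788 : Zd := .nd 26 b1787 .bot
def b1789 : Zd := .nd 24 b1788 .bot
def b1790 : Zd := .nd 20 b1789 .bot
def b1791 : Zd := .nd 19 b1790 .bot
def b1792 : Zd := .nd 17 b1791 .bot
def b1793 : Zd := .nd 16 b1792 .bot
def b1794 : Zd := .nd 14 b1779 b1793
def b1795 : Zd := .nd 13 b1751 b1794
def b1796 : Zd := .nd 47 b702 .bot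
def b1797 : Zd := .nd 44 b1796 .bot
def b1798 : Zd := .nd 43 b1797 .bot
def b1799 : Zd := .nd 42 b1798 .bot
def b1800 : Zd := .nd 41 b1799 .bot
def b1801 : Zd := .nd 40 b1800 .bot
def b1802 : Zd := .nd 37 b1801 .bot
def b1803 : Zd := .nd 36 b1802 .bot
def b1804 : Zd := .nd 34 b1803 .bot
def b1805 : Zd := .nd 32 b1804 .bot
def b1806 : Zd := .nd 30 b1805 .bot
def b1807 : Zd := .nd 28 b1806 .bot
def b1808 : Zd := .nd 25 b1807 .bot
def b1809 : Zd := .nd 21 b1808 .bot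
def b1810 : Zd := .nd 19 b1809 .bot
def b1811 : Zd := .nd 41 b1246 .bot
def b1812 : Zd := .nd 38 b1811 .bot
def b1813 : Zd := .nd 36 b1812 .bot
def b1814 : Zd := .nd 34 b1813 .bot
def b1815 : Zd := .nd 33 b1814 .bot
def b1816 : Zd := .nd 32 b1815 .bot
def b1817 : Zd := .nd 30 b1816 .bot
def b1818 : Zd := .nd 28 b1817 .bot
def b1819 : Zd := .nd 25 b1818 .bot
def b1820 : Zd := .nd 19 b1819 .bot
def b1821 : Zd := .nd 18 b1810 b1820
def b1822 : Zd := .nd 38 b704 .bot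
def b1823 : Zd := .nd 36 b1822 .bot
def b1824 : Zd := .nd 35 b1823 .bot
def b1825 : Zd := .nd 33 b1824 .bot
def b1826 : Zd := .nd 31 b1825 .bot
def b1827 : Zd := .nd 30 b1826 .bot
def b1828 : Zd := .nd 29 b1827 .bot
def b1829 : Zd := .nd 28 b1828 .bot
def b1830 : Zd := .nd 27 b1829 .bot
def b1831 : Zd := .nd 25 b1830 .bot
def b1832 : Zd := .nd 21 b1831 .bot
def b1833 : Zd := .nd 20 b1832 .bot
def b1834 : Zd := .nd 19 b1833 .bot
def b1835 : Zd := .nd 18 b1834 .bot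
def b1836 : Zd := .nd 16 b1835 .bot
def b1837 : Zd := .nd 15 b1821 b1836
def b1838 : Zd := .nd 48 b84 .bot
def b1839 : Zd := .nd 44 b1838 .bot
def b1840 : Zd := .nd 41 b1839 .bot
def b1841 : Zd := .nd 40 b1840 .bot
def b1842 : Zd := .nd 38 b1841 .bot
def b1843 : Zd := .nd 36 b1842 .bot
def b1844 : Zd := .nd 33 b1843 .bot
def b1845 : Zd := .nd 31 b1844 .bot
def b1846 : Zd := .nd 30 b1845 .bot
def b1847 : Zd := .nd 29 b1846 .bot
def b1848 : Zd := .nd 27 b1847 .bot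
def b1849 : Zd := .nd 21 b1848 .bot
def b1850 : Zd := .nd 16 b1849 .bot
def b1851 : Zd := .nd 39 b1365 .bot
def b1852 : Zd := .nd 38 b1851 .bot
def b1853 : Zd := .nd 37 b1852 .bot
def b1854 : Zd := .nd 36 b1853 .bot
def b1855 : Zd := .nd 33 b1854 .bot
def b1856 : Zd := .nd 32 b1855 .bot
def b1857 : Zd := .nd 31 b1856 .bot
def b1858 : Zd := .nd 30 b1857 .bot
def b1859 : Zd := .nd 29 b1858 .bot
def b1860 : Zd := .nd 28 b1859 .bot
def b1861 : Zd := .nd 25 b1860 .bot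
def b1862 : Zd := .nd 24 b1861 .bot
def b1863 : Zd := .nd 21 b1862 .bot
def b1864 : Zd := .nd 20 b1863 .bot
def b1865 : Zd := .nd 19 b1864 .bot
def b1866 : Zd := .nd 18 b1865 .bot
def b1867 : Zd := .nd 15 b1850 b1866
def b1868 : Zd := .nd 14 b1837 b1867
def b1869 : Zd := .nd 48 .top .bot
def b1870 : Zd := .nd 47 b1869 .bot
def b1871 : Zd := .nd 46 b1870 .bot
def b1872 : Zd := .nd 44 b1871 .bot
def b1873 : Zd := .nd 43 b1872 .bot
def b1874 : Zd := .nd 42 b1873 .bot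
def b1875 : Zd := .nd 40 b1874 .bot
def b1876 : Zd := .nd 38 b1875 .bot
def b1877 : Zd := .nd 37 b1876 .bot
def b1878 : Zd := .nd 36 b1877 .bot
def b1879 : Zd := .nd 34 b1878 .bot
def b1880 : Zd := .nd 32 b1879 .bot
def b1881 : Zd := .nd 29 b1880 .bot
def b1882 : Zd := .nd 28 b1881 .bot
def b1883 : Zd := .nd 23 b1882 .bot
def b1884 : Zd := .nd 21 b1883 .bot
def b1885 : Zd := .nd 18 b1884 .bot
def b1886 : Zd := .nd 44 b1472 .bot
def b1887 : Zd := .nd 43 b1886 .bot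
def b1888 : Zd := .nd 37 b1887 .bot
def b1889 : Zd := .nd 36 b1888 .bot
def b1890 : Zd := .nd 34 b1889 .bot
def b1891 : Zd := .nd 33 b1890 .bot
def b1892 : Zd := .nd 32 b1891 .bot
def b1893 : Zd := .nd 28 b1892 .bot
def b1894 : Zd := .nd 25 b1893 .bot
def b1895 : Zd := .nd 23 b1894 .bot
def b1896 : Zd := .nd 22 b1895 .bot
def b1897 : Zd := .nd 19 b1896 .bot
def b1898 : Zd := .nd 18 b1897 .bot
def b1899 : Zd := .nd 16 b1885 b1898
def b1900 : Zd := .nd 47 b1573 .bot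
def b1901 : Zd := .nd 46 b1900 .bot
def b1902 : Zd := .nd 41 b1901 .bot
def b1903 : Zd := .nd 37 b1902 .bot
def b1904 : Zd := .nd 36 b1903 .bot
def b1905 : Zd := .nd 33 b1904 .bot
def b1906 : Zd := .nd 32 b1905 .bot
def b1907 : Zd := .nd 28 b1906 .bot
def b1908 : Zd := .nd 25 b1907 .bot
def b1909 : Zd := .nd 24 b1908 .bot
def b1910 : Zd := .nd 21 b1909 .bot
def b1911 : Zd := .nd 18 b1910 .bot
def b1912 : Zd := .nd 17 b1911 .bot
def b1913 : Zd := .nd 15 b1912 .bot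
def b1914 : Zd := .nd 14 b1899 b1913
def b1915 : Zd := .nd 13 b1868 b1914
def b1916 : Zd := .nd 12 b1795 b1915
def b1917 : Zd := .nd 11 b1688 b1916
def b1918 : Zd := .nd 6 b1510 b1917
def b1919 : Zd := .nd 5 b1489 b1918
def b1920 : Zd := .nd 4 b1470 b1919
def b1921 : Zd := .nd 3 b1455 b1920
def b1922 : Zd := .nd 2 b1356 b1921
def b1923 : Zd := .nd 1 b1211 b1922
def b1924 : Zd := .nd 0 b800 b1923

def zA : Zd := a2128

def zB : Zd := b1924

end Pool.Agent.OD66.J3
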