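import Pool.Agent.Lib.OD.Blue
import Pool.Agent.Lib.OD.J3D

set_option autoImplicit false

namespace Pool.Agent.OD66

namespace J3

theorem ckA0 : chk zA zB 11 (wd zA) (sl zA) 0 false (!Nat.beq 0 0) = true := by
  decide +kernel

theorem ckA1 : chk zA zB 11 (wd zA) (sl zA) 1 false (!Nat.beq 1 0) = true := by
  decide +kernel

theorem ckA2 : chk zA zB 11 (wd zA) (sl zA) 2 false (!Nat.beq 2 0) = true := by
  decide +kernel

theorem ckA3 : chk zA zB 11 (wd zA) (sl zA) 3 false (!Nat.beq 3 0) = true := by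
  decide +kernel

theorem ckA4 : chk zA zB 11 (wd zA) (sl zA) 4 false (!Nat.beq 4 0) = true := by
  decide +kernel

theorem ckA5 : chk zA zB 11 (wd zA) (sl zA) 5 false (!Nat.beq 5 0) = true := by
  decide +kernel

theorem ckA6 : chk zA zB 11 (wd zA) (sl zA) 6 false (!Nat.beq 6 0) = true := by
  decide +kernel

theorem ckA7 : chk zA zB 11 (wd zA) (sl zA) 7 false (!Nat.beq 7 0) = true := by
  decide +kernel

theorem ckA8 : chk zA zB 11 (wd zA) (sl zA) 8 false (!Nat.beq 8 0) = true := by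
  decide +kernel

theorem ckA9 : chk zA zB 11 (wd zA) (sl zA) 9 false (!Nat.beq 9 0) = true := by
  decide +kernel

theorem ckA10 : chk zA zB 11 (wd zA) (sl zA) 10 false (!Nat.beq 10 0) = true := by
  decide +kernel

theorem ckB0 : chk zA zB 7 (wd zB) (sl zB) 0 true (!Nat.beq 0 0) = true := by
  decide +kernel

theorem ckB1 : chk zA zB 7 (wd zB) (sl zB) 1 true (!Nat.beq 1 0) = true := by
  decide +kernel

theorem ckB2 : chk zA zB 7 (wd zB) (sl zB) 2 true (!Nat.beq 2 0) = true := by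
  decide +kernel

theorem ckB3 : chk zA zB 7 (wd zB) (sl zB) 3 true (!Nat.beq 3 0) = true := by
  decide +kernel

theorem ckB4 : chk zA zB 7 (wd zB) (sl zB) 4 true (!Nat.beq 4 0) = true := by
  decide +kernel

theorem ckB5 : chk zA zB 7 (wd zB) (sl zB) 5 true (!Nat.beq 5 0) = true := by
  decide +kernel

theorem ckB6 : chk zA zB 7 (wd zB) (sl zB) 6 true (!Nat.beq 6 0) = true := by
  decide +kernel

theorem ckB7 : chk zA zB 7 (wd zB) (sl zB) 7 true (!Nat.beq 7 0) = true := by
  decide +kernel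

theorem ckB8 : chk zA zB 7 (wd zB) (sl zB) 8 true (!Nat.beq 8 0) = true := by
  decide +kernel

theorem ckB9 : chk zA zB 7 (wd zB) (sl zB) 9 true (!Nat.beq 9 0) = true := by
  decide +kernel

theorem ckB10 : chk zA zB 7 (wd zB) (sl zB) 10 true (!Nat.beq 10 0) = true := by
  decide +kernel

theorem ckC1_1_0 : ([0, 2, 3, 4, 5].all fun u => chk zA zB 7 5776 (ini 1 1) u true false) = true := by
  decide +kernel

theorem ckC1_1_1 : ([6, 7, 8, 9, 10].all fun u => chk zA zB 7 5776 (ini 1 1) u true false) = true := by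
  decide +kernel

theorem ckC1_10_0 : ([0, 1, 2, 3, 4].all fun u => chk zA zB 7 5776 (ini 1 10) u true false) = true := by
  decide +kernel

theorem ckC1_10_1 : ([5, 6, 7, 8, 9].all fun u => chk zA zB 7 5776 (ini 1 10) u true false) = true := by
  decide +kernel

theorem ckC10_1_0 : ([0, 2, 3, 4, 5].all fun u => chk zA zB 7 5776 (ini 10 1) u true false) = true := by
  decide +kernel

theorem ckC10_1_1 : ([6, 7, 8, 9, 10].all fun u => chk zA zB 7 5776 (ini 10 1) u true false) = true := by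
  decide +kernel

theorem ckC10_10_0 : ([0, 1, 2, 3, 4].all fun u => chk zA zB 7 5776 (ini 10 10) u true false) = true := by
  decide +kernel

theorem ckC10_10_1 : ([5, 6, 7, 8, 9].all fun u => chk zA zB 7 5776 (ini 10 10) u true false) = true := by
  decide +kernel

theorem ckA : ∀ t, t < 11 → chk zA zB 11 (wd zA) (sl zA) t false (!Nat.beq t 0) = true := by
  intro t ht
  interval_cases t
  exacts [ckA0, ckA1, ckA2, ckA3, ckA4, ckA5, ckA6, ckA7, ckA8, ckA9, ckA10]

theorem ckB : ∀ t, t < 11 → chk zA zB 7 (wd zB) (sl zB) t true (!Nat.beq t 0) = true := by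
  intro t ht
  interval_cases t
  exacts [ckB0, ckB1, ckB2, ckB3, ckB4, ckB5, ckB6, ckB7, ckB8, ckB9, ckB10]

theorem ckC_of {x t : ℕ} {l1 l2 : List ℕ}
    (h1 : (l1.all fun u => chk zA zB 7 5776 (ini x t) u true false) = true)
    (h2 : (l2.all fun u => chk zA zB 7 5776 (ini x t) u true false) = true)
    (h : ∀ u, u < 11 → u ≠ t → u ∈ l1 ∨ u ∈ l2) :
    ∀ u, u < 11 → u ≠ t → chk zA zB 7 5776 (ini x t) u true false = true := fun u hu hne =>
  (h u hu hne).elim (List.all_eq_true.1 h1 u) (List.all_eq_true.1 h2 u)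

theorem ckC : ∀ x, x = 1 ∨ x = 10 → ∀ t, t = 1 ∨ t = 10 → ∀ u, u < 11 → u ≠ t →
    chk zA zB 7 5776 (ini x t) u true false = true := by
  rintro x (rfl | rfl) t (rfl | rfl)
  · exact ckC_of ckC1_1_0 ckC1_1_1 (by decide)
  · exact ckC_of ckC1_10_0 ckC1_10_1 (by decide)
  · exact ckC_of ckC10_1_0 ckC10_1_1 (by decide)
  · exact ckC_of ckC10_10_0 ckC10_10_1 (by decide)

end J3

theorem blk_J3 : St_J3 := fun z z2 z1 L hT h0 hne hz =>
  ⟨J3.big_of J3.ckA J3.ckB J3.ckC (Or.inl rfl) z z2 z1 L hT h0 hne hz,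
    J3.big_of J3.ckA J3.ckB J3.ckC (Or.inr rfl) z z2 z1 L hT h0 hne hz⟩

end Pool.Agent.OD66
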