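import Pool.Agent.Lib.OD.Blue

set_option autoImplicit false

namespace Pool.Agent.OD66

lemma kbr_isQ_mul : ∀ c x : Z, isQ c = true → isQ (c * x) = isQ x := by decide

lemma kbr_rowOK {e : Bool} {R S : Z → Z → Prop} (h : ∀ x y, R x y → S x y) (hR : RowOK e R) :
    RowOK e S := by
  obtain ⟨m, hA, h0, h1, h2⟩ := hR
  exact ⟨m, hA, fun y hy => h _ _ (h0 y hy), fun y hy => h _ _ (h1 y hy),
    fun y hy => h _ _ (h2 y hy)⟩

lemma kbr_ty2 {e : Bool} {R S : Z → Z → Prop} (h : ∀ x y, R x y → S x y) (hS : Sym S)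
    (hR : Ty2 e R) : Ty2 e S :=
  ⟨hS, kbr_rowOK h hR.2.1, kbr_rowOK (fun x y => h y x) hR.2.2⟩

lemma kbr_flex {M : Ter} (h : SymT M) : Sym (flex M) := by
  intro c hc x y hxy r
  obtain ⟨c', h1⟩ : ∃ c' : Z, c * c' = 1 := by
    revert c
    decide
  have := h c hc x y (c' * r) (hxy _)
  rwa [← mul_assoc, h1, one_mul] at this

lemma kbr_m1 {e : Bool} {M N : Ter} (h : ∀ x y r, M x y r → N x y r) (hM : M1 e M) : M1 e N := by
  obtain ⟨e1, e2, R1, R2, a, b, c, d⟩ := hM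
  exact ⟨e1, e2, R1, R2, a, b, c, fun x w y r p q s => h _ _ _ (d x w y r p q s)⟩

lemma kbr_m2 {e : Bool} {M N : Ter} (h : ∀ x y r, M x y r → N x y r) (hM : M2 e M) : M2 e N := by
  refine ⟨fun S hS => ?_, fun d μ => ?_⟩
  · obtain ⟨x, y, a, b⟩ := hM.1 S hS
    exact ⟨x, y, a, fun r => h _ _ _ (b r)⟩
  · obtain ⟨x, y, a, b⟩ := hM.2 d μ
    exact ⟨x, y, a, h _ _ _ b⟩

lemma kbr_chain_app (A B : List (Ter × Z)) (x p r : Z) (hB : chain B x p r) :
    ∀ y, chain A p y r → chain (A ++ B) x y r := by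
  induction A with
  | nil => intro y hy; obtain rfl : p = y := hy; exact hB
  | cons z A ih => rintro y ⟨q, h1, h2⟩; exact ⟨q, ih q h1, h2⟩

lemma kbr_ch_snoc (c : Z) (R : Z → Z → Prop) (t : Z) (A : List ((Z → Z → Prop) × Z)) (x : Z) :
    ∀ y, ch (scale c (A ++ [(R, t)])) x y →
      ∃ q, R (x - c * t) (q - c * t) ∧ ch (scale c A) q y := by
  induction A with
  | nil =>
    rintro y ⟨p, h1, h2⟩
    obtain rfl : x = p := h1
    exact ⟨y, h2, rfl⟩
  | cons z A ih =>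
    rintro y ⟨p, h1, h2⟩
    obtain ⟨q, h3, h4⟩ := ih p h1
    exact ⟨q, h3, p, h4, h2⟩

lemma kbr_chain_sym (c c' : Z) (hc : isQ c = true) (L : List (Ter × Z))
    (hL : ∀ z ∈ L, SymT z.1) (x r : Z) : ∀ y, chain (L.map fun z => (z.1, c' * z.2)) x y r →
      chain (L.map fun z => (z.1, c * c' * z.2)) (c * x) (c * y) (c * r) := by
  induction L with
  | nil => intro y hy; obtain rfl : x = y := hy; rfl
  | cons z L ih =>
    rintro y ⟨p, h1, h2⟩
    refine ⟨c * p, ih (fun z hz => hL z (List.mem_cons_of_mem _ hz)) p h1, ?_⟩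
    have := hL z List.mem_cons_self c hc _ _ _ h2
    simpa only [mul_sub, mul_assoc] using this

lemma kbr_symT (e : Bool) (L : List (Ter × Z)) (hL : ∀ z ∈ L, SymT z.1) : SymT (br e L) := by
  rintro c hc x y r ⟨h1, c', h2, h3⟩
  refine ⟨by rw [kbr_isQ_mul c x hc, kbr_isQ_mul c y hc]; exact h1, c * c',
    by rw [kbr_isQ_mul c c' hc]; exact h2, kbr_chain_sym c c' hc L hL x r y h3⟩

section

variable {W : Type} {o : W → W → Bool}

lemma kbr_bot_app (A B : List (W × W × Ter)) : ∀ u, bot (A ++ B) u = bot B (bot A u) := by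
  induction A with
  | nil => exact fun _ => rfl
  | cons z A ih => exact fun _ => ih _

lemma kbr_stk_app (A B : List (W × W × Ter)) :
    ∀ u, StkU o A u → StkU o B (bot A u) → StkU o (A ++ B) u := by
  induction A with
  | nil => exact fun _ _ h => h
  | cons z A ih => exact fun _ h1 h2 => ⟨h1.1, ih _ h1.2 h2⟩

lemma kbr_deg_app (A B : List (W × W × Ter)) :
    ∀ u, AllDeg (A ++ B) u → AllDeg B (bot A u) := by
  induction A with
  | nil => exact fun _ h => h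
  | cons z A ih => exact fun _ h => ih _ h.2

lemma kbr_nz_app (t : W → Z) (A B : List (W × W × Ter)) :
    ∀ u, NZ t (A ++ B) u → NZ t A u ∨ NZ t B (bot A u) := by
  induction A with
  | nil => exact fun _ h => Or.inr h
  | cons z A ih =>
    rintro u (h | h)
    · exact Or.inl (Or.inl h)
    · exact (ih _ h).imp_left Or.inr

lemma kbr_deg_bot (A : List (W × W × Ter)) : ∀ u, AllDeg A u → bot A u = u := by
  induction A with
  | nil => exact fun _ _ => rfl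
  | cons z A ih => exact fun _ h => (ih _ h.2).trans h.1.1

lemma kbr_stk_sym (t : W → Z) (A : List (W × W × Ter)) : ∀ u, StkU o A u →
    ∀ z ∈ A.map fun z => (z.2.2, t z.1), SymT z.1 := by
  induction A with
  | nil => intro _ _ z hz; simp at hz
  | cons z A ih =>
    intro u h y hy
    rcases List.mem_cons.1 hy with rfl | hy
    exacts [h.1.1, ih _ h.2 y hy]

lemma kbr_split {w : W} (es : List (W × W × Ter)) : ∀ u, StkM o w es u → StkU o es u ∨
    ∃ es2 z es1, es = es2 ++ z :: es1 ∧ StkU o es2 u ∧ EntM o w z.1 z.2.1 (bot es2 u) z.2.2 ∧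
      StkU o es1 z.2.1 := by
  induction es with
  | nil => exact fun _ _ => Or.inl trivial
  | cons z es ih =>
    rintro u (⟨h1, h2⟩ | ⟨h1, h2⟩)
    · rcases ih _ h2 with h | ⟨es2, y, es1, rfl, a, b, c⟩
      · exact Or.inl ⟨h1, h⟩
      · exact Or.inr ⟨z :: es2, y, es1, rfl, ⟨h1, a⟩, b, c⟩
    · exact Or.inr ⟨[], z, es, rfl, trivial, h1, h2⟩

/-- the list of the nondegenerate entries -/
lemma kbr_filter (t : W → Z) (es : List (W × W × Ter)) : ∀ u, StkU o es u →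
    ∃ L, AllTy L ∧ (∀ c x y r, ch (scale c L) x y →
      chain ((es.map fun z => (z.2.2, t z.1)).map fun z => (z.1, c * z.2)) x y r) ∧
      (NZ t es u → ∃ z ∈ L, z.2 ≠ 0) ∧ (AllDeg es u → L = []) ∧ (L = [] → bot es u = u) ∧
      ∀ z, L = [z] → (∃ e, Ty2 e z.1) ∨
        (bot es u ≠ u ∧ ∃ e, ∀ x y, T1 (o (bot es u) u) e x y → z.1 x y) := by
  induction es with
  | nil =>
    exact fun u _ => ⟨[], fun z hz => by simp at hz, fun c x y r h => h, fun h => h.elim,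
      fun _ => rfl, fun _ => rfl, fun z hz => by simp at hz⟩
  | cons z es ih =>
    obtain ⟨v, a, M⟩ := z
    rintro u ⟨⟨s1, -, s2⟩, h2⟩
    obtain ⟨L, l1, l2, l3, l4, l5, l6⟩ := ih a h2
    by_cases hd : a = u ∧ K0 M
    · obtain ⟨rfl, hk⟩ := hd
      refine ⟨L, l1, fun c x y r h => ⟨y, l2 c x y r h, hk _ _⟩, ?_, fun h => l4 h.2, l5, l6⟩
      rintro (h | h)
      exacts [(h.1 ⟨rfl, hk⟩).elim, l3 h]
    replace s2 := s2.resolve_left hd
    refine ⟨(flex M, t v) :: L, fun y hy => ?_, ?_, ?_, fun h => (hd h.1).elim,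
      fun h => by simp at h, fun y hy => ?_⟩
    · rcases List.mem_cons.1 hy with rfl | hy
      · rcases s2 with h | h
        exacts [⟨_, Or.inl ⟨kbr_flex s1, _, fun x y hxy r => h.2 x y r hxy⟩⟩, ⟨_, Or.inr h⟩]
      · exact l1 y hy
    · rintro c x y r ⟨p, a1, a2⟩
      exact ⟨p, l2 c x p r a1, a2 _⟩
    · rintro (h | h)
      · exact ⟨_, List.mem_cons_self, h.2⟩
      · obtain ⟨y, a1, a2⟩ := l3 h
        exact ⟨y, List.mem_cons_of_mem _ a1, a2⟩
    · obtain ⟨rfl, rfl⟩ := List.cons_eq_cons.1 hy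
      have hb : bot ((v, a, M) :: es) u = a := l5 rfl
      rw [hb]
      rcases s2 with h | h
      exacts [Or.inr ⟨h.1, _, fun x y hxy r => h.2 x y r hxy⟩, Or.inl ⟨_, h⟩]

end

theorem blk_KBRU (h1 : St_BIN) (h2 : St_OP) : St_KBRU := by
  intro W o v u t es hs hn
  obtain ⟨L, l1, l2, l3, l4, l5, l6⟩ := kbr_filter t es u hs
  have hS := kbr_symT (xor (o v (bot es u)) (o v u)) _ (kbr_stk_sym t es u hs)
  refine ⟨hS, fun x y r h => h.1, ?_⟩
  rcases hn with hn | hn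
  · obtain rfl := l4 hn
    refine Or.inl ⟨l5 rfl, fun x r => ⟨by rw [l5 rfl]; simp, 1, rfl, l2 1 x x r rfl⟩⟩
  have hz := l3 hn
  by_cases hl : 2 ≤ L.length ∨ ∀ z ∈ L, ∃ e, Ty2 e z.1
  · refine Or.inr (Or.inr (kbr_ty2 ?_ (kbr_flex hS) ((h1 L l1 hz _).2 hl)))
    rintro x y ⟨a, c, b, d⟩ r
    exact ⟨a, c, b, l2 c x y r d⟩
  obtain ⟨z, rfl⟩ : ∃ z, L = [z] := by
    rcases L with _ | ⟨z, _ | ⟨y, L⟩⟩
    · simp at hz
    · exact ⟨z, rfl⟩
    · exact (hl (Or.inl (by simp))).elim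
  obtain ⟨a, e, b⟩ := (l6 z rfl).resolve_left fun h => hl (Or.inr (by simpa using h))
  refine Or.inr (Or.inl ⟨a, fun x y r hxy => ?_⟩)
  obtain ⟨c, c1, c2⟩ := h2.1 _ e _ z.2 (by simpa using hz) x y hxy
  exact ⟨hxy.2, c, c1, l2 c x y r ⟨x, rfl, b _ _ c2⟩⟩

theorem blk_KBRM (h0 : St_KBRU) (h1 : St_BIN) (h2 : St_JN) (h3 : St_RES) : St_KBRM := by
  intro W o w v u t es hs hn
  rcases kbr_split es u hs with h | ⟨es2, ⟨v0, a0, M⟩, es1, rfl, s2, ⟨m1, m2, m3⟩, s1⟩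
  · exact Or.inl (h0 W o v u t es h hn)
  by_cases hd : a0 = bot es2 u ∧ K0 M
  · exact Or.inl (h0 W o v u t _ (kbr_stk_app _ _ u s2 ⟨⟨m1, m2, Or.inl hd⟩, s1⟩) hn)
  replace hn := hn.resolve_left fun h => hd (kbr_deg_app _ _ u h).1
  obtain ⟨L1, a1, a2, a3, -, a5, -⟩ := kbr_filter t es1 a0 s1
  obtain ⟨L2, b1, b2, b3, -, -, -⟩ := kbr_filter t es2 u s2
  have hz : t v0 ≠ 0 ∨ ∃ z ∈ L1 ++ L2, z.2 ≠ 0 := by
    rcases kbr_nz_app t _ _ u hn with h | h | h
    · obtain ⟨z, c1, c2⟩ := b3 h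
      exact Or.inr ⟨z, List.mem_append_right _ c1, c2⟩
    · exact Or.inl h.2
    · obtain ⟨z, c1, c2⟩ := a3 h
      exact Or.inr ⟨z, List.mem_append_left _ c1, c2⟩
  have hb : bot (es2 ++ (v0, a0, M) :: es1) u = bot es1 a0 := kbr_bot_app _ _ u
  rw [hb]
  generalize he : xor (o v (bot es1 a0)) (o v u) = e
  have key : ∀ c x p q y r, xor (isQ x) (isQ y) = e → isQ c = true → ch (scale c L1) x p →
      M (p - c * t v0) (q - c * t v0) (r - c * t v0) → ch (scale c L2) q y →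
      br e ((es2 ++ (v0, a0, M) :: es1).map fun z => (z.2.2, t z.1)) x y r := by
    intro c x p q y r k1 k2 k3 k4 k5
    refine ⟨k1, c, k2, ?_⟩
    rw [List.map_append, List.map_append]
    refine kbr_chain_app _ _ x q r ?_ y (b2 c q y r k5)
    exact ⟨p, a2 c x p r k3, k4⟩
  have ty : ∀ {e' R}, Ty e' R → AllTy (L2 ++ [(R, t v0)]) := fun h z hz => by
    rcases List.mem_append.1 hz with hz | hz
    · exact b1 z hz
    · obtain rfl := List.mem_singleton.1 hz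
      exact ⟨_, h⟩
  refine Or.inr ⟨kbr_symT _ _ fun z hz => ?_, by rw [he]; exact fun x y r h => h.1, ?_⟩
  · rw [List.map_append, List.mem_append, List.map_cons, List.mem_cons] at hz
    rcases hz with hz | rfl | hz
    exacts [kbr_stk_sym t _ _ s2 z hz, m1, kbr_stk_sym t _ _ s1 z hz]
  rw [he]
  rcases m3 with ⟨m3, R, r1, r2⟩ | ⟨e1, e2, R1, R2, -, r1, r2, r3⟩ | m3
  · have hz' : ∃ z ∈ L1 ++ (L2 ++ [(R, t v0)]), z.2 ≠ 0 := by
      rcases hz with h | ⟨z, c1, c2⟩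
      · exact ⟨(R, t v0), by simp, h⟩
      · exact ⟨z, by rw [← List.append_assoc]; exact List.mem_append_left _ c1, c2⟩
    have k2 : ∀ x y r, jn e L1 (L2 ++ [(R, t v0)]) x y r →
        br e ((es2 ++ (v0, a0, M) :: es1).map fun z => (z.2.2, t z.1)) x y r := by
      rintro x y r ⟨k1, c, k2, p, k3, k4, k5⟩
      obtain ⟨q, k6, k7⟩ := kbr_ch_snoc c R _ L2 p y k4
      exact key c x p q y r k1 k2 k3 (r2 _ _ _ k6 fun h => k5 (sub_left_injective h)) k7
    by_cases hL : L1 = []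
    · subst hL
      refine Or.inl ⟨(a5 rfl).trans m3, _, (h1 _ (ty r1) hz' e).1, ?_⟩
      rintro x y r ⟨k1, c, k3, k4⟩ k5
      exact k2 x y r ⟨k1, c, k3, x, rfl, k4, k5⟩
    · exact Or.inr ((h2 L1 _ a1 (ty r1) hL (by simp) hz' e).imp (kbr_m1 k2) (kbr_m2 k2))
  · have k2 : ∀ x y r, jn e ((R1, t v0) :: L1) (L2 ++ [(R2, t v0)]) x y r →
        br e ((es2 ++ (v0, a0, M) :: es1).map fun z => (z.2.2, t z.1)) x y r := by
      rintro x y r ⟨k1, c, k2, p', ⟨p, k3, k8⟩, k4, k5⟩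
      obtain ⟨q, k6, k7⟩ := kbr_ch_snoc c R2 _ L2 p' y k4
      exact key c x p q y r k1 k2 k3 (r3 _ _ _ _ k8 k6 fun h => k5 (sub_left_injective h)) k7
    refine Or.inr ((h2 _ _ (fun z hz => ?_) (ty r2) (by simp) (by simp) ?_ e).imp (kbr_m1 k2)
      (kbr_m2 k2))
    · rcases List.mem_cons.1 hz with rfl | hz
      exacts [⟨_, r1⟩, a1 z hz]
    · rcases hz with h | ⟨z, c1, c2⟩
      · exact ⟨(R1, t v0), by simp, h⟩
      · refine ⟨z, List.mem_cons_of_mem _ ?_, c2⟩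
        change z ∈ L1 ++ (L2 ++ [(R2, t v0)])
        rw [← List.append_assoc]
        exact List.mem_append_left _ c1
  · refine Or.inr (Or.inr (kbr_m2 ?_ (h3 L1 L2 M (t v0) _ a1 b1 m1 m3 hz e)))
    rintro x y r ⟨k1, c, k2, p, q, k3, k4, k5⟩
    exact key c x p q y r k1 k2 k3 k4 k5

end Pool.Agent.OD66
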