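import Pool.Agent.Lib.OD.Blue

set_option autoImplicit false

namespace Pool.Agent.OD66

open Equiv Pool.Agent.Lib.MP_bfaad3_co

theorem peeln_rot {W : Type} (l l' : List W) (x y z : W) (hxz : x ≠ z)
    (h : l' ++ [x] = (l ++ [z]).rotate 1) : l' ++ [y, x] = (l ++ [z, y]).rotate 1 := by
  cases l with
  | nil =>
    have h1 := congrArg List.length h
    simp only [List.nil_append, List.length_append, List.length_cons, List.length_nil,
      List.length_rotate] at h1
    have h2 : l' = [] := List.length_eq_zero_iff.mp (by omega)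
    subst h2
    simp at h
    exact absurd h hxz
  | cons a t =>
    simp only [List.cons_append, List.rotate_cons_succ, List.rotate_zero] at h ⊢
    obtain ⟨h1, h2⟩ := List.append_inj' h rfl
    have h3 : x = a := by simpa using h2
    subst h1
    subst h3
    simp

theorem blk_PEELN : St_PEELN := by
  intro D W _ al ph be T A cs c H hy
  have hc : c ∈ A ∧ al c ∉ A := (H.bd c).mpr (by simp)
  have hc1 : ph c ∈ A := (H.finv c).mp hc.1
  have hc2 : ph (ph c) ∈ A := (H.finv _).mp hc1
  have ex : be (ph c) = be (al c) := T.hd c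
  have ey : be (ph (ph c)) = be (al (ph c)) := T.hd (ph c)
  have ez : be c = be (al (ph (ph c))) := by
    rw [← T.hd (ph (ph c)), T.ph3]
  have hxz : be (al c) ≠ be c := T.nl c
  have hyx : be (al (ph c)) ≠ be (ph c) := T.nl _
  have hzy : be (al (ph (ph c))) ≠ be (ph (ph c)) := T.nl _
  have hhead : ∀ d ∈ cs ++ [c], be (al d) ∈ (cs ++ [c]).map be := by
    intro d hd
    have h1 : be (al d) ∈ (cs ++ [c]).map (fun d => be (al d)) := List.mem_map.mpr ⟨d, hd, rfl⟩
    rw [H.cyc] at h1
    exact List.mem_rotate.mp h1
  have n1 : ph c ∉ cs ++ [c] := fun h => hy (ey ▸ hhead _ h)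
  have n2 : ph (ph c) ∉ cs ++ [c] := fun h => hy (List.mem_map.mpr ⟨_, h, rfl⟩)
  have a1 : al (ph c) ∈ A := by
    by_contra h
    exact n1 ((H.bd _).mp ⟨hc1, h⟩)
  have a2 : al (ph (ph c)) ∈ A := by
    by_contra h
    exact n2 ((H.bd _).mp ⟨hc2, h⟩)
  have f1 : al (ph c) ∉ ({c, ph c, ph (ph c)} : Set D) := by
    simp only [Set.mem_insert_iff, Set.mem_singleton_iff]
    rintro (h | h | h)
    · apply hzy
      rw [← ez, ey, h]
    · exact hyx (by rw [h])
    · apply hxz
      have h2 : ph c = al (ph (ph c)) := by rw [← h, T.al2]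
      rw [← ex, ez, ← h2]
  have f2 : al (ph (ph c)) ∉ ({c, ph c, ph (ph c)} : Set D) := by
    simp only [Set.mem_insert_iff, Set.mem_singleton_iff]
    rintro (h | h | h)
    · apply hc.2
      rw [← h, T.al2]
      exact hc2
    · apply hxz
      rw [← ex, ez, h]
    · exact hzy (by rw [h])
  have hnd := H.nd
  have hcn : c ∉ cs := by
    intro h
    rw [List.map_append, List.nodup_append] at hnd
    exact hnd.2.2 (be c) (List.mem_map.mpr ⟨c, h, rfl⟩) (be c) (by simp) rfl
  have hF : ∀ d, d ∈ ({c, ph c, ph (ph c)} : Set D) ↔ ph d ∈ ({c, ph c, ph (ph c)} : Set D) := by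
    intro d
    simp only [Set.mem_insert_iff, Set.mem_singleton_iff]
    constructor
    · rintro (h | h | h)
      · exact Or.inr (Or.inl (by rw [h]))
      · exact Or.inr (Or.inr (by rw [h]))
      · exact Or.inl (by rw [h, T.ph3])
    · rintro (h | h | h)
      · refine Or.inr (Or.inr ?_)
        rw [← h, T.ph3]
      · exact Or.inl (ph.injective h)
      · exact Or.inr (Or.inl (ph.injective h))
  refine ⟨by simp, ?_, ?_, ?_, ?_, ?_⟩
  · intro d
    rw [Set.mem_sdiff, Set.mem_sdiff, H.finv d, hF d]
  · intro d
    constructor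
    · rintro ⟨⟨hA, hnF⟩, hal⟩
      by_cases h : al d ∈ A
      · have h2 : al d ∈ ({c, ph c, ph (ph c)} : Set D) := by
          by_contra h3
          exact hal ⟨h, h3⟩
        simp only [Set.mem_insert_iff, Set.mem_singleton_iff] at h2
        rcases h2 with h2 | h2 | h2
        · exfalso
          apply hc.2
          rw [← h2, T.al2]
          exact hA
        · have h3 : d = al (ph c) := by rw [← h2, T.al2]
          simp [h3]
        · have h3 : d = al (ph (ph c)) := by rw [← h2, T.al2]
          simp [h3]
      · have h2 := (H.bd d).mp ⟨hA, h⟩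
        rw [List.mem_append] at h2
        rcases h2 with h2 | h2
        · exact List.mem_append_left _ h2
        · exfalso
          apply hnF
          have h3 : d = c := by simpa using h2
          simp [h3]
    · intro hd
      rw [List.mem_append] at hd
      rcases hd with hd | hd
      · have h2 := (H.bd d).mpr (List.mem_append_left _ hd)
        refine ⟨⟨h2.1, ?_⟩, fun h => h2.2 h.1⟩
        simp only [Set.mem_insert_iff, Set.mem_singleton_iff]
        rintro (h | h | h)
        · exact hcn (h ▸ hd)
        · exact n1 (List.mem_append_left _ (h ▸ hd))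
        · exact n2 (List.mem_append_left _ (h ▸ hd))
      · simp only [List.mem_cons, List.not_mem_nil, or_false] at hd
        rcases hd with hd | hd
        · subst hd
          refine ⟨⟨a2, f2⟩, fun h => h.2 ?_⟩
          rw [T.al2]
          simp
        · subst hd
          refine ⟨⟨a1, f1⟩, fun h => h.2 ?_⟩
          rw [T.al2]
          simp
  · have h := H.cyc
    simp only [List.map_append, List.map_cons, List.map_nil] at h ⊢
    rw [T.al2, T.al2, ← ez, ← ey, ex]
    exact peeln_rot _ _ _ _ _ hxz h
  · have e1 : (cs ++ [al (ph (ph c)), al (ph c)]).map be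
        = (cs ++ [c]).map be ++ [be (ph (ph c))] := by
      simp only [List.map_append, List.map_cons, List.map_nil, List.append_assoc,
        List.cons_append, List.nil_append]
      rw [← ez, ← ey]
    rw [e1, List.nodup_append]
    refine ⟨hnd, by simp, ?_⟩
    intro a ha b hb hab
    have h3 : b = be (ph (ph c)) := by simpa using hb
    exact hy (h3 ▸ hab ▸ ha)
  · intro B hB h1 h2
    exact H.nc B (fun d hd => (hB hd).1) h1 h2

end Pool.Agent.OD66
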