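import Pool.Agent.Lib.OD.Blue

set_option autoImplicit false

namespace Pool.Agent.OD66

open Equiv Pool.Agent.Lib.MP_bfaad3_co

section

variable {D W : Type} (al : Perm D) (be : D → W)

/-- the darts of the list form a walk from `u` to `v` -/
def peelsWalk : List D → W → W → Prop
  | [], u, v => u = v
  | d :: l, u, v => be d = u ∧ peelsWalk l (be (al d)) v

theorem peels_walk_iff (t : List D) : ∀ (d : D) (v : W),
    peelsWalk al be (d :: t) (be d) v ↔
      (d :: t).map (fun d => be (al d)) = t.map be ++ [v] := by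
  induction t with
  | nil => intro d v; simp [peelsWalk]
  | cons g t ih =>
    intro d v
    have h := ih g v
    simp only [peelsWalk, true_and, List.map_cons, List.cons_append, List.cons.injEq] at h ⊢
    constructor
    · rintro ⟨h1, h2⟩
      exact ⟨h1.symm, h.1 h2⟩
    · rintro ⟨h1, h2⟩
      exact ⟨h1.symm, h.2 h2⟩

theorem peels_walk_append (l1 l2 : List D) : ∀ u v : W,
    peelsWalk al be (l1 ++ l2) u v ↔ ∃ w, peelsWalk al be l1 u w ∧ peelsWalk al be l2 w v := by
  induction l1 with
  | nil => intro u v; simp [peelsWalk]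
  | cons d t ih =>
    intro u v
    simp only [List.cons_append, peelsWalk, ih]
    constructor
    · rintro ⟨h1, w, h2, h3⟩
      exact ⟨w, ⟨h1, h2⟩, h3⟩
    · rintro ⟨w, ⟨h1, h2⟩, h3⟩
      exact ⟨h1, w, h2, h3⟩

theorem peels_cyc_iff (d : D) (t : List D) :
    (d :: t).map (fun d => be (al d)) = ((d :: t).map be).rotate 1 ↔
      peelsWalk al be (d :: t) (be d) (be d) := by
  rw [peels_walk_iff]
  simp

end

section

variable {D W : Type} {al ph : Perm D} {be : D → W}

theorem peels_face (hT : TMap al ph be) (c d : D) :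
    d ∈ ({c, ph c, ph (ph c)} : Set D) ↔ ph d ∈ ({c, ph c, ph (ph c)} : Set D) := by
  simp only [Set.mem_insert_iff, Set.mem_singleton_iff]
  constructor
  · rintro (h | h | h)
    · exact Or.inr (Or.inl (by rw [h]))
    · exact Or.inr (Or.inr (by rw [h]))
    · exact Or.inl (by rw [h, hT.ph3])
  · rintro (h | h | h)
    · refine Or.inr (Or.inr ?_)
      rw [← h, hT.ph3]
    · exact Or.inl (ph.injective h)
    · exact Or.inr (Or.inl (ph.injective h))

/-- at a vertex off the curve all darts lie on the same side -/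
theorem peels_key [Finite D] (hT : TMap al ph be) (C : List D) (S : Set D)
    (hc : C.map (fun d => be (al d)) = (C.map be).rotate 1)
    (h1 : ∀ d, d ∈ S ↔ ph d ∈ S) (h2 : ∀ d, (d ∈ S ∧ al d ∉ S) ↔ d ∈ C)
    (d g : D) (hv : be d ∉ C.map be) (hg : be d = be g) (hd : d ∉ S) : g ∉ S := by
  have step : ∀ f, be f = be d → f ∉ S → be ((ph * al) f) = be d ∧ (ph * al) f ∉ S := by
    intro f hf hfS
    refine ⟨?_, ?_⟩
    · rw [Perm.mul_apply, hT.hd, hT.al2, hf]
    · rw [Perm.mul_apply, ← h1]
      intro ha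
      have hC : al f ∈ C := (h2 _).1 ⟨ha, by rw [hT.al2]; exact hfS⟩
      have hm : be (al (al f)) ∈ C.map (fun d => be (al d)) := List.mem_map.2 ⟨_, hC, rfl⟩
      rw [hc, List.mem_rotate, hT.al2, hf] at hm
      exact hv hm
  have all : ∀ n : ℕ, be (((ph * al) ^ n) d) = be d ∧ ((ph * al) ^ n) d ∉ S := by
    intro n
    induction n with
    | zero => exact ⟨rfl, hd⟩
    | succ n ih =>
      rw [pow_succ', Perm.mul_apply]
      exact step _ ih.1 ih.2
  obtain ⟨n, -, hn⟩ := (hT.vx d g hg).exists_pow_eq'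
  rw [← hn]
  exact (all n).2

/-- walking back along darts off the curve -/
theorem peels_back [Finite D] (hT : TMap al ph be) (C : List D) (S : Set D)
    (hc : C.map (fun d => be (al d)) = (C.map be).rotate 1)
    (h1 : ∀ d, d ∈ S ↔ ph d ∈ S) (h2 : ∀ d, (d ∈ S ∧ al d ∉ S) ↔ d ∈ C)
    (c : D) (hcS : c ∉ S) (l : List D) : ∀ u, peelsWalk al be l u (be c) →
    (∀ d ∈ l, d ∉ C ∧ be (al d) ∉ C.map be) →
    (∃ g, be g = u ∧ g ∉ S) ∧ ∀ d ∈ l, d ∉ S := by
  induction l with
  | nil =>
    intro u hu _
    exact ⟨⟨c, hu.symm, hcS⟩, by simp⟩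
  | cons d t ih =>
    intro u hu hl
    obtain ⟨⟨g, hg, hgS⟩, ht⟩ := ih _ hu.2 fun f hf => hl f (List.mem_cons_of_mem _ hf)
    have hd := hl d List.mem_cons_self
    have ha : al d ∉ S := peels_key hT C S hc h1 h2 g (al d) (by rw [hg]; exact hd.2) hg hgS
    have hdS : d ∉ S := fun h => hd.1 ((h2 d).1 ⟨h, ha⟩)
    refine ⟨⟨d, hu.1, hdS⟩, ?_⟩
    intro f hf
    rcases List.mem_cons.1 hf with rfl | hf
    · exact hdS
    · exact ht f hf

end

theorem blk_PEELS (hJ : St_JORD) : St_PEELS := by
  intro D W _ al ph be hT A cs1 cs2 e c hA he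
  have hxy : be (ph (ph c)) ≠ be (ph c) := by rw [hT.hd (ph c)]; exact hT.nl _
  have hz : be (al (ph (ph c))) = be c := by rw [← hT.hd, hT.ph3]
  have hyz : be c ≠ be (ph (ph c)) := by rw [← hz]; exact hT.nl _
  have hzx : be (ph c) ≠ be c := by rw [hT.hd]; exact hT.nl _
  have hcL : c ∈ cs1 ++ e :: (cs2 ++ [c]) := by simp
  have hcA : c ∈ A := ((hA.bd c).2 hcL).1
  have hcB : al c ∉ A := ((hA.bd c).2 hcL).2
  have hpA : ph c ∈ A := (hA.finv _).1 hcA
  have hqA : ph (ph c) ∈ A := (hA.finv _).1 hpA
  have hnd := hA.nd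
  have hinj := List.inj_on_of_nodup_map hnd
  -- the first arc is not empty
  obtain ⟨a, t1, rfl⟩ : ∃ a t1, cs1 = a :: t1 := by
    rcases cs1 with _ | ⟨a, t1⟩
    · exfalso
      have h := (peels_cyc_iff al be e (cs2 ++ [c])).1 hA.cyc
      rw [← List.cons_append, peels_walk_append] at h
      obtain ⟨w, -, h2, h3⟩ := h
      exact hxy (by rw [← he, hT.hd]; exact (Eq.symm h3))
    · exact ⟨a, t1, rfl⟩
  have hw := (peels_cyc_iff al be a (t1 ++ e :: (cs2 ++ [c]))).1 hA.cyc
  rw [← List.cons_append, peels_walk_append] at hw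
  obtain ⟨w, hw1, hw2⟩ := hw
  have hwe : be e = w := hw2.1
  subst hwe
  rw [← List.cons_append, peels_walk_append] at hw2
  obtain ⟨w, hw2, hw3, hw4⟩ := hw2
  subst hw3
  have hax : be (ph c) = be a := by rw [hT.hd]; exact hw4
  -- the two new closed walks
  have hc1 : (a :: t1 ++ [al (ph c)]).map (fun d => be (al d)) =
      ((a :: t1 ++ [al (ph c)]).map be).rotate 1 := by
    rw [List.cons_append, peels_cyc_iff, ← List.cons_append, peels_walk_append]
    refine ⟨_, hw1, ?_, ?_⟩
    · rw [he, hT.hd (ph c)]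
    · show be (al (al (ph c))) = be a
      rw [hT.al2, hax]
  have hc2 : (e :: (cs2 ++ [al (ph (ph c))])).map (fun d => be (al d)) =
      ((e :: (cs2 ++ [al (ph (ph c))])).map be).rotate 1 := by
    rw [peels_cyc_iff, ← List.cons_append, peels_walk_append]
    refine ⟨_, hw2, hz, ?_⟩
    show be (al (al (ph (ph c)))) = be e
    rw [hT.al2, he]
  have hm1 : (a :: t1 ++ [al (ph c)]).map be = (a :: t1).map be ++ [be e] := by
    rw [List.map_append, he, hT.hd (ph c)]
    rfl
  have hm2 : (e :: (cs2 ++ [al (ph (ph c))])).map be = be e :: (cs2.map be ++ [be c]) := by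
    simp [hz]
  have hmL : (a :: t1 ++ e :: (cs2 ++ [c])).map be =
      ((a :: t1).map be ++ [be e]) ++ (cs2.map be ++ [be c]) := by simp
  have hmL' : (a :: t1 ++ e :: (cs2 ++ [c])).map be =
      (a :: t1).map be ++ be e :: (cs2.map be ++ [be c]) := by simp
  have hn1 : ((a :: t1 ++ [al (ph c)]).map be).Nodup := by
    rw [hm1]
    rw [hmL] at hnd
    exact (List.nodup_append.1 hnd).1
  have hn2 : ((e :: (cs2 ++ [al (ph (ph c))])).map be).Nodup := by
    rw [hm2]
    rw [hmL'] at hnd
    exact (List.nodup_append.1 hnd).2.1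
  have hdis : ∀ v ∈ cs2.map be ++ [be c], v ∉ (a :: t1 ++ [al (ph c)]).map be := by
    intro v hv hv'
    rw [hm1] at hv'
    rw [hmL] at hnd
    exact (List.nodup_append.1 hnd).2.2 v hv' v hv rfl
  have hL := List.Nodup.of_map _ hnd
  have hs1 : ∀ d ∈ a :: t1, d ∈ a :: t1 ++ e :: (cs2 ++ [c]) :=
    fun d hd => List.mem_append_left _ hd
  have hs2 : ∀ d ∈ e :: cs2, d ∈ a :: t1 ++ e :: (cs2 ++ [c]) := by
    intro d hd
    refine List.mem_append_right _ ?_
    rw [← List.cons_append]
    exact List.mem_append_left _ hd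
  have hsplit : ∀ d ∈ a :: t1 ++ e :: (cs2 ++ [c]), d ∈ a :: t1 ∨ d ∈ e :: cs2 ∨ d = c := by
    intro d hd
    rcases List.mem_append.1 hd with h | h
    · exact Or.inl h
    · rw [← List.cons_append] at h
      rcases List.mem_append.1 h with h | h
      · exact Or.inr (Or.inl h)
      · exact Or.inr (Or.inr (List.mem_singleton.1 h))
  have h12 : ∀ d ∈ a :: t1, d ∉ e :: cs2 := by
    intro d hd hd'
    refine (List.nodup_append.1 hL).2.2 d hd d ?_ rfl
    rw [← List.cons_append]
    exact List.mem_append_left _ hd'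
  have h1c : c ∉ a :: t1 := fun hd =>
    (List.nodup_append.1 hL).2.2 c hd c (by simp) rfl
  have h2c : c ∉ e :: cs2 := by
    intro hd
    have h := (List.nodup_append.1 hL).2.1
    rw [← List.cons_append] at h
    exact (List.nodup_append.1 h).2.2 c hd c (by simp) rfl
  have hC1 : ∀ d, d ∈ a :: t1 ++ [al (ph c)] ↔ d ∈ a :: t1 ∨ d = al (ph c) := by
    intro d
    rw [List.mem_append, List.mem_singleton]
  have hC2 : ∀ d, d ∈ e :: (cs2 ++ [al (ph (ph c))]) ↔ d ∈ e :: cs2 ∨ d = al (ph (ph c)) := by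
    intro d
    rw [← List.cons_append, List.mem_append, List.mem_singleton]
  have hF : ∀ d, d ∈ ({c, ph c, ph (ph c)} : Set D) ↔ d = c ∨ d = ph c ∨ d = ph (ph c) := by
    intro d
    simp only [Set.mem_insert_iff, Set.mem_singleton_iff]
  have hal : ∀ d g, al d = g → d = al g := fun d g h => by rw [← h, hT.al2]
  have hinv : ∀ d, d ∈ A \ {c, ph c, ph (ph c)} ↔ ph d ∈ A \ {c, ph c, ph (ph c)} := by
    intro d
    rw [Set.mem_sdiff, Set.mem_sdiff, ← hA.finv, ← peels_face hT]
  -- degenerate sides
  have hP : al (ph c) ∉ A → a :: t1 = [ph c] := by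
    intro h
    have hp : ph c = a := hinj ((hA.bd _).1 ⟨hpA, h⟩) (hs1 a List.mem_cons_self) hax
    rcases t1 with _ | ⟨g, t⟩
    · rw [hp]
    · exfalso
      have hg : be g = be e := by
        have h3 : be g = be (al a) := hw1.2.1
        rw [h3, ← hp, he, hT.hd (ph c)]
      have hge : g = e := hinj (hs1 g (by simp)) (hs2 e List.mem_cons_self) hg
      exact h12 g (by simp) (by rw [hge]; exact List.mem_cons_self)
  have hQ : al (ph (ph c)) ∉ A → e = ph (ph c) ∧ cs2 = [] := by
    intro h
    have hq : e = ph (ph c) := hinj (hs2 e List.mem_cons_self) ((hA.bd _).1 ⟨hqA, h⟩) he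
    refine ⟨hq, ?_⟩
    rcases cs2 with _ | ⟨g, t⟩
    · rfl
    · exfalso
      have hg : be g = be c := by
        have h3 : be g = be (al e) := hw2.2.1
        rw [h3, hq, hz]
      have hgc : g = c := hinj (hs2 g (by simp)) hcL hg
      exact h2c (by rw [← hgc]; simp)
  have hqF : al (ph (ph c)) ∉ ({c, ph c, ph (ph c)} : Set D) := by
    rw [hF]
    rintro (h | h | h)
    · exact hcB (by rw [← hal _ _ h]; exact hqA)
    · exact hzx (by rw [← h, hz])
    · exact hyz (by rw [← hz, h])
  by_cases hp : al (ph c) ∈ A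
  · by_cases hq : al (ph (ph c)) ∈ A
    · -- two holes
      have hCA : ∀ d ∈ a :: t1 ++ [al (ph c)], d ∈ A := by
        intro d hd
        rcases (hC1 d).1 hd with h | h
        · exact ((hA.bd d).2 (hs1 d h)).1
        · rw [h]; exact hp
      obtain ⟨S, hS1, hS2⟩ := hJ D W al ph be hT (a :: t1 ++ [al (ph c)]) (by simp) hc1 hn1 (by
        intro d hd hd'
        rcases (hC1 d).1 hd with h | h
        · exact ((hA.bd d).2 (hs1 d h)).2 (hCA _ hd')
        · rw [h, hT.al2] at hd'
          rcases (hC1 _).1 hd' with h' | h'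
          · exact ((hA.bd _).2 (hs1 _ h')).2 hp
          · exact hT.nl (ph c) (by rw [← h']))
      have hap := (hS2 (al (ph c))).2 ((hC1 _).2 (Or.inr rfl))
      have hpS : ph c ∉ S := by
        have h := hap.2
        rwa [hT.al2] at h
      have hcS : c ∉ S := fun h => hpS ((hS1 c).1 h)
      have hqS : ph (ph c) ∉ S := fun h => hpS ((hS1 _).2 h)
      have hFS : ∀ d ∈ S, d ∉ ({c, ph c, ph (ph c)} : Set D) := by
        intro d hd hd'
        rcases (hF d).1 hd' with h | h | h
        · exact hcS (h ▸ hd)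
        · exact hpS (h ▸ hd)
        · exact hqS (h ▸ hd)
      have hout : ∀ d ∈ e :: cs2, d ∉ S := by
        refine (peels_back hT _ S hc1 hS1 hS2 c hcS (e :: cs2) _ hw2 ?_).2
        intro d hd
        refine ⟨?_, ?_⟩
        · intro h
          rcases (hC1 d).1 h with h | h
          · exact h12 d h hd
          · exact ((hA.bd d).2 (hs2 d hd)).2 (by rw [h, hT.al2]; exact hpA)
        · refine hdis _ ?_
          rw [← (peels_walk_iff al be cs2 e (be c)).1 hw2]
          exact List.mem_map.2 ⟨d, hd, rfl⟩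
      have haq : al (ph (ph c)) ∉ S :=
        peels_key hT _ S hc1 hS1 hS2 c _ (hdis _ (by simp)) hz.symm hcS
      refine ⟨(A \ {c, ph c, ph (ph c)}) ∩ S, (A \ {c, ph c, ph (ph c)}) \ S, ?_, ?_,
        Or.inr ⟨by simp, ?_, ?_, hc1, hn1, ?_⟩, Or.inr ⟨by simp, ?_, ?_, hc2, hn2, ?_⟩⟩
      · exact Set.disjoint_left.2 fun d h1 h2 => h2.2 h1.2
      · exact Set.inter_union_sdiff _ _
      · intro d
        rw [Set.mem_inter_iff, Set.mem_inter_iff, ← hinv, ← hS1]
      · intro d
        constructor
        · rintro ⟨⟨⟨hdA, hdF⟩, hdS⟩, hd2⟩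
          by_cases ha : al d ∈ S
          · have haA : al d ∉ A := fun h => hd2 ⟨⟨h, hFS _ ha⟩, ha⟩
            rcases hsplit d ((hA.bd d).1 ⟨hdA, haA⟩) with h | h | h
            · exact (hC1 d).2 (Or.inl h)
            · exact absurd hdS (hout d h)
            · exact absurd (h ▸ hdS) hcS
          · exact (hS2 d).1 ⟨hdS, ha⟩
        · intro hd
          have h := (hS2 d).2 hd
          exact ⟨⟨⟨hCA d hd, hFS d h.1⟩, h.1⟩, fun h' => h.2 h'.2⟩
      · exact fun B hB => hA.nc B fun d hd => (hB hd).1.1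
      · intro d
        rw [Set.mem_sdiff, Set.mem_sdiff (ph d), ← hinv, ← hS1]
      · intro d
        constructor
        · rintro ⟨⟨⟨hdA, hdF⟩, hdS⟩, hd2⟩
          by_cases haA : al d ∈ A
          · by_cases haF : al d ∈ ({c, ph c, ph (ph c)} : Set D)
            · rcases (hF _).1 haF with h | h | h
              · exact absurd (hal _ _ h ▸ hdA) hcB
              · exact absurd (by rw [hal _ _ h]; exact hap.1) hdS
              · exact (hC2 d).2 (Or.inr (hal _ _ h))
            · exfalso
              have haS : al d ∈ S := by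
                by_contra h
                exact hd2 ⟨⟨haA, haF⟩, h⟩
              rcases (hC1 _).1 ((hS2 _).1 ⟨haS, by rw [hT.al2]; exact hdS⟩) with h | h
              · exact ((hA.bd _).2 (hs1 _ h)).2 (by rw [hT.al2]; exact hdA)
              · exact hdF ((hF d).2 (Or.inr (Or.inl (al.injective h))))
          · rcases hsplit d ((hA.bd d).1 ⟨hdA, haA⟩) with h | h | h
            · exact absurd ((hS2 d).2 ((hC1 d).2 (Or.inl h))).1 hdS
            · exact (hC2 d).2 (Or.inl h)
            · exact absurd ((hF d).2 (Or.inl h)) hdF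
        · intro hd
          rcases (hC2 d).1 hd with h | h
          · have hb := (hA.bd d).2 (hs2 d h)
            refine ⟨⟨⟨hb.1, ?_⟩, hout d h⟩, fun h' => hb.2 h'.1.1⟩
            rw [hF]
            rintro (h' | h' | h')
            · exact h2c (h' ▸ h)
            · exact hb.2 (by rw [h']; exact hp)
            · exact hb.2 (by rw [h']; exact hq)
          · rw [h, hT.al2]
            exact ⟨⟨⟨hq, hqF⟩, haq⟩, fun h' => h'.1.2 ((hF _).2 (Or.inr (Or.inr rfl)))⟩
      · exact fun B hB => hA.nc B fun d hd => (hB hd).1.1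
    · -- the second side is an edge
      obtain ⟨hq1, hq2⟩ := hQ hq
      refine ⟨A \ {c, ph c, ph (ph c)}, ∅, by simp, by simp,
        Or.inr ⟨by simp, hinv, ?_, hc1, hn1, ?_⟩, Or.inl ⟨hq1, hq2, rfl⟩⟩
      · intro d
        constructor
        · rintro ⟨⟨hdA, hdF⟩, hd2⟩
          by_cases haA : al d ∈ A
          · have haF : al d ∈ ({c, ph c, ph (ph c)} : Set D) := by
              by_contra h
              exact hd2 ⟨haA, h⟩
            rcases (hF _).1 haF with h | h | h
            · exact absurd (hal _ _ h ▸ hdA) hcB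
            · exact (hC1 d).2 (Or.inr (hal _ _ h))
            · exact absurd (hal _ _ h ▸ hdA) hq
          · rcases hsplit d ((hA.bd d).1 ⟨hdA, haA⟩) with h | h | h
            · exact (hC1 d).2 (Or.inl h)
            · rw [hq2, hq1, List.mem_singleton] at h
              exact absurd ((hF d).2 (Or.inr (Or.inr h))) hdF
            · exact absurd ((hF d).2 (Or.inl h)) hdF
        · intro hd
          rcases (hC1 d).1 hd with h | h
          · have hb := (hA.bd d).2 (hs1 d h)
            refine ⟨⟨hb.1, ?_⟩, fun h' => hb.2 h'.1⟩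
            rw [hF]
            rintro (h' | h' | h')
            · exact h1c (h' ▸ h)
            · exact hb.2 (by rw [h']; exact hp)
            · exact h12 d h (by rw [h', ← hq1]; exact List.mem_cons_self)
          · rw [h, hT.al2]
            refine ⟨⟨hp, ?_⟩, fun h' => h'.2 ((hF _).2 (Or.inr (Or.inl rfl)))⟩
            rw [hF]
            rintro (h' | h' | h')
            · exact hcB (by rw [← hal _ _ h']; exact hpA)
            · exact hT.nl (ph c) (by rw [h'])
            · exact hq (by rw [← hal _ _ h']; exact hpA)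
      · exact fun B hB => hA.nc B fun d hd => (hB hd).1
  · have hp1 := hP hp
    by_cases hq : al (ph (ph c)) ∈ A
    · -- the first side is an edge
      refine ⟨∅, A \ {c, ph c, ph (ph c)}, by simp, by simp, Or.inl ⟨hp1, rfl⟩,
        Or.inr ⟨by simp, hinv, ?_, hc2, hn2, ?_⟩⟩
      · intro d
        constructor
        · rintro ⟨⟨hdA, hdF⟩, hd2⟩
          by_cases haA : al d ∈ A
          · have haF : al d ∈ ({c, ph c, ph (ph c)} : Set D) := by
              by_contra h
              exact hd2 ⟨haA, h⟩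
            rcases (hF _).1 haF with h | h | h
            · exact absurd (hal _ _ h ▸ hdA) hcB
            · exact absurd (hal _ _ h ▸ hdA) hp
            · exact (hC2 d).2 (Or.inr (hal _ _ h))
          · rcases hsplit d ((hA.bd d).1 ⟨hdA, haA⟩) with h | h | h
            · rw [hp1, List.mem_singleton] at h
              exact absurd ((hF d).2 (Or.inr (Or.inl h))) hdF
            · exact (hC2 d).2 (Or.inl h)
            · exact absurd ((hF d).2 (Or.inl h)) hdF
        · intro hd
          rcases (hC2 d).1 hd with h | h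
          · have hb := (hA.bd d).2 (hs2 d h)
            refine ⟨⟨hb.1, ?_⟩, fun h' => hb.2 h'.1⟩
            rw [hF]
            rintro (h' | h' | h')
            · exact h2c (h' ▸ h)
            · exact h12 d (by rw [hp1, h']; exact List.mem_cons_self) h
            · exact hb.2 (by rw [h']; exact hq)
          · rw [h, hT.al2]
            exact ⟨⟨hq, hqF⟩, fun h' => h'.2 ((hF _).2 (Or.inr (Or.inr rfl)))⟩
      · exact fun B hB => hA.nc B fun d hd => (hB hd).1
    · -- the hole is a single triangle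
      obtain ⟨hq1, hq2⟩ := hQ hq
      refine ⟨∅, ∅, by simp, ?_, Or.inl ⟨hp1, rfl⟩, Or.inl ⟨hq1, hq2, rfl⟩⟩
      rw [Set.union_empty]
      refine (hA.nc _ Set.sdiff_subset hinv ?_).symm
      rintro d ⟨hdA, hdF⟩
      refine ⟨?_, ?_⟩
      · by_contra haA
        rcases hsplit d ((hA.bd d).1 ⟨hdA, haA⟩) with h | h | h
        · rw [hp1, List.mem_singleton] at h
          exact hdF ((hF d).2 (Or.inr (Or.inl h)))
        · rw [hq2, hq1, List.mem_singleton] at h
          exact hdF ((hF d).2 (Or.inr (Or.inr h)))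
        · exact hdF ((hF d).2 (Or.inl h))
      · rw [hF]
        rintro (h | h | h)
        · exact hcB (hal _ _ h ▸ hdA)
        · exact hp (hal _ _ h ▸ hdA)
        · exact hq (hal _ _ h ▸ hdA)

end Pool.Agent.OD66
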