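import Pool.Agent.Lib.OD.Blue

set_option autoImplicit false

namespace Pool.Agent.OD66

theorem pure_mid : ∀ (d1 d2 : Bool) (a r : Z), a ≠ 0 →
    ∃ m : Z, (if d1 = true then isQ m else isQ (-m)) = true ∧
      (if d2 = true then isQ (a - m) else isQ (m - a)) = true ∧ m ≠ r := by
  decide +kernel

theorem pure_q0 : isQ 0 = false := by decide

theorem pure_ar_ne {d : Bool} {p q : Z} (h : ar d p q) : q - p ≠ 0 := by
  intro h0
  have hq : q = p := sub_eq_zero.mp h0
  subst hq
  unfold ar at h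
  cases d <;> simp [pure_q0] at h

theorem pure_mid' (d1 d2 : Bool) (p q r : Z) (h : q - p ≠ 0) :
    ∃ a, ar d1 p a ∧ ar d2 a q ∧ a ≠ r := by
  obtain ⟨m, h1, h2, h3⟩ := pure_mid d1 d2 (q - p) (r - p) h
  refine ⟨m + p, ?_, ?_, ?_⟩
  · unfold ar
    have e1 : m + p - p = m := by ring
    have e2 : p - (m + p) = -m := by ring
    rw [e1, e2]; exact h1
  · unfold ar
    have e1 : q - (m + p) = q - p - m := by ring
    have e2 : m + p - q = m - (q - p) := by ring
    rw [e1, e2]; exact h2
  · intro h4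
    exact h3 (by rw [← h4]; ring)

theorem pure_ok {W : Type} (o : W → W → Bool) (c : W → Col) (x z : W) (p q : Z) (b1 b2 : Bool)
    (hx : c x = (0, p, b1)) (hz : c z = (0, q, b2)) (h : ar (o x z) p q) : ok o c x z := by
  unfold ok
  unfold ar at h
  rw [hx, hz]
  cases hd : o x z
  · rw [hd] at h
    simpa [arc] using h
  · rw [hd] at h
    simpa [arc] using h

theorem pure_t1 : ∀ d e : Bool, ∃ x y : Z,
    (if d = true then isQ (y - x) else isQ (x - y)) = true ∧ xor (isQ x) (isQ y) = e := by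
  decide +kernel

theorem pure_rat : ∀ a b : Z, isQ a = true → isQ b = true → ∃ c, isQ c = true ∧ c * a = b := by
  decide +kernel

theorem pure_div : ∀ a b : Z, a ≠ 0 → ∃ c : Z, c * a = b := by
  decide +kernel

theorem pure_inv : ∀ c : Z, isQ c = true → ∃ c' : Z, c' * c = 1 := by
  decide +kernel

theorem pure_scale {d : Bool} {p q x y : Z} (h : ar d p q) (h' : ar d x y) :
    ∃ c, isQ c = true ∧ c * (y - x) = q - p := by
  unfold ar at h h'
  cases d
  · simp only [Bool.false_eq_true, if_false] at h h'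
    obtain ⟨c, hc, e⟩ := pure_rat _ _ h' h
    exact ⟨c, hc, by linear_combination -e⟩
  · simp only [if_true] at h h'
    exact pure_rat _ _ h' h

theorem blk_PURES : St_PURES := by
  intro W o _ x y z m1 m2 Y Y1 Y2 hnd hl1 hl2 hp1 hp2 hY w p q r hpq
  classical
  obtain ⟨a, ha1, ha2, har⟩ := pure_mid' (o x y) (o y z) p q r (pure_ar_ne hpq)
  obtain ⟨s1, s1x, s1y, s1w, hY1⟩ := hp1 w p a r ha1
  obtain ⟨s2, s2y, s2z, s2w, hY2⟩ := hp2 w a q r ha2
  have hnd' : ((x :: m1) ++ (y :: (m2 ++ [z]))).Nodup := by simpa using hnd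
  have hdis : ∀ v ∈ y :: (m2 ++ [z]), v ∉ x :: m1 := by
    intro v hv hv'
    exact (List.nodup_append.mp hnd').2.2 v hv' v hv rfl
  have e1 : ∀ v ∈ x :: (m1 ++ [y]), (if v ∈ x :: m1 then s1 v else s2 v) = s1 v := by
    intro v hv
    by_cases h : v ∈ x :: m1
    · rw [if_pos h]
    · rw [if_neg h]
      have hv' : v = y := by
        simp only [List.mem_cons, List.mem_append, List.not_mem_nil, or_false] at hv h
        tauto
      rw [hv', s2y, s1y]
  have e2 : ∀ v ∈ y :: (m2 ++ [z]), (if v ∈ x :: m1 then s1 v else s2 v) = s2 v := by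
    intro v hv
    rw [if_neg (hdis v hv)]
  refine ⟨fun v => if v ∈ x :: m1 then s1 v else s2 v, ?_, ?_, ?_, ?_⟩
  · exact (e1 x (by simp)).trans s1x
  · exact (e2 z (by simp)).trans s2z
  · intro hw
    rcases List.mem_append.mp hw with h | h
    · have := e1 w (by simp [h])
      simp only [this]
      exact s1w h
    · rcases List.mem_cons.mp h with h | h
      · have := e2 w (by simp [h])
        simp only [this]
        rw [h, s2y]; exact har
      · have := e2 w (by simp [h])
        simp only [this]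
        exact s2w h
  · intro b
    apply hY
    · exact hl1 _ _ (fun v hv => by simp only [e1 v hv]) (hY1 b)
    · exact hl2 _ _ (fun v hv => by simp only [e2 v hv]) (hY2 b)
    · refine pure_ok o _ x z p q (b x) (b z) ?_ ?_ hpq
      · have := (e1 x (by simp)).trans s1x
        simp only [this]
      · have := (e2 z (by simp)).trans s2z
        simp only [this]

theorem pure_ent {W : Type} (o : W → W → Bool) (y x : W) :
    EntU o y x x (fun a b _ => a = b) := by
  refine ⟨?_, ?_, Or.inl ⟨rfl, fun _ _ => rfl⟩⟩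
  · intro c _ a b r h
    have h' : a = b := h
    show c * a = c * b
    rw [h']
  · intro a b r h
    have h' : a = b := h
    rw [h']
    simp

theorem blk_PUREN (h1 : St_KFIN) : St_PUREN := by
  intro W o _ x y z m Y Y' hnd hl hi hM hY w p q r hpq
  classical
  have hxz : x ≠ z := by
    intro h; rw [h] at hnd; simp at hnd
  have hxy : x ≠ y := by
    intro h; rw [h] at hnd; simp at hnd
  have hxm : x ∉ m := by
    intro h; simp [h] at hnd
  have hnd2 : (m ++ [z, y]).Nodup := (List.nodup_cons.mp hnd).2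
  have hzm : z ∉ m := fun h => (List.nodup_append.mp hnd2).2.2 z h z (by simp) rfl
  have hzy : z ≠ y := by
    have := (List.nodup_append.mp hnd2).2.1
    simpa using this
  obtain ⟨w', hw1, hw2, hw3⟩ : ∃ w' : W, w' ≠ z ∧ x ≠ w' ∧ (w ∈ m → w' = w) := by
    by_cases h : w ∈ m
    · exact ⟨w, fun e => hzm (e ▸ h), fun e => hxm (e ▸ h), fun _ => rfl⟩
    · exact ⟨y, hzy.symm, hxy, fun e => absurd e h⟩
  obtain ⟨M, hE, hR⟩ := hM w' x y x (fun a b _ => a = b) [] rfl hw1 rfl
    (Or.inl ⟨pure_ent o y x, trivial⟩) (fun _ => ⟨pure_ent o y x, trivial⟩)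
  obtain ⟨μ, hμ⟩ := pure_div (q - p) (r - p) (pure_ar_ne hpq)
  obtain ⟨x0, y0, hT, hM0⟩ : ∃ x0 y0, T1 (o x z) (xor (o y x) (o y z)) x0 y0 ∧
      M x0 y0 (x0 + μ * (y0 - x0)) := by
    rcases hE with ⟨_, _, h | h | h⟩ | ⟨_, _, h | h | h⟩
    · exact absurd h.1 hxz
    · obtain ⟨x0, y0, h0⟩ := pure_t1 (o x z) (xor (o y x) (o y z))
      exact ⟨x0, y0, h0, h.2 _ _ _ h0⟩
    · exact h1 _ _ (Or.inl h) _ _
    · exact absurd h.1 hw2
    · exact h1 _ _ (Or.inr (Or.inl h)) _ _
    · exact h1 _ _ (Or.inr (Or.inr h)) _ _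
  obtain ⟨s, b, _, sz, sw, hL, hY'⟩ := hR _ _ _ hM0
  have sx : s x = x0 := by
    obtain ⟨p', e1, e2, _⟩ := hL
    have e1' : x0 = p' := e1
    have e2' : p' - s y = s x - s y := e2
    rw [e1']
    linear_combination -e2'
  obtain ⟨c, hc, ec⟩ := pure_scale hpq hT.1
  obtain ⟨c', hc'⟩ := pure_inv c hc
  refine ⟨fun v => c * s v + (p - c * x0), ?_, ?_, ?_, ?_⟩
  · simp only [sx]; ring
  · simp only [sz]; linear_combination ec
  · intro hw h
    apply sw (by rw [hw3 hw]; simp [hw])
    rw [hw3 hw]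
    simp only at h
    linear_combination c' * h - c' * hμ - c' * μ * ec - (s w - x0 - μ * (y0 - x0)) * hc'
  · intro b'
    have y1 := hY _ (hY' b') (pure_ok o _ x z x0 y0 (b' x) (b' z)
      (by simp only [if_pos (show x ∈ x :: (m ++ [z]) by simp), sx])
      (by simp only [if_pos (show z ∈ x :: (m ++ [z]) by simp), sz]) hT.1)
    have y2 : Y fun v => (0, s v, b' v) :=
      hl _ _ (fun v hv => by simp only [if_pos hv]) y1
    have y3 := hi 0 c (p - c * x0) hc _ y2
    simpa only [mv, add_zero] using y3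

end Pool.Agent.OD66
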