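import Pool.Agent.Lib.OD.Blue

set_option autoImplicit false

namespace Pool.Agent.OD66

open Equiv Pool.Agent.Lib.MP_bfaad3_co

section Stel
variable {X : Type}

/-- face rotation of the stellation -/
def stPh (X : Type) : Perm (X ⊕ X ⊕ X) where
  toFun := Sum.elim (fun d => Sum.inr (Sum.inl d))
    (Sum.elim (fun d => Sum.inr (Sum.inr d)) (fun d => Sum.inl d))
  invFun := Sum.elim (fun d => Sum.inr (Sum.inr d))
    (Sum.elim (fun d => Sum.inl d) (fun d => Sum.inr (Sum.inl d)))
  left_inv := by rintro (d | d | d) <;> rfl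
  right_inv := by rintro (d | d | d) <;> rfl

/-- dart reversal of the stellation, as a function -/
def stAlF (a f : Perm X) : X ⊕ X ⊕ X → X ⊕ X ⊕ X :=
  Sum.elim (fun d => Sum.inl (a d))
    (Sum.elim (fun d => Sum.inr (Sum.inr (f d))) (fun d => Sum.inr (Sum.inl (f⁻¹ d))))

theorem stAlF_inv (a f : Perm X) (ha : ∀ d, a (a d) = d) : Function.Involutive (stAlF a f) := by
  rintro (d | d | d)
  · exact congrArg Sum.inl (ha d)
  · exact congrArg (fun x => Sum.inr (Sum.inl x)) (f.symm_apply_apply d)
  · exact congrArg (fun x => Sum.inr (Sum.inr x)) (f.apply_symm_apply d)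

/-- dart reversal of the stellation -/
def stAl (a f : Perm X) (ha : ∀ d, a (a d) = d) : Perm (X ⊕ X ⊕ X) :=
  (stAlF_inv a f ha).toPerm

theorem st_card_le_cyc {D Y : Type} [Finite D] (p : Perm D) (g : D → Y)
    (hg : Function.Surjective g) (h : ∀ d, g (p d) = g d) : Nat.card Y ≤ cyc p := by
  refine Nat.card_le_card_of_surjective
    (Quotient.lift (s := Perm.SameCycle.setoid p) g fun d e hde => (min_lab' p g h hde).symm)
    fun y => ?_
  obtain ⟨d, rfl⟩ := hg y
  exact ⟨Quotient.mk _ d, rfl⟩

theorem st_mk_step (p : Perm X) (d : X) :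
    Quotient.mk (Perm.SameCycle.setoid p) (p d) = Quotient.mk (Perm.SameCycle.setoid p) d :=
  (Quotient.sound (s := Perm.SameCycle.setoid p) (perm_sc_step p d)).symm

theorem st_mk_back (p : Perm X) (d : X) :
    Quotient.mk (Perm.SameCycle.setoid p) (p⁻¹ d) = Quotient.mk (Perm.SameCycle.setoid p) d := by
  have h := st_mk_step p (p⁻¹ d)
  have e : p (p⁻¹ d) = d := p.apply_symm_apply d
  rw [e] at h
  exact h.symm

theorem st_gen0 [Finite X] (s a : Perm X) (ha : ∀ d, a (a d) = d) (h : Gen0 s a) :
    Gen0 (stPh X * stAl a (s * a) ha) (stAl a (s * a) ha) := by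
  have hal : ∀ d, stAl a (s * a) ha (stAl a (s * a) ha d) = d := stAlF_inv a (s * a) ha
  have hph : stPh X * stAl a (s * a) ha * stAl a (s * a) ha = stPh X := by
    ext d
    rw [Perm.mul_apply, Perm.mul_apply, hal]
  have h1 : cyc s + cyc (s * a) ≤ cyc (stPh X * stAl a (s * a) ha) := by
    have := st_card_le_cyc (stPh X * stAl a (s * a) ha)
      (Sum.elim (fun d => Sum.inl (Quotient.mk (Perm.SameCycle.setoid s) d))
        (Sum.elim (fun d => Sum.inl (Quotient.mk (Perm.SameCycle.setoid s) (a d)))
          (fun d => Sum.inr (Quotient.mk (Perm.SameCycle.setoid (s * a)) d))))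
      (by
        rintro (q | q)
        · obtain ⟨d, rfl⟩ := Quotient.exists_rep q
          exact ⟨Sum.inl d, rfl⟩
        · obtain ⟨d, rfl⟩ := Quotient.exists_rep q
          exact ⟨Sum.inr (Sum.inr d), rfl⟩)
      (by
        rintro (d | d | d)
        · exact congrArg (fun x => Sum.inl (Quotient.mk (Perm.SameCycle.setoid s) x)) (ha d)
        · exact congrArg Sum.inl (st_mk_step s (a d))
        · exact congrArg Sum.inr (st_mk_back (s * a) d))
    rwa [Nat.card_sum] at this
  have h2 : cyc a + Nat.card X ≤ cyc (stAl a (s * a) ha) := by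
    have := st_card_le_cyc (stAl a (s * a) ha)
      (Sum.elim (fun d => Sum.inl (Quotient.mk (Perm.SameCycle.setoid a) d))
        (Sum.elim (fun d => Sum.inr d) (fun d => Sum.inr ((s * a)⁻¹ d))))
      (by
        rintro (q | q)
        · obtain ⟨d, rfl⟩ := Quotient.exists_rep q
          exact ⟨Sum.inl d, rfl⟩
        · exact ⟨Sum.inr (Sum.inl q), rfl⟩)
      (by
        rintro (d | d | d)
        · exact congrArg Sum.inl (st_mk_step a d)
        · exact congrArg Sum.inr ((s * a).symm_apply_apply d)
        · rfl)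
    rwa [Nat.card_sum] at this
  have h3 : Nat.card X ≤ cyc (stPh X) :=
    st_card_le_cyc (stPh X) (Sum.elim id (Sum.elim id id)) (fun d => ⟨Sum.inl d, rfl⟩)
      (by rintro (d | d | d) <;> rfl)
  have hc : ∀ u, conn (stPh X * stAl a (s * a) ha) (stAl a (s * a) ha) u (stPh X u) := by
    intro u
    have := perm_conn_ab (stPh X * stAl a (s * a) ha) (stAl a (s * a) ha) u
    rwa [hph] at this
  have h4 : comp (stPh X * stAl a (s * a) ha) (stAl a (s * a) ha) ≤ comp s a := by
    refine Nat.card_le_card_of_surjective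
      (Quotient.map (sa := conn s a)
        (sb := conn (stPh X * stAl a (s * a) ha) (stAl a (s * a) ha)) Sum.inl ?_) ?_
    · intro u v huv
      refine perm_conn_le (s := Setoid.comap Sum.inl
        (conn (stPh X * stAl a (s * a) ha) (stAl a (s * a) ha))) (fun w => ?_) (fun w => ?_) huv
      · have e1 := perm_conn_a (stPh X * stAl a (s * a) ha) (stAl a (s * a) ha) (Sum.inl w)
        have e2 := perm_conn_a (stPh X * stAl a (s * a) ha) (stAl a (s * a) ha)
          (Sum.inr (Sum.inl (a w)))
        have e3 : (stPh X * stAl a (s * a) ha) (Sum.inr (Sum.inl (a w))) = Sum.inl (s w) :=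
          congrArg (fun x => Sum.inl (s x)) (ha w)
        rw [e3] at e2
        exact (conn _ _).trans' e1 e2
      · exact perm_conn_b (stPh X * stAl a (s * a) ha) (stAl a (s * a) ha) (Sum.inl w)
    · intro q
      obtain ⟨z, rfl⟩ := Quotient.exists_rep q
      rcases z with d | d | d
      · exact ⟨Quotient.mk _ d, rfl⟩
      · exact ⟨Quotient.mk _ d, Quotient.sound (hc (Sum.inl d))⟩
      · exact ⟨Quotient.mk _ d, (Quotient.sound (hc (Sum.inr (Sum.inr d)))).symm⟩
  unfold Gen0 at h ⊢
  rw [hph, Nat.card_sum, Nat.card_sum]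
  omega

end Stel

theorem blk_STEL : St_STEL := by
  intro V _ G ⟨s, hs, h0⟩
  have ha : ∀ d, alpha G (alpha G d) = d := SimpleGraph.Dart.symm_involutive
  have hf : ∀ d : G.Dart, ((s * alpha G) d).fst = d.snd := fun d => hs.1 (alpha G d)
  refine ⟨G.Dart ⊕ G.Dart ⊕ G.Dart, V ⊕ Quotient (Perm.SameCycle.setoid (s * alpha G)),
    inferInstance, stAl (alpha G) (s * alpha G) ha, stPh G.Dart,
    Sum.elim (fun d => Sum.inl d.fst) (Sum.elim (fun d => Sum.inl d.snd)
      (fun d => Sum.inr (Quotient.mk _ d))), Sum.inl, Sum.inl_injective, ?_, ?_⟩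
  · have k0 : ∀ d e : G.Dart, d.fst = e.fst →
        (stPh G.Dart * stAl (alpha G) (s * alpha G) ha).SameCycle (Sum.inl d) (Sum.inl e) := by
      intro d e hde
      refine perm_sc_le (s := Setoid.comap Sum.inl
        (Perm.SameCycle.setoid (stPh G.Dart * stAl (alpha G) (s * alpha G) ha)))
        (fun w => ?_) (hs.2 d e hde)
      have e1 := perm_sc_step (stPh G.Dart * stAl (alpha G) (s * alpha G) ha) (Sum.inl w)
      have e2 := perm_sc_step (stPh G.Dart * stAl (alpha G) (s * alpha G) ha)
        (Sum.inr (Sum.inl (alpha G w)))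
      have e3 : (stPh G.Dart * stAl (alpha G) (s * alpha G) ha)
          (Sum.inr (Sum.inl (alpha G w))) = Sum.inl (s w) :=
        congrArg (fun x => Sum.inl (s x)) (ha w)
      rw [e3] at e2
      exact e1.trans e2
    have k1 : ∀ d : G.Dart, (stPh G.Dart * stAl (alpha G) (s * alpha G) ha).SameCycle
        (Sum.inr (Sum.inl d)) (Sum.inl ((s * alpha G) d)) := fun d =>
      perm_sc_step (stPh G.Dart * stAl (alpha G) (s * alpha G) ha) (Sum.inr (Sum.inl d))
    refine ⟨stAlF_inv _ _ ha, ?_, ?_, ?_, ?_, st_gen0 s (alpha G) ha h0⟩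
    · rintro (d | d | d) <;> rfl
    · rintro (d | d | d)
      · rfl
      · exact congrArg Sum.inr (st_mk_step (s * alpha G) d).symm
      · have e := hf ((s * alpha G)⁻¹ d)
        have e' : (s * alpha G) ((s * alpha G)⁻¹ d) = d := (s * alpha G).apply_symm_apply d
        rw [e'] at e
        exact congrArg Sum.inl e
    · rintro (d | d | d) h
      · exact d.adj.ne' (Sum.inl_injective h)
      · exact Sum.inr_ne_inl h
      · exact Sum.inl_ne_inr h
    · rintro (d | d | d) (e | e | e) h
      · exact k0 d e (Sum.inl_injective h)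
      · exact (k0 d _ ((Sum.inl_injective h).trans (hf e).symm)).trans (k1 e).symm
      · exact absurd h Sum.inl_ne_inr
      · exact (k1 d).trans (k0 _ e ((hf d).trans (Sum.inl_injective h)))
      · exact ((k1 d).trans (k0 _ _ (((hf d).trans (Sum.inl_injective h)).trans
          (hf e).symm))).trans (k1 e).symm
      · exact absurd h Sum.inl_ne_inr
      · exact absurd h Sum.inr_ne_inl
      · exact absurd h Sum.inr_ne_inl
      · have h' : (s * alpha G).SameCycle d e := Quotient.exact (Sum.inr_injective h)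
        refine perm_sc_le (s := Setoid.comap (fun x => Sum.inr (Sum.inr x))
          (Perm.SameCycle.setoid (stPh G.Dart * stAl (alpha G) (s * alpha G) ha)))
          (fun w => ?_) h'
        have e2 := perm_sc_step (stPh G.Dart * stAl (alpha G) (s * alpha G) ha)
          (Sum.inr (Sum.inr ((s * alpha G) w)))
        have e3 : (stPh G.Dart * stAl (alpha G) (s * alpha G) ha)
            (Sum.inr (Sum.inr ((s * alpha G) w))) = Sum.inr (Sum.inr w) :=
          congrArg (fun x => Sum.inr (Sum.inr x)) ((s * alpha G).symm_apply_apply w)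
        rw [e3] at e2
        exact e2.symm
  · intro u v huv
    exact ⟨Sum.inl ⟨(u, v), huv⟩, rfl, rfl⟩

end Pool.Agent.OD66
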