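import Pool.Agent.Lib.OD.Blue

set_option autoImplicit false

namespace Pool.Agent.OD66

open Equiv Pool.Agent.Lib.MP_bfaad3_co

theorem sys_isQ : ∀ c x : Z, isQ c = true → isQ (c * x) = isQ x := by decide

theorem sys_arc (k : ZMod 3) (c t : Z) (hc : isQ c = true) (a b : Col) :
    arc (mv k c t a) (mv k c t b) = arc a b := by
  have h1 : ∀ x y : Z, isQ (c * x + t - (c * y + t)) = isQ (x - y) := fun x y => by
    rw [show c * x + t - (c * y + t) = c * (x - y) by ring, sys_isQ _ _ hc]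
  have h2 : (a.1 + k = b.1 + k + 1) = (a.1 = b.1 + 1) := by
    rw [add_right_comm, add_left_inj]
  simp only [arc, mv, h1, h2, add_left_inj]

section

variable {D W : Type} {al ph : Perm D} {be : D → W} {o : W → W → Bool}

theorem sys_symm (ho : Tour o) {c : W → Col} {x y : W} (h : x ≠ y) (hk : ok o c x y) :
    ok o c y x := by
  unfold ok at hk ⊢
  rw [ho x y h]
  cases hxy : o x y <;> simpa [hxy] using hk

theorem sys_congr {c c' : W → Col} {x y : W} (hx : c x = c' x) (hy : c y = c' y)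
    (hk : ok o c x y) : ok o c' x y := by
  unfold ok at hk ⊢
  rwa [← hx, ← hy]

theorem sys_mv (k : ZMod 3) (c t : Z) (hc : isQ c = true) {f : W → Col} {x y : W}
    (hk : ok o f x y) : ok o (fun x => mv k c t (f x)) x y := by
  unfold ok at hk ⊢
  simpa only [sys_arc k c t hc] using hk

/-- the colouring of the boundary extends to the inside -/
def sysExt (o : W → W → Bool) (al : Perm D) (be : D → W) (A : Set D) (l : List W)
    (c : W → Col) : Prop :=
  ∃ c' : W → Col, (∀ x ∈ l, c' x = c x) ∧ ∀ d ∈ A, ok o c' (be d) (be (al d))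

/-- holes -/
def sysHole (o : W → W → Bool) (al ph : Perm D) (be : D → W) (n : ℕ) (l : List W)
    (Y : (W → Col) → Prop) : Prop :=
  (∃ x z, x ≠ z ∧ l = [x, z] ∧ n = 0 ∧ Y = fun c => ok o c x z) ∨
    ∃ A cs, DH al ph be A cs ∧ l = cs.map be ∧ n = A.ncard ∧ Y = sysExt o al be A l

/-- a set of faces whose boundary vertices lie in `l` -/
def sysBd (al ph : Perm D) (be : D → W) (A : Set D) (l : List W) : Prop :=
  (∀ d ∈ A, ph d ∈ A) ∧ ∀ d ∈ A, al d ∉ A → be d ∈ l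

theorem sys_bd {A : Set D} {cs : List D} (h : DH al ph be A cs) : sysBd al ph be A (cs.map be) :=
  ⟨fun d hd => (h.finv d).1 hd, fun d hd hn => List.mem_map_of_mem ((h.bd d).1 ⟨hd, hn⟩)⟩

theorem sys_inner [Finite D] (T : TMap al ph be) {A : Set D} {l : List W} (h : sysBd al ph be A l)
    {d e : D} (hd : d ∈ A) (hl : be d ∉ l) (he : be d = be e) : e ∈ A := by
  obtain ⟨k, -, rfl⟩ := (T.vx d e he).exists_pow_eq'
  have : ∀ k : ℕ, ((ph * al) ^ k) d ∈ A ∧ be (((ph * al) ^ k) d) = be d := fun k => by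
    induction k with
    | zero => exact ⟨hd, rfl⟩
    | succ k ih =>
      rw [pow_succ', Perm.mul_apply, Perm.mul_apply, T.hd, T.al2]
      refine ⟨h.1 _ ?_, ih.2⟩
      by_contra hn
      exact hl (ih.2 ▸ h.2 _ ih.1 hn)
  exact (this k).1

theorem sys_glue [Finite D] (T : TMap al ph be) {A A1 A2 : Set D} {cs : List D} {l1 l2 : List W}
    (h : DH al ph be A cs) (h1 : sysBd al ph be A1 l1) (h2 : sysBd al ph be A2 l2)
    (hd : Disjoint A1 A2) (s1 : A1 ⊆ A) (s2 : A2 ⊆ A) {c : W → Col}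
    (e1 : sysExt o al be A1 l1 c) (e2 : sysExt o al be A2 l2 c) :
    sysExt o al be (A1 ∪ A2) (cs.map be) c := by
  classical
  obtain ⟨c1, a1, k1⟩ := e1
  obtain ⟨c2, a2, k2⟩ := e2
  have out : ∀ {B : Set D} {l : List W}, sysBd al ph be B l → B ⊆ A → ∀ v ∈ cs.map be,
      ¬ (v ∉ l ∧ ∃ d ∈ B, be d = v) := by
    rintro B l hB sB v hv ⟨hn, d, hdB, rfl⟩
    obtain ⟨e, he, hbe⟩ := List.mem_map.1 hv
    exact hn (hbe ▸ hB.2 e (sys_inner T hB hdB hn hbe.symm) fun ha => ((h.bd e).2 he).2 (sB ha))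
  have dis : ∀ {B B' : Set D} {l : List W}, sysBd al ph be B l → Disjoint B B' → ∀ e ∈ B',
      ¬ (be e ∉ l ∧ ∃ d ∈ B, be d = be e) := by
    rintro B B' l hB hBB e he ⟨hn, d, hdB, hde⟩
    exact Set.disjoint_left.1 hBB (sys_inner T hB hdB (hde ▸ hn) hde) he
  set c' : W → Col := fun v => if v ∉ l1 ∧ ∃ d ∈ A1, be d = v then c1 v
    else if v ∉ l2 ∧ ∃ d ∈ A2, be d = v then c2 v else c v with hc'
  have q1 : ∀ d ∈ A1, c1 (be d) = c' (be d) := fun d hd1 => by
    by_cases hl : be d ∈ l1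
    · simp only [hc']
      rw [if_neg fun h => h.1 hl, if_neg (dis h2 hd.symm d hd1), a1 _ hl]
    · simp only [hc']
      rw [if_pos ⟨hl, d, hd1, rfl⟩]
  have q2 : ∀ d ∈ A2, c2 (be d) = c' (be d) := fun d hd2 => by
    simp only [hc']
    rw [if_neg (dis h1 hd d hd2)]
    by_cases hl : be d ∈ l2
    · rw [if_neg fun h => h.1 hl, a2 _ hl]
    · rw [if_pos ⟨hl, d, hd2, rfl⟩]
  refine ⟨c', fun v hv => ?_, ?_⟩
  · simp only [hc']
    rw [if_neg (out h1 s1 v hv), if_neg (out h2 s2 v hv)]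
  · rintro d (hd1 | hd2)
    · exact sys_congr (q1 d hd1) (T.hd d ▸ q1 _ (h1.1 d hd1)) (k1 d hd1)
    · exact sys_congr (q2 d hd2) (T.hd d ▸ q2 _ (h2.1 d hd2)) (k2 d hd2)

/-- the edge of the last boundary dart is well coloured -/
theorem sys_last (T : TMap al ph be) (ho : Tour o) {A : Set D} {cs : List D} {d : D}
    (h : DH al ph be A cs) (hd : al d ∈ cs) {c' : W → Col}
    (k : ∀ d ∈ A, ok o c' (be d) (be (al d))) : ok o c' (be d) (be (al d)) := by
  have := k _ ((h.bd _).2 hd).1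
  rw [T.al2] at this
  exact sys_symm ho (T.nl d) this

/-- one side of a split -/
theorem sys_side [Finite D] (T : TMap al ph be) (ho : Tour o) {A1 : Set D} {cs1 : List D} {d : D}
    {n : ℕ} (hn : A1.ncard < n) (hm : be d ∈ cs1.map be)
    (h : (cs1 = [d] ∧ A1 = ∅) ∨ DH al ph be A1 (cs1 ++ [al d])) :
    sysBd al ph be A1 (cs1.map be ++ [be (al d)]) ∧ ∃ n1 Y1, n1 < n ∧
      sysHole o al ph be n1 (cs1.map be ++ [be (al d)]) Y1 ∧ ∀ c, Y1 c →
        sysExt o al be A1 (cs1.map be ++ [be (al d)]) c ∧ ok o c (be d) (be (al d)) := by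
  rcases h with ⟨rfl, rfl⟩ | h
  · exact ⟨⟨fun _ h => h.elim, fun _ h => h.elim⟩, 0, _, by omega,
      Or.inl ⟨_, _, (T.nl d).symm, rfl, rfl, rfl⟩,
      fun c hc => ⟨⟨c, fun _ _ => rfl, fun _ h => h.elim⟩, hc⟩⟩
  · have e : (cs1 ++ [al d]).map be = cs1.map be ++ [be (al d)] := by simp
    refine ⟨e ▸ sys_bd h, _, _, hn, Or.inr ⟨A1, _, h, e.symm, rfl, rfl⟩, fun c hc => ⟨hc, ?_⟩⟩
    obtain ⟨c', a, k⟩ := hc
    exact sys_congr (a _ (List.mem_append_left _ hm)) (a _ (by simp))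
      (sys_last T ho h (by simp) k)

end

theorem blk_SYS (h1 : St_PEELN) (h2 : St_PEELS) : St_SYS := by
  intro D W _ al ph be T o ho
  refine ⟨sysHole o al ph be, ⟨?_, ?_, ?_, ?_, ?_⟩, fun A cs h =>
    ⟨_, _, Or.inr ⟨A, cs, h, rfl, rfl, rfl⟩, fun c ⟨c', _, k⟩ => ⟨c', k⟩⟩⟩
  · rintro n l Y (⟨x, z, h, rfl, -, -⟩ | ⟨A, cs, h, rfl, -, -⟩)
    · simpa using h
    · exact h.nd
  · rintro n l Y (⟨x, z, h, rfl, -, -⟩ | ⟨A, cs, h, rfl, -, -⟩)
    · simp
    · match cs, h with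
      | [], h => exact absurd rfl h.ne
      | [d], h => exact absurd (by simpa using h.cyc) (T.nl d)
      | _ :: _ :: _, _ => simp
  · rintro n l Y (⟨x, z, h, rfl, -, rfl⟩ | ⟨A, cs, h, rfl, -, rfl⟩) c c' hc
    · exact sys_congr (hc x (by simp)) (hc z (by simp))
    · rintro ⟨c1, a, k⟩
      exact ⟨c1, fun x hx => (a x hx).trans (hc x hx), k⟩
  · rintro n l Y (⟨x, z, h, rfl, -, rfl⟩ | ⟨A, cs, h, rfl, -, rfl⟩) k c t hc f
    · exact sys_mv k c t hc
    · rintro ⟨c1, a, q⟩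
      exact ⟨fun x => mv k c t (c1 x), fun x hx => by simp only [a x hx],
        fun d hd => sys_mv k c t hc (q d hd)⟩
  rintro n x m z Y (⟨x', z', h, hl, -, rfl⟩ | ⟨A, cs0, h, hl, rfl, rfl⟩)
  · obtain ⟨hx, hl⟩ := List.cons.inj hl
    obtain ⟨hm, hz⟩ := List.append_inj' (s₂ := []) hl rfl
    rw [hx, (List.cons.inj hz).1]
    exact Or.inl ⟨hm, fun c hc => hc⟩
  obtain ⟨cs, c, rfl⟩ : ∃ cs c, cs0 = cs ++ [c] :=
    ⟨_, _, (List.dropLast_append_getLast h.ne).symm⟩
  have hl0 := hl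
  rw [List.map_append, List.map_singleton, ← List.cons_append] at hl
  obtain ⟨hcs, hz⟩ := List.append_inj' hl rfl
  obtain ⟨rfl, -⟩ := List.cons.inj hz
  have hx : be (ph c) = x := by
    have := h.cyc
    rw [← hl0, List.rotate_cons_succ, List.rotate_zero, List.map_append, List.map_singleton] at this
    rw [T.hd]
    exact (List.cons.inj (List.append_inj' this rfl).2).1
  have hy : be (al (ph c)) = be (ph (ph c)) := (T.hd _).symm
  have hz' : be (al (ph (ph c))) = be c := by rw [← T.hd, T.ph3]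
  have hxz : x ≠ be c := by
    rw [← hx, T.hd]
    exact T.nl c
  have hcA : c ∈ A := ((h.bd c).2 (by simp)).1
  have hlt : ∀ B ⊆ A \ {c, ph c, ph (ph c)}, B.ncard < A.ncard := fun B hB =>
    Set.ncard_lt_ncard ⟨fun d hd => (hB hd).1, fun hs => (hB (hs hcA)).2 (by simp)⟩
  have fin : ∀ c' : W → Col, (∀ d ∈ A \ {c, ph c, ph (ph c)}, ok o c' (be d) (be (al d))) →
      ok o c' x (be c) → ok o c' (be (ph c)) (be (al (ph c))) →
      ok o c' (be (ph (ph c))) (be (al (ph (ph c)))) → ∀ d ∈ A, ok o c' (be d) (be (al d)) := by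
    intro c' k k0 k1 k2 d hd
    by_cases hF : d ∈ ({c, ph c, ph (ph c)} : Set D)
    · rcases hF with rfl | rfl | rfl
      · rw [← T.hd, hx]
        exact sys_symm ho hxz k0
      · exact k1
      · exact k2
    · exact k d ⟨hd, hF⟩
  by_cases hm : be (ph (ph c)) ∈ (cs ++ [c]).map be
  · have hm' : be (ph (ph c)) ∈ m := by
      rw [← hl0] at hm
      rcases List.mem_cons.1 hm with hm | hm
      · exact absurd (hy.trans (hm.trans hx.symm)) (T.nl _)
      · rcases List.mem_append.1 hm with hm | hm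
        · exact hm
        · exact absurd (hz'.trans (List.mem_singleton.1 hm).symm) (T.nl _)
    obtain ⟨m1, m2, rfl⟩ := List.append_of_mem hm'
    rw [← List.cons_append] at hcs
    obtain ⟨cs1, r, rfl, e1, e2⟩ := List.map_eq_append_iff.1 hcs.symm
    obtain ⟨e, cs2, rfl, he, e3⟩ := List.map_eq_cons_iff.1 e2
    have h' : DH al ph be A (cs1 ++ e :: (cs2 ++ [c])) := by simpa using h
    obtain ⟨A1, A2, hd, hu, p1, p2⟩ := h2 D W al ph be T A cs1 cs2 e c h' he
    have s1 : A1 ⊆ A \ {c, ph c, ph (ph c)} := hu ▸ Set.subset_union_left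
    have s2 : A2 ⊆ A \ {c, ph c, ph (ph c)} := hu ▸ Set.subset_union_right
    obtain ⟨b1, n1, Y1, l1, H1, q1⟩ := sys_side T ho (hlt _ s1) (by rw [e1, hx]; simp) p1
    obtain ⟨b2, n2, Y2, l2, H2, q2⟩ := sys_side (cs1 := e :: cs2) (d := ph (ph c)) T ho (hlt _ s2)
      (by rw [← he]; simp) (p2.imp (fun ⟨a, b, c⟩ => ⟨by rw [a, b], c⟩) id)
    refine Or.inr (Or.inr ⟨m1, _, m2, n1, n2, Y1, Y2, rfl, l1, l2, ?_, ?_, fun f y1 y2 k0 => ?_⟩)
    · rwa [e1, hy] at H1
    · rwa [e2, hz'] at H2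
    · obtain ⟨c', a, k⟩ := sys_glue T h b1 b2 hd (s1.trans Set.sdiff_subset)
        (s2.trans Set.sdiff_subset) (q1 f y1).1 (q2 f y2).1
      rw [← hl0] at a
      have ax : f x = c' x := (a _ (by simp)).symm
      have ay : f (be (ph (ph c))) = c' (be (ph (ph c))) := (a _ (by simp)).symm
      have az : f (be c) = c' (be c) := (a _ (by simp)).symm
      exact ⟨c', a, fin c' (hu ▸ k) (sys_congr ax az k0)
        (sys_congr (hx ▸ ax) (hy ▸ ay) (q1 f y1).2) (sys_congr ay (hz' ▸ az) (q2 f y2).2)⟩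
  · have h' := h1 D W al ph be T A cs c h hm
    have e : x :: (m ++ [be c, be (ph (ph c))]) =
        (cs ++ [al (ph (ph c)), al (ph c)]).map be := by
      rw [List.map_append, ← hcs]
      simp [hy, hz']
    refine Or.inr (Or.inl ⟨_, _, _, hlt _ subset_rfl, Or.inr ⟨_, _, h', e, rfl, rfl⟩, ?_⟩)
    rintro f ⟨c', a, k⟩ k0
    refine ⟨c', fun v hv => a v ?_, fin c' k (sys_congr (a _ (by simp)).symm (a _ (by simp)).symm k0)
      (sys_last T ho h' (by simp) k) (sys_last T ho h' (by simp) k)⟩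
    simp only [List.mem_cons, List.mem_append, List.not_mem_nil, or_false] at hv ⊢
    tauto

end Pool.Agent.OD66
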