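import Pool.Agent.Lib.OD.Defs
import Pool.Agent.Lib.MP_bfaad3_co.Minor

set_option autoImplicit false

namespace Pool.Agent.OD66

open Equiv Pool.Agent.Lib.MP_bfaad3_co

/-! ### finite relation algebra -/

def St_CL : Prop := ∀ e1 e2 R1 R2, Ty e1 R1 → Ty e2 R2 →
  Ty2 (xor e1 e2) fun x y => ∃ p, R1 x p ∧ R2 p y

def St_OP : Prop :=
  (∀ d e e' (t : Z), t ≠ 0 → ∀ x y, T1 d e' x y →
    ∃ c, isQ c = true ∧ T1 d e (x - c * t) (y - c * t)) ∧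
  ∀ e (t x y : Z), t ≠ 0 → x ≠ y →
    ∃ c, isQ c = true ∧ xor (isQ (c * x + t)) (isQ (c * y + t)) = e

def St_KFIN : Prop := ∀ e M, (K2 e M ∨ M1 e M ∨ M2 e M) →
  ∀ d μ, ∃ x y, T1 d e x y ∧ M x y (x + μ * (y - x))

def St_CU : Prop := ∀ L, AllTy L → (∃ z ∈ L, z.2 ≠ 0) →
  (2 ≤ L.length ∨ ∀ z ∈ L, ∃ e, Ty2 e z.1) → ∀ e, RowOK e (sch L)

def St_CE : Prop := ∀ L1 L2, AllTy L1 → AllTy L2 → (∃ z ∈ L1, z.2 ≠ 0) → (∃ z ∈ L2, z.2 ≠ 0) →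
  ∀ e, M2 e (jn e L1 L2)

/-- one long step -/
def St_J1 : Prop := ∀ e1 R1 (t1 : Z), Ty2 e1 R1 → t1 ≠ 0 → ∀ e, RowOK e (sch [(R1, t1)])

/-- two steps -/
def St_J2 : Prop := ∀ e1 e2 R1 R2 (t1 t2 : Z), Ty e1 R1 → Ty e2 R2 → t1 ≠ 0 → t2 ≠ 0 → t2 ≠ t1 →
  ∀ e, RowOK e (sch [(R2, t2), (R1, t1)])

/-- at least three steps (`z1` is the first step, `z` the last one) -/
def St_J3 : Prop := ∀ (z z2 z1 : (Z → Z → Prop) × Z) L, AllTy (z :: (L ++ [z2, z1])) →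
  z1.2 ≠ 0 → z2.2 ≠ z1.2 → z.2 ≠ 0 →
  Big (sch (z :: (L ++ [z2, z1]))) 1 ∧ Big (sch (z :: (L ++ [z2, z1]))) (-1)

/-- junction of two single steps -/
def St_F11 : Prop := ∀ (z1 y1 : (Z → Z → Prop) × Z), AllTy [z1] → AllTy [y1] →
  z1.2 ≠ 0 → y1.2 ≠ 0 → ∀ e, M2 e (jn e [z1] [y1])

/-- junction of a chain and a single step -/
def St_F21 : Prop := ∀ (z2 z1 y1 : (Z → Z → Prop) × Z) L, AllTy (L ++ [z2, z1]) → AllTy [y1] →
  z1.2 ≠ 0 → z2.2 ≠ z1.2 → y1.2 ≠ 0 → ∀ e, M2 e (jn e (L ++ [z2, z1]) [y1])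

/-- junction of two chains (`y1` is the last step of the second one) -/
def St_F22 : Prop := ∀ (z2 z1 y1 y2 : (Z → Z → Prop) × Z) L K, AllTy (L ++ [z2, z1]) →
  AllTy (y1 :: y2 :: K) → z1.2 ≠ 0 → z2.2 ≠ z1.2 → y1.2 ≠ 0 → y2.2 ≠ y1.2 →
  ∀ e, M2 e (jn e (L ++ [z2, z1]) (y1 :: y2 :: K))

/-- binary form of the branch theorem -/
def St_BIN : Prop := ∀ L, AllTy L → (∃ z ∈ L, z.2 ≠ 0) → ∀ e,
  Ty e (fun x y => xor (isQ x) (isQ y) = e ∧ sch L x y) ∧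
  ((2 ≤ L.length ∨ ∀ z ∈ L, ∃ e, Ty2 e z.1) →
    Ty2 e fun x y => xor (isQ x) (isQ y) = e ∧ sch L x y)

/-- a marked junction -/
def St_JN : Prop := ∀ L1 L2, AllTy L1 → AllTy L2 → L1 ≠ [] → L2 ≠ [] →
  (∃ z ∈ L1 ++ L2, z.2 ≠ 0) → ∀ e, M1 e (jn e L1 L2) ∨ M2 e (jn e L1 L2)

/-- a resolved mark stays resolved in a branch -/
def St_RES : Prop := ∀ L1 L2 (M : Ter) (t : Z) (e0 : Bool), AllTy L1 → AllTy L2 → SymT M →
  M2 e0 M → (t ≠ 0 ∨ ∃ z ∈ L1 ++ L2, z.2 ≠ 0) → ∀ e,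
  M2 e fun x y r => xor (isQ x) (isQ y) = e ∧ ∃ c, isQ c = true ∧
    ∃ p q, ch (scale c L1) x p ∧ M (p - c * t) (q - c * t) (r - c * t) ∧ ch (scale c L2) q y

def St_KCMP : Prop := ∀ (W : Type) (o : W → W → Bool) (w v a p u : W) (M N : Ter),
  (EntU o v a p M → EntU o v p u N → EntU o v a u (cmp M N)) ∧
  (EntU o v a p M → EntM o w v p u N → EntM o w v a u (cmp M N)) ∧
  (EntM o w v a p M → EntU o v p u N → EntM o w v a u (cmp M N))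

def St_KBRU : Prop := ∀ (W : Type) (o : W → W → Bool) (v u : W) (t : W → Z)
  (es : List (W × W × Ter)), StkU o es u → (AllDeg es u ∨ NZ t es u) →
  EntU o v (bot es u) u
    (br (xor (o v (bot es u)) (o v u)) (es.map fun z => (z.2.2, t z.1)))

def St_KBRM : Prop := ∀ (W : Type) (o : W → W → Bool) (w v u : W) (t : W → Z)
  (es : List (W × W × Ter)), StkM o w es u → (AllDeg es u ∨ NZ t es u) →
  EntU o v (bot es u) u
    (br (xor (o v (bot es u)) (o v u)) (es.map fun z => (z.2.2, t z.1))) ∨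
  EntM o w v (bot es u) u
    (br (xor (o v (bot es u)) (o v u)) (es.map fun z => (z.2.2, t z.1)))

/-! ### the colouring induction -/

def St_PURES : Prop := ∀ (W : Type) (o : W → W → Bool), Tour o →
  ∀ (x y z : W) (m1 m2 : List W) (Y Y1 Y2 : (W → Col) → Prop),
  (x :: ((m1 ++ y :: m2) ++ [z])).Nodup → Loc (x :: (m1 ++ [y])) Y1 → Loc (y :: (m2 ++ [z])) Y2 →
  Pure o x m1 y Y1 → Pure o y m2 z Y2 → (∀ c, Y1 c → Y2 c → ok o c x z → Y c) →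
  Pure o x (m1 ++ y :: m2) z Y

def St_PUREN : Prop := ∀ (W : Type) (o : W → W → Bool), Tour o →
  ∀ (x y z : W) (m : List W) (Y Y' : (W → Col) → Prop),
  (x :: (m ++ [z, y])).Nodup → Loc (x :: (m ++ [z])) Y → Inv Y →
  Mixed o (x :: (m ++ [z])) z [y] Y' → (∀ c, Y' c → ok o c x z → Y c) → Pure o x m z Y

def St_MIXD : Prop := ∀ (W : Type) (o : W → W → Bool), Tour o →
  ∀ (u v : W) (Y : (W → Col) → Prop), u ≠ v → (∀ c, ok o c u v → Y c) → Mixed o [u] u [v] Y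

def St_MIXN : Prop := ∀ (W : Type) (o : W → W → Bool), Tour o →
  ∀ (u z v y : W) (us vs : List W) (Y Y' : (W → Col) → Prop),
  ((u :: us) ++ (vs ++ [v, y])).Nodup → Mixed o (u :: us) z (vs ++ [v, y]) Y' →
  (∀ c, Y' c → ok o c u v → Y c) → Mixed o (u :: us) z (vs ++ [v]) Y

def St_MIXU : Prop := ∀ (W : Type) (o : W → W → Bool), Tour o →
  ∀ (u y z v : W) (m1 m2 vs : List W) (Y Y1 Y2 : (W → Col) → Prop),
  (y :: m2).getLast? = some z → ((u :: (m1 ++ y :: m2)) ++ (vs ++ [v])).Nodup →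
  Loc (u :: (m1 ++ [y])) Y1 → Loc ((y :: m2) ++ (vs ++ [v])) Y2 →
  Pure o u m1 y Y1 → Mixed o (y :: m2) z (vs ++ [v]) Y2 →
  (∀ c, Y1 c → Y2 c → ok o c u v → Y c) → Mixed o (u :: (m1 ++ y :: m2)) z (vs ++ [v]) Y

def St_MIXV : Prop := ∀ (W : Type) (o : W → W → Bool), Tour o →
  ∀ (u y z v : W) (us vs m2 : List W) (Y Y1 Y2 : (W → Col) → Prop),
  (u :: us).getLast? = some z → ((u :: us) ++ (vs ++ y :: (m2 ++ [v]))).Nodup →
  Loc ((u :: us) ++ (vs ++ [y])) Y1 → Loc (y :: (m2 ++ [v])) Y2 → Inv Y2 →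
  Mixed o (u :: us) z (vs ++ [y]) Y1 → Pure o y m2 v Y2 →
  (∀ c, Y1 c → Y2 c → ok o c u v → Y c) → Mixed o (u :: us) z (vs ++ y :: (m2 ++ [v])) Y

def St_MAIN : Prop := ∀ (W : Type) (o : W → W → Bool), Tour o →
  ∀ Hole, Sys o Hole → ∀ n l Y, Hole n l Y → ∃ c, Y c

/-! ### plane triangulations -/

/-- a loopless triangulation of genus zero; `be d` is the tail of the dart `d` -/
structure TMap {D W : Type} (al ph : Perm D) (be : D → W) : Prop where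
  al2 : ∀ d, al (al d) = d
  ph3 : ∀ d, ph (ph (ph d)) = d
  hd : ∀ d, be (ph d) = be (al d)
  nl : ∀ d, be (al d) ≠ be d
  vx : ∀ d e, be d = be e → (ph * al).SameCycle d e
  g0 : Gen0 (ph * al) al

/-- a set of faces bounded by the simple closed walk `cs` -/
structure DH {D W : Type} (al ph : Perm D) (be : D → W) (A : Set D) (cs : List D) : Prop where
  ne : cs ≠ []
  finv : ∀ d, d ∈ A ↔ ph d ∈ A
  bd : ∀ d, (d ∈ A ∧ al d ∉ A) ↔ d ∈ cs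
  cyc : cs.map (fun d => be (al d)) = (cs.map be).rotate 1
  nd : (cs.map be).Nodup
  nc : ∀ B ⊆ A, (∀ d, d ∈ B ↔ ph d ∈ B) → (∀ d ∈ B, al d ∈ B) → B = ∅

def St_STEL : Prop := ∀ (V : Type) [Fintype V] (G : SimpleGraph V), Pl G →
  ∃ (D W : Type) (_ : Finite D) (al ph : Perm D) (be : D → W) (ι : V → W),
    Function.Injective ι ∧ TMap al ph be ∧
      ∀ u v, G.Adj u v → ∃ d, be d = ι u ∧ be (al d) = ι v

def St_JORD : Prop := ∀ (D W : Type) [Finite D] (al ph : Perm D) (be : D → W), TMap al ph be →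
  ∀ cs : List D, cs ≠ [] → cs.map (fun d => be (al d)) = (cs.map be).rotate 1 →
  (cs.map be).Nodup → (∀ d ∈ cs, al d ∉ cs) →
  ∃ S : Set D, (∀ d, d ∈ S ↔ ph d ∈ S) ∧ ∀ d, (d ∈ S ∧ al d ∉ S) ↔ d ∈ cs

def St_PEELN : Prop := ∀ (D W : Type) [Finite D] (al ph : Perm D) (be : D → W), TMap al ph be →
  ∀ (A : Set D) (cs : List D) (c : D), DH al ph be A (cs ++ [c]) →
  be (ph (ph c)) ∉ (cs ++ [c]).map be →
  DH al ph be (A \ {c, ph c, ph (ph c)}) (cs ++ [al (ph (ph c)), al (ph c)])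

def St_PEELS : Prop := ∀ (D W : Type) [Finite D] (al ph : Perm D) (be : D → W), TMap al ph be →
  ∀ (A : Set D) (cs1 cs2 : List D) (e c : D), DH al ph be A (cs1 ++ e :: (cs2 ++ [c])) →
  be e = be (ph (ph c)) →
  ∃ A1 A2 : Set D, Disjoint A1 A2 ∧ A1 ∪ A2 = A \ {c, ph c, ph (ph c)} ∧
    ((cs1 = [ph c] ∧ A1 = ∅) ∨ DH al ph be A1 (cs1 ++ [al (ph c)])) ∧
    ((e = ph (ph c) ∧ cs2 = [] ∧ A2 = ∅) ∨ DH al ph be A2 (e :: (cs2 ++ [al (ph (ph c))])))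

def St_SYS : Prop := ∀ (D W : Type) [Finite D] (al ph : Perm D) (be : D → W), TMap al ph be →
  ∀ o : W → W → Bool, Tour o → ∃ Hole, Sys o Hole ∧ ∀ A cs, DH al ph be A cs →
    ∃ n Y, Hole n (cs.map be) Y ∧ ∀ c, Y c → ∃ c', ∀ d ∈ A, ok o c' (be d) (be (al d))

def St_COL : Prop := ∀ (D W : Type) [Finite D] (al ph : Perm D) (be : D → W), TMap al ph be →
  ∀ o : W → W → Bool, Tour o → ∃ c, ∀ d, ok o c (be d) (be (al d))

def St_FIN : Prop := ∀ (V : Type) [Fintype V] (G : SimpleGraph V), IsPlanar G →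
  ∀ A : V → V → Prop, (∀ u v, A u v → G.Adj u v) → (∀ u v, A u v → ¬ A v u) →
  ∃ c : V → Fin 66, (∀ u v, A u v → c u ≠ c v) ∧
    ∀ u v x y, A u v → A x y → ¬ (c u = c y ∧ c v = c x)

end Pool.Agent.OD66
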