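import Pool.Agent.Lib.OD.Test

/-! The Courant-Lebesgue oscillation lemma. -/

set_option autoImplicit false

open MeasureTheory Metric Set Filter Topology
open scoped ContDiff ENNReal NNReal InnerProductSpace Real

namespace Pool.Agent.Lib.OD

/-- the plane as the complex line -/
noncomputable abbrev ce : ℂ ≃ₗᵢ[ℝ] Pl := Complex.orthonormalBasisOneI.repr

/-- polar coordinates about a point -/
noncomputable def pt (x0 : Pl) (r θ : ℝ) : Pl := x0 + ce (circleMap 0 r θ)

lemma cont_pt (x0 : Pl) : Continuous fun p : ℝ × ℝ => pt x0 p.1 p.2 := by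
  unfold pt circleMap
  fun_prop

lemma exists_pt {x0 y : Pl} {r : ℝ} (hy : y ∈ sphere x0 r) :
    ∃ θ ∈ Icc (-π) π, y = pt x0 r θ := by
  refine ⟨Complex.arg (ce.symm (y - x0)), ⟨(Complex.neg_pi_lt_arg _).le, Complex.arg_le_pi _⟩, ?_⟩
  have h1 : ‖ce.symm (y - x0)‖ = r := by
    rw [LinearIsometryEquiv.norm_map, ← dist_eq_norm]; exact hy
  rw [pt, circleMap_zero, ← h1, Complex.norm_mul_exp_arg_mul_I,
    LinearIsometryEquiv.apply_symm_apply, add_sub_cancel]

lemma osc_circle {U : Pl → ℝ} (hU : ContDiff ℝ ∞ U) {x0 y y' : Pl} {r : ℝ} (hr : 0 < r)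
    (hy : y ∈ sphere x0 r) (hy' : y' ∈ sphere x0 r) :
    ENNReal.ofReal |U y - U y'| ≤
      ∫⁻ θ in Ioo (-π) π, ENNReal.ofReal r * ‖gradient U (pt x0 r θ)‖ₑ := by
  have hp : Continuous (pt x0 r) := by
    unfold pt circleMap
    fun_prop
  have hc : Continuous fun θ => r * ‖gradient U (pt x0 r θ)‖ :=
    continuous_const.mul ((cont_grad hU).comp hp).norm
  have hd : ∀ θ, HasDerivAt (fun θ => U (pt x0 r θ))
      (fderiv ℝ U (pt x0 r θ) (ce (circleMap 0 r θ * Complex.I))) θ := by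
    intro θ
    have h1 : HasDerivAt (pt x0 r) (ce (circleMap 0 r θ * Complex.I)) θ :=
      (ce.toContinuousLinearEquiv.hasFDerivAt.comp_hasDerivAt θ
        (hasDerivAt_circleMap 0 r θ)).const_add x0
    exact (hU.differentiable (by simp) _).hasFDerivAt.comp_hasDerivAt θ h1
  have hc' : Continuous fun θ => fderiv ℝ U (pt x0 r θ) (ce (circleMap 0 r θ * Complex.I)) :=
    ((hU.continuous_fderiv (by simp)).comp hp).clm_apply (by fun_prop)
  have key : ∀ a ∈ Icc (-π) π, ∀ b ∈ Icc (-π) π, a ≤ b → |U (pt x0 r b) - U (pt x0 r a)| ≤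
      ∫ θ in (-π)..π, r * ‖gradient U (pt x0 r θ)‖ := by
    intro a ha b hb hab
    rw [← intervalIntegral.integral_eq_sub_of_hasDerivAt (fun θ _ => hd θ)
      (hc'.intervalIntegrable _ _), ← Real.norm_eq_abs]
    refine (intervalIntegral.norm_integral_le_of_norm_le (μ := volume) hab
      (Eventually.of_forall fun θ _ => ?_) (hc.intervalIntegrable _ _)).trans (intervalIntegral.integral_mono_interval ha.1 hab hb.2
        (Eventually.of_forall fun θ => by positivity) (hc.intervalIntegrable _ _))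
    refine (ContinuousLinearMap.le_opNorm _ _).trans (le_of_eq ?_)
    rw [LinearIsometryEquiv.norm_map, norm_mul, norm_circleMap_zero, Complex.norm_I, mul_one,
      abs_of_pos hr, norm_grad, mul_comm]
  have h2 : |U y - U y'| ≤ ∫ θ in (-π)..π, r * ‖gradient U (pt x0 r θ)‖ := by
    obtain ⟨a, ha, rfl⟩ := exists_pt hy
    obtain ⟨b, hb, rfl⟩ := exists_pt hy'
    rcases le_total a b with h | h
    · rw [abs_sub_comm]; exact key a ha b hb h
    · exact key b hb a ha h
  refine (ENNReal.ofReal_le_ofReal h2).trans (le_of_eq ?_)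
  rw [intervalIntegral.integral_of_le (by linarith [Real.pi_pos]), integral_Ioc_eq_integral_Ioo,
    ofReal_integral_eq_lintegral_ofReal
      ((hc.integrableOn_Icc (a := -π) (b := π)).mono_set Ioo_subset_Icc_self)
      (Eventually.of_forall fun θ => by positivity)]
  refine lintegral_congr fun θ => ?_
  rw [ENNReal.ofReal_mul hr.le, ofReal_norm]

lemma polar_le {H : Pl → ℝ≥0∞} (hH : Measurable H) (x0 : Pl) {ρ : ℝ} (hρ : 0 < ρ) :
    ∫⁻ r in Ioo (ρ / 2) ρ, ∫⁻ θ in Ioo (-π) π, ENNReal.ofReal r * H (pt x0 r θ) ≤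
      ∫⁻ x, H x ∂dm x0 ρ := by
  have mp : MeasurePreserving (fun z : ℂ => x0 + ce z) volume volume :=
    (measurePreserving_add_left volume x0).comp ce.measurePreserving
  have hm : Measurable fun p : ℝ × ℝ => ENNReal.ofReal p.1 * H (pt x0 p.1 p.2) :=
    (ENNReal.measurable_ofReal.comp measurable_fst).mul (hH.comp (cont_pt x0).measurable)
  rw [← lintegral_indicator measurableSet_ball, ← mp.lintegral_comp (hH.indicator measurableSet_ball),
    ← Complex.lintegral_comp_polarCoord_symm, ← setLIntegral_prod _ hm.aemeasurable,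
    ← Measure.volume_eq_prod]
  refine le_trans (le_of_eq ?_) (lintegral_mono_set (s := Ioo (ρ / 2) ρ ×ˢ Ioo (-π) π)
    (prod_mono (fun r hr => lt_trans (by positivity) hr.1) subset_rfl))
  refine setLIntegral_congr_fun (measurableSet_Ioo.prod measurableSet_Ioo) fun p hp => ?_
  have h1 : Complex.polarCoord.symm p = circleMap 0 p.1 p.2 := by
    rw [Complex.polarCoord_symm_apply, circleMap_zero, Complex.exp_mul_I]; simp
  have h2 : x0 + ce (circleMap 0 p.1 p.2) ∈ ball x0 ρ := by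
    rw [mem_ball, dist_eq_norm, add_sub_cancel_left, LinearIsometryEquiv.norm_map,
      norm_circleMap_zero, abs_of_pos (lt_trans (by positivity) hp.1.1)]
    exact hp.1.2
  simp only [h1, indicator_of_mem h2, smul_eq_mul, pt]

lemma real_dm_univ (x0 : Pl) {ρ : ℝ} (hρ : 0 ≤ ρ) : (dm x0 ρ).real univ ≤ 4 * ρ ^ 2 := by
  rw [measureReal_restrict_apply_univ, Measure.real, EuclideanSpace.volume_ball_fin_two,
    ENNReal.toReal_mul, ENNReal.toReal_pow, ENNReal.toReal_ofReal hρ,
    ENNReal.toReal_ofReal Real.pi_pos.le]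
  nlinarith [Real.pi_le_four, sq_nonneg ρ]

theorem circ {U : ℕ → Pl → ℝ} (hU : ∀ n, ContDiff ℝ ∞ (U n)) {x0 : Pl} {ρ η : ℝ} (hρ : 0 < ρ)
    (hη : 0 < η) (hE : ∀ᶠ n in atTop, ∫ x, ‖gradient (U n) x‖ ^ 2 ∂dm x0 ρ ≤ η ^ 2) :
    ∃ r ∈ Ioo (ρ / 2) ρ, ∃ᶠ n in atTop, ∀ y ∈ sphere x0 r, ∀ y' ∈ sphere x0 r,
      |U n y - U n y'| ≤ 5 * η := by
  let L : ℕ → ℝ → ℝ≥0∞ := fun n r =>
    ∫⁻ θ in Ioo (-π) π, ENNReal.ofReal r * ‖gradient (U n) (pt x0 r θ)‖ₑ
  have mH : ∀ n, Measurable fun x => ‖gradient (U n) x‖ₑ := fun n =>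
    (cont_grad (hU n)).enorm.measurable
  have mL : ∀ n, Measurable (L n) := fun n =>
    Measurable.lintegral_prod_right' (f := fun p : ℝ × ℝ =>
      ENNReal.ofReal p.1 * ‖gradient (U n) (pt x0 p.1 p.2)‖ₑ)
      ((ENNReal.measurable_ofReal.comp measurable_fst).mul ((mH n).comp (cont_pt x0).measurable))
  have h1 : ∀ᶠ n in atTop, ∫⁻ r in Ioo (ρ / 2) ρ, L n r ≤ ENNReal.ofReal (2 * ρ * η) := by
    filter_upwards [hE] with n hn
    have hg := memLp_grad (hU n) x0 ρ
    refine (polar_le (mH n) x0 hρ).trans ?_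
    rw [← ofReal_integral_norm_eq_lintegral_enorm (hg.integrable (by norm_num))]
    refine ENNReal.ofReal_le_ofReal (abs_le_of_sq_le_sq' ?_ (by positivity)).2
    have h2 := cs (memLp_const (μ := dm x0 ρ) (1 : ℝ)) hg.norm
    simp only [one_mul, one_pow, integral_const, smul_eq_mul, mul_one] at h2
    have h3 := mul_le_mul (real_dm_univ x0 hρ.le) hn (integral_nonneg fun x => sq_nonneg _)
      (by positivity)
    nlinarith
  have h2 : ∫⁻ r in Ioo (ρ / 2) ρ, liminf (fun n => L n r) atTop ≤ ENNReal.ofReal (2 * ρ * η) :=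
    (lintegral_liminf_le mL).trans (liminf_le_of_frequently_le' h1.frequently)
  obtain ⟨r, hr, hr2⟩ : ∃ r ∈ Ioo (ρ / 2) ρ, liminf (fun n => L n r) atTop
      < ENNReal.ofReal (5 * η) := by
    by_contra hcon
    push Not at hcon
    have h3 := (setLIntegral_mono' (μ := volume) measurableSet_Ioo hcon).trans h2
    rw [setLIntegral_const, Real.volume_Ioo, ← ENNReal.ofReal_mul (by positivity),
      ENNReal.ofReal_le_ofReal_iff (by positivity)] at h3
    nlinarith [mul_pos hρ hη]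
  refine ⟨r, hr, (frequently_lt_of_liminf_lt (h := hr2)).mono fun n hn y hy y' hy' => ?_⟩
  have := (osc_circle (hU n) (lt_trans (by positivity) hr.1) hy hy').trans hn.le
  rwa [ENNReal.ofReal_le_ofReal_iff (by positivity)] at this

end Pool.Agent.Lib.OD
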