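import Mathlib

set_option autoImplicit false

namespace Pool.Agent.OD66

/-- labels -/
abbrev Z := ZMod 11

/-- nonzero squares modulo 11 -/
def isQ (x : Z) : Bool := decide (x = 1 ∨ x = 3 ∨ x = 4 ∨ x = 5 ∨ x = 9)

/-- colours: level modulo 3, label, bit -/
abbrev Col := ZMod 3 × Z × Bool

/-- arcs of the target graph on 66 vertices -/
def arc (a b : Col) : Bool :=
  if a.1 = b.1 then isQ (b.2.1 - a.2.1)
  else if a.1 = b.1 + 1 then xor a.2.2 (isQ (b.2.1 - a.2.1))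
  else !(xor b.2.2 (isQ (a.2.1 - b.2.1)))

/-- the map `(i, s, b) ↦ (i + k, c * s + t, b)` -/
def mv (k : ZMod 3) (c t : Z) (a : Col) : Col := (a.1 + k, c * a.2.1 + t, a.2.2)

/-- a tournament -/
def Tour {W : Type} (o : W → W → Bool) : Prop := ∀ x y, x ≠ y → o y x = !(o x y)

/-- the colouring respects the orientation of the pair `x, y` -/
def ok {W : Type} (o : W → W → Bool) (c : W → Col) (x y : W) : Prop :=
  (if o x y = true then arc (c x) (c y) else arc (c y) (c x)) = true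

/-- an abstract system of triangulated discs, peeled one triangle at a time -/
structure Sys {W : Type} (o : W → W → Bool)
    (Hole : ℕ → List W → ((W → Col) → Prop) → Prop) : Prop where
  nodup : ∀ n l Y, Hole n l Y → l.Nodup
  len : ∀ n l Y, Hole n l Y → 2 ≤ l.length
  loc : ∀ n l Y, Hole n l Y → ∀ c c' : W → Col, (∀ x ∈ l, c x = c' x) → Y c → Y c'
  aut : ∀ n l Y, Hole n l Y → ∀ k c t, isQ c = true → ∀ f : W → Col, Y f →
    Y fun x => mv k c t (f x)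
  peel : ∀ n x m z Y, Hole n (x :: (m ++ [z])) Y →
    (m = [] ∧ ∀ c, ok o c x z → Y c) ∨
    (∃ y n' Y', n' < n ∧ Hole n' (x :: (m ++ [z, y])) Y' ∧ ∀ c, Y' c → ok o c x z → Y c) ∨
    (∃ m1 y m2 n1 n2 Y1 Y2, m = m1 ++ y :: m2 ∧ n1 < n ∧ n2 < n ∧
      Hole n1 (x :: (m1 ++ [y])) Y1 ∧ Hole n2 (y :: (m2 ++ [z])) Y2 ∧
      ∀ c, Y1 c → Y2 c → ok o c x z → Y c)

/-- arc between labels in the direction `d` -/
def ar (d : Bool) (x y : Z) : Prop := (if d = true then isQ (y - x) else isQ (x - y)) = true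

/-- arc with prescribed parity of the classes of its ends -/
def T1 (d e : Bool) (x y : Z) : Prop := ar d x y ∧ xor (isQ x) (isQ y) = e

/-- admissible triples (row at `0`, row at `1`, row at `-1`) -/
def fam : Bool → List (List Z × List Z × List Z)
  | false => [
      ([], [3, 5, 9], [0, 2, 6, 7]), ([], [1, 3, 4], [2, 6, 7, 8, 10]),
      ([0, 2, 6, 7, 8, 10], [1, 3, 4], [0, 7, 8, 10]), ([2, 6, 7, 8, 10], [4, 5, 9], [2, 6, 8]),
      ([], [3, 4, 5, 9], [2, 6, 7, 8, 10]), ([], [3, 4, 5, 9], [0, 6, 7, 8, 10]),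
      ([], [3, 4, 5, 9], [0, 2, 7, 8, 10]), ([], [3, 4, 5, 9], [0, 2, 6, 8, 10]),
      ([], [1, 4, 5, 9], [2, 6, 7, 8, 10]), ([], [1, 4, 5, 9], [0, 6, 7, 8, 10]),
      ([], [1, 4, 5, 9], [0, 2, 7, 8, 10]), ([], [1, 4, 5, 9], [0, 2, 6, 8, 10]),
      ([], [1, 4, 5, 9], [0, 2, 6, 7, 10]), ([], [1, 4, 5, 9], [0, 2, 6, 7, 8]),
      ([], [1, 3, 5, 9], [2, 6, 7, 8, 10]), ([], [1, 3, 5, 9], [0, 6, 7, 8, 10]),
      ([], [1, 3, 5, 9], [0, 2, 7, 8, 10]), ([], [1, 3, 5, 9], [0, 2, 6, 8, 10]),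
      ([], [1, 3, 4, 9], [0, 6, 7, 8, 10]), ([], [1, 3, 4, 9], [0, 2, 7, 8, 10]),
      ([], [1, 3, 4, 9], [0, 2, 6, 8, 10]), ([], [1, 3, 4, 9], [0, 2, 6, 7, 10]),
      ([], [1, 3, 4, 9], [0, 2, 6, 7, 8]), ([], [1, 3, 4, 5], [0, 6, 7, 8, 10]),
      ([], [1, 3, 4, 5], [0, 2, 7, 8, 10]), ([], [1, 3, 4, 5], [0, 2, 6, 8, 10]),
      ([], [1, 3, 4, 5], [0, 2, 6, 7, 10]), ([], [1, 3, 4, 5], [0, 2, 6, 7, 8]),
      ([2, 6, 7, 8, 10], [1, 3, 4, 5], [2, 7, 8, 10]),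
      ([2, 6, 7, 8, 10], [3, 4, 5], [0, 2, 6, 7, 8]),
      ([2, 6, 7, 8, 10], [3, 4, 5, 9], [0, 2, 7, 8]),
      ([0, 2, 6, 7, 8, 10], [1, 3, 4], [0, 2, 6, 10]),
      ([0, 2, 6, 7, 8, 10], [1, 5, 9], [0, 2, 6, 7, 8, 10]),
      ([2, 6, 7, 8, 10], [3, 4, 9], [0, 2, 6, 7, 8]),
      ([2, 6, 7, 8, 10], [3, 4, 5, 9], [0, 6, 7, 8]),
      ([2, 6, 7, 8, 10], [1, 3, 4, 5, 9], [0, 7, 8, 10]),
      ([0, 2, 6, 7, 8, 10], [1, 4, 5, 9], [0, 2, 8, 10]),
      ([0, 2, 6, 7, 8, 10], [1, 4, 5], [0, 2, 6, 8, 10])]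
  | true => [
      ([], [2, 6, 7, 8, 10], [3, 4, 5, 9]), ([], [2, 6, 7, 8, 10], [1, 4, 5, 9]),
      ([], [2, 6, 7, 8, 10], [1, 3, 5, 9]), ([], [2, 6, 7, 8, 10], [1, 3, 4, 9]),
      ([], [2, 6, 7, 8, 10], [1, 3, 4, 5]), ([], [0, 6, 7, 8, 10], [3, 4, 5, 9]),
      ([], [0, 6, 7, 8, 10], [1, 4, 5, 9]), ([], [0, 6, 7, 8, 10], [1, 3, 5, 9]),
      ([], [0, 6, 7, 8, 10], [1, 3, 4, 9]), ([], [0, 6, 7, 8, 10], [1, 3, 4, 5]),
      ([], [0, 2, 7, 8, 10], [3, 4, 5, 9]), ([], [0, 2, 7, 8, 10], [1, 4, 5, 9]),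
      ([], [0, 2, 7, 8, 10], [1, 3, 5, 9]), ([], [0, 2, 7, 8, 10], [1, 3, 4, 9]),
      ([], [0, 2, 7, 8, 10], [1, 3, 4, 5]), ([], [0, 2, 6, 8, 10], [3, 4, 5, 9]),
      ([], [0, 2, 6, 8, 10], [1, 4, 5, 9]), ([], [0, 2, 6, 8, 10], [1, 3, 5, 9]),
      ([], [0, 2, 6, 8, 10], [1, 3, 4, 9]), ([], [0, 2, 6, 8, 10], [1, 3, 4, 5]),
      ([], [0, 2, 6, 7, 10], [3, 4, 5, 9]), ([], [0, 2, 6, 7, 10], [1, 4, 5, 9]),
      ([], [0, 2, 6, 7, 10], [1, 3, 5, 9]), ([], [0, 2, 6, 7, 10], [1, 3, 4, 9]),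
      ([], [0, 2, 6, 7, 10], [1, 3, 4, 5]), ([], [0, 2, 6, 7, 8], [3, 4, 5, 9]),
      ([], [0, 2, 6, 7, 8], [1, 4, 5, 9]), ([], [0, 2, 6, 7, 8], [1, 3, 5, 9]),
      ([], [0, 2, 6, 7, 8], [1, 3, 4, 9]), ([], [0, 2, 6, 7, 8], [1, 3, 4, 5]),
      ([1, 3, 4, 5, 9], [0, 2, 6, 7, 8, 10], [3, 4, 5]),
      ([1, 3, 4, 5, 9], [2, 6, 8, 10], [1, 3, 4, 5, 9]),
      ([1, 3, 4, 5, 9], [2, 6, 7, 10], [1, 3, 4, 5, 9]),
      ([1, 3, 4, 5, 9], [0, 6, 7, 8], [1, 3, 4, 5, 9])]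

def RowOK (e : Bool) (R : Z → Z → Prop) : Prop :=
  ∃ m ∈ fam e, (∀ y ∈ m.1, R 0 y) ∧ (∀ y ∈ m.2.1, R 1 y) ∧ ∀ y ∈ m.2.2, R (-1) y

/-- the row at `x` misses at most one label in each class -/
def Big (R : Z → Z → Prop) (x : Z) : Prop :=
  ∀ y y', y ≠ y' → isQ y = isQ y' → R x y ∨ R x y'

def Sym (R : Z → Z → Prop) : Prop := ∀ c, isQ c = true → ∀ x y, R x y → R (c * x) (c * y)

/-- long relations -/
def Ty2 (e : Bool) (R : Z → Z → Prop) : Prop :=
  Sym R ∧ RowOK e R ∧ RowOK e fun x y => R y x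

/-- short or long relations -/
def Ty (e : Bool) (R : Z → Z → Prop) : Prop :=
  (Sym R ∧ ∃ d, ∀ x y, T1 d e x y → R x y) ∨ Ty2 e R

/-- start label, end label, forbidden label of the marked vertex -/
abbrev Ter := Z → Z → Z → Prop

def SymT (M : Ter) : Prop :=
  ∀ c, isQ c = true → ∀ x y r, M x y r → M (c * x) (c * y) (c * r)

def ParT (e : Bool) (M : Ter) : Prop := ∀ x y r, M x y r → xor (isQ x) (isQ y) = e

def flex (M : Ter) (x y : Z) : Prop := ∀ r, M x y r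

def K0 (M : Ter) : Prop := ∀ x r, M x x r

def K1 (d e : Bool) (M : Ter) : Prop := ∀ x y r, T1 d e x y → M x y r

def K2 (e : Bool) (M : Ter) : Prop := Ty2 e (flex M)

/-- the mark is the start vertex -/
def M0 (e : Bool) (M : Ter) : Prop := ∃ R, Ty e R ∧ ∀ x y r, R x y → x ≠ r → M x y r

/-- the mark is a junction -/
def M1 (e : Bool) (M : Ter) : Prop :=
  ∃ e1 e2 R1 R2, xor e1 e2 = e ∧ Ty e1 R1 ∧ Ty e2 R2 ∧
    ∀ x w y r, R1 x w → R2 w y → w ≠ r → M x y r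

/-- the mark is resolved -/
def M2 (e : Bool) (M : Ter) : Prop :=
  (∀ S, Ty2 e S → ∃ x y, S y x ∧ flex M x y) ∧
    ∀ d μ, ∃ x y, T1 d e x y ∧ M x y (x + μ * (y - x))

def cmp (M N : Ter) : Ter := fun x y r => ∃ p, M x p r ∧ N p y r

/-- composition of translated relations, the head of the list being the last one -/
def chain : List (Ter × Z) → Ter
  | [] => fun x y _ => x = y
  | z :: L => fun x y r => ∃ p, chain L x p r ∧ z.1 (p - z.2) (y - z.2) (r - z.2)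

/-- relation of a branch -/
def br (e : Bool) (L : List (Ter × Z)) : Ter := fun x y r =>
  xor (isQ x) (isQ y) = e ∧ ∃ c, isQ c = true ∧ chain (L.map fun z => (z.1, c * z.2)) x y r

/-- composition of translated binary relations, the head of the list being the last one -/
def ch : List ((Z → Z → Prop) × Z) → Z → Z → Prop
  | [] => fun x y => x = y
  | z :: L => fun x y => ∃ p, ch L x p ∧ z.1 (p - z.2) (y - z.2)

/-- multiply all labels by `c` -/
def scale (c : Z) (L : List ((Z → Z → Prop) × Z)) : List ((Z → Z → Prop) × Z) :=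
  L.map fun z => (z.1, c * z.2)

/-- union of the rotated compositions -/
def sch (L : List ((Z → Z → Prop) × Z)) (x y : Z) : Prop :=
  ∃ c, isQ c = true ∧ ch (scale c L) x y

/-- rotated compositions with a marked junction between `L1` (first) and `L2` (second) -/
def jn (e : Bool) (L1 L2 : List ((Z → Z → Prop) × Z)) : Ter := fun x y r =>
  xor (isQ x) (isQ y) = e ∧
    ∃ c, isQ c = true ∧ ∃ w, ch (scale c L1) x w ∧ ch (scale c L2) w y ∧ w ≠ r

def AllTy (L : List ((Z → Z → Prop) × Z)) : Prop := ∀ z ∈ L, ∃ e, Ty e z.1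

/-- `Y` depends only on the values on `l` -/
def Loc {W : Type} (l : List W) (Y : (W → Col) → Prop) : Prop :=
  ∀ c c' : W → Col, (∀ x ∈ l, c x = c' x) → Y c → Y c'

/-- `Y` is invariant under the symmetries of the target -/
def Inv {W : Type} (Y : (W → Col) → Prop) : Prop :=
  ∀ k c t, isQ c = true → ∀ f : W → Col, Y f → Y fun x => mv k c t (f x)

section vertices

variable {W : Type} (o : W → W → Bool)

/-- unmarked entry of the vertex `v` from `a` to `u` -/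
def EntU (v a u : W) (M : Ter) : Prop :=
  SymT M ∧ ParT (xor (o v a) (o v u)) M ∧
    ((a = u ∧ K0 M) ∨ (a ≠ u ∧ K1 (o a u) (xor (o v a) (o v u)) M) ∨ K2 (xor (o v a) (o v u)) M)

/-- marked entry -/
def EntM (w v a u : W) (M : Ter) : Prop :=
  SymT M ∧ ParT (xor (o v a) (o v u)) M ∧
    ((a = w ∧ M0 (xor (o v a) (o v u)) M) ∨ M1 (xor (o v a) (o v u)) M ∨
      M2 (xor (o v a) (o v u)) M)

/-- stack of unmarked entries (vertex, start, relation), top first, ending at `u` -/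
def StkU : List (W × W × Ter) → W → Prop
  | [], _ => True
  | z :: es, u => EntU o z.1 z.2.1 u z.2.2 ∧ StkU es z.2.1

/-- stack with at most one marked entry -/
def StkM (w : W) : List (W × W × Ter) → W → Prop
  | [], _ => True
  | z :: es, u => (EntU o z.1 z.2.1 u z.2.2 ∧ StkM w es z.2.1) ∨
      (EntM o w z.1 z.2.1 u z.2.2 ∧ StkU o es z.2.1)

/-- start vertex of a stack ending at `u` -/
def bot : List (W × W × Ter) → W → W
  | [], u => u
  | z :: es, _ => bot es z.2.1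

/-- all entries are degenerate -/
def AllDeg : List (W × W × Ter) → W → Prop
  | [], _ => True
  | z :: es, u => (z.2.1 = u ∧ K0 z.2.2) ∧ AllDeg es z.2.1

/-- some nondegenerate entry has a nonzero label -/
def NZ (t : W → Z) : List (W × W × Ter) → W → Prop
  | [], _ => False
  | z :: es, u => (¬ (z.2.1 = u ∧ K0 z.2.2) ∧ t z.1 ≠ 0) ∨ NZ t es z.2.1

/-- the relation realised by the part already peeled -/
def Lft (s : W → Z) (b : W → Bool) : List (W × W × Ter) → Ter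
  | [] => fun x y _ => x = y
  | z :: es => fun x y r => ∃ p, Lft s b es x p r ∧
      z.2.2 (p - s z.1) (y - s z.1) (r - s z.1) ∧ b z.1 = xor (isQ (p - s z.1)) (o z.1 z.2.1)

/-- invariant of a disc whose boundary `x :: (m ++ [z])` lies on one level -/
def Pure (x : W) (m : List W) (z : W) (Y : (W → Col) → Prop) : Prop :=
  ∀ w p q r, ar (o x z) p q → ∃ s : W → Z, s x = p ∧ s z = q ∧ (w ∈ m → s w ≠ r) ∧
    ∀ b : W → Bool, Y fun v => (0, s v, b v)

open Classical in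
/-- invariant of a disc whose boundary `us ++ vs` lies on two levels; `z` is the last vertex of
`us`, and the stack `es ++ [(v1, a1, N)]` lists `vs` backwards -/
def Mixed (us : List W) (z : W) (vs : List W) (Y : (W → Col) → Prop) : Prop :=
  ∀ (w u v1 a1 : W) (N : Ter) (es : List (W × W × Ter)), us.head? = some u → w ≠ z →
    ((es ++ [(v1, a1, N)]).map Prod.fst).reverse = vs →
    StkM o w (es ++ [(v1, a1, N)]) u → (w ∈ us → StkU o (es ++ [(v1, a1, N)]) u) →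
    ∃ M, (EntU o v1 a1 z M ∨ EntM o w v1 a1 z M) ∧ ∀ x y r, M x y r →
      ∃ (s : W → Z) (b : W → Bool), s v1 = 0 ∧ s z = y ∧ (w ∈ us → s w ≠ r) ∧
        Lft o s b (es ++ [(v1, a1, N)]) x (s u) r ∧
        ∀ b' : W → Bool, Y fun v => if v ∈ us then (0, s v, b' v) else (1, s v, b v)

end vertices

end Pool.Agent.OD66
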