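import Pool.Agent.Lib.OD.J3E

set_option autoImplicit false

namespace Pool.Agent.OD66.F21

open CLKF J3

/-- start of the row of the index `k` -/
def sg (k : ℕ) : Z := if k < 55 then 1 else -1

/-- the state read from the rows `ρ x c` -/
def st (ρ : Z → Z → Z → Prop) (g : Z) (k : ℕ) : Prop := ρ (sg k) (g * 4 ^ (k / 11)) (k : Z)

theorem cast_row (r y : ℕ) : ((11 * r + y : ℕ) : Z) = y := by
  rw [Nat.cast_add, Nat.cast_mul]
  have : ((11 : ℕ) : Z) = 0 := by decide
  rw [this, zero_mul, zero_add]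

theorem rel_bt {d j m : ℕ} (hm : ∀ k, (col tys k).testBit (j % 76) = true → m.testBit k = true)
    (t : Z) (k y : ℕ) (h : (rel d (idx t.val k y)).testBit j = true) :
    bt m ((y : Z) - 4 ^ (k / 11) * t) ((k : Z) - 4 ^ (k / 11) * t) :=
  idx_bt m t k y (hm _ (repl_bit _ (fun i hi => tys_len ▸ col_lt _ _ i hi) d j h))

theorem stp_sound (d : ℕ) (V : ℕ → ℕ) (ρ ρ' : Z → Z → Z → Prop) (R : Z → Z → Prop) (g t : Z)
    (m j : ℕ) (hV : ∀ k, (V k).testBit j = true → st ρ g k)
    (hm : ∀ k, (col tys k).testBit (j % 76) = true → m.testBit k = true)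
    (hR : ∀ x y, bt m x y → R x y)
    (hρ : ∀ x c y y', ρ x c y → R (y - c * t) (y' - c * t) → ρ' x c y') (k : ℕ)
    (h : (stp d V (g * t).val k).testBit j = true) : st ρ' g k := by
  obtain ⟨y, hy, h⟩ := or11_bit _ _ h
  rw [land_bit, Bool.and_eq_true, frc_eq, frc_eq] at h
  obtain ⟨h1, h2⟩ := h
  have h3 := hV _ h1
  have h4 := rel_bt hm (g * t) k y h2
  have e1 : Nat.add (Nat.mul 11 (Nat.div k 11)) y = 11 * (k / 11) + y := rfl
  have e2 : (11 * (k / 11) + y) / 11 = k / 11 := by omega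
  have e5 : sg (11 * (k / 11) + y) = sg k := by
    unfold sg
    by_cases hk : k < 55
    · rw [if_pos hk, if_pos (by omega)]
    · rw [if_neg hk, if_neg (by omega)]
  unfold st at h3 ⊢
  rw [e1, e2, cast_row, e5] at h3
  refine hρ _ _ _ _ h3 (hR _ _ ?_)
  have e4 : g * 4 ^ (k / 11) * t = 4 ^ (k / 11) * (g * t) := by ring
  rw [e4]
  exact h4

noncomputable def rix (h k : ℕ) : ℕ :=
  Nat.add (cond (Nat.ble 55 k) 55 0) (Nat.mod (Nat.add k (Nat.mul 11 h)) 55)

theorem st_rot (ρ : Z → Z → Z → Prop) (g : Z) (h k : ℕ) (H : st ρ g (rix h k)) :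
    st ρ (g * 4 ^ h) k := by
  have e3 : ∀ n, (4 : Z) ^ (n % 5) = 4 ^ n := fun n => (pow_eq_pow_mod _ (by decide)).symm
  have e4 : g * 4 ^ h * 4 ^ (k / 11) = g * (4 ^ (k / 11) * 4 ^ h) := by ring
  unfold st at H ⊢
  rw [e4, ← pow_add]
  by_cases hk : k < 55
  · have hb : Nat.ble 55 k = false := by
      rw [← Bool.not_eq_true, Nat.ble_eq]
      omega
    have e0 : rix h k = (k + 11 * h) % 55 := by
      unfold rix
      rw [hb]
      exact Nat.zero_add _
    have e1 : (k + 11 * h) % 55 / 11 = (k / 11 + h) % 5 := by omega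
    have e2 : (((k + 11 * h) % 55 : ℕ) : Z) = k := by
      rw [ZMod.natCast_eq_natCast_iff']
      omega
    have e5 : sg ((k + 11 * h) % 55) = sg k := by
      unfold sg
      rw [if_pos hk, if_pos (by omega)]
    rw [e0, e1, e2, e3, e5] at H
    exact H
  · have hb : Nat.ble 55 k = true := by
      rw [Nat.ble_eq]
      omega
    have e0 : rix h k = 55 + (k + 11 * h) % 55 := by
      unfold rix
      rw [hb]
      rfl
    have e1 : (55 + (k + 11 * h) % 55) / 11 = 5 + (k / 11 + h) % 5 := by omega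
    have e2 : ((55 + (k + 11 * h) % 55 : ℕ) : Z) = k := by
      rw [ZMod.natCast_eq_natCast_iff']
      omega
    have e5 : sg (55 + (k + 11 * h) % 55) = sg k := by
      unfold sg
      rw [if_neg hk, if_neg (by omega)]
    have e6 : (4 : Z) ^ 5 = 1 := by decide
    rw [e0, e1, e2, pow_add, e6, one_mul, e3, e5] at H
    exact H

noncomputable def rotE (W : ℕ → ℕ) (h k : ℕ) : ℕ := frc (rix h k) W

theorem rotE_sound {W : ℕ → ℕ} {ρ : Z → Z → Z → Prop} {g : Z} {j : ℕ}
    (hW : ∀ k, (W k).testBit j = true → st ρ g k) (h k : ℕ)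
    (H : (rotE W h k).testBit j = true) : st ρ (g * 4 ^ h) k := by
  unfold rotE at H
  rw [frc_eq] at H
  exact st_rot ρ g h k (hW _ H)

/-! ### the final test -/

noncomputable def om1 (d : ℕ) (V : ℕ → ℕ) (u y k : ℕ) : ℕ :=
  Nat.land (frc k V) (frc (idx u k y) (rel d))

/-- middles; `p = 121 * s + 11 * y + w` -/
noncomputable def om (d : ℕ) (V : ℕ → ℕ) (u : ℕ) (full : Bool) (p : ℕ) : ℕ :=
  (fun y b => Nat.lor (Nat.lor (om1 d V u y b) (om1 d V u y (Nat.add b 11)))
    (cond full (Nat.lor (om1 d V u y (Nat.add b 22))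
      (Nat.lor (om1 d V u y (Nat.add b 33)) (om1 d V u y (Nat.add b 44)))) 0))
    (Nat.mod (Nat.div p 11) 11) (Nat.add (Nat.mul 55 (Nat.div p 121)) (Nat.mod p 11))

noncomputable def anyU (f : ℕ → ℕ) (n : ℕ) : ℕ := Nat.rec 0 (fun m a => Nat.lor a (f m)) n

noncomputable def twoU (f : ℕ → ℕ) (n : ℕ) : ℕ :=
  Nat.rec 0 (fun m a => Nat.lor a (Nat.land (anyU f m) (f m))) n

theorem anyU_bit (f : ℕ → ℕ) (j n : ℕ) :
    (anyU f n).testBit j = true ↔ ∃ w, w < n ∧ (f w).testBit j = true := by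
  induction n with
  | zero => simp [anyU]
  | succ n ih =>
    have e : anyU f (n + 1) = Nat.lor (anyU f n) (f n) := rfl
    rw [e, lor_bit, Bool.or_eq_true, ih]
    constructor
    · rintro (⟨w, hw, h⟩ | h)
      · exact ⟨w, by omega, h⟩
      · exact ⟨n, by omega, h⟩
    · rintro ⟨w, hw, h⟩
      by_cases hn : w = n
      · exact Or.inr (hn ▸ h)
      · exact Or.inl ⟨w, by omega, h⟩

theorem twoU_bit (f : ℕ → ℕ) (j n : ℕ) (h : (twoU f n).testBit j = true) :
    ∃ w w', w < w' ∧ w' < n ∧ (f w).testBit j = true ∧ (f w').testBit j = true := by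
  induction n with
  | zero => exact absurd h (by simp [twoU])
  | succ n ih =>
    have e : twoU f (n + 1) = Nat.lor (twoU f n) (Nat.land (anyU f n) (f n)) := rfl
    rw [e, lor_bit, land_bit, Bool.or_eq_true, Bool.and_eq_true, anyU_bit] at h
    rcases h with h | ⟨⟨w, hw, h1⟩, h2⟩
    · obtain ⟨w, w', h1, h2, h3⟩ := ih h
      exact ⟨w, w', h1, by omega, h3⟩
    · exact ⟨w, n, hw, by omega, h1, h2⟩

/-- the middles of the pair `q = 11 * s + y` -/
noncomputable def mid (O : ℕ → ℕ) (q w : ℕ) : ℕ := frc (Nat.add (Nat.mul 11 q) w) O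

noncomputable def tw (O : ℕ → ℕ) (q : ℕ) : ℕ := twoU (mid O q) 11

noncomputable def an (O : ℕ → ℕ) (q : ℕ) : ℕ := anyU (mid O q) 11

/-- position of the pair `q` in a relation mask -/
def pos (q : ℕ) : ℕ := cond (Nat.ble 11 q) (Nat.add 99 q) (Nat.add 11 q)

noncomputable def hitm (n : ℕ) (F : ℕ → ℕ) (m : ℕ) : ℕ :=
  Nat.rec 0 (fun q a => cond (m.testBit (pos q)) (Nat.lor a (F q)) a) n

noncomputable def andL (one : ℕ) (F : ℕ → ℕ) (l : List ℕ) : ℕ :=
  List.rec one (fun m _ a => Nat.land (F m) a) l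

theorem hitm_bit (F : ℕ → ℕ) (m j n : ℕ) (h : (hitm n F m).testBit j = true) :
    ∃ q, q < n ∧ m.testBit (pos q) = true ∧ (F q).testBit j = true := by
  induction n with
  | zero => exact absurd h (by simp [hitm])
  | succ n ih =>
    have e : hitm (n + 1) F m =
        cond (m.testBit (pos n)) (Nat.lor (hitm n F m) (F n)) (hitm n F m) := rfl
    rw [e] at h
    cases hb : m.testBit (pos n)
    · rw [hb] at h
      obtain ⟨q, hq, h⟩ := ih h
      exact ⟨q, by omega, h⟩
    · rw [hb, cond_true, lor_bit, Bool.or_eq_true] at h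
      rcases h with h | h
      · obtain ⟨q, hq, h⟩ := ih h
        exact ⟨q, by omega, h⟩
      · exact ⟨n, by omega, hb, h⟩

theorem andL_bit (one : ℕ) (F : ℕ → ℕ) (j : ℕ) (l : List ℕ)
    (h : (andL one F l).testBit j = true) : ∀ m ∈ l, (F m).testBit j = true := by
  induction l with
  | nil => intro m hm; cases hm
  | cons a l ih =>
    have e : andL one F (a :: l) = Nat.land (F a) (andL one F l) := rfl
    rw [e, land_bit, Bool.and_eq_true] at h
    intro m hm
    rcases List.mem_cons.1 hm with rfl | hm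
    · exact h.1
    · exact ih h.2 m hm

/-- the point of slope `μ` on the pair `q` -/
def pt (μ q : ℕ) : ℕ :=
  cond (Nat.ble 11 q) (Nat.mod (Nat.add 10 (Nat.mul μ (Nat.add q 1))) 11)
    (Nat.mod (Nat.add 1 (Nat.mul μ (Nat.add q 10))) 11)

noncomputable def nr (O : ℕ → ℕ) (μ q : ℕ) : ℕ :=
  Nat.lor (frc q (tw O)) (Nat.xor (frc q (an O)) (mid O q (pt μ q)))

def res : List ℕ := [0, 1, 2, 3, 4, 5, 6, 7, 8, 9, 10]

noncomputable def fin (one n : ℕ) (O : ℕ → ℕ) : ℕ :=
  Nat.land (andL one (hitm n fun q => frc q (tw O)) (longs false ++ longs true))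
    (andL one (fun m => andL one (fun μ => hitm n (nr O μ) m) res) (shorts false ++ shorts true))

noncomputable def chkF (d w : ℕ) (V : ℕ → ℕ) (u : ℕ) (full : Bool) : Bool :=
  Nat.beq (fin (ones w) (cond full 22 11) (om d V u full)) (ones w)

/-- start of the pair `q` -/
def sq (q : ℕ) : Z := if q < 11 then 1 else -1

def FinP (Om : Z → Z → Z → Prop) : Prop :=
  (∀ e, ∀ m ∈ longs e, ∃ x y, bt m x y ∧ ∃ w w', w ≠ w' ∧ Om x y w ∧ Om x y w') ∧
    ∀ e, ∀ m ∈ shorts e, ∀ μ, ∃ x y, bt m x y ∧ ∃ w, w ≠ x + μ * (y - x) ∧ Om x y w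

theorem pos_bt (m q : ℕ) (hq : q < 22) (h : m.testBit (pos q) = true) : bt m (sq q) (q : Z) := by
  have : ∀ q, q < 22 → pos q = 11 * (sq q).val + (q : Z).val := by decide +kernel
  unfold bt
  rw [← this q hq]
  exact h

theorem cast_ne : ∀ w : ℕ, w < 11 → ∀ w' : ℕ, w' < 11 → w ≠ w' → (w : Z) ≠ (w' : Z) := by
  decide +kernel

theorem pt_eq : ∀ μ : Z, ∀ q, q < 22 →
    pt μ.val q < 11 ∧ ((pt μ.val q : ℕ) : Z) = sq q + μ * ((q : Z) - sq q) := by
  decide +kernel

theorem val_res : ∀ μ : Z, μ.val ∈ res := by decide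

theorem fin_sound {one n j : ℕ} {O : ℕ → ℕ} {Om : Z → Z → Z → Prop} (hn : n ≤ 22)
    (hO : ∀ q w, q < 22 → w < 11 → (mid O q w).testBit j = true → Om (sq q) (q : Z) (w : Z))
    (h : (fin one n O).testBit j = true) : FinP Om := by
  unfold fin at h
  rw [land_bit, Bool.and_eq_true] at h
  have two : ∀ q, q < 22 → (frc q (tw O)).testBit j = true →
      ∃ w w', w ≠ w' ∧ Om (sq q) (q : Z) w ∧ Om (sq q) (q : Z) w' := by
    intro q hq h
    rw [frc_eq] at h
    obtain ⟨w, w', h1, h2, h3, h4⟩ := twoU_bit _ _ _ h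
    exact ⟨w, w', cast_ne w (by omega) w' h2 (by omega), hO q w hq (by omega) h3,
      hO q w' hq h2 h4⟩
  constructor
  · intro e m hm
    have hm' : m ∈ longs false ++ longs true := by
      cases e
      · exact List.mem_append_left _ hm
      · exact List.mem_append_right _ hm
    obtain ⟨q, hq, h1, h2⟩ := hitm_bit _ _ _ _ (andL_bit _ _ _ _ h.1 m hm')
    exact ⟨_, _, pos_bt m q (by omega) h1, two q (by omega) h2⟩
  · intro e m hm μ
    have hm' : m ∈ shorts false ++ shorts true := by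
      cases e
      · exact List.mem_append_left _ hm
      · exact List.mem_append_right _ hm
    obtain ⟨q, hq, h1, h2⟩ :=
      hitm_bit _ _ _ _ (andL_bit _ _ _ _ (andL_bit _ _ _ _ h.2 m hm') _ (val_res μ))
    have hq' : q < 22 := by omega
    refine ⟨_, _, pos_bt m q hq' h1, ?_⟩
    unfold nr at h2
    rw [lor_bit, Bool.or_eq_true] at h2
    rcases h2 with h2 | h2
    · obtain ⟨w, w', h3, h4, h5⟩ := two q hq' h2
      by_cases hw : w = sq q + μ * ((q : Z) - sq q)
      · exact ⟨w', fun h6 => h3 (hw.trans h6.symm), h5⟩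
      · exact ⟨w, hw, h4⟩
    · obtain ⟨p1, p2⟩ := pt_eq μ q hq'
      have e : ∀ a b : ℕ, (Nat.xor a b).testBit j = xor (a.testBit j) (b.testBit j) :=
        fun a b => Nat.testBit_xor a b j
      rw [e, frc_eq] at h2
      cases hb : (mid O q (pt μ.val q)).testBit j
      · rw [hb, Bool.xor_false] at h2
        obtain ⟨w, hw, h3⟩ := (anyU_bit _ _ _).1 h2
        refine ⟨w, ?_, hO q w hq' hw h3⟩
        rw [← p2]
        refine cast_ne w hw _ p1 fun h6 => ?_
        rw [h6, hb] at h3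
        cases h3
      · have h3 : (an O q).testBit j = true := (anyU_bit _ _ _).2 ⟨_, p1, hb⟩
        rw [hb, h3] at h2
        cases h2

/-- middles of a junction with a single step -/
def Omg (ρ : Z → Z → Z → Prop) (R : Z → Z → Prop) (u x y w : Z) : Prop :=
  ∃ c, isQ c = true ∧ ρ x c w ∧ R (w - c * u) (y - c * u)

theorem om_sound {d j m : ℕ} {V : ℕ → ℕ} {ρ : Z → Z → Z → Prop} {R : Z → Z → Prop} {g u : Z}
    (hg : isQ g = true) (hV : ∀ k, (V k).testBit j = true → st ρ g k)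
    (hm : ∀ k, (col tys k).testBit (j % 76) = true → m.testBit k = true)
    (hR : ∀ x y, bt m x y → R y x) (full : Bool) (q w : ℕ) (hq : q < 22) (hw : w < 11)
    (h : (mid (om d V (g * u).val full) q w).testBit j = true) :
    Omg ρ R u (sq q) (q : Z) (w : Z) := by
  have key : ∀ r, r < 5 →
      (om1 d V (g * u).val (q % 11) (55 * (q / 11) + w + 11 * r)).testBit j = true →
      Omg ρ R u (sq q) (q : Z) (w : Z) := by
    intro r hr h
    unfold om1 at h
    rw [land_bit, Bool.and_eq_true, frc_eq, frc_eq] at h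
    have h3 := hV _ h.1
    have h4 := hR _ _ (rel_bt hm (g * u) _ _ h.2)
    have e1 : ((55 * (q / 11) + w + 11 * r : ℕ) : Z) = w := by
      rw [ZMod.natCast_eq_natCast_iff']
      omega
    have e2 : sg (55 * (q / 11) + w + 11 * r) = sq q := by
      unfold sg sq
      by_cases hk : q < 11
      · rw [if_pos hk, if_pos (by omega)]
      · rw [if_neg hk, if_neg (by omega)]
    unfold st at h3
    rw [e1, e2] at h3
    rw [e1, ZMod.natCast_mod] at h4
    refine ⟨_, isQ_pow g hg _, h3, ?_⟩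
    have e4 : ∀ n : ℕ, g * 4 ^ n * u = 4 ^ n * (g * u) := fun n => by ring
    rw [e4]
    exact h4
  unfold mid at h
  rw [frc_eq] at h
  have e0 : Nat.add (Nat.mul 11 q) w = 11 * q + w := rfl
  have e1 : Nat.mod (Nat.div (11 * q + w) 11) 11 = q % 11 := by
    show (11 * q + w) / 11 % 11 = _
    omega
  have e2 : Nat.add (Nat.mul 55 (Nat.div (11 * q + w) 121)) (Nat.mod (11 * q + w) 11) =
      55 * (q / 11) + w := by
    show 55 * ((11 * q + w) / 121) + (11 * q + w) % 11 = _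
    omega
  unfold om at h
  rw [e0, e1, e2] at h
  cases full
  · simp only [cond_false, lor_bit, Bool.or_eq_true, Nat.zero_testBit] at h
    rcases h with (h | h) | h
    · exact key 0 (by norm_num) h
    · exact key 1 (by norm_num) h
    · cases h
  · simp only [cond_true, lor_bit, Bool.or_eq_true] at h
    rcases h with (h | h) | h | h | h
    · exact key 0 (by norm_num) h
    · exact key 1 (by norm_num) h
    · exact key 2 (by norm_num) h
    · exact key 3 (by norm_num) h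
    · exact key 4 (by norm_num) h

theorem ty_lane {e : Bool} {R : Z → Z → Prop} (hR : Ty e R) : ∃ m i, i < 76 ∧
    (∀ k, (col tys k).testBit i = true → m.testBit k = true) ∧ ∀ x y, bt m x y → R x y := by
  obtain ⟨m, hm, hb⟩ := ty_min hR
  have hm' : m ∈ tys := by
    cases e
    · exact List.mem_append_left _ hm
    · exact List.mem_append_right _ hm
  obtain ⟨i, hi, hc⟩ := col_mem hm'
  rw [tys_len] at hi
  exact ⟨m, i, hi, hc, hb⟩

theorem chkF_sound {d w : ℕ} {V : ℕ → ℕ} {full : Bool} {ρ : Z → Z → Z → Prop} {R : Z → Z → Prop}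
    {g u : Z} {e : Bool} {s : ℕ} (H : chkF d w V (g * u).val full = true) (hg : isQ g = true)
    (hs : 76 * s + 76 ≤ w)
    (hV : ∀ k i, i < 76 → (V k).testBit (76 * s + i) = true → st ρ g k) (hR : Ty e R) :
    FinP (Omg ρ R u) := by
  obtain ⟨m, i, hi, hc, hb⟩ := ty_lane (ty_inv hR)
  have e1 : (76 * s + i) % 76 = i := by omega
  have h1 : (ones w).testBit (76 * s + i) = true := by
    rw [ones_bit, decide_eq_true_eq]
    omega
  refine fin_sound (one := ones w) (n := cond full 22 11) (j := 76 * s + i) (by cases full <;> simp)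
    (om_sound (d := d) hg (fun k => hV k i hi) (by rw [e1]; exact hc) hb full) ?_
  rw [Nat.eq_of_beq_eq_true H]
  exact h1

section check

variable (z2 z5 : Zd)

def Good (ρ : Z → Z → Z → Prop) : Prop :=
  ∃ g, isQ g = true ∧ (evP (st ρ g) z2 ∨ evP (st ρ g) z5)

noncomputable def cv (one : ℕ) (W : ℕ → ℕ) (h : ℕ) : ℕ :=
  Nat.lor (ev one (rotE W h) z2) (ev one (rotE W h) z5)

noncomputable def cov (one : ℕ) (W : ℕ → ℕ) (full : Bool) : ℕ :=
  cond full (Nat.lor (Nat.lor (cv z2 z5 one W 0) (cv z2 z5 one W 1))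
    (Nat.lor (cv z2 z5 one W 2) (Nat.lor (cv z2 z5 one W 3) (cv z2 z5 one W 4))))
    (ev one (rotE W 0) z2)

noncomputable def chk (d w : ℕ) (V : ℕ → ℕ) (t : ℕ) (full : Bool) : Bool :=
  Nat.beq (cov z2 z5 (ones w) (stp d V t) full) (ones w)

noncomputable def ini (t k : ℕ) : ℕ := frc (idx t k (cond (Nat.ble 55 k) 10 1)) (spr tys)

variable {z2 z5}

theorem cv_sound {one : ℕ} {W : ℕ → ℕ} {ρ : Z → Z → Z → Prop} {g : Z} {j : ℕ}
    (hg : isQ g = true) (hW : ∀ k, (W k).testBit j = true → st ρ g k) (h : ℕ)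
    (H : (cv z2 z5 one W h).testBit j = true) : Good z2 z5 ρ := by
  unfold cv at H
  rw [lor_bit, Bool.or_eq_true] at H
  refine ⟨g * 4 ^ h, isQ_pow g hg h, ?_⟩
  rcases H with H | H
  · exact Or.inl (ev_sound _ _ _ j (rotE_sound hW h) _ H)
  · exact Or.inr (ev_sound _ _ _ j (rotE_sound hW h) _ H)

theorem chk_sound {d w : ℕ} {V : ℕ → ℕ} {full : Bool} {ρ ρ' : Z → Z → Z → Prop}
    {R : Z → Z → Prop} {g t : Z} {e : Bool} {s : ℕ}
    (H : chk z2 z5 d w V (g * t).val full = true) (hg : isQ g = true) (hs : 76 * s + 76 ≤ w)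
    (hV : ∀ k i, i < 76 → (V k).testBit (76 * s + i) = true → st ρ g k) (hR : Ty e R)
    (hρ : ∀ x c y y', ρ x c y → R (y - c * t) (y' - c * t) → ρ' x c y') : Good z2 z5 ρ' := by
  obtain ⟨m, i, hi, hc, hb⟩ := ty_lane hR
  have e1 : (76 * s + i) % 76 = i := by omega
  have hW := stp_sound d V ρ ρ' R g t m (76 * s + i) (fun k => hV k i hi)
    (by rw [e1]; exact hc) hb hρ
  have h1 : (cov z2 z5 (ones w) (stp d V (g * t).val) full).testBit (76 * s + i) = true := by
    rw [Nat.eq_of_beq_eq_true H, ones_bit, decide_eq_true_eq]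
    omega
  unfold cov at h1
  cases full
  · exact ⟨g * 4 ^ 0, isQ_pow g hg 0, Or.inl (ev_sound _ _ _ _ (rotE_sound hW 0) _ h1)⟩
  · simp only [cond_true, lor_bit, Bool.or_eq_true] at h1
    rcases h1 with (H | H) | H | H | H <;> exact cv_sound hg hW _ H

/-- the rows of a chain -/
def rws (L : List ((Z → Z → Prop) × Z)) (x c y : Z) : Prop := rows x L c y

theorem good_init (hC : ∀ t, t = 1 ∨ t = 10 → ∀ u, u < 11 → u ≠ t →
      chk z2 z5 7 5776 (ini t) u true = true)
    {y2 y1 : (Z → Z → Prop) × Z} {e2 e1 : Bool}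
    (h2 : Ty e2 y2.1) (h1 : Ty e1 y1.1) (h0 : y1.2 ≠ 0) (hne : y2.2 ≠ y1.2) :
    Good z2 z5 (rws [y2, y1]) := by
  obtain ⟨g, hg, ht, hu⟩ := norm_lab _ _ h0 hne
  obtain ⟨m, hm, hb⟩ := ty_min h1
  have hm' : m ∈ tys := by
    cases e1
    · exact List.mem_append_left _ hm
    · exact List.mem_append_right _ hm
  obtain ⟨s, hs, hc⟩ := spr_mem hm'
  rw [tys_len] at hs
  refine chk_sound (s := s) (ρ := rws [y1]) (hC _ ht _ (ZMod.val_lt _) hu) hg (by omega) ?_ h2
    (fun x => rows_step x y2 [y1])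
  intro k i hi hk
  unfold ini at hk
  rw [frc_eq] at hk
  have h4 := idx_bt m (g * y1.2) k _ (hc _ i hi hk)
  have e5 : ((cond (Nat.ble 55 k) 10 1 : ℕ) : Z) = sg k := by
    unfold sg
    by_cases hk : k < 55
    · have hb : Nat.ble 55 k = false := by
        rw [← Bool.not_eq_true, Nat.ble_eq]
        omega
      rw [hb, if_pos hk]
      rfl
    · have hb : Nat.ble 55 k = true := by
        rw [Nat.ble_eq]
        omega
      rw [hb, if_neg hk]
      rfl
  rw [e5] at h4
  refine rows_step (sg k) y1 [] _ (sg k) _ rfl (hb _ _ ?_)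
  have e4 : g * 4 ^ (k / 11) * y1.2 = 4 ^ (k / 11) * (g * y1.2) := by ring
  rw [e4]
  exact h4

theorem val_pos : ∀ g t : Z, isQ g = true → t ≠ 0 → (g * t).val ≠ 0 := by decide

theorem long_par : ∀ e : Bool, ∀ m ∈ longs e, ∀ x y : Z, bt m x y →
    xor (isQ x) (isQ y) = e := by
  decide +kernel

theorem m2_of {d2 d5 : ℕ}
    (hA : ∀ t, t < 11 → chk z2 z5 d2 (wd z2) (sl z2) t false = true)
    (hB : ∀ t, t < 11 → chk z2 z5 d5 (wd z5) (sl z5) t true = true)
    (hC : ∀ t, t = 1 ∨ t = 10 → ∀ u, u < 11 → u ≠ t → chk z2 z5 7 5776 (ini t) u true = true)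
    (hD : ∀ u, u < 11 → u ≠ 0 → chkF d2 (wd z2) (sl z2) u false = true)
    (hE : ∀ u, u < 11 → u ≠ 0 → chkF d5 (wd z5) (sl z5) u true = true)
    (y2 y1 z : (Z → Z → Prop) × Z) (L : List ((Z → Z → Prop) × Z))
    (hT : AllTy (L ++ [y2, y1])) (hz : AllTy [z]) (h0 : y1.2 ≠ 0) (hne : y2.2 ≠ y1.2)
    (hu : z.2 ≠ 0) (e : Bool) : M2 e (jn e (L ++ [y2, y1]) [z]) := by
  have key : ∀ L : List ((Z → Z → Prop) × Z), AllTy (L ++ [y2, y1]) →
      Good z2 z5 (rws (L ++ [y2, y1])) := by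
    intro L
    induction L with
    | nil =>
      intro hT
      obtain ⟨e2, h2⟩ := hT y2 (by simp)
      obtain ⟨e1, h1⟩ := hT y1 (by simp)
      exact good_init hC h2 h1 h0 hne
    | cons a L ih =>
      intro hT
      obtain ⟨e, ha⟩ := hT a (by simp)
      obtain ⟨g, hg, h | h⟩ := ih fun b hb => hT b (List.mem_cons_of_mem _ hb)
      · obtain ⟨s, hs, hV⟩ := sl_sound _ _ h
        exact chk_sound (hA _ (ZMod.val_lt (g * a.2))) hg hs hV ha fun x => rows_step x a _
      · obtain ⟨s, hs, hV⟩ := sl_sound _ _ h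
        exact chk_sound (hB _ (ZMod.val_lt (g * a.2))) hg hs hV ha fun x => rows_step x a _
  obtain ⟨e', hz'⟩ := hz z (by simp)
  have hF : FinP (Omg (rws (L ++ [y2, y1])) z.1 z.2) := by
    obtain ⟨g, hg, h | h⟩ := key L hT
    · obtain ⟨s, hs, hV⟩ := sl_sound _ _ h
      exact chkF_sound (hD _ (ZMod.val_lt (g * z.2)) (val_pos g _ hg hu)) hg hs hV hz'
    · obtain ⟨s, hs, hV⟩ := sl_sound _ _ h
      exact chkF_sound (hE _ (ZMod.val_lt (g * z.2)) (val_pos g _ hg hu)) hg hs hV hz'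
  have jn_of : ∀ x y w r, xor (isQ x) (isQ y) = e → Omg (rws (L ++ [y2, y1])) z.1 z.2 x y w →
      w ≠ r → jn e (L ++ [y2, y1]) [z] x y r := by
    rintro x y w r hp ⟨c, hc, h1, h2⟩ hw
    exact ⟨hp, c, hc, w, h1, ⟨w, rfl, h2⟩, hw⟩
  constructor
  · intro S hS
    obtain ⟨m, hm, hb⟩ := ty2_min (ty2_inv hS)
    obtain ⟨x, y, h1, w, w', hw, h2, h3⟩ := hF.1 e m hm
    refine ⟨x, y, hb x y h1, fun r => ?_⟩
    by_cases hr : w = r
    · exact jn_of x y w' r (long_par e m hm x y h1) h3 fun h => hw (hr.trans h.symm)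
    · exact jn_of x y w r (long_par e m hm x y h1) h2 hr
  · intro d μ
    obtain ⟨m, hm, hb⟩ := min_T1 d e
    obtain ⟨x, y, h1, w, hw, h2⟩ := hF.2 e m hm μ
    exact ⟨x, y, hb x y h1, jn_of x y w _ (hb x y h1).2 h2 hw⟩

end check

end Pool.Agent.OD66.F21
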