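import Pool.Agent.Lib.OD.Mins
import Pool.Agent.Lib.OD.F22Data
import Pool.Agent.Lib.MP_55dd22_co.Bits

set_option autoImplicit false

namespace Pool.Agent.OD66.F22

open Pool.Agent.OCP

/-! ### generic tools for bit-sliced computations -/

def gd {α : Type} (d : α) (l : List α) : ℕ → α :=
  List.rec (motive := fun _ => ℕ → α) (fun _ => d)
    (fun a _ ih n => Nat.rec (motive := fun _ => α) a (fun m _ => ih m) n) l

theorem gd_eq {α : Type} (d : α) (l : List α) (n : ℕ) : gd d l n = l.getD n d := by
  induction l generalizing n with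
  | nil => rfl
  | cons a l ih =>
    cases n with
    | zero => rfl
    | succ n => exact ih n

def g2 (T : List (List ℕ)) (x y : ℕ) : ℕ := gd 0 (gd [] T x) y

def mp {α β : Type} (f : α → β) (l : List α) : List β :=
  List.rec (motive := fun _ => List β) [] (fun a _ ih => f a :: ih) l

theorem mp_eq {α β : Type} (f : α → β) (l : List α) : mp f l = l.map f := by
  induction l with
  | nil => rfl
  | cons a l ih => exact congrArg (f a :: ·) ih

def r11 : List ℕ := [0, 1, 2, 3, 4, 5, 6, 7, 8, 9, 10]

theorem gd_r11 {α : Type} (d : α) (f : ℕ → α) {x : ℕ} (hx : x < 11) : gd d (mp f r11) x = f x := by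
  interval_cases x <;> rfl

def T2 (f : ℕ → ℕ → ℕ) : List (List ℕ) := mp (fun x => mp (f x) r11) r11

theorem g2_T2 (f : ℕ → ℕ → ℕ) {x y : ℕ} (hx : x < 11) (hy : y < 11) : g2 (T2 f) x y = f x y := by
  unfold g2 T2
  rw [gd_r11 _ _ hx, gd_r11 _ _ hy]

def frl {α : Type} (l : List ℕ) : (List ℕ → α) → α :=
  List.rec (motive := fun _ => (List ℕ → α) → α) (fun k => k [])
    (fun a _ ih k => frc a fun v => ih fun l' => k (v :: l')) l

theorem frl_eq {α : Type} (l : List ℕ) (k : List ℕ → α) : frl l k = k l := by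
  induction l generalizing k with
  | nil => rfl
  | cons a l ih =>
    show (frc a fun v => frl l fun l' => k (v :: l')) = _
    rw [frc_eq, ih]

def frll {α : Type} (l : List (List ℕ)) : (List (List ℕ) → α) → α :=
  List.rec (motive := fun _ => (List (List ℕ) → α) → α) (fun k => k [])
    (fun a _ ih k => frl a fun v => ih fun l' => k (v :: l')) l

theorem frll_eq {α : Type} (l : List (List ℕ)) (k : List (List ℕ) → α) : frll l k = k l := by
  induction l generalizing k with
  | nil => rfl
  | cons a l ih =>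
    show (frl a fun v => frll l fun l' => k (v :: l')) = _
    rw [frl_eq, ih]

def allL {α : Type} (l : List α) (f : α → Bool) : Bool :=
  List.rec (motive := fun _ => Bool) true (fun a _ r => Bool.rec false r (f a)) l

theorem allL_iff {α : Type} (l : List α) (f : α → Bool) :
    allL l f = true ↔ ∀ a ∈ l, f a = true := by
  induction l with
  | nil => simp [allL]
  | cons a l ih =>
    have : allL (a :: l) f = (f a && allL l f) := by
      show (Bool.rec false (allL l f) (f a) : Bool) = _
      cases f a <;> rfl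
    rw [this, Bool.and_eq_true, ih]
    simp

def orL {α : Type} (l : List α) (f : α → ℕ) : ℕ :=
  List.rec (motive := fun _ => ℕ) 0 (fun a _ r => Nat.lor (f a) r) l

theorem orL_bit {α : Type} {l : List α} {f : α → ℕ} {i : ℕ} (h : (orL l f).testBit i = true) :
    ∃ a ∈ l, (f a).testBit i = true := by
  induction l with
  | nil => simp [orL] at h
  | cons a l ih =>
    have e : orL (a :: l) f = f a ||| orL l f := rfl
    rw [e, Nat.testBit_or, Bool.or_eq_true] at h
    rcases h with h | h
    · exact ⟨a, List.mem_cons_self, h⟩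
    · obtain ⟨b, hb, h⟩ := ih h
      exact ⟨b, List.mem_cons_of_mem _ hb, h⟩

def andL {α : Type} (o : ℕ) (l : List α) (f : α → ℕ) : ℕ :=
  List.rec (motive := fun _ => ℕ) o (fun a _ r => Nat.land (f a) r) l

theorem andL_bit {α : Type} {o : ℕ} {l : List α} {f : α → ℕ} {i : ℕ}
    (h : (andL o l f).testBit i = true) : ∀ a ∈ l, (f a).testBit i = true := by
  induction l with
  | nil => simp
  | cons a l ih =>
    have e : andL o (a :: l) f = f a &&& andL o l f := rfl
    rw [e, Nat.testBit_and, Bool.and_eq_true] at h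
    intro b hb
    rcases List.mem_cons.1 hb with rfl | hb
    · exact h.1
    · exact ih h.2 b hb

/-- concatenation of blocks of `n` bits -/
def catL (n : ℕ) (l : List ℕ) : ℕ :=
  List.rec (motive := fun _ => ℕ) 0
    (fun a _ r => Nat.lor (Nat.mod a (Nat.pow 2 n)) (Nat.shiftLeft r n)) l

theorem catL_bit {n : ℕ} (l : List ℕ) (k : ℕ) {j : ℕ} (hj : j < n) :
    (catL n l).testBit (n * k + j) = (l.getD k 0).testBit j := by
  induction l generalizing k with
  | nil => simp [catL]
  | cons a l ih =>
    have e : catL n (a :: l) = a % 2 ^ n ||| catL n l <<< n := rfl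
    rw [e, Nat.testBit_or, Nat.testBit_mod_two_pow, Nat.testBit_shiftLeft]
    cases k with
    | zero => simp [hj, Nat.not_le.2 hj]
    | succ k =>
      have h1 : ¬ n * (k + 1) + j < n := by rw [Nat.mul_succ]; omega
      have h2 : n * (k + 1) + j - n = n * k + j := by rw [Nat.mul_succ]; omega
      rw [h2, ih]
      simp [h1, Nat.not_lt.1 h1]

def od (m : ℕ) : Bool := Nat.beq (Nat.land m 1) 1

theorem od_eq (m : ℕ) : od m = m.testBit 0 := tb_eq m 0

/-- union of the entries `w` of `l` with bit `s * w` of the mask set -/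
def osel (s : ℕ) (l : List ℕ) : ℕ → ℕ :=
  List.rec (motive := fun _ => ℕ → ℕ) (fun _ => 0)
    (fun a _ ih m => Bool.rec (ih (Nat.shiftRight m s)) (Nat.lor a (ih (Nat.shiftRight m s))) (od m)) l

theorem osel_bit {s : ℕ} {l : List ℕ} {m i : ℕ} (h : (osel s l m).testBit i = true) :
    ∃ w < l.length, m.testBit (s * w) = true ∧ (l.getD w 0).testBit i = true := by
  induction l generalizing m with
  | nil => simp [osel] at h
  | cons a l ih =>
    have e : osel s (a :: l) m =
        Bool.rec (osel s l (m >>> s)) (a ||| osel s l (m >>> s)) (od m) := rfl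
    have key : (osel s l (m >>> s)).testBit i = true → ∃ w < (a :: l).length,
        m.testBit (s * w) = true ∧ ((a :: l).getD w 0).testBit i = true := by
      intro h'
      obtain ⟨w, hw, h1, h2⟩ := ih h'
      refine ⟨w + 1, Nat.succ_lt_succ hw, ?_, h2⟩
      rw [Nat.testBit_shiftRight] at h1
      rw [Nat.mul_succ, Nat.add_comm]
      exact h1
    rw [e, od_eq] at h
    cases hm : m.testBit 0 with
    | false => rw [hm] at h; exact key h
    | true =>
      rw [hm] at h
      have h' : (a ||| osel s l (m >>> s)).testBit i = true := h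
      rw [Nat.testBit_or, Bool.or_eq_true] at h'
      rcases h' with h' | h'
      · exact ⟨0, Nat.succ_pos _, hm, h'⟩
      · exact key h'

/-- at least two of the selected entries -/
def twoL (l : List ℕ) : ℕ → ℕ → ℕ → ℕ :=
  List.rec (motive := fun _ => ℕ → ℕ → ℕ → ℕ) (fun _ _ two => two)
    (fun a _ ih m one two => Bool.rec (ih (Nat.shiftRight m 1) one two)
      (ih (Nat.shiftRight m 1) (Nat.lor one a) (Nat.lor two (Nat.land one a))) (od m)) l

theorem twoL_bit {l : List ℕ} {m one two i : ℕ} (h : (twoL l m one two).testBit i = true) :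
    two.testBit i = true ∨
      (one.testBit i = true ∧
        ∃ w < l.length, m.testBit w = true ∧ (l.getD w 0).testBit i = true) ∨
      ∃ w' < l.length, ∃ w < w', (m.testBit w = true ∧ (l.getD w 0).testBit i = true) ∧
        m.testBit w' = true ∧ (l.getD w' 0).testBit i = true := by
  induction l generalizing m one two with
  | nil => exact Or.inl h
  | cons a l ih =>
    have e : twoL (a :: l) m one two = Bool.rec (twoL l (m >>> 1) one two)
        (twoL l (m >>> 1) (one ||| a) (two ||| (one &&& a))) (od m) := rfl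
    have sh : ∀ w, (m >>> 1).testBit w = m.testBit (w + 1) := fun w => by
      rw [Nat.testBit_shiftRight, Nat.add_comm]
    rw [e, od_eq] at h
    cases hm : m.testBit 0 with
    | false =>
      rw [hm] at h
      rcases ih h with h | ⟨h, w, hw, h1, h2⟩ | ⟨w', hw', w, hw, ⟨h1, h2⟩, h3, h4⟩
      · exact Or.inl h
      · exact Or.inr (Or.inl ⟨h, w + 1, Nat.succ_lt_succ hw, sh w ▸ h1, h2⟩)
      · exact Or.inr (Or.inr ⟨w' + 1, Nat.succ_lt_succ hw', w + 1, Nat.succ_lt_succ hw,
          ⟨sh w ▸ h1, h2⟩, sh w' ▸ h3, h4⟩)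
    | true =>
      rw [hm] at h
      rcases ih h with h | ⟨h, w, hw, h1, h2⟩ | ⟨w', hw', w, hw, ⟨h1, h2⟩, h3, h4⟩
      · rw [Nat.testBit_or, Nat.testBit_and, Bool.or_eq_true, Bool.and_eq_true] at h
        rcases h with h | h
        · exact Or.inl h
        · exact Or.inr (Or.inl ⟨h.1, 0, Nat.succ_pos _, hm, h.2⟩)
      · rw [Nat.testBit_or, Bool.or_eq_true] at h
        rcases h with h | h
        · exact Or.inr (Or.inl ⟨h, w + 1, Nat.succ_lt_succ hw, sh w ▸ h1, h2⟩)
        · exact Or.inr (Or.inr ⟨w + 1, Nat.succ_lt_succ hw, 0, Nat.succ_pos _, ⟨hm, h⟩,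
            sh w ▸ h1, h2⟩)
      · exact Or.inr (Or.inr ⟨w' + 1, Nat.succ_lt_succ hw', w + 1, Nat.succ_lt_succ hw,
          ⟨sh w ▸ h1, h2⟩, sh w' ▸ h3, h4⟩)

/-- one more input of the counting network -/
def ins (s : ℕ) (T : List ℕ) : ℕ → List ℕ :=
  List.rec (motive := fun _ => ℕ → List ℕ) (fun _ => [])
    (fun t _ ih p => Nat.lor t (Nat.land p s) :: ih t) T

theorem ins_len (s : ℕ) (T : List ℕ) (p : ℕ) : (ins s T p).length = T.length := by
  induction T generalizing p with
  | nil => rfl
  | cons t T ih => exact congrArg Nat.succ (ih t)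

theorem ins_get (s : ℕ) (T : List ℕ) (p a : ℕ) (ha : a < T.length) :
    (ins s T p).getD a 0 = T.getD a 0 ||| ((p :: T).getD a 0 &&& s) := by
  induction T generalizing p a with
  | nil => simp at ha
  | cons t T ih =>
    cases a with
    | zero => rfl
    | succ a => exact ih t a (Nat.lt_of_succ_lt_succ ha)

/-- entry `a` holds the lanes with more than `a` inputs set -/
def thr (l : List ℕ) : List ℕ :=
  List.rec (motive := fun _ => List ℕ) [0, 0, 0, 0, 0, 0, 0, 0, 0, 0]
    (fun s _ T => frl T fun T' => frc s fun s' => ins s' T' s') l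

theorem thr_cons (s : ℕ) (l : List ℕ) : thr (s :: l) = ins s (thr l) s := by
  show (frl (thr l) fun T' => frc s fun s' => ins s' T' s') = _
  rw [frl_eq, frc_eq]

theorem thr_len (l : List ℕ) : (thr l).length = 10 := by
  induction l with
  | nil => rfl
  | cons s l ih => rw [thr_cons, ins_len, ih]

theorem thr_bit (l : List ℕ) (i a : ℕ) (ha : a < 10) :
    ((thr l).getD a 0).testBit i = true ↔ a + 1 ≤ l.countP fun s => s.testBit i := by
  induction l generalizing a with
  | nil => interval_cases a <;> simp [thr]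
  | cons s l ih =>
    rw [thr_cons, ins_get _ _ _ _ (by rw [thr_len]; exact ha), Nat.testBit_or, Nat.testBit_and,
      Bool.or_eq_true, Bool.and_eq_true, ih a ha, List.countP_cons]
    cases a with
    | zero =>
      have : (s :: thr l).getD 0 0 = s := rfl
      rw [this]
      cases s.testBit i <;> simp
    | succ a =>
      have : (s :: thr l).getD (a + 1) 0 = (thr l).getD a 0 := rfl
      rw [this, ih a (by omega)]
      cases s.testBit i
      · simp
      · simp only [and_true, if_true]
        omega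

def ones (n : ℕ) : ℕ := Nat.sub (Nat.pow 2 n) 1

theorem ones_bit {n i : ℕ} (h : i < n) : (ones n).testBit i = true := by
  show (2 ^ n - 1).testBit i = true
  rw [Nat.testBit_two_pow_sub_one]
  exact decide_eq_true h

def subs (a b : ℕ) : Bool := Nat.beq (Nat.land a b) a

theorem subs_bit {a b i : ℕ} (h : subs a b = true) (hi : a.testBit i = true) :
    b.testBit i = true := by
  have e : a &&& b = a := Nat.eq_of_beq_eq_true h
  rw [← e, Nat.testBit_and, Bool.and_eq_true] at hi
  exact hi.2

/-! ### the checks -/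

def Qs : List ℕ := [1, 3, 4, 5, 9]

def fld (c x : ℕ) : ℕ := Nat.mod (Nat.shiftRight c (Nat.mul 4 x)) 16

def m11 (k x : ℕ) : ℕ := Nat.mod (Nat.mul k x) 11

def a11 (k x : ℕ) : ℕ := Nat.mod (Nat.add k x) 11

def ix (x y : ℕ) : ℕ := Nat.add (Nat.mul 11 x) y

/-- threshold tables of the eleven rows -/
def THs (o : ℕ) (I : List (List ℕ)) : List (List ℕ) := mp (fun l => o :: thr l) I

def termL (o : ℕ) (TH : List (List ℕ)) : ℕ :=
  andL o Cs fun c => andL o Qs fun k => orL r11 fun x => g2 TH (m11 k x) (fld c x)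

def bigL (o : ℕ) (TH : List (List ℕ)) : ℕ :=
  orL Bs fun b => orL Qs fun k => andL o r11 fun x => g2 TH (m11 k x) (fld b.1 x)

/-- transposition of a list of matrices -/
def slices (sts : List ℕ) : List (List ℕ) :=
  T2 fun x w => catL 1 (mp (fun m => Nat.shiftRight m (ix x w)) sts)

def exOK (st t m m' c : ℕ) : Bool :=
  allB 11 fun x => allB 11 fun y =>
    Bool.rec true (anyB 11 fun w => Bool.rec false (tb m (ix w y)) (tb st (ix x (a11 w t))))
      (tb m' (ix (m11 c x) (m11 c (a11 y t))))

def exAll (sts sh ms : List ℕ) (n0 D : ℕ) (X : List (ℕ × ℕ × ℕ)) : Bool :=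
  allL X fun e => Bool.rec false
    (exOK (gd 0 sts (Nat.mod e.1 n0)) (gd 0 sh (Nat.mod (Nat.div e.1 n0) D))
      (gd 0 ms (Nat.div (Nat.div e.1 n0) D)) (gd 0 Ns e.2.1) e.2.2)
    (Nat.blt e.2.1 258 && decide (e.2.2 ∈ Qs))

def eng (sts sh ms : List ℕ) (n0 D G : ℕ) (X : List (ℕ × ℕ × ℕ)) : Bool :=
  frll (slices sts) fun B =>
  frll (T2 fun x w => catL n0 (mp (fun t => g2 B x (a11 w t)) sh)) fun BS =>
  frll (T2 fun x y =>
    catL (Nat.mul n0 D) (mp (fun m => osel 11 (gd [] BS x) (Nat.shiftRight m y)) ms)) fun I =>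
  frc (ones (Nat.mul (Nat.mul n0 D) G)) fun o =>
  frll (THs o I) fun TH =>
  subs o (Nat.lor (Nat.land (termL o TH) (bigL o TH)) (orL X fun e => Nat.shiftLeft 1 e.1))

def bigN : Bool :=
  frc (ones 258) fun o => frll (THs o (slices Ns)) fun TH => subs o (bigL o TH)

def hallC (ms : List ℕ) : Bool :=
  frl (thr El) fun T0 => allL ms fun m =>
    frl (thr (mp (fun y => osel 11 El (Nat.shiftRight m y)) r11)) fun T =>
      allL [1, 2, 3, 4, 6, 7, 8, 9] fun a => subs (gd 0 T0 a) (gd 0 T a)

def tbOne (b s ce : ℕ) : Bool :=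
  frc (gd 0 Cs (Nat.div ce 16)) fun c => frc (Nat.mod ce 16) fun k =>
  Nat.blt (Nat.div ce 16) 116 && decide (k ∈ Qs) &&
  allB 11 fun x => frc (fld c x) fun a => frc (Nat.shiftRight s (Nat.mul 11 (m11 k x))) fun r =>
    Bool.rec (anyB 11 fun y => Bool.rec false (Nat.ble 13 (Nat.add a (fld b y))) (tb r y)) true
      (Nat.ble 11 a)

def tbAll (b : ℕ) (ms : List ℕ) : ℕ → Bool :=
  List.rec (motive := fun _ => ℕ → Bool) (fun _ => true)
    (fun s _ ih ce => Bool.rec false (ih (Nat.shiftRight ce 11)) (tbOne b s (Nat.mod ce 2048))) ms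

def nnC (l : List ℕ) : Bool :=
  frll (slices Ns) fun B =>
  frll (T2 fun x w => catL 258 (mp (fun k => g2 B (m11 k x) (m11 k w)) Qs)) fun A =>
  frc (ones 1290) fun o =>
  allL l fun m =>
    frl (mp (fun y => orL Qs fun k =>
        twoL (gd [] A (m11 k 1)) (Nat.shiftRight m (Nat.mul 11 (m11 k y))) 0 0) r11) fun O1 =>
    frl (mp (fun y => orL Qs fun k =>
        twoL (gd [] A (m11 k 10)) (Nat.shiftRight m (Nat.mul 11 (m11 k y))) 0 0) r11) fun O2 =>
    allL KL fun κ => subs o (Nat.lor (osel 1 O1 κ) (osel 1 O2 (Nat.shiftRight κ 11)))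

def AL : List ℕ := CLKF.mins false ++ CLKF.mins true

end Pool.Agent.OD66.F22
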