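import Pool.Agent.Lib.OD.F22Eng
import Pool.Agent.Lib.OD.B_BJR

set_option autoImplicit false

namespace Pool.Agent.OD66.F22

open Pool.Agent.OCP CLKF

/-- at least `k` labels -/
def Lg (k : ℕ) (A : Z → Prop) : Prop := ∃ s : Finset Z, k ≤ s.card ∧ ∀ y ∈ s, A y

theorem Lg.mono {k : ℕ} {A B : Z → Prop} (h : Lg k A) (hAB : ∀ y, A y → B y) : Lg k B := by
  obtain ⟨s, h1, h2⟩ := h
  exact ⟨s, h1, fun y hy => hAB y (h2 y hy)⟩

theorem Lg.equiv {k : ℕ} {A : Z → Prop} (h : Lg k A) (e : Z ≃ Z) : Lg k fun y => A (e y) := by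
  obtain ⟨s, h1, h2⟩ := h
  refine ⟨s.map e.symm.toEmbedding, by rwa [Finset.card_map], fun y hy => ?_⟩
  rw [Finset.mem_map_equiv] at hy
  exact h2 _ hy

theorem lg_zero (A : Z → Prop) : Lg 0 A := ⟨∅, le_rfl, by simp⟩

theorem q_inv : ∀ c : Z, isQ c = true → ∃ c', isQ c' = true ∧ c' * c = 1 := by decide

theorem Lg.add {k : ℕ} {A : Z → Prop} (h : Lg k A) (t : Z) : Lg k fun y => A (y + t) :=
  h.equiv (Equiv.addRight t)

theorem Lg.mul {k : ℕ} {A : Z → Prop} (h : Lg k A) {c : Z} (hc : isQ c = true) :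
    Lg k fun y => A (c * y) := by
  obtain ⟨c', _, h1⟩ := q_inv c hc
  exact h.equiv ⟨fun y => c * y, fun y => c' * y,
    fun y => by show c' * (c * y) = y; rw [← mul_assoc, h1, one_mul],
    fun y => by show c * (c' * y) = y; rw [← mul_assoc, mul_comm c, h1, one_mul]⟩

def Two (P Q : Z → Prop) : Prop := ∃ w w', w ≠ w' ∧ P w ∧ Q w ∧ P w' ∧ Q w'

theorem two_of_lg {a b : ℕ} {P Q : Z → Prop} (hP : Lg a P) (hQ : Lg b Q) (h : 13 ≤ a + b) :
    Two P Q := by
  obtain ⟨s, h1, h2⟩ := hP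
  obtain ⟨s', h3, h4⟩ := hQ
  have h5 := Finset.card_union_add_card_inter s s'
  have h6 : (s ∪ s').card ≤ 11 := (Finset.card_le_univ _).trans (ZMod.card 11).le
  obtain ⟨w, hw, w', hw', hne⟩ := Finset.one_lt_card.1 (show 1 < (s ∩ s').card by omega)
  rw [Finset.mem_inter] at hw hw'
  exact ⟨w, w', hne, h2 _ hw.1, h4 _ hw.2, h2 _ hw'.1, h4 _ hw'.2⟩

theorem mem_r11 {x : ℕ} : x ∈ r11 ↔ x < 11 := by
  show x ∈ List.range 11 ↔ _
  exact List.mem_range

theorem val_cast {x : ℕ} (hx : x < 11) : (x : Z).val = x := ZMod.val_cast_of_lt hx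

theorem count_card (P : ℕ → Bool) :
    r11.countP P = (Finset.univ.filter fun y : Z => P y.val = true).card := by
  have h1 : r11.countP P = ((Finset.range 11).filter fun y => P y = true).card := by
    rw [List.countP_eq_length_filter]
    show _ = (Multiset.filter _ (Multiset.range 11)).card
    rw [Multiset.range, Multiset.filter_coe, Multiset.coe_card]
    simp only [Bool.decide_eq_true]
    rfl
  rw [h1]
  symm
  refine Finset.card_bij (fun y _ => y.val) (fun y hy => ?_) (fun y _ y' _ h => ?_) fun x hx => ?_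
  · rw [Finset.mem_filter] at hy ⊢
    exact ⟨Finset.mem_range.2 (ZMod.val_lt y), hy.2⟩
  · exact ZMod.val_injective 11 h
  · rw [Finset.mem_filter, Finset.mem_range] at hx
    refine ⟨(x : Z), ?_, val_cast hx.1⟩
    rw [Finset.mem_filter, val_cast hx.1]
    exact ⟨Finset.mem_univ _, hx.2⟩

theorem thr_lg {f : ℕ → ℕ} {o i a : ℕ} {A : Z → Prop}
    (hf : ∀ y : Z, (f y.val).testBit i = true → A y)
    (h : (gd 0 (o :: thr (mp f r11)) a).testBit i = true) : a ≤ 10 ∧ Lg a A := by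
  cases a with
  | zero => exact ⟨Nat.zero_le _, lg_zero A⟩
  | succ a =>
    have e : gd 0 (o :: thr (mp f r11)) (a + 1) = (thr (mp f r11)).getD a 0 := gd_eq _ _ _
    rw [e] at h
    by_cases ha : a < 10
    · rw [thr_bit _ _ _ ha, mp_eq, List.countP_map] at h
      refine ⟨ha, Finset.univ.filter fun y : Z => (f y.val).testBit i = true, ?_, fun y hy => ?_⟩
      · exact h.trans (count_card fun y => (f y).testBit i).le
      · exact hf y (Finset.mem_filter.1 hy).2
    · rw [List.getD_eq_default _ _ (by rw [thr_len]; omega)] at h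
      simp at h

theorem ths_lg {f : ℕ → ℕ → ℕ} {o i a : ℕ} {A : Z → Z → Prop}
    (hf : ∀ x y : Z, (f x.val y.val).testBit i = true → A x y) (x : Z)
    (h : (g2 (THs o (T2 f)) x.val a).testBit i = true) : a ≤ 10 ∧ Lg a (A x) := by
  have e : gd [] (THs o (T2 f)) x.val = o :: thr (mp (f x.val) r11) := by
    have : THs o (T2 f) = mp (fun x => o :: thr (mp (f x) r11)) r11 := rfl
    rw [this, gd_r11 _ _ (ZMod.val_lt x)]
  unfold g2 at h
  rw [e] at h
  exact thr_lg (hf x) h

def Term (A : Z → Z → Prop) : Prop :=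
  ∀ c ∈ Cs, ∀ k : Z, isQ k = true → ∃ x : Z, fld c x.val ≤ 10 ∧ Lg (fld c x.val) (A (k * x))

def BigP (A : Z → Z → Prop) : Prop :=
  ∃ b ∈ Bs, ∃ k : Z, isQ k = true ∧ ∀ x : Z, fld b.1 x.val ≤ 10 ∧ Lg (fld b.1 x.val) (A (k * x))

def NN (A : Z → Z → Prop) : Prop :=
  ∃ m ∈ Ns, ∃ c : Z, isQ c = true ∧ ∀ x y, bt m (c * x) (c * y) → A x y

def Iv (A : Z → Z → Prop) : Prop := NN A ∨ (Term A ∧ BigP A)

theorem q_val : ∀ k : Z, isQ k = true → k.val ∈ Qs := by decide

theorem q_cast : ∀ k ∈ Qs, isQ (k : Z) = true ∧ (k : Z).val = k := by decide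

theorem m11_val (k x : Z) : m11 k.val x.val = (k * x).val := (ZMod.val_mul k x).symm

theorem a11_val (k x : Z) : a11 k.val x.val = (k + x).val := (ZMod.val_add k x).symm

theorem term_of {f : ℕ → ℕ → ℕ} {o i : ℕ} {A : Z → Z → Prop}
    (hf : ∀ x y : Z, (f x.val y.val).testBit i = true → A x y)
    (h : (termL o (THs o (T2 f))).testBit i = true) : Term A := by
  intro c hc k hk
  obtain ⟨x, hx, h'⟩ := orL_bit (andL_bit (andL_bit h c hc) k.val (q_val k hk))
  rw [mem_r11] at hx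
  refine ⟨(x : Z), ?_⟩
  rw [← val_cast hx, m11_val] at h'
  exact ths_lg hf _ h'

theorem big_of {f : ℕ → ℕ → ℕ} {o i : ℕ} {A : Z → Z → Prop}
    (hf : ∀ x y : Z, (f x.val y.val).testBit i = true → A x y)
    (h : (bigL o (THs o (T2 f))).testBit i = true) : BigP A := by
  obtain ⟨b, hb, h1⟩ := orL_bit h
  obtain ⟨k, hk, h2⟩ := orL_bit h1
  refine ⟨b, hb, (k : Z), (q_cast k hk).1, fun x => ?_⟩
  have h3 := andL_bit h2 x.val (mem_r11.2 (ZMod.val_lt x))
  rw [← (q_cast k hk).2, m11_val] at h3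
  exact ths_lg hf _ h3

theorem Term.mono {A B : Z → Z → Prop} (h : Term A) (hAB : ∀ x y, A x y → B x y) : Term B := by
  intro c hc k hk
  obtain ⟨x, h1, h2⟩ := h c hc k hk
  exact ⟨x, h1, h2.mono (hAB _)⟩

theorem BigP.mono {A B : Z → Z → Prop} (h : BigP A) (hAB : ∀ x y, A x y → B x y) : BigP B := by
  obtain ⟨b, hb, k, hk, h⟩ := h
  exact ⟨b, hb, k, hk, fun x => ⟨(h x).1, (h x).2.mono (hAB _)⟩⟩

theorem Iv.mono {A B : Z → Z → Prop} (h : Iv A) (hAB : ∀ x y, A x y → B x y) : Iv B := by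
  rcases h with ⟨m, hm, c, hc, h⟩ | h
  · exact Or.inl ⟨m, hm, c, hc, fun x y hxy => hAB x y (h x y hxy)⟩
  · exact Or.inr ⟨h.1.mono hAB, h.2.mono hAB⟩

theorem Term.rot {A : Z → Z → Prop} (h : Term A) {c : Z} (hc : isQ c = true) :
    Term fun x y => A (c * x) (c * y) := by
  intro a ha k hk
  obtain ⟨x, h1, h2⟩ := h a ha (c * k) (by rw [bjr_isQ_mul _ _ hc]; exact hk)
  refine ⟨x, h1, ?_⟩
  rw [mul_assoc] at h2
  exact h2.mul hc

theorem BigP.rot {A : Z → Z → Prop} (h : BigP A) {c : Z} (hc : isQ c = true) :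
    BigP fun x y => A (c * x) (c * y) := by
  obtain ⟨b, hb, k, hk, h⟩ := h
  obtain ⟨c', hc', h1⟩ := q_inv c hc
  refine ⟨b, hb, c' * k, by rw [bjr_isQ_mul _ _ hc']; exact hk, fun x => ⟨(h x).1, ?_⟩⟩
  have e : c * (c' * k * x) = k * x := by linear_combination k * x * h1
  show Lg _ fun y => A (c * (c' * k * x)) (c * y)
  rw [e]
  exact (h x).2.mul hc

theorem NN.rot {A : Z → Z → Prop} (h : NN A) {c : Z} (hc : isQ c = true) :
    NN fun x y => A (c * x) (c * y) := by
  obtain ⟨m, hm, k, hk, h⟩ := h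
  refine ⟨m, hm, k * c, by rw [bjr_isQ_mul _ _ hk]; exact hc, fun x y hxy => h _ _ ?_⟩
  rwa [mul_assoc, mul_assoc] at hxy

theorem Iv.rot {A : Z → Z → Prop} (h : Iv A) {c : Z} (hc : isQ c = true) :
    Iv fun x y => A (c * x) (c * y) := by
  rcases h with h | h
  · exact Or.inl (h.rot hc)
  · exact Or.inr ⟨h.1.rot hc, h.2.rot hc⟩

/-- one more step -/
def stp (A R : Z → Z → Prop) (t : Z) (x y : Z) : Prop := ∃ w, A x w ∧ R (w - t) (y - t)

theorem getD_mp {α : Type} (f : α → ℕ) (d : α) (l : List α) {j : ℕ} (hj : j < l.length) :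
    (mp f l).getD j 0 = f (l.getD j d) := by
  rw [mp_eq, List.getD_eq_getElem _ _ (by rw [List.length_map]; exact hj),
    List.getD_eq_getElem _ _ hj, List.getElem_map]

theorem slices_bit (sts : List ℕ) {j : ℕ} (hj : j < sts.length) (x w : ℕ) :
    (catL 1 (mp (fun m => Nat.shiftRight m (ix x w)) sts)).testBit j =
      (sts.getD j 0).testBit (11 * x + w) := by
  have := catL_bit (n := 1) (mp (fun m => Nat.shiftRight m (ix x w)) sts) j Nat.one_pos
  rw [Nat.one_mul, Nat.add_zero] at this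
  rw [this, getD_mp _ 0 _ hj]
  exact Nat.testBit_shiftRight _

theorem ex_sound {st m m' c : ℕ} {t : Z} (hm' : m' ∈ Ns) (hc : c ∈ Qs)
    (h : exOK st t.val m m' c = true) : NN (stp (bt st) (bt m) t) := by
  refine ⟨m', hm', (c : Z), (q_cast c hc).1, fun x y hxy => ?_⟩
  have h1 := (allB_iff _ _).1 ((allB_iff _ _).1 h x.val (ZMod.val_lt x)) (y - t).val
    (ZMod.val_lt _)
  rw [← (q_cast c hc).2, a11_val, sub_add_cancel, m11_val, m11_val, tb_eq] at h1
  have hxy' : m'.testBit (ix ((c : Z) * x).val ((c : Z) * y).val) = true := hxy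
  rw [hxy'] at h1
  obtain ⟨w, hw, h2⟩ := (anyB_iff _ _).1 h1
  rw [← val_cast hw, a11_val, tb_eq, tb_eq] at h2
  cases h3 : st.testBit (ix x.val ((w : Z) + t).val) with
  | false => rw [h3] at h2; cases h2
  | true =>
    rw [h3] at h2
    refine ⟨(w : Z) + t, h3, ?_⟩
    rw [add_sub_cancel_right]
    exact h2

theorem ns_len : Ns.length = 258 := by decide +kernel

theorem getD_mem {l : List ℕ} {j : ℕ} (hj : j < l.length) : l.getD j 0 ∈ l := by
  rw [List.getD_eq_getElem _ _ hj]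
  exact List.getElem_mem _

theorem mem_getD {l : List ℕ} {a : ℕ} (h : a ∈ l) : ∃ j < l.length, l.getD j 0 = a := by
  obtain ⟨j, hj, rfl⟩ := List.getElem_of_mem h
  exact ⟨j, hj, List.getD_eq_getElem _ _ hj⟩

theorem eng_sound {sts sh ms : List ℕ} {n0 D G : ℕ} {X : List (ℕ × ℕ × ℕ)}
    (h0 : sts.length = n0) (hD : sh.length = D) (hG : ms.length = G)
    (h : eng sts sh ms n0 D G X = true) (hX : exAll sts sh ms n0 D X = true)
    {st m : ℕ} {t : Z} (hst : st ∈ sts) (ht : t.val ∈ sh) (hm : m ∈ ms) :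
    Iv (stp (bt st) (bt m) t) := by
  obtain ⟨j, hj, ej⟩ := mem_getD hst
  obtain ⟨d, hd, ed⟩ := mem_getD ht
  obtain ⟨r, hr, er⟩ := mem_getD hm
  unfold eng at h
  simp only [frll_eq, frc_eq] at h
  have hl1 : n0 * d + j < n0 * D := by
    have : n0 * (d + 1) ≤ n0 * D := Nat.mul_le_mul_left _ (by omega)
    rw [Nat.mul_succ] at this
    omega
  have hl2 : n0 * D * r + (n0 * d + j) < n0 * D * G := by
    have : n0 * D * (r + 1) ≤ n0 * D * G := Nat.mul_le_mul_left _ (by omega)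
    rw [Nat.mul_succ] at this
    omega
  have h1 := subs_bit h (ones_bit hl2)
  have h2 : ∀ a b c i : ℕ, (Nat.lor (Nat.land a b) c).testBit i = true →
      (a.testBit i = true ∧ b.testBit i = true) ∨ c.testBit i = true := by
    intro a b c i hh
    have : (a &&& b ||| c).testBit i = true := hh
    rwa [Nat.testBit_or, Nat.testBit_and, Bool.or_eq_true, Bool.and_eq_true] at this
  rcases h2 _ _ _ _ h1 with h3 | h3
  · have hf : ∀ x y : Z, (catL (Nat.mul n0 D) (mp (fun m => osel 11 (gd [] (T2 fun x w =>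
        catL n0 (mp (fun t => g2 (slices sts) x (a11 w t)) sh)) x.val) (Nat.shiftRight m y.val))
          ms)).testBit (n0 * D * r + (n0 * d + j)) = true →
        stp (bt st) (bt m) t x (y + t) := by
      intro x y hh
      have e1 := catL_bit (n := n0 * D) (mp (fun m => osel 11 (gd [] (T2 fun x w =>
        catL n0 (mp (fun t => g2 (slices sts) x (a11 w t)) sh)) x.val) (Nat.shiftRight m y.val))
          ms) r hl1
      have hh' := e1.symm.trans hh
      rw [getD_mp _ 0 _ hr, er] at hh'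
      unfold T2 at hh'
      rw [gd_r11 _ _ (ZMod.val_lt x)] at hh'
      obtain ⟨w, hw, h4, h5⟩ := osel_bit hh'
      have hw' : w < 11 := hw
      rw [← gd_eq, gd_r11 _ _ hw', catL_bit _ _ (h0 ▸ hj), getD_mp _ 0 _ hd, ed, ← val_cast hw',
        a11_val] at h5
      unfold slices at h5
      rw [g2_T2 _ (ZMod.val_lt _) (ZMod.val_lt _), slices_bit _ hj, ej] at h5
      refine ⟨(w : Z) + t, h5, ?_⟩
      rw [add_sub_cancel_right, add_sub_cancel_right]
      have h6 : (m >>> y.val).testBit (11 * w) = true := h4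
      rw [Nat.testBit_shiftRight, Nat.add_comm] at h6
      show m.testBit (11 * (w : Z).val + y.val) = true
      rw [val_cast hw']
      exact h6
    have hT := term_of (A := fun x y => stp (bt st) (bt m) t x (y + t)) hf h3.1
    have hB := big_of (A := fun x y => stp (bt st) (bt m) t x (y + t)) hf h3.2
    refine Or.inr ⟨fun c hc k hk => ?_, ?_⟩
    · obtain ⟨x, a1, a2⟩ := hT c hc k hk
      exact ⟨x, a1, (a2.add (-t)).mono fun y hy => by simpa using hy⟩
    · obtain ⟨b, hb, k, hk, a⟩ := hB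
      exact ⟨b, hb, k, hk, fun x => ⟨(a x).1,
        ((a x).2.add (-t)).mono fun y hy => by simpa using hy⟩⟩
  · obtain ⟨e, he, h4⟩ := orL_bit h3
    have h5 : (1 <<< e.1).testBit (n0 * D * r + (n0 * d + j)) = true := h4
    rw [Nat.one_shiftLeft, Nat.testBit_two_pow, decide_eq_true_eq] at h5
    have h6 := (allL_iff _ _).1 hX e he
    have hj' : j < n0 := h0 ▸ hj
    have hd' : d < D := hD ▸ hd
    have e0 : e.1 = n0 * (D * r + d) + j := by rw [h5]; ring
    have e1 : Nat.mod e.1 n0 = j := by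
      show e.1 % n0 = j
      rw [e0, Nat.mul_add_mod, Nat.mod_eq_of_lt hj']
    have e2 : Nat.div e.1 n0 = D * r + d := by
      show e.1 / n0 = _
      rw [e0, Nat.mul_add_div (by omega), Nat.div_eq_of_lt hj', Nat.add_zero]
    have e3 : Nat.mod (D * r + d) D = d := by
      show (D * r + d) % D = d
      rw [Nat.mul_add_mod, Nat.mod_eq_of_lt hd']
    have e4 : Nat.div (D * r + d) D = r := by
      show (D * r + d) / D = r
      rw [Nat.mul_add_div (by omega), Nat.div_eq_of_lt hd', Nat.add_zero]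
    rw [e1, e2, e3, e4, gd_eq, gd_eq, gd_eq, gd_eq, ej, ed, er] at h6
    cases h7 : (Nat.blt e.2.1 258 && decide (e.2.2 ∈ Qs)) with
    | false => rw [h7] at h6; cases h6
    | true =>
      rw [h7] at h6
      rw [Bool.and_eq_true, Nat.blt_eq, decide_eq_true_eq] at h7
      exact Or.inl (ex_sound (getD_mem (ns_len ▸ h7.1)) h7.2 h6)

theorem bigN_sound (h : bigN = true) {m : ℕ} (hm : m ∈ Ns) : BigP (bt m) := by
  obtain ⟨j, hj, ej⟩ := mem_getD hm
  unfold bigN at h
  simp only [frll_eq, frc_eq] at h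
  refine big_of (fun x y hh => ?_) (subs_bit h (ones_bit (ns_len ▸ hj)))
  rw [slices_bit _ hj, ej] at hh
  exact hh

theorem el_ok : (allB 11 fun w => allB 32 fun a => allB 64 fun b =>
    tb (gd 0 El w) (64 * a + b) == tb (64 * a + b) w) = true := by
  decide +kernel

theorem hall_sound {ms : List ℕ} (h : hallC ms = true) {m : ℕ} (hm : m ∈ ms) {a : ℕ}
    (h1 : a ≠ 1) (h6 : a ≠ 6) (h10 : a ≤ 10) {A : Z → Prop} (hA : Lg a A) :
    Lg a fun y => ∃ w, A w ∧ bt m w y := by
  cases a with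
  | zero => exact lg_zero _
  | succ a =>
    unfold hallC at h
    simp only [frl_eq] at h
    have ha : a ∈ [1, 2, 3, 4, 6, 7, 8, 9] := by
      have : a < 10 := h10
      interval_cases a <;> simp_all
    have h2 := (allL_iff _ _).1 ((allL_iff _ _).1 h m hm) a ha
    obtain ⟨s, hs, hsA⟩ := hA
    let n := Nat.ofBits fun i : Fin 11 => decide (((i : ℕ) : Z) ∈ s)
    have hn : n < 2048 := Nat.ofBits_lt_two_pow _
    have hb : ∀ w < 11, (gd 0 El w).testBit n = decide ((w : Z) ∈ s) := by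
      intro w hw
      have := (allB_iff _ _).1 ((allB_iff _ _).1 ((allB_iff _ _).1 el_ok w hw) (n / 64) (by omega))
        (n % 64) (Nat.mod_lt _ (by norm_num))
      rw [Nat.div_add_mod, beq_iff_eq, tb_eq, tb_eq] at this
      rw [this]
      exact Nat.testBit_ofBits_lt _ _ hw
    have eE : El = mp (fun w => gd 0 El w) r11 := rfl
    have h3 : (gd 0 (thr El) a).testBit n = true := by
      rw [gd_eq, thr_bit _ _ _ h10, eE, mp_eq, List.countP_map]
      refine hs.trans (le_trans (Finset.card_le_card fun y hy => ?_)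
        (count_card fun y => (gd 0 El y).testBit n).ge)
      rw [Finset.mem_filter, hb _ (ZMod.val_lt y), ZMod.natCast_zmod_val]
      exact ⟨Finset.mem_univ _, decide_eq_true hy⟩
    refine (thr_lg (o := 0) (a := a + 1) (fun y hy => ?_) (subs_bit h2 h3)).2
    obtain ⟨w, hw, h4, h5⟩ := osel_bit hy
    have hw' : w < 11 := hw
    rw [← gd_eq, hb w hw', decide_eq_true_eq] at h5
    refine ⟨(w : Z), hsA _ h5, ?_⟩
    have h7 : (m >>> y.val).testBit (11 * w) = true := h4
    rw [Nat.testBit_shiftRight, Nat.add_comm] at h7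
    show m.testBit (11 * (w : Z).val + y.val) = true
    rw [val_cast hw']
    exact h7

end Pool.Agent.OD66.F22
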