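import Pool.Agent.Lib.OD.Mins

set_option autoImplicit false

namespace Pool.Agent.OD66.J3

open CLKF

/-- families of finite sets -/
inductive Zd
  | bot
  | top
  | nd (v : ℕ) (hi lo : Zd)

/-- all minimal relations -/
def tys : List ℕ := mins false ++ mins true

/-- evaluate the argument first -/
noncomputable def frc (n : ℕ) (f : ℕ → ℕ) : ℕ := Nat.rec (f 0) (fun m _ => f (Nat.succ m)) n

theorem frc_eq (n : ℕ) (f : ℕ → ℕ) : frc n f = f n := by cases n <;> rfl

noncomputable def ev (one : ℕ) (env : ℕ → ℕ) (z : Zd) : ℕ :=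
  Zd.rec 0 one (fun v _ _ a b => Nat.lor (Nat.land (env v) a) b) z

def evP (σ : ℕ → Prop) : Zd → Prop
  | .bot => False
  | .top => True
  | .nd v hi lo => (σ v ∧ evP σ hi) ∨ evP σ lo

theorem lor_bit (a b j : ℕ) : (Nat.lor a b).testBit j = (a.testBit j || b.testBit j) :=
  Nat.testBit_or a b j

theorem land_bit (a b j : ℕ) : (Nat.land a b).testBit j = (a.testBit j && b.testBit j) :=
  Nat.testBit_and a b j

theorem shl_bit (a n j : ℕ) :
    (Nat.shiftLeft a n).testBit j = (decide (j ≥ n) && a.testBit (j - n)) :=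
  Nat.testBit_shiftLeft a

theorem ev_sound (one : ℕ) (env : ℕ → ℕ) (σ : ℕ → Prop) (j : ℕ)
    (h : ∀ k, (env k).testBit j = true → σ k) (z : Zd) :
    (ev one env z).testBit j = true → evP σ z := by
  induction z with
  | bot => intro h0; exact absurd h0 (by simp [ev])
  | top => exact fun _ => trivial
  | nd v hi lo i1 i2 =>
    intro h0
    have e : ev one env (.nd v hi lo) =
        Nat.lor (Nat.land (env v) (ev one env hi)) (ev one env lo) := rfl
    rw [e, lor_bit, land_bit, Bool.or_eq_true, Bool.and_eq_true] at h0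
    rcases h0 with ⟨h1, h2⟩ | h1
    · exact Or.inl ⟨h v h1, i1 h2⟩
    · exact Or.inr (i2 h1)

noncomputable def ones (w : ℕ) : ℕ := Nat.pred (Nat.shiftLeft 1 w)

theorem ones_bit (w j : ℕ) : (ones w).testBit j = decide (j < w) := by
  have e : ones w = 2 ^ w - 1 := by
    show 1 <<< w - 1 = _
    rw [Nat.one_shiftLeft]
  rw [e, Nat.testBit_two_pow_sub_one]

noncomputable def wd (z : Zd) : ℕ := Zd.rec 0 76 (fun _ _ _ a b => Nat.add a b) z

noncomputable def sl (z : Zd) (k : ℕ) : ℕ :=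
  Zd.rec 0 0 (fun v hi _ a b =>
    Nat.lor (cond (Nat.beq k v) (ones (wd hi)) a) (Nat.shiftLeft b (wd hi))) z

theorem wd_nd (v : ℕ) (hi lo : Zd) : wd (.nd v hi lo) = wd hi + wd lo := rfl

theorem sl_nd (k v : ℕ) (hi lo : Zd) : sl (.nd v hi lo) k =
    Nat.lor (cond (Nat.beq k v) (ones (wd hi)) (sl hi k)) (Nat.shiftLeft (sl lo k) (wd hi)) := rfl

theorem wd_dvd (z : Zd) : ∃ n, wd z = 76 * n := by
  induction z with
  | bot => exact ⟨0, rfl⟩
  | top => exact ⟨1, rfl⟩
  | nd v hi lo i1 i2 =>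
    obtain ⟨a, ha⟩ := i1
    obtain ⟨b, hb⟩ := i2
    exact ⟨a + b, by rw [wd_nd, ha, hb, mul_add]⟩

theorem sl_lt (k : ℕ) (z : Zd) : ∀ j, (sl z k).testBit j = true → j < wd z := by
  induction z with
  | bot => intro j h; exact absurd h (by simp [sl])
  | top => intro j h; exact absurd h (by simp [sl])
  | nd v hi lo i1 i2 =>
    intro j h
    rw [sl_nd, lor_bit, shl_bit, Bool.or_eq_true, Bool.and_eq_true, decide_eq_true_eq] at h
    rw [wd_nd]
    rcases h with h | ⟨h1, h2⟩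
    · cases hb : Nat.beq k v
      · rw [hb] at h
        have := i1 j h
        omega
      · rw [hb, cond_true, ones_bit, decide_eq_true_eq] at h
        omega
    · have := i2 _ h2
      omega

theorem sl_sound (σ : ℕ → Prop) (z : Zd) : evP σ z → ∃ s, 76 * s + 76 ≤ wd z ∧
    ∀ k i, i < 76 → (sl z k).testBit (76 * s + i) = true → σ k := by
  induction z with
  | bot => exact fun h => h.elim
  | top => exact fun _ => ⟨0, le_refl _, fun k i _ h => absurd h (by simp [sl])⟩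
  | nd v hi lo i1 i2 =>
    rintro (⟨h1, h2⟩ | h1)
    · obtain ⟨s, hs, h⟩ := i1 h2
      refine ⟨s, by rw [wd_nd]; omega, fun k i hi' hb => ?_⟩
      rw [sl_nd, lor_bit, shl_bit, Bool.or_eq_true, Bool.and_eq_true, decide_eq_true_eq] at hb
      rcases hb with hb | ⟨hb, _⟩
      · cases he : Nat.beq k v
        · rw [he] at hb
          exact h k i hi' hb
        · rw [Nat.eq_of_beq_eq_true he]
          exact h1
      · omega
    · obtain ⟨s, hs, h⟩ := i2 h1
      obtain ⟨n, hn⟩ := wd_dvd hi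
      refine ⟨n + s, by rw [wd_nd]; omega, fun k i hi' hb => ?_⟩
      rw [sl_nd, lor_bit, shl_bit, Bool.or_eq_true, Bool.and_eq_true, decide_eq_true_eq] at hb
      rcases hb with hb | ⟨_, hb⟩
      · exfalso
        cases he : Nat.beq k v
        · rw [he] at hb
          have := sl_lt k hi _ hb
          omega
        · rw [he, cond_true, ones_bit, decide_eq_true_eq] at hb
          omega
      · have e : 76 * (n + s) + i - wd hi = 76 * s + i := by omega
        rw [e] at hb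
        exact h k i hi' hb

noncomputable def col (l : List ℕ) (k : ℕ) : ℕ :=
  List.rec 0 (fun m _ a => Nat.lor (cond (m.testBit k) 1 0) (Nat.shiftLeft a 1)) l

noncomputable def spr (l : List ℕ) (k : ℕ) : ℕ :=
  List.rec 0 (fun m _ a => Nat.lor (cond (m.testBit k) (ones 76) 0) (Nat.shiftLeft a 76)) l

theorem col_cons (m : ℕ) (l : List ℕ) (k : ℕ) : col (m :: l) k =
    Nat.lor (cond (m.testBit k) 1 0) (Nat.shiftLeft (col l k) 1) := rfl

theorem spr_cons (m : ℕ) (l : List ℕ) (k : ℕ) : spr (m :: l) k =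
    Nat.lor (cond (m.testBit k) (ones 76) 0) (Nat.shiftLeft (spr l k) 76) := rfl

theorem cond_one_bit (b : Bool) (j : ℕ) (h : (cond b 1 0 : ℕ).testBit j = true) :
    b = true ∧ j = 0 := by
  cases b
  · exact absurd h (by simp)
  · exact ⟨rfl, Nat.testBit_one_eq_true_iff_self_eq_zero.1 h⟩

theorem cond_ones_bit (b : Bool) (w j : ℕ) (h : (cond b (ones w) 0 : ℕ).testBit j = true) :
    b = true ∧ j < w := by
  cases b
  · exact absurd h (by simp)
  · refine ⟨rfl, ?_⟩
    rw [cond_true, ones_bit, decide_eq_true_eq] at h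
    exact h

theorem col_lt (k : ℕ) (l : List ℕ) : ∀ j, (col l k).testBit j = true → j < l.length := by
  induction l with
  | nil => intro j h; exact absurd h (by simp [col])
  | cons m l ih =>
    intro j h
    rw [col_cons, lor_bit, shl_bit, Bool.or_eq_true, Bool.and_eq_true, decide_eq_true_eq] at h
    rw [List.length_cons]
    rcases h with h | ⟨_, h⟩
    · have := (cond_one_bit _ _ h).2
      omega
    · have := ih _ h
      omega

theorem col_mem {m : ℕ} {l : List ℕ} (h : m ∈ l) : ∃ i, i < l.length ∧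
    ∀ k, (col l k).testBit i = true → m.testBit k = true := by
  induction l with
  | nil => cases h
  | cons a l ih =>
    rcases List.mem_cons.1 h with rfl | h
    · refine ⟨0, by simp, fun k hb => ?_⟩
      rw [col_cons, lor_bit, shl_bit, Bool.or_eq_true, Bool.and_eq_true, decide_eq_true_eq] at hb
      rcases hb with hb | ⟨hb, _⟩
      · exact (cond_one_bit _ _ hb).1
      · omega
    · obtain ⟨i, hi, hk⟩ := ih h
      refine ⟨i + 1, by simpa using hi, fun k hb => ?_⟩
      rw [col_cons, lor_bit, shl_bit, Bool.or_eq_true, Bool.and_eq_true, decide_eq_true_eq] at hb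
      rcases hb with hb | ⟨_, hb⟩
      · have := (cond_one_bit _ _ hb).2
        omega
      · exact hk k hb

theorem spr_mem {m : ℕ} {l : List ℕ} (h : m ∈ l) : ∃ s, s < l.length ∧
    ∀ k i, i < 76 → (spr l k).testBit (76 * s + i) = true → m.testBit k = true := by
  induction l with
  | nil => cases h
  | cons a l ih =>
    rcases List.mem_cons.1 h with rfl | h
    · refine ⟨0, by simp, fun k i hi hb => ?_⟩
      rw [spr_cons, lor_bit, shl_bit, Bool.or_eq_true, Bool.and_eq_true, decide_eq_true_eq] at hb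
      rcases hb with hb | ⟨hb, _⟩
      · exact (cond_ones_bit _ _ _ hb).1
      · omega
    · obtain ⟨s, hs, hk⟩ := ih h
      refine ⟨s + 1, by simpa using hs, fun k i hi hb => ?_⟩
      rw [spr_cons, lor_bit, shl_bit, Bool.or_eq_true, Bool.and_eq_true, decide_eq_true_eq] at hb
      rcases hb with hb | ⟨_, hb⟩
      · have := (cond_ones_bit _ _ _ hb).2
        omega
      · have e : 76 * (s + 1) + i - 76 = 76 * s + i := by omega
        rw [e] at hb
        exact hk k i hi hb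

noncomputable def repl (P d : ℕ) : ℕ :=
  Nat.rec P (fun n a => Nat.lor a (Nat.shiftLeft a (Nat.mul 76 (Nat.pow 2 n)))) d

theorem repl_bit (P : ℕ) (hP : ∀ j, P.testBit j = true → j < 76) (d : ℕ) :
    ∀ j, (repl P d).testBit j = true → P.testBit (j % 76) = true := by
  induction d with
  | zero =>
    intro j h
    rw [Nat.mod_eq_of_lt (hP j h)]
    exact h
  | succ n ih =>
    intro j h
    have e : repl P (n + 1) = Nat.lor (repl P n) (Nat.shiftLeft (repl P n) (76 * 2 ^ n)) := rfl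
    rw [e, lor_bit, shl_bit, Bool.or_eq_true, Bool.and_eq_true, decide_eq_true_eq] at h
    rcases h with h | ⟨h1, h⟩
    · exact ih j h
    · have := ih _ h
      have e2 : (j - 76 * 2 ^ n) % 76 = j % 76 := by omega
      rwa [e2] at this

noncomputable def rel (d k : ℕ) : ℕ := repl (col tys k) d

theorem tys_len : tys.length = 76 := by decide

noncomputable def or11 (f : ℕ → ℕ) : ℕ :=
  Nat.lor (Nat.lor (Nat.lor (f 0) (f 1)) (Nat.lor (f 2) (Nat.lor (f 3) (f 4))))
    (Nat.lor (Nat.lor (f 5) (Nat.lor (f 6) (f 7))) (Nat.lor (f 8) (Nat.lor (f 9) (f 10))))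

theorem or11_bit (f : ℕ → ℕ) (j : ℕ) (h : (or11 f).testBit j = true) :
    ∃ y, y < 11 ∧ (f y).testBit j = true := by
  simp only [or11, lor_bit, Bool.or_eq_true] at h
  rcases h with ((h | h) | h | h | h) | (h | h | h) | h | h | h <;> exact ⟨_, by norm_num, h⟩

/-- minus the label of the row of `k` -/
noncomputable def off (t k : ℕ) : ℕ :=
  Nat.sub 110 (Nat.mul (Nat.mod (Nat.pow 4 (Nat.div k 11)) 11) t)

/-- index of the translated pair -/
noncomputable def idx (t k y : ℕ) : ℕ :=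
  Nat.add (Nat.mul 11 (Nat.mod (Nat.add y (off t k)) 11)) (Nat.mod (Nat.add k (off t k)) 11)

noncomputable def stp (d : ℕ) (V : ℕ → ℕ) (t k : ℕ) : ℕ :=
  or11 fun y => Nat.land (frc (Nat.add (Nat.mul 11 (Nat.div k 11)) y) V) (frc (idx t k y) (rel d))

noncomputable def ini (x t k : ℕ) : ℕ := frc (idx t k x) (spr tys)

/-- the state read from the rows `ρ c` -/
def st (ρ : Z → Z → Prop) (g : Z) (k : ℕ) : Prop := ρ (g * 4 ^ (k / 11)) (k : Z)

theorem idx_bt (m : ℕ) (t : Z) (k y : ℕ) (h : m.testBit (idx t.val k y) = true) :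
    bt m ((y : Z) - 4 ^ (k / 11) * t) ((k : Z) - 4 ^ (k / 11) * t) := by
  have h1 : 4 ^ (k / 11) % 11 < 11 := Nat.mod_lt _ (by norm_num)
  have h2 : t.val < 11 := ZMod.val_lt t
  have h3 : 4 ^ (k / 11) % 11 * t.val ≤ 110 := by nlinarith
  have e0 : off t.val k = 110 - 4 ^ (k / 11) % 11 * t.val := rfl
  have e1 : ((off t.val k : ℕ) : Z) = -(4 ^ (k / 11) * t) := by
    rw [e0, Nat.cast_sub h3, Nat.cast_mul, ZMod.natCast_mod, ZMod.natCast_zmod_val]
    have : ((110 : ℕ) : Z) = 0 := by decide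
    rw [this, zero_sub]
    push_cast
    rfl
  have e2 : idx t.val k y = 11 * ((y + off t.val k) % 11) + (k + off t.val k) % 11 := rfl
  rw [e2] at h
  have := bt_of (Nat.mod_lt _ (by norm_num)) (Nat.mod_lt _ (by norm_num)) h
  rw [ZMod.natCast_mod, ZMod.natCast_mod, Nat.cast_add, Nat.cast_add, e1] at this
  rwa [sub_eq_add_neg, sub_eq_add_neg]

theorem stp_sound (d : ℕ) (V : ℕ → ℕ) (ρ ρ' R : Z → Z → Prop) (g t : Z) (m j : ℕ)
    (hV : ∀ k, (V k).testBit j = true → st ρ g k)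
    (hm : ∀ k, (col tys k).testBit (j % 76) = true → m.testBit k = true)
    (hR : ∀ x y, bt m x y → R x y)
    (hρ : ∀ c y y', ρ c y → R (y - c * t) (y' - c * t) → ρ' c y') (k : ℕ)
    (h : (stp d V (g * t).val k).testBit j = true) : st ρ' g k := by
  obtain ⟨y, hy, h⟩ := or11_bit _ _ h
  rw [land_bit, Bool.and_eq_true, frc_eq, frc_eq] at h
  obtain ⟨h1, h2⟩ := h
  have h3 := hV _ h1
  have h4 := idx_bt m (g * t) k y
    (hm _ (repl_bit _ (fun i hi => tys_len ▸ col_lt _ _ i hi) d j h2))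
  have e1 : Nat.add (Nat.mul 11 (Nat.div k 11)) y = 11 * (k / 11) + y := rfl
  have e2 : (11 * (k / 11) + y) / 11 = k / 11 := by omega
  have e3 : ((11 * (k / 11) + y : ℕ) : Z) = y := by
    rw [Nat.cast_add, Nat.cast_mul]
    have : ((11 : ℕ) : Z) = 0 := by decide
    rw [this, zero_mul, zero_add]
  unfold st at h3 ⊢
  rw [e1, e2, e3] at h3
  refine hρ _ _ _ h3 (hR _ _ ?_)
  have e4 : g * 4 ^ (k / 11) * t = 4 ^ (k / 11) * (g * t) := by ring
  rw [e4]
  exact h4

theorem isQ_pow (g : Z) (hg : isQ g = true) (n : ℕ) : isQ (g * 4 ^ n) = true := by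
  induction n with
  | zero => simpa using hg
  | succ n ih =>
    have : ∀ a : Z, isQ a = true → isQ (a * 4) = true := by decide
    rw [pow_succ, ← mul_assoc]
    exact this _ ih

theorem st_rot (ρ : Z → Z → Prop) (g : Z) (h k : ℕ) (H : st ρ g ((k + 11 * h) % 55)) :
    st ρ (g * 4 ^ h) k := by
  unfold st at H ⊢
  have e1 : (k + 11 * h) % 55 / 11 = (k / 11 + h) % 5 := by omega
  have e2 : (((k + 11 * h) % 55 : ℕ) : Z) = k := by
    rw [ZMod.natCast_eq_natCast_iff']
    omega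
  have e3 : (4 : Z) ^ ((k / 11 + h) % 5) = 4 ^ (k / 11 + h) :=
    (pow_eq_pow_mod _ (by decide)).symm
  rw [e1, e2, e3, pow_add] at H
  have e4 : g * 4 ^ h * 4 ^ (k / 11) = g * (4 ^ (k / 11) * 4 ^ h) := by ring
  rw [e4]
  exact H

section check

variable (z2 z5 : Zd)

def Good (ρ : Z → Z → Prop) : Prop :=
  ∃ g, isQ g = true ∧ (evP (st ρ g) z2 ∨ evP (st ρ g) z5)

def BigU (ρ : Z → Z → Prop) : Prop := ∀ y y', y ≠ y' → isQ y = isQ y' →
  (∃ c, isQ c = true ∧ ρ c y) ∨ ∃ c, isQ c = true ∧ ρ c y'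

noncomputable def rotE (W : ℕ → ℕ) (h k : ℕ) : ℕ :=
  frc (Nat.mod (Nat.add k (Nat.mul 11 h)) 55) W

noncomputable def cv (one : ℕ) (W : ℕ → ℕ) (h : ℕ) : ℕ :=
  Nat.lor (ev one (rotE W h) z2) (ev one (rotE W h) z5)

noncomputable def cov (one : ℕ) (W : ℕ → ℕ) (full : Bool) : ℕ :=
  cond full (Nat.lor (Nat.lor (cv z2 z5 one W 0) (cv z2 z5 one W 1))
    (Nat.lor (cv z2 z5 one W 2) (Nat.lor (cv z2 z5 one W 3) (cv z2 z5 one W 4))))
    (ev one (rotE W 0) z2)

noncomputable def un (W : ℕ → ℕ) (full : Bool) (y : ℕ) : ℕ :=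
  Nat.lor (Nat.lor (rotE W 0 y) (rotE W 1 y))
    (cond full (Nat.lor (rotE W 2 y) (Nat.lor (rotE W 3 y) (rotE W 4 y))) 0)

def prs : List (ℕ × ℕ) :=
  [(1, 3), (1, 4), (1, 5), (1, 9), (3, 4), (3, 5), (3, 9), (4, 5), (4, 9), (5, 9),
    (0, 2), (0, 6), (0, 7), (0, 8), (0, 10), (2, 6), (2, 7), (2, 8), (2, 10), (6, 7), (6, 8),
    (6, 10), (7, 8), (7, 10), (8, 10)]

noncomputable def bigc (one : ℕ) (U : ℕ → ℕ) (l : List (ℕ × ℕ)) : ℕ :=
  List.rec one (fun p _ a => Nat.land (Nat.lor (frc p.1 U) (frc p.2 U)) a) l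

noncomputable def chk (d w : ℕ) (V : ℕ → ℕ) (t : ℕ) (full big : Bool) : Bool :=
  and (Nat.beq (cov z2 z5 (ones w) (stp d V t) full) (ones w))
    (cond big (Nat.beq (bigc (ones w) (un (stp d V t) full) prs) (ones w)) true)

variable {z2 z5}

theorem rotE_sound {W : ℕ → ℕ} {ρ : Z → Z → Prop} {g : Z} {j : ℕ}
    (hW : ∀ k, (W k).testBit j = true → st ρ g k) (h k : ℕ)
    (H : (rotE W h k).testBit j = true) : st ρ (g * 4 ^ h) k := by
  unfold rotE at H
  rw [frc_eq] at H
  exact st_rot ρ g h k (hW _ H)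

theorem cv_sound {one : ℕ} {W : ℕ → ℕ} {ρ : Z → Z → Prop} {g : Z} {j : ℕ} (hg : isQ g = true)
    (hW : ∀ k, (W k).testBit j = true → st ρ g k) (h : ℕ)
    (H : (cv z2 z5 one W h).testBit j = true) : Good z2 z5 ρ := by
  unfold cv at H
  rw [lor_bit, Bool.or_eq_true] at H
  refine ⟨g * 4 ^ h, isQ_pow g hg h, ?_⟩
  rcases H with H | H
  · exact Or.inl (ev_sound _ _ _ j (rotE_sound hW h) _ H)
  · exact Or.inr (ev_sound _ _ _ j (rotE_sound hW h) _ H)

theorem cov_sound {one : ℕ} {W : ℕ → ℕ} {ρ : Z → Z → Prop} {g : Z} {j : ℕ} (hg : isQ g = true)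
    (hW : ∀ k, (W k).testBit j = true → st ρ g k) (full : Bool)
    (H : (cov z2 z5 one W full).testBit j = true) : Good z2 z5 ρ := by
  unfold cov at H
  cases full
  · exact ⟨g * 4 ^ 0, isQ_pow g hg 0, Or.inl (ev_sound _ _ _ j (rotE_sound hW 0) _ H)⟩
  · simp only [cond_true, lor_bit, Bool.or_eq_true] at H
    rcases H with (H | H) | H | H | H <;> exact cv_sound hg hW _ H

theorem un_sound {W : ℕ → ℕ} {ρ : Z → Z → Prop} {g : Z} {j : ℕ} (hg : isQ g = true)
    (hW : ∀ k, (W k).testBit j = true → st ρ g k) (full : Bool) (y : ℕ)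
    (H : (un W full y).testBit j = true) : ∃ c, isQ c = true ∧ ρ c (y : Z) := by
  have key : ∀ h, (rotE W h y).testBit j = true → ∃ c, isQ c = true ∧ ρ c (y : Z) :=
    fun h H => ⟨_, isQ_pow _ (isQ_pow g hg h) _, rotE_sound hW h y H⟩
  unfold un at H
  cases full
  · simp only [cond_false, lor_bit, Bool.or_eq_true, Nat.zero_testBit] at H
    rcases H with (H | H) | H
    · exact key _ H
    · exact key _ H
    · cases H
  · simp only [cond_true, lor_bit, Bool.or_eq_true] at H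
    rcases H with (H | H) | H | H | H <;> exact key _ H

theorem bigc_sound (one : ℕ) (U : ℕ → ℕ) (j : ℕ) (l : List (ℕ × ℕ))
    (H : (bigc one U l).testBit j = true) :
    ∀ p ∈ l, (U p.1).testBit j = true ∨ (U p.2).testBit j = true := by
  induction l with
  | nil => intro p hp; cases hp
  | cons a l ih =>
    have e : bigc one U (a :: l) = Nat.land (Nat.lor (frc a.1 U) (frc a.2 U)) (bigc one U l) := rfl
    rw [e, land_bit, lor_bit, Bool.and_eq_true, Bool.or_eq_true, frc_eq, frc_eq] at H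
    intro p hp
    rcases List.mem_cons.1 hp with rfl | hp
    · exact H.1
    · exact ih H.2 p hp

theorem prs_all : ∀ y y' : Z, y ≠ y' → isQ y = isQ y' →
    ∃ p ∈ prs, ((p.1 : Z) = y ∧ (p.2 : Z) = y') ∨ ((p.1 : Z) = y' ∧ (p.2 : Z) = y) := by
  decide +kernel

theorem chk_sound {d w : ℕ} {V : ℕ → ℕ} {full big : Bool} {ρ ρ' R : Z → Z → Prop} {g t : Z}
    {e : Bool} {s : ℕ} (H : chk z2 z5 d w V (g * t).val full big = true) (hg : isQ g = true)
    (hs : 76 * s + 76 ≤ w)
    (hV : ∀ k i, i < 76 → (V k).testBit (76 * s + i) = true → st ρ g k) (hR : Ty e R)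
    (hρ : ∀ c y y', ρ c y → R (y - c * t) (y' - c * t) → ρ' c y') :
    Good z2 z5 ρ' ∧ (big = true → BigU ρ') := by
  obtain ⟨m, hm, hb⟩ := ty_min hR
  have hm' : m ∈ tys := by
    cases e
    · exact List.mem_append_left _ hm
    · exact List.mem_append_right _ hm
  obtain ⟨i, hi, hc⟩ := col_mem hm'
  rw [tys_len] at hi
  have e1 : (76 * s + i) % 76 = i := by omega
  have hW := stp_sound d V ρ ρ' R g t m (76 * s + i) (fun k => hV k i hi)
    (by rw [e1]; exact hc) hb hρ
  have h1 : (ones w).testBit (76 * s + i) = true := by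
    rw [ones_bit, decide_eq_true_eq]
    omega
  unfold chk at H
  rw [Bool.and_eq_true] at H
  refine ⟨cov_sound hg hW full (by rw [Nat.eq_of_beq_eq_true H.1]; exact h1), fun hbig => ?_⟩
  have H2 := H.2
  rw [hbig, cond_true] at H2
  have h3 := bigc_sound _ _ (76 * s + i) prs (by rw [Nat.eq_of_beq_eq_true H2]; exact h1)
  intro y y' hy hq
  obtain ⟨p, hp, h⟩ := prs_all y y' hy hq
  rcases h with ⟨rfl, rfl⟩ | ⟨rfl, rfl⟩
  · exact (h3 p hp).imp (un_sound hg hW full _) (un_sound hg hW full _)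
  · exact (h3 p hp).symm.imp (un_sound hg hW full _) (un_sound hg hW full _)

/-- the rows of a chain -/
def rows (x : Z) (L : List ((Z → Z → Prop) × Z)) (c y : Z) : Prop := ch (scale c L) x y

theorem rows_step (x : Z) (z : (Z → Z → Prop) × Z) (L : List ((Z → Z → Prop) × Z)) (c y y' : Z)
    (h : rows x L c y) (hz : z.1 (y - c * z.2) (y' - c * z.2)) : rows x (z :: L) c y' :=
  ⟨y, h, hz⟩

theorem val_beq : ∀ g t : Z, isQ g = true → t ≠ 0 → (!Nat.beq (g * t).val 0) = true := by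
  decide

theorem good_step {d2 d5 : ℕ}
    (hA : ∀ t, t < 11 → chk z2 z5 d2 (wd z2) (sl z2) t false (!Nat.beq t 0) = true)
    (hB : ∀ t, t < 11 → chk z2 z5 d5 (wd z5) (sl z5) t true (!Nat.beq t 0) = true)
    {x : Z} {z : (Z → Z → Prop) × Z} {L : List ((Z → Z → Prop) × Z)} {e : Bool} (hz : Ty e z.1)
    (h : Good z2 z5 (rows x L)) :
    Good z2 z5 (rows x (z :: L)) ∧ (z.2 ≠ 0 → BigU (rows x (z :: L))) := by
  obtain ⟨g, hg, h | h⟩ := h
  · obtain ⟨s, hs, hV⟩ := sl_sound _ _ h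
    have := chk_sound (hA _ (ZMod.val_lt (g * z.2))) hg hs hV hz (rows_step x z L)
    exact ⟨this.1, fun h0 => this.2 (val_beq g z.2 hg h0)⟩
  · obtain ⟨s, hs, hV⟩ := sl_sound _ _ h
    have := chk_sound (hB _ (ZMod.val_lt (g * z.2))) hg hs hV hz (rows_step x z L)
    exact ⟨this.1, fun h0 => this.2 (val_beq g z.2 hg h0)⟩

theorem norm_lab : ∀ t u : Z, t ≠ 0 → u ≠ t → ∃ g, isQ g = true ∧
    ((g * t).val = 1 ∨ (g * t).val = 10) ∧ (g * u).val ≠ (g * t).val := by
  decide +kernel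

theorem good_init
    (hC : ∀ x, x = 1 ∨ x = 10 → ∀ t, t = 1 ∨ t = 10 → ∀ u, u < 11 → u ≠ t →
      chk z2 z5 7 5776 (ini x t) u true false = true)
    {x : Z} (hx : x.val = 1 ∨ x.val = 10) {y2 y1 : (Z → Z → Prop) × Z} {e2 e1 : Bool}
    (h2 : Ty e2 y2.1) (h1 : Ty e1 y1.1) (h0 : y1.2 ≠ 0) (hne : y2.2 ≠ y1.2) :
    Good z2 z5 (rows x [y2, y1]) := by
  obtain ⟨g, hg, ht, hu⟩ := norm_lab _ _ h0 hne
  obtain ⟨m, hm, hb⟩ := ty_min h1
  have hm' : m ∈ tys := by
    cases e1
    · exact List.mem_append_left _ hm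
    · exact List.mem_append_right _ hm
  obtain ⟨s, hs, hc⟩ := spr_mem hm'
  rw [tys_len] at hs
  refine (chk_sound (s := s) (hC _ hx _ ht _ (ZMod.val_lt _) hu) hg (by omega) ?_ h2
    (rows_step x y2 [y1])).1
  intro k i hi hk
  unfold ini at hk
  rw [frc_eq] at hk
  have h4 := idx_bt m (g * y1.2) k x.val (hc _ i hi hk)
  rw [ZMod.natCast_zmod_val] at h4
  refine rows_step x y1 [] _ x _ rfl (hb _ _ ?_)
  have e4 : g * 4 ^ (k / 11) * y1.2 = 4 ^ (k / 11) * (g * y1.2) := by ring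
  rw [e4]
  exact h4

theorem big_of {d2 d5 : ℕ}
    (hA : ∀ t, t < 11 → chk z2 z5 d2 (wd z2) (sl z2) t false (!Nat.beq t 0) = true)
    (hB : ∀ t, t < 11 → chk z2 z5 d5 (wd z5) (sl z5) t true (!Nat.beq t 0) = true)
    (hC : ∀ x, x = 1 ∨ x = 10 → ∀ t, t = 1 ∨ t = 10 → ∀ u, u < 11 → u ≠ t →
      chk z2 z5 7 5776 (ini x t) u true false = true)
    {x : Z} (hx : x.val = 1 ∨ x.val = 10) (z y2 y1 : (Z → Z → Prop) × Z)
    (L : List ((Z → Z → Prop) × Z)) (hT : AllTy (z :: (L ++ [y2, y1]))) (h0 : y1.2 ≠ 0)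
    (hne : y2.2 ≠ y1.2) (hz : z.2 ≠ 0) : Big (sch (z :: (L ++ [y2, y1]))) x := by
  have key : ∀ L : List ((Z → Z → Prop) × Z), AllTy (L ++ [y2, y1]) →
      Good z2 z5 (rows x (L ++ [y2, y1])) := by
    intro L
    induction L with
    | nil =>
      intro hT
      obtain ⟨e2, h2⟩ := hT y2 (by simp)
      obtain ⟨e1, h1⟩ := hT y1 (by simp)
      exact good_init hC hx h2 h1 h0 hne
    | cons a L ih =>
      intro hT
      obtain ⟨e, ha⟩ := hT a (by simp)
      exact (good_step hA hB ha (ih fun b hb => hT b (List.mem_cons_of_mem _ hb))).1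
  obtain ⟨e, ha⟩ := hT z (by simp)
  exact (good_step hA hB ha (key L fun b hb => hT b (List.mem_cons_of_mem _ hb))).2 hz

end check

end Pool.Agent.OD66.J3
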