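import Pool.Agent.Lib.OD.Seq

/-! The level set argument. -/

set_option autoImplicit false

open MeasureTheory Metric Set Filter Topology
open scoped ContDiff ENNReal

namespace Pool.Agent.Lib.OD

/-- admissible weights -/
structure Wt (W : ℝ → ℝ) : Prop where
  pos : ∀ t, 1 ≤ t → 0 < W t
  mono : MonotoneOn W (Ici 1)
  anti : AntitoneOn (fun t => W t / t) (Ici 1)

variable {X : Type*} [MeasurableSpace X] {μ : Measure X}

lemma cs {f g : X → ℝ} (hf : MemLp f 2 μ) (hg : MemLp g 2 μ) :
    (∫ x, f x * g x ∂μ) ^ 2 ≤ (∫ x, f x ^ 2 ∂μ) * ∫ x, g x ^ 2 ∂μ := by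
  have i1 : Integrable (fun x => f x ^ 2) μ := hf.integrable_sq
  have i2 : Integrable (fun x => g x ^ 2) μ := hg.integrable_sq
  have i3 : Integrable (fun x => f x * g x) μ := hf.integrable_mul hg
  have h : ∀ t : ℝ, 0 ≤ (∫ x, f x ^ 2 ∂μ) * (t * t) + (-2 * ∫ x, f x * g x ∂μ) * t
      + ∫ x, g x ^ 2 ∂μ := by
    intro t
    have i4 : Integrable (fun x => f x ^ 2 * (t * t) + -2 * t * (f x * g x)) μ :=
      (i1.mul_const _).add (i3.const_mul _)
    have e : ∫ x, (f x * t - g x) ^ 2 ∂μ = (∫ x, f x ^ 2 ∂μ) * (t * t)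
        + (-2 * ∫ x, f x * g x ∂μ) * t + ∫ x, g x ^ 2 ∂μ := by
      have : (fun x => (f x * t - g x) ^ 2)
          = fun x => (f x ^ 2 * (t * t) + -2 * t * (f x * g x)) + g x ^ 2 := by
        ext x; ring
      rw [this, integral_add i4 i2, integral_add (i1.mul_const _) (i3.const_mul _),
        integral_mul_const, integral_const_mul]
      ring
    rw [← e]
    exact integral_nonneg fun x => sq_nonneg _
  have := discrim_le_zero h
  unfold discrim at this
  nlinarith

lemma exists_levels [IsFiniteMeasure μ] {u : X → ℝ} (hu : Measurable u) (t : ℝ)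
    (ha : 0 < μ.real {x | t < u x}) :
    ∃ s : ℕ → ℝ, s 0 = t ∧ Monotone s ∧ ∀ k,
      μ.real {x | s k < u x} ≤ μ.real {x | t < u x} / 16 ^ k ∧
      μ.real {x | t < u x} / 16 ^ k ≤ μ.real {x | s k ≤ u x} := by
  set a := μ.real {x | t < u x} with hadef
  let m : ℝ → ℝ := fun s => μ.real {x | s < u x}
  have hms : ∀ s, MeasurableSet {x | s < u x} := fun s => measurableSet_lt measurable_const hu
  have hanti : Antitone m := fun s s' h =>
    measureReal_mono (fun x (hx : s' < u x) => lt_of_le_of_lt h hx)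
  have cI : ∀ r : ℕ → ℝ, Monotone r → Tendsto (fun n => m (r n)) atTop
      (𝓝 (μ.real (⋂ n, {x | r n < u x}))) := by
    intro r hr
    exact (ENNReal.tendsto_toReal (measure_ne_top _ _)).comp
      (tendsto_measure_iInter_atTop (fun n => (hms _).nullMeasurableSet)
        (fun i j h x (hx : r j < u x) => lt_of_le_of_lt (hr h) hx) ⟨0, measure_ne_top _ _⟩)
  have cU : ∀ r : ℕ → ℝ, Antitone r → Tendsto (fun n => m (r n)) atTop
      (𝓝 (μ.real (⋃ n, {x | r n < u x}))) := by
    intro r hr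
    exact (ENNReal.tendsto_toReal (measure_ne_top _ _)).comp
      (tendsto_measure_iUnion_atTop
        (fun i j h x (hx : r i < u x) => lt_of_le_of_lt (hr h) hx))
  let T : ℕ → Set ℝ := fun k => {s | t ≤ s ∧ m s ≤ a / 16 ^ k}
  have hbd : ∀ k, BddBelow (T k) := fun k => ⟨t, fun s hs => hs.1⟩
  have hne : ∀ k, (T k).Nonempty := by
    intro k
    have h1 := cI (fun n => (n : ℝ)) Nat.mono_cast
    have e : (⋂ n : ℕ, {x | (n : ℝ) < u x}) = ∅ := by
      ext x
      simp only [mem_iInter, mem_ofPred_eq, mem_empty_iff_false, iff_false, not_forall, not_lt]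
      exact exists_nat_ge _
    rw [e, measureReal_empty] at h1
    obtain ⟨n, hn1, hn2⟩ := ((h1.eventually_le_const (by positivity : 0 < a / 16 ^ k)).and
      (tendsto_natCast_atTop_atTop.eventually_ge_atTop t)).exists
    exact ⟨n, hn2, hn1⟩
  have hpow : ∀ k : ℕ, a / 16 ^ k ≤ a := fun k =>
    div_le_self ha.le (one_le_pow₀ (by norm_num))
  have h1n : Antitone fun n : ℕ => 1 / ((n : ℝ) + 1) := fun i j h =>
    Nat.one_div_le_one_div h
  refine ⟨fun k => sInf (T k), ?_, ?_, fun k => ⟨?_, ?_⟩⟩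
  · refine le_antisymm (csInf_le (hbd 0) ⟨le_rfl, by simp [m, hadef]⟩) ?_
    exact le_csInf (hne 0) fun s hs => hs.1
  · refine monotone_nat_of_le_succ fun k => csInf_le_csInf (hbd k) (hne _) fun s hs => ⟨hs.1, ?_⟩
    refine hs.2.trans (div_le_div_of_nonneg_left ha.le (by positivity) ?_)
    exact pow_le_pow_right₀ (by norm_num) (Nat.le_succ k)
  · have h1 := cU (fun n => sInf (T k) + 1 / ((n : ℝ) + 1)) fun i j h => by
      have := h1n h
      simp only at this ⊢; linarith
    have e : (⋃ n : ℕ, {x | sInf (T k) + 1 / ((n : ℝ) + 1) < u x}) = {x | sInf (T k) < u x} := by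
      ext x
      simp only [mem_iUnion, mem_ofPred_eq]
      constructor
      · rintro ⟨n, hn⟩
        have : (0 : ℝ) < 1 / ((n : ℝ) + 1) := by positivity
        linarith
      · intro h
        obtain ⟨n, hn⟩ := exists_nat_one_div_lt (sub_pos.2 h)
        exact ⟨n, by linarith⟩
    rw [e] at h1
    refine le_of_tendsto' h1 fun n => ?_
    obtain ⟨s, hs, hs2⟩ := exists_lt_of_csInf_lt (hne k)
      (lt_add_of_pos_right (sInf (T k)) (by positivity : 0 < 1 / ((n : ℝ) + 1)))
    exact (hanti hs2.le).trans hs.2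
  · have h1 := cI (fun n => sInf (T k) - 1 / ((n : ℝ) + 1)) fun i j h => by
      have := h1n h
      simp only at this ⊢; linarith
    have e : (⋂ n : ℕ, {x | sInf (T k) - 1 / ((n : ℝ) + 1) < u x}) = {x | sInf (T k) ≤ u x} := by
      ext x
      simp only [mem_iInter, mem_ofPred_eq]
      constructor
      · intro h
        by_contra h2
        obtain ⟨n, hn⟩ := exists_nat_one_div_lt (sub_pos.2 (not_le.1 h2))
        linarith [h n]
      · intro h n
        have : (0 : ℝ) < 1 / ((n : ℝ) + 1) := by positivity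
        linarith
    rw [e] at h1
    refine ge_of_tendsto' h1 fun n => ?_
    have hp : (0 : ℝ) < 1 / ((n : ℝ) + 1) := by positivity
    rcases le_total t (sInf (T k) - 1 / ((n : ℝ) + 1)) with h | h
    · by_contra h2
      have := csInf_le (hbd k) ⟨h, (not_le.1 h2).le⟩
      linarith
    · exact (hpow k).trans (hanti h)

lemma one_le_log {β : ℝ} (h : 0 ≤ β) : 1 ≤ Real.log (Real.exp 1 + β) := by
  rw [Real.le_log_iff_exp_le (by positivity)]; linarith

lemma Wt.le_lin {W : ℝ → ℝ} (hW : Wt W) {t : ℝ} (ht : 1 ≤ t) : W t ≤ W 1 * t := by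
  have := hW.anti (mem_Ici.2 le_rfl) (mem_Ici.2 ht) ht
  simp only [div_one] at this
  rwa [div_le_iff₀ (by linarith)] at this

lemma weight_bound [IsFiniteMeasure μ] {β : X → ℝ} (hβ0 : ∀ x, 0 ≤ β x) (hβ : MemLp β 2 μ)
    {W : ℝ → ℝ} (hW : Wt W)
    (hI : Integrable (fun x => β x ^ 2 * W (Real.log (Real.exp 1 + β x))) μ) {E : Set X}
    {a : ℝ} {k : ℕ} (hE : μ.real E ≤ a / 16 ^ k) :
    (∫ x in E, β x ^ 2 ∂μ) * W (k + 1) ≤ 8 * a * W 1 * (((k : ℝ) + 1) / 2 ^ k)
      + ∫ x in E, β x ^ 2 * W (Real.log (Real.exp 1 + β x)) ∂μ := by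
  have hk : (1 : ℝ) ≤ k + 1 := by have : (0 : ℝ) ≤ k := Nat.cast_nonneg k; linarith
  have hw := hW.pos _ hk
  have h8 : Real.exp (k + 1) ^ 2 ≤ 8 * 8 ^ k := by
    have h1 : Real.exp 1 ^ 2 ≤ 8 := by
      have := Real.exp_one_lt_d9
      have := Real.exp_pos 1
      nlinarith
    have e : Real.exp (k + 1) ^ 2 = (Real.exp 1 ^ 2) ^ (k + 1) := by
      rw [← pow_mul, ← Real.exp_nat_mul, ← Real.exp_nat_mul]; push_cast; congr 1; ring
    rw [e, ← pow_succ']
    exact pow_le_pow_left₀ (by positivity) h1 _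
  have pt : ∀ x, β x ^ 2 * W (k + 1) ≤ 8 * 8 ^ k * W (k + 1)
      + β x ^ 2 * W (Real.log (Real.exp 1 + β x)) := by
    intro x
    have h1 := one_le_log (hβ0 x)
    have h2 := hW.pos _ h1
    rcases le_total (β x) (Real.exp (k + 1)) with h | h
    · have h3 : β x ^ 2 ≤ 8 * 8 ^ k := (pow_le_pow_left₀ (hβ0 x) h 2).trans h8
      have h4 := mul_le_mul_of_nonneg_right h3 hw.le
      have : 0 ≤ β x ^ 2 * W (Real.log (Real.exp 1 + β x)) := by positivity
      linarith
    · have h3 : (k : ℝ) + 1 ≤ Real.log (Real.exp 1 + β x) := by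
        rw [Real.le_log_iff_exp_le (by have := hβ0 x; positivity)]
        linarith [Real.exp_pos 1]
      have h4 := mul_le_mul_of_nonneg_left (hW.mono hk h1 h3) (sq_nonneg (β x))
      have : (0 : ℝ) ≤ 8 * 8 ^ k * W (k + 1) := by positivity
      linarith
  have h1 := integral_mono (μ := μ.restrict E) (hβ.integrable_sq.restrict.mul_const _)
    ((integrable_const _).add hI.restrict) pt
  rw [integral_mul_const, integral_add' (integrable_const _) hI.restrict, integral_const,
    smul_eq_mul, measureReal_restrict_apply_univ] at h1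
  refine h1.trans (add_le_add_left ?_ _)
  have h2 := hW.le_lin hk
  have ha : 0 ≤ a / 16 ^ k := measureReal_nonneg.trans hE
  calc μ.real E * (8 * 8 ^ k * W (k + 1)) ≤ a / 16 ^ k * (8 * 8 ^ k * (W 1 * (k + 1))) := by
        gcongr
    _ = _ := by
        rw [show (16 : ℝ) = 8 * 2 by norm_num, mul_pow]; field_simp

theorem level_null [IsFiniteMeasure μ] {u g β : X → ℝ} (hu : Measurable u)
    (hg0 : ∀ x, 0 ≤ g x) (hβ0 : ∀ x, 0 ≤ β x) (hg : MemLp g 2 μ) (hβ : MemLp β 2 μ) {C t : ℝ}
    (hC : 0 < C)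
    (hA : ∀ s s', t ≤ s → s < s' → ∫ x in {x | s < u x ∧ u x ≤ s'}, g x ^ 2 ∂μ
      ≤ (s' - s) * ∫ x in {x | s < u x}, g x * β x ∂μ)
    (hB : ∀ s s', t ≤ s → s < s' → (s' - s) ^ 2 * μ.real {x | s' ≤ u x}
      ≤ C * (∫ x in {x | s < u x ∧ u x ≤ s'}, g x ∂μ) ^ 2)
    (hsm : 16 * C * ∫ x, β x ^ 2 ∂μ ≤ 1 / 4) {W : ℝ → ℝ} (hW : Wt W)
    (hns : ¬ Summable fun k : ℕ => W (k + 1) / ((k : ℝ) + 1) ^ 2)
    (hI : Integrable (fun x => β x ^ 2 * W (Real.log (Real.exp 1 + β x))) μ) :
    μ {x | t < u x} = 0 := by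
  by_contra hne
  have ha : 0 < μ.real {x | t < u x} := ENNReal.toReal_pos hne (measure_ne_top _ _)
  obtain ⟨s, hs0, hsm', hs⟩ := exists_levels hu t ha
  set a := μ.real {x | t < u x} with hadef
  let F : ℕ → Set X := fun k => {x | s k < u x}
  let E : ℕ → Set X := fun k => {x | s k < u x ∧ u x ≤ s (k + 1)}
  have mF : ∀ k, MeasurableSet (F k) := fun k => measurableSet_lt measurable_const hu
  have mE : ∀ k, MeasurableSet (E k) := fun k =>
    (measurableSet_lt measurable_const hu).inter (measurableSet_le hu measurable_const)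
  have hEF : ∀ k, μ.real (E k) ≤ a / 16 ^ k := fun k =>
    (measureReal_mono (fun x (hx : x ∈ E k) => hx.1)).trans (hs k).1
  have hts : ∀ k, t ≤ s k := fun k => hs0 ▸ hsm' (Nat.zero_le k)
  have igb : Integrable (fun x => g x * β x) μ := hg.integrable_mul hβ
  let Φ : ℕ → ℝ := fun k => ∫ x in F k, g x * β x ∂μ
  let B : ℕ → ℝ := fun k => ∫ x in E k, β x ^ 2 ∂μ
  have hΦ0 : ∀ k, 0 ≤ Φ k := fun k => integral_nonneg fun x => mul_nonneg (hg0 x) (hβ0 x)
  have hB0 : ∀ k, 0 ≤ B k := fun k => integral_nonneg fun x => sq_nonneg _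
  have hk1 : ∀ k : ℕ, (1 : ℝ) ≤ k + 1 := fun k => by
    have : (0 : ℝ) ≤ k := Nat.cast_nonneg k
    linarith
  have hdiff : ∀ k, Φ k - Φ (k + 1) = ∫ x in E k, g x * β x ∂μ := by
    intro k
    have e : F k = E k ∪ F (k + 1) := by
      ext x
      simp only [F, E, mem_union, mem_ofPred_eq]
      have := hsm' (Nat.le_succ k)
      constructor
      · intro h
        rcases le_or_gt (u x) (s (k + 1)) with h1 | h1
        · exact Or.inl ⟨h, h1⟩
        · exact Or.inr h1
      · rintro (h | h)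
        · exact h.1
        · exact lt_of_le_of_lt this h
    have hd : Disjoint (E k) (F (k + 1)) :=
      Set.disjoint_left.2 fun x h1 h2 => absurd h1.2 (not_le.2 h2)
    have := setIntegral_union hd (mF (k + 1)) igb.integrableOn igb.integrableOn
    simp only [Φ]
    rw [e, this]
    ring
  have hgap : ∀ k, s k < s (k + 1) → s (k + 1) - s k ≤ 16 * C * Φ k := by
    intro k hk
    have h1 := hA _ _ (hts k) hk
    have h2 := hB _ _ (hts k) hk
    have h3 := cs (μ := μ.restrict (E k)) (memLp_const (1 : ℝ)) (hg.restrict _)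
    simp only [one_mul, one_pow, integral_const, smul_eq_mul, mul_one,
      measureReal_restrict_apply_univ] at h3
    have h4 := (hs (k + 1)).2
    have hd : 0 < s (k + 1) - s k := sub_pos.2 hk
    set d := s (k + 1) - s k
    have h5 : d ^ 2 * (a / 16 ^ (k + 1)) ≤ C * (a / 16 ^ k * (d * Φ k)) := by
      calc d ^ 2 * (a / 16 ^ (k + 1)) ≤ d ^ 2 * μ.real {x | s (k + 1) ≤ u x} := by gcongr
        _ ≤ _ := h2
        _ ≤ C * (μ.real (E k) * ∫ x in E k, g x ^ 2 ∂μ) := by gcongr
        _ ≤ _ := by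
          have : 0 ≤ ∫ x in E k, g x ^ 2 ∂μ := integral_nonneg fun x => sq_nonneg _
          have := hEF k
          gcongr
    have hq : 0 < a / 16 ^ k * d := by positivity
    have e : d ^ 2 * (a / 16 ^ (k + 1)) = a / 16 ^ k * d * (d / 16) := by
      rw [pow_succ (16 : ℝ) k]; field_simp
    have h6 : a / 16 ^ k * d * (d / 16) ≤ a / 16 ^ k * d * (C * Φ k) := by
      rw [← e]; linarith
    have := le_of_mul_le_mul_left h6 hq
    linarith
  have hI0 : ∀ x, 0 ≤ β x ^ 2 * W (Real.log (Real.exp 1 + β x)) := fun x =>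
    mul_nonneg (sq_nonneg _) (hW.pos _ (one_le_log (hβ0 x))).le
  have hW1 := hW.pos 1 le_rfl
  refine seq_false (w := fun k => W (k + 1)) (B := B) (Φ := Φ) (c := 16 * C)
    (K := (∫ x, g x ^ 2 ∂μ) * (8 * a * W 1
      + ∫ x, β x ^ 2 * W (Real.log (Real.exp 1 + β x)) ∂μ)) (by positivity)
    (fun k => hW.pos _ (hk1 k)) (fun i j h => hW.mono (hk1 i) (hk1 j) (by gcongr))
    (fun i j h => hW.anti (hk1 i) (hk1 j) (by gcongr)) hns hB0 ?_ (fun k => ?_) ?_ (fun k => ?_)
    fun k => ?_
  · have hdis : Pairwise (Function.onFun Disjoint E) := by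
      have h1 : ∀ i j, i < j → Disjoint (E i) (E j) := fun i j h =>
        Set.disjoint_left.2 fun x h1 h2 =>
          absurd (h1.2.trans (hsm' (Nat.succ_le_of_lt h))) (not_le.2 h2.1)
      intro i j h
      rcases lt_or_gt_of_ne h with h | h
      · exact h1 i j h
      · exact (h1 j i h).symm
    have s1 := (hasSum_integral_iUnion mE hdis hI.integrableOn).summable
    have s2 : Summable fun k : ℕ => 8 * a * W 1 * (((k : ℝ) + 1) / 2 ^ k) := by
      refine Summable.mul_left _ ?_
      have h1 := summable_pow_mul_geometric_of_norm_lt_one (R := ℝ) 1 (r := 1 / 2) (by norm_num)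
      refine (h1.add summable_geometric_two).congr fun k => ?_
      simp only [pow_one, one_div, inv_pow]
      field_simp
    exact Summable.of_nonneg_of_le (fun k => mul_nonneg (hB0 k) (hW.pos _ (hk1 k)).le)
      (fun k => weight_bound hβ0 hβ hW hI (hEF k)) (s2.add s1)
  · refine le_trans ?_ hsm
    have := setIntegral_le_integral (s := E k) hβ.integrable_sq
      (Eventually.of_forall fun x => sq_nonneg (β x))
    exact mul_le_mul_of_nonneg_left this (by positivity)
  · rcases (hsm' (Nat.le_succ 0)).eq_or_lt with h | h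
    · have h1 := (hs 1).1
      rw [← h, hs0, ← hadef] at h1
      linarith
    · have := hgap 0 h
      have h2 : 0 < 16 * C * Φ 0 := by linarith
      exact (mul_pos_iff_of_pos_left (by positivity)).1 h2
  · rw [hdiff]
    rcases (hsm' (Nat.le_succ k)).eq_or_lt with h | h
    · have e : E k = ∅ := by
        ext x
        simp only [E, mem_ofPred_eq, mem_empty_iff_false, iff_false, not_and, not_le]
        exact fun h1 => h ▸ h1
      rw [e, Measure.restrict_empty, integral_zero_measure]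
      have := hB0 k
      rw [zero_pow two_ne_zero]
      positivity
    · have h1 := cs (μ := μ.restrict (E k)) (hg.restrict _) (hβ.restrict _)
      have h2 := hA _ _ (hts k) h
      have h3 := hgap k h
      have h4 := hB0 k
      have h5 := hΦ0 k
      calc _ ≤ (∫ x in E k, g x ^ 2 ∂μ) * B k := h1
        _ ≤ (16 * C * Φ k * Φ k) * B k := by
          gcongr
          exact h2.trans (mul_le_mul_of_nonneg_right h3 h5)
        _ = _ := by ring
  · have h1 := cs (μ := μ.restrict (F k)) (hg.restrict _) (hβ.restrict _)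
    have h2 := weight_bound hβ0 hβ hW hI (hs k).1
    have h3 := setIntegral_le_integral (s := F k) hg.integrable_sq
      (Eventually.of_forall fun x => sq_nonneg (g x))
    have h4 := setIntegral_le_integral (s := F k) hI (Eventually.of_forall hI0)
    have h5 : ((k : ℝ) + 1) / 2 ^ k ≤ 1 := by
      rw [div_le_one (by positivity)]
      exact_mod_cast Nat.lt_two_pow_self
    have h6 : 0 ≤ ∫ x in F k, β x ^ 2 ∂μ := integral_nonneg fun x => sq_nonneg _
    have h7 := hW.pos _ (hk1 k)
    have h8 : 8 * a * W 1 * (((k : ℝ) + 1) / 2 ^ k) ≤ 8 * a * W 1 :=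
      mul_le_of_le_one_right (by positivity) h5
    calc Φ k ^ 2 * W (k + 1) ≤ (∫ x, g x ^ 2 ∂μ) * (∫ x in F k, β x ^ 2 ∂μ) * W (k + 1) := by
          gcongr
          exact h1.trans (mul_le_mul_of_nonneg_right h3 h6)
      _ = (∫ x, g x ^ 2 ∂μ) * ((∫ x in F k, β x ^ 2 ∂μ) * W (k + 1)) := by ring
      _ ≤ _ := by
          refine mul_le_mul_of_nonneg_left ?_ (integral_nonneg fun x => sq_nonneg _)
          linarith

/-- admissible truncations above the level `t` -/
structure Tr (t : ℝ) (θ : ℝ → ℝ) : Prop where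
  sm : ContDiff ℝ ∞ θ
  zero : ∀ y, y ≤ t → θ y = 0
  nn : ∀ y, 0 ≤ θ y
  bd : ∃ M, ∀ y, θ y ≤ M
  d0 : ∀ y, 0 ≤ deriv θ y
  d1 : ∀ y, deriv θ y ≤ 1

lemma Tr.cd {t : ℝ} {θ : ℝ → ℝ} (h : Tr t θ) : Continuous (deriv θ) :=
  h.sm.continuous_deriv (by norm_cast)

lemma int_bdd_mul {φ : ℝ → ℝ} (hφ : Continuous φ) {M : ℝ} (h0 : ∀ y, 0 ≤ φ y) (hM : ∀ y, φ y ≤ M)
    {u f : X → ℝ} (hu : AEMeasurable u μ) (hf : Integrable f μ) :
    Integrable (fun x => φ (u x) * f x) μ :=
  hf.bdd_mul (c := M) (hφ.measurable.comp_aemeasurable hu).aestronglyMeasurable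
    (Eventually.of_forall fun x => by rw [Real.norm_of_nonneg (h0 _)]; exact hM _)

theorem level_null' [IsFiniteMeasure μ] {u g β : X → ℝ} (hu : Measurable u)
    (hg0 : ∀ x, 0 ≤ g x) (hβ0 : ∀ x, 0 ≤ β x) (hg : MemLp g 2 μ) (hβ : MemLp β 2 μ) {C t : ℝ}
    (hC : 0 < C)
    (hA : ∀ θ, Tr t θ → ∫ x, deriv θ (u x) * g x ^ 2 ∂μ ≤ ∫ x, θ (u x) * (g x * β x) ∂μ)
    (hB : ∀ θ, Tr t θ → ∫ x, θ (u x) ^ 2 ∂μ ≤ C * (∫ x, deriv θ (u x) * g x ∂μ) ^ 2)
    (hsm : 64 * C * ∫ x, β x ^ 2 ∂μ ≤ 1 / 4) {W : ℝ → ℝ} (hW : Wt W)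
    (hns : ¬ Summable fun k : ℕ => W (k + 1) / ((k : ℝ) + 1) ^ 2)
    (hI : Integrable (fun x => β x ^ 2 * W (Real.log (Real.exp 1 + β x))) μ) :
    μ {x | t < u x} = 0 := by
  have igb : Integrable (fun x => g x * β x) μ := hg.integrable_mul hβ
  have ig : Integrable g μ := hg.integrable (by norm_num)
  have ig2 := hg.integrable_sq
  refine level_null hu hg0 hβ0 hg hβ (C := 4 * C) (by positivity) (fun s s' hs hss => ?_)
    (fun s s' hs hss => ?_) (by linarith) hW hns hI
  · have hd : 0 < s' - s := sub_pos.2 hss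
    let δ : ℕ → ℝ := fun n => (s' - s) / 2 * (1 / ((n : ℝ) + 1))
    have hδ : ∀ n, 0 < δ n := fun n => by positivity
    have hδ1 : ∀ n, δ n ≤ (s' - s) / 2 := fun n =>
      mul_le_of_le_one_right (by positivity) (by
        rw [div_le_one (by positivity)]; linarith [(Nat.cast_nonneg n : (0 : ℝ) ≤ n)])
    have hδt : Tendsto δ atTop (𝓝 ((s' - s) / 2 * 0)) :=
      tendsto_one_div_add_atTop_nhds_zero_nat.const_mul _
    rw [mul_zero] at hδt
    let S : ℕ → Set X := fun n => {x | s + δ n ≤ u x ∧ u x ≤ s'}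
    have mS : ∀ n, MeasurableSet (S n) := fun n =>
      (measurableSet_le measurable_const hu).inter (measurableSet_le hu measurable_const)
    have hmono : Monotone S := fun i j h x hx => ⟨le_trans (by
      have : δ j ≤ δ i := mul_le_mul_of_nonneg_left (Nat.one_div_le_one_div h) (by positivity)
      linarith) hx.1, hx.2⟩
    have hU : (⋃ n, S n) = {x | s < u x ∧ u x ≤ s'} := by
      ext x
      simp only [S, mem_iUnion, mem_ofPred_eq]
      constructor
      · rintro ⟨n, h1, h2⟩
        exact ⟨by linarith [hδ n], h2⟩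
      · rintro ⟨h1, h2⟩
        obtain ⟨n, hn⟩ := (hδt.eventually_le_const (sub_pos.2 h1)).exists
        exact ⟨n, by linarith, h2⟩
    have t1 := tendsto_setIntegral_of_monotone mS hmono ig2.integrableOn
    rw [hU] at t1
    have t2 := ((hδt.const_add (s' - s)).mul_const (∫ x in {x | s < u x}, g x * β x ∂μ))
    rw [add_zero] at t2
    refine le_of_tendsto_of_tendsto' t1 t2 fun n => ?_
    obtain ⟨θ, h1, h2, h3, -, h5, h6, -⟩ :=
      exists_theta (p := s + δ n) (q := s') (by linarith [hδ1 n]) (hδ n)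
    have tr : Tr t θ := ⟨h1, fun y hy => h5 y (by linarith), fun y => (h6 y).1,
      ⟨_, fun y => (h6 y).2⟩, fun y => (h2 y).1, fun y => (h2 y).2⟩
    have mF : MeasurableSet {x | s < u x} := measurableSet_lt measurable_const hu
    refine le_trans ?_ ((hA θ tr).trans ?_)
    · rw [← integral_indicator (mS n)]
      refine integral_mono (ig2.indicator (mS n))
        (int_bdd_mul tr.cd tr.d0 tr.d1 hu.aemeasurable ig2) fun x => ?_
      by_cases hx : x ∈ S n
      · simp only [indicator_of_mem hx, h3 _ hx, one_mul, le_refl]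
      · simp only [indicator_of_notMem hx]
        exact mul_nonneg (tr.d0 _) (sq_nonneg _)
    · rw [← integral_const_mul, ← integral_indicator mF]
      refine integral_mono (int_bdd_mul h1.continuous tr.nn (fun y => (h6 y).2) hu.aemeasurable igb)
        ((igb.const_mul _).indicator mF) fun x => ?_
      by_cases hx : x ∈ {x | s < u x}
      · simp only [indicator_of_mem hx]
        refine mul_le_mul_of_nonneg_right ((h6 _).2.trans (le_of_eq (by ring)))
          (mul_nonneg (hg0 x) (hβ0 x))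
      · simp only [indicator_of_notMem hx]
        rw [h5 _ (by simpa using hx), zero_mul]
  · have hd : 0 < s' - s := sub_pos.2 hss
    obtain ⟨θ, h1, h2, -, h4, h5, h6, h7⟩ :=
      exists_theta (p := s + (s' - s) / 4) (q := s' - (s' - s) / 4) (δ := (s' - s) / 4)
        (by linarith) (by positivity)
    have tr : Tr t θ := ⟨h1, fun y hy => h5 y (by linarith), fun y => (h6 y).1,
      ⟨_, fun y => (h6 y).2⟩, fun y => (h2 y).1, fun y => (h2 y).2⟩
    have mF : MeasurableSet {x | s' ≤ u x} := measurableSet_le measurable_const hu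
    have mE : MeasurableSet {x | s < u x ∧ u x ≤ s'} :=
      (measurableSet_lt measurable_const hu).inter (measurableSet_le hu measurable_const)
    have a1 : ((s' - s) / 2) ^ 2 * μ.real {x | s' ≤ u x} ≤ ∫ x, θ (u x) ^ 2 ∂μ := by
      rw [mul_comm, ← smul_eq_mul, ← setIntegral_const, ← integral_indicator mF]
      have i1 := int_bdd_mul (h1.continuous.pow 2) (M := (s' - s) ^ 2) (fun y => sq_nonneg _)
        (fun y => pow_le_pow_left₀ (h6 y).1 ((h6 y).2.trans (le_of_eq (by ring))) 2)
        hu.aemeasurable (integrable_const (μ := μ) (1 : ℝ))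
      simp only [mul_one] at i1
      refine integral_mono ((integrable_const _).indicator mF) i1 fun x => ?_
      by_cases hx : x ∈ {x | s' ≤ u x}
      · simp only [indicator_of_mem hx]
        have h8 : s' ≤ u x := hx
        exact pow_le_pow_left₀ (by positivity)
          (le_trans (le_of_eq (by ring)) (h7 (u x) (by linarith))) 2
      · simp only [indicator_of_notMem hx]
        exact sq_nonneg _
    have a2 : ∫ x, deriv θ (u x) * g x ∂μ ≤ ∫ x in {x | s < u x ∧ u x ≤ s'}, g x ∂μ := by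
      rw [← integral_indicator mE]
      refine integral_mono (int_bdd_mul tr.cd tr.d0 tr.d1 hu.aemeasurable ig) (ig.indicator mE)
        fun x => ?_
      by_cases hx : x ∈ {x | s < u x ∧ u x ≤ s'}
      · simp only [indicator_of_mem hx]
        exact mul_le_of_le_one_left (hg0 x) (tr.d1 _)
      · simp only [indicator_of_notMem hx]
        rw [h4, zero_mul]
        simp only [mem_ofPred_eq, not_and_or, not_lt, not_le] at hx
        rcases hx with hx | hx
        · left; linarith
        · right; linarith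
    have a3 : 0 ≤ ∫ x, deriv θ (u x) * g x ∂μ :=
      integral_nonneg fun x => mul_nonneg (tr.d0 _) (hg0 x)
    have a4 := mul_le_mul_of_nonneg_left (pow_le_pow_left₀ a3 a2 2) hC.le
    have a5 := hB θ tr
    nlinarith

end Pool.Agent.Lib.OD
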