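import Pool.Agent.Lib.MP_89b2fa_an.Main
import Pool.Agent.Lib.OD.Level

/-! Bounded discontinuous solutions below the threshold. The construction is the one of
`Pool.Agent.Lib.MP_89b2fa_an.Main`, with a weighted estimate of the drift. -/

set_option autoImplicit false

open MeasureTheory Measure Metric Set Filter Topology Module
open scoped InnerProductSpace ENNReal ContDiff

namespace Pool.Agent.Lib.OD

open Pool.Agent.Lib.MP_89b2fa_an

lemma small_tail {g : ℝ → ℝ} (hg : IntegrableOn g (Ioi 0)) (c : ℝ) {K η : ℝ} (hK : 0 ≤ K)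
    (hη : 0 < η) : ∃ e : ℝ, 0 < e ∧
      IntegrableOn (fun t => min (e ^ 2 * (t + c) ^ 2) K * g t) (Ioi 0) ∧
      ∫ t in Ioi 0, min (e ^ 2 * (t + c) ^ 2) K * g t ≤ η := by
  have hm : ∀ e : ℝ, AEStronglyMeasurable (fun t => min (e ^ 2 * (t + c) ^ 2) K)
      (volume.restrict (Ioi 0)) := fun e => Continuous.aestronglyMeasurable (by fun_prop)
  have hb : ∀ e t : ℝ, ‖min (e ^ 2 * (t + c) ^ 2) K‖ ≤ K := fun e t => by
    rw [Real.norm_of_nonneg (le_min (by positivity) hK)]; exact min_le_right _ _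
  have ht := tendsto_integral_of_dominated_convergence (μ := volume.restrict (Ioi 0))
    (F := fun (n : ℕ) t => min ((1 / ((n : ℝ) + 1)) ^ 2 * (t + c) ^ 2) K * g t)
    (f := fun t => min ((0 : ℝ) ^ 2 * (t + c) ^ 2) K * g t) (fun t => K * ‖g t‖)
    (fun n => (hm _).mul hg.1) (hg.norm.const_mul K)
    (fun n => Eventually.of_forall fun t => by
      rw [norm_mul]; exact mul_le_mul_of_nonneg_right (hb _ _) (norm_nonneg _))
    (Eventually.of_forall fun t =>
      (((tendsto_one_div_add_atTop_nhds_zero_nat.pow 2).mul_const _).min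
        tendsto_const_nhds).mul_const _)
  simp only [ne_eq, OfNat.ofNat_ne_zero, not_false_eq_true, zero_pow, zero_mul, min_eq_left hK,
    integral_zero] at ht
  obtain ⟨n, hn⟩ := (ht.eventually_le_const hη).exists
  exact ⟨_, by positivity, Integrable.bdd_mul (c := K) hg (hm _) (Eventually.of_forall (hb _)), hn⟩

lemma Wt.mono_max {V : ℝ → ℝ} (hV : Wt V) {c : ℝ} (hc : 1 ≤ c) :
    Monotone fun t => V (max t 0 + c) := fun s t h =>
  hV.mono (by have := le_max_right s 0; simp only [mem_Ici]; linarith)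
    (by have := le_max_right t 0; simp only [mem_Ici]; linarith) (by gcongr)

lemma weighted {V : ℝ → ℝ} (hV : Wt V) (hi : IntegrableOn (fun t => V t / t ^ 2) (Ioi 1))
    {ρ η : ℝ} (hρ : 0 < ρ) (hη : 0 < η) : ∃ e : ℝ, 0 < e ∧ ∀ (ε a : ℝ) (p : Pl), 0 < ε →
    ε ≤ 1 / 2 → ε ≤ e → 0 ≤ a → ε * a ≤ 2 * ρ → ∃ B : Pl → ℝ, (∀ x, 0 ≤ B x) ∧
      IntegrableOn B (ball p ρ) ∧ ∫ x in ball p ρ, B x ≤ η ∧
      ∀ x ∈ ball p ρ, ∀ β : ℝ, 0 ≤ β → β ^ 2 ≤ 4 * (4 * ε * bPhi ε a ρ p x) →
        β ^ 2 * V (Real.log (Real.exp 1 + β)) ≤ B x := by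
  set c := Real.log (Real.exp 1 + 2 / ρ) with hc
  have hc1 : 1 ≤ c := one_le_log (by positivity)
  have hg : IntegrableOn (fun t => V (t + c) / (t + c) ^ 2) (Ioi 0) := by
    have h1 := ((measurePreserving_add_right volume c).integrableOn_comp_preimage
      (MeasurableEquiv.addRight c).measurableEmbedding).2 (hi.mono_set (Ioi_subset_Ioi hc1))
    simpa [Function.comp_def] using h1
  obtain ⟨e, he, i1, i2⟩ := small_tail hg c (K := 2 * (1 + (2 * ρ + c) ^ 2)) (η := η / 128)
    (by positivity) (by positivity)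
  refine ⟨e, he, fun ε a p hε hε2 hεe ha hεa => ?_⟩
  set φ : ℝ → ℝ := fun t => 16 * ε * ph ε a t * V (max t 0 + c) with hφ
  have hVp : ∀ t, 0 < V (max t 0 + c) := fun t =>
    hV.pos _ (by have := le_max_right t 0; linarith)
  have hφ0 : ∀ t, 0 ≤ φ t := fun t => by
    have := ph_pos hε a t
    have := hVp t
    positivity
  have hle : ∀ t ∈ Ioi (0 : ℝ), φ t ≤ 16 * (min (e ^ 2 * (t + c) ^ 2) (2 * (1 + (2 * ρ + c) ^ 2))
      * (V (t + c) / (t + c) ^ 2)) := by
    intro t ht
    have ht0 : 0 < t := ht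
    have h1 := hVp t
    simp only [hφ, max_eq_left ht0.le] at h1 ⊢
    have h2 : ε * ph ε a t * (t + c) ^ 2 ≤
        min (e ^ 2 * (t + c) ^ 2) (2 * (1 + (2 * ρ + c) ^ 2)) := by
      refine le_min (mul_le_mul_of_nonneg_right ?_ (sq_nonneg _)) ?_
      · have := ph_le hε a t
        nlinarith
      · have h3 : ε * (t - a) ≤ tau ε a t := le_max_left _ _
        have h4 := tau_nonneg ε a t
        have h5 : ε * (t + c) ≤ tau ε a t + (2 * ρ + c) := by nlinarith
        have h6 := pow_le_pow_left₀ (by positivity) h5 2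
        have e1 : ε * ph ε a t * (t + c) ^ 2 = (ε * (t + c)) ^ 2 / (1 + tau ε a t ^ 2) := by
          unfold ph; ring
        rw [e1, div_le_iff₀ (by positivity)]
        nlinarith [sq_nonneg (tau ε a t - (2 * ρ + c)), sq_nonneg (tau ε a t * (2 * ρ + c))]
    have h7 := mul_le_mul_of_nonneg_right h2 (by positivity : 0 ≤ V (t + c) / (t + c) ^ 2)
    have e2 : ε * ph ε a t * (t + c) ^ 2 * (V (t + c) / (t + c) ^ 2)
        = ε * ph ε a t * V (t + c) := by
      have : t + c ≠ 0 := by linarith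
      field_simp
    rw [e2] at h7
    linarith
  have iφ : IntegrableOn φ (Ioi 0) := by
    refine (i1.const_mul 16).mono' (Measurable.aestronglyMeasurable ?_) ?_
    · exact ((continuous_ph ε a).measurable.const_mul _).mul (hV.mono_max hc1).measurable
    · filter_upwards [ae_restrict_mem measurableSet_Ioi] with t ht
      rw [Real.norm_of_nonneg (hφ0 t)]
      exact hle t ht
  obtain ⟨r1, r2⟩ := radial hρ iφ p
  refine ⟨fun x => φ (ell ρ p x) / ‖x - p‖ ^ 2, fun x => div_nonneg (hφ0 _) (by positivity), r1,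
    ?_, fun x hx β hβ h1 => ?_⟩
  · have h1 := setIntegral_mono_on iφ (i1.const_mul 16) measurableSet_Ioi hle
    rw [integral_const_mul] at h1
    have h2 : 0 ≤ ∫ t in Ioi 0, φ t := integral_nonneg hφ0
    refine r2.le.trans ?_
    nlinarith [Real.pi_le_four]
  · have hl := ell_nonneg hx
    have e1 : φ (ell ρ p x) / ‖x - p‖ ^ 2
        = 4 * (4 * ε * bPhi ε a ρ p x) * V (ell ρ p x + c) := by
      simp only [hφ, max_eq_left hl, bPhi]; ring
    simp only [e1]
    have h2 := one_le_log hβ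
    rcases (norm_nonneg (x - p)).eq_or_lt with h | h
    · have : bPhi ε a ρ p x = 0 := by simp [bPhi, ← h]
      rw [this] at h1 ⊢
      have h3 : β ^ 2 = 0 := le_antisymm (by linarith) (sq_nonneg _)
      simp [h3]
    · have hr : ‖x - p‖ < ρ := by rwa [mem_ball, dist_eq_norm] at hx
      have h3 : β ≤ 2 / ‖x - p‖ := by
        refine (abs_le_of_sq_le_sq' (h1.trans ?_) (by positivity)).2
        have h4 := ph_le hε a (ell ρ p x)
        have h5 := ph_pos hε a (ell ρ p x)
        rw [div_pow, bPhi, ← mul_div_assoc, ← mul_div_assoc]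
        exact div_le_div_of_nonneg_right (by nlinarith) (by positivity)
      have h4 : Real.log (Real.exp 1 + β) ≤ ell ρ p x + c := by
        rw [ell, hc, ← Real.log_mul (by positivity) (by positivity)]
        refine Real.log_le_log (by positivity) ?_
        have h5 : 1 ≤ ρ / ‖x - p‖ := (one_le_div h).2 hr.le
        have e2 : ρ / ‖x - p‖ * (2 / ρ) = 2 / ‖x - p‖ := by field_simp
        rw [mul_add, e2]
        nlinarith [Real.exp_pos 1]
      exact mul_le_mul h1 (hV.mono h2 (h2.trans h4) h4) (hV.pos _ h2).le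
        ((sq_nonneg β).trans h1)

/-- The single bump. -/
theorem exists_bump' {V : ℝ → ℝ} (hV : Wt V) (hi : IntegrableOn (fun t => V t / t ^ 2) (Ioi 1))
    (p : Pl) {ρ d η : ℝ} (hρ : 0 < ρ) (hd : 0 < d) (hη : 0 < η) :
    ∃ (w : Pl → ℝ) (W : Pl → Pl) (f A B : Pl → ℝ),
      ((∀ x, 0 ≤ B x) ∧ IntegrableOn B (ball p ρ) ∧ ∫ x in ball p ρ, B x ≤ η ∧
        ∀ x ∈ ball p ρ, ∀ β : ℝ, 0 ≤ β → β ^ 2 ≤ 4 * A x →
          β ^ 2 * V (Real.log (Real.exp 1 + β)) ≤ B x) ∧
      Measurable w ∧ Measurable W ∧ Measurable f ∧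
      (∀ x, 0 ≤ A x) ∧ IntegrableOn A (ball p ρ) ∧ ∫ x in ball p ρ, A x ≤ η ∧
      (∀ x, ‖W x‖ ^ 2 ≤ A x) ∧ (∀ x, f x ^ 2 ≤ A x * ‖W x‖ ^ 2) ∧
      (∀ x, f x ≠ 0 → 2 ≤ ‖W x‖) ∧
      (∀ x ∈ ball p ρ, ‖w x‖ ≤ 2 * ρ + 2) ∧
      (∀ x ∈ ball p ρ, x ∉ ball p d → ‖w x‖ ≤ η ∧ ‖W x‖ ≤ η ∧ f x = 0) ∧
      (∃ r, 0 < r ∧ ∀ x ∈ ball p r, x ≠ p → 3 / 4 ≤ w x) ∧
      (∀ h : Pl → ℝ, ContDiff ℝ 1 h → HasCompactSupport h → tsupport h ⊆ ball p ρ →
        (∀ i, ∫ x, w x * fderiv ℝ h x (ee i) = - ∫ x, W x i * h x) ∧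
        ∑ i, ∫ x, W x i * fderiv ℝ h x (ee i) = - ∫ x, f x * h x) := by
  obtain ⟨e, he, hwt⟩ := weighted hV hi hρ hη
  obtain ⟨ε, hε, h1, h2, h3, h4, h5, h6, h0⟩ : ∃ ε : ℝ, 0 < ε ∧ ε ≤ 1 / 2 ∧ ε ≤ d ∧ ε ≤ ρ ∧
      ε ≤ η * d / ρ ∧ ε ≤ η * d ∧ ε ≤ η / (32 * (2 * ρ + 2)) ∧ ε ≤ e := by
    refine ⟨min (1 / 2) (min d (min ρ (min (η * d / ρ) (min (η * d)
      (min (η / (32 * (2 * ρ + 2))) e))))), by positivity, ?_, ?_, ?_, ?_, ?_, ?_, ?_⟩ <;> simp
  set a := Real.log (2 * ρ / ε) with ha_def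
  have hae : Real.exp a = 2 * ρ / ε := Real.exp_log (by positivity)
  have ha : 0 ≤ a := Real.log_nonneg ((one_le_div hε).2 (by linarith))
  have hεa : ε * a ≤ 2 * ρ := by
    have : a ≤ 2 * ρ / ε := (Real.log_le_sub_one_of_pos (by positivity)).trans (by linarith)
    rw [le_div_iff₀ hε] at this
    linarith
  have hfar : ∀ x : Pl, ε / 2 ≤ ‖x - p‖ → ell ρ p x ≤ a := by
    intro x hx
    have hr : 0 < ‖x - p‖ := lt_of_lt_of_le (by positivity) hx
    unfold ell
    apply Real.log_le_log (by positivity)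
    rw [div_le_div_iff₀ hr hε]
    nlinarith
  obtain ⟨B, hB⟩ := hwt ε a p hε h1 h0 ha hεa
  refine ⟨bw ε a ρ p, bW ε a ρ p, bf ε a ρ p, fun x => 4 * ε * bPhi ε a ρ p x, B, hB,
    measurable_bw _ _ _ _, measurable_bW _ _ _ _, measurable_bf _ _ _ _, ?_, ?_, ?_, ?_, ?_, ?_,
    ?_, ?_, ?_, ?_⟩
  · intro x
    have := bPhi_nonneg (a := a) (ρ := ρ) (p := p) hε x
    positivity
  · exact (bPhi_integrable hε hρ).const_mul _
  · rw [integral_const_mul]
    have h7 := bPhi_integral_le (p := p) hε ha hρ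
    rw [le_div_iff₀ (by positivity)] at h6
    nlinarith
  · intro x
    have h7 := norm_bW_sq_le (a := a) (ρ := ρ) (p := p) hε x
    have h8 := bPhi_nonneg (a := a) (ρ := ρ) (p := p) hε x
    have : 0 ≤ ε * bPhi ε a ρ p x := by positivity
    linarith
  · exact fun x => bf_sq_le hε x
  · intro x hx
    have hr : ‖x - p‖ ≠ 0 := by
      intro h
      apply hx
      unfold bf
      simp [h]
    have hr' : 0 < ‖x - p‖ := lt_of_le_of_ne (norm_nonneg _) hr.symm
    have hL : a ≤ ell ρ p x := by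
      by_contra hcon
      apply hx
      unfold bf
      rw [ps_of_le hε (not_le.1 hcon).le, zero_div]
    have h7 := ph_exp_ge hε h1 hL
    have h8 : Real.exp (ell ρ p x) = ρ / ‖x - p‖ := Real.exp_log (by positivity)
    rw [hae, h8] at h7
    rw [norm_bW hε, le_div_iff₀ hr']
    have e1 : ε * (2 * ρ / ε) = 2 * ρ := by field_simp
    rw [e1, ← mul_div_assoc, le_div_iff₀ hr'] at h7
    nlinarith
  · intro x hx
    obtain ⟨h7, h8⟩ := gg_bounds hε ha (ell_nonneg hx)
    unfold bw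
    rw [Real.norm_of_nonneg h7]
    linarith
  · intro x hx hxd
    have hr : d ≤ ‖x - p‖ := by
      rw [mem_ball, dist_eq_norm, not_lt] at hxd
      exact hxd
    have hr' : 0 < ‖x - p‖ := lt_of_lt_of_le hd hr
    have hL := hfar x (by linarith)
    have hL0 := ell_nonneg hx
    refine ⟨?_, ?_, ?_⟩
    · unfold bw
      rw [gg_of_le hε hL, Real.norm_of_nonneg (by positivity)]
      have h7 : ell ρ p x ≤ ρ / d := by
        unfold ell
        refine (Real.log_le_sub_one_of_pos (by positivity)).trans ?_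
        have : ρ / ‖x - p‖ ≤ ρ / d := div_le_div_of_nonneg_left hρ.le hd hr
        linarith
      rw [le_div_iff₀ hρ] at h4
      rw [le_div_iff₀ hd] at h7
      have : ε * ell ρ p x * d ≤ η * d := by nlinarith
      exact le_of_mul_le_mul_right this hd
    · rw [norm_bW hε, ph_of_le hε hL, div_le_iff₀ hr']
      nlinarith
    · unfold bf
      rw [ps_of_le hε hL, zero_div]
  · refine ⟨ρ * Real.exp (-(a + 1 / ε)), by positivity, fun x hx hxp => ?_⟩
    apply gg_large hε ha
    have hr' : 0 < ‖x - p‖ := norm_pos_iff.2 (sub_ne_zero.2 hxp)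
    rw [mem_ball, dist_eq_norm] at hx
    unfold ell
    rw [Real.le_log_iff_exp_le (by positivity), le_div_iff₀ hr']
    have e1 : Real.exp (a + 1 / ε) * (ρ * Real.exp (-(a + 1 / ε))) = ρ := by
      rw [Real.exp_neg]; field_simp
    have := Real.exp_pos (a + 1 / ε)
    nlinarith
  · intro h hh hc hs
    constructor
    · intro i
      exact ibp_test (p := p) (bw_integrable hε ha) (bW_integrable hε hρ i)
        (fun x hx => hasDerivAt_bw hρ hx i) hh hc hs
    · have hε1 : ε ≤ 1 := by linarith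
      have k0 := ibp_test (p := p) (bW_integrable (a := a) hε hρ 0) (bD_integrable hε hε1 hρ 0)
        (fun x hx => hasDerivAt_bW hρ hx 0) hh hc hs
      have k1 := ibp_test (p := p) (bW_integrable (a := a) hε hρ 1) (bD_integrable hε hε1 hρ 1)
        (fun x hx => hasDerivAt_bW hρ hx 1) hh hc hs
      have i0 := integrable_mul_test (bD_integrable (a := a) (p := p) hε hε1 hρ 0)
        hh.continuous hc hs
      have i1 := integrable_mul_test (bD_integrable (a := a) (p := p) hε hε1 hρ 1)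
        hh.continuous hc hs
      rw [Fin.sum_univ_two, k0, k1, ← neg_add, ← integral_add i0 i1]
      congr 2
      ext x
      rw [← add_mul, bD_sum]

theorem neg_main {V : ℝ → ℝ} (hV : Wt V) (hi : IntegrableOn (fun t => V t / t ^ 2) (Ioi 1))
    {R : ℝ} (hR : 0 < R) :
    ∃ (b : Pl → Pl) (u : Pl → ℝ) (G : Pl → Pl),
      Integrable (fun x => ‖b x‖ ^ 2 * V (Real.log (Real.exp 1 + ‖b x‖)))
        (volume.restrict (ball 0 R)) ∧
      Measurable b ∧ MemLp b 2 (volume.restrict (ball 0 R)) ∧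
      MemLp u 2 (volume.restrict (ball 0 R)) ∧
      MemLp G 2 (volume.restrict (ball 0 R)) ∧
      (∀ h : Pl → ℝ, ContDiff ℝ ∞ h → HasCompactSupport h → tsupport h ⊆ ball 0 R →
        ∀ i : Fin 2, ∫ x in ball 0 R, u x * fderiv ℝ h x (EuclideanSpace.single i 1)
          = - ∫ x in ball 0 R, G x i * h x) ∧
      MemLp u ⊤ (volume.restrict (ball 0 R)) ∧
      (∀ h : Pl → ℝ, ContDiff ℝ ∞ h → HasCompactSupport h → tsupport h ⊆ ball 0 R →
        ∫ x in ball 0 R, ⟪G x, gradient h x + h x • b x⟫_ℝ = 0) ∧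
      ¬ ∃ v : Pl → ℝ, ContinuousOn v (ball 0 R) ∧ u =ᵐ[volume.restrict (ball 0 R)] v := by
  have hrad : ∀ k, 0 < rad R k := fun k => by unfold rad; positivity
  have hex := fun k => exists_bump' hV hi (ctr R k) (ρ := 2 * R) (d := rad R k) (η := eta k)
    (by positivity) (hrad k) (eta_pos k)
  choose w W f A B hB mw mW mf hA0 hAi hAle hWA hfA hfW hwb hout hbig hibp using hex
  set μ : Measure Pl := volume.restrict (ball 0 R) with hμ
  have : IsFiniteMeasure μ := ⟨by
    rw [hμ, Measure.restrict_apply_univ]; exact measure_ball_lt_top⟩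
  have hsub := ball_subset hR
  have hAi' : ∀ k, Integrable (A k) μ := fun k => (hAi k).mono_set (hsub k)
  have hAle' : ∀ k, ∫ x, A k x ∂μ ≤ eta k := fun k =>
    (setIntegral_mono_set (hAi k) (ae_of_all _ (hA0 k)) (hsub k).eventuallyLE).trans (hAle k)
  have hse := hasSum_eta.summable
  have hte : ∑' k, eta k = 1 / 4 := hasSum_eta.tsum_eq
  have he0 : ∀ k, 0 ≤ eta k := fun k => (eta_pos k).le
  have hae : ∀ᵐ x ∂μ, x ∈ ball (0 : Pl) R := ae_restrict_mem measurableSet_ball
  let u : Pl → ℝ := fun x => ∑' k, w k x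
  let G : Pl → Pl := fun x => ∑' k, W k x
  let F : Pl → ℝ := fun x => ∑' k, f k x
  let b : Pl → Pl := fun x => (F x / ‖G x‖ ^ 2) • G x
  have mu : Measurable u := Measurable.tsum mw
  have mG : Measurable G := Measurable.tsum mW
  have mF : Measurable F := Measurable.tsum mf
  have mb : Measurable b := (mF.div (mG.norm.pow_const 2)).smul mG
  -- pointwise structure
  have key : ∀ x ∈ ball (0 : Pl) R, ∃ k,
      (Summable (fun j => ‖w j x‖) ∧ ∑' j, ‖w j x‖ ≤ ‖w k x‖ + 1 / 4 ∧ ‖u x - w k x‖ ≤ 1 / 4) ∧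
      (Summable (fun j => ‖W j x‖) ∧ ‖G x - W k x‖ ≤ 1 / 4) ∧
      (∀ i, Summable (fun j => ‖W j x i‖) ∧ ∑' j, ‖W j x i‖ ≤ ‖W k x i‖ + 1 / 4) ∧
      (Summable (fun j => ‖f j x‖) ∧ ∑' j, ‖f j x‖ ≤ ‖f k x‖ + 1 / 4 ∧ F x = f k x) := by
    intro x hx
    obtain ⟨k, hk⟩ := exists_index hR x
    have ho := fun j hj => hout j x (hsub j hx) (hk j hj)
    refine ⟨k, ?_, ?_, ?_, ?_⟩
    · have := tsum_split (a := fun j => w j x) hse he0 k (fun j hj => (ho j hj).1)
      rw [hte] at this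
      exact this
    · have := tsum_split (a := fun j => W j x) hse he0 k (fun j hj => (ho j hj).2.1)
      rw [hte] at this
      exact ⟨this.1, this.2.2⟩
    · intro i
      have := tsum_split (a := fun j => W j x i) hse he0 k
        (fun j hj => (PiLp.norm_apply_le (W j x) i).trans (ho j hj).2.1)
      rw [hte] at this
      exact ⟨this.1, this.2.1⟩
    · have := tsum_split (a := fun j => f j x) hse he0 k
        (fun j hj => by rw [(ho j hj).2.2, norm_zero]; exact he0 j)
      rw [hte] at this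
      exact ⟨this.1, this.2.1, tsum_eq_single k fun j hj => (ho j hj).2.2⟩
  have hGi : ∀ x ∈ ball (0 : Pl) R, ∀ i, G x i = ∑' k, W k x i := by
    intro x hx i
    obtain ⟨k, -, ⟨h1, -⟩, -⟩ := key x hx
    exact (EuclideanSpace.proj (𝕜 := ℝ) i).map_tsum h1.of_norm
  have hfabs : ∀ k x, ‖f k x‖ ≤ A k x := by
    intro k x
    have h1 := hfA k x
    have h2 := hWA k x
    have h3 := hA0 k x
    rw [Real.norm_eq_abs]
    apply abs_le_of_sq_le_sq' _ h3 |> fun h => abs_le.2 h
    nlinarith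
  have hub : ∀ x ∈ ball (0 : Pl) R, ‖u x‖ ≤ 4 * R + 3 := by
    intro x hx
    obtain ⟨k, ⟨-, -, h1⟩, -⟩ := key x hx
    have h2 := hwb k x (hsub k hx)
    have h3 := norm_add_le (u x - w k x) (w k x)
    rw [sub_add_cancel] at h3
    linarith
  have hGF : ∀ x ∈ ball (0 : Pl) R, ⟪G x, b x⟫_ℝ = F x ∧ ∃ k, ‖b x‖ ^ 2 ≤ 4 * A k x := by
    intro x hx
    obtain ⟨k, -, ⟨-, h1⟩, -, ⟨-, -, h2⟩⟩ := key x hx
    by_cases hF : F x = 0
    · have hb : b x = 0 := by simp [b, hF]
      refine ⟨by rw [hb, hF, inner_zero_right], k, ?_⟩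
      rw [hb, norm_zero]
      have := hA0 k x
      nlinarith
    · have h3 := hfW k x (h2 ▸ hF)
      have h4 : ‖W k x‖ / 2 ≤ ‖G x‖ := by
        have := norm_sub_norm_le (W k x) (G x)
        rw [norm_sub_rev] at this
        linarith
      have h5 : 0 < ‖G x‖ := by linarith
      refine ⟨?_, k, ?_⟩
      · simp only [b]
        rw [inner_smul_right, real_inner_self_eq_norm_sq]
        field_simp
      · have e : ‖b x‖ ^ 2 = F x ^ 2 / ‖G x‖ ^ 2 := by
          simp only [b]
          rw [norm_smul, mul_pow, Real.norm_eq_abs, sq_abs]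
          field_simp
        rw [e, div_le_iff₀ (by positivity), h2]
        have h6 := hfA k x
        have h7 := hA0 k x
        have h8 : ‖W k x‖ ^ 2 ≤ 4 * ‖G x‖ ^ 2 := by nlinarith [norm_nonneg (W k x)]
        nlinarith
  -- summability a.e. and integrability of the majorants
  have sw : ∀ᵐ x ∂μ, Summable fun k => ‖w k x‖ := by
    filter_upwards [hae] with x hx
    obtain ⟨k, ⟨h1, -⟩, -⟩ := key x hx
    exact h1
  have sW : ∀ i, ∀ᵐ x ∂μ, Summable fun k => ‖W k x i‖ := by
    intro i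
    filter_upwards [hae] with x hx
    obtain ⟨k, -, -, h1, -⟩ := key x hx
    exact (h1 i).1
  have sf : ∀ᵐ x ∂μ, Summable fun k => ‖f k x‖ := by
    filter_upwards [hae] with x hx
    obtain ⟨k, -, -, -, h1, -⟩ := key x hx
    exact h1
  have iw : Integrable (fun x => ∑' k, ‖w k x‖) μ := by
    refine integrable_of_le_add hse hA0 hAi' hAle'
      (Measurable.tsum fun k => (mw k).norm).aestronglyMeasurable (C := 4 * R + 3) ?_
    filter_upwards [hae] with x hx
    obtain ⟨k, ⟨-, h1, -⟩, -⟩ := key x hx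
    refine ⟨k, ?_⟩
    rw [Real.norm_of_nonneg (tsum_nonneg fun _ => norm_nonneg _)]
    have h2 := hwb k x (hsub k hx)
    have := hA0 k x
    linarith
  have iW : ∀ i, Integrable (fun x => ∑' k, ‖W k x i‖) μ := by
    intro i
    refine integrable_of_le_add hse hA0 hAi' hAle'
      (Measurable.tsum fun k => (measurable_coord (mW k) i).norm).aestronglyMeasurable
      (C := 2) ?_
    filter_upwards [hae] with x hx
    obtain ⟨k, -, -, h1, -⟩ := key x hx
    refine ⟨k, ?_⟩
    rw [Real.norm_of_nonneg (tsum_nonneg fun _ => norm_nonneg _)]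
    have h2 := (h1 i).2
    have h3 := PiLp.norm_apply_le (W k x) i
    have h4 := hWA k x
    nlinarith [sq_nonneg (‖W k x‖ - 1)]
  have jf : Integrable (fun x => ∑' k, ‖f k x‖) μ := by
    refine integrable_of_le_add hse hA0 hAi' hAle'
      (Measurable.tsum fun k => (mf k).norm).aestronglyMeasurable (C := 1) ?_
    filter_upwards [hae] with x hx
    obtain ⟨k, -, -, -, -, h1, -⟩ := key x hx
    refine ⟨k, ?_⟩
    rw [Real.norm_of_nonneg (tsum_nonneg fun _ => norm_nonneg _)]
    have h2 := hfabs k x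
    linarith
  have hutop : MemLp u ⊤ μ := by
    refine memLp_top_of_bound mu.aestronglyMeasurable (4 * R + 3) ?_
    filter_upwards [hae] with x hx using hub x hx
  -- test function preliminaries
  have test : ∀ h : Pl → ℝ, ContDiff ℝ ∞ h → HasCompactSupport h → tsupport h ⊆ ball 0 R →
      (∃ C, ∀ x, ‖h x‖ ≤ C) ∧ (∀ i, ∃ C, ∀ x, ‖fderiv ℝ h x (ee i)‖ ≤ C) ∧
      (∀ i, Continuous fun x => fderiv ℝ h x (ee i)) ∧ ContDiff ℝ 1 h := by
    intro h hh hc _
    have h1 : ContDiff ℝ 1 h := hh.of_le (by exact_mod_cast le_top)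
    have hcd : ∀ i, Continuous fun x => fderiv ℝ h x (ee i) := fun i =>
      (h1.continuous_fderiv one_ne_zero).clm_apply continuous_const
    exact ⟨hh.continuous.bounded_above_of_compact_support hc,
      fun i => (hcd i).bounded_above_of_compact_support (hc.fderiv_apply (𝕜 := ℝ) (ee i)),
      hcd, h1⟩
  refine ⟨b, u, G, ?_, mb, ?_, hutop.mono_exponent le_top, ?_, ?_, hutop, ?_, ?_⟩
  · have e : (fun x => ‖b x‖ ^ 2 * V (Real.log (Real.exp 1 + ‖b x‖))) = fun x =>
        ‖b x‖ ^ 2 * V (max (Real.log (Real.exp 1 + ‖b x‖) - 1) 0 + 1) := by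
      ext x
      rw [max_eq_left (sub_nonneg.2 (one_le_log (norm_nonneg _))), sub_add_cancel]
    refine integrable_of_le_add hse (fun k => (hB k).1) (fun k => (hB k).2.1.mono_set (hsub k))
      (fun k => (setIntegral_mono_set (hB k).2.1 (ae_of_all _ (hB k).1)
        (hsub k).eventuallyLE).trans (hB k).2.2.1) ?_ (C := 0) ?_
    · rw [e]
      exact ((mb.norm.pow_const 2).mul ((hV.mono_max le_rfl).measurable.comp
        ((mb.norm.const_add _).log.sub_const 1))).aestronglyMeasurable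
    · filter_upwards [hae] with x hx
      obtain ⟨k, hk⟩ := (hGF x hx).2
      refine ⟨k, ?_⟩
      rw [Real.norm_of_nonneg (mul_nonneg (sq_nonneg _)
        (hV.pos _ (one_le_log (norm_nonneg _))).le), zero_add]
      exact (hB k).2.2.2 x (hsub k hx) _ (norm_nonneg _) hk
  · rw [memLp_two_iff_integrable_sq_norm mb.aestronglyMeasurable]
    refine integrable_of_le_add (A := fun k x => 4 * A k x) (hse.mul_left 4)
      (fun k x => by have := hA0 k x; positivity) (fun k => (hAi' k).const_mul 4)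
      (fun k => by rw [integral_const_mul]; have := hAle' k; linarith)
      (mb.norm.pow_const 2).aestronglyMeasurable (C := 0) ?_
    filter_upwards [hae] with x hx
    obtain ⟨k, hk⟩ := (hGF x hx).2
    exact ⟨k, by rw [Real.norm_of_nonneg (by positivity), zero_add]; exact hk⟩
  · rw [memLp_two_iff_integrable_sq_norm mG.aestronglyMeasurable]
    refine integrable_of_le_add (A := fun k x => 2 * A k x) (hse.mul_left 2)
      (fun k x => by have := hA0 k x; positivity) (fun k => (hAi' k).const_mul 2)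
      (fun k => by rw [integral_const_mul]; have := hAle' k; linarith)
      (mG.norm.pow_const 2).aestronglyMeasurable (C := 1) ?_
    filter_upwards [hae] with x hx
    obtain ⟨k, -, ⟨-, h1⟩, -⟩ := key x hx
    refine ⟨k, ?_⟩
    rw [Real.norm_of_nonneg (by positivity)]
    have h3 := norm_add_le (G x - W k x) (W k x)
    rw [sub_add_cancel] at h3
    have h4 := hWA k x
    have h5 : ‖G x‖ ^ 2 ≤ (1 / 4 + ‖W k x‖) ^ 2 :=
      pow_le_pow_left₀ (norm_nonneg _) (by linarith) 2
    nlinarith [sq_nonneg (‖W k x‖ - 1 / 4)]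
  · intro h hh hc hs i
    obtain ⟨⟨C0, hC0⟩, hC1, hcd, h1⟩ := test h hh hc hs
    obtain ⟨C1, hC1⟩ := hC1 i
    have a1 := (hasSum_integral_mul mw sw iw (hcd i).aestronglyMeasurable hC1).2
    have a2 := (hasSum_integral_mul (a := fun k x => W k x i)
      (fun k => measurable_coord (mW k) i) (sW i) (iW i)
      hh.continuous.aestronglyMeasurable hC0).2
    have e1 : ∀ k, ∫ x, w k x * fderiv ℝ h x (ee i) ∂μ = - ∫ x, W k x i * h x ∂μ := by
      intro k
      rw [hμ, setIntegral_test hs (tsupport_fderiv_apply_subset ℝ (ee i)),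
        setIntegral_test hs subset_rfl]
      exact (hibp k h h1 hc (hs.trans (hsub k))).1 i
    simp only [e1] at a1
    have e2 := a1.unique a2.neg
    have e3 : ∫ x, G x i * h x ∂μ = ∫ x, (∑' k, W k x i) * h x ∂μ := by
      apply integral_congr_ae
      filter_upwards [hae] with x hx
      rw [hGi x hx i]
    rw [e3]
    exact e2
  · intro h hh hc hs
    obtain ⟨⟨C0, hC0⟩, hC1, hcd, h1⟩ := test h hh hc hs
    choose C1 hC1 using hC1
    have a1 := fun i => hasSum_integral_mul (a := fun k x => W k x i)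
      (fun k => measurable_coord (mW k) i) (sW i) (iW i) (hcd i).aestronglyMeasurable (hC1 i)
    have a2 := hasSum_integral_mul mf sf jf hh.continuous.aestronglyMeasurable hC0
    have e1 : ∀ k, ∫ x, W k x 0 * fderiv ℝ h x (ee 0) ∂μ + ∫ x, W k x 1 * fderiv ℝ h x (ee 1) ∂μ
        + ∫ x, f k x * h x ∂μ = 0 := by
      intro k
      rw [hμ, setIntegral_test hs (tsupport_fderiv_apply_subset ℝ (ee 0)),
        setIntegral_test hs (tsupport_fderiv_apply_subset ℝ (ee 1)),
        setIntegral_test hs subset_rfl]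
      have := (hibp k h h1 hc (hs.trans (hsub k))).2
      rw [Fin.sum_univ_two] at this
      linarith
    have a3 := ((a1 0).2.add (a1 1).2).add a2.2
    simp only [e1] at a3
    have e2 := a3.unique hasSum_zero
    have i01 : Integrable (fun x => (∑' k, W k x 0) * fderiv ℝ h x (ee 0)
        + (∑' k, W k x 1) * fderiv ℝ h x (ee 1)) μ := (a1 0).1.add (a1 1).1
    rw [← integral_add (a1 0).1 (a1 1).1, ← integral_add i01 a2.1] at e2
    rw [← e2]
    apply integral_congr_ae
    filter_upwards [hae] with x hx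
    rw [inner_add_right, inner_smul_right, (hGF x hx).1, inner_gradient_eq, hGi x hx 0,
      hGi x hx 1]
    simp only [F]
    ring
  · rintro ⟨v, hv, huv⟩
    have huv' : ∀ᵐ x : Pl, x ∈ ball (0 : Pl) R → u x = v x :=
      (ae_restrict_iff' measurableSet_ball).1 huv
    have hv0 : ContinuousAt v 0 := hv.continuousAt (ball_mem_nhds 0 hR)
    obtain ⟨δ, hδ, hδv⟩ := Metric.continuousAt_iff.1 hv0 (1 / 8) (by norm_num)
    obtain ⟨k, hk⟩ : ∃ k : ℕ, R / 2 ^ (k + 1) < δ := by
      obtain ⟨n, hn⟩ := pow_unbounded_of_one_lt (R / δ) (by norm_num : (1 : ℝ) < 2)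
      refine ⟨n, ?_⟩
      rw [div_lt_iff₀ hδ] at hn
      rw [div_lt_iff₀ (by positivity), pow_succ]
      have : 0 < 2 ^ n * δ := by positivity
      nlinarith
    obtain ⟨r, hr, hbig⟩ := hbig k
    have hck : ctr R k ∈ ball (0 : Pl) R := by
      rw [mem_ball_zero_iff, norm_ctr hR]
      exact div_lt_self hR (one_lt_pow₀ (by norm_num) (by omega))
    have hne : ∀ᵐ x : Pl, x ≠ ctr R k := by
      have : (volume : Measure Pl) {ctr R k} = 0 := by simp
      exact compl_mem_ae_iff.2 this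
    obtain ⟨x, ⟨⟨⟨hx1, hx2⟩, hx3⟩, hx4⟩, hx5, hx6⟩ := exists_mem_of_ae
      (U := ball (0 : Pl) R ∩ ball 0 δ ∩ ball (ctr R k) r ∩ ball (ctr R k) (rad R k))
      (((isOpen_ball.inter isOpen_ball).inter isOpen_ball).inter isOpen_ball)
      ⟨ctr R k, ⟨⟨hck, by rw [mem_ball_zero_iff, norm_ctr hR]; exact hk⟩, mem_ball_self hr⟩,
        mem_ball_self (hrad k)⟩ (huv'.and hne)
    have hopen : IsOpen {y : Pl | y 0 < 0} :=
      isOpen_lt (EuclideanSpace.proj (𝕜 := ℝ) (0 : Fin 2)).continuous continuous_const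
    obtain ⟨y, ⟨⟨hy1, hy2⟩, hy3⟩, hy4⟩ := exists_mem_of_ae
      (U := ball (0 : Pl) R ∩ ball 0 δ ∩ {y : Pl | y 0 < 0})
      ((isOpen_ball.inter isOpen_ball).inter hopen)
      ⟨-ctr R k, ⟨by rw [mem_ball_zero_iff, norm_neg, ← mem_ball_zero_iff]; exact hck,
        by rw [mem_ball_zero_iff, norm_neg, norm_ctr hR]; exact hk⟩, by
          simp only [ctr, mem_ofPred_eq, PiLp.neg_apply, PiLp.single_eq_same, Left.neg_neg_iff]
          positivity⟩ huv'
    have hux : 1 / 2 ≤ u x := by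
      have ho : ∀ j, j ≠ k → ‖w j x‖ ≤ eta j := by
        intro j hj
        refine (hout j x (hsub j hx1) fun hxj => ?_).1
        rcases lt_or_gt_of_ne hj with h1 | h1
        · exact Set.disjoint_left.1 (disc_disjoint_lt hR h1) hxj hx4
        · exact Set.disjoint_left.1 (disc_disjoint_lt hR h1) hx4 hxj
      have h1 := (tsum_split (a := fun j => w j x) hse he0 k ho).2.2
      rw [hte, Real.norm_eq_abs] at h1
      have h2 := hbig x hx3 hx6
      have h3 := neg_abs_le (∑' j, w j x - w k x)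
      simp only [u]
      linarith
    have huy : u y ≤ 1 / 4 := by
      have h1 := tsum_of_norm_bounded (f := fun j => w j y) hasSum_eta
        (fun j => (hout j y (hsub j hy1) (not_mem_disc hR hy3 j)).1)
      exact (le_abs_self _).trans h1
    have d1 := hδv (x := x) hx2
    have d2 := hδv (x := y) hy2
    rw [Real.dist_eq, abs_lt] at d1 d2
    rw [hx5 hx1] at hux
    rw [hy4 hy1] at huy
    linarith [d1.1, d1.2, d2.1, d2.2]

end Pool.Agent.Lib.OD
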