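import Pool.Agent.Lib.OD.Circ

/-! Continuity of solutions above the threshold. -/

set_option autoImplicit false

open MeasureTheory Metric Set Filter Topology
open scoped ContDiff ENNReal NNReal InnerProductSpace Real

namespace Pool.Agent.Lib.OD

variable {x0 : Pl} {r : ℝ} {u : Pl → ℝ} {G : Pl → Pl} {U : ℕ → Pl → ℝ}

lemma Apx.sub (h : Apx x0 r u G U) {φ : ℕ → ℕ} (hφ : StrictMono φ) :
    Apx x0 r u G fun n => U (φ n) :=
  ⟨fun _ => h.sm _, h.mem, h.ae.mono fun _ hx => hx.comp hφ.tendsto_atTop,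
    h.l2.comp hφ.tendsto_atTop⟩

lemma Apx.neg (h : Apx x0 r u G U) :
    Apx x0 r (fun x => -u x) (fun x => -G x) fun n x => -U n x := by
  refine ⟨fun n => (h.sm n).neg, h.mem.neg, h.ae.mono fun _ hx => hx.neg, h.l2.congr fun n => ?_⟩
  congr 1; ext x
  have : gradient (fun x => -U n x) x = -gradient (U n) x := by simp [gradient, fderiv_fun_neg]
  rw [this, neg_sub_neg, norm_sub_rev]

lemma Apx.mono (h : Apx x0 r u G U) {r' : ℝ} (hr : r' ≤ r) : Apx x0 r' u G U := by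
  have hle : dm x0 r' ≤ dm x0 r := Measure.restrict_mono (ball_subset_ball hr) le_rfl
  refine ⟨h.sm, h.mem.mono_measure hle, ae_mono hle h.ae, ?_⟩
  refine squeeze_zero (fun n => integral_nonneg fun x => sq_nonneg _) (fun n => ?_) h.l2
  exact integral_mono_measure hle (Eventually.of_forall fun x => sq_nonneg _)
    ((memLp_grad (h.sm n) x0 r).sub h.mem).norm.integrable_sq

lemma EQ.neg {R : ℝ} {b G : Pl → Pl} (h : EQ R b G) : EQ R b fun x => -G x := by
  intro k h1 h2 h3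
  simp only [inner_neg_left, integral_neg, h k h1 h2 h3, neg_zero]

/-- the weak maximum principle on small discs -/
theorem wmp : ∃ κ : ℝ, 0 < κ ∧ ∀ {R : ℝ} {b G : Pl → Pl}, MemLp b 2 (dm 0 R) → EQ R b G →
    ∀ {x0 : Pl} {r : ℝ}, ‖x0‖ + r < R → ∫ x, ‖b x‖ ^ 2 ∂dm x0 r ≤ κ → ∀ {W : ℝ → ℝ}, Wt W →
    (¬ Summable fun k : ℕ => W (k + 1) / ((k : ℝ) + 1) ^ 2) →
    Integrable (fun x => ‖b x‖ ^ 2 * W (Real.log (Real.exp 1 + ‖b x‖))) (dm 0 R) →
    ∀ {u : Pl → ℝ} {U : ℕ → Pl → ℝ}, Apx x0 r u G U → ∀ {s : ℝ},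
    (∃ᶠ n in atTop, ∀ y ∈ sphere x0 r, U n y ≤ s) → ∀ᵐ x ∂dm x0 r, u x ≤ s := by
  obtain ⟨C, hC, hB⟩ := testB
  refine ⟨1 / (256 * C), by positivity,
    fun {R b G} hb he {x0 r} hr hκ {W} hW hns hI {u U} h {s} hs => ?_⟩
  obtain ⟨φ, hφ, hs⟩ := extraction_of_frequently_atTop hs
  have hu : AEMeasurable u (dm x0 r) :=
    aemeasurable_of_tendsto_metrizable_ae' (fun n => (h.sm n).continuous.aemeasurable) h.ae
  have h' : Apx x0 r (hu.mk u) G fun n => U (φ n) := by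
    refine ⟨(h.sub hφ).sm, h.mem, ?_, (h.sub hφ).l2⟩
    filter_upwards [(h.sub hφ).ae, hu.ae_eq_mk] with x h1 h2 using h2 ▸ h1
  have key : ∀ t, s < t → ∀ᵐ x ∂dm x0 r, hu.mk u x ≤ t := by
    intro t ht
    have := level_null' (μ := dm x0 r) (t := t) hu.measurable_mk (fun x => norm_nonneg (G x))
      (fun x => norm_nonneg (b x)) h.mem.norm (hb.mono_measure (dm_le hr)).norm hC
      (fun θ hθ => testA hb he hr h' hs ht hθ) (fun θ hθ => hB h' hs ht hθ) (by
        rw [le_div_iff₀ (by positivity)] at hκ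
        linarith) hW hns (hI.mono_measure (dm_le hr))
    rw [ae_iff]
    simpa only [not_le] using this
  have hall := ae_all_iff.2 fun n : ℕ =>
    key (s + 1 / ((n : ℝ) + 1)) (lt_add_of_pos_right _ (by positivity))
  filter_upwards [hall, hu.ae_eq_mk] with x h1 h2
  have := ge_of_tendsto' (tendsto_one_div_add_atTop_nhds_zero_nat.const_add s) h1
  rw [h2]
  simpa using this

lemma two_sided {X : Type*} [MeasurableSpace X] {μ : Measure X} (hμ : μ ≠ 0) {u : X → ℝ}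
    {w δ : ℝ} (hδ : 0 < δ) (h : ∀ t, (∀ᵐ x ∂μ, u x ≤ t + w) ∨ ∀ᵐ x ∂μ, t - w ≤ u x) :
    ∃ m, ∀ᵐ x ∂μ, |u x - m| ≤ w + δ := by
  have : (ae μ).NeBot := ae_neBot.2 hμ
  let S : Set ℝ := {t | ∀ᵐ x ∂μ, t - w ≤ u x}
  have hne : S.Nonempty := by
    by_contra hc
    have h1 : ∀ n : ℕ, ∀ᵐ x ∂μ, u x ≤ -n + w := fun n =>
      (h _).resolve_right fun h2 => hc ⟨_, h2⟩
    obtain ⟨x, hx⟩ := (ae_all_iff.2 h1).exists
    obtain ⟨n, hn⟩ := exists_nat_gt (w - u x)
    linarith [hx n]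
  have hbd : BddAbove S := by
    by_contra hc
    have h1 : ∀ n : ℕ, ∀ᵐ x ∂μ, n - w ≤ u x := fun n => by
      obtain ⟨t, ht, hn⟩ := not_bddAbove_iff.1 hc n
      filter_upwards [ht] with x hx
      linarith
    obtain ⟨x, hx⟩ := (ae_all_iff.2 h1).exists
    obtain ⟨n, hn⟩ := exists_nat_gt (w + u x)
    linarith [hx n]
  obtain ⟨t, ht, ht2⟩ := exists_lt_of_lt_csSup hne (sub_lt_self (sSup S) hδ)
  have h2 := (h (sSup S + δ)).resolve_right fun h3 => by linarith [le_csSup hbd h3]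
  refine ⟨sSup S, ?_⟩
  filter_upwards [ht, h2] with x h3 h4
  rw [abs_le]; constructor <;> linarith

lemma small_disc {R : ℝ} {f : Pl → ℝ} (hf : Integrable f (dm 0 R)) {x0 : Pl} (hx : ‖x0‖ < R)
    {ε : ℝ} (hε : 0 < ε) : ∀ᶠ ρ in 𝓝[>] (0 : ℝ), ‖x0‖ + ρ < R ∧ ∫ x, f x ∂dm x0 ρ ≤ ε := by
  have h1 : Tendsto (fun ρ : ℝ => volume (ball x0 ρ)) (𝓝[>] 0) (𝓝 0) := by
    simp only [EuclideanSpace.volume_ball_fin_two]
    have h2 : Tendsto (fun ρ : ℝ => ENNReal.ofReal ρ) (𝓝[>] 0) (𝓝 (ENNReal.ofReal 0)) :=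
      ENNReal.tendsto_ofReal (tendsto_id.mono_left nhdsWithin_le_nhds)
    have h3 := ENNReal.Tendsto.mul_const (b := ENNReal.ofReal π) (ENNReal.Tendsto.pow (n := 2) h2)
      (Or.inr ENNReal.ofReal_ne_top)
    simpa using h3
  have h2 := hf.tendsto_setIntegral_nhds_zero (s := fun ρ => ball x0 ρ)
    (tendsto_of_tendsto_of_tendsto_of_le_of_le tendsto_const_nhds h1 (fun _ => zero_le)
      fun ρ => Measure.restrict_le_self _)
  have h3 : ∀ᶠ ρ in 𝓝[>] (0 : ℝ), ‖x0‖ + ρ < R := by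
    refine Eventually.filter_mono nhdsWithin_le_nhds ?_
    exact (continuous_const.add continuous_id).continuousAt.eventually_lt continuousAt_const
      (by simpa using hx)
  filter_upwards [h3, h2.eventually_le_const hε] with ρ h4 h5
  rw [Measure.restrict_restrict measurableSet_ball,
    inter_eq_left.2 (ball_subset_closedBall.trans (cball_sub h4))] at h5
  exact ⟨h4, h5⟩

lemma Wt.integrableOn {W : ℝ → ℝ} (hW : Wt W)
    (h : Summable fun k : ℕ => W (k + 1) / ((k : ℝ) + 1) ^ 2) :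
    IntegrableOn (fun t => W t / t ^ 2) (Ioi 1) := by
  have := AntitoneOn.integrableOn_Ioi_of_summable_comp_add (f := fun t => W t / t ^ 2) (N := 1)
    (fun a ha b hb hab => ?_) (by simpa using h) fun t ht => ?_
  · simpa using this
  · simp only [Nat.cast_one, mem_Ici] at ha hb
    have h1 : W b / b ≤ W a / a := hW.anti ha hb hab
    have h2 := hW.pos b hb
    simp only [pow_two, ← div_div]
    exact div_le_div₀ (by have := hW.pos a ha; positivity) h1 (by linarith) hab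
  · simp only [Nat.cast_one, mem_Ioi] at ht
    have := hW.pos t ht.le
    positivity

theorem pos_main {W : ℝ → ℝ} (hW : Wt W) (hni : ¬ IntegrableOn (fun t => W t / t ^ 2) (Ioi 1))
    {R : ℝ} {b G : Pl → Pl} {u : Pl → ℝ} (hb : MemLp b 2 (dm 0 R))
    (hI : Integrable (fun x => ‖b x‖ ^ 2 * W (Real.log (Real.exp 1 + ‖b x‖))) (dm 0 R))
    (hu : MemLp u 2 (dm 0 R)) (hG : MemLp G 2 (dm 0 R)) (hw : WG R u G) (he : EQ R b G) :
    ∃ v : Pl → ℝ, ContinuousOn v (ball 0 R) ∧ u =ᵐ[dm 0 R] v := by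
  obtain ⟨κ, hκ, hmp⟩ := wmp
  have hns := mt hW.integrableOn hni
  refine exists_rep isOpen_ball fun x0 hx0 η hη => ?_
  rw [mem_ball_zero_iff] at hx0
  obtain ⟨ρ, ⟨⟨h1, h2⟩, -, h3⟩, hρ⟩ := (((small_disc hb.norm.integrable_sq hx0 hκ).and
    (small_disc hG.norm.integrable_sq hx0 (by positivity : 0 < (η / 6) ^ 2 / 4))).and
    self_mem_nhdsWithin).exists
  have hρ' : 0 < ρ := hρ
  obtain ⟨U, hU⟩ := exists_apx hu hG hw h1
  have hE : ∀ᶠ n in atTop, ∫ x, ‖gradient (U n) x‖ ^ 2 ∂dm x0 ρ ≤ (η / 6) ^ 2 := by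
    filter_upwards [hU.l2.eventually_le_const (by positivity : 0 < (η / 6) ^ 2 / 4)] with n hn
    have hg := memLp_grad (hU.sm n) x0 ρ
    have i1 := hU.mem.norm.integrable_sq.const_mul 2
    have i2 : Integrable (fun x => 2 * ‖gradient (U n) x - G x‖ ^ 2) (dm x0 ρ) :=
      (hg.sub hU.mem).norm.integrable_sq.const_mul 2
    have h4 := integral_mono hg.norm.integrable_sq (i1.add i2) fun x => by
      have a1 := norm_add_le (G x) (gradient (U n) x - G x)
      rw [add_sub_cancel] at a1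
      have a2 := pow_le_pow_left₀ (norm_nonneg _) a1 2
      simp only [Pi.add_apply]
      nlinarith [sq_nonneg (‖G x‖ - ‖gradient (U n) x - G x‖)]
    rw [integral_add' i1 i2, integral_const_mul, integral_const_mul] at h4
    linarith
  obtain ⟨r, hr, hosc⟩ := circ hU.sm hρ' (by positivity) hE
  have hr0 : 0 < r := lt_trans (by positivity) hr.1
  have hrR : ‖x0‖ + r < R := by linarith [hr.2]
  have hbr : ∫ x, ‖b x‖ ^ 2 ∂dm x0 r ≤ κ :=
    (integral_mono_measure (Measure.restrict_mono (ball_subset_ball hr.2.le) le_rfl)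
      (Eventually.of_forall fun x => sq_nonneg _)
      (hb.mono_measure (dm_le h1)).norm.integrable_sq).trans h2
  have hU' := hU.mono hr.2.le
  obtain ⟨p, hp⟩ : (sphere x0 r).Nonempty := NormedSpace.sphere_nonempty.2 hr0.le
  obtain ⟨m, hm⟩ := two_sided (μ := dm x0 r) (u := u) (w := 5 * (η / 6)) (δ := η / 6)
    (by rw [ne_eq, Measure.restrict_eq_zero]; exact (measure_ball_pos _ _ hr0).ne')
    (by positivity) fun t => by
      have h5 : ∃ᶠ n in atTop, (∀ y ∈ sphere x0 r, U n y ≤ t + 5 * (η / 6)) ∨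
          ∀ y ∈ sphere x0 r, -U n y ≤ -(t - 5 * (η / 6)) := by
        refine hosc.mono fun n hn => ?_
        rcases le_total (U n p) t with h | h
        · exact Or.inl fun y hy => by linarith [(abs_le.1 (hn y hy p hp)).2]
        · exact Or.inr fun y hy => by linarith [(abs_le.1 (hn y hy p hp)).1]
      rcases frequently_or_distrib.1 h5 with h | h
      · exact Or.inl (hmp hb he hrR hbr hW hns hI hU' h)
      · exact Or.inr ((hmp hb he.neg hrR hbr hW hns hI hU'.neg h).mono fun x hx => by linarith)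
  exact ⟨r, hr0, m, hm.mono fun x hx => by linarith⟩

end Pool.Agent.Lib.OD
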