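import Mathlib

/-! Elementary lemmas for the Orlicz drift threshold: a sequence lemma, smooth truncations,
continuous representatives. -/

set_option autoImplicit false

open MeasureTheory Metric Set Filter Topology
open scoped ContDiff ENNReal

namespace Pool.Agent.Lib.OD

/-- Abel summation against a nonincreasing weight. -/
lemma abel_ge {D ψ : ℕ → ℝ} (hD : ∀ j, 0 ≤ D j) (hψ : Antitone ψ) (N : ℕ) :
    D (N + 1) * ψ N - D 0 * ψ 0 ≤ ∑ j ∈ Finset.range (N + 1), (D (j + 1) - D j) * ψ j := by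
  induction N with
  | zero => simp [sub_mul]
  | succ N ih =>
    rw [Finset.sum_range_succ]
    have h1 : ψ (N + 1) ≤ ψ N := hψ (Nat.le_succ N)
    have h2 := mul_le_mul_of_nonneg_left h1 (hD (N + 1))
    nlinarith

lemma abel_two {w : ℕ → ℝ} (hw : ∀ j, 0 < w j) (N : ℕ) :
    w (N + 1) / (N + 1) + ∑ j ∈ Finset.range (N + 1), w j / ((j : ℝ) + 1) ^ 2 - 2 * w 0 ≤
      ∑ j ∈ Finset.range (N + 1), (w (j + 1) - w j) / ((j : ℝ) + 1) := by
  induction N with
  | zero => simp; linarith
  | succ N ih =>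
    rw [Finset.sum_range_succ (fun j => w j / ((j : ℝ) + 1) ^ 2),
      Finset.sum_range_succ (fun j => (w (j + 1) - w j) / ((j : ℝ) + 1))]
    have hN : (0 : ℝ) < N + 1 := by positivity
    have h1 : w (N + 1) / ((N : ℝ) + 1 + 1) + w (N + 1) / ((N : ℝ) + 1 + 1) ^ 2
        ≤ w (N + 1) / ((N : ℝ) + 1) := by
      rw [div_add_div _ _ (by positivity) (by positivity), div_le_div_iff₀ (by positivity) hN]
      have := hw (N + 1)
      have e : w (N + 1) * (((N : ℝ) + 1 + 1) * ((N : ℝ) + 1 + 1) ^ 2)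
          - (w (N + 1) * ((N : ℝ) + 1 + 1) ^ 2 + ((N : ℝ) + 1 + 1) * w (N + 1)) * ((N : ℝ) + 1)
          = w (N + 1) * ((N : ℝ) + 1 + 1) := by ring
      have : 0 < w (N + 1) * ((N : ℝ) + 1 + 1) := by positivity
      linarith
    push_cast
    rw [sub_div]
    linarith

/-- The sequence lemma. -/
theorem seq_false {w B Φ : ℕ → ℝ} {c K : ℝ} (hc : 0 < c) (hw : ∀ k, 0 < w k) (hm : Monotone w)
    (ha : Antitone fun k : ℕ => w k / ((k : ℝ) + 1))
    (hns : ¬ Summable fun k : ℕ => w k / ((k : ℝ) + 1) ^ 2) (hB : ∀ k, 0 ≤ B k)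
    (hs : Summable fun k => B k * w k) (hsm : ∀ k, c * B k ≤ 1 / 4) (h0 : 0 < Φ 0)
    (hst : ∀ k, (Φ k - Φ (k + 1)) ^ 2 ≤ c * B k * Φ k ^ 2) (hK : ∀ k, Φ k ^ 2 * w k ≤ K) :
    False := by
  set x : ℕ → ℝ := fun k => √(c * B k) with hx
  have hx0 : ∀ k, 0 ≤ x k := fun k => Real.sqrt_nonneg _
  have hx2 : ∀ k, x k ^ 2 = c * B k := fun k => Real.sq_sqrt (by have := hB k; positivity)
  have hx1 : ∀ k, x k ≤ 1 / 2 := fun k => by
    apply Real.sqrt_le_iff.2; constructor <;> linarith [hsm k]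
  have step : ∀ k, 0 < Φ k → Φ k * (1 - x k) ≤ Φ (k + 1) := by
    intro k hk
    have h1 : Φ k - Φ (k + 1) ≤ x k * Φ k := by
      apply abs_le_of_sq_le_sq' _ (by have := hx0 k; positivity) |>.2
      rw [mul_pow, hx2]; exact hst k
    linarith
  have hpos : ∀ k, 0 < Φ k := by
    intro k
    induction k with
    | zero => exact h0
    | succ k ih =>
      have := step k ih
      have h2 : 0 < Φ k * (1 - x k) := mul_pos ih (by linarith [hx1 k])
      linarith
  have hK0 : 0 < K := lt_of_lt_of_le (by have := hpos 0; have := hw 0; positivity) (hK 0)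
  set D : ℕ → ℝ := fun k => Real.log K - 2 * Real.log (Φ k) - Real.log (w k) with hD
  have hD0 : ∀ k, 0 ≤ D k := by
    intro k
    have h1 := Real.log_le_log (by have := hpos k; have := hw k; positivity) (hK k)
    rw [Real.log_mul (by have := hpos k; positivity) (hw k).ne', Real.log_pow] at h1
    simp only [hD]; push_cast at h1; linarith
  set ψ : ℕ → ℝ := fun k => w k / ((k : ℝ) + 1) with hψ
  have hψ0 : ∀ k, 0 < ψ k := fun k => by have := hw k; positivity
  have h2w : ∀ k, w (k + 1) ≤ 2 * w k := by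
    intro k
    have h1 : w (k + 1) / (((k + 1 : ℕ) : ℝ) + 1) ≤ w k / ((k : ℝ) + 1) := ha (Nat.le_succ k)
    push_cast at h1
    rw [div_le_div_iff₀ (by positivity) (by positivity)] at h1
    have h3 : (0 : ℝ) ≤ k := Nat.cast_nonneg k
    have h4 := hw k
    have h5 : w (k + 1) * ((k : ℝ) + 1) ≤ 2 * w k * ((k : ℝ) + 1) := by nlinarith
    exact le_of_mul_le_mul_right h5 (by positivity)
  have key : ∀ k, (D (k + 1) - D k) * ψ k + (w (k + 1) - w k) / ((k : ℝ) + 1) / 2
      ≤ 4 * (x k * ψ k) := by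
    intro k
    have h1 : Real.log (Φ k) - 2 * x k ≤ Real.log (Φ (k + 1)) := by
      have h2 := Real.log_le_log (mul_pos (hpos k) (by linarith [hx1 k])) (step k (hpos k))
      have h3 : (0 : ℝ) < 1 - x k := by linarith [hx1 k]
      rw [Real.log_mul (hpos k).ne' h3.ne'] at h2
      have h4 := Real.one_sub_inv_le_log_of_pos h3
      have h5 : (1 - x k)⁻¹ ≤ 1 + 2 * x k := by
        rw [inv_le_iff_one_le_mul₀ h3]
        nlinarith [hx0 k, hx1 k]
      linarith
    have h6 : (w (k + 1) - w k) / (2 * w k) ≤ Real.log (w (k + 1)) - Real.log (w k) := by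
      rw [← Real.log_div (hw _).ne' (hw _).ne']
      have h7 := Real.one_sub_inv_le_log_of_pos (div_pos (hw (k + 1)) (hw k))
      refine le_trans ?_ h7
      have h8 : w k ≤ w (k + 1) := hm (Nat.le_succ k)
      have e : 1 - (w (k + 1) / w k)⁻¹ = (w (k + 1) - w k) / w (k + 1) := by
        have := (hw (k + 1)).ne'
        rw [inv_div]; field_simp
      rw [e]
      exact div_le_div_of_nonneg_left (by linarith) (hw _) (h2w k)
    have h9 : D (k + 1) - D k + (w (k + 1) - w k) / (2 * w k) ≤ 4 * x k := by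
      simp only [hD]; linarith
    have h10 := mul_le_mul_of_nonneg_right h9 (hψ0 k).le
    have e : (w (k + 1) - w k) / (2 * w k) * ψ k = (w (k + 1) - w k) / ((k : ℝ) + 1) / 2 := by
      have := (hw k).ne'
      simp only [hψ]; field_simp
    rw [add_mul, e] at h10
    linarith
  have am : ∀ k, 4 * (x k * ψ k) ≤ 16 * c * (B k * w k) + w k / ((k : ℝ) + 1) ^ 2 / 4 := by
    intro k
    have e1 : 16 * c * (B k * w k) = w k * (16 * x k ^ 2) := by rw [hx2]; ring
    have e2 : w k / ((k : ℝ) + 1) ^ 2 / 4 = w k * ((1 / ((k : ℝ) + 1)) ^ 2 / 4) := by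
      field_simp
    have e3 : 4 * (x k * ψ k) = w k * (4 * x k * (1 / ((k : ℝ) + 1))) := by
      simp only [hψ]; ring
    rw [e1, e2, e3, ← mul_add]
    refine mul_le_mul_of_nonneg_left ?_ (hw k).le
    nlinarith [sq_nonneg (4 * x k - (1 / ((k : ℝ) + 1)) / 2)]
  apply hns
  refine summable_of_sum_range_le (c := 4 * (16 * c * ∑' k, B k * w k + D 0 * ψ 0 + w 0))
    (fun k => by have := hw k; positivity) fun N => ?_
  have hT : 0 ≤ ∑' k, B k * w k := tsum_nonneg fun k => mul_nonneg (hB k) (hw k).le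
  have hP := mul_nonneg (hD0 0) (hψ0 0).le
  rcases N with _ | N
  · simp only [Finset.range_zero, Finset.sum_empty]
    have := hw 0
    positivity
  have a1 := abel_ge hD0 ha N
  have a2 := abel_two hw N
  have a3 := Finset.sum_le_sum fun k (_ : k ∈ Finset.range (N + 1)) => (key k).trans (am k)
  rw [Finset.sum_add_distrib, Finset.sum_add_distrib, ← Finset.sum_div, ← Finset.sum_div,
    ← Finset.mul_sum] at a3
  have a4 : ∑ k ∈ Finset.range (N + 1), B k * w k ≤ ∑' k, B k * w k :=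
    hs.sum_le_tsum _ fun k _ => mul_nonneg (hB k) (hw k).le
  have a5 := mul_le_mul_of_nonneg_left a4 (by positivity : 0 ≤ 16 * c)
  have a6 : 0 ≤ D (N + 1) * ψ N := mul_nonneg (hD0 _) (hψ0 _).le
  have a7 : 0 ≤ w (N + 1) / ((N : ℝ) + 1) := by have := hw (N + 1); positivity
  simp only [hψ] at a1 a3 a6 hP ⊢
  linarith

/-- Smooth truncations. -/
theorem exists_theta {p q δ : ℝ} (hpq : p < q) (hδ : 0 < δ) :
    ∃ θ : ℝ → ℝ, ContDiff ℝ ∞ θ ∧ (∀ y, 0 ≤ deriv θ y ∧ deriv θ y ≤ 1) ∧
      (∀ y ∈ Icc p q, deriv θ y = 1) ∧ (∀ y, y ≤ p - δ ∨ q + δ ≤ y → deriv θ y = 0) ∧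
      (∀ y, y ≤ p - δ → θ y = 0) ∧ (∀ y, 0 ≤ θ y ∧ θ y ≤ q - p + 2 * δ) ∧
      (∀ y, q ≤ y → q - p ≤ θ y) := by
  let φ : ContDiffBump ((p + q) / 2) := ⟨(q - p) / 2, (q - p) / 2 + δ, by linarith, by linarith⟩
  have hφ : ContDiff ℝ ∞ φ := φ.contDiff
  have hc : Continuous φ := φ.continuous
  set θ : ℝ → ℝ := fun y => ∫ t in (p - δ)..y, φ t with hθ
  have hd : ∀ y, HasDerivAt θ (φ y) y := fun y => (hc.integral_hasStrictDerivAt _ _).hasDerivAt
  have hde : deriv θ = φ := funext fun y => (hd y).deriv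
  have hdiff : Differentiable ℝ θ := fun y => (hd y).differentiableAt
  have h1 : ∀ y ∈ Icc p q, φ y = 1 := by
    intro y hy
    apply φ.one_of_mem_closedBall
    rw [mem_closedBall, Real.dist_eq, abs_le]
    constructor <;> simp only [φ] <;> linarith [hy.1, hy.2]
  have h0 : ∀ y, y ≤ p - δ ∨ q + δ ≤ y → φ y = 0 := by
    intro y hy
    apply φ.zero_of_le_dist
    rw [Real.dist_eq, le_abs]
    rcases hy with hy | hy
    · right; simp only [φ]; linarith
    · left; simp only [φ]; linarith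
  have hmono : Monotone θ := monotone_of_deriv_nonneg hdiff fun y => by rw [hde]; exact φ.nonneg
  have hz : ∀ y, y ≤ p - δ → θ y = 0 := by
    intro y hy
    simp only [hθ]
    rw [intervalIntegral.integral_congr (g := fun _ => 0), intervalIntegral.integral_zero]
    intro t ht
    rw [uIcc_of_ge hy] at ht
    exact h0 t (Or.inl ht.2)
  have hsub : ∀ y z, θ z - θ y = ∫ t in y..z, φ t := fun y z =>
    intervalIntegral.integral_interval_sub_left (hc.intervalIntegrable _ _)
      (hc.intervalIntegrable _ _)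
  have hge : ∀ y, 0 ≤ θ y := by
    intro y
    rcases le_total y (p - δ) with h | h
    · exact (hz y h).ge
    · exact (hz _ le_rfl).ge.trans (hmono h)
  refine ⟨θ, ?_, ?_, ?_, ?_, hz, fun y => ⟨hge y, ?_⟩, ?_⟩
  · rw [contDiff_infty_iff_deriv, hde]; exact ⟨hdiff, hφ⟩
  · intro y; rw [hde]; exact ⟨φ.nonneg, φ.le_one⟩
  · rw [hde]; exact h1
  · rw [hde]; exact h0
  · have h2 : θ (q + δ) ≤ q - p + 2 * δ := by
      have h3 := intervalIntegral.integral_mono_on (μ := volume) (a := p - δ) (b := q + δ)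
        (f := φ) (g := fun _ => (1 : ℝ)) (by linarith) (hc.intervalIntegrable _ _)
        intervalIntegrable_const fun t _ => φ.le_one
      simp only [intervalIntegral.integral_const, smul_eq_mul, mul_one] at h3
      simp only [hθ]; linarith
    rcases le_total y (q + δ) with h | h
    · exact (hmono h).trans h2
    · have h4 := hsub (q + δ) y
      rw [intervalIntegral.integral_congr (g := fun _ => 0), intervalIntegral.integral_zero] at h4
      · linarith
      · intro t ht
        rw [uIcc_of_le h] at ht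
        exact h0 t (Or.inr ht.1)
  · intro y hy
    have h4 := hsub p q
    rw [intervalIntegral.integral_congr (g := fun _ => 1)] at h4
    · simp only [intervalIntegral.integral_const, smul_eq_mul, mul_one] at h4
      have := hge p
      have := hmono hy
      linarith
    · intro t ht
      rw [uIcc_of_le hpq.le] at ht
      exact h1 t ht

/-- A function with vanishing essential oscillation has a continuous representative. -/
theorem exists_rep {X : Type*} [PseudoMetricSpace X] [MeasurableSpace X] [OpensMeasurableSpace X]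
    [SecondCountableTopology X] {μ : Measure X} [μ.IsOpenPosMeasure] {Ω : Set X} (hΩ : IsOpen Ω)
    {u : X → ℝ} (h : ∀ x ∈ Ω, ∀ η > 0, ∃ ρ > 0, ∃ m : ℝ, ∀ᵐ y ∂μ.restrict (ball x ρ),
      |u y - m| ≤ η) : ∃ v : X → ℝ, ContinuousOn v Ω ∧ u =ᵐ[μ.restrict Ω] v := by
  let S : X → Set ℝ := fun x => {c | ∃ ρ > 0, ∀ᵐ y ∂μ.restrict (ball x ρ), c ≤ u y}
  let v : X → ℝ := fun x => sSup (S x)
  have key : ∀ x ρ m η, (∀ᵐ y ∂μ.restrict (ball x ρ), |u y - m| ≤ η) → ∀ z ∈ ball x ρ,
      |v z - m| ≤ η := by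
    intro x ρ m η hy z hz
    obtain ⟨r, hr, hrs⟩ := Metric.isOpen_iff.1 isOpen_ball z hz
    have hy' := ae_restrict_of_ae_restrict_of_subset hrs hy
    have h1 : m - η ∈ S z := ⟨r, hr, by
      filter_upwards [hy'] with y hy; linarith [(abs_le.1 hy).1]⟩
    have h2 : ∀ c ∈ S z, c ≤ m + η := by
      rintro c ⟨r', hr', hc⟩
      have a1 := ae_restrict_of_ae_restrict_of_subset (ball_subset_ball (min_le_left r r')) hy'
      have a2 := ae_restrict_of_ae_restrict_of_subset (ball_subset_ball (min_le_right r r')) hc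
      have : (ae (μ.restrict (ball z (min r r')))).NeBot := by
        rw [ae_neBot, ne_eq, Measure.restrict_eq_zero]
        exact (measure_ball_pos μ z (lt_min hr hr')).ne'
      obtain ⟨y, hy1, hy2⟩ := (a1.and a2).exists
      linarith [(abs_le.1 hy1).2]
    have h3 := le_csSup ⟨_, h2⟩ h1
    have h4 := csSup_le ⟨_, h1⟩ h2
    rw [abs_le]; constructor <;> simp only [v] <;> linarith
  refine ⟨v, fun x hx => ?_, ?_⟩
  · refine (Metric.continuousAt_iff.2 fun η hη => ?_).continuousWithinAt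
    obtain ⟨ρ, hρ, m, hm⟩ := h x hx (η / 3) (by positivity)
    refine ⟨ρ, hρ, fun z hz => ?_⟩
    have a1 := abs_le.1 (key x ρ m _ hm z hz)
    have a2 := abs_le.1 (key x ρ m _ hm x (mem_ball_self hρ))
    rw [Real.dist_eq, abs_lt]; constructor <;> linarith [a1.1, a1.2, a2.1, a2.2]
  · have hn : ∀ n : ℕ, ∀ᵐ y ∂μ.restrict Ω, |u y - v y| ≤ 2 * (1 / ((n : ℝ) + 1)) := by
      intro n
      rw [ae_restrict_iff' hΩ.measurableSet, ae_iff]
      refine measure_null_of_locally_null _ fun x hx => ?_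
      simp only [mem_ofPred_eq, Classical.not_imp] at hx
      obtain ⟨ρ, hρ, m, hm⟩ := h x hx.1 (1 / ((n : ℝ) + 1)) (by positivity)
      refine ⟨{y | ¬ (y ∈ Ω → |u y - v y| ≤ 2 * (1 / ((n : ℝ) + 1)))} ∩ ball x ρ,
        inter_mem_nhdsWithin _ (ball_mem_nhds x hρ), ?_⟩
      have hm' := hm
      rw [ae_restrict_iff' measurableSet_ball, ae_iff] at hm'
      refine measure_mono_null (fun y hy => ?_) hm'
      simp only [mem_ofPred_eq, Classical.not_imp, mem_inter_iff] at hy ⊢
      refine ⟨hy.2, fun h5 => hy.1.2 ?_⟩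
      have a1 := abs_le.1 (key x ρ m _ hm y hy.2)
      have a2 := abs_le.1 h5
      rw [abs_le]; constructor <;> linarith [a1.1, a1.2, a2.1, a2.2]
    filter_upwards [ae_all_iff.2 hn] with y hy
    have ht : Tendsto (fun n : ℕ => 2 * (1 / ((n : ℝ) + 1))) atTop (𝓝 (2 * 0)) :=
      tendsto_one_div_add_atTop_nhds_zero_nat.const_mul 2
    have := ge_of_tendsto' ht hy
    rw [mul_zero] at this
    exact sub_eq_zero.1 (abs_nonpos_iff.1 this)

end Pool.Agent.Lib.OD
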