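import Pool.Agent.Lib.OD.Blue

set_option autoImplicit false

namespace Pool.Agent.OD66

/-- list access with a default value -/
def j12nth {α : Type} (d : α) : List α → ℕ → α
  | [], _ => d
  | a :: _, 0 => a
  | _ :: l, n + 1 => j12nth d l n

theorem j12nth_map {α β : Type} (f : α → β) (d : α) : ∀ (l : List α) (n : ℕ),
    j12nth (f d) (l.map f) n = f (j12nth d l n)
  | [], _ => rfl
  | _ :: _, 0 => rfl
  | _ :: l, n + 1 => j12nth_map f d l n

theorem j12nth_mem {α : Type} (d a : α) : ∀ l : List α, a ∈ l →
    ∃ n, n < l.length ∧ j12nth d l n = a
  | [], h => by simp at h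
  | b :: l, h => by
    rcases List.mem_cons.mp h with h | h
    · exact ⟨0, by simp, h.symm⟩
    · obtain ⟨n, h1, h2⟩ := j12nth_mem d a l h
      exact ⟨n + 1, by simpa using h1, h2⟩

/-- bit `i` of the entry `(x, y)` says that the pair `(x, y)` is in the minimal type number `i`;
numbers `0..3` are `T1 d e` (number `2 d + e`), numbers `4..75` are `fam false ++ fam true` -/
def j12ta : List (List ℕ) :=
  [[3401614098496, 70835497243044678205448, 4393751544001, 70835497243044678205448,
   70835497243044678205448, 70835497243044678205448, 4393751544001, 4393751544001,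
   4393751544001, 70835497243044678205448, 4393751544001],    [47223664687958963781634,
   3959959842912, 37778927495696976183304, 1030791892849, 4329323102180, 4226117795732,
   75557724109927828422664, 66108663184946634948610, 56525435523466447028226, 2147617865617,
   33204139328279146397704],    [4393751277140, 74339188501265541758978, 3957745123168,
   74948526111390909333512, 68398146798145161396226, 75253194916453593120776, 4362579410916,
   3573273845172, 1064596109169, 70683162836115289800706, 2727026342833],
   [47223664687958963781634, 4329323102180, 56525435523466447028226, 3959959842912,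
   4226117795732, 2147617865617, 37778927495696976183304, 75557724109927828422664,
   33204139328279146397704, 1030791892849, 66108663184946634948610],
   [47223664687958963781634, 1030791892849, 75557724109927828422664, 2147617865617,
   3959959842912, 4329323102180, 66108663184946634948610, 33204139328279146397704,
   37778927495696976183304, 4226117795732, 56525435523466447028226],
   [47223664687958963781634, 2147617865617, 66108663184946634948610, 4226117795732,
   1030791892849, 3959959842912, 33204139328279146397704, 56525435523466447028226,
   75557724109927828422664, 4329323102180, 37778927495696976183304],    [4393751277140,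
   68398146798145161396226, 1064596109169, 74339188501265541758978, 75253194916453593120776,
   70683162836115289800706, 3957745123168, 4362579410916, 2727026342833,
   74948526111390909333512, 3573273845172],    [4393751277140, 75253194916453593120776,
   2727026342833, 68398146798145161396226, 70683162836115289800706, 74948526111390909333512,
   1064596109169, 3957745123168, 3573273845172, 74339188501265541758978, 4362579410916],
   [4393751277140, 74948526111390909333512, 4362579410916, 70683162836115289800706,
   74339188501265541758978, 68398146798145161396226, 3573273845172, 2727026342833,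
   3957745123168, 75253194916453593120776, 1064596109169],    [47223664687958963781634,
   4226117795732, 33204139328279146397704, 4329323102180, 2147617865617, 1030791892849,
   56525435523466447028226, 37778927495696976183304, 66108663184946634948610, 3959959842912,
   75557724109927828422664],    [4393751277140, 70683162836115289800706, 3573273845172,
   75253194916453593120776, 74948526111390909333512, 74339188501265541758978, 2727026342833,
   1064596109169, 4362579410916, 68398146798145161396226, 3957745123168]]

/-- the table as a function -/
def j12t (x y : Z) : ℕ := j12nth 0 (j12nth [] j12ta x.val) y.val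

/-- the symmetric relation generated by a triple of rows -/
def j12rl (m : List Z × List Z × List Z) (x y : Z) : Bool :=
  if x = 0 then decide (y ∈ m.1) else
    if isQ x = true then decide (x ^ 9 * y ∈ m.2.1) else decide ((-x) ^ 9 * y ∈ m.2.2)

theorem j12_pow : ∀ x : Z, isQ x = true → x * x ^ 9 = 1 := by decide +kernel

theorem j12_neg : ∀ x : Z, x ≠ 0 → ¬ isQ x = true → isQ (-x) = true := by decide +kernel

theorem j12rl_sound {R : Z → Z → Prop} (hs : Sym R) (m : List Z × List Z × List Z)
    (h0 : ∀ y ∈ m.1, R 0 y) (h1 : ∀ y ∈ m.2.1, R 1 y) (h2 : ∀ y ∈ m.2.2, R (-1) y) (x y : Z)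
    (h : j12rl m x y = true) : R x y := by
  unfold j12rl at h
  by_cases hx : x = 0
  · rw [if_pos hx] at h
    rw [hx]; exact h0 y (of_decide_eq_true h)
  · rw [if_neg hx] at h
    by_cases hq : isQ x = true
    · rw [if_pos hq] at h
      have := hs x hq _ _ (h1 _ (of_decide_eq_true h))
      rwa [mul_one, ← mul_assoc, j12_pow x hq, one_mul] at this
    · rw [if_neg hq] at h
      have hq' := j12_neg x hx hq
      have := hs (-x) hq' _ _ (h2 _ (of_decide_eq_true h))
      rwa [mul_neg, mul_one, neg_neg, ← mul_assoc, j12_pow (-x) hq', one_mul] at this

theorem j12_lt : ∀ x y : Z, j12t x y < 2 ^ 76 := by decide +kernel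

theorem j12_chk1 : ∀ (d e : Bool) (x y : Z),
    (j12t x y).testBit (2 * d.toNat + e.toNat) = true →
      (if d = true then isQ (y - x) else isQ (x - y)) = true ∧ xor (isQ x) (isQ y) = e := by
  decide +kernel

theorem j12_chk2 : ∀ n, n < 72 → ∀ x y : Z, (j12t x y).testBit (n + 4) = true →
    j12rl (j12nth ([], [], []) (fam false ++ fam true) n) x y = true := by
  decide +kernel

theorem j12_len : (fam false ++ fam true).length = 72 := by decide

/-- a relation with admissible rows contains one of the 72 long minimal types -/
theorem j12_row_min {e : Bool} {R : Z → Z → Prop} (hs : Sym R) (h : RowOK e R) :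
    ∃ i, 4 ≤ i ∧ i < 76 ∧ ∀ x y, (j12t x y).testBit i = true → R x y := by
  obtain ⟨m, hm, h0, h1, h2⟩ := h
  have hm' : m ∈ fam false ++ fam true := by
    cases e
    · exact List.mem_append_left _ hm
    · exact List.mem_append_right _ hm
  obtain ⟨n, hn, hnm⟩ := j12nth_mem ([], [], []) m _ hm'
  rw [j12_len] at hn
  refine ⟨n + 4, by omega, by omega, fun x y hxy => ?_⟩
  have := j12_chk2 n hn x y hxy
  rw [hnm] at this
  exact j12rl_sound hs m h0 h1 h2 x y this

/-- every type contains one of the 76 minimal types -/
theorem j12_ty_min {e : Bool} {R : Z → Z → Prop} (h : Ty e R) :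
    ∃ i, i < 76 ∧ ∀ x y, (j12t x y).testBit i = true → R x y := by
  rcases h with ⟨_, d, hd⟩ | h
  · refine ⟨2 * d.toNat + e.toNat, by cases d <;> cases e <;> decide, fun x y hxy => ?_⟩
    exact hd x y (j12_chk1 d e x y hxy)
  · obtain ⟨i, _, h2, h3⟩ := j12_row_min h.1 h.2.1
    exact ⟨i, h2, h3⟩

/-- concatenation of blocks of `w` bits -/
def j12cat (w : ℕ) (f : ℕ → ℕ) : ℕ → ℕ
  | 0 => 0
  | n + 1 => j12cat w f n ||| (f n <<< (w * n))

theorem j12cat_bit (w : ℕ) (f : ℕ → ℕ) (hf : ∀ n, f n < 2 ^ w) (i j : ℕ) (hj : j < w) :
    ∀ N, (j12cat w f N).testBit (w * i + j) = true → (f i).testBit j = true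
  | 0, h => by simp [j12cat] at h
  | N + 1, h => by
    rw [j12cat, Nat.testBit_or, Bool.or_eq_true] at h
    rcases h with h | h
    · exact j12cat_bit w f hf i j hj N h
    · rw [Nat.testBit_shiftLeft] at h
      simp only [Bool.and_eq_true, decide_eq_true_eq] at h
      obtain ⟨h1, h2⟩ := h
      have h3 : w * i + j - w * N < w := by
        by_contra hc
        have := Nat.testBit_lt_two_pow (lt_of_lt_of_le (hf N)
          (Nat.pow_le_pow_right (by norm_num) (not_lt.mp hc)))
        rw [this] at h2
        exact Bool.false_ne_true h2
      have h4 : N = i := by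
        rcases lt_trichotomy N i with h | h | h
        · have : w * (N + 1) ≤ w * i := Nat.mul_le_mul_left w h
          rw [Nat.mul_succ] at this
          omega
        · exact h
        · have : w * (i + 1) ≤ w * N := Nat.mul_le_mul_left w h
          rw [Nat.mul_succ] at this
          omega
      subst h4
      rwa [Nat.add_sub_cancel_left] at h2

/-- union over a list -/
def j12or {α : Type} (f : α → ℕ) : List α → ℕ
  | [] => 0
  | a :: l => f a ||| j12or f l

theorem j12or_bit {α : Type} (f : α → ℕ) (k : ℕ) : ∀ l : List α,
    (j12or f l).testBit k = true → ∃ a ∈ l, (f a).testBit k = true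
  | [], h => by simp [j12or] at h
  | a :: l, h => by
    rw [j12or, Nat.testBit_or, Bool.or_eq_true] at h
    rcases h with h | h
    · exact ⟨a, by simp, h⟩
    · obtain ⟨b, hb, h'⟩ := j12or_bit f k l h
      exact ⟨b, by simp [hb], h'⟩

/-- intersection over a list, inside `u` -/
def j12and {α : Type} (u : ℕ) (f : α → ℕ) : List α → ℕ
  | [] => u
  | a :: l => f a &&& j12and u f l

theorem j12and_bit {α : Type} (u : ℕ) (f : α → ℕ) (k : ℕ) : ∀ l : List α,
    (j12and u f l).testBit k = true → u.testBit k = true ∧ ∀ a ∈ l, (f a).testBit k = true
  | [], h => ⟨h, by simp⟩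
  | a :: l, h => by
    rw [j12and, Nat.testBit_and, Bool.and_eq_true] at h
    obtain ⟨h1, h2⟩ := j12and_bit u f k l h.2
    refine ⟨h1, fun b hb => ?_⟩
    rcases List.mem_cons.mp hb with hb | hb
    · rw [hb]; exact h.1
    · exact h2 b hb

end Pool.Agent.OD66
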