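import Pool.Agent.Lib.OD.Level
import Pool.Agent.Lib.MP_6c3a95_mp.Moll

/-! Smooth approximation and testing with truncations. -/

set_option autoImplicit false

open MeasureTheory Metric Set Filter Topology
open scoped ContDiff ENNReal NNReal InnerProductSpace

namespace Pool.Agent.Lib.OD

open Pool.Agent.Lib.MP_6c3a95_mp

/-- the plane -/
abbrev Pl := EuclideanSpace ℝ (Fin 2)

/-- Lebesgue measure on a disc -/
noncomputable abbrev dm (x : Pl) (r : ℝ) : Measure Pl := volume.restrict (ball x r)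

instance (x : Pl) (r : ℝ) : IsFiniteMeasure (dm x r) :=
  ⟨by rw [Measure.restrict_apply_univ]; exact measure_ball_lt_top⟩

/-- `G` is the weak gradient of `u` -/
def WG (R : ℝ) (u : Pl → ℝ) (G : Pl → Pl) : Prop :=
  ∀ h : Pl → ℝ, ContDiff ℝ ∞ h → HasCompactSupport h → tsupport h ⊆ ball 0 R → ∀ i : Fin 2,
    ∫ x, u x * fderiv ℝ h x (EuclideanSpace.single i 1) ∂dm 0 R = - ∫ x, G x i * h x ∂dm 0 R

/-- the weak equation -/
def EQ (R : ℝ) (b G : Pl → Pl) : Prop :=
  ∀ h : Pl → ℝ, ContDiff ℝ ∞ h → HasCompactSupport h → tsupport h ⊆ ball 0 R →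
    ∫ x, ⟪G x, gradient h x + h x • b x⟫_ℝ ∂dm 0 R = 0

/-- smooth approximation on a disc -/
structure Apx (x0 : Pl) (r : ℝ) (u : Pl → ℝ) (G : Pl → Pl) (U : ℕ → Pl → ℝ) : Prop where
  sm : ∀ n, ContDiff ℝ ∞ (U n)
  mem : MemLp G 2 (dm x0 r)
  ae : ∀ᵐ x ∂dm x0 r, Tendsto (fun n => U n x) atTop (𝓝 (u x))
  l2 : Tendsto (fun n => ∫ x, ‖gradient (U n) x - G x‖ ^ 2 ∂dm x0 r) atTop (𝓝 0)

lemma norm_grad (f : Pl → ℝ) (x : Pl) : ‖gradient f x‖ = ‖fderiv ℝ f x‖ :=
  LinearIsometryEquiv.norm_map _ _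

lemma grad_apply (f : Pl → ℝ) (x : Pl) (i : Fin 2) :
    gradient f x i = fderiv ℝ f x (EuclideanSpace.single i 1) := by
  rw [← inner_gradient_left, EuclideanSpace.inner_single_right]; simp

lemma cont_grad {f : Pl → ℝ} (hf : ContDiff ℝ ∞ f) : Continuous (gradient f) :=
  (InnerProductSpace.toDual ℝ Pl).symm.continuous.comp (hf.continuous_fderiv (by simp))

lemma memLp_grad {f : Pl → ℝ} (hf : ContDiff ℝ ∞ f) (x : Pl) (r : ℝ) :
    MemLp (gradient f) 2 (dm x r) := by
  obtain ⟨C, hC⟩ := (isCompact_closedBall x r).exists_bound_of_continuousOn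
    (cont_grad hf).continuousOn
  refine MemLp.of_bound (cont_grad hf).aestronglyMeasurable C ?_
  filter_upwards [ae_restrict_mem measurableSet_ball] with y hy using hC y (ball_subset_closedBall hy)

lemma cball_sub {x : Pl} {r R : ℝ} (h : ‖x‖ + r < R) : closedBall x r ⊆ ball 0 R :=
  closedBall_subset_ball' (by rw [dist_zero_right]; linarith)

lemma dm_le {x : Pl} {r R : ℝ} (h : ‖x‖ + r < R) : dm x r ≤ dm 0 R :=
  Measure.restrict_mono (ball_subset_closedBall.trans (cball_sub h)) le_rfl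

theorem exists_apx {R : ℝ} {u : Pl → ℝ} {G : Pl → Pl} (hu : MemLp u 2 (dm 0 R))
    (hG : MemLp G 2 (dm 0 R)) (hw : WG R u G) {x0 : Pl} {r : ℝ} (h : ‖x0‖ + r < R) :
    ∃ U, Apx x0 r u G U := by
  have mb : MeasurableSet (ball (0 : Pl) R) := measurableSet_ball
  have hsub : ball x0 r ⊆ ball 0 R := ball_subset_closedBall.trans (cball_sub h)
  set v := (ball (0 : Pl) R).indicator u with hv
  have hv2 : MemLp v 2 volume := (memLp_indicator_iff_restrict mb).2 hu
  let g : Fin 2 → Pl → ℝ := fun i => (ball (0 : Pl) R).indicator fun x => G x i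
  have hg2 : ∀ i, MemLp (g i) 2 volume := fun i => (memLp_indicator_iff_restrict mb).2
    ((EuclideanSpace.proj (𝕜 := ℝ) i).comp_memLp' hG)
  have hind : ∀ (f k : Pl → ℝ) (z : Pl), mol volume ((ball (0 : Pl) R).indicator f) k z
      = ∫ t, f t * k (z - t) ∂dm 0 R := by
    intro f k z
    rw [mol, ← integral_indicator mb]
    congr 1; ext t
    by_cases ht : t ∈ ball (0 : Pl) R <;> simp [ht]
  have key : ∀ n : ℕ, 1 / ((n : ℝ) + 1) < R - (‖x0‖ + r) → ∀ z ∈ ball x0 r, ∀ i,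
      gradient (mol volume v (rho volume n)) z i = mol volume (g i) (rho volume n) z := by
    intro n hn z hz i
    have hρ := rho_test (μ := (volume : Measure Pl)) n
    have h1 : HasLineDerivAt ℝ (mol volume v (rho volume n)) _ z (EuclideanSpace.single i 1) :=
      mol_LD hv2 hρ (EuclideanSpace.single i 1) z
    have h2 := (((mol_smooth hv2 hρ).differentiable (by simp) z).hasFDerivAt.hasLineDerivAt
      (EuclideanSpace.single i 1)).unique h1
    have h3 := hw _ (hρ.refl z).smooth (hρ.refl z).cpt (by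
      refine (closure_minimal (t := closedBall z (1 / ((n : ℝ) + 1))) (fun t ht => ?_)
        isClosed_closedBall).trans (cball_sub ?_)
      · have h4 : z - t ∈ Function.support (rho (volume : Measure Pl) n) := ht
        rw [rho, ContDiffBump.support_normed_eq, mem_ball_zero_iff, ← dist_eq_norm] at h4
        rw [mem_closedBall, dist_comm]
        exact h4.le
      · have h5 := norm_le_of_mem_closedBall (ball_subset_closedBall hz)
        linarith) i
    simp only [hρ.dd_refl, mul_neg, integral_neg, neg_inj] at h3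
    rw [grad_apply, h2, hv, hind, hind, h3]
  obtain ⟨N, hN⟩ := exists_nat_one_div_lt (sub_pos.2 h)
  have hsh : Tendsto (fun n => n + N) atTop atTop := tendsto_add_atTop_nat N
  refine ⟨fun n => mol volume v (rho volume (n + N)), fun n => mol_smooth hv2 (rho_test _),
    hG.mono_measure (dm_le h), ?_, ?_⟩
  · have hr : Tendsto (fun n => (bump Pl n).rOut) atTop (𝓝 0) :=
      tendsto_one_div_add_atTop_nhds_zero_nat
    have := ContDiffBump.ae_convolution_tendsto_right_of_locallyIntegrable (μ := volume) (K := 2) hr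
      (Eventually.of_forall fun n => by
        simp only [bump]; apply le_of_eq; field_simp) (hv2.locallyIntegrable (by norm_num))
    filter_upwards [ae_restrict_of_ae this, ae_restrict_mem measurableSet_ball] with x hx hx2
    simp only [convolution_eq_swap, ContinuousLinearMap.lsmul_apply, smul_eq_mul] at hx
    have h6 : Tendsto (fun n => mol volume v (rho volume n) x) atTop (𝓝 (v x)) := by
      simpa only [mol, rho, mul_comm] using hx
    rw [hv, indicator_of_mem (hsub hx2)] at h6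
    exact h6.comp hsh
  · let e : Fin 2 → ℕ → Pl → ℝ := fun i n => mol volume (g i) (rho volume n) - g i
    have hc : ∀ i, Cv volume (e i) 0 := fun i =>
      ⟨fun n => ((mol_cv (hg2 i)).mem n).sub (hg2 i), MemLp.zero,
        by simpa using (mol_cv (hg2 i)).tend⟩
    have ht := fun i => ((hc i).integral_mul (hc i)).comp hsh
    have hi : ∀ i n, Integrable (fun x => e i n x * e i n x) volume := fun i n =>
      ((hc i).mem n).integrable_mul ((hc i).mem n)
    have h7 := (ht 0).add (ht 1)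
    simp only [Pi.zero_apply, mul_zero, integral_zero, add_zero] at h7
    refine squeeze_zero (fun n => integral_nonneg fun x => sq_nonneg _) (fun n => ?_) h7
    have h8 := fun i => setIntegral_le_integral (s := ball x0 r) (hi i (n + N))
      (Eventually.of_forall fun x => mul_self_nonneg _)
    refine le_trans (le_of_eq ?_) (add_le_add (h8 0) (h8 1))
    rw [← integral_add (hi 0 _).integrableOn (hi 1 _).integrableOn]
    refine setIntegral_congr_fun measurableSet_ball fun x hx => ?_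
    have hn : 1 / (((n + N : ℕ) : ℝ) + 1) < R - (‖x0‖ + r) :=
      (Nat.one_div_le_one_div (Nat.le_add_left N n)).trans_lt hN
    simp only [EuclideanSpace.norm_sq_eq, Fin.sum_univ_two, PiLp.sub_apply, key _ hn x hx, e,
      Pi.sub_apply, g, indicator_of_mem (hsub hx), Real.norm_eq_abs, sq_abs]
    ring

lemma Apx.l1 {x0 : Pl} {r : ℝ} {u : Pl → ℝ} {G : Pl → Pl} {U : ℕ → Pl → ℝ} (h : Apx x0 r u G U)
    {w : Pl → ℝ} (hw : MemLp w 2 (dm x0 r)) :
    Tendsto (fun n => ∫ x, w x * ‖gradient (U n) x - G x‖ ∂dm x0 r) atTop (𝓝 0) := by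
  have h1 := (h.l2.const_mul (∫ x, w x ^ 2 ∂dm x0 r)).sqrt
  rw [mul_zero, Real.sqrt_zero] at h1
  refine squeeze_zero_norm (fun n => ?_) h1
  exact Real.abs_le_sqrt (cs hw ((memLp_grad (h.sm n) x0 r).sub h.mem).norm)

lemma Apx.dct {x0 : Pl} {r : ℝ} {u : Pl → ℝ} {G : Pl → Pl} {U : ℕ → Pl → ℝ} (h : Apx x0 r u G U)
    {φ : ℝ → ℝ} (hφ : Continuous φ) {M : ℝ} (h0 : ∀ y, 0 ≤ φ y) (hM : ∀ y, φ y ≤ M) {f : Pl → ℝ}
    (hf : Integrable f (dm x0 r)) :
    Tendsto (fun n => ∫ x, φ (U n x) * f x ∂dm x0 r) atTop (𝓝 (∫ x, φ (u x) * f x ∂dm x0 r)) := by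
  refine tendsto_integral_of_dominated_convergence (fun x => M * ‖f x‖)
    (fun n => (hφ.comp (h.sm n).continuous).aestronglyMeasurable.mul hf.1) (hf.norm.const_mul M)
    (fun n => Eventually.of_forall fun x => ?_) ?_
  · rw [norm_mul, Real.norm_of_nonneg (h0 _)]
    exact mul_le_mul_of_nonneg_right (hM _) (norm_nonneg _)
  · filter_upwards [h.ae] with x hx using ((hφ.tendsto _).comp hx).mul_const _

lemma cut {U : Pl → ℝ} (hU : ContDiff ℝ ∞ U) {x0 : Pl} {r s t : ℝ} {θ : ℝ → ℝ}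
    (hb : ∀ y ∈ sphere x0 r, U y ≤ s) (hst : s < t) (hθ : Tr t θ) {h : Pl → ℝ}
    (hh : h = (ball x0 r).indicator fun x => θ (U x)) :
    ContDiff ℝ ∞ h ∧ HasCompactSupport h ∧ tsupport h ⊆ closedBall x0 r ∧
      ∀ x, gradient h x = (ball x0 r).indicator (fun x => deriv θ (U x) • gradient U x) x := by
  have l1 : ∀ x ∈ ball x0 r, h =ᶠ[𝓝 x] fun x => θ (U x) := fun x hx => by
    filter_upwards [isOpen_ball.mem_nhds hx] with y hy
    rw [hh, indicator_of_mem hy]
  have l2 : ∀ x ∉ ball x0 r, h =ᶠ[𝓝 x] fun _ => 0 := fun x hx => by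
    rw [mem_ball, not_lt] at hx
    rcases hx.eq_or_lt with h1 | h1
    · have : ∀ᶠ y in 𝓝 x, U y < t :=
        hU.continuous.continuousAt.eventually_lt continuousAt_const ((hb x h1.symm).trans_lt hst)
      filter_upwards [this] with y hy
      rw [hh]
      exact indicator_apply_eq_zero.2 fun _ => hθ.zero _ hy.le
    · filter_upwards [isClosed_closedBall.isOpen_compl.mem_nhds
        (show x ∈ (closedBall x0 r)ᶜ from not_le.2 h1)] with y hy
      rw [hh, indicator_of_notMem fun h2 => hy (ball_subset_closedBall h2)]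
  have hs : tsupport h ⊆ closedBall x0 r := closure_minimal
    (by rw [hh]; exact support_indicator_subset.trans ball_subset_closedBall) isClosed_closedBall
  refine ⟨contDiff_iff_contDiffAt.2 fun x => ?_,
    (isCompact_closedBall x0 r).of_isClosed_subset (isClosed_tsupport _) hs, hs, fun x => ?_⟩
  · by_cases hx : x ∈ ball x0 r
    · exact (hθ.sm.comp hU).contDiffAt.congr_of_eventuallyEq (l1 x hx)
    · exact contDiffAt_const.congr_of_eventuallyEq (l2 x hx)
  · by_cases hx : x ∈ ball x0 r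
    · have h1 := (hθ.sm.differentiable (by simp) (U x)).hasDerivAt.comp_hasFDerivAt x
        (hU.differentiable (by simp) x).hasFDerivAt
      rw [indicator_of_mem hx, gradient, (l1 x hx).fderiv_eq, gradient, ← map_smul]
      exact congrArg _ h1.fderiv
    · rw [indicator_of_notMem hx, gradient, (l2 x hx).fderiv_eq]
      simp

lemma int_inner {μ : Measure Pl} {F G : Pl → Pl} (hF : MemLp F 2 μ) (hG : MemLp G 2 μ) :
    Integrable (fun x => ⟪F x, G x⟫_ℝ) μ :=
  (hF.norm.integrable_mul hG.norm).mono' (hF.1.inner hG.1)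
    (Eventually.of_forall fun _ => norm_inner_le_norm _ _)

theorem testA {R : ℝ} {b G : Pl → Pl} (hb : MemLp b 2 (dm 0 R)) (he : EQ R b G) {x0 : Pl}
    {r : ℝ} (hr : ‖x0‖ + r < R) {u : Pl → ℝ} {U : ℕ → Pl → ℝ} (h : Apx x0 r u G U) {s t : ℝ}
    (hs : ∀ n, ∀ y ∈ sphere x0 r, U n y ≤ s) (hst : s < t) {θ : ℝ → ℝ} (hθ : Tr t θ) :
    ∫ x, deriv θ (u x) * ‖G x‖ ^ 2 ∂dm x0 r ≤ ∫ x, θ (u x) * (‖G x‖ * ‖b x‖) ∂dm x0 r := by
  obtain ⟨M, hM⟩ := hθ.bd
  have hb' := hb.mono_measure (dm_le hr)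
  have i1 : Integrable (fun x => ‖G x‖ ^ 2) (dm x0 r) := h.mem.norm.integrable_sq
  have i2 : Integrable (fun x => ‖G x‖ * ‖b x‖) (dm x0 r) := h.mem.norm.integrable_mul hb'.norm
  have t1 := h.dct hθ.cd hθ.d0 hθ.d1 i1
  have t2 := (h.dct hθ.sm.continuous hθ.nn hM i2).add (h.l1 h.mem.norm)
  rw [add_zero] at t2
  refine le_of_tendsto_of_tendsto' t1 t2 fun n => ?_
  obtain ⟨c1, c2, c3, c4⟩ := cut (h.sm n) (hs n) hst hθ rfl
  have e0 := he _ c1 c2 (c3.trans (cball_sub hr))
  have mU := (h.sm n).continuous.aemeasurable (μ := dm x0 r)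
  have hgU := memLp_grad (h.sm n) x0 r
  have e1 : ∫ x, (deriv θ (U n x) * ⟪G x, gradient (U n) x⟫_ℝ + θ (U n x) * ⟪G x, b x⟫_ℝ)
      ∂dm x0 r = 0 := by
    have e2 : dm x0 r = (dm 0 R).restrict (ball x0 r) := by
      rw [Measure.restrict_restrict measurableSet_ball,
        inter_eq_left.2 (ball_subset_closedBall.trans (cball_sub hr))]
    rw [← e0, e2, ← integral_indicator measurableSet_ball]
    congr 1; ext x
    by_cases hx : x ∈ ball x0 r
    · simp only [c4, indicator_of_mem hx, inner_add_right, inner_smul_right]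
    · simp only [c4, indicator_of_notMem hx, zero_smul, add_zero, inner_zero_right]
  have j1 := int_bdd_mul hθ.cd hθ.d0 hθ.d1 mU i1
  have j2 := int_bdd_mul hθ.sm.continuous hθ.nn hM mU i2
  have j3 : Integrable (fun x => ‖G x‖ * ‖gradient (U n) x - G x‖) (dm x0 r) :=
    h.mem.norm.integrable_mul (hgU.sub h.mem).norm
  have j4 : Integrable (fun x => deriv θ (U n x) * ⟪G x, gradient (U n) x⟫_ℝ
      + θ (U n x) * ⟪G x, b x⟫_ℝ) (dm x0 r) :=
    (int_bdd_mul hθ.cd hθ.d0 hθ.d1 mU (int_inner h.mem hgU)).add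
      (int_bdd_mul hθ.sm.continuous hθ.nn hM mU (int_inner h.mem hb'))
  have j5 : Integrable (fun x => θ (U n x) * (‖G x‖ * ‖b x‖)
      + ‖G x‖ * ‖gradient (U n) x - G x‖) (dm x0 r) := j2.add j3
  rw [← integral_add j2 j3, ← add_zero (∫ x, _ + _ ∂dm x0 r), ← e1, ← integral_add j5 j4]
  refine integral_mono j1 (j5.add j4) fun x => ?_
  have a1 := abs_le.1 (abs_real_inner_le_norm (G x) (b x))
  have a2 := abs_le.1 (abs_real_inner_le_norm (G x) (gradient (U n) x - G x))
  rw [inner_sub_right, real_inner_self_eq_norm_sq] at a2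
  have a3 := mul_le_mul_of_nonneg_left a1.1 (hθ.nn (U n x))
  have a4 := mul_le_mul_of_nonneg_left a2.1 (hθ.d0 (U n x))
  have a5 := mul_le_of_le_one_left
    (mul_nonneg (norm_nonneg (G x)) (norm_nonneg (gradient (U n) x - G x))) (hθ.d1 (U n x))
  simp only
  nlinarith

lemma gns : ∃ C : ℝ, 0 < C ∧ ∀ h : Pl → ℝ, ContDiff ℝ 1 h → HasCompactSupport h →
    ∫ x, h x ^ 2 ≤ C * (∫ x, ‖fderiv ℝ h x‖) ^ 2 := by
  set K : ℝ≥0 := eLpNormLESNormFDerivOneConst (volume : Measure Pl) ((2 : ℝ≥0) : ℝ) with hK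
  refine ⟨(K : ℝ) ^ 2 + 1, by positivity, fun u hu h2 => ?_⟩
  have h := eLpNorm_le_eLpNorm_fderiv_one (volume : Measure Pl) hu h2 (p := 2)
    (by simpa using NNReal.HolderConjugate.two_two)
  have m1 : MemLp u ((2 : ℝ≥0) : ℝ≥0∞) volume := hu.continuous.memLp_of_hasCompactSupport h2
  have m2 : Integrable (fderiv ℝ u) volume :=
    (hu.continuous_fderiv (by simp)).integrable_of_hasCompactSupport (h2.fderiv ℝ)
  have p1 : 0 ≤ ∫ x, ‖fderiv ℝ u x‖ := integral_nonneg fun x => norm_nonneg _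
  have p2 : 0 ≤ ∫ x, u x ^ 2 := integral_nonneg fun x => sq_nonneg _
  rw [m1.eLpNorm_eq_integral_rpow_norm (by simp) (by simp), eLpNorm_one_eq_lintegral_enorm,
    ← ofReal_integral_norm_eq_lintegral_enorm m2, ← hK, ← ENNReal.ofReal_coe_nnreal (p := K),
    ← ENNReal.ofReal_mul K.coe_nonneg, ENNReal.ofReal_le_ofReal_iff (by positivity)] at h
  simp only [ENNReal.coe_ofNat, ENNReal.toReal_ofNat, Real.rpow_ofNat, Real.norm_eq_abs,
    sq_abs] at h
  rw [← one_div, ← Real.sqrt_eq_rpow, Real.sqrt_le_left (by positivity)] at h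
  nlinarith [sq_nonneg (∫ x, ‖fderiv ℝ u x‖)]

theorem testB : ∃ C : ℝ, 0 < C ∧ ∀ {G : Pl → Pl} {x0 : Pl} {r : ℝ} {u : Pl → ℝ}
    {U : ℕ → Pl → ℝ}, Apx x0 r u G U → ∀ {s t : ℝ}, (∀ n, ∀ y ∈ sphere x0 r, U n y ≤ s) →
    s < t → ∀ {θ : ℝ → ℝ}, Tr t θ →
    ∫ x, θ (u x) ^ 2 ∂dm x0 r ≤ C * (∫ x, deriv θ (u x) * ‖G x‖ ∂dm x0 r) ^ 2 := by
  obtain ⟨C, hC, hg⟩ := gns
  refine ⟨C, hC, fun {G x0 r u U} h {s t} hs hst {θ} hθ => ?_⟩
  obtain ⟨M, hM⟩ := hθ.bd
  have i1 : Integrable (fun x => ‖G x‖) (dm x0 r) := (h.mem.integrable (by norm_num)).norm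
  have t1 := h.dct (hθ.sm.continuous.pow 2) (M := M ^ 2) (fun y => sq_nonneg _)
    (fun y => pow_le_pow_left₀ (hθ.nn y) (hM y) 2) (integrable_const (1 : ℝ))
  have t2 := (((h.dct hθ.cd hθ.d0 hθ.d1 i1).add (h.l1 (memLp_const (1 : ℝ)))).pow 2).const_mul C
  simp only [mul_one, one_mul, add_zero] at t1 t2
  refine le_of_tendsto_of_tendsto' t1 t2 fun n => ?_
  obtain ⟨c1, c2, -, c4⟩ := cut (h.sm n) (hs n) hst hθ rfl
  have e0 := hg _ (c1.of_le (by norm_cast)) c2
  have mU := (h.sm n).continuous.aemeasurable (μ := dm x0 r)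
  have hgU := memLp_grad (h.sm n) x0 r
  have e1 : ∫ x, (ball x0 r).indicator (fun x => θ (U n x)) x ^ 2
      = ∫ x, θ (U n x) ^ 2 ∂dm x0 r := by
    rw [← integral_indicator measurableSet_ball]
    congr 1; ext x
    by_cases hx : x ∈ ball x0 r <;> simp [hx]
  have e2 : ∫ x, ‖fderiv ℝ ((ball x0 r).indicator fun x => θ (U n x)) x‖
      = ∫ x, deriv θ (U n x) * ‖gradient (U n) x‖ ∂dm x0 r := by
    rw [← integral_indicator measurableSet_ball]
    congr 1; ext x
    rw [← norm_grad, c4]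
    by_cases hx : x ∈ ball x0 r
    · simp only [indicator_of_mem hx, norm_smul, Real.norm_of_nonneg (hθ.d0 _)]
    · simp [hx]
  rw [e1, e2] at e0
  refine e0.trans (mul_le_mul_of_nonneg_left (pow_le_pow_left₀
    (integral_nonneg fun x => mul_nonneg (hθ.d0 _) (norm_nonneg _)) ?_ 2) hC.le)
  have j1 := int_bdd_mul hθ.cd hθ.d0 hθ.d1 mU i1
  have j3 : Integrable (fun x => ‖gradient (U n) x - G x‖) (dm x0 r) :=
    ((hgU.sub h.mem).integrable (by norm_num)).norm
  rw [← integral_add j1 j3]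
  refine integral_mono (int_bdd_mul hθ.cd hθ.d0 hθ.d1 mU (hgU.integrable (by norm_num)).norm)
    (j1.add j3) fun x => ?_
  have a1 := norm_add_le (G x) (gradient (U n) x - G x)
  rw [add_sub_cancel] at a1
  have a2 := mul_le_mul_of_nonneg_left a1 (hθ.d0 (U n x))
  have a5 := mul_le_of_le_one_left (norm_nonneg (gradient (U n) x - G x)) (hθ.d1 (U n x))
  simp only
  nlinarith

end Pool.Agent.Lib.OD
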